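import Pool.Agent.EinV.FinI

/-!
# One parameter subgroups normalise

`exists_exp`: `g' = exp (t • lmul x)` (real matrices, `open scoped Matrix.Norms.L2Operator` or `Matrix.exp`), orthogonal (`lmul x` is skew), commutes with all `rmul u`.
* A real matrix which commutes with all `rmul u` is `lmul g`: `g i j = ∑ p, (g' *ᵥ co (Pi.single j 1)) (i, p) • b p`, i.e. `g i j = (co.symm (g' *ᵥ co (Pi.single j 1))) i`.
* `g' * lmul y * g'⁻¹ = exp (t ad X) (lmul y)`, `X = lmul x`, lies in the finite dimensional (closed) subspace `lmul h`, which is preserved by `ad X`: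
  left and right multiplication by `X` commute, `NormedSpace.exp_add_of_commute`, and the partial sums of the exponential series lie in the subspace.
`inv_of_norm`: `W' = W.map co` is closed, `t ↦ exp (t X) v` has derivative `X v` at `0`.
-/

namespace Pool.Agent.EinV

open Matrix Pool.Agent.EStab Pool.Agent.EinS Pool.Agent.SmIso Pool.Agent.EinU Pool.Agent.EinG

attribute [local instance 100] LieRing.ofAssociativeRing

section

/-- The exponential in a real Banach algebra. -/
private noncomputable def ExpN_e {R : Type} [NormedRing R] [NormedAlgebra ℝ R] (x : R) : R :=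
  NormedSpace.exp x

private theorem ExpN_e_zero {R : Type} [NormedRing R] [NormedAlgebra ℝ R] :
    ExpN_e (0 : R) = 1 := NormedSpace.exp_zero

private theorem ExpN_e_deriv {R : Type} [NormedRing R] [NormedAlgebra ℝ R] [CompleteSpace R]
    (x : R) (t : ℝ) : HasDerivAt (fun t : ℝ => ExpN_e (t • x)) (x * ExpN_e (t • x)) t :=
  hasDerivAt_exp_smul_const' (𝕂 := ℝ) x t

variable {E : Type} [NormedRing E] [NormedAlgebra ℝ E] [FiniteDimensional ℝ E]

private theorem ExpN_inv (X : E) (t : ℝ) :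
    NormedSpace.exp (t • X) * NormedSpace.exp (t • (-X)) = 1 := by
  have : CompleteSpace E := FiniteDimensional.complete ℝ E
  let _ : NormedAlgebra ℚ E := NormedAlgebra.restrictScalars ℚ ℝ E
  have h1 : Commute (t • X) (t • (-X)) := by
    rw [smul_neg]
    exact (Commute.refl _).neg_right
  rw [← NormedSpace.exp_add_of_commute h1, smul_neg, add_neg_cancel, NormedSpace.exp_zero]

/-- The conjugation with a one parameter group preserves the subspaces which are preserved by the
commutator. -/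
private theorem ExpN_adE (X : E) (S : Submodule ℝ E)
    (hS : ∀ Y ∈ S, X * Y - Y * X ∈ S) (t : ℝ) {Y : E} (hY : Y ∈ S) :
    NormedSpace.exp (t • X) * Y * NormedSpace.exp (t • (-X)) ∈ S := by
  have : CompleteSpace E := FiniteDimensional.complete ℝ E
  have : CompleteSpace S := FiniteDimensional.complete ℝ S
  let D : S →ₗ[ℝ] S :=
    { toFun := fun Z => ⟨X * Z.1 - Z.1 * X, hS Z.1 Z.2⟩
      map_add' := by
        intro Z Z'
        apply Subtype.ext
        change X * (Z.1 + Z'.1) - (Z.1 + Z'.1) * X = X * Z.1 - Z.1 * X + (X * Z'.1 - Z'.1 * X)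
        noncomm_ring
      map_smul' := by
        intro c Z
        apply Subtype.ext
        change X * (c • Z.1) - (c • Z.1) * X = c • (X * Z.1 - Z.1 * X)
        rw [mul_smul_comm, smul_mul_assoc, smul_sub] }
  let Dc : S →L[ℝ] S := LinearMap.toContinuousLinearMap D
  let G : ℝ → S := fun t => ExpN_e (t • Dc) ⟨Y, hY⟩
  have hDc : ∀ Z : S, (Dc Z : E) = X * Z.1 - Z.1 * X := fun Z => rfl
  have hG : ∀ t, HasDerivAt G (Dc (G t)) t := by
    intro t
    have h1 := ExpN_e_deriv Dc t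
    have h2 := h1.clm_apply (hasDerivAt_const t (⟨Y, hY⟩ : S))
    rw [map_zero, add_zero] at h2
    exact h2
  have hG' : ∀ t, HasDerivAt (fun t => (G t : E)) (X * (G t).1 - (G t).1 * X) t := by
    intro t
    have h1 := (S.subtypeL.hasFDerivAt (x := G t)).comp_hasDerivAt t (hG t)
    exact h1
  let H : ℝ → E := fun t =>
    NormedSpace.exp (t • (-X)) * (G t : E) * NormedSpace.exp (t • X)
  have hH : ∀ t, HasDerivAt H 0 t := by
    intro t
    have h1 := hasDerivAt_exp_smul_const (𝕂 := ℝ) (-X) t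
    have h2 := hasDerivAt_exp_smul_const' (𝕂 := ℝ) X t
    have h3 := (h1.mul (hG' t)).mul h2
    refine h3.congr_deriv ?_
    simp only [Pi.mul_apply]
    noncomm_ring
  have hconst : H t = H 0 := by
    apply is_const_of_deriv_eq_zero (𝕜 := ℝ)
    · intro s
      exact (hH s).differentiableAt
    · intro s
      exact (hH s).deriv
  have h0 : H 0 = Y := by
    have h9 : G 0 = ⟨Y, hY⟩ := by
      have h8 : (0 : ℝ) • Dc = 0 := zero_smul ℝ Dc
      have h7 : ExpN_e ((0 : ℝ) • Dc) = 1 := (congrArg ExpN_e h8).trans ExpN_e_zero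
      exact (congrArg (fun F : S →L[ℝ] S => F ⟨Y, hY⟩) h7).trans rfl
    change NormedSpace.exp ((0 : ℝ) • (-X)) * (G 0).1 * NormedSpace.exp ((0 : ℝ) • X) = Y
    rw [zero_smul, zero_smul, NormedSpace.exp_zero, h9, one_mul, mul_one]
  have hinv := ExpN_inv X t
  have h1 : NormedSpace.exp (t • X) * Y * NormedSpace.exp (t • (-X)) = (G t).1 := by
    rw [← h0, ← hconst]
    change NormedSpace.exp (t • X) * (NormedSpace.exp (t • (-X)) * (G t : E) *
      NormedSpace.exp (t • X)) * NormedSpace.exp (t • (-X)) = (G t).1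
    calc _ = (NormedSpace.exp (t • X) * NormedSpace.exp (t • (-X))) * (G t : E) *
          (NormedSpace.exp (t • X) * NormedSpace.exp (t • (-X))) := by noncomm_ring
      _ = _ := by rw [hinv, one_mul, mul_one]
  rw [h1]
  exact (G t).2

/-- A closed subspace which contains the orbit contains the derivative. -/
private theorem ExpN_genE {F : Type} [NormedAddCommGroup F] [NormedSpace ℝ F]
    [FiniteDimensional ℝ F] (X : E) (L : E →L[ℝ] F) (W : Submodule ℝ F)
    (h : ∀ t : ℝ, L (NormedSpace.exp (t • X)) ∈ W) : L X ∈ W := by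
  have : CompleteSpace E := FiniteDimensional.complete ℝ E
  have h1 := hasDerivAt_exp_smul_const' (𝕂 := ℝ) X 0
  have h2 : HasDerivAt (fun t : ℝ => L (NormedSpace.exp (t • X)))
      (L (X * NormedSpace.exp ((0 : ℝ) • X))) 0 :=
    (L.hasFDerivAt (x := NormedSpace.exp ((0 : ℝ) • X))).comp_hasDerivAt 0 h1
  rw [zero_smul, NormedSpace.exp_zero, mul_one] at h2
  rw [hasDerivAt_iff_tendsto_slope] at h2
  refine (Submodule.closed_of_finiteDimensional W).mem_of_tendsto h2 ?_
  filter_upwards with t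
  rw [slope_def_module]
  exact W.smul_mem _ (W.sub_mem (h t) (h 0))

end

section

variable {n : Type} [Fintype n] [DecidableEq n]

open scoped Matrix.Norms.Operator in
private theorem ExpN_ad (X : Matrix n n ℝ) (S : Submodule ℝ (Matrix n n ℝ))
    (hS : ∀ Y ∈ S, X * Y - Y * X ∈ S) (t : ℝ) {Y : Matrix n n ℝ} (hY : Y ∈ S) :
    NormedSpace.exp (t • X) * Y * NormedSpace.exp (t • (-X)) ∈ S :=
  ExpN_adE X S hS t hY

open scoped Matrix.Norms.Operator in
private theorem ExpN_inv' (X : Matrix n n ℝ) (t : ℝ) :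
    NormedSpace.exp (t • X) * NormedSpace.exp (t • (-X)) = 1 :=
  ExpN_inv X t

private theorem ExpN_exp_T (X : Matrix n n ℝ) (hX : Xᵀ = -X) (t : ℝ) :
    (NormedSpace.exp (t • X))ᵀ = NormedSpace.exp (t • (-X)) := by
  rw [← Matrix.exp_transpose, Matrix.transpose_smul, hX]

private theorem ExpN_exp_mul (X : Matrix n n ℝ) (hX : Xᵀ = -X) (t : ℝ) :
    NormedSpace.exp (t • X) * (NormedSpace.exp (t • X))ᵀ = 1 := by
  rw [ExpN_exp_T X hX t]
  exact ExpN_inv' X t

open scoped Matrix.Norms.Operator in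
private theorem ExpN_comm (X Z : Matrix n n ℝ) (h : X * Z = Z * X) (t : ℝ) :
    NormedSpace.exp (t • X) * Z = Z * NormedSpace.exp (t • X) := by
  have h1 : Commute (t • X) Z := by
    change (t • X) * Z = Z * (t • X)
    rw [Matrix.smul_mul, Matrix.mul_smul, h]
  exact h1.exp_left

open scoped Matrix.Norms.Operator in
/-- A subspace which is preserved by the one parameter group is preserved by the generator. -/
private theorem ExpN_gen (X : Matrix n n ℝ) (W : Submodule ℝ (n → ℝ)) {w : n → ℝ}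
    (h : ∀ t : ℝ, NormedSpace.exp (t • X) *ᵥ w ∈ W) : X *ᵥ w ∈ W := by
  let L : Matrix n n ℝ →ₗ[ℝ] (n → ℝ) :=
    { toFun := fun M => M *ᵥ w
      map_add' := fun M N => Matrix.add_mulVec M N w
      map_smul' := fun c M => Matrix.smul_mulVec c M w }
  exact ExpN_genE X (LinearMap.toContinuousLinearMap L) W h

end

variable {A : Type} [Ring A] [StarRing A] [Algebra ℝ A] [Cen A] [Coef A] [CoefU A]
  {ι : Type} [Fintype ι] [DecidableEq ι]

/-- A real matrix which commutes with the right multiplications is the matrix of a left multiplication. -/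
theorem exists_lmul {g' : Matrix (ι × Fin (Coef.m A)) (ι × Fin (Coef.m A)) ℝ}
    (h : ∀ u : A, g' * rmul ι u = rmul ι u * g') : ∃ g : Matrix ι ι A, lmul g = g' := by
  let g : Matrix ι ι A := Matrix.of fun i j => (co.symm (g' *ᵥ co (Pi.single j (1 : A)))) i
  have hg : ∀ (j : ι) (u : A), g' *ᵥ co (Pi.single j u : ι → A) =
      lmul g *ᵥ co (Pi.single j u : ι → A) := by
    intro j u
    have h1 : (Pi.single j u : ι → A) = fun i => (Pi.single j (1 : A) : ι → A) i * u := by
      funext i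
      by_cases hi : i = j
      · subst hi
        rw [Pi.single_eq_same, Pi.single_eq_same, one_mul]
      · rw [Pi.single_eq_of_ne hi, Pi.single_eq_of_ne hi, zero_mul]
    have h2 : g *ᵥ (Pi.single j u : ι → A) = fun i => g i j * u := by
      funext i
      rw [Matrix.mulVec_single]
      rfl
    have h3 : co (fun i => g i j : ι → A) = g' *ᵥ co (Pi.single j (1 : A)) := by
      have h4 : (fun i => g i j : ι → A) = co.symm (g' *ᵥ co (Pi.single j (1 : A))) := rfl
      rw [h4, LinearEquiv.apply_symm_apply]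
    rw [← co_lmul, h2, co_rmul, h3, Matrix.mulVec_mulVec, ← h u, ← Matrix.mulVec_mulVec,
      ← co_rmul, ← h1]
  refine ⟨g, ?_⟩
  have hall : ∀ v : ι → A, lmul g *ᵥ co v = g' *ᵥ co v := by
    intro v
    have h1 : v = ∑ j, (Pi.single j (v j) : ι → A) := (Finset.univ_sum_single v).symm
    rw [h1, map_sum]
    have h2 : ∀ (M : Matrix (ι × Fin (Coef.m A)) (ι × Fin (Coef.m A)) ℝ)
        (f : ι → (ι × Fin (Coef.m A) → ℝ)), M *ᵥ (∑ j, f j) = ∑ j, M *ᵥ f j := by
      intro M f
      exact map_sum (Matrix.mulVecLin M) f Finset.univ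
    rw [h2, h2]
    exact Finset.sum_congr rfl fun j _ => (hg j (v j)).symm
  apply Matrix.toLin'.injective
  apply LinearMap.ext
  intro w
  rw [Matrix.toLin'_apply, Matrix.toLin'_apply]
  have h1 := hall (co.symm w)
  rwa [LinearEquiv.apply_symm_apply] at h1

theorem exists_exp {h : LieSubalgebra ℝ (cl A ι)} {x : cl A ι} (hx : x ∈ h) (t : ℝ) :
    ∃ g : Matrix ι ι A, g * gᴴ = 1 ∧ gᴴ * g = 1 ∧ lmul g = NormedSpace.exp (t • lmul x.1) ∧
      ∀ y ∈ h, ∃ z ∈ h, z.1 = g * y.1 * gᴴ := by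
  have hskew : (lmul x.1)ᵀ = -lmul x.1 := by
    rw [← lmul_conjT, x.2.1, map_neg]
  obtain ⟨g, hg⟩ := exists_lmul (A := A) (ι := ι) (g' := NormedSpace.exp (t • lmul x.1))
    (fun u => ExpN_comm _ _ (lmul_rmul x.1 u) t)
  have hinj : ∀ {X Y : Matrix ι ι A}, lmul X = lmul Y → X = Y := by
    intro X Y hXY
    have h1 : lmul (X - Y) = 0 := by rw [map_sub, hXY, sub_self]
    exact sub_eq_zero.1 (lmul_inj h1)
  have hgg : lmul g * (lmul g)ᵀ = 1 := by
    rw [hg]
    exact ExpN_exp_mul _ hskew t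
  have hgg' : (lmul g)ᵀ * lmul g = 1 := mul_eq_one_comm.1 hgg
  refine ⟨g, ?_, ?_, hg, ?_⟩
  · apply hinj
    rw [lmul_mul, lmul_conjT, hgg, lmul_one]
  · apply hinj
    rw [lmul_mul, lmul_conjT, hgg', lmul_one]
  · intro y hy
    let S : Submodule ℝ (Matrix (ι × Fin (Coef.m A)) (ι × Fin (Coef.m A)) ℝ) :=
      h.toSubmodule.map (lmul ∘ₗ (cl A ι).toSubmodule.subtype)
    have hS : ∀ Y ∈ S, lmul x.1 * Y - Y * lmul x.1 ∈ S := by
      rintro Y ⟨z, hz, rfl⟩
      refine ⟨⁅x, z⁆, h.lie_mem hx hz, ?_⟩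
      change lmul (⁅x, z⁆ : cl A ι).1 = lmul x.1 * lmul z.1 - lmul z.1 * lmul x.1
      have h1 : (⁅x, z⁆ : cl A ι).1 = x.1 * z.1 - z.1 * x.1 := rfl
      rw [h1, map_sub, lmul_mul, lmul_mul]
    have h1 := ExpN_ad (lmul x.1) S hS t (Y := lmul y.1) ⟨y, hy, rfl⟩
    rw [← ExpN_exp_T _ hskew, ← hg, ← lmul_conjT, ← lmul_mul, ← lmul_mul] at h1
    obtain ⟨z, hz, hz'⟩ := h1
    exact ⟨z, hz, hinj hz'⟩

theorem inv_of_norm {h : LieSubalgebra ℝ (cl A ι)} {W : Submodule ℝ (ι → A)}
    (hW : ∀ g : Matrix ι ι A, g * gᴴ = 1 → gᴴ * g = 1 → (∀ x ∈ h, ∃ y ∈ h, y.1 = g * x.1 * gᴴ) →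
      ∀ v ∈ W, g *ᵥ v ∈ W) : ∀ x ∈ h, ∀ v ∈ W, x.1 *ᵥ v ∈ W := by
  intro x hx v hv
  have h1 : lmul x.1 *ᵥ co v ∈ W.map (co (A := A) (ι := ι)).toLinearMap := by
    apply ExpN_gen
    intro t
    obtain ⟨g, hg1, hg2, hg3, hg4⟩ := exists_exp hx t
    rw [← hg3, ← co_lmul]
    exact ⟨g *ᵥ v, hW g hg1 hg2 hg4 v hv, rfl⟩
  rw [← co_lmul] at h1
  obtain ⟨w, hw, hw'⟩ := h1
  have h2 : w = x.1 *ᵥ v := co.injective hw'
  rwa [← h2]

end Pool.Agent.EinV
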