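import Pool.Agent.EinV.ClInv
import Pool.Agent.EinU.AdB
import Pool.Agent.EinU.Core

/-!
# Subalgebras which preserve a subspace

`split_small`: `W' = W.map co`, `s` from `exists_refl`; `s` commutes with all `rmul u` (`refl_comm`, `u` is a combination of `1` and the skew units; or
`rmul u` for skew `u` is skew, `W'` is invariant) and with `ph x`, `x ∈ h`; `inv_I`, `einstein_inv`; `spAuts ⊆ sAuts` with `g' = lmul g`, `clConj`.
`split_cl`: `small_dimR` if `N` is large (`√(d/2) / n ≤ δ`), otherwise `h = 0` and `einstein_bot` (see `einstein_split` in `EinU/Fin.lean`).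
`blocks_cl`: `small_blocksR`, and a partial sum of the `W j` whose dimension is between one third and two thirds (see `Fin_part`,
`einstein_small_blocks` in `EinU/Fin.lean`).
-/

namespace Pool.Agent.EinV

open Matrix Pool.Agent.EStab Pool.Agent.EinS Pool.Agent.SmIso Pool.Agent.EinU Pool.Agent.EinG

attribute [local instance 100] LieRing.ofAssociativeRing

variable {A : Type} [Ring A] [StarRing A] [Algebra ℝ A] [Cen A] [Coef A]

section

variable {ι : Type} [Fintype ι] [DecidableEq ι]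

/-- `Ad(g)`, `g` a unitary matrix which preserves `h` and `W`. -/
def spAuts (h : LieSubalgebra ℝ (cl A ι)) (W : Submodule ℝ (ι → A)) :
    Set (cl A ι →ₗ[ℝ] cl A ι) :=
  {γ | ∃ g : Matrix ι ι A, g * gᴴ = 1 ∧ gᴴ * g = 1 ∧ (∀ x, (γ x).1 = g * x.1 * gᴴ) ∧
    h.toSubmodule.map γ = h.toSubmodule ∧ ∀ v ∈ W, g *ᵥ v ∈ W}

/-- `Ad(g)`, `g` a unitary matrix which preserves `h` and all `W j`. -/
def blAuts (h : LieSubalgebra ℝ (cl A ι)) {k : ℕ} (W : Fin k → Submodule ℝ (ι → A)) :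
    Set (cl A ι →ₗ[ℝ] cl A ι) :=
  {γ | ∃ g : Matrix ι ι A, g * gᴴ = 1 ∧ gᴴ * g = 1 ∧ (∀ x, (γ x).1 = g * x.1 * gᴴ) ∧
    h.toSubmodule.map γ = h.toSubmodule ∧ ∀ j, ∀ v ∈ W j, g *ᵥ v ∈ W j}

theorem cl_comp (hN : 3 ≤ Fintype.card ι) : CompactSemisimple (cl A ι) := by
  haveI : Nonempty ι := by
    rw [← Fintype.card_pos_iff]
    omega
  refine cl_compact ?_
  have h1 := Coef.sg_le (A := A)
  have h2 : (1 : ℝ) ≤ Coef.m A := by exact_mod_cast Coef.m_pos (A := A)
  have h3 : (3 : ℝ) ≤ Fintype.card ι := by exact_mod_cast hN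
  nlinarith

theorem finrank_vec : Module.finrank ℝ (ι → A) = Fintype.card ι * Coef.m A := by
  rw [LinearEquiv.finrank_eq (co (A := A) (ι := ι)), Module.finrank_fintype_fun_eq_card,
    Fintype.card_prod, Fintype.card_fin]

private theorem FinI_card : (Fintype.card (ι × Fin (Coef.m A)) : ℝ) =
    Module.finrank ℝ (ι → A) := by
  rw [finrank_vec, Fintype.card_prod, Fintype.card_fin]

private theorem FinI_finite : Module.Finite ℝ (ι → A) :=
  Module.Finite.equiv (co (A := A) (ι := ι)).symm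

end

variable (A) [CoefU A]

section

variable {A}
variable {ι : Type} [Fintype ι] [DecidableEq ι]

private theorem FinI_rmul_add (u v : A) : rmul ι (u + v) = rmul ι u + rmul ι v := by
  ext a b
  rw [Matrix.add_apply]
  unfold rmul
  rw [Matrix.of_apply, Matrix.of_apply, Matrix.of_apply]
  split_ifs
  · rw [mul_add, add_mul, rl, map_add]
  · rw [add_zero]

private theorem FinI_rmul_smul (r : ℝ) (u : A) : rmul ι (r • u) = r • rmul ι u := by
  ext a b
  rw [Matrix.smul_apply]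
  unfold rmul
  rw [Matrix.of_apply, Matrix.of_apply]
  split_ifs
  · rw [mul_smul_comm, smul_mul_assoc, rl_smul, smul_eq_mul]
  · rw [smul_zero]

/-- A reflection which commutes with the skew right multiplications commutes with all. -/
private theorem FinI_rmul_comm {s : Matrix (ι × Fin (Coef.m A)) (ι × Fin (Coef.m A)) ℝ}
    (h : ∀ u : A, star u = -u → s * rmul ι u = rmul ι u * s) (u : A) :
    s * rmul ι u = rmul ι u * s := by
  have h1 : u = rl u • (1 : A) + (1 / 2 : ℝ) • (u - star u) := by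
    have h2 := Coef.add_star u
    have h3 : rl u • (1 : A) = (1 / 2 : ℝ) • (u + star u) := by
      rw [h2, smul_smul]
      congr 1
      rw [rl]
      ring
    rw [h3, ← smul_add]
    have h4 : u + star u + (u - star u) = (2 : ℝ) • u := by
      rw [two_smul]
      abel
    rw [h4, smul_smul]
    norm_num
  have h5 : star (u - star u) = -(u - star u) := by
    rw [star_sub, star_star]
    abel
  have h6 := h _ h5
  rw [h1, FinI_rmul_add, FinI_rmul_smul, FinI_rmul_smul, rmul_one, Matrix.mul_add, Matrix.add_mul,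
    Matrix.mul_smul, Matrix.smul_mul, Matrix.mul_smul, Matrix.smul_mul, h6, Matrix.mul_one,
    Matrix.one_mul]

end


theorem split_small {θ : ℝ} (hθ : 0 < θ) : ∃ δ : ℝ, 0 < δ ∧ ∀ (ι : Type) [Fintype ι]
    [DecidableEq ι], 3 ≤ Fintype.card ι → 1 / δ ≤ Fintype.card ι →
    ∀ (R : Rp (cl A ι) (ι × Fin (Coef.m A)) (CoefU.mu A)), (∀ x, R.ph x = lmul x.1) →
    (∀ k, R.f k = rmul ι (CoefU.bs k)) → R.J = rmul ι (CoefU.iu : A) →
    ∀ (h : LieSubalgebra ℝ (cl A ι)) (W : Submodule ℝ (ι → A)),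
      (∀ v ∈ W, ∀ u : A, (fun i => v i * u) ∈ W) → (∀ x ∈ h, ∀ v ∈ W, x.1 *ᵥ v ∈ W) →
      θ * Module.finrank ℝ (ι → A) ≤ Module.finrank ℝ W →
      (Module.finrank ℝ W : ℝ) ≤ (1 - θ) * Module.finrank ℝ (ι → A) → SmallR R h δ →
      HasEinsteinMetric (cl A ι) h.toSubmodule (spAuts h W) := by
  obtain ⟨δ, hδ, hE⟩ := einstein_inv (CoefU.mu A) hθ
  refine ⟨δ, hδ, ?_⟩
  intro ι _ _ hN hNδ R hph hf hJ h W hWr hWh hW1 hW2 hs
  have hm : (1 : ℝ) ≤ Coef.m A := by exact_mod_cast Coef.m_pos (A := A)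
  have hN3 : (3 : ℝ) ≤ Fintype.card ι := by exact_mod_cast hN
  have hcard : (Fintype.card (ι × Fin (Coef.m A)) : ℝ) = Fintype.card ι * Coef.m A := by
    rw [Fintype.card_prod, Fintype.card_fin]
    push_cast
    rfl
  have hle : (Fintype.card ι : ℝ) ≤ Fintype.card (ι × Fin (Coef.m A)) := by
    rw [hcard]
    nlinarith
  obtain ⟨W', hW'⟩ : ∃ W' : Submodule ℝ (ι × Fin (Coef.m A) → ℝ),
      W' = W.map (co (A := A) (ι := ι)).toLinearMap := ⟨_, rfl⟩
  have hmem : ∀ v, v ∈ W → co v ∈ W' := by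
    intro v hv
    rw [hW']
    exact ⟨v, hv, rfl⟩
  have hmem' : ∀ w ∈ W', ∃ v ∈ W, co v = w := by
    intro w hw
    rw [hW'] at hw
    exact hw
  have hfr : Module.finrank ℝ W' = Module.finrank ℝ W := by
    rw [hW']
    exact LinearEquiv.finrank_map_eq _ W
  obtain ⟨s, ss, s2, hsW, htr⟩ := exists_refl W'
  rw [hfr] at htr
  rw [← FinI_card] at hW1 hW2
  have ht1 : |trace s| ≤ (1 - 2 * θ) * Fintype.card (ι × Fin (Coef.m A)) := by
    rw [htr, abs_le]
    constructor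
    · linarith
    · linarith
  have ht2 : |trace s| < Fintype.card (ι × Fin (Coef.m A)) := by
    refine lt_of_le_of_lt ht1 ?_
    nlinarith
  have hsr : ∀ u : A, s * rmul ι u = rmul ι u * s := by
    apply FinI_rmul_comm
    intro u hu
    refine refl_comm ss s2 hsW ?_ (Or.inl ?_)
    · intro w hw
      obtain ⟨v, hv, rfl⟩ := hmem' w hw
      rw [← co_rmul]
      exact hmem _ (hWr v hv u)
    · rw [rmul_T, hu, rmul_neg]
  have hsl : ∀ X : Matrix ι ι A, (∀ v ∈ W, X *ᵥ v ∈ W) → ((lmul X)ᵀ = -lmul X ∨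
      lmul X * (lmul X)ᵀ = 1) → s * lmul X = lmul X * s := by
    intro X hX hX'
    refine refl_comm ss s2 hsW ?_ hX'
    intro w hw
    obtain ⟨v, hv, rfl⟩ := hmem' w hw
    rw [← co_lmul]
    exact hmem _ (hX v hv)
  obtain ⟨c, g1, g2, hinv⟩ := inv_I R hph hf hJ ss s2 hsr ht2
  have hmain := hE (cl A ι) (ι × Fin (Coef.m A)) R s c R.J g1 g2 hinv (hNδ.trans hle) ht1
    (Or.inl ⟨fun k => by rw [hf, hsr], by rw [hJ, hsr]⟩) h (by
      intro y hy
      rw [hph]
      refine hsl _ (hWh y hy) (Or.inl ?_)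
      rw [← hph]
      exact R.skew y) hs
  refine einstein_mono hmain ?_
  rintro γ ⟨g, hg, hg', hγ, hgh, hgW⟩
  have hγ' : ∀ x, γ x = clConj g hg hg' x := fun x => Subtype.ext (hγ x)
  refine ⟨clConj g hg hg', hγ', ?_, lmul g, ?_, ?_, ?_, ?_⟩
  · ext x
    have h1 : x ∈ h.toSubmodule.map γ ↔ x ∈ h.toSubmodule := by rw [hgh]
    rw [LieSubalgebra.mem_map]
    rw [Submodule.mem_map] at h1
    constructor
    · rintro ⟨y, hy, hyx⟩
      exact h1.1 ⟨y, hy, (hγ' y).trans hyx⟩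
    · intro hx
      obtain ⟨y, hy, hyx⟩ := h1.2 hx
      exact ⟨y, hy, (hγ' y).symm.trans hyx⟩
  · rw [← lmul_conjT, ← lmul_mul, hg, lmul_one]
  · refine hsl g hgW (Or.inr ?_)
    rw [← lmul_conjT, ← lmul_mul, hg, lmul_one]
  · rw [hJ]
    exact (lmul_rmul g _).symm
  · intro x
    rw [hph, hph, clConj_apply, lmul_mul, lmul_mul, lmul_conjT]

section

variable {A}

private theorem FinI_card3 {N : ℕ} (hN : 3 ≤ N) :
    3 ≤ Fintype.card (Fin N × Fin (Coef.m A)) := by
  rw [Fintype.card_prod, Fintype.card_fin, Fintype.card_fin]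
  have := Coef.m_pos (A := A)
  nlinarith

private theorem FinI_n {N : ℕ} (hN : 3 ≤ N) {n : ℝ}
    (hn : n = (Fintype.card (Fin N) : ℝ) - 2 * Coef.sg A / (CoefU.mu A + 1)) :
    (N : ℝ) / 3 ≤ n := by
  have hN3 : (3 : ℝ) ≤ N := by exact_mod_cast hN
  have h1 := Coef.sg_le (A := A)
  have h2 : (0 : ℝ) ≤ CoefU.mu A := Nat.cast_nonneg _
  have h3 : 2 * Coef.sg A / (CoefU.mu A + 1) ≤ 2 := by
    rw [div_le_iff₀ (by linarith)]
    nlinarith
  rw [hn, Fintype.card_fin]
  linarith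

/-- A partial sum whose dimension is between one third and two thirds. -/
private theorem FinI_part {V : Type} [AddCommGroup V] [Module ℝ V] [Module.Finite ℝ V] {k : ℕ}
    (W : Fin k → Submodule ℝ V) (htop : ⨆ j, W j = ⊤)
    {d : ℝ} (hd : ∀ j, (Module.finrank ℝ (W j) : ℝ) ≤ d)
    (hdN : d ≤ (Module.finrank ℝ V : ℝ) / 3) (hN : 0 < Module.finrank ℝ V) :
    ∃ m : ℕ, (Module.finrank ℝ V : ℝ) / 3 ≤ Module.finrank ℝ (⨆ (j : Fin k) (_ : j.1 < m), W j :
        Submodule ℝ V) ∧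
      (Module.finrank ℝ (⨆ (j : Fin k) (_ : j.1 < m), W j : Submodule ℝ V) : ℝ) ≤
        2 * Module.finrank ℝ V / 3 := by
  classical
  have hN0 : (0 : ℝ) < Module.finrank ℝ V := by exact_mod_cast hN
  set D : ℕ → ℝ := fun m => (Module.finrank ℝ (⨆ (j : Fin k) (_ : j.1 < m), W j :
        Submodule ℝ V) : ℝ) with hD
  have h0 : D 0 = 0 := by
    have : (⨆ (j : Fin k) (_ : j.1 < 0), W j : Submodule ℝ V) = ⊥ := by
      simp
    change (Module.finrank ℝ (⨆ (j : Fin k) (_ : j.1 < 0), W j : Submodule ℝ V) : ℝ) = 0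
    rw [this, finrank_bot, Nat.cast_zero]
  have hk : (Module.finrank ℝ V : ℝ) / 3 ≤ D k := by
    have : (⨆ (j : Fin k) (_ : j.1 < k), W j : Submodule ℝ V) = ⊤ := by
      rw [← htop]
      exact iSup_congr fun j => iSup_pos j.2
    change _ ≤ (Module.finrank ℝ (⨆ (j : Fin k) (_ : j.1 < k), W j :
      Submodule ℝ V) : ℝ)
    rw [this, finrank_top]
    linarith
  have hstep : ∀ m, D (m + 1) ≤ D m + d := by
    intro m
    by_cases hm : m < k
    · have h1 : (⨆ (j : Fin k) (_ : j.1 < m + 1), W j : Submodule ℝ V) ≤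
          (⨆ (j : Fin k) (_ : j.1 < m), W j) ⊔ W ⟨m, hm⟩ := by
        refine iSup₂_le fun j hj => ?_
        rcases Nat.lt_succ_iff_lt_or_eq.1 hj with h | h
        · exact le_sup_of_le_left (le_iSup₂_of_le j h le_rfl)
        · refine le_sup_of_le_right ?_
          have : j = ⟨m, hm⟩ := Fin.ext h
          rw [this]
      have h2 := Submodule.finrank_mono h1
      have h3 := Submodule.finrank_add_le_finrank_add_finrank
        (⨆ (j : Fin k) (_ : j.1 < m), W j : Submodule ℝ V) (W ⟨m, hm⟩)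
      have h4 := hd ⟨m, hm⟩
      have h5 : ((Module.finrank ℝ (⨆ (j : Fin k) (_ : j.1 < m + 1), W j :
          Submodule ℝ V) : ℕ) : ℝ) ≤ ((Module.finrank ℝ (⨆ (j : Fin k) (_ : j.1 < m), W j :
          Submodule ℝ V) + Module.finrank ℝ (W ⟨m, hm⟩) : ℕ) : ℝ) := by
        exact_mod_cast h2.trans h3
      push_cast at h5
      simp only [hD]
      linarith
    · have h1 : (⨆ (j : Fin k) (_ : j.1 < m + 1), W j : Submodule ℝ V) =
          ⨆ (j : Fin k) (_ : j.1 < m), W j := by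
        refine iSup_congr fun j => ?_
        have h2 : j.1 < m := lt_of_lt_of_le j.2 (not_lt.1 hm)
        rw [iSup_pos h2, iSup_pos (Nat.lt_succ_of_lt h2)]
      have hDD : D (m + 1) = D m := by
        change (Module.finrank ℝ (⨆ (j : Fin k) (_ : j.1 < m + 1), W j :
          Submodule ℝ V) : ℝ) = _
        rw [h1]
      have hd0 : 0 ≤ d ∨ k = 0 := by
        rcases Nat.eq_zero_or_pos k with h | h
        · exact Or.inr h
        · exact Or.inl ((Nat.cast_nonneg _).trans (hd ⟨0, h⟩))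
      rcases hd0 with hd0 | hd0
      · linarith
      · exfalso
        subst hd0
        have : D 0 = 0 := h0
        rw [this] at hk
        linarith
  obtain ⟨m, hm1, hm2⟩ : ∃ m, (Module.finrank ℝ V : ℝ) / 3 ≤ D m ∧
      ∀ m' < m, D m' < (Module.finrank ℝ V : ℝ) / 3 := by
    have hex : ∃ m, (Module.finrank ℝ V : ℝ) / 3 ≤ D m := ⟨k, hk⟩
    refine ⟨Nat.find hex, Nat.find_spec hex, fun m' hm' => ?_⟩
    exact not_le.1 (Nat.find_min hex hm')
  refine ⟨m, hm1, ?_⟩
  change D m ≤ _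
  rcases Nat.eq_zero_or_pos m with h | h
  · rw [h, h0]
    positivity
  · obtain ⟨m', rfl⟩ : ∃ m', m = m' + 1 := ⟨m - 1, by omega⟩
    have h1 := hstep m'
    have h2 := hm2 m' (Nat.lt_succ_self m')
    linarith

private theorem FinI_comap {V : Type} [AddCommGroup V] [Module ℝ V] {k : ℕ}
    (W : Fin k → Submodule ℝ V) (m : ℕ) (f : V →ₗ[ℝ] V) (hf : ∀ j, ∀ v ∈ W j, f v ∈ W j) :
    ∀ v ∈ (⨆ (j : Fin k) (_ : j.1 < m), W j : Submodule ℝ V),
      f v ∈ (⨆ (j : Fin k) (_ : j.1 < m), W j : Submodule ℝ V) := by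
  intro v hv
  have h1 : (⨆ (j : Fin k) (_ : j.1 < m), W j : Submodule ℝ V) ≤
      (⨆ (j : Fin k) (_ : j.1 < m), W j : Submodule ℝ V).comap f := by
    refine iSup₂_le fun j hj => ?_
    intro w hw
    rw [Submodule.mem_comap]
    exact (le_iSup₂_of_le (f := fun (j : Fin k) (_ : j.1 < m) => W j) j hj le_rfl) (hf j w hw)
  exact h1 hv

/-- Matrices act linearly over the real numbers. -/
private noncomputable def FinI_mv {ι : Type} [Fintype ι] (X : Matrix ι ι A) :
    (ι → A) →ₗ[ℝ] (ι → A) where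
  toFun v := X *ᵥ v
  map_add' v w := Matrix.mulVec_add X v w
  map_smul' r v := by
    funext i
    simp only [Matrix.mulVec, dotProduct, Pi.smul_apply, mul_smul_comm, Finset.smul_sum,
      RingHom.id_apply]

private noncomputable def FinI_rm {ι : Type} (u : A) : (ι → A) →ₗ[ℝ] (ι → A) where
  toFun v := fun i => v i * u
  map_add' v w := by
    funext i
    simp only [Pi.add_apply, add_mul]
  map_smul' r v := by
    funext i
    simp only [Pi.smul_apply, smul_mul_assoc, RingHom.id_apply]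

end

theorem split_cl {θ : ℝ} (hθ : 0 < θ) : ∃ ε : ℝ, 0 < ε ∧ ∀ N : ℕ, 3 ≤ N →
    ∀ (h : LieSubalgebra ℝ (cl A (Fin N))) (W : Submodule ℝ (Fin N → A)),
      (∀ v ∈ W, ∀ u : A, (fun i => v i * u) ∈ W) → (∀ x ∈ h, ∀ v ∈ W, x.1 *ᵥ v ∈ W) →
      θ * Module.finrank ℝ (Fin N → A) ≤ Module.finrank ℝ W →
      (Module.finrank ℝ W : ℝ) ≤ (1 - θ) * Module.finrank ℝ (Fin N → A) →
      (Module.finrank ℝ h : ℝ) ≤ ε * N ^ 2 →
      HasEinsteinMetric (cl A (Fin N)) h.toSubmodule (spAuts h W) := by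
  obtain ⟨δ, hδ, hE⟩ := split_small A hθ
  refine ⟨δ ^ 2 / 9, by positivity, ?_⟩
  intro N hN h W hWr hWh hW1 hW2 hdim
  have hN3 : (3 : ℝ) ≤ N := by exact_mod_cast hN
  have hNc : 3 ≤ Fintype.card (Fin N) := by rwa [Fintype.card_fin]
  by_cases hNδ : 1 / δ ≤ N
  · obtain ⟨R, hph, hf, hJ, hn⟩ := exists_rp (A := A) hNc
    have hn3 := FinI_n (A := A) hN hn
    refine hE (Fin N) hNc (by rwa [Fintype.card_fin]) R hph hf hJ h W hWr hWh hW1 hW2
      ((small_dimR R (FinI_card3 hN) h).mono ?_)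
    have hn0 : (0 : ℝ) < R.n := by linarith
    rw [div_le_iff₀ hn0]
    have h1 : Real.sqrt ((Module.finrank ℝ h : ℝ) / 2) ≤ Real.sqrt ((δ * N / 3) ^ 2) := by
      apply Real.sqrt_le_sqrt
      nlinarith [sq_nonneg (δ * N)]
    rw [Real.sqrt_sq (by positivity)] at h1
    nlinarith [h1]
  · push Not at hNδ
    rw [lt_div_iff₀ hδ] at hNδ
    have h1 : (Module.finrank ℝ h : ℝ) < 1 := by
      have h2 : 0 < δ * N := by positivity
      have h3 : (N : ℝ) * δ * (N * δ) < 1 := by nlinarith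
      nlinarith
    have h2 : Module.finrank ℝ h = 0 := by
      have : Module.finrank ℝ h < 1 := by exact_mod_cast h1
      omega
    have h3 : h.toSubmodule = ⊥ := Submodule.finrank_eq_zero.1 h2
    rw [h3]
    refine einstein_bot (cl_comp hNc) ?_
    rintro γ ⟨g, hg, hg', hγ, -, -⟩
    exact ⟨clConj g hg hg', fun x => Subtype.ext (hγ x)⟩

theorem blocks_cl : ∃ ε : ℝ, 0 < ε ∧ ∀ N : ℕ, 3 ≤ N →
    ∀ (h : LieSubalgebra ℝ (cl A (Fin N))) (k : ℕ) (W : Fin k → Submodule ℝ (Fin N → A)),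
      (∀ j, (Module.finrank ℝ (W j) : ℝ) ≤ ε * N) →
      (∀ i j, i ≠ j → ∀ v ∈ W i, ∀ w ∈ W j, star v ⬝ᵥ w = 0) → ⨆ j, W j = ⊤ →
      (∀ j, ∀ v ∈ W j, ∀ u : A, (fun i => v i * u) ∈ W j) →
      (∀ x ∈ h, ∀ j, ∀ v ∈ W j, x.1 *ᵥ v ∈ W j) →
      HasEinsteinMetric (cl A (Fin N)) h.toSubmodule (blAuts h W) := by
  obtain ⟨δ, hδ, hE⟩ := split_small A (θ := 1 / 3) (by norm_num)
  refine ⟨min (1 / 3) (2 / 3 * δ), lt_min (by norm_num) (by positivity), ?_⟩
  intro N hN h k W hd hort htop hWr hinv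
  obtain ⟨ε, hε⟩ : ∃ ε : ℝ, ε = min (1 / 3) (2 / 3 * δ) := ⟨_, rfl⟩
  rw [← hε] at hd
  have hε1 : ε ≤ 1 / 3 := by rw [hε]; exact min_le_left _ _
  have hε2 : ε ≤ 2 / 3 * δ := by rw [hε]; exact min_le_right _ _
  have hε0 : 0 < ε := by rw [hε]; exact lt_min (by norm_num) (by positivity)
  have hN3 : (3 : ℝ) ≤ N := by exact_mod_cast hN
  have hNc : 3 ≤ Fintype.card (Fin N) := by rwa [Fintype.card_fin]
  have : Module.Finite ℝ (Fin N → A) := FinI_finite
  have hm : (1 : ℝ) ≤ Coef.m A := by exact_mod_cast Coef.m_pos (A := A)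
  have hfr : (Module.finrank ℝ (Fin N → A) : ℝ) = N * Coef.m A := by
    rw [finrank_vec, Fintype.card_fin]
    push_cast
    rfl
  have hfN : (N : ℝ) ≤ Module.finrank ℝ (Fin N → A) := by
    rw [hfr]
    nlinarith
  by_cases hNδ : 1 / δ ≤ N
  · obtain ⟨m, hm1, hm2⟩ := FinI_part W htop hd (by nlinarith) (by
      have h1 : (0 : ℝ) < Module.finrank ℝ (Fin N → A) := by linarith
      exact_mod_cast h1)
    obtain ⟨R, hph, hf, hJ, hn⟩ := exists_rp (A := A) hNc
    have hn3 := FinI_n (A := A) hN hn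
    obtain ⟨W', hW'⟩ : ∃ W' : Fin k → Submodule ℝ (Fin N × Fin (Coef.m A) → ℝ),
        ∀ j, W' j = (W j).map (co (A := A) (ι := Fin N)).toLinearMap := ⟨_, fun _ => rfl⟩
    have hmem' : ∀ j, ∀ w ∈ W' j, ∃ v ∈ W j, co v = w := by
      intro j w hw
      rw [hW'] at hw
      exact hw
    have hmem : ∀ j, ∀ v ∈ W j, co v ∈ W' j := by
      intro j v hv
      rw [hW']
      exact ⟨v, hv, rfl⟩
    have hd' : ∀ j, (Module.finrank ℝ (W' j) : ℝ) ≤ ε * N := by
      intro j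
      have h1 : Module.finrank ℝ (W' j) = Module.finrank ℝ (W j) := by
        rw [hW']
        exact LinearEquiv.finrank_map_eq _ (W j)
      rw [h1]
      exact hd j
    have hort' : ∀ i j, i ≠ j → ∀ v ∈ W' i, ∀ w ∈ W' j, v ⬝ᵥ w = 0 := by
      intro i j hij v' hv' w' hw'
      obtain ⟨v, hv, rfl⟩ := hmem' i v' hv'
      obtain ⟨w, hw, rfl⟩ := hmem' j w' hw'
      rw [co_dot, hort i j hij v hv w hw, rl, map_zero]
    have htop' : ⨆ j, W' j = ⊤ := by
      have h1 : ⨆ j, W' j = (⨆ j, W j).map (co (A := A) (ι := Fin N)).toLinearMap := by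
        rw [Submodule.map_iSup]
        exact iSup_congr hW'
      rw [h1, htop, Submodule.map_top]
      exact LinearEquiv.range _
    have hinv' : ∀ x ∈ h, ∀ j, ∀ v ∈ W' j, R.ph x *ᵥ v ∈ W' j := by
      intro x hx j v' hv'
      obtain ⟨v, hv, rfl⟩ := hmem' j v' hv'
      rw [hph, ← co_lmul]
      exact hmem j _ (hinv x hx j v hv)
    have hsmall := small_blocksR R (FinI_card3 hN) h W' hd' hort' htop' hinv'
    refine einstein_mono (hE (Fin N) hNc (by rwa [Fintype.card_fin]) R hph hf hJ h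
      (⨆ (j : Fin k) (_ : j.1 < m), W j) ?_ ?_ (by linarith) (by linarith) (hsmall.mono ?_)) ?_
    · intro v hv u
      exact FinI_comap W m (FinI_rm u) (fun j w hw => hWr j w hw u) v hv
    · intro x hx v hv
      exact FinI_comap W m (FinI_mv x.1) (fun j w hw => hinv x hx j w hw) v hv
    · have hn0 : (0 : ℝ) < 2 * R.n := by linarith
      rw [div_le_iff₀ hn0]
      nlinarith
    · rintro γ ⟨g, hg, hg', hγ, hgh, hgW⟩
      refine ⟨g, hg, hg', hγ, hgh, fun v hv => ?_⟩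
      exact FinI_comap W m (FinI_mv g) hgW v hv
  · exfalso
    push Not at hNδ
    rw [lt_div_iff₀ hδ] at hNδ
    have h1 : ∀ j, W j = ⊥ := by
      intro j
      have h2 : (Module.finrank ℝ (W j) : ℝ) < 1 := by
        refine lt_of_le_of_lt (hd j) ?_
        nlinarith
      have h3 : Module.finrank ℝ (W j) = 0 := by
        have : Module.finrank ℝ (W j) < 1 := by exact_mod_cast h2
        omega
      exact Submodule.finrank_eq_zero.1 h3
    have h2 : (⊤ : Submodule ℝ (Fin N → A)) = ⊥ := by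
      rw [← htop]
      simp only [h1, iSup_bot]
    have h3 : Module.finrank ℝ (⊤ : Submodule ℝ (Fin N → A)) = 0 := by
      rw [h2, finrank_bot]
    rw [finrank_top] at h3
    rw [h3, Nat.cast_zero] at hfN
    linarith

end Pool.Agent.EinV
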