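import Pool.Agent.EinV.Irr
import Pool.Agent.EinV.FinI

/-!
# Subgroups whose normaliser is irreducible

`irr_cl`: `einstein_irrR` for the representation of `exists_rp`.  Let `X` be symmetric and commute with the `rmul (bs k)`, hence with all `rmul u`, and with `lmul g` for all
unitary `g` which normalise `h` (`clConj`).  Let `r` be an eigenvalue of `X` (`ℝ^I ≠ 0`), `W = {v | X *ᵥ co v = r • co v}`; `W ≠ ⊥`, so `W = ⊤`.
`small_dimR` if `N` is large, otherwise `h = 0` and `einstein_bot` (as in `split_cl`).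
-/

namespace Pool.Agent.EinV

open Matrix Pool.Agent.EStab Pool.Agent.EinS Pool.Agent.SmIso Pool.Agent.EinU Pool.Agent.EinG

attribute [local instance 100] LieRing.ofAssociativeRing

section

variable {A : Type} [Ring A] [StarRing A] [Algebra ℝ A] [Cen A] [Coef A] [CoefU A]
  {ι : Type} [Fintype ι] [DecidableEq ι]

private theorem FinIrr_rmul_add (u v : A) : rmul ι (u + v) = rmul ι u + rmul ι v := by
  ext a b
  simp only [rmul, Matrix.of_apply, Matrix.add_apply]
  split_ifs
  · rw [mul_add, add_mul]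
    exact map_add _ _ _
  · rw [add_zero]

private theorem FinIrr_rmul_smul (r : ℝ) (u : A) : rmul ι (r • u) = r • rmul ι u := by
  ext a b
  simp only [rmul, Matrix.of_apply, Matrix.smul_apply]
  split_ifs
  · rw [mul_smul_comm, smul_mul_assoc]
    exact map_smul _ _ _
  · rw [smul_zero]

private theorem FinIrr_zero {z : A} (h : ∀ y : A, rl (z * star y) = 0) : z = 0 := by
  by_contra hz
  have := Coef.pos z hz
  have h1 : Coef.re (z * star z) = 0 := h z
  linarith

private theorem FinIrr_span (u : A) :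
    u = rl u • (1 : A) + ∑ k : Fin (CoefU.mu A), (-rl (u * CoefU.bs k)) • CoefU.bs k := by
  rw [← sub_eq_zero]
  refine FinIrr_zero fun y => ?_
  have h1 : ∀ k : Fin (CoefU.mu A), rl (CoefU.bs k * star y) = -rl (y * CoefU.bs k) := by
    intro k
    have e : Coef.re (CoefU.bs k * star y) = Coef.re (star (CoefU.bs k * star y)) :=
      (Coef.re_star _).symm
    have e2 : star (CoefU.bs k * star y) = -(y * CoefU.bs k) := by
      rw [star_mul, star_star, CoefU.bs_skew, mul_neg]
    change Coef.re (CoefU.bs k * star y) = -Coef.re (y * CoefU.bs k)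
    rw [e, e2, map_neg]
  have h2 : rl ((1 : A) * star y) = rl y := by
    change Coef.re ((1 : A) * star y) = Coef.re y
    rw [one_mul, Coef.re_star]
  have h3 := CoefU.par u y
  change rl (u * star y) = rl u * rl y + ∑ k, rl (u * CoefU.bs k) * rl (y * CoefU.bs k) at h3
  have h4 : rl ((rl u • (1 : A) + ∑ k : Fin (CoefU.mu A), (-rl (u * CoefU.bs k)) • CoefU.bs k) *
      star y) = rl u * rl ((1 : A) * star y) +
        ∑ k : Fin (CoefU.mu A), (-rl (u * CoefU.bs k)) * rl (CoefU.bs k * star y) := by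
    rw [add_mul, Finset.sum_mul, smul_mul_assoc]
    simp only [smul_mul_assoc]
    change Coef.re _ = _
    rw [map_add, map_smul, map_sum]
    simp only [map_smul, smul_eq_mul]
  have h5 : rl ((u - (rl u • (1 : A) + ∑ k : Fin (CoefU.mu A),
      (-rl (u * CoefU.bs k)) • CoefU.bs k)) * star y) = rl (u * star y) -
        rl ((rl u • (1 : A) + ∑ k : Fin (CoefU.mu A), (-rl (u * CoefU.bs k)) • CoefU.bs k) *
      star y) := by
    rw [sub_mul]
    exact map_sub _ _ _
  rw [h5, h4, h3, h2]
  simp only [h1]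
  rw [sub_eq_zero, add_right_inj]
  refine Finset.sum_congr rfl fun k _ => ?_
  ring

private theorem FinIrr_comm {X : Matrix (ι × Fin (Coef.m A)) (ι × Fin (Coef.m A)) ℝ}
    (h : ∀ k, rmul ι (CoefU.bs k : A) * X = X * rmul ι (CoefU.bs k : A)) (u : A) :
    rmul ι u * X = X * rmul ι u := by
  have hs : ∀ (s : Finset (Fin (CoefU.mu A))) (c : Fin (CoefU.mu A) → ℝ),
      rmul ι (∑ k ∈ s, c k • (CoefU.bs k : A)) * X = X * rmul ι (∑ k ∈ s, c k • (CoefU.bs k : A)) := by
    intro s c
    classical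
    induction s using Finset.induction_on with
    | empty =>
      have h0 : rmul ι (0 : A) = 0 := by
        have := FinIrr_rmul_smul (ι := ι) 0 (0 : A)
        rwa [zero_smul, zero_smul] at this
      rw [Finset.sum_empty, h0, Matrix.zero_mul, Matrix.mul_zero]
    | insert a s ha ih =>
      rw [Finset.sum_insert ha, FinIrr_rmul_add, FinIrr_rmul_smul, Matrix.add_mul, Matrix.mul_add, ih,
        Matrix.smul_mul, Matrix.mul_smul, h]
  rw [FinIrr_span u, FinIrr_rmul_add, FinIrr_rmul_smul, rmul_one, Matrix.add_mul, Matrix.mul_add,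
    hs, Matrix.smul_mul, Matrix.mul_smul, Matrix.one_mul, Matrix.mul_one]

private theorem FinIrr_map {h : LieSubalgebra ℝ (cl A ι)} {g : Matrix ι ι A} (h1 : g * gᴴ = 1)
    (h2 : gᴴ * g = 1) (hg : ∀ x ∈ h, ∃ y ∈ h, y.1 = g * x.1 * gᴴ) :
    h.map ((clConj g h1 h2 : cl A ι ≃ₗ⁅ℝ⁆ cl A ι) : cl A ι →ₗ⁅ℝ⁆ cl A ι) = h := by
  have hle : h.toSubmodule.map ((clConj g h1 h2 : cl A ι ≃ₗ⁅ℝ⁆ cl A ι) : cl A ι →ₗ[ℝ] cl A ι) ≤
      h.toSubmodule := by
    rintro _ ⟨x, hx, rfl⟩
    obtain ⟨y, hy, e⟩ := hg x hx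
    have : (clConj g h1 h2 x : cl A ι) = y := Subtype.ext e.symm
    change (clConj g h1 h2 x : cl A ι) ∈ h
    rw [this]
    exact hy
  have heq : h.toSubmodule.map ((clConj g h1 h2 : cl A ι ≃ₗ⁅ℝ⁆ cl A ι) : cl A ι →ₗ[ℝ] cl A ι) =
      h.toSubmodule := by
    refine Submodule.eq_of_le_of_finrank_eq hle ?_
    exact (LinearEquiv.finrank_eq (Submodule.equivMapOfInjective
      ((clConj g h1 h2 : cl A ι ≃ₗ⁅ℝ⁆ cl A ι) : cl A ι →ₗ[ℝ] cl A ι)
      (clConj g h1 h2 : cl A ι ≃ₗ⁅ℝ⁆ cl A ι).injective h.toSubmodule)).symm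
  ext x
  constructor
  · intro hx
    obtain ⟨y, hy, hyx⟩ := (LieSubalgebra.mem_map _ _ _).1 hx
    rw [← hyx]
    have : (clConj g h1 h2 : cl A ι ≃ₗ⁅ℝ⁆ cl A ι) y ∈ h.toSubmodule := by
      rw [← heq]
      exact ⟨y, hy, rfl⟩
    exact this
  · intro hx
    have hx' : x ∈ h.toSubmodule := hx
    rw [← heq] at hx'
    obtain ⟨y, hy, hyx⟩ := hx'
    exact (LieSubalgebra.mem_map _ _ _).2 ⟨y, hy, hyx⟩

end

variable (A : Type) [Ring A] [StarRing A] [Algebra ℝ A] [Cen A] [Coef A] [CoefU A]

theorem irr_cl : ∃ ε : ℝ, 0 < ε ∧ ∀ N : ℕ, 3 ≤ N →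
    ∀ h : LieSubalgebra ℝ (cl A (Fin N)),
      (∀ W : Submodule ℝ (Fin N → A), (∀ v ∈ W, ∀ u : A, (fun i => v i * u) ∈ W) →
        (∀ g : Matrix (Fin N) (Fin N) A, g * gᴴ = 1 → gᴴ * g = 1 →
          (∀ x ∈ h, ∃ y ∈ h, y.1 = g * x.1 * gᴴ) → ∀ v ∈ W, g *ᵥ v ∈ W) → W = ⊥ ∨ W = ⊤) →
      (Module.finrank ℝ h : ℝ) ≤ ε * N ^ 2 →
      HasEinsteinMetric (cl A (Fin N)) h.toSubmodule (nrmAuts h) := by
  obtain ⟨δ, hδ, hE⟩ := einstein_irrR (CoefU.mu A)
  refine ⟨δ ^ 2 / 9, by positivity, ?_⟩
  intro N hN h hirr hdim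
  have hN3 : (3 : ℝ) ≤ N := by exact_mod_cast hN
  have hcN : 3 ≤ Fintype.card (Fin N) := by rw [Fintype.card_fin]; exact hN
  by_cases hNδ : 1 / δ ≤ N
  · obtain ⟨R, hph, hf, hJ, hn⟩ := exists_rp (A := A) (ι := Fin N) hcN
    have hm1 : 1 ≤ Coef.m A := Coef.m_pos
    have hcard : Fintype.card (Fin N × Fin (Coef.m A)) = N * Coef.m A := by
      rw [Fintype.card_prod, Fintype.card_fin, Fintype.card_fin]
    have hNc : N ≤ Fintype.card (Fin N × Fin (Coef.m A)) := by
      rw [hcard]
      exact Nat.le_mul_of_pos_right _ hm1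
    have hNcR : (N : ℝ) ≤ Fintype.card (Fin N × Fin (Coef.m A)) := by exact_mod_cast hNc
    have hne : Nonempty (Fin N × Fin (Coef.m A)) := by
      rw [← Fintype.card_pos_iff]
      omega
    -- the scale
    have hnM := R.nM
    have hmu : (Coef.m A : ℝ) = CoefU.mu A + 1 := by
      rw [CoefU.hm (A := A)]
      push_cast
      ring
    have hmu0 : (0 : ℝ) < CoefU.mu A + 1 := by positivity
    have hdivN : (Fintype.card (Fin N × Fin (Coef.m A)) : ℝ) / ((CoefU.mu A : ℝ) + 1) = N := by
      rw [hcard]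
      push_cast
      rw [hmu]
      field_simp
    rw [hdivN] at hnM
    have hn1 : (N : ℝ) - 2 ≤ R.n := by
      have := (abs_le.1 hnM).1
      linarith
    have hn0 : 0 < R.n := by linarith
    have hsm : SmallR R h δ := by
      refine (small_dimR R (hN.trans hNc) h).mono ?_
      rw [div_le_iff₀ hn0]
      have h1 : Real.sqrt ((Module.finrank ℝ h : ℝ) / 2) ≤ Real.sqrt ((δ * N / 3) ^ 2) := by
        apply Real.sqrt_le_sqrt
        nlinarith [sq_nonneg (δ * N)]
      rw [Real.sqrt_sq (by positivity)] at h1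
      have h2 : δ * N / 3 ≤ δ * R.n := by
        have : (N : ℝ) / 3 ≤ R.n := by linarith
        calc δ * N / 3 = δ * (N / 3) := by ring
          _ ≤ δ * R.n := mul_le_mul_of_nonneg_left this hδ.le
      exact h1.trans h2
    have key : HasEinsteinMetric (cl A (Fin N)) h.toSubmodule (autsG h LinearMap.id) := by
      refine hE (cl A (Fin N)) (Fin N × Fin (Coef.m A)) R (hNδ.trans hNcR) h hsm ?_
      intro X hX hXf hXg
      have hXu : ∀ u : A, rmul (Fin N) u * X = X * rmul (Fin N) u :=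
        FinIrr_comm fun k => by rw [← hf]; exact hXf k
      have hH : X.IsHermitian := by
        rw [Matrix.IsHermitian, Matrix.conjTranspose_eq_transpose_of_trivial]
        exact hX
      obtain ⟨j⟩ := hne
      set r := hH.eigenvalues j with hr
      set v0 : Fin N × Fin (Coef.m A) → ℝ := (hH.eigenvectorBasis j).ofLp with hv0
      have hev : X *ᵥ v0 = r • v0 := hH.mulVec_eigenvectorBasis j
      have hv00 : v0 ≠ 0 := by
        intro h0
        have h1 : hH.eigenvectorBasis j = 0 := by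
          ext a
          exact congrFun h0 a
        have h2 := hH.eigenvectorBasis.orthonormal.ne_zero j
        exact h2 h1
      refine ⟨r, ?_⟩
      set W : Submodule ℝ (Fin N → A) :=
        (LinearMap.ker (X.mulVecLin - r • LinearMap.id)).comap
          (co : (Fin N → A) ≃ₗ[ℝ] _).toLinearMap with hW
      have hWm : ∀ v : Fin N → A, v ∈ W ↔ X *ᵥ co v = r • co v := by
        intro v
        rw [hW, Submodule.mem_comap, LinearMap.mem_ker, LinearMap.sub_apply, LinearMap.smul_apply,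
          LinearMap.id_apply, Matrix.mulVecLin_apply, sub_eq_zero]
        rfl
      have hWtop : W = ⊤ := by
        refine (hirr W ?_ ?_).resolve_left ?_
        · intro v hv u
          rw [hWm] at hv ⊢
          rw [co_rmul, Matrix.mulVec_mulVec, ← hXu, ← Matrix.mulVec_mulVec, hv, Matrix.mulVec_smul]
        · intro g hg1 hg2 hgh v hv
          have hc : lmul g * X = X * lmul g := by
            refine hXg (clConj g hg1 hg2) (lmul g) (FinIrr_map hg1 hg2 hgh) ?_ ?_
            · rw [← lmul_conjT, ← lmul_mul, hg1, lmul_one]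
            · intro x
              rw [hph, hph, clConj_apply, lmul_mul, lmul_mul, lmul_conjT]
          rw [hWm] at hv ⊢
          rw [co_lmul, Matrix.mulVec_mulVec, ← hc, ← Matrix.mulVec_mulVec, hv, Matrix.mulVec_smul]
        · intro hbot
          have h1 : co.symm v0 ∈ W := by
            rw [hWm, LinearEquiv.apply_symm_apply]
            exact hev
          rw [hbot, Submodule.mem_bot] at h1
          apply hv00
          have h2 := congrArg co h1
          rw [LinearEquiv.apply_symm_apply, map_zero] at h2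
          exact h2
      have hall : ∀ w : Fin N × Fin (Coef.m A) → ℝ, X *ᵥ w = r • w := by
        intro w
        have h1 : (co.symm w : Fin N → A) ∈ W := by
          rw [hWtop]
          exact Submodule.mem_top
        rw [hWm, LinearEquiv.apply_symm_apply] at h1
        exact h1
      ext a b
      have h1 := congrFun (hall (Pi.single b 1)) a
      rw [Matrix.mulVec_single_one] at h1
      rw [Matrix.smul_apply, Matrix.one_apply]
      change X a b = _
      have h2 : X a b = (r • (Pi.single b 1 : Fin N × Fin (Coef.m A) → ℝ)) a := h1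
      rw [h2, Pi.smul_apply, Pi.single_apply]
    obtain ⟨m, π, β, D, Y, c, e1, e2, e3, e4, e5, e6, e7⟩ := key
    have hsub : ∀ γ ∈ nrmAuts h, γ ∈ autsG h LinearMap.id := by
      rintro γ ⟨g, hg1, hg2, hγ, hmap⟩
      refine ⟨clConj g hg1 hg2, FinIrr_map hg1 hg2 ?_, fun x => rfl, fun x => Subtype.ext (hγ x)⟩
      intro x hx
      refine ⟨γ x, ?_, hγ x⟩
      have : γ x ∈ h.toSubmodule := by
        rw [← hmap]
        exact ⟨x, hx, rfl⟩
      exact this
    exact ⟨m, π, β, D, Y, c, e1, e2, e3, e4, fun γ hγ => e5 γ (hsub γ hγ),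
      fun γ hγ => e6 γ (hsub γ hγ), e7⟩
  · push Not at hNδ
    rw [lt_div_iff₀ hδ] at hNδ
    have h1 : (Module.finrank ℝ h : ℝ) < 1 := by
      have h2 : 0 < δ * N := by positivity
      have h3 : (N : ℝ) * δ * (N * δ) < 1 := by nlinarith
      nlinarith
    have h2 : Module.finrank ℝ h = 0 := by
      have : Module.finrank ℝ h < 1 := by exact_mod_cast h1
      omega
    have h3 : h.toSubmodule = ⊥ := Submodule.finrank_eq_zero.1 h2
    rw [h3]
    refine einstein_bot (cl_comp hcN) ?_
    rintro γ ⟨g, hg1, hg2, hγ, _⟩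
    exact ⟨clConj g hg1 hg2, fun x => Subtype.ext (hγ x)⟩

end Pool.Agent.EinV
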