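import Pool.Agent.EinV.StII

/-!
# `SO(2k)`, subgroups of `U(k)`

`R` from `exists_rp` (`m = 0`, no `f`, `J = rmul 0 = 0`, `n = N - 2`).  `σ x = s x sᵀ` (`clConj`), `exists_dbl` with `lmul s`, `c = κ s` (`s` is skew),
`κ` such that `Qf c c = 1`; `Qf x c = 0` gives `trace (ph x * s) = 0` (`Qf_cl`).  `einstein_inv` for the doubled representation with `θ = 1/2`, `trace (dz I) = 0`.
`SmallR` for the doubled representation: `small_dimR`.  `csAuts` is contained in `sAuts`: `g' = lmul g ⊗ 1` (`g s = s g`).  If `N` is small, then `h = 0`: `einstein_bot`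
(see `einstein_split` in `EinU/Fin.lean`).
-/

namespace Pool.Agent.EinV

open Matrix Pool.Agent.EStab Pool.Agent.EinS Pool.Agent.SmIso Pool.Agent.EinU Pool.Agent.EinG
  Quaternion
open scoped Kronecker

attribute [local instance 100] LieRing.ofAssociativeRing

/-! ### The doubled matrices as Kronecker products -/

section

variable {I : Type} [Fintype I] [DecidableEq I]

/-- The sign matrix. -/
private def FinSO_z : Matrix (Fin 2) (Fin 2) ℝ := Matrix.diagonal fun a => if a = 0 then 1 else -1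

/-- The matrix with all entries `1`. -/
private def FinSO_j : Matrix (Fin 2) (Fin 2) ℝ := of fun _ _ => 1

/-- The matrix with diagonal entries `1`, the other entries `-1`. -/
private def FinSO_k : Matrix (Fin 2) (Fin 2) ℝ := of fun a b => if a = b then 1 else -1

private theorem FinSO_dz : dz I = (1 : Matrix I I ℝ) ⊗ₖ FinSO_z := by
  ext a b
  rw [Matrix.kronecker_apply]
  unfold dz FinSO_z
  rw [Matrix.diagonal_apply, Matrix.one_apply, Matrix.diagonal_apply]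
  by_cases h1 : a.1 = b.1 <;> by_cases h2 : a.2 = b.2
  · rw [if_pos (Prod.ext h1 h2), if_pos h1, if_pos h2, one_mul]
  · rw [if_neg (fun e => h2 (by rw [e])), if_neg h2, mul_zero]
  · rw [if_neg (fun e => h1 (by rw [e])), if_neg h1, zero_mul]
  · rw [if_neg (fun e => h1 (by rw [e])), if_neg h1, zero_mul]

omit [Fintype I] [DecidableEq I] in
private theorem FinSO_dJ (s : Matrix I I ℝ) : dJ s = s ⊗ₖ FinSO_z := by
  ext a b
  rw [Matrix.kronecker_apply]
  unfold dJ FinSO_z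
  rw [Matrix.of_apply, Matrix.diagonal_apply]
  split_ifs <;> ring

private theorem FinSO_tr : trace (dz I) = 0 := by
  rw [FinSO_dz, Matrix.trace_kronecker]
  have : trace FinSO_z = 0 := by
    unfold FinSO_z
    rw [Matrix.trace_diagonal, Fin.sum_univ_two]
    simp
  rw [this, mul_zero]

private theorem FinSO_zj : FinSO_z * (FinSO_j + FinSO_k) = (FinSO_j + FinSO_k) * FinSO_z := by
  ext i j
  fin_cases i <;> fin_cases j <;>
    simp [FinSO_z, FinSO_j, FinSO_k, Matrix.mul_apply, Matrix.diagonal_apply]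

omit [Fintype I] [DecidableEq I] in
private theorem FinSO_ph {X Y : Matrix I I ℝ} {P : Matrix (I × Fin 2) (I × Fin 2) ℝ}
    (h : ∀ a b, P a b = 1 / 2 * (X a.1 b.1 + (if a.2 = b.2 then 1 else -1) * Y a.1 b.1)) :
    P = (1 / 2 : ℝ) • (X ⊗ₖ FinSO_j + Y ⊗ₖ FinSO_k) := by
  ext a b
  rw [h, Matrix.smul_apply, Matrix.add_apply, Matrix.kronecker_apply, Matrix.kronecker_apply]
  unfold FinSO_j FinSO_k
  rw [Matrix.of_apply, Matrix.of_apply, smul_eq_mul]
  ring

end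

private theorem FinSO_conjT {N : ℕ} {s : Matrix (Fin N) (Fin N) ℝ} (h1 : s * sᴴ = 1)
    (h2 : s * s = -1) : sᴴ = -s := by
  have h3 : sᴴ * s = 1 := mul_eq_one_comm.1 h1
  calc sᴴ = sᴴ * (-(s * s)) := by rw [h2, neg_neg, Matrix.mul_one]
    _ = -(sᴴ * s * s) := by rw [Matrix.mul_neg, Matrix.mul_assoc]
    _ = -s := by rw [h3, Matrix.one_mul]

private theorem FinSO_core (δ : ℝ)
    (hE : ∀ (L : Type) [LieRing L] [LieAlgebra ℝ L] [Module.Finite ℝ L] (I : Type) [Fintype I]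
      [DecidableEq I] (R : Rp L I (4 * CoefU.mu ℝ + 3)) (s : Matrix I I ℝ) (c : L)
      (J0 : Matrix I I ℝ) (g1 g2 : ℝ),
      InvD R s c J0 g1 g2 → 1 / δ ≤ Fintype.card I →
      |trace s| ≤ (1 - 2 * (1 / 2)) * Fintype.card I →
      (((∀ k, s * R.f k = R.f k * s) ∧ s * R.J = R.J * s) ∨ trace s = 0) →
      ∀ h : LieSubalgebra ℝ L, (∀ y ∈ h, s * R.ph y = R.ph y * s) → SmallR R h δ →
        HasEinsteinMetric L h.toSubmodule (sAuts R h s J0))
    {N : ℕ} (hN : 4 ≤ N) (hNδ : 1 / δ ≤ (N : ℝ))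
    (h : LieSubalgebra ℝ (cl ℝ (Fin N))) (s : Matrix (Fin N) (Fin N) ℝ)
    (hs1 : s * sᴴ = 1) (hs2 : s * s = -1) (hsh : ∀ x ∈ h, s * x.1 = x.1 * s)
    (hd : √((Module.finrank ℝ h : ℝ) / 2) / (((N : ℝ) - 2) / 2) ≤ δ) :
    HasEinsteinMetric (cl ℝ (Fin N)) h.toSubmodule (csAuts h s) := by
  have hN4 : (4 : ℝ) ≤ N := by exact_mod_cast hN
  obtain ⟨R, hph, -, hJ, hn⟩ := exists_rp (A := ℝ) (ι := Fin N)
    (by rw [Fintype.card_fin]; omega)
  have hsT : sᴴ = -s := FinSO_conjT hs1 hs2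
  have hs1' : sᴴ * s = 1 := mul_eq_one_comm.1 hs1
  -- constants
  have hRn : R.n = (N : ℝ) - 2 := by
    rw [hn, Fintype.card_fin]
    change (N : ℝ) - 2 * (1 : ℝ) / (((0 : ℕ) : ℝ) + 1) = _
    norm_num
  have hRn0 : 0 < R.n := by rw [hRn]; linarith
  have hRJ : R.J = 0 := by
    rw [hJ]
    ext a b
    change (if a.1 = b.1 then rl (Coef.b b.2 * (0 : ℝ) * star (Coef.b a.2)) else 0) = 0
    rw [mul_zero, zero_mul, rl, map_zero, ite_self]
  -- the matrix `S = lmul s`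
  obtain ⟨S, hS⟩ : ∃ S, S = lmul s := ⟨_, rfl⟩
  have hST : Sᵀ = -S := by
    rw [hS, ← lmul_conjT, hsT, map_neg]
  have hSS : S * S = -1 := by
    rw [hS, ← lmul_mul, hs2, map_neg, lmul_one]
  -- the involution
  obtain ⟨σ, hσd⟩ : ∃ σ : cl ℝ (Fin N) ≃ₗ⁅ℝ⁆ cl ℝ (Fin N), σ = clConj s hs1 hs1' := ⟨_, rfl⟩
  have hσ1 : ∀ x, (σ x).1 = s * x.1 * sᴴ := fun x => by rw [hσd]; rfl
  have hσσ : ∀ x, σ (σ x) = x := by
    intro x
    apply Subtype.ext
    rw [hσ1, hσ1, hsT]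
    calc s * (s * x.1 * -s) * -s = (s * s) * x.1 * (s * s) := by
          simp only [Matrix.mul_neg, Matrix.neg_mul, neg_neg, Matrix.mul_assoc]
      _ = x.1 := by
          rw [hs2, Matrix.neg_mul, Matrix.one_mul, Matrix.mul_neg, Matrix.mul_one, neg_neg]
  have hsσ : ∀ x, S * R.ph x = R.ph (σ x) * S := by
    intro x
    rw [hph, hph, hS, ← lmul_mul, ← lmul_mul, hσ1, Matrix.mul_assoc _ sᴴ s, hs1', Matrix.mul_one]
  -- the element `c`
  have hss : sᴴ = -s ∧ Cen.cen (trace s) = 0 := by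
    refine ⟨hsT, ?_⟩
    rw [cen_real]
    have h1 : trace sᴴ = trace s := by
      rw [Matrix.trace_conjTranspose, star_trivial]
    rw [hsT, Matrix.trace_neg] at h1
    linarith
  obtain ⟨s0, hs0⟩ : ∃ s0 : cl ℝ (Fin N), s0.1 = s := ⟨⟨s, hss⟩, rfl⟩
  have hphs0 : R.ph s0 = S := by rw [hph, hs0, hS]
  obtain ⟨M, hM⟩ : ∃ M : ℝ, M = Fintype.card (Fin N × Fin (Coef.m ℝ)) := ⟨_, rfl⟩
  have hMN : M = N := by
    rw [hM, Fintype.card_prod, Fintype.card_fin, Fintype.card_fin]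
    change ((N * 1 : ℕ) : ℝ) = N
    rw [mul_one]
  have hsum : ∑ a, ∑ b, S a b * S a b = M := by
    have h1 : trace (S * Sᵀ) = M := by
      rw [hST, Matrix.mul_neg, hSS, neg_neg, Matrix.trace_one, hM]
    rw [← h1]
    rfl
  have hM0 : 0 < M := by rw [hMN]; linarith
  have hRM : 0 < R.n * M := mul_pos hRn0 hM0
  obtain ⟨κ, hκ⟩ : ∃ κ : ℝ, κ * κ * (R.n * M) = 1 := by
    refine ⟨1 / √(R.n * M), ?_⟩
    have h2 : √(R.n * M) * √(R.n * M) = R.n * M := Real.mul_self_sqrt hRM.le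
    have h3 : √(R.n * M) ≠ 0 := (Real.sqrt_pos.2 hRM).ne'
    field_simp
    rw [sq, h2]
  have hc : R.ph (κ • s0) = κ • S := by rw [map_smul, hphs0]
  have hcc : Qf (cl ℝ (Fin N)) (κ • s0) (κ • s0) = 1 := by
    rw [R.qf, hc]
    simp only [Matrix.smul_apply, smul_eq_mul]
    have h1 : ∑ a, ∑ b, κ * S a b * (κ * S a b) = κ * κ * ∑ a, ∑ b, S a b * S a b := by
      rw [Finset.mul_sum]
      refine Finset.sum_congr rfl fun a _ => ?_
      rw [Finset.mul_sum]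
      exact Finset.sum_congr rfl fun b _ => by ring
    rw [h1, hsum]
    linarith
  have hκ0 : κ ≠ 0 := by
    rintro rfl
    simp at hκ
  have hts : ∀ x, Qf (cl ℝ (Fin N)) x (κ • s0) = 0 → trace (R.ph x * S) = 0 := by
    intro x hx
    rw [R.qf, hc] at hx
    have h1 : ∑ a, ∑ b, R.ph x a b * (κ • S) a b = κ * ∑ a, ∑ b, R.ph x a b * S a b := by
      rw [Finset.mul_sum]
      refine Finset.sum_congr rfl fun a _ => ?_
      rw [Finset.mul_sum]
      refine Finset.sum_congr rfl fun b _ => ?_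
      rw [Matrix.smul_apply, smul_eq_mul]
      ring
    have h2 : trace (R.ph x * S) = -∑ a, ∑ b, R.ph x a b * S a b := by
      have h3 : trace (R.ph x * Sᵀ) = ∑ a, ∑ b, R.ph x a b * S a b := rfl
      rw [← h3, hST, Matrix.mul_neg, Matrix.trace_neg, neg_neg]
    rw [h1] at hx
    rcases mul_eq_zero.1 hx with h4 | h4
    · exact absurd h4 hRn0.ne'
    · rcases mul_eq_zero.1 h4 with h5 | h5
      · exact absurd h5 hκ0
      · rw [h2, h5, neg_zero]
  -- the doubled representation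
  obtain ⟨R', hn', hph', hI⟩ := exists_dbl R (by rw [hRn]; linarith) hσσ hST hSS hsσ
    (fun k => Fin.elim0 k) (fun k => Fin.elim0 k) (by rw [hRJ, Matrix.mul_zero, Matrix.zero_mul, neg_zero])
    (fun x => by rw [hRJ, Matrix.mul_zero, Matrix.trace_zero]) (fun x k => Fin.elim0 k) hc
    (Or.inl hcc) hts
  have hphK : ∀ x, R'.ph x = (1 / 2 : ℝ) • (R.ph x ⊗ₖ FinSO_j + R.ph (σ x) ⊗ₖ FinSO_k) :=
    fun x => FinSO_ph (hph' x)
  have hcard : (Fintype.card ((Fin N × Fin (Coef.m ℝ)) × Fin 2) : ℝ) = 2 * N := by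
    rw [Fintype.card_prod, Nat.cast_mul, ← hM, hMN, Fintype.card_fin]
    push_cast
    ring
  have hR'n : R'.n = ((N : ℝ) - 2) / 2 := by rw [hn', hRn]
  have hsm : SmallR R' h δ := by
    refine (small_dimR R' ?_ h).mono ?_
    · have : (3 : ℝ) ≤ Fintype.card ((Fin N × Fin (Coef.m ℝ)) × Fin 2) := by
        rw [hcard]; linarith
      exact_mod_cast this
    · rw [hR'n]
      exact hd
  have hEin := hE (cl ℝ (Fin N)) ((Fin N × Fin (Coef.m ℝ)) × Fin 2) R' (dz _) (κ • s0) (dJ S)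
    κ (-κ) hI (by rw [hcard]; linarith) (by rw [FinSO_tr]; simp) (Or.inr FinSO_tr) h ?_ hsm
  · refine einstein_mono hEin ?_
    rintro γ ⟨g, hg1, hg2, hγ, hγh, hgs⟩
    obtain ⟨τ, hτd⟩ : ∃ τ : cl ℝ (Fin N) ≃ₗ⁅ℝ⁆ cl ℝ (Fin N), τ = clConj g hg1 hg2 := ⟨_, rfl⟩
    have hτ1 : ∀ x, (τ x).1 = g * x.1 * gᴴ := fun x => by rw [hτd]; rfl
    have hγτ : ∀ x, γ x = τ x := fun x => Subtype.ext (by rw [hγ, hτ1])
    obtain ⟨G, hG⟩ : ∃ G, G = lmul g := ⟨_, rfl⟩
    have hGG : G * Gᵀ = 1 := by rw [hG, ← lmul_conjT, ← lmul_mul, hg1, lmul_one]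
    have hGS : G * S = S * G := by rw [hG, hS, ← lmul_mul, hgs, lmul_mul]
    have hphτ : ∀ x, R.ph (τ x) = G * R.ph x * Gᵀ := by
      intro x
      rw [hph, hph, hτ1, lmul_mul, lmul_mul, lmul_conjT, hG]
    have hστ : ∀ x, σ (τ x) = τ (σ x) := by
      intro x
      have hgs' : gᴴ * sᴴ = sᴴ * gᴴ := by
        rw [← Matrix.conjTranspose_mul, ← Matrix.conjTranspose_mul, hgs]
      apply Subtype.ext
      rw [hσ1, hτ1, hτ1, hσ1]
      calc s * (g * x.1 * gᴴ) * sᴴ = (s * g) * x.1 * (gᴴ * sᴴ) := by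
            simp only [Matrix.mul_assoc]
        _ = g * (s * x.1 * sᴴ) * gᴴ := by
            rw [← hgs, hgs']
            simp only [Matrix.mul_assoc]
    refine ⟨τ, hγτ, ?_, G ⊗ₖ (1 : Matrix (Fin 2) (Fin 2) ℝ), ?_, ?_, ?_, ?_⟩
    · apply LieSubalgebra.toSubmodule_injective
      rw [← hγh]
      ext x
      constructor
      · rintro ⟨y, hy, rfl⟩
        exact ⟨y, hy, hγτ y⟩
      · rintro ⟨y, hy, rfl⟩
        exact ⟨y, hy, (hγτ y).symm⟩
    · rw [← Matrix.kroneckerMap_transpose, ← Matrix.mul_kronecker_mul, hGG, Matrix.transpose_one,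
        Matrix.mul_one, Matrix.one_kronecker_one]
    · rw [FinSO_dz, ← Matrix.mul_kronecker_mul, ← Matrix.mul_kronecker_mul, Matrix.one_mul,
        Matrix.mul_one, Matrix.one_mul, Matrix.mul_one]
    · rw [FinSO_dJ, ← Matrix.mul_kronecker_mul, ← Matrix.mul_kronecker_mul, hGS,
        Matrix.one_mul, Matrix.mul_one]
    · intro x
      rw [hphK, hphK, hστ, hphτ, hphτ, ← Matrix.kroneckerMap_transpose, Matrix.mul_smul,
        Matrix.smul_mul, Matrix.mul_add, Matrix.add_mul, ← Matrix.mul_kronecker_mul,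
        ← Matrix.mul_kronecker_mul, ← Matrix.mul_kronecker_mul, ← Matrix.mul_kronecker_mul,
        Matrix.transpose_one, Matrix.one_mul, Matrix.one_mul, Matrix.mul_one, Matrix.mul_one]
  · intro y hy
    have hy1 : σ y = y := by
      apply Subtype.ext
      rw [hσ1, hsh y hy, Matrix.mul_assoc, hs1, Matrix.mul_one]
    rw [hphK, hy1, ← Matrix.kronecker_add, FinSO_dz, Matrix.mul_smul, Matrix.smul_mul,
      ← Matrix.mul_kronecker_mul, ← Matrix.mul_kronecker_mul, FinSO_zj, Matrix.one_mul,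
      Matrix.mul_one]

/-- `SO(2k)`, subgroups of `U(k)`. -/
theorem so_u : ∃ ε : ℝ, 0 < ε ∧ ∀ N : ℕ, 3 ≤ N →
    ∀ (h : LieSubalgebra ℝ (cl ℝ (Fin N))) (s : Matrix (Fin N) (Fin N) ℝ),
      s * sᴴ = 1 → s * s = -1 → (∀ x ∈ h, s * x.1 = x.1 * s) →
      (Module.finrank ℝ h : ℝ) ≤ ε * N ^ 2 →
      HasEinsteinMetric (cl ℝ (Fin N)) h.toSubmodule (csAuts h s) := by
  obtain ⟨δ, hδ, hE⟩ := einstein_inv (4 * CoefU.mu ℝ + 3) (θ := 1 / 2) (by norm_num)
  obtain ⟨d, hd⟩ : ∃ d : ℝ, d = min δ (1 / 4) := ⟨_, rfl⟩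
  have hd0 : 0 < d := by rw [hd]; exact lt_min hδ (by norm_num)
  have hdδ : d ≤ δ := by rw [hd]; exact min_le_left _ _
  have hd4 : d ≤ 1 / 4 := by rw [hd]; exact min_le_right _ _
  refine ⟨d ^ 2 / 9, by positivity, ?_⟩
  intro N hN h s hs1 hs2 hsh hdim
  have hN3 : (3 : ℝ) ≤ N := by exact_mod_cast hN
  by_cases hNd : 1 / d ≤ N
  · have hN4 : (4 : ℝ) ≤ N := by
      have h1 : (4 : ℝ) ≤ 1 / d := by
        rw [le_div_iff₀ hd0]
        linarith
      linarith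
    refine FinSO_core δ hE (by exact_mod_cast hN4)
      ((one_div_le_one_div_of_le hd0 hdδ).trans hNd) h s hs1 hs2 hsh ?_
    have hn : (0 : ℝ) < ((N : ℝ) - 2) / 2 := by linarith
    rw [div_le_iff₀ hn]
    have h1 : Real.sqrt ((Module.finrank ℝ h : ℝ) / 2) ≤ Real.sqrt ((d * N / 4) ^ 2) := by
      apply Real.sqrt_le_sqrt
      nlinarith [sq_nonneg (d * N)]
    rw [Real.sqrt_sq (by positivity)] at h1
    have h2 : d * N / 4 ≤ δ * (((N : ℝ) - 2) / 2) := by
      have h3 : (N : ℝ) / 4 ≤ ((N : ℝ) - 2) / 2 := by linarith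
      calc d * N / 4 = d * (N / 4) := by ring
        _ ≤ δ * (((N : ℝ) - 2) / 2) := mul_le_mul hdδ h3 (by positivity) hδ.le
    exact h1.trans h2
  · push Not at hNd
    rw [lt_div_iff₀ hd0] at hNd
    have h1 : (Module.finrank ℝ h : ℝ) < 1 := by
      have h2 : 0 < d * N := by positivity
      have h3 : (N : ℝ) * d * (N * d) < 1 := by nlinarith
      nlinarith
    have h2 : Module.finrank ℝ h = 0 := by
      have : Module.finrank ℝ h < 1 := by exact_mod_cast h1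
      omega
    have h3 : h.toSubmodule = ⊥ := Submodule.finrank_eq_zero.1 h2
    have : Nonempty (Fin N) := ⟨⟨0, by omega⟩⟩
    rw [h3]
    refine einstein_bot (cl_compact ?_) ?_
    · rw [Fintype.card_fin]
      change 2 * (1 : ℝ) < (N : ℝ) * ((1 : ℕ) : ℝ)
      rw [Nat.cast_one]
      linarith
    · rintro γ ⟨g, hg1, hg2, hγ, -, -⟩
      exact ⟨clConj g hg1 hg2, fun x => Subtype.ext (hγ x)⟩

end Pool.Agent.EinV
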