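import Pool.Agent.EinV.StII

/-!
# `SU(N)`, subgroups of `SO(N)` or `Sp(N/2)`

`R` from `exists_rp` (`m = 1`, `f 0 = J = rmul I`).  Let `cj` be the diagonal matrix of the complex conjugation of the coordinates: `cj * lmul X = lmul (X.map star) * cj`,
`cj * rmul u = rmul (star u) * cj`, `cj * cj = 1`.  `s' = lmul s * cj` is orthogonal, `s' * s' = lmul (s * s.map star) = ± 1`, it anticommutes with `rmul I`, and
`s' * lmul x = lmul x * s'` if `s * x.map star = x * s`.
* `+`: `s'` is symmetric, `InvD R s' 0 0 0 0`: `trace (x f) = 0` (`cl_trace`), `trace (s' x f) = 0` by conjugation with `f`, `trace s' = 0`; `einstein_inv` with `θ = 1/2`.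
* `-`: `s'` is skew, `σ x = s x̄ sᴴ` (`σ` is an involution of `cl ℂ`), `exists_dbl` with `c = 0`, `κ = 0` (`trace (x s') = 0` by conjugation with `f 0`), `einstein_inv`.
`ccAuts` is contained in `sAuts`: `lmul g` commutes with `s'`; in the second case `g' = lmul g ⊗ 1`.
`small_dimR`; if `N` is small, then `h = 0`: `einstein_bot` (see `einstein_split` in `EinU/Fin.lean`).
-/

namespace Pool.Agent.EinV

open Matrix Pool.Agent.EStab Pool.Agent.EinS Pool.Agent.SmIso Pool.Agent.EinU Pool.Agent.EinG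
  Quaternion

attribute [local instance 100] LieRing.ofAssociativeRing

section

variable {ι : Type} [Fintype ι] [DecidableEq ι]

/-- The complex conjugation of the coordinates. -/
private noncomputable def FinSU_cj (ι : Type) [DecidableEq ι] :
    Matrix (ι × Fin (Coef.m ℂ)) (ι × Fin (Coef.m ℂ)) ℝ :=
  Matrix.diagonal fun a => if a.2.val = 0 then 1 else -1

private theorem FinSU_cc : FinSU_cj ι * FinSU_cj ι = 1 := by
  unfold FinSU_cj
  rw [Matrix.diagonal_mul_diagonal, ← Matrix.diagonal_one]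
  congr 1
  funext a
  split_ifs <;> norm_num

omit [Fintype ι] in
private theorem FinSU_cT : (FinSU_cj ι)ᵀ = FinSU_cj ι := Matrix.diagonal_transpose _

private theorem FinSU_key (x : ℂ) (p q : Fin 2) :
    (if p.val = 0 then (1 : ℝ) else -1) * (x * ![1, Complex.I] q * star (![1, Complex.I] p)).re =
      (star x * ![1, Complex.I] q * star (![1, Complex.I] p)).re *
        (if q.val = 0 then 1 else -1) := by
  fin_cases p <;> fin_cases q <;> simp

private theorem FinSU_cl (X : Matrix ι ι ℂ) :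
    FinSU_cj ι * lmul X = lmul (X.map star) * FinSU_cj ι := by
  unfold FinSU_cj
  ext a b
  rw [Matrix.diagonal_mul, Matrix.mul_diagonal, lmul_apply, lmul_apply]
  exact FinSU_key _ _ _

private theorem FinSU_cr (u : ℂ) :
    FinSU_cj ι * rmul ι u = rmul ι (star u) * FinSU_cj ι := by
  unfold FinSU_cj
  ext a b
  rw [Matrix.diagonal_mul, Matrix.mul_diagonal]
  unfold rmul
  rw [Matrix.of_apply, Matrix.of_apply]
  by_cases h : a.1 = b.1
  · rw [if_pos h, if_pos h, mul_comm (Coef.b b.2) u, mul_comm (Coef.b b.2) (star u)]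
    exact FinSU_key _ _ _
  · rw [if_neg h, if_neg h, mul_zero, zero_mul]

/-- The real matrix of `v ↦ s v̄`. -/
private noncomputable def FinSU_S (s : Matrix ι ι ℂ) :
    Matrix (ι × Fin (Coef.m ℂ)) (ι × Fin (Coef.m ℂ)) ℝ :=
  lmul s * FinSU_cj ι

private theorem FinSU_SS (s : Matrix ι ι ℂ) :
    FinSU_S s * FinSU_S s = lmul (s * s.map star) := by
  unfold FinSU_S
  calc lmul s * FinSU_cj ι * (lmul s * FinSU_cj ι)
      = lmul s * (FinSU_cj ι * lmul s) * FinSU_cj ι := by simp only [Matrix.mul_assoc]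
    _ = lmul s * lmul (s.map star) * (FinSU_cj ι * FinSU_cj ι) := by
        rw [FinSU_cl]
        simp only [Matrix.mul_assoc]
    _ = _ := by rw [FinSU_cc, Matrix.mul_one, lmul_mul]

private theorem FinSU_TS {s : Matrix ι ι ℂ} (hs : s * sᴴ = 1) :
    (FinSU_S s)ᵀ * FinSU_S s = 1 := by
  have hs' : sᴴ * s = 1 := mul_eq_one_comm.1 hs
  unfold FinSU_S
  rw [Matrix.transpose_mul, FinSU_cT, ← lmul_conjT]
  calc FinSU_cj ι * lmul sᴴ * (lmul s * FinSU_cj ι)
      = FinSU_cj ι * (lmul sᴴ * lmul s) * FinSU_cj ι := by simp only [Matrix.mul_assoc]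
    _ = 1 := by rw [← lmul_mul, hs', lmul_one, Matrix.mul_one, FinSU_cc]

private theorem FinSU_Sp {s : Matrix ι ι ℂ} (hs : s * sᴴ = 1) (h : s * s.map star = 1) :
    (FinSU_S s)ᵀ = FinSU_S s := by
  have h1 : FinSU_S s * FinSU_S s = 1 := by rw [FinSU_SS, h, lmul_one]
  calc (FinSU_S s)ᵀ = (FinSU_S s)ᵀ * (FinSU_S s * FinSU_S s) := by rw [h1, Matrix.mul_one]
    _ = (FinSU_S s)ᵀ * FinSU_S s * FinSU_S s := by rw [Matrix.mul_assoc]
    _ = _ := by rw [FinSU_TS hs, Matrix.one_mul]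

private theorem FinSU_Sm1 {s : Matrix ι ι ℂ} (h : s * s.map star = -1) :
    FinSU_S s * FinSU_S s = -1 := by
  rw [FinSU_SS, h, map_neg, lmul_one]

private theorem FinSU_Sm {s : Matrix ι ι ℂ} (hs : s * sᴴ = 1) (h : s * s.map star = -1) :
    (FinSU_S s)ᵀ = -FinSU_S s := by
  have h1 := FinSU_Sm1 h
  calc (FinSU_S s)ᵀ = -((FinSU_S s)ᵀ * (FinSU_S s * FinSU_S s)) := by
        rw [h1, Matrix.mul_neg, Matrix.mul_one, neg_neg]
    _ = -((FinSU_S s)ᵀ * FinSU_S s * FinSU_S s) := by rw [Matrix.mul_assoc]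
    _ = _ := by rw [FinSU_TS hs, Matrix.one_mul]

private theorem FinSU_Sr (s : Matrix ι ι ℂ) (u : ℂ) (hu : star u = -u) :
    FinSU_S s * rmul ι u = -(rmul ι u * FinSU_S s) := by
  unfold FinSU_S
  rw [Matrix.mul_assoc, FinSU_cr, ← Matrix.mul_assoc, lmul_rmul, hu, rmul_neg, Matrix.neg_mul,
    Matrix.neg_mul, Matrix.mul_assoc]

private theorem FinSU_Sl {s X Y : Matrix ι ι ℂ} (h : s * X.map star = Y * s) :
    FinSU_S s * lmul X = lmul Y * FinSU_S s := by
  unfold FinSU_S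
  rw [Matrix.mul_assoc, FinSU_cl, ← Matrix.mul_assoc, ← lmul_mul, h, lmul_mul, Matrix.mul_assoc]

private theorem FinSU_tr0 {I : Type} [Fintype I] [DecidableEq I] {F M : Matrix I I ℝ}
    (hF : Fᵀ * F = 1) (h : M * F = -(F * M)) : trace M = 0 := by
  have hF' : F * Fᵀ = 1 := mul_eq_one_comm.1 hF
  have h1 : trace M = -trace M := by
    calc trace M = trace (M * F * Fᵀ) := by rw [Matrix.mul_assoc, hF', Matrix.mul_one]
      _ = -trace (F * M * Fᵀ) := by rw [h, Matrix.neg_mul, Matrix.trace_neg]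
      _ = -trace M := by
        rw [Matrix.trace_mul_comm, ← Matrix.mul_assoc, hF, Matrix.one_mul]
  linarith

private theorem FinSU_FF : (rmul ι Complex.I)ᵀ * rmul ι Complex.I = 1 := by
  rw [rmul_T, rmul_mul]
  have h : Complex.I * star Complex.I = 1 := by simp
  rw [h, rmul_one]

private theorem FinSU_I : star Complex.I = -Complex.I := by simp

private theorem FinSU_FT : (rmul ι Complex.I)ᵀ = -rmul ι Complex.I := by
  rw [rmul_T, FinSU_I, rmul_neg]

private theorem FinSU_bs (k : Fin (CoefU.mu ℂ)) : (CoefU.bs k : ℂ) = Complex.I := by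
  have h : ∀ k : Fin 1, (![Complex.I] : Fin 1 → ℂ) k = Complex.I := by
    intro k
    fin_cases k
    rfl
  exact h k

private theorem FinSU_t1 (x : cl ℂ ι) : trace (lmul x.1 * rmul ι Complex.I) = 0 :=
  cl_trace x

private theorem FinSU_t2 (s : Matrix ι ι ℂ) (X : Matrix ι ι ℂ) :
    trace (FinSU_S s * lmul X * rmul ι Complex.I) = 0 := by
  refine FinSU_tr0 FinSU_FF ?_
  have h1 := FinSU_Sr s Complex.I FinSU_I
  calc FinSU_S s * lmul X * rmul ι Complex.I * rmul ι Complex.I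
      = FinSU_S s * (lmul X * rmul ι Complex.I) * rmul ι Complex.I := by
        simp only [Matrix.mul_assoc]
    _ = FinSU_S s * rmul ι Complex.I * lmul X * rmul ι Complex.I := by
        rw [lmul_rmul]
        simp only [Matrix.mul_assoc]
    _ = _ := by
        rw [h1]
        simp only [Matrix.mul_assoc, Matrix.neg_mul]

private theorem FinSU_t3 (s : Matrix ι ι ℂ) : trace (FinSU_S s) = 0 :=
  FinSU_tr0 FinSU_FF (FinSU_Sr s Complex.I FinSU_I)

private theorem FinSU_t4 (s : Matrix ι ι ℂ) (X : Matrix ι ι ℂ) :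
    trace (lmul X * FinSU_S s) = 0 := by
  refine FinSU_tr0 FinSU_FF ?_
  rw [Matrix.mul_assoc, FinSU_Sr s Complex.I FinSU_I, Matrix.mul_neg, ← Matrix.mul_assoc,
    lmul_rmul, Matrix.mul_assoc]

omit [DecidableEq ι] in
private theorem FinSU_mapm (x y : Matrix ι ι ℂ) :
    x.map star * y.map star = (x * y).map star := by
  ext i j
  simp only [Matrix.mul_apply, Matrix.map_apply, star_sum, star_mul']

omit [Fintype ι] [DecidableEq ι] in
private theorem FinSU_mapH (x : Matrix ι ι ℂ) : (xᴴ).map star = (x.map star)ᴴ := rfl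

omit [Fintype ι] [DecidableEq ι] in
private theorem FinSU_mapmap (x : Matrix ι ι ℂ) : (x.map star).map star = x := by
  ext i j
  exact star_star _

/-- The complex conjugation of the Lie algebra. -/
private noncomputable def FinSU_bar (ι : Type) [Fintype ι] [DecidableEq ι] :
    cl ℂ ι ≃ₗ⁅ℝ⁆ cl ℂ ι where
  toFun x := ⟨x.1.map star, by
    constructor
    · have h1 : (x.1.map star)ᴴ = (x.1ᴴ).map star := by
        ext i j
        rfl
      rw [h1, x.2.1]
      ext i j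
      simp
    · have h1 : trace x.1 = 0 := x.2.2
      change trace (x.1.map star) = 0
      have h2 : trace (x.1.map star) = star (trace x.1) := by
        simp only [Matrix.trace, Matrix.diag_apply, Matrix.map_apply, star_sum]
      rw [h2, h1, star_zero]⟩
  map_add' x y := by
    apply Subtype.ext
    ext i j
    change star (x.1 i j + y.1 i j) = star (x.1 i j) + star (y.1 i j)
    rw [star_add]
  map_smul' c x := by
    apply Subtype.ext
    ext i j
    change star (c • x.1 i j) = c • star (x.1 i j)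
    rw [Cen.star_smul']
  map_lie' := by
    intro x y
    apply Subtype.ext
    change (x.1 * y.1 - y.1 * x.1).map star =
      x.1.map star * y.1.map star - y.1.map star * x.1.map star
    rw [FinSU_mapm x.1 y.1, FinSU_mapm y.1 x.1]
    ext i j
    exact star_sub _ _
  invFun x := ⟨x.1.map star, by
    constructor
    · have h1 : (x.1.map star)ᴴ = (x.1ᴴ).map star := by
        ext i j
        rfl
      rw [h1, x.2.1]
      ext i j
      simp
    · have h1 : trace x.1 = 0 := x.2.2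
      change trace (x.1.map star) = 0
      have h2 : trace (x.1.map star) = star (trace x.1) := by
        simp only [Matrix.trace, Matrix.diag_apply, Matrix.map_apply, star_sum]
      rw [h2, h1, star_zero]⟩
  left_inv x := by
    apply Subtype.ext
    ext i j
    exact star_star _
  right_inv x := by
    apply Subtype.ext
    ext i j
    exact star_star _

/-- The involution `x ↦ s x̄ sᴴ`. -/
private noncomputable def FinSU_sig {s : Matrix ι ι ℂ} (h1 : s * sᴴ = 1) (h2 : sᴴ * s = 1) :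
    cl ℂ ι ≃ₗ⁅ℝ⁆ cl ℂ ι :=
  (FinSU_bar ι).trans (clConj s h1 h2)

private theorem FinSU_sig_val {s : Matrix ι ι ℂ} (h1 : s * sᴴ = 1) (h2 : sᴴ * s = 1)
    (x : cl ℂ ι) : (FinSU_sig h1 h2 x).1 = s * x.1.map star * sᴴ := rfl

private theorem FinSU_sig_sig {s : Matrix ι ι ℂ} (h1 : s * sᴴ = 1) (h2 : sᴴ * s = 1)
    (h : s * s.map star = -1) (x : cl ℂ ι) : FinSU_sig h1 h2 (FinSU_sig h1 h2 x) = x := by
  apply Subtype.ext
  rw [FinSU_sig_val, FinSU_sig_val, ← FinSU_mapm, ← FinSU_mapm, FinSU_mapmap, FinSU_mapH]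
  calc s * (s.map star * x.1 * (s.map star)ᴴ) * sᴴ
      = (s * s.map star) * x.1 * (s * s.map star)ᴴ := by
        rw [Matrix.conjTranspose_mul]
        simp only [Matrix.mul_assoc]
    _ = x.1 := by
        rw [h, Matrix.conjTranspose_neg, Matrix.conjTranspose_one, Matrix.neg_mul,
          Matrix.one_mul, Matrix.mul_neg, Matrix.mul_one, neg_neg]

private theorem FinSU_sig_S {s : Matrix ι ι ℂ} (h1 : s * sᴴ = 1) (h2 : sᴴ * s = 1)
    (x : cl ℂ ι) : FinSU_S s * lmul x.1 = lmul (FinSU_sig h1 h2 x).1 * FinSU_S s := by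
  apply FinSU_Sl
  rw [FinSU_sig_val, Matrix.mul_assoc, h2, Matrix.mul_one]

private theorem FinSU_sig_fix {s : Matrix ι ι ℂ} (h1 : s * sᴴ = 1) (h2 : sᴴ * s = 1)
    {x : cl ℂ ι} (h : s * x.1.map star = x.1 * s) : FinSU_sig h1 h2 x = x := by
  apply Subtype.ext
  rw [FinSU_sig_val, h, Matrix.mul_assoc, h1, Matrix.mul_one]

private theorem FinSU_sig_g {s g : Matrix ι ι ℂ} (h1 : s * sᴴ = 1) (h2 : sᴴ * s = 1)
    (hg1 : g * gᴴ = 1) (hg2 : gᴴ * g = 1) (hg : g * s = s * g.map star) (x : cl ℂ ι) :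
    FinSU_sig h1 h2 (clConj g hg1 hg2 x) = clConj g hg1 hg2 (FinSU_sig h1 h2 x) := by
  apply Subtype.ext
  rw [FinSU_sig_val, clConj_apply, clConj_apply, FinSU_sig_val, ← FinSU_mapm, ← FinSU_mapm,
    FinSU_mapH]
  calc s * (g.map star * x.1.map star * (g.map star)ᴴ) * sᴴ
      = (s * g.map star) * x.1.map star * (s * g.map star)ᴴ := by
        rw [Matrix.conjTranspose_mul]
        simp only [Matrix.mul_assoc]
    _ = g * (s * x.1.map star * sᴴ) * gᴴ := by
        rw [← hg, Matrix.conjTranspose_mul]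
        simp only [Matrix.mul_assoc]

private theorem FinSU_map {h : LieSubalgebra ℝ (cl ℂ ι)} {γ : cl ℂ ι →ₗ[ℝ] cl ℂ ι}
    {δ : cl ℂ ι ≃ₗ⁅ℝ⁆ cl ℂ ι} (hγ : ∀ x, γ x = δ x)
    (hm : h.toSubmodule.map γ = h.toSubmodule) :
    h.map (δ : cl ℂ ι →ₗ⁅ℝ⁆ cl ℂ ι) = h := by
  ext x
  rw [LieSubalgebra.mem_map]
  have h1 : x ∈ h ↔ x ∈ h.toSubmodule := Iff.rfl
  rw [h1, ← hm, Submodule.mem_map]
  constructor
  · rintro ⟨y, hy, hyx⟩
    refine ⟨y, hy, ?_⟩
    rw [hγ]
    exact hyx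
  · rintro ⟨y, hy, hyx⟩
    refine ⟨y, hy, ?_⟩
    rw [← hyx, hγ]
    rfl

private theorem FinSU_lg {g : Matrix ι ι ℂ} (hg1 : g * gᴴ = 1) : lmul g * (lmul g)ᵀ = 1 := by
  rw [← lmul_conjT, ← lmul_mul, hg1, lmul_one]

/-- The case `s s̄ = 1`. -/
private theorem FinSU_case1 {δ : ℝ} (hE : ∀ (L : Type) [LieRing L] [LieAlgebra ℝ L]
    [Module.Finite ℝ L] (I : Type) [Fintype I]
    [DecidableEq I] (R : Rp L I 1) (s : Matrix I I ℝ) (c : L) (J0 : Matrix I I ℝ) (g1 g2 : ℝ),
    InvD R s c J0 g1 g2 → 1 / δ ≤ Fintype.card I →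
    |trace s| ≤ (1 - 2 * (1 / 2)) * Fintype.card I →
    (((∀ k, s * R.f k = R.f k * s) ∧ s * R.J = R.J * s) ∨ trace s = 0) →
    ∀ h : LieSubalgebra ℝ L, (∀ y ∈ h, s * R.ph y = R.ph y * s) → SmallR R h δ →
      HasEinsteinMetric L h.toSubmodule (sAuts R h s J0))
    (hN : 3 ≤ Fintype.card ι) (hδ : 1 / δ ≤ (Fintype.card ι : ℝ))
    (h : LieSubalgebra ℝ (cl ℂ ι)) (s : Matrix ι ι ℂ)
    (hs : s * sᴴ = 1) (hss : s * s.map star = 1)
    (hsh : ∀ x ∈ h, s * x.1.map star = x.1 * s)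
    (hd : √((Module.finrank ℝ h : ℝ) / 2) ≤ δ * Fintype.card ι) :
    HasEinsteinMetric (cl ℂ ι) h.toSubmodule (ccAuts h s) := by
  obtain ⟨R, hph, hf, hJ, hn⟩ := exists_rp (A := ℂ) (ι := ι) hN
  have hf' : ∀ k, R.f k = rmul ι Complex.I := fun k => by rw [hf, FinSU_bs]
  have hJ' : R.J = rmul ι Complex.I := hJ
  have hN0 : (0 : ℝ) < Fintype.card ι := by
    have : 0 < Fintype.card ι := by omega
    exact_mod_cast this
  have hn' : R.n = Fintype.card ι := by
    rw [hn]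
    have h0 : Coef.sg ℂ = 0 := rfl
    rw [h0, mul_zero, zero_div, sub_zero]
  have hcard : (Fintype.card (ι × Fin (Coef.m ℂ)) : ℝ) = 2 * Fintype.card ι := by
    rw [Fintype.card_prod, Fintype.card_fin]
    have h0 : Coef.m ℂ = 2 := rfl
    rw [h0]
    push_cast
    ring
  have hinv : InvD R (FinSU_S s) 0 0 0 0 := by
    refine ⟨FinSU_Sp hs hss, ?_, fun k => Or.inr ?_, Or.inr ?_, by simp, Or.inl rfl,
      fun x => by simp, by simp, Or.inr rfl, by simp, fun x _ => ?_, fun x _ k => ?_⟩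
    · rw [FinSU_SS, hss, lmul_one]
    · rw [hf']
      exact FinSU_Sr s _ FinSU_I
    · rw [hJ']
      exact FinSU_Sr s _ FinSU_I
    · rw [hph, hJ']
      exact ⟨FinSU_t1 x, FinSU_t2 s x.1⟩
    · rw [hph, hf']
      exact ⟨FinSU_t1 x, FinSU_t2 s x.1⟩
  refine einstein_mono (hE (cl ℂ ι) (ι × Fin (Coef.m ℂ)) R (FinSU_S s) 0 0 0 0 hinv ?_ ?_
    (Or.inr (FinSU_t3 s)) h ?_ ?_) ?_
  · rw [hcard]
    linarith
  · rw [FinSU_t3, abs_zero]
    norm_num
  · intro y hy
    rw [hph]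
    exact FinSU_Sl (hsh y hy)
  · refine (small_dimR R ?_ h).mono ?_
    · rw [Fintype.card_prod, Fintype.card_fin]
      have h0 : Coef.m ℂ = 2 := rfl
      rw [h0]
      omega
    · rw [hn', div_le_iff₀ hN0]
      exact hd
  · rintro γ ⟨g, hg1, hg2, hγ, hm, hg⟩
    have hγ' : ∀ x, γ x = clConj g hg1 hg2 x := fun x => Subtype.ext (hγ x)
    refine ⟨clConj g hg1 hg2, hγ', FinSU_map hγ' hm, lmul g, FinSU_lg hg1, ?_, by simp,
      fun x => ?_⟩
    · exact FinSU_Sl hg.symm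
    · rw [hph, hph, clConj_apply, lmul_mul, lmul_mul, lmul_conjT]

end

section Bd

variable {I : Type} [Fintype I] [DecidableEq I]

/-- `G ⊗ 1`. -/
private def FinSU_bd (G : Matrix I I ℝ) : Matrix (I × Fin 2) (I × Fin 2) ℝ :=
  Matrix.blockDiagonal fun _ => G

private theorem FinSU_dz : dz I = Matrix.blockDiagonal fun p : Fin 2 =>
    if p = 0 then (1 : Matrix I I ℝ) else -1 := by
  ext a b
  unfold dz
  rw [Matrix.blockDiagonal_apply, Matrix.diagonal_apply]
  by_cases h : a.2 = b.2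
  · rw [if_pos h]
    by_cases h1 : a.1 = b.1
    · have h2 : a = b := Prod.ext h1 h
      rw [if_pos h2]
      by_cases h3 : a.2 = 0
      · rw [if_pos h3, if_pos h3, h1, Matrix.one_apply_eq]
      · rw [if_neg h3, if_neg h3, h1, Matrix.neg_apply, Matrix.one_apply_eq]
    · have h2 : a ≠ b := fun e => h1 (by rw [e])
      rw [if_neg h2]
      by_cases h3 : a.2 = 0
      · rw [if_pos h3, Matrix.one_apply_ne h1]
      · rw [if_neg h3, Matrix.neg_apply, Matrix.one_apply_ne h1, neg_zero]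
  · have h2 : a ≠ b := fun e => h (by rw [e])
    rw [if_neg h, if_neg h2]

omit [Fintype I] [DecidableEq I] in
private theorem FinSU_dJ (S : Matrix I I ℝ) : dJ S = Matrix.blockDiagonal fun p : Fin 2 =>
    if p = 0 then S else -S := by
  ext a b
  unfold dJ
  rw [Matrix.blockDiagonal_apply, Matrix.of_apply]
  by_cases h : a.2 = b.2
  · rw [if_pos h, if_pos h]
    by_cases h3 : a.2 = 0
    · rw [if_pos h3, if_pos h3]
    · rw [if_neg h3, if_neg h3, Matrix.neg_apply]
  · rw [if_neg h, if_neg h]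

private theorem FinSU_bdT {G : Matrix I I ℝ} (hG : G * Gᵀ = 1) :
    FinSU_bd G * (FinSU_bd G)ᵀ = 1 := by
  unfold FinSU_bd
  rw [Matrix.blockDiagonal_transpose, ← Matrix.blockDiagonal_mul]
  simp only [hG]
  exact Matrix.blockDiagonal_one

private theorem FinSU_bdz (G : Matrix I I ℝ) : dz I * FinSU_bd G = FinSU_bd G * dz I := by
  rw [FinSU_dz]
  unfold FinSU_bd
  rw [← Matrix.blockDiagonal_mul, ← Matrix.blockDiagonal_mul]
  congr 1
  funext p
  by_cases h3 : p = 0
  · rw [if_pos h3, Matrix.one_mul, Matrix.mul_one]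
  · rw [if_neg h3, Matrix.neg_mul, Matrix.mul_neg, Matrix.one_mul, Matrix.mul_one]

omit [DecidableEq I] in
private theorem FinSU_bdJ {S G : Matrix I I ℝ} (h : S * G = G * S) :
    dJ S * FinSU_bd G = FinSU_bd G * dJ S := by
  rw [FinSU_dJ]
  unfold FinSU_bd
  rw [← Matrix.blockDiagonal_mul, ← Matrix.blockDiagonal_mul]
  congr 1
  funext p
  by_cases h3 : p = 0
  · rw [if_pos h3, h]
  · rw [if_neg h3, Matrix.neg_mul, Matrix.mul_neg, h]

omit [DecidableEq I] in
private theorem FinSU_bdM (G : Matrix I I ℝ) (M : Matrix (I × Fin 2) (I × Fin 2) ℝ)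
    (a b : I × Fin 2) : (FinSU_bd G * M * (FinSU_bd G)ᵀ) a b =
      (G * (Matrix.of fun c d => M (c, a.2) (d, b.2)) * Gᵀ) a.1 b.1 := by
  obtain ⟨a, p⟩ := a
  obtain ⟨b, q⟩ := b
  unfold FinSU_bd
  rw [Matrix.blockDiagonal_transpose]
  simp only [Matrix.mul_apply, Fintype.sum_prod_type, Matrix.blockDiagonal_apply, Matrix.of_apply,
    Matrix.transpose_apply, ite_mul, mul_ite, zero_mul, mul_zero, Finset.sum_ite_eq,
    Finset.sum_ite_eq', Finset.mem_univ, if_true]

private theorem FinSU_dz_tr : trace (dz I) = 0 := by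
  unfold dz
  rw [Matrix.trace_diagonal, Fintype.sum_prod_type]
  simp

private theorem FinSU_dz_comm {M : Matrix (I × Fin 2) (I × Fin 2) ℝ}
    (h : ∀ a b, a.2 ≠ b.2 → M a b = 0) : dz I * M = M * dz I := by
  unfold dz
  ext a b
  rw [Matrix.diagonal_mul, Matrix.mul_diagonal]
  by_cases h1 : a.2 = b.2
  · rw [h1, mul_comm]
  · rw [h a b h1, mul_zero, zero_mul]

end Bd

section

variable {ι : Type} [Fintype ι] [DecidableEq ι]

/-- The case `s s̄ = -1`. -/
private theorem FinSU_case2 {δ : ℝ} (hE : ∀ (L : Type) [LieRing L] [LieAlgebra ℝ L]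
    [Module.Finite ℝ L] (I : Type) [Fintype I]
    [DecidableEq I] (R : Rp L I 7) (s : Matrix I I ℝ) (c : L) (J0 : Matrix I I ℝ) (g1 g2 : ℝ),
    InvD R s c J0 g1 g2 → 1 / δ ≤ Fintype.card I →
    |trace s| ≤ (1 - 2 * (1 / 2)) * Fintype.card I →
    (((∀ k, s * R.f k = R.f k * s) ∧ s * R.J = R.J * s) ∨ trace s = 0) →
    ∀ h : LieSubalgebra ℝ L, (∀ y ∈ h, s * R.ph y = R.ph y * s) → SmallR R h δ →
      HasEinsteinMetric L h.toSubmodule (sAuts R h s J0))
    (hN : 3 ≤ Fintype.card ι) (hδ : 1 / δ ≤ (Fintype.card ι : ℝ))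
    (h : LieSubalgebra ℝ (cl ℂ ι)) (s : Matrix ι ι ℂ)
    (hs : s * sᴴ = 1) (hss : s * s.map star = -1)
    (hsh : ∀ x ∈ h, s * x.1.map star = x.1 * s)
    (hd : √((Module.finrank ℝ h : ℝ) / 2) ≤ δ / 2 * Fintype.card ι) :
    HasEinsteinMetric (cl ℂ ι) h.toSubmodule (ccAuts h s) := by
  obtain ⟨R, hph, hf, hJ, hn⟩ := exists_rp (A := ℂ) (ι := ι) hN
  have hs' : sᴴ * s = 1 := mul_eq_one_comm.1 hs
  have hf' : ∀ k, R.f k = rmul ι Complex.I := fun k => by rw [hf, FinSU_bs]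
  have hJ' : R.J = rmul ι Complex.I := hJ
  have hN0 : (0 : ℝ) < Fintype.card ι := by
    have : 0 < Fintype.card ι := by omega
    exact_mod_cast this
  have hN3 : (3 : ℝ) ≤ Fintype.card ι := by exact_mod_cast hN
  have hn' : R.n = Fintype.card ι := by
    rw [hn]
    have h0 : Coef.sg ℂ = 0 := rfl
    rw [h0, mul_zero, zero_div, sub_zero]
  have hcard : Fintype.card ((ι × Fin (Coef.m ℂ)) × Fin 2) = 4 * Fintype.card ι := by
    rw [Fintype.card_prod, Fintype.card_prod, Fintype.card_fin, Fintype.card_fin]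
    have h0 : Coef.m ℂ = 2 := rfl
    rw [h0]
    ring
  obtain ⟨R', hn2, hph2, hinv⟩ := exists_dbl R (by rw [hn']; linarith)
    (σ := FinSU_sig hs hs') (FinSU_sig_sig hs hs' hss) (s := FinSU_S s) (FinSU_Sm hs hss)
    (FinSU_Sm1 hss) (fun x => by rw [hph, hph]; exact FinSU_sig_S hs hs' x)
    (fun k => by rw [hf']; exact FinSU_Sr s _ FinSU_I) (fun k => by rw [hf']; exact FinSU_FT)
    (by rw [hJ']; exact FinSU_Sr s _ FinSU_I) (fun x => by rw [hph, hJ']; exact FinSU_t1 x)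
    (fun x k => by rw [hph, hf']; exact FinSU_t1 x) (c := 0) (κ := 0) (by simp) (Or.inr rfl)
    (fun x _ => by rw [hph]; exact FinSU_t4 s x.1)
  refine einstein_mono (hE (cl ℂ ι) ((ι × Fin (Coef.m ℂ)) × Fin 2) R' (dz _) 0
    (dJ (FinSU_S s)) 0 (-0) hinv ?_ ?_ (Or.inr FinSU_dz_tr) h ?_ ?_) ?_
  · rw [hcard]
    push_cast
    linarith
  · rw [FinSU_dz_tr, abs_zero]
    norm_num
  · intro y hy
    apply FinSU_dz_comm
    intro a b hab
    rw [hph2, FinSU_sig_fix hs hs' (hsh y hy), if_neg hab]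
    ring
  · refine (small_dimR R' (by rw [hcard]; omega) h).mono ?_
    rw [hn2, hn', div_le_iff₀ (by positivity)]
    linarith
  · rintro γ ⟨g, hg1, hg2, hγ, hm, hg⟩
    have hγ' : ∀ x, γ x = clConj g hg1 hg2 x := fun x => Subtype.ext (hγ x)
    have hR : ∀ x, R.ph (clConj g hg1 hg2 x) = lmul g * R.ph x * (lmul g)ᵀ := by
      intro x
      rw [hph, hph, clConj_apply, lmul_mul, lmul_mul, lmul_conjT]
    refine ⟨clConj g hg1 hg2, hγ', FinSU_map hγ' hm, FinSU_bd (lmul g),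
      FinSU_bdT (FinSU_lg hg1), FinSU_bdz _, FinSU_bdJ (FinSU_Sl hg.symm), fun x => ?_⟩
    ext a b
    rw [FinSU_bdM, hph2, FinSU_sig_g hs hs' hg1 hg2 hg, hR, hR]
    have h1 : (Matrix.of fun c d => R'.ph x (c, a.2) (d, b.2)) =
        (1 / 2 : ℝ) • (R.ph x + (if a.2 = b.2 then (1 : ℝ) else -1) •
          R.ph (FinSU_sig hs hs' x)) := by
      ext c d
      rw [Matrix.of_apply, hph2, Matrix.smul_apply, Matrix.add_apply, Matrix.smul_apply,
        smul_eq_mul, smul_eq_mul]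
    rw [h1, Matrix.mul_smul, Matrix.smul_mul, Matrix.mul_add, Matrix.add_mul, Matrix.mul_smul,
      Matrix.smul_mul, Matrix.smul_apply, Matrix.add_apply, Matrix.smul_apply, smul_eq_mul,
      smul_eq_mul]

end

/-- `SU(N)`, subgroups of `SO(N)` or `Sp(N/2)`. -/
theorem su_so_sp : ∃ ε : ℝ, 0 < ε ∧ ∀ N : ℕ, 3 ≤ N →
    ∀ (h : LieSubalgebra ℝ (cl ℂ (Fin N))) (s : Matrix (Fin N) (Fin N) ℂ),
      s * sᴴ = 1 → s * s.map star = 1 ∨ s * s.map star = -1 →
      (∀ x ∈ h, s * x.1.map star = x.1 * s) → (Module.finrank ℝ h : ℝ) ≤ ε * N ^ 2 →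
      HasEinsteinMetric (cl ℂ (Fin N)) h.toSubmodule (ccAuts h s) := by
  obtain ⟨δ1, hδ1, hE1⟩ := einstein_inv 1 (θ := 1 / 2) (by norm_num)
  obtain ⟨δ2, hδ2, hE2⟩ := einstein_inv 7 (θ := 1 / 2) (by norm_num)
  set δ := min δ1 δ2 with hδd
  have hδ : 0 < δ := lt_min hδ1 hδ2
  have hδl1 : δ ≤ δ1 := min_le_left _ _
  have hδl2 : δ ≤ δ2 := min_le_right _ _
  refine ⟨δ ^ 2 / 9, by positivity, ?_⟩
  intro N hN h s hs hss hsh hdim
  have hN3 : (3 : ℝ) ≤ N := by exact_mod_cast hN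
  have hcN : Fintype.card (Fin N) = N := Fintype.card_fin N
  have hcN' : (Fintype.card (Fin N) : ℝ) = N := by rw [hcN]
  by_cases hNδ : 1 / δ ≤ N
  · have h1 : √((Module.finrank ℝ h : ℝ) / 2) ≤ √((δ * N / 4) ^ 2) := by
      apply Real.sqrt_le_sqrt
      nlinarith [sq_nonneg (δ * N)]
    rw [Real.sqrt_sq (by positivity)] at h1
    rcases hss with hss | hss
    · refine FinSU_case1 hE1 (by rw [hcN]; exact hN) ?_ h s hs hss hsh ?_
      · rw [hcN']
        exact (one_div_le_one_div_of_le hδ hδl1).trans hNδ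
      · rw [hcN']
        nlinarith
    · refine FinSU_case2 hE2 (by rw [hcN]; exact hN) ?_ h s hs hss hsh ?_
      · rw [hcN']
        exact (one_div_le_one_div_of_le hδ hδl2).trans hNδ
      · rw [hcN']
        nlinarith
  · push Not at hNδ
    rw [lt_div_iff₀ hδ] at hNδ
    have h1 : (Module.finrank ℝ h : ℝ) < 1 := by
      have h2 : 0 < δ * N := by positivity
      have h3 : (N : ℝ) * δ * (N * δ) < 1 := by nlinarith
      nlinarith
    have h2 : Module.finrank ℝ h = 0 := by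
      have : Module.finrank ℝ h < 1 := by exact_mod_cast h1
      omega
    have h3 : h.toSubmodule = ⊥ := Submodule.finrank_eq_zero.1 h2
    have : Nonempty (Fin N) := ⟨⟨0, by omega⟩⟩
    rw [h3]
    refine einstein_bot (cl_compact ?_) ?_
    · have h0 : Coef.sg ℂ = 0 := rfl
      have h4 : Coef.m ℂ = 2 := rfl
      rw [h0, h4, hcN']
      push_cast
      linarith
    · rintro γ ⟨g, hg1, hg2, hγ, _, _⟩
      exact ⟨clConj g hg1 hg2, fun x => Subtype.ext (hγ x)⟩

end Pool.Agent.EinV
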