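import Pool.Agent.EinV.StII

/-!
# `Sp(N)`, subgroups of `U(N)`

`R` from `exists_rp` (`m = 3`, `J = rmul 0 = 0`).  `s' = lmul s * (rmul i)ᵀ` is symmetric and `s' * s' = 1` (`lmul s` is skew, `rmul i` is skew, they commute); an element of
`L` commutes with `s'` if it commutes with `s`.  `J0 = rmul i`, `c = κ s`, `ph c = κ lmul s = κ s' J0`, `g1 = κ`, `g2 = -κ`.  `f 0 = rmul i` commutes with `s'`, `f 1 = rmul j` and
`f 2 = rmul k` anticommute with `s'`.  `trace s' = 0` (conjugate by `f 1`).  `tf`: `trace (ph x * f k) = 0` by an anticommuting `f l`;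
`trace (s' * ph x * f 0) = trace (lmul s * ph x) = 0` for `Qf x c = 0` (`Qf_cl`); `trace (s' * ph x * f k) = 0` for `k = 1, 2` by conjugation with `f k`.
`einstein_inv` with `θ = 1/2`, `small_dimR`; if `N` is small, then `h = 0`: `einstein_bot` (see `einstein_split` in `EinU/Fin.lean`).
-/

namespace Pool.Agent.EinV

open Matrix Pool.Agent.EStab Pool.Agent.EinS Pool.Agent.SmIso Pool.Agent.EinU Pool.Agent.EinG
  Quaternion

attribute [local instance 100] LieRing.ofAssociativeRing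

/-! ### The units -/

private def FinSp_i : ℍ[ℝ] := ⟨0, 1, 0, 0⟩

private def FinSp_j : ℍ[ℝ] := ⟨0, 0, 1, 0⟩

private def FinSp_k : ℍ[ℝ] := ⟨0, 0, 0, 1⟩

private theorem FinSp_bs (k : Fin (CoefU.mu ℍ[ℝ])) : (CoefU.bs k : ℍ[ℝ]) = FinSp_i ∨
    (CoefU.bs k : ℍ[ℝ]) = FinSp_j ∨ (CoefU.bs k : ℍ[ℝ]) = FinSp_k := by
  have h : ∀ k : Fin 3, ((![⟨0, 1, 0, 0⟩, ⟨0, 0, 1, 0⟩, ⟨0, 0, 0, 1⟩] : Fin 3 → ℍ[ℝ]) k) =
      FinSp_i ∨ ((![⟨0, 1, 0, 0⟩, ⟨0, 0, 1, 0⟩, ⟨0, 0, 0, 1⟩] : Fin 3 → ℍ[ℝ]) k) = FinSp_j ∨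
      ((![⟨0, 1, 0, 0⟩, ⟨0, 0, 1, 0⟩, ⟨0, 0, 0, 1⟩] : Fin 3 → ℍ[ℝ]) k) = FinSp_k := by
    intro k
    fin_cases k
    · exact Or.inl rfl
    · exact Or.inr (Or.inl rfl)
    · exact Or.inr (Or.inr rfl)
  exact h k

private theorem FinSp_ic : FinSp_i.re = 0 ∧ FinSp_i.imI = 1 ∧ FinSp_i.imJ = 0 ∧
    FinSp_i.imK = 0 := ⟨rfl, rfl, rfl, rfl⟩

private theorem FinSp_jc : FinSp_j.re = 0 ∧ FinSp_j.imI = 0 ∧ FinSp_j.imJ = 1 ∧
    FinSp_j.imK = 0 := ⟨rfl, rfl, rfl, rfl⟩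

private theorem FinSp_kc : FinSp_k.re = 0 ∧ FinSp_k.imI = 0 ∧ FinSp_k.imJ = 0 ∧
    FinSp_k.imK = 1 := ⟨rfl, rfl, rfl, rfl⟩

private theorem FinSp_ii : FinSp_i * FinSp_i = -1 := by
  obtain ⟨h0, h1, h2, h3⟩ := FinSp_ic
  apply Quaternion.ext <;> simp [h0, h1, h2, h3]

private theorem FinSp_iT : star FinSp_i = -FinSp_i := by
  obtain ⟨h0, h1, h2, h3⟩ := FinSp_ic
  apply Quaternion.ext <;> simp [h0, h1, h2, h3]

private theorem FinSp_jT : star FinSp_j = -FinSp_j := by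
  obtain ⟨h0, h1, h2, h3⟩ := FinSp_jc
  apply Quaternion.ext <;> simp [h0, h1, h2, h3]

private theorem FinSp_kT : star FinSp_k = -FinSp_k := by
  obtain ⟨h0, h1, h2, h3⟩ := FinSp_kc
  apply Quaternion.ext <;> simp [h0, h1, h2, h3]

private theorem FinSp_jj : FinSp_j * FinSp_j = -1 := by
  obtain ⟨h0, h1, h2, h3⟩ := FinSp_jc
  apply Quaternion.ext <;> simp [h0, h1, h2, h3]

private theorem FinSp_kk : FinSp_k * FinSp_k = -1 := by
  obtain ⟨h0, h1, h2, h3⟩ := FinSp_kc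
  apply Quaternion.ext <;> simp [h0, h1, h2, h3]

private theorem FinSp_ij : FinSp_i * FinSp_j = -(FinSp_j * FinSp_i) := by
  obtain ⟨h0, h1, h2, h3⟩ := FinSp_ic
  obtain ⟨g0, g1, g2, g3⟩ := FinSp_jc
  apply Quaternion.ext <;> simp [h0, h1, h2, h3, g0, g1, g2, g3]

private theorem FinSp_ik : FinSp_i * FinSp_k = -(FinSp_k * FinSp_i) := by
  obtain ⟨h0, h1, h2, h3⟩ := FinSp_ic
  obtain ⟨g0, g1, g2, g3⟩ := FinSp_kc
  apply Quaternion.ext <;> simp [h0, h1, h2, h3, g0, g1, g2, g3]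

private theorem FinSp_ji : FinSp_j * FinSp_i = -(FinSp_i * FinSp_j) := by
  rw [FinSp_ij, neg_neg]

section

variable {ι : Type} [Fintype ι] [DecidableEq ι]

private theorem FinSp_anti {u v : ℍ[ℝ]} (h : u * v = -(v * u)) :
    rmul ι u * rmul ι v = -(rmul ι v * rmul ι u) := by
  rw [rmul_mul, rmul_mul, ← rmul_neg, h, neg_neg]

private theorem FinSp_orth {u : ℍ[ℝ]} (h : star u = -u) (h2 : u * u = -1) :
    rmul ι u * (rmul ι u)ᵀ = 1 := by
  rw [rmul_T, rmul_mul, h, neg_mul, h2, neg_neg, rmul_one]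

private theorem FinSp_sq {u : ℍ[ℝ]} (h2 : u * u = -1) : rmul ι u * rmul ι u = -1 := by
  rw [rmul_mul, h2, rmul_neg, rmul_one]

private theorem FinSp_tr {I : Type} [Fintype I] [DecidableEq I] {F X : Matrix I I ℝ}
    (hF : F * Fᵀ = 1) (h : F * X = -(X * F)) : trace X = 0 := by
  have hF' : Fᵀ * F = 1 := mul_eq_one_comm.1 hF
  have h1 : trace (F * X * Fᵀ) = trace X := by
    rw [Matrix.trace_mul_comm, ← Matrix.mul_assoc, hF', Matrix.one_mul]
  have h2 : trace (F * X * Fᵀ) = -trace X := by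
    rw [h, Matrix.neg_mul, Matrix.mul_assoc, hF, Matrix.mul_one, Matrix.trace_neg]
  linarith

/-- The symmetric involution. -/
private noncomputable def FinSp_s (s : Matrix ι ι ℍ[ℝ]) :
    Matrix (ι × Fin (Coef.m ℍ[ℝ])) (ι × Fin (Coef.m ℍ[ℝ])) ℝ := -(lmul s * rmul ι FinSp_i)

variable {s : Matrix ι ι ℍ[ℝ]}

private theorem FinSp_skew (h1 : s * sᴴ = 1) (h2 : s * s = -1) : sᴴ = -s := by
  have h3 : s * s * sᴴ = s := by rw [Matrix.mul_assoc, h1, Matrix.mul_one]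
  rw [h2, Matrix.neg_mul, Matrix.one_mul] at h3
  rw [← h3, neg_neg, h3]

private theorem FinSp_lT (h1 : s * sᴴ = 1) (h2 : s * s = -1) : (lmul s)ᵀ = -lmul s := by
  rw [← lmul_conjT, FinSp_skew h1 h2, map_neg]

private theorem FinSp_ll (h2 : s * s = -1) : lmul s * lmul s = -1 := by
  rw [← lmul_mul, h2, map_neg, lmul_one]

private theorem FinSp_iT' : (rmul ι FinSp_i)ᵀ = -rmul ι FinSp_i := by
  rw [rmul_T, FinSp_iT, rmul_neg]

private theorem FinSp_sT (h1 : s * sᴴ = 1) (h2 : s * s = -1) : (FinSp_s s)ᵀ = FinSp_s s := by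
  unfold FinSp_s
  rw [Matrix.transpose_neg, Matrix.transpose_mul, FinSp_iT', FinSp_lT h1 h2, Matrix.neg_mul,
    Matrix.mul_neg, neg_neg, lmul_rmul]

private theorem FinSp_sJ (s : Matrix ι ι ℍ[ℝ]) :
    FinSp_s s * rmul ι FinSp_i = lmul s := by
  unfold FinSp_s
  rw [Matrix.neg_mul, Matrix.mul_assoc, FinSp_sq FinSp_ii, Matrix.mul_neg, neg_neg, Matrix.mul_one]

private theorem FinSp_Js (s : Matrix ι ι ℍ[ℝ]) :
    rmul ι FinSp_i * FinSp_s s = lmul s := by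
  unfold FinSp_s
  rw [Matrix.mul_neg, ← Matrix.mul_assoc, ← lmul_rmul, Matrix.mul_assoc, FinSp_sq FinSp_ii,
    Matrix.mul_neg, neg_neg, Matrix.mul_one]

private theorem FinSp_ss (h2 : s * s = -1) : FinSp_s s * FinSp_s s = 1 := by
  have h3 : FinSp_s s * FinSp_s s = -(FinSp_s s * lmul s * rmul ι FinSp_i) := by
    conv_lhs => rw [FinSp_s, Matrix.mul_neg, ← FinSp_s, ← Matrix.mul_assoc]
  rw [h3]
  have h4 : FinSp_s s * lmul s = -(lmul s * rmul ι FinSp_i * lmul s) := by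
    unfold FinSp_s
    rw [Matrix.neg_mul]
  rw [h4, Matrix.mul_assoc (lmul s), ← lmul_rmul, ← Matrix.mul_assoc, FinSp_ll h2, Matrix.neg_mul,
    neg_neg, neg_one_mul, Matrix.neg_mul, FinSp_sq FinSp_ii, neg_neg]

/-- The matrices which commute with `lmul s` and `rmul i` commute with `s'`. -/
private theorem FinSp_comm {X : Matrix (ι × Fin (Coef.m ℍ[ℝ])) (ι × Fin (Coef.m ℍ[ℝ])) ℝ}
    (h1 : lmul s * X = X * lmul s) (h2 : rmul ι FinSp_i * X = X * rmul ι FinSp_i) :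
    FinSp_s s * X = X * FinSp_s s := by
  unfold FinSp_s
  rw [Matrix.neg_mul, Matrix.mul_neg, Matrix.mul_assoc, h2, ← Matrix.mul_assoc, h1,
    Matrix.mul_assoc]

/-- The matrices which commute with `lmul s` and anticommute with `rmul i` anticommute with `s'`. -/
private theorem FinSp_acomm {u : ℍ[ℝ]} (h2 : FinSp_i * u = -(u * FinSp_i)) :
    FinSp_s s * rmul ι u = -(rmul ι u * FinSp_s s) := by
  have h3 := FinSp_anti (ι := ι) h2
  unfold FinSp_s
  rw [Matrix.neg_mul, Matrix.mul_neg, Matrix.mul_assoc, h3, Matrix.mul_neg, ← Matrix.mul_assoc,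
    lmul_rmul, Matrix.mul_assoc]

omit [DecidableEq ι] in
private theorem FinSp_cen (h1 : sᴴ = -s) : Cen.cen (trace s) = 0 := by
  have h3 : star (trace s) = -trace s := by
    rw [← Matrix.trace_conjTranspose, h1, Matrix.trace_neg]
  have h4 := congrArg (fun q : ℍ[ℝ] => q.re) h3
  have h5 : (trace s).re = 0 := by
    simp only [Quaternion.re_star, Quaternion.re_neg] at h4
    linarith
  rw [cen_quat]
  apply Quaternion.ext
  · exact h5
  · rfl
  · rfl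
  · rfl

/-- The data of `einstein_inv`. -/
private theorem FinSp_inv (hι : Nonempty ι) (h1 : s * sᴴ = 1) (h2 : s * s = -1)
    (R : Rp (cl ℍ[ℝ] ι) (ι × Fin (Coef.m ℍ[ℝ])) (CoefU.mu ℍ[ℝ]))
    (hph : ∀ x, R.ph x = lmul x.1) (hf : ∀ k, R.f k = rmul ι (CoefU.bs k))
    (hJ : R.J = rmul ι (CoefU.iu : ℍ[ℝ])) :
    ∃ (c : cl ℍ[ℝ] ι) (g1 g2 : ℝ), InvD R (FinSp_s s) c (rmul ι FinSp_i) g1 g2 := by
  have hJ0 : R.J = 0 := by
    have h3 : (CoefU.iu : ℍ[ℝ]) = 0 := rfl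
    rw [hJ, h3]
    ext a b
    unfold rmul
    rw [Matrix.of_apply]
    split_ifs
    · rw [mul_zero, zero_mul, rl, map_zero, Matrix.zero_apply]
    · rfl
  obtain ⟨c0, hc0⟩ : ∃ c0 : cl ℍ[ℝ] ι, c0.1 = s :=
    ⟨⟨s, FinSp_skew h1 h2, FinSp_cen (FinSp_skew h1 h2)⟩, rfl⟩
  have hpos : 0 < Qf (cl ℍ[ℝ] ι) c0 c0 := by
    rw [R.qf]
    have h3 : 0 ≤ ∑ a, ∑ b, R.ph c0 a b * R.ph c0 a b :=
      Finset.sum_nonneg fun a _ => Finset.sum_nonneg fun b _ => mul_self_nonneg _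
    have h4 : ∑ a, ∑ b, R.ph c0 a b * R.ph c0 a b ≠ 0 := by
      intro h5
      have h6 : R.ph c0 = 0 := by
        ext a b
        have h7 := (Finset.sum_eq_zero_iff_of_nonneg (fun a _ =>
          Finset.sum_nonneg fun b _ => mul_self_nonneg _)).1 h5 a (Finset.mem_univ _)
        have h8 := (Finset.sum_eq_zero_iff_of_nonneg (fun b _ => mul_self_nonneg _)).1 h7 b
          (Finset.mem_univ _)
        exact mul_self_eq_zero.1 h8
      have h7 : c0 = 0 := R.inj _ h6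
      have h8 : s = 0 := by
        rw [← hc0, h7]
        rfl
      rw [h8, Matrix.zero_mul] at h1
      obtain ⟨i⟩ := hι
      have h9 := congrFun (congrFun h1 i) i
      rw [Matrix.zero_apply, Matrix.one_apply_eq] at h9
      exact zero_ne_one h9
    have h5 := R.n1
    exact mul_pos (by linarith) (lt_of_le_of_ne h3 (Ne.symm h4))
  obtain ⟨κ, hκ⟩ : ∃ κ : ℝ, κ = 1 / √(Qf (cl ℍ[ℝ] ι) c0 c0) := ⟨_, rfl⟩
  have hκ0 : 0 < κ := by rw [hκ]; positivity
  have hκ2 : κ * κ * Qf (cl ℍ[ℝ] ι) c0 c0 = 1 := by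
    have h3 := Real.mul_self_sqrt hpos.le
    have h4 : 0 < √(Qf (cl ℍ[ℝ] ι) c0 c0) := by positivity
    rw [hκ]
    field_simp
    rw [sq, h3]
  have hpc : R.ph (κ • c0) = κ • lmul s := by
    rw [map_smul, hph, hc0]
  have hk : ∀ k, R.f k = rmul ι FinSp_i ∨ R.f k = rmul ι FinSp_j ∨ R.f k = rmul ι FinSp_k := by
    intro k
    rw [hf]
    rcases FinSp_bs k with h | h | h
    · exact Or.inl (by rw [h])
    · exact Or.inr (Or.inl (by rw [h]))
    · exact Or.inr (Or.inr (by rw [h]))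
  have hcom : ∀ (u : ℍ[ℝ]) x, rmul ι u * R.ph x = R.ph x * rmul ι u := by
    intro u x
    rw [hph, lmul_rmul]
  refine ⟨κ • c0, κ, -κ, ?_⟩
  constructor
  · exact FinSp_sT h1 h2
  · exact FinSp_ss h2
  · intro k
    rcases hk k with h | h | h
    · left
      rw [h]
      exact ⟨by rw [FinSp_sJ, FinSp_Js], FinSp_iT'⟩
    · right
      rw [h]
      exact FinSp_acomm FinSp_ij
    · right
      rw [h]
      exact FinSp_acomm FinSp_ik
  · left
    rw [hJ0, Matrix.mul_zero, Matrix.zero_mul]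
  · exact FinSp_iT'
  · right
    exact mul_eq_one_comm.1 (FinSp_orth FinSp_iT FinSp_ii)
  · exact hcom _
  · rw [FinSp_sJ, FinSp_Js]
  · left
    rw [map_smul, map_smul, LinearMap.smul_apply, smul_eq_mul, smul_eq_mul, ← mul_assoc, hκ2]
  · rw [hpc, Matrix.add_mul, Matrix.sub_mul, FinSp_sJ, Matrix.one_mul]
    module
  · intro x _
    rw [hJ0, Matrix.mul_zero, Matrix.mul_zero, Matrix.trace_zero]
    exact ⟨rfl, rfl⟩
  · intro x hx k
    have hij : rmul ι FinSp_i * rmul ι FinSp_j = -(rmul ι FinSp_j * rmul ι FinSp_i) :=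
      FinSp_anti FinSp_ij
    have hik : rmul ι FinSp_i * rmul ι FinSp_k = -(rmul ι FinSp_k * rmul ι FinSp_i) :=
      FinSp_anti FinSp_ik
    have hji : rmul ι FinSp_j * rmul ι FinSp_i = -(rmul ι FinSp_i * rmul ι FinSp_j) :=
      FinSp_anti FinSp_ji
    have key1 : ∀ u v : ℍ[ℝ], rmul ι u * (rmul ι u)ᵀ = 1 →
        rmul ι u * rmul ι v = -(rmul ι v * rmul ι u) → trace (R.ph x * rmul ι v) = 0 := by
      intro u v hu huv
      refine FinSp_tr hu ?_
      rw [← Matrix.mul_assoc, hcom, Matrix.mul_assoc, huv, Matrix.mul_neg, Matrix.mul_assoc]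
    have key2 : ∀ u : ℍ[ℝ], rmul ι u * (rmul ι u)ᵀ = 1 →
        FinSp_s s * rmul ι u = -(rmul ι u * FinSp_s s) →
        trace (FinSp_s s * R.ph x * rmul ι u) = 0 := by
      intro u hu hsu
      have hsu' : rmul ι u * FinSp_s s = -(FinSp_s s * rmul ι u) := by rw [hsu, neg_neg]
      refine FinSp_tr hu ?_
      rw [← Matrix.mul_assoc, ← Matrix.mul_assoc, hsu', Matrix.neg_mul, Matrix.neg_mul,
        Matrix.mul_assoc (FinSp_s s), hcom, ← Matrix.mul_assoc]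
    rcases hk k with h | h | h
    · rw [h]
      refine ⟨key1 FinSp_j FinSp_i (FinSp_orth FinSp_jT FinSp_jj) hji, ?_⟩
      have h3 : FinSp_s s * R.ph x * rmul ι FinSp_i = lmul s * R.ph x := by
        rw [Matrix.mul_assoc, ← hcom, ← Matrix.mul_assoc, FinSp_sJ]
      rw [h3]
      have h4 := R.qf x (κ • c0)
      rw [hx, hpc] at h4
      have h5 : ∑ a, ∑ b, R.ph x a b * (κ • lmul s) a b = κ * ∑ a, ∑ b, R.ph x a b * lmul s a b := by
        rw [Finset.mul_sum]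
        refine Finset.sum_congr rfl fun a _ => ?_
        rw [Finset.mul_sum]
        refine Finset.sum_congr rfl fun b _ => ?_
        rw [Matrix.smul_apply, smul_eq_mul]
        ring
      rw [h5] at h4
      have h6 : ∑ a, ∑ b, R.ph x a b * lmul s a b = 0 := by
        have h7 := R.n1
        rcases mul_eq_zero.1 h4.symm with h8 | h8
        · linarith
        · rcases mul_eq_zero.1 h8 with h9 | h9
          · linarith
          · exact h9
      have h7 : trace (lmul s * R.ph x) = -∑ a, ∑ b, R.ph x a b * lmul s a b := by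
        unfold Matrix.trace
        rw [← Finset.sum_neg_distrib]
        refine Finset.sum_congr rfl fun a _ => ?_
        rw [Matrix.diag_apply, Matrix.mul_apply, ← Finset.sum_neg_distrib]
        refine Finset.sum_congr rfl fun b _ => ?_
        have h8 := congrFun (congrFun (R.skew x) a) b
        rw [Matrix.transpose_apply, Matrix.neg_apply] at h8
        rw [h8]
        ring
      rw [h7, h6, neg_zero]
    · rw [h]
      exact ⟨key1 FinSp_i FinSp_j (FinSp_orth FinSp_iT FinSp_ii) hij,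
        key2 FinSp_j (FinSp_orth FinSp_jT FinSp_jj) (FinSp_acomm FinSp_ij)⟩
    · rw [h]
      exact ⟨key1 FinSp_i FinSp_k (FinSp_orth FinSp_iT FinSp_ii) hik,
        key2 FinSp_k (FinSp_orth FinSp_kT FinSp_kk) (FinSp_acomm FinSp_ik)⟩

private theorem FinSp_card3 {N : ℕ} (hN : 3 ≤ N) :
    3 ≤ Fintype.card (Fin N × Fin (Coef.m ℍ[ℝ])) := by
  rw [Fintype.card_prod, Fintype.card_fin, Fintype.card_fin]
  have := Coef.m_pos (A := ℍ[ℝ])
  nlinarith

private theorem FinSp_n {N : ℕ} (hN : 3 ≤ N) {n : ℝ}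
    (hn : n = (Fintype.card (Fin N) : ℝ) - 2 * Coef.sg ℍ[ℝ] / (CoefU.mu ℍ[ℝ] + 1)) :
    (N : ℝ) / 3 ≤ n := by
  have hN3 : (3 : ℝ) ≤ N := by exact_mod_cast hN
  have h1 := Coef.sg_le (A := ℍ[ℝ])
  have h2 : (0 : ℝ) ≤ CoefU.mu ℍ[ℝ] := Nat.cast_nonneg _
  have h3 : 2 * Coef.sg ℍ[ℝ] / (CoefU.mu ℍ[ℝ] + 1) ≤ 2 := by
    rw [div_le_iff₀ (by linarith)]
    nlinarith
  rw [hn, Fintype.card_fin]
  linarith

private theorem FinSp_comp {N : ℕ} (hN : 3 ≤ N) : CompactSemisimple (cl ℍ[ℝ] (Fin N)) := by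
  have : Nonempty (Fin N) := ⟨⟨0, by omega⟩⟩
  refine cl_compact ?_
  have h1 := Coef.sg_le (A := ℍ[ℝ])
  have h2 : (1 : ℝ) ≤ Coef.m ℍ[ℝ] := by exact_mod_cast Coef.m_pos (A := ℍ[ℝ])
  have h3 : (3 : ℝ) ≤ Fintype.card (Fin N) := by
    rw [Fintype.card_fin]
    exact_mod_cast hN
  nlinarith

end

/-- `Sp(N)`, subgroups of `U(N)`. -/
theorem sp_u : ∃ ε : ℝ, 0 < ε ∧ ∀ N : ℕ, 3 ≤ N →
    ∀ (h : LieSubalgebra ℝ (cl ℍ[ℝ] (Fin N))) (s : Matrix (Fin N) (Fin N) ℍ[ℝ]),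
      s * sᴴ = 1 → s * s = -1 → (∀ x ∈ h, s * x.1 = x.1 * s) →
      (Module.finrank ℝ h : ℝ) ≤ ε * N ^ 2 →
      HasEinsteinMetric (cl ℍ[ℝ] (Fin N)) h.toSubmodule (csAuts h s) := by
  obtain ⟨δ, hδ, hE⟩ := einstein_inv (CoefU.mu ℍ[ℝ]) (θ := 1 / 2) (by norm_num)
  refine ⟨δ ^ 2 / 9, by positivity, ?_⟩
  intro N hN h s h1 h2 hh hdim
  have hN3 : (3 : ℝ) ≤ N := by exact_mod_cast hN
  have hNc : 3 ≤ Fintype.card (Fin N) := by rwa [Fintype.card_fin]
  by_cases hNδ : 1 / δ ≤ N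
  · obtain ⟨R, hph, hf, hJ, hn⟩ := exists_rp (A := ℍ[ℝ]) hNc
    have hn3 := FinSp_n hN hn
    have hne : Nonempty (Fin N) := ⟨⟨0, by omega⟩⟩
    obtain ⟨c, g1, g2, hinv⟩ := FinSp_inv hne h1 h2 R hph hf hJ
    have hm : (1 : ℝ) ≤ Coef.m ℍ[ℝ] := by exact_mod_cast Coef.m_pos (A := ℍ[ℝ])
    have hle : (N : ℝ) ≤ Fintype.card (Fin N × Fin (Coef.m ℍ[ℝ])) := by
      rw [Fintype.card_prod, Fintype.card_fin, Fintype.card_fin]
      push_cast
      nlinarith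
    have htr : trace (FinSp_s s) = 0 := by
      refine FinSp_tr (FinSp_orth (ι := Fin N) FinSp_jT FinSp_jj) ?_
      rw [FinSp_acomm FinSp_ij, neg_neg]
    have hsl : ∀ X : Matrix (Fin N) (Fin N) ℍ[ℝ], s * X = X * s →
        FinSp_s s * lmul X = lmul X * FinSp_s s := by
      intro X hX
      refine FinSp_comm ?_ ?_
      · rw [← lmul_mul, ← lmul_mul, hX]
      · rw [lmul_rmul]
    have hsmall : SmallR R h δ := by
      refine (small_dimR R (FinSp_card3 hN) h).mono ?_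
      have hn0 : (0 : ℝ) < R.n := by linarith
      rw [div_le_iff₀ hn0]
      have h1 : Real.sqrt ((Module.finrank ℝ h : ℝ) / 2) ≤ Real.sqrt ((δ * N / 3) ^ 2) := by
        apply Real.sqrt_le_sqrt
        nlinarith [sq_nonneg (δ * N)]
      rw [Real.sqrt_sq (by positivity)] at h1
      nlinarith [h1]
    have hmain := hE (cl ℍ[ℝ] (Fin N)) (Fin N × Fin (Coef.m ℍ[ℝ])) R (FinSp_s s) c
      (rmul (Fin N) FinSp_i) g1 g2 hinv (hNδ.trans hle) (by rw [htr, abs_zero]; norm_num)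
      (Or.inr htr) h (by
        intro y hy
        rw [hph]
        exact hsl _ (hh y hy)) hsmall
    refine einstein_mono hmain ?_
    rintro γ ⟨g, hg, hg', hγ, hgh, hgs⟩
    have hγ' : ∀ x, γ x = clConj g hg hg' x := fun x => Subtype.ext (hγ x)
    refine ⟨clConj g hg hg', hγ', ?_, lmul g, ?_, ?_, ?_, ?_⟩
    · ext x
      have h1 : x ∈ h.toSubmodule.map γ ↔ x ∈ h.toSubmodule := by rw [hgh]
      rw [LieSubalgebra.mem_map]
      rw [Submodule.mem_map] at h1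
      constructor
      · rintro ⟨y, hy, hyx⟩
        exact h1.1 ⟨y, hy, (hγ' y).trans hyx⟩
      · intro hx
        obtain ⟨y, hy, hyx⟩ := h1.2 hx
        exact ⟨y, hy, (hγ' y).symm.trans hyx⟩
    · rw [← lmul_conjT, ← lmul_mul, hg, lmul_one]
    · exact hsl g hgs.symm
    · exact (lmul_rmul g _).symm
    · intro x
      rw [hph, hph, clConj_apply, lmul_mul, lmul_mul, lmul_conjT]
  · push Not at hNδ
    rw [lt_div_iff₀ hδ] at hNδ
    have h1 : (Module.finrank ℝ h : ℝ) < 1 := by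
      have h2 : 0 < δ * N := by positivity
      have h3 : (N : ℝ) * δ * (N * δ) < 1 := by nlinarith
      nlinarith
    have h2 : Module.finrank ℝ h = 0 := by
      have : Module.finrank ℝ h < 1 := by exact_mod_cast h1
      omega
    have h3 : h.toSubmodule = ⊥ := Submodule.finrank_eq_zero.1 h2
    rw [h3]
    refine einstein_bot (FinSp_comp hN) ?_
    rintro γ ⟨g, hg, hg', hγ, -, -⟩
    exact ⟨clConj g hg hg', fun x => Subtype.ext (hγ x)⟩

end Pool.Agent.EinV
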