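import Pool.Agent.EinV.St
import Pool.Agent.EinV.ExpN
import Pool.Agent.EinV.FinIrr
import Pool.Agent.EinV.FinSO
import Pool.Agent.EinV.FinSp
import Pool.Agent.EinV.FinSU

/-!
# Small subgroups of the classical groups: assembly

`Gr A ι` is `cl A ι` by definition, `x.mat = x.1`.

`noLarge_cl`: we may assume `θ ≤ 1 / 2`; put `θ' = θ / 2`, `D = finrank (Fin N → A)`.
* If there is a preserved `W` with `θ' D ≤ dim W ≤ (1 - θ') D`, use `split_cl` (`einstein_mono`: `Γ` is contained in `spAuts h W`).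
* Otherwise let `W` be preserved with `dim W > (1 - θ') D` and of minimal dimension (`⊤` is preserved).  If `W' ≤ W` is preserved, `W' ≠ ⊥`, `W' ≠ W`, then also
  `W'' = W ⊓ W'ᗮ` (`W'ᗮ = {v | ∀ w ∈ W', star w ⬝ᵥ v = 0}`; it is preserved, since `h` is skew and `g` is unitary and preserves `W'`, `g W' = W'`), `dim W = dim W' + dim W''`;
  both dimensions are less than `dim W`, so not greater than `(1 - θ') D`, so less than `θ' D`: contradiction to `dim W > (1 - θ') D ≥ 2 θ' D`.  So `W` is irreducible and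
  `W = ⊤` by `NoLarge` (`(1 - θ) D < (1 - θ') D`); then `irr_cl`: a subspace which is preserved by all unitary `g` which normalise `h` is preserved by `h` (`inv_of_norm`) and by `Γ`.
-/

namespace Pool.Agent.EinV

open Matrix Pool.Agent.EStab Pool.Agent.EinS Pool.Agent.SmIso Pool.Agent.EinU Pool.Agent.EinG
  Quaternion

attribute [local instance 100] LieRing.ofAssociativeRing

section

variable {A : Type} [Ring A] [StarRing A] [Algebra ℝ A] [Cen A] [Coef A] {N : ℕ}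

/-- The automorphisms given by the matrices in `Γ` preserve `h`. -/
private theorem Asm_map {h : LieSubalgebra ℝ (Gr A (Fin N))} {g : Matrix (Fin N) (Fin N) A}
    (hg : g * gᴴ = 1 ∧ gᴴ * g = 1 ∧ ∀ x ∈ h, ∃ y ∈ h, y.mat = g * x.mat * gᴴ)
    {γ : cl A (Fin N) →ₗ[ℝ] cl A (Fin N)} (hγ : ∀ x, (γ x).1 = g * x.1 * gᴴ) :
    (h : LieSubalgebra ℝ (cl A (Fin N))).toSubmodule.map γ =
      (h : LieSubalgebra ℝ (cl A (Fin N))).toSubmodule := by
  haveI : Module.Finite ℝ (cl A (Fin N)) := cl_finite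
  have hinj : Function.Injective γ := by
    intro x y hxy
    apply Subtype.ext
    have h1 : g * x.1 * gᴴ = g * y.1 * gᴴ := by rw [← hγ, ← hγ, hxy]
    have h2 := congrArg (fun z => gᴴ * z * g) h1
    calc x.1 = (gᴴ * g) * x.1 * (gᴴ * g) := by rw [hg.2.1, Matrix.one_mul, Matrix.mul_one]
      _ = gᴴ * (g * x.1 * gᴴ) * g := by simp only [Matrix.mul_assoc]
      _ = gᴴ * (g * y.1 * gᴴ) * g := h2
      _ = (gᴴ * g) * y.1 * (gᴴ * g) := by simp only [Matrix.mul_assoc]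
      _ = y.1 := by rw [hg.2.1, Matrix.one_mul, Matrix.mul_one]
  apply Submodule.eq_of_le_of_finrank_eq
  · rintro _ ⟨x, hx, rfl⟩
    obtain ⟨y, hy, hyx⟩ := hg.2.2 x hx
    have h1 : γ x = y := Subtype.ext (by rw [hγ]; exact hyx.symm)
    rw [h1]
    exact hy
  · exact (Submodule.equivMapOfInjective γ hinj _).finrank_eq.symm

end

section

variable {A : Type} [Ring A] [StarRing A] [Algebra ℝ A] [Cen A] [Coef A] {N : ℕ}

/-- The inner product of the coordinates. -/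
private noncomputable def Asm_B (A : Type) [Ring A] [StarRing A] [Algebra ℝ A] [Cen A] [Coef A]
    (N : ℕ) : LinearMap.BilinForm ℝ (Fin N → A) :=
  LinearMap.mk₂ ℝ (fun v w => co v ⬝ᵥ co w)
    (fun v v' w => by rw [map_add, add_dotProduct])
    (fun r v w => by rw [map_smul, smul_dotProduct])
    (fun v w w' => by rw [map_add, dotProduct_add])
    (fun r v w => by rw [map_smul, dotProduct_smul])

private theorem Asm_B_apply (v w : Fin N → A) : Asm_B A N v w = co v ⬝ᵥ co w := rfl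

private theorem Asm_B_refl : (Asm_B A N).IsRefl := by
  intro v w h
  rw [Asm_B_apply, dotProduct_comm]
  exact h

private theorem Asm_B_compl (W : Submodule ℝ (Fin N → A)) :
    IsCompl W ((Asm_B A N).orthogonal W) := by
  haveI : Module.Finite ℝ (Fin N → A) := Module.Finite.equiv (co (ι := Fin N) (A := A)).symm
  refine LinearMap.BilinForm.isCompl_orthogonal_of_restrict_nondegenerate Asm_B_refl ?_
  have h1 : ∀ v : W, (∀ w : W, (Asm_B A N) v.1 w.1 = 0) → v = 0 := by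
    intro v hv
    have h1 := hv v
    rw [Asm_B_apply] at h1
    have h2 := dotProduct_self_eq_zero.1 h1
    apply Subtype.ext
    exact (co (ι := Fin N) (A := A)).map_eq_zero_iff.1 h2
  refine ⟨fun v hv => h1 v hv, fun v hv => h1 v fun w => ?_⟩
  rw [Asm_B_apply, dotProduct_comm]
  exact hv w

private theorem Asm_finrank {W W' : Submodule ℝ (Fin N → A)} (hW : W' ≤ W) :
    Module.finrank ℝ W' + Module.finrank ℝ (W ⊓ (Asm_B A N).orthogonal W' :
      Submodule ℝ (Fin N → A)) = Module.finrank ℝ W := by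
  haveI : Module.Finite ℝ (Fin N → A) := Module.Finite.equiv (co (ι := Fin N) (A := A)).symm
  have h1 := Submodule.finrank_sup_add_finrank_inf_eq W' (W ⊓ (Asm_B A N).orthogonal W')
  have h2 : W' ⊓ (W ⊓ (Asm_B A N).orthogonal W') = ⊥ := by
    rw [← le_bot_iff]
    refine le_trans ?_ (Asm_B_compl W').disjoint.le_bot
    exact inf_le_inf_left _ inf_le_right
  have h3 : W' ⊔ (W ⊓ (Asm_B A N).orthogonal W') = W := by
    rw [inf_comm, ← sup_inf_assoc_of_le _ hW, (Asm_B_compl W').sup_eq_top, top_inf_eq]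
  rw [h2, h3, finrank_bot, add_zero] at h1
  exact h1.symm

end

section

variable {A : Type} [Ring A] [StarRing A] [Algebra ℝ A] [Cen A] [Coef A] [CoefU A] {N : ℕ}

private theorem Asm_perp {h : LieSubalgebra ℝ (Gr A (Fin N))}
    {Γ : Set (Matrix (Fin N) (Fin N) A)}
    (hΓ : ∀ g ∈ Γ, g * gᴴ = 1 ∧ gᴴ * g = 1 ∧ ∀ x ∈ h, ∃ y ∈ h, y.mat = g * x.mat * gᴴ)
    {W W' : Submodule ℝ (Fin N → A)} (hW : Preserved h Γ W) (hW' : Preserved h Γ W') :
    Preserved h Γ (W ⊓ (Asm_B A N).orthogonal W') := by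
  haveI : Module.Finite ℝ (Fin N → A) := Module.Finite.equiv (co (ι := Fin N) (A := A)).symm
  refine ⟨fun v hv u => ⟨hW.smul v hv.1 u, ?_⟩, fun x hx v hv => ⟨hW.lie x hx v hv.1, ?_⟩,
    fun g hg v hv => ⟨hW.grp g hg v hv.1, ?_⟩⟩
  · intro w hw
    have h1 := hv.2 (fun i => w i * star u) (hW'.smul w hw (star u))
    change co w ⬝ᵥ co (fun i => v i * u) = 0
    have h2 : co (fun i => w i * star u) ⬝ᵥ co v = 0 := h1
    rw [co_rmul, ← rmul_T, Matrix.mulVec_transpose, ← Matrix.dotProduct_mulVec] at h2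
    rw [co_rmul]
    exact h2
  · intro w hw
    have h2 : co (x.mat *ᵥ w) ⬝ᵥ co v = 0 := hv.2 _ (hW'.lie x hx w hw)
    change co w ⬝ᵥ co (x.mat *ᵥ v) = 0
    have h3 : (lmul x.mat)ᵀ = -lmul x.mat := by
      rw [← lmul_conjT]
      have h4 : (x.mat)ᴴ = -x.mat := x.2.1
      rw [h4, map_neg]
    rw [co_lmul, ← neg_eq_zero, ← neg_dotProduct, ← Matrix.neg_mulVec, ← h3,
      Matrix.mulVec_transpose, ← Matrix.dotProduct_mulVec] at h2
    rw [co_lmul]
    exact h2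
  · intro w hw
    change co w ⬝ᵥ co (g *ᵥ v) = 0
    obtain ⟨w', hw', hww⟩ : ∃ w' ∈ W', g *ᵥ w' = w := by
      let gl : (Fin N → A) →ₗ[ℝ] (Fin N → A) :=
        { toFun := fun v => g *ᵥ v
          map_add' := fun v w => Matrix.mulVec_add _ _ _
          map_smul' := fun r v => Matrix.mulVec_smul _ _ _ }
      have hinj : Function.Injective gl := by
        intro v v' hvv
        have h1 : g *ᵥ v = g *ᵥ v' := hvv
        have h2 := congrArg (fun z => gᴴ *ᵥ z) h1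
        simpa only [Matrix.mulVec_mulVec, (hΓ g hg).2.1, Matrix.one_mulVec] using h2
      have hle : W'.map gl ≤ W' := by
        rintro _ ⟨v, hv, rfl⟩
        exact hW'.grp g hg v hv
      have heq : W'.map gl = W' := by
        apply Submodule.eq_of_le_of_finrank_eq hle
        exact (Submodule.equivMapOfInjective _ hinj W').finrank_eq.symm
      have hw2 : w ∈ W'.map gl := by
        rw [heq]
        exact hw
      obtain ⟨w', hw', hww⟩ := hw2
      exact ⟨w', hw', hww⟩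
    have h2 : co w' ⬝ᵥ co v = 0 := hv.2 w' hw'
    have h3 : w' = gᴴ *ᵥ w := by
      rw [← hww, Matrix.mulVec_mulVec, (hΓ g hg).2.1, Matrix.one_mulVec]
    rw [h3, co_lmul, lmul_conjT, Matrix.mulVec_transpose, ← Matrix.dotProduct_mulVec] at h2
    rw [co_lmul]
    exact h2

end

theorem noLarge_cl (A : Type) [Ring A] [StarRing A] [Algebra ℝ A] [Cen A] [Coef A] [CoefU A]
    {θ : ℝ} (hθ : 0 < θ) : ∃ ε : ℝ, 0 < ε ∧ ∀ N : ℕ, 3 ≤ N →
    ∀ (h : LieSubalgebra ℝ (Gr A (Fin N))) (Γ : Set (Matrix (Fin N) (Fin N) A)),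
      (∀ g ∈ Γ, g * gᴴ = 1 ∧ gᴴ * g = 1 ∧ ∀ x ∈ h, ∃ y ∈ h, y.mat = g * x.mat * gᴴ) →
      (Module.finrank ℝ h : ℝ) ≤ ε * N ^ 2 → NoLarge θ h Γ →
      HasEinsteinMetric (Gr A (Fin N)) h.toSubmodule
        {γ | ∃ g ∈ Γ, ∀ x, (γ x).mat = g * x.mat * gᴴ} := by
  obtain ⟨ε1, h1, e1⟩ := split_cl A (θ := min θ (1 / 2) / 2) (by positivity)
  obtain ⟨ε2, h2, e2⟩ := irr_cl A
  refine ⟨min ε1 ε2, lt_min h1 h2, fun N hN h Γ hΓ hd hL => ?_⟩
  have hN2 : (0 : ℝ) ≤ (N : ℝ) ^ 2 := by positivity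
  have hd1 := hd.trans (mul_le_mul_of_nonneg_right (min_le_left ε1 ε2) hN2)
  have hd2 := hd.trans (mul_le_mul_of_nonneg_right (min_le_right ε1 ε2) hN2)
  haveI : Module.Finite ℝ (Fin N → A) := Module.Finite.equiv (co (ι := Fin N) (A := A)).symm
  have hD : 0 < Module.finrank ℝ (Fin N → A) := by
    rw [(co (ι := Fin N) (A := A)).finrank_eq, Module.finrank_fintype_fun_eq_card,
      Fintype.card_prod, Fintype.card_fin, Fintype.card_fin]
    have := Coef.m_pos (A := A)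
    positivity
  have hD' : (0 : ℝ) < Module.finrank ℝ (Fin N → A) := by exact_mod_cast hD
  have hθ1 : min θ (1 / 2) ≤ θ := min_le_left _ _
  have hθ2 : min θ (1 / 2) ≤ 1 / 2 := min_le_right _ _
  have hθ3 : 0 < min θ (1 / 2) := by positivity
  set θ' := min θ (1 / 2) / 2 with hθ'
  by_cases hex : ∃ W : Submodule ℝ (Fin N → A), Preserved h Γ W ∧
      θ' * Module.finrank ℝ (Fin N → A) ≤ Module.finrank ℝ W ∧
      (Module.finrank ℝ W : ℝ) ≤ (1 - θ') * Module.finrank ℝ (Fin N → A)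
  · obtain ⟨W, hW, hW1, hW2⟩ := hex
    refine einstein_mono (e1 N hN h W hW.smul hW.lie hW1 hW2 hd1) ?_
    rintro γ ⟨g, hg, hγ⟩
    exact ⟨g, (hΓ g hg).1, (hΓ g hg).2.1, hγ, Asm_map (hΓ g hg) hγ, hW.grp g hg⟩
  · have hno : ∀ W : Submodule ℝ (Fin N → A), Preserved h Γ W →
        (Module.finrank ℝ W : ℝ) < θ' * Module.finrank ℝ (Fin N → A) ∨
        (1 - θ') * Module.finrank ℝ (Fin N → A) < Module.finrank ℝ W := by
      intro W hW
      by_contra hcon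
      rw [not_or, not_lt, not_lt] at hcon
      exact hex ⟨W, hW, hcon.1, hcon.2⟩
    have htop : Preserved h Γ (⊤ : Submodule ℝ (Fin N → A)) :=
      ⟨fun _ _ _ => trivial, fun _ _ _ _ => trivial, fun _ _ _ _ => trivial⟩
    have hS : ∃ n : ℕ, ∃ W : Submodule ℝ (Fin N → A), Preserved h Γ W ∧
        Module.finrank ℝ W = n ∧ (1 - θ') * Module.finrank ℝ (Fin N → A) < (n : ℝ) := by
      refine ⟨_, ⊤, htop, rfl, ?_⟩
      rw [finrank_top]
      nlinarith
    classical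
    obtain ⟨W, hW, hWn, hWl⟩ := Nat.find_spec hS
    have hmin : ∀ W' : Submodule ℝ (Fin N → A), Preserved h Γ W' →
        Module.finrank ℝ W' < Module.finrank ℝ W →
        (Module.finrank ℝ W' : ℝ) < θ' * Module.finrank ℝ (Fin N → A) := by
      intro W' hW' hlt
      rcases hno W' hW' with h3 | h3
      · exact h3
      · exfalso
        rw [hWn] at hlt
        exact Nat.find_min hS hlt ⟨W', hW', rfl, h3⟩
    rw [← hWn] at hWl
    have hirr : IrrSub h Γ W := by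
      refine ⟨hW, ?_, ?_⟩
      · rintro rfl
        rw [finrank_bot] at hWl
        have : (0 : ℝ) < (1 - θ') * Module.finrank ℝ (Fin N → A) := by
          apply mul_pos _ hD'
          linarith
        simp only [Nat.cast_zero] at hWl
        linarith
      · intro W' hle hW'
        by_contra hcon
        rw [not_or] at hcon
        have h3 := Asm_finrank hle
        have h4 : Module.finrank ℝ W' ≠ 0 := fun h0 => hcon.1 (Submodule.finrank_eq_zero.1 h0)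
        have h5 : Module.finrank ℝ W' < Module.finrank ℝ W :=
          Submodule.finrank_lt_finrank_of_lt (lt_of_le_of_ne hle hcon.2)
        have h6 := hmin W' hW' h5
        have h7 := hmin _ (Asm_perp hΓ hW hW') (by omega)
        have h8 : (Module.finrank ℝ W : ℝ) = Module.finrank ℝ W' + Module.finrank ℝ
            (W ⊓ (Asm_B A N).orthogonal W' : Submodule ℝ (Fin N → A)) := by
          exact_mod_cast h3.symm
        nlinarith
    have hWtop : W = ⊤ := by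
      rcases hL W hirr with h3 | h3
      · exact h3
      · exfalso
        nlinarith
    have hall : ∀ W0 : Submodule ℝ (Fin N → A), Preserved h Γ W0 → W0 = ⊥ ∨ W0 = ⊤ := by
      intro W0 hW0
      have h3 := hirr.2.2 W0 (by rw [hWtop]; exact le_top) hW0
      rwa [hWtop] at h3
    refine einstein_mono (e2 N hN h ?_ hd2) ?_
    · intro W0 hs hg
      refine hall W0 ⟨hs, inv_of_norm hg, fun g hgΓ => ?_⟩
      exact hg g (hΓ g hgΓ).1 (hΓ g hgΓ).2.1 (hΓ g hgΓ).2.2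
    · rintro γ ⟨g, hg, hγ⟩
      exact ⟨g, (hΓ g hg).1, (hΓ g hg).2.1, hγ, Asm_map (hΓ g hg) hγ⟩

theorem structure_real : ∃ ε : ℝ, 0 < ε ∧ ∀ N : ℕ, 3 ≤ N →
    ∀ (h : LieSubalgebra ℝ (Gr ℝ (Fin N))) (Γ : Set (Matrix (Fin N) (Fin N) ℝ)),
      (∀ g ∈ Γ, g * gᴴ = 1 ∧ gᴴ * g = 1 ∧ ∀ x ∈ h, ∃ y ∈ h, y.mat = g * x.mat * gᴴ) →
      (Module.finrank ℝ h : ℝ) ≤ ε * N ^ 2 → HasStructure h Γ →
      HasEinsteinMetric (Gr ℝ (Fin N)) h.toSubmodule
        {γ | ∃ g ∈ Γ, ∀ x, (γ x).mat = g * x.mat * gᴴ} := by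
  obtain ⟨ε, hε, he⟩ := so_u
  refine ⟨ε, hε, fun N hN h Γ hΓ hd hs => ?_⟩
  obtain ⟨s, hs1, hs2, hs3, hs4⟩ := hs
  have hs2' : s * s = -1 := by
    rcases hs2 with h2 | ⟨_, u, hu⟩
    · exact h2
    · exact absurd rfl hu
  refine einstein_mono (he N hN h s hs1 hs2' hs3 hd) ?_
  rintro γ ⟨g, hg, hγ⟩
  exact ⟨g, (hΓ g hg).1, (hΓ g hg).2.1, hγ, Asm_map (hΓ g hg) hγ, (hs4 g hg).symm⟩

theorem structure_complex : ∃ ε : ℝ, 0 < ε ∧ ∀ N : ℕ, 3 ≤ N →
    ∀ (h : LieSubalgebra ℝ (Gr ℂ (Fin N))) (Γ : Set (Matrix (Fin N) (Fin N) ℂ)),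
      (∀ g ∈ Γ, g * gᴴ = 1 ∧ gᴴ * g = 1 ∧ ∀ x ∈ h, ∃ y ∈ h, y.mat = g * x.mat * gᴴ) →
      (Module.finrank ℝ h : ℝ) ≤ ε * N ^ 2 → HasStructure h Γ →
      HasEinsteinMetric (Gr ℂ (Fin N)) h.toSubmodule
        {γ | ∃ g ∈ Γ, ∀ x, (γ x).mat = g * x.mat * gᴴ} := by
  obtain ⟨ε, hε, he⟩ := su_so_sp
  refine ⟨ε, hε, fun N hN h Γ hΓ hd hs => ?_⟩
  obtain ⟨s, hs1, hs2, hs3, hs4⟩ := hs
  have hs2' : s * s.map star = 1 ∨ s * s.map star = -1 := by
    rcases hs2 with h2 | ⟨h2, _⟩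
    · exact Or.inr h2
    · exact Or.inl h2
  refine einstein_mono (he N hN h s hs1 hs2' hs3 hd) ?_
  rintro γ ⟨g, hg, hγ⟩
  exact ⟨g, (hΓ g hg).1, (hΓ g hg).2.1, hγ, Asm_map (hΓ g hg) hγ, (hs4 g hg).symm⟩

theorem structure_quat : ∃ ε : ℝ, 0 < ε ∧ ∀ N : ℕ, 3 ≤ N →
    ∀ (h : LieSubalgebra ℝ (Gr ℍ[ℝ] (Fin N))) (Γ : Set (Matrix (Fin N) (Fin N) ℍ[ℝ])),
      (∀ g ∈ Γ, g * gᴴ = 1 ∧ gᴴ * g = 1 ∧ ∀ x ∈ h, ∃ y ∈ h, y.mat = g * x.mat * gᴴ) →
      (Module.finrank ℝ h : ℝ) ≤ ε * N ^ 2 → HasStructure h Γ →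
      HasEinsteinMetric (Gr ℍ[ℝ] (Fin N)) h.toSubmodule
        {γ | ∃ g ∈ Γ, ∀ x, (γ x).mat = g * x.mat * gᴴ} := by
  obtain ⟨ε, hε, he⟩ := sp_u
  refine ⟨ε, hε, fun N hN h Γ hΓ hd hs => ?_⟩
  obtain ⟨s, hs1, hs2, hs3, hs4⟩ := hs
  have hs2' : s * s = -1 := by
    rcases hs2 with h2 | ⟨_, u, hu⟩
    · exact h2
    · exact absurd rfl hu
  refine einstein_mono (he N hN h s hs1 hs2' hs3 hd) ?_
  rintro γ ⟨g, hg, hγ⟩
  exact ⟨g, (hΓ g hg).1, (hΓ g hg).2.1, hγ, Asm_map (hΓ g hg) hγ, (hs4 g hg).symm⟩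

theorem small_real : SmallSubgroupsEinstein ℝ := by
  intro θ hθ
  obtain ⟨ε1, h1, e1⟩ := noLarge_cl ℝ hθ
  obtain ⟨ε2, h2, e2⟩ := structure_real
  refine ⟨min ε1 ε2, lt_min h1 h2, fun N hN h Γ hΓ hd hh => ?_⟩
  have hN2 : (0 : ℝ) ≤ (N : ℝ) ^ 2 := by positivity
  rcases hh with hh | hh
  · exact e1 N hN h Γ hΓ (hd.trans (mul_le_mul_of_nonneg_right (min_le_left _ _) hN2)) hh
  · exact e2 N hN h Γ hΓ (hd.trans (mul_le_mul_of_nonneg_right (min_le_right _ _) hN2)) hh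

theorem small_complex : SmallSubgroupsEinstein ℂ := by
  intro θ hθ
  obtain ⟨ε1, h1, e1⟩ := noLarge_cl ℂ hθ
  obtain ⟨ε2, h2, e2⟩ := structure_complex
  refine ⟨min ε1 ε2, lt_min h1 h2, fun N hN h Γ hΓ hd hh => ?_⟩
  have hN2 : (0 : ℝ) ≤ (N : ℝ) ^ 2 := by positivity
  rcases hh with hh | hh
  · exact e1 N hN h Γ hΓ (hd.trans (mul_le_mul_of_nonneg_right (min_le_left _ _) hN2)) hh
  · exact e2 N hN h Γ hΓ (hd.trans (mul_le_mul_of_nonneg_right (min_le_right _ _) hN2)) hh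

theorem small_quat : SmallSubgroupsEinstein ℍ[ℝ] := by
  intro θ hθ
  obtain ⟨ε1, h1, e1⟩ := noLarge_cl ℍ[ℝ] hθ
  obtain ⟨ε2, h2, e2⟩ := structure_quat
  refine ⟨min ε1 ε2, lt_min h1 h2, fun N hN h Γ hΓ hd hh => ?_⟩
  have hN2 : (0 : ℝ) ≤ (N : ℝ) ^ 2 := by positivity
  rcases hh with hh | hh
  · exact e1 N hN h Γ hΓ (hd.trans (mul_le_mul_of_nonneg_right (min_le_left _ _) hN2)) hh
  · exact e2 N hN h Γ hΓ (hd.trans (mul_le_mul_of_nonneg_right (min_le_right _ _) hN2)) hh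

end Pool.Agent.EinV
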