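import Pool.Agent.EinV.Good

/-!
# Products

`pi_fac`: `perturb_einsteinG` for `Γ' =` the automorphisms `(δ i)`, `δ ∈ Γ`, and the automorphisms of one factor `E i` which fix `hh i` pointwise and commute with `S i`.
* `β ∈ Cls Γ'` implies `bl β i ∈ ClsG`; and for `i ≠ j` the vector `v = β (Pi.single j w) i` is fixed by all automorphisms of the factor `i` which fix `hh i` and commute with `S i`, so
  `Qf v (S i (D i u)) = 0` by `off`.  The gap then follows as in `pg_gap` (`EinG/PiGap.lean`, copy it), with the constant `K + 2`.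
* `cp`: `Pp (β z) = β (Pp z)` for the diagonal blocks by `cp`; off the diagonal blocks by `offP`: `Pp i v = 0` for such `v`, and by symmetry of `β` and `Pp`.
* `z`, `uts`, `base`: sums over the factors (`TH2_DP_left`, `TH2_DP_right`, `bl_conj`, `bl_DP`, `Qf_pi`); `et`: `b k = a k i` is in `hh i` and
  `∑ k, Qf (a k i) y ^ 2 = ∑ k, Qf (a k) (Pi.single i y) ^ 2 ≤ Qf y y` (Bessel).
* `h.map δ = h` by dimension.
-/

namespace Pool.Agent.EinV

open Pool.Agent.EStab Pool.Agent.EinS Pool.Agent.SmIso Pool.Agent.EinU Pool.Agent.EinG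

section Gen

variable {n : ℕ} {E : Fin n → Type} [∀ i, LieRing (E i)] [∀ i, LieAlgebra ℝ (E i)]

private theorem gp_bl (β : (∀ i, E i) →ₗ[ℝ] (∀ i, E i)) (i : Fin n) (u : E i) :
    bl β i u = β (Pi.single i u) i := rfl

private theorem gp_TH2_zero {M : Type} [LieRing M] [LieAlgebra ℝ M] (T U : M →ₗ[ℝ] M) (y : M) :
    TH2 T U 0 y = 0 := by
  unfold TH2
  rw [map_zero]
  change -LinearMap.trace ℝ M ((0 : M →ₗ[ℝ] M) ∘ₗ _) = 0
  rw [LinearMap.zero_comp, map_zero, neg_zero]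

private theorem gp_ell_zero {M : Type} [LieRing M] [LieAlgebra ℝ M] (S T D β : M →ₗ[ℝ] M) :
    ellQG S T D 1 β 0 + Qf M (β 0) 0 = 0 := by
  unfold ellQG
  simp only [map_zero, gp_TH2_zero]
  ring

/-- The component of `β z`. -/
private theorem gp_comp (β : (∀ i, E i) →ₗ[ℝ] (∀ i, E i)) (z : ∀ i, E i) (i : Fin n) :
    β z i = ∑ j, β (Pi.single j (z j)) i := by
  have h1 : z = ∑ j, (Pi.single j (z j) : ∀ i, E i) := (Finset.univ_sum_single z).symm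
  conv_lhs => rw [h1]
  rw [map_sum, Finset.sum_apply]

/-- The automorphism of the product given by automorphisms of the factors. -/
private def gpAut (γ : ∀ i, E i ≃ₗ⁅ℝ⁆ E i) : (∀ i, E i) ≃ₗ⁅ℝ⁆ (∀ i, E i) where
  toFun x i := γ i (x i)
  map_add' x y := by
    funext i
    exact map_add (γ i) (x i) (y i)
  map_smul' c x := by
    funext i
    exact map_smul (γ i) c (x i)
  map_lie' := by
    intro x y
    funext i
    exact (γ i).map_lie (x i) (y i)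
  invFun x i := (γ i).symm (x i)
  left_inv x := by
    funext i
    exact (γ i).symm_apply_apply (x i)
  right_inv x := by
    funext i
    exact (γ i).apply_symm_apply (x i)

private theorem gpAut_apply (γ : ∀ i, E i ≃ₗ⁅ℝ⁆ E i) (x : ∀ i, E i) (i : Fin n) :
    gpAut γ x i = γ i (x i) := rfl

private theorem gpAut_single (γ : ∀ i, E i ≃ₗ⁅ℝ⁆ E i) (i : Fin n) (u : E i) :
    gpAut γ (Pi.single i u) = Pi.single i (γ i u) := by
  funext l
  rw [gpAut_apply]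
  by_cases hl : l = i
  · subst hl
    rw [Pi.single_eq_same, Pi.single_eq_same]
  · rw [Pi.single_eq_of_ne hl, Pi.single_eq_of_ne hl, map_zero]

/-- The automorphism `g` on the factor `i`. -/
private def gpUp (i : Fin n) (g : E i ≃ₗ⁅ℝ⁆ E i) : ∀ j, E j ≃ₗ⁅ℝ⁆ E j :=
  Function.update (fun _ => LieEquiv.refl) i g

private theorem gpUp_same (i : Fin n) (g : E i ≃ₗ⁅ℝ⁆ E i) : gpUp i g i = g :=
  Function.update_self _ _ _

private theorem gpUp_ne {i j : Fin n} (hj : j ≠ i) (g : E i ≃ₗ⁅ℝ⁆ E i) (u : E j) :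
    gpUp i g j u = u := by
  unfold gpUp
  rw [Function.update_of_ne hj]
  rfl

/-- The set of automorphisms. -/
private def gpG (hh : ∀ i, LieSubalgebra ℝ (E i)) (S : ∀ i, E i →ₗ[ℝ] E i)
    (Γ : Set (∀ i, E i ≃ₗ⁅ℝ⁆ E i)) : Set ((∀ i, E i) ≃ₗ⁅ℝ⁆ (∀ i, E i)) :=
  {δ | ∃ γ : ∀ i, E i ≃ₗ⁅ℝ⁆ E i, δ = gpAut γ ∧ (γ ∈ Γ ∨ ∀ i, FixS (hh i) (S i) (γ i))}

private theorem gp_up_mem {hh : ∀ i, LieSubalgebra ℝ (E i)} {S : ∀ i, E i →ₗ[ℝ] E i}
    {Γ : Set (∀ i, E i ≃ₗ⁅ℝ⁆ E i)} {i : Fin n} {g : E i ≃ₗ⁅ℝ⁆ E i}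
    (hg : FixS (hh i) (S i) g) : gpAut (gpUp i g) ∈ gpG hh S Γ := by
  refine ⟨gpUp i g, rfl, Or.inr fun j => ?_⟩
  by_cases hj : j = i
  · subst hj
    rw [gpUp_same]
    exact hg
  · exact ⟨fun y _ => gpUp_ne hj g y, fun x => by rw [gpUp_ne hj, gpUp_ne hj]⟩

private theorem gp_fix {hh : ∀ i, LieSubalgebra ℝ (E i)} {S : ∀ i, E i →ₗ[ℝ] E i}
    {Γ : Set (∀ i, E i ≃ₗ⁅ℝ⁆ E i)} {β : (∀ i, E i) →ₗ[ℝ] (∀ i, E i)}
    (hβ : Cls (gpG hh S Γ) β) {i j : Fin n} (hij : i ≠ j) (w : E j) (g : E i ≃ₗ⁅ℝ⁆ E i)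
    (hg : FixS (hh i) (S i) g) : g (β (Pi.single j w) i) = β (Pi.single j w) i := by
  have h1 := hβ.2 (gpAut (gpUp i g)) (gp_up_mem hg) (Pi.single j w)
  rw [gpAut_single, gpUp_ne hij.symm] at h1
  have h2 := congrFun h1 i
  rw [gpAut_apply, gpUp_same] at h2
  exact h2.symm

private theorem gp_cls [∀ i, Module.Finite ℝ (E i)] {hh : ∀ i, LieSubalgebra ℝ (E i)}
    {S : ∀ i, E i →ₗ[ℝ] E i}
    {Γ : Set (∀ i, E i ≃ₗ⁅ℝ⁆ E i)} {β : (∀ i, E i) →ₗ[ℝ] (∀ i, E i)}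
    (hβ : Cls (gpG hh S Γ) β) (i : Fin n) :
    ClsG (hh i) {g | ∃ γ ∈ Γ, γ i = g} (S i) (bl β i) := by
  refine ⟨QSym_bl hβ.1 i, ?_⟩
  rintro g (⟨γ, hγ, rfl⟩ | hg) x
  · have h1 := hβ.2 (gpAut γ) ⟨γ, rfl, Or.inl hγ⟩ (Pi.single i x)
    rw [gpAut_single] at h1
    exact congrFun h1 i
  · have h1 := hβ.2 (gpAut (gpUp i g)) (gp_up_mem hg) (Pi.single i x)
    rw [gpAut_single, gpUp_same] at h1
    have h2 := congrFun h1 i
    rw [gpAut_apply, gpUp_same] at h2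
    exact h2

private theorem gp_map [∀ i, Module.Finite ℝ (E i)] {γ : ∀ i, E i ≃ₗ⁅ℝ⁆ E i}
    {h : LieSubalgebra ℝ (∀ i, E i)} (hγ : ∀ x ∈ h, gpAut γ x ∈ h) :
    h.map ((gpAut γ : (∀ i, E i) ≃ₗ⁅ℝ⁆ (∀ i, E i)) : (∀ i, E i) →ₗ⁅ℝ⁆ (∀ i, E i)) = h := by
  apply LieSubalgebra.toSubmodule_injective
  have e : (h.map ((gpAut γ : (∀ i, E i) ≃ₗ⁅ℝ⁆ (∀ i, E i)) :
      (∀ i, E i) →ₗ⁅ℝ⁆ (∀ i, E i))).toSubmodule =
      h.toSubmodule.map ((gpAut γ).toLinearEquiv : (∀ i, E i) →ₗ[ℝ] (∀ i, E i)) := rfl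
  rw [e]
  apply Submodule.eq_of_le_of_finrank_le
  · rintro _ ⟨x, hx, rfl⟩
    exact hγ x hx
  · rw [LinearEquiv.finrank_map_eq]

variable [∀ i, Module.Finite ℝ (E i)]

private theorem gp_SD (S D : ∀ i, E i →ₗ[ℝ] E i) (β : (∀ i, E i) →ₗ[ℝ] (∀ i, E i))
    (hoff : ∀ i j, i ≠ j → ∀ (w : E j) (u : E i),
      Qf (E i) (β (Pi.single j w) i) (S i (D i u)) = 0) (z : ∀ i, E i) :
    Qf (∀ i, E i) (β z) (DP S (DP D z)) =
      ∑ i, Qf (E i) (bl β i (z i)) (S i (D i (z i))) := by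
  rw [Qf_pi]
  refine Finset.sum_congr rfl fun i _ => ?_
  rw [DP_apply, DP_apply, gp_comp, map_sum, LinearMap.sum_apply, Finset.sum_eq_single i]
  · rfl
  · intro j _ hj
    exact hoff i j (Ne.symm hj) _ _
  · intro hi
    exact absurd (Finset.mem_univ i) hi

private theorem gp_sum (S T D : ∀ i, E i →ₗ[ℝ] E i) (β : (∀ i, E i) →ₗ[ℝ] (∀ i, E i))
    (hoff : ∀ i j, i ≠ j → ∀ (w : E j) (u : E i),
      Qf (E i) (β (Pi.single j w) i) (S i (D i u)) = 0) (z : ∀ i, E i) :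
    ellQG (DP S) (DP T) (DP D) 1 β z + Qf (∀ i, E i) (β z) z =
      ∑ i, (ellQG (S i) (T i) (D i) 1 (bl β i) (z i) + Qf (E i) (bl β i (z i)) (z i)) := by
  have h1 : ∀ i, ellQG (S i) (T i) (D i) 1 (bl β i) (z i) + Qf (E i) (bl β i (z i)) (z i) =
      Qf (E i) (bl β i (z i)) (S i (D i (z i))) -
        1 / 2 * (TH2 (T i) (bl β i) (S i (z i)) (S i (z i)) -
          TH2 (T i ∘ₗ bl β i ∘ₗ T i) (S i) (S i (z i)) (S i (z i))) +
        1 / 2 * TH2 (S i) (bl β i) (z i) (z i) := by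
    intro i
    unfold ellQG
    ring
  simp only [h1]
  rw [Finset.sum_add_distrib, Finset.sum_sub_distrib, ← Finset.mul_sum, ← Finset.mul_sum,
    Finset.sum_sub_distrib]
  have h2 : ∑ i, TH2 (T i) (bl β i) (S i (z i)) (S i (z i)) =
      TH2 (DP T) β (DP S z) (DP S z) := (TH2_DP_left T β (DP S z)).symm
  have h3 : ∑ i, TH2 (T i ∘ₗ bl β i ∘ₗ T i) (S i) (S i (z i)) (S i (z i)) =
      TH2 (DP T ∘ₗ β ∘ₗ DP T) (DP S) (DP S z) (DP S z) := by
    rw [TH2_DP_right]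
    refine Finset.sum_congr rfl fun i _ => ?_
    rw [bl_conj]
    rfl
  rw [h2, h3, ← TH2_DP_left S β z, ← gp_SD S D β hoff z]
  unfold ellQG
  ring

private theorem gp_gap (S T D : ∀ i, E i →ₗ[ℝ] E i) (β : (∀ i, E i) →ₗ[ℝ] (∀ i, E i))
    (hoff : ∀ i j, i ≠ j → ∀ (w : E j) (u : E i),
      Qf (E i) (β (Pi.single j w) i) (S i (D i u)) = 0) {s : ℝ}
    (hs : ∀ z, |ellQG (DP S) (DP T) (DP D) 1 β z| ≤ s * Qf (∀ i, E i) z z) :
    (∀ i u, |ellQG (S i) (T i) (D i) 1 (bl β i) u| ≤ s * Qf (E i) u u) ∧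
      ∀ K : ℝ, (∀ i u, |Qf (E i) (bl β i u) u| ≤ K * s * Qf (E i) u u) →
        ∀ z, |Qf (∀ i, E i) (β z) z| ≤ (K + 2) * s * Qf (∀ i, E i) z z := by
  have hb : ∀ (i : Fin n) (u : E i), |ellQG (S i) (T i) (D i) 1 (bl β i) u| ≤ s * Qf (E i) u u := by
    intro i u
    have h1 := hs (Pi.single i u)
    have h2 := gp_sum S T D β hoff (Pi.single i u)
    rw [Finset.sum_eq_single i] at h2
    · rw [Pi.single_eq_same, Qf_single, ← gp_bl] at h2
      have h3 : ellQG (DP S) (DP T) (DP D) 1 β (Pi.single i u) =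
        ellQG (S i) (T i) (D i) 1 (bl β i) u := by linarith
      rw [h3, Qf_single, Pi.single_eq_same] at h1
      exact h1
    · intro j _ hj
      rw [Pi.single_eq_of_ne hj]
      exact gp_ell_zero _ _ _ _
    · intro hi
      exact absurd (Finset.mem_univ i) hi
  refine ⟨hb, fun K hc z => ?_⟩
  have h0 := hs z
  have h1 := gp_sum S T D β hoff z
  rw [Finset.sum_add_distrib] at h1
  have h2 : |∑ i, ellQG (S i) (T i) (D i) 1 (bl β i) (z i)| ≤ s * Qf (∀ i, E i) z z := by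
    rw [Qf_pi z z, Finset.mul_sum]
    exact (Finset.abs_sum_le_sum_abs _ _).trans (Finset.sum_le_sum fun i _ => hb i (z i))
  have h3 : |∑ i, Qf (E i) (bl β i (z i)) (z i)| ≤ K * s * Qf (∀ i, E i) z z := by
    rw [Qf_pi z z, Finset.mul_sum]
    exact (Finset.abs_sum_le_sum_abs _ _).trans (Finset.sum_le_sum fun i _ => hc i (z i))
  rw [abs_le] at h0 h2 h3 ⊢
  constructor
  · nlinarith [h0.2, h2.1, h3.1]
  · nlinarith [h0.1, h2.2, h3.2]

/-- Bessel. -/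
private theorem gp_bessel {M : Type} [LieRing M] [LieAlgebra ℝ M] [Module.Finite ℝ M]
    (hM : CompactSemisimple M) {k : ℕ} (a : Fin k → M)
    (ha : ∀ j l, Qf M (a j) (a l) = if j = l then 1 else 0) (z : M) :
    ∑ j, Qf M (a j) z ^ 2 ≤ Qf M z z := by
  obtain ⟨p, hp⟩ : ∃ p : M, p = ∑ j, Qf M (a j) z • a j := ⟨_, rfl⟩
  have h0 := Qf_nonneg hM (z - p)
  have h1 : ∀ w, Qf M w p = ∑ j, Qf M (a j) z * Qf M w (a j) := by
    intro w
    rw [hp, map_sum]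
    refine Finset.sum_congr rfl fun j _ => ?_
    rw [map_smul, smul_eq_mul]
  have h3 : ∀ j, Qf M (a j) p = Qf M (a j) z := by
    intro j
    rw [h1, Finset.sum_eq_single j]
    · rw [ha, if_pos rfl, mul_one]
    · intro l _ hl
      rw [ha, if_neg (Ne.symm hl), mul_zero]
    · intro hj
      exact absurd (Finset.mem_univ j) hj
  have h2 : Qf M z p = ∑ j, Qf M (a j) z ^ 2 := by
    rw [h1]
    refine Finset.sum_congr rfl fun j _ => ?_
    rw [Qf_symm z, sq]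
  have h4 : Qf M p p = ∑ j, Qf M (a j) z ^ 2 := by
    rw [h1]
    refine Finset.sum_congr rfl fun j _ => ?_
    rw [Qf_symm p, h3, sq]
  have h5 : Qf M (z - p) (z - p) = Qf M z z - Qf M z p - (Qf M p z - Qf M p p) := by
    rw [map_sub, map_sub]
    change Qf M z z - Qf M p z - (Qf M z p - Qf M p p) = _
    ring
  rw [h5, Qf_symm p z, h2, h4] at h0
  linarith

private theorem gp_mono {L : Type*} [LieRing L] [LieAlgebra ℝ L] {k : Submodule ℝ L}
    {Γ Γ' : Set (L →ₗ[ℝ] L)} (h : HasEinsteinMetric L k Γ) (hΓ : Γ' ⊆ Γ) :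
    HasEinsteinMetric L k Γ' := by
  obtain ⟨m, π, β, D, X, c, h1, h2, h3, h4, h5, h6, h7, h8, h9, h10, h11⟩ := h
  exact ⟨m, π, β, D, X, c, h1, h2, h3, h4, fun γ hγ => h5 γ (hΓ hγ), fun γ hγ => h6 γ (hΓ hγ),
    h7, h8, h9, h10, h11⟩

private theorem gp_cp {hh : ∀ i, LieSubalgebra ℝ (E i)} {S T Pp D : ∀ i, E i →ₗ[ℝ] E i}
    {Γ : Set (∀ i, E i ≃ₗ⁅ℝ⁆ E i)} {c eps K : ℝ}
    (hF : ∀ i, FacW (hh i) {g | ∃ γ ∈ Γ, γ i = g} (S i) (T i) (Pp i) (D i) c 1 eps K)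
    {β : (∀ i, E i) →ₗ[ℝ] (∀ i, E i)}
    (hβ : Cls (gpG hh S Γ) β) (x : ∀ i, E i) : β (DP Pp x) = DP Pp (β x) := by
  have hz : ∀ {i j : Fin n}, i ≠ j → ∀ w : E j, Pp i (β (Pi.single j w) i) = 0 := by
    intro i j hij w
    exact (hF i).offP _ fun g hg => gp_fix hβ hij w g hg
  have hz' : ∀ {i j : Fin n}, i ≠ j → ∀ w : E j, β (Pi.single j (Pp j w)) i = 0 := by
    intro i j hij w
    by_contra hne
    have hpos := Qf_pos (hF i).comp hne
    have h1 := hβ.1 (Pi.single j (Pp j w)) (Pi.single i (β (Pi.single j (Pp j w)) i))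
    rw [Qf_single, Qf_symm (Pi.single j (Pp j w)), Qf_single] at h1
    have h2 : Qf (E j) (β (Pi.single i (β (Pi.single j (Pp j w)) i)) j) (Pp j w) = 0 := by
      rw [Qf_symm, (hF j).symP, hz hij.symm, map_zero]
    rw [h2] at h1
    exact absurd h1 hpos.ne'
  funext i
  rw [DP_apply, gp_comp β (DP Pp x) i, gp_comp β x i, map_sum]
  refine Finset.sum_congr rfl fun j _ => ?_
  rw [DP_apply]
  by_cases hij : i = j
  · subst hij
    exact (hF i).cp _ (gp_cls hβ i) (x i)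
  · rw [hz' hij, hz hij]

theorem pi_facW {hh : ∀ i, LieSubalgebra ℝ (E i)} {Γ : Set (∀ i, E i ≃ₗ⁅ℝ⁆ E i)}
    {S T Pp D : ∀ i, E i →ₗ[ℝ] E i} {c τ eps K : ℝ}
    (hF : ∀ i, FacW (hh i) {g | ∃ γ ∈ Γ, γ i = g} (S i) (T i) (Pp i) (D i) c 1 eps K)
    (hc : 1 ≤ c) (hK : 1 ≤ K) (h0 : 0 ≤ τ) (h1 : 0 ≤ eps)
    (hτ : 500 * (K + 2) * c ^ 10 * τ ≤ 1) (heps : 5000 * (K + 2) ^ 2 * c ^ 10 * eps ≤ 1)
    (h : LieSubalgebra ℝ (∀ i, E i)) (hp : ∀ y ∈ h, ∀ i, y i ∈ hh i)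
    (hΓ : ∀ γ ∈ Γ, ∀ x ∈ h, (fun i => γ i (x i)) ∈ h)
    (het : ∀ (k : ℕ) (a : Fin k → ∀ i, E i), (∀ j, a j ∈ h) →
      (∀ j l, Qf (∀ i, E i) (a j) (a l) = if j = l then 1 else 0) → ∀ i (x : E i),
        ∑ j, Qf (E i) ⁅a j i, x⁆ ⁅a j i, x⁆ ≤ τ ^ 2 * Qf (E i) x x ∧
        ∑ j, Qf (E i) ⁅S i (a j i), x⁆ ⁅S i (a j i), x⁆ ≤ τ ^ 2 * Qf (E i) x x ∧
        ∑ j, Qf (E i) ⁅T i (a j i), x⁆ ⁅T i (a j i), x⁆ ≤ τ ^ 2 * Qf (E i) x x) :
    HasEinsteinMetric (∀ i, E i) h.toSubmodule {δ | ∃ γ ∈ Γ, ∀ x i, δ x i = γ i (x i)} := by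
  classical
  have hcomp : CompactSemisimple (∀ i, E i) := compact_pi fun i => (hF i).comp
  have hsumle : ∀ (f : ∀ i, E i → ℝ) (c : ℝ), (∀ i u, f i u ≤ c * Qf (E i) u u) →
      ∀ x : ∀ i, E i, ∑ i, f i (x i) ≤ c * Qf (∀ i, E i) x x := by
    intro f c hf x
    rw [Qf_pi x x, Finset.mul_sum]
    exact Finset.sum_le_sum fun i _ => hf i (x i)
  have hS : ∀ γ ∈ Γ, ∀ x, DP S (gpAut γ x) = gpAut γ (DP S x) := by
    intro γ hγ x
    funext i
    exact (hF i).inv (γ i) ⟨γ, hγ, rfl⟩ (x i)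
  have hB : LBaseG h (gpG hh S Γ) (DP S) (DP T) (DP Pp) (DP D) c τ 1 eps :=
    { symS := QSym_DP fun i => (hF i).symS
      symT := QSym_DP fun i => (hF i).symT
      symP := QSym_DP fun i => (hF i).symP
      symD := QSym_DP fun i => (hF i).symD
      ST := fun x => funext fun i => (hF i).ST (x i)
      TS := fun x => funext fun i => (hF i).TS (x i)
      c1 := hc
      t0 := h0
      e0 := h1
      loS := fun x => by
        rw [Qf_pi, Qf_pi, Finset.mul_sum]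
        exact Finset.sum_le_sum fun i _ => (hF i).loS (x i)
      hiS := fun x => by
        rw [Qf_pi, Qf_pi, Finset.mul_sum]
        exact Finset.sum_le_sum fun i _ => (hF i).hiS (x i)
      loT := fun x => by
        rw [Qf_pi]
        exact Finset.sum_nonneg fun i _ => (hF i).loT (x i)
      hiT := fun x => by
        rw [Qf_pi, Qf_pi, Finset.mul_sum]
        exact Finset.sum_le_sum fun i _ => (hF i).hiT (x i)
      bdD := fun x => by
        rw [Qf_pi, Qf_pi, Finset.mul_sum]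
        exact (Finset.abs_sum_le_sum_abs _ _).trans
          (Finset.sum_le_sum fun i _ => (hF i).bdD (x i))
      pp2 := fun x => funext fun i => (hF i).pp2 (x i)
      Spp := fun x => funext fun i => (hF i).Spp (x i)
      Dpp := fun x => funext fun i => (hF i).Dpp (x i)
      SD := fun x => funext fun i => (hF i).SD (x i)
      hpp := fun y hy => funext fun i => (hF i).hpp (y i) (hp y hy i)
      et := fun k a ha ho x => by
        have hb : ∀ b : Fin k → ∀ i, E i, (∀ i (u : E i),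
            ∑ j, Qf (E i) ⁅b j i, u⁆ ⁅b j i, u⁆ ≤ τ ^ 2 * Qf (E i) u u) →
            ∑ j, Qf (∀ i, E i) ⁅b j, x⁆ ⁅b j, x⁆ ≤ τ ^ 2 * Qf (∀ i, E i) x x := by
          intro b hb
          have e1 : ∀ j, Qf (∀ i, E i) ⁅b j, x⁆ ⁅b j, x⁆ =
              ∑ i, Qf (E i) ⁅b j i, x i⁆ ⁅b j i, x i⁆ := fun j => by
            rw [Qf_pi]
            rfl
          rw [Finset.sum_congr rfl fun j _ => e1 j, Finset.sum_comm]
          exact hsumle (fun i u => ∑ j, Qf (E i) ⁅b j i, u⁆ ⁅b j i, u⁆) (τ ^ 2) hb x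
        have h2 := het k a ha ho
        exact ⟨hb a fun i u => (h2 i u).1, hb (fun j => DP S (a j)) fun i u => (h2 i u).2.1,
          hb (fun j => DP T (a j)) fun i u => (h2 i u).2.2⟩
      uts := fun x => by
        rw [TH2_DP_left, Qf_pi, Qf_pi, ← Finset.sum_sub_distrib]
        refine Finset.sum_congr rfl fun i _ => ?_
        rw [bl_DP, (hF i).uts]
        rfl
      la := one_pos
      la' := by
        rw [div_one]
        exact hc
      base := fun x => by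
        have e1 : 1 / 2 * Qf (∀ i, E i) (DP S (DP D (DP S x))) x +
            1 / 4 * TH2 (DP S) (DP S) x x - 1 * Qf (∀ i, E i) (DP S x) x =
            ∑ i, (1 / 2 * Qf (E i) (S i (D i (S i (x i)))) (x i) +
              1 / 4 * TH2 (S i) (S i) (x i) (x i) - 1 * Qf (E i) (S i (x i)) (x i)) := by
          rw [TH2_DP_left, Qf_pi, Qf_pi, Finset.sum_sub_distrib, Finset.sum_add_distrib,
            Finset.mul_sum, Finset.mul_sum, Finset.mul_sum]
          simp only [bl_DP]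
          rfl
        rw [e1]
        refine (Finset.abs_sum_le_sum_abs _ _).trans ?_
        exact hsumle (fun i u => |1 / 2 * Qf (E i) (S i (D i (S i u))) u +
              1 / 4 * TH2 (S i) (S i) u u - 1 * Qf (E i) (S i u) u|) eps
          (fun i u => (hF i).base u) x
      inv := by
        rintro δ ⟨γ, rfl, hγ | hγ⟩
        · exact ⟨gp_map fun x hx => hΓ γ hγ x hx, hS γ hγ⟩
        · refine ⟨gp_map fun x hx => ?_, fun x => funext fun i => (hγ i).2 (x i)⟩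
          have e1 : gpAut γ x = x := funext fun i => (hγ i).1 (x i) (hp x hx i)
          rw [e1]
          exact hx
      cp := fun β hβ x => gp_cp hF hβ x
      z := fun β hβ x => by
        have key : ∀ y : ∀ i, E i,
            TH2 (DP T) β y y - TH2 (DP T ∘ₗ β ∘ₗ DP T) (DP S) y y =
            ∑ i, (TH2 (T i) (bl β i) (y i) (y i) -
              TH2 (T i ∘ₗ bl β i ∘ₗ T i) (S i) (y i) (y i)) := by
          intro y
          rw [TH2_DP_left, TH2_DP_right, ← Finset.sum_sub_distrib]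
          refine Finset.sum_congr rfl fun i _ => ?_
          rw [bl_conj]
        rw [key, key]
        exact Finset.sum_congr rfl fun i _ => (hF i).z _ (gp_cls hβ i) (x i) }
  have hG : GapLG (gpG hh S Γ) (DP S) (DP T) (DP D) 1 (K + 2) := by
    intro β hβ s hs
    have hoff : ∀ i j : Fin n, i ≠ j → ∀ (w : E j) (u : E i),
        Qf (E i) (β (Pi.single j w) i) (S i (D i u)) = 0 := fun i j hij w u =>
      (hF i).off _ (fun g hg => gp_fix hβ hij w g hg) u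
    obtain ⟨h2, h3⟩ := gp_gap S T D β hoff hs
    exact h3 K fun i u => (hF i).gap _ (gp_cls hβ i) s (h2 i) u
  refine gp_mono (perturb_einsteinG hcomp hB (K := K + 2) (by linarith) hG hτ heps) ?_
  rintro δ ⟨γ, hγ, hδ⟩
  exact ⟨gpAut γ, gp_map fun x hx => hΓ γ hγ x hx, hS γ hγ, fun x => funext fun i => hδ x i⟩

end Gen

theorem pi_fac {n : ℕ} {E : Fin n → Type} [∀ i, LieRing (E i)] [∀ i, LieAlgebra ℝ (E i)]
    [∀ i, Module.Finite ℝ (E i)] {hh : ∀ i, LieSubalgebra ℝ (E i)}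
    {Γ : Set (∀ i, E i ≃ₗ⁅ℝ⁆ E i)} {c τ eps K : ℝ}
    (hF : ∀ i, GoodAt (hh i) {g | ∃ γ ∈ Γ, γ i = g} c τ eps K)
    (hc : 1 ≤ c) (hK : 1 ≤ K) (h0 : 0 ≤ τ) (h1 : 0 ≤ eps)
    (hτ : 500 * (K + 2) * c ^ 10 * τ ≤ 1) (heps : 5000 * (K + 2) ^ 2 * c ^ 10 * eps ≤ 1)
    (h : LieSubalgebra ℝ (∀ i, E i)) (hp : ∀ y ∈ h, ∀ i, y i ∈ hh i)
    (hΓ : ∀ γ ∈ Γ, ∀ x ∈ h, (fun i => γ i (x i)) ∈ h) :
    HasEinsteinMetric (∀ i, E i) h.toSubmodule {δ | ∃ γ ∈ Γ, ∀ x i, δ x i = γ i (x i)} := by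
  choose S T Pp D hF using hF
  have hcomp : CompactSemisimple (∀ i, E i) := compact_pi fun i => (hF i).comp
  refine pi_facW (fun i => (hF i).toW) hc hK h0 h1 hτ heps h hp hΓ fun k a ha ho i x => ?_
  refine (hF i).et k (fun j => a j i) (fun j => hp (a j) (ha j) i) (fun y => ?_) x
  have h2 := gp_bessel hcomp a ho (Pi.single i y)
  simp only [Qf_single, Pi.single_eq_same] at h2
  exact h2

end Pool.Agent.EinV
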