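import Pool.Agent.EinV.GoodAny
import Pool.Agent.EinV.GoodP

/-!
# Small subgroups of products of classical groups: assembly

`small_prod`: `pi_fac` with `E i = cl (F i).T (Fin (N i))` (`Gr` by definition), `hh i = h.map (projG F N i)`, and the set of the tuples `γ = (Ad (g i))_i` (`clConj`) for `g ∈ Γ` and for the `g` of
`exp_tuple`, `y ∈ h`.  The constants of `good_any` for the three `F`: maximum (`good_mono`), then `τ`, `eps` for `pi_fac`, then the minimum of the three `δ`.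
-/

namespace Pool.Agent.EinV

open Matrix Pool.Agent.EStab Pool.Agent.EinS Pool.Agent.SmIso Pool.Agent.EinU Pool.Agent.EinG
  Quaternion

attribute [local instance 100] LieRing.ofAssociativeRing

/-- the constants for one field, with the same `c`, `K` -/
private def AsmP_C (θ c K : ℝ) (F : Fld) : Prop := ∀ τ eps : ℝ,
    0 < τ → 0 < eps → ∃ δ : ℝ, 0 < δ ∧ ∀ N : ℕ, 3 ≤ N →
    ∀ (h : LieSubalgebra ℝ (cl F.T (Fin N))) (Γ : Set (Matrix (Fin N) (Fin N) F.T)),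
      (∀ g ∈ Γ, g * gᴴ = 1 ∧ gᴴ * g = 1) → (Module.finrank ℝ h : ℝ) ≤ δ * N ^ 2 →
      NoLarge (A := F.T) θ h Γ ∨ HasStructure (A := F.T) h Γ →
      ∀ G : Set (cl F.T (Fin N) ≃ₗ⁅ℝ⁆ cl F.T (Fin N)), (∀ γ ∈ G, ∃ g, IsGen h Γ g ∧ AdU g γ) →
      (∀ g, IsGen h Γ g → g * gᴴ = 1 → gᴴ * g = 1 → ∃ γ ∈ G, AdU g γ) →
        GoodAt h G c τ eps K

private theorem AsmP_mono {θ c K c' K' : ℝ} {F : Fld} (h : AsmP_C θ c K F) (hc : c ≤ c')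
    (hK : K ≤ K') : AsmP_C θ c' K' F := by
  intro τ eps h1 h2
  obtain ⟨δ, h3, h4⟩ := h τ eps h1 h2
  exact ⟨δ, h3, fun N hN h Γ a1 a2 a3 G a4 a5 => good_mono (h4 N hN h Γ a1 a2 a3 G a4 a5) hc hK⟩

private theorem AsmP_all {θ : ℝ} (hθ : 0 < θ) : ∃ c K : ℝ, 1 ≤ c ∧ 1 ≤ K ∧
    ∀ F : Fld, AsmP_C θ c K F := by
  obtain ⟨c1, K1, h1, h1', g1⟩ := good_any .R hθ
  obtain ⟨c2, K2, -, -, g2⟩ := good_any .C hθ
  obtain ⟨c3, K3, -, -, g3⟩ := good_any .H hθ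
  refine ⟨max c1 (max c2 c3), max K1 (max K2 K3), h1.trans (le_max_left _ _),
    h1'.trans (le_max_left _ _), fun F => ?_⟩
  rcases F with _ | _ | _
  · exact AsmP_mono (c := c1) (K := K1) g1 (le_max_left _ _) (le_max_left _ _)
  · exact AsmP_mono (c := c2) (K := K2) g2 ((le_max_left _ _).trans (le_max_right _ _))
      ((le_max_left _ _).trans (le_max_right _ _))
  · exact AsmP_mono (c := c3) (K := K3) g3 ((le_max_right _ _).trans (le_max_right _ _))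
      ((le_max_right _ _).trans (le_max_right _ _))

/-- one constant for the three fields -/
private theorem AsmP_delta {θ c K τ eps : ℝ} (hC : ∀ F : Fld, AsmP_C θ c K F) (hτ : 0 < τ)
    (heps : 0 < eps) : ∃ δ : ℝ, 0 < δ ∧ ∀ (F : Fld) (N : ℕ), 3 ≤ N →
    ∀ (h : LieSubalgebra ℝ (cl F.T (Fin N))) (Γ : Set (Matrix (Fin N) (Fin N) F.T)),
      (∀ g ∈ Γ, g * gᴴ = 1 ∧ gᴴ * g = 1) → (Module.finrank ℝ h : ℝ) ≤ δ * N ^ 2 →
      NoLarge (A := F.T) θ h Γ ∨ HasStructure (A := F.T) h Γ →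
      ∀ G : Set (cl F.T (Fin N) ≃ₗ⁅ℝ⁆ cl F.T (Fin N)), (∀ γ ∈ G, ∃ g, IsGen h Γ g ∧ AdU g γ) →
      (∀ g, IsGen h Γ g → g * gᴴ = 1 → gᴴ * g = 1 → ∃ γ ∈ G, AdU g γ) →
        GoodAt h G c τ eps K := by
  have h0 : ∀ F : Fld, ∃ δ : ℝ, 0 < δ ∧ ∀ N : ℕ, 3 ≤ N →
    ∀ (h : LieSubalgebra ℝ (cl F.T (Fin N))) (Γ : Set (Matrix (Fin N) (Fin N) F.T)),
      (∀ g ∈ Γ, g * gᴴ = 1 ∧ gᴴ * g = 1) → (Module.finrank ℝ h : ℝ) ≤ δ * N ^ 2 →
      NoLarge (A := F.T) θ h Γ ∨ HasStructure (A := F.T) h Γ →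
      ∀ G : Set (cl F.T (Fin N) ≃ₗ⁅ℝ⁆ cl F.T (Fin N)), (∀ γ ∈ G, ∃ g, IsGen h Γ g ∧ AdU g γ) →
      (∀ g, IsGen h Γ g → g * gᴴ = 1 → gᴴ * g = 1 → ∃ γ ∈ G, AdU g γ) →
        GoodAt h G c τ eps K := fun F => hC F τ eps hτ heps
  choose δ hδ hg using h0
  refine ⟨min (δ .R) (min (δ .C) (δ .H)), lt_min (hδ _) (lt_min (hδ _) (hδ _)), ?_⟩
  intro F N hN h Γ a1 a2 a3 G a4 a5
  have hle : min (δ .R) (min (δ .C) (δ .H)) ≤ δ F := by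
    rcases F with _ | _ | _
    · exact min_le_left _ _
    · exact (min_le_right _ _).trans (min_le_left _ _)
    · exact (min_le_right _ _).trans (min_le_right _ _)
  exact hg F N hN h Γ a1 (a2.trans (mul_le_mul_of_nonneg_right hle (by positivity))) a3 G a4 a5

theorem small_prod : SmallSubgroupsEinstein' := by
  intro θ hθ
  obtain ⟨c, K, hc, hK, hC⟩ := AsmP_all hθ
  have hc0 : 0 < c := by linarith
  have hK0 : 0 < K := by linarith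
  obtain ⟨τ, hτ⟩ : ∃ τ : ℝ, τ = 1 / (500 * (K + 2) * c ^ 10) := ⟨_, rfl⟩
  have hD : 0 < 500 * (K + 2) * c ^ 10 := by positivity
  have hτ0 : 0 < τ := by rw [hτ]; positivity
  obtain ⟨eps, heps⟩ : ∃ eps : ℝ, eps = 1 / (5000 * (K + 2) ^ 2 * c ^ 10) := ⟨_, rfl⟩
  have hD' : 0 < 5000 * (K + 2) ^ 2 * c ^ 10 := by positivity
  have heps0 : 0 < eps := by rw [heps]; positivity
  obtain ⟨ε, hε, hgood⟩ := AsmP_delta hC hτ0 heps0
  refine ⟨ε, hε, fun r F N hN h Γ hΓ hd hL => ?_⟩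
  -- the automorphisms
  set Γ' : Set (∀ i, cl (F i).T (Fin (N i)) ≃ₗ⁅ℝ⁆ cl (F i).T (Fin (N i))) :=
    {γ | ∃ g : ∀ i, Matrix (Fin (N i)) (Fin (N i)) (F i).T, (∀ i, AdU (g i) (γ i)) ∧
      (∀ x ∈ h, ∃ y ∈ h, ∀ i, (y i).mat = g i * (x i).mat * (g i)ᴴ) ∧
      (g ∈ Γ ∨ ∃ y ∈ h, ∃ t : ℝ, ∀ i, lmul (g i) = NormedSpace.exp (t • lmul (y i).mat))}
    with hΓ'
  have hmk : ∀ g : ∀ i, Matrix (Fin (N i)) (Fin (N i)) (F i).T,
      (∀ i, g i * (g i)ᴴ = 1 ∧ (g i)ᴴ * g i = 1) →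
      (∀ x ∈ h, ∃ y ∈ h, ∀ i, (y i).mat = g i * (x i).mat * (g i)ᴴ) →
      (g ∈ Γ ∨ ∃ y ∈ h, ∃ t : ℝ, ∀ i, lmul (g i) = NormedSpace.exp (t • lmul (y i).mat)) →
      ∃ γ ∈ Γ', ∀ i, AdU (g i) (γ i) := by
    intro g h1 h2 h3
    refine ⟨fun i => clConj (g i) (h1 i).1 (h1 i).2, ⟨g, ?_, h2, h3⟩, ?_⟩
    · exact fun i => ⟨(h1 i).1, (h1 i).2, fun x => rfl⟩
    · exact fun i => ⟨(h1 i).1, (h1 i).2, fun x => rfl⟩
  have hfac : ∀ i, GoodAt (L := cl (F i).T (Fin (N i))) (h.map (projG F N i))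
      {g | ∃ γ ∈ Γ', γ i = g} c τ eps K := by
    intro i
    refine hgood (F i) (N i) (hN i) (h.map (projG F N i)) {a | ∃ g ∈ Γ, g i = a} ?_ (hd i) (hL i)
      _ ?_ ?_
    · rintro _ ⟨g, hg, rfl⟩
      exact (hΓ g hg).1 i
    · rintro _ ⟨γ, ⟨g, hg1, hg2, hg3⟩, rfl⟩
      refine ⟨g i, ?_, hg1 i⟩
      rcases hg3 with hg3 | ⟨y, hy, t, hyt⟩
      · exact Or.inl ⟨g, hg3, rfl⟩
      · exact Or.inr ⟨y i, ⟨y, hy, rfl⟩, t, hyt i⟩
    · intro g hg hg1 hg2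
      rcases hg with ⟨g', hg', rfl⟩ | ⟨_, ⟨y, hy, rfl⟩, t, hyt⟩
      · obtain ⟨γ, hγ, hγ'⟩ := hmk g' (hΓ g' hg').1 (hΓ g' hg').2 (Or.inl hg')
        exact ⟨γ i, ⟨γ, hγ, rfl⟩, hγ' i⟩
      · obtain ⟨g', hg', hn⟩ := exp_tuple hy t
        obtain ⟨γ, hγ, hγ'⟩ := hmk g' (fun j => ⟨(hg' j).1, (hg' j).2.1⟩) hn
          (Or.inr ⟨y, hy, t, fun j => (hg' j).2.2⟩)
        have e : g = g' i := by
          have e1 : lmul (g - g' i) = 0 := by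
            rw [map_sub, hyt, (hg' i).2.2]
            exact sub_self _
          exact sub_eq_zero.1 (lmul_inj e1)
        rw [e]
        exact ⟨γ i, ⟨γ, hγ, rfl⟩, hγ' i⟩
  have hfin : ∀ i, Module.Finite ℝ (cl (F i).T (Fin (N i))) := fun i => inferInstance
  have key := pi_fac (E := fun i => cl (F i).T (Fin (N i)))
    (hh := fun i => h.map (projG F N i)) (Γ := Γ') hfac hc hK hτ0.le heps0.le
    (by rw [hτ, mul_one_div_cancel hD.ne']) (by rw [heps, mul_one_div_cancel hD'.ne']) h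
    (fun y hy i => ⟨y, hy, rfl⟩) (by
      rintro γ ⟨g, hg1, hg2, -⟩ x hx
      obtain ⟨y, hy, hyx⟩ := hg2 x hx
      have e : (fun i => γ i (x i)) = y := by
        funext i
        apply Subtype.ext
        rw [(hg1 i).2.2 (x i)]
        exact (hyx i).symm
      rw [e]
      exact hy)
  refine einstein_mono key ?_
  rintro δ ⟨g, hg, hδ⟩
  obtain ⟨γ, hγ, hγ'⟩ := hmk g (hΓ g hg).1 (hΓ g hg).2 (Or.inl hg)
  refine ⟨γ, hγ, fun x i => ?_⟩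
  apply Subtype.ext
  rw [(hγ' i).2.2 (x i)]
  exact hδ x i

end Pool.Agent.EinV
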