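import Pool.Agent.EinV.Ell

/-!
# The trace form of `S`

`fo_S` : for `Qf y c = 0`, `Z = ph y`, `M = card I`, `M_A`, `M_B` the sizes of the blocks, `w = wt A p1 p2 1`, `w' = wt A (1/x1) (1/x2) 1`,
  `SLb w (tn S) Z Z = (1/(m+1)) ∑ c a, Z c a ^ 2 * (w c A * w' a A * M_A + w c B * w' a B * M_B) + O(|Z|²)`,
  `FAb w (tn S) Z Z = O(|Z|²)`.
Proof.  `tn S a b c d = ph (S (e a b)) c d`, `S (e a b) = w' a b • e a b + ((1/z - w' a b) * n * ph c a b) • c` (`Spl.se`), and by `ker`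
`ph (e a b) c d = (1/(2(m+1))) (δ_ac δ_bd - δ_bc δ_ad + ∑ k, (f c a f d b - f c b f d a)) - J a b J c d / M`.
* The terms with `ph c a b * n * ph c c d`: `ph c = g J0` with `g² ≤ C / M²` (as in `TrS.lean`), `n g² ≤ C / M`; their contribution is `O(|Z|²)`.
* Slow part: for `a`, `d` in the same block and `B` a block, `∑ b ∈ B, ph (e a b) d b = (|B| / (2 (m+1))) δ_ad + ` a matrix of operator norm `≤ 1`
  (`∑ b ∈ B, f b b = 0` since `f` is skew or off-diagonal); for `a`, `d` in different blocks `ph (e a b) d b = 0`.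
* Fast part: `∑ (w b d + w a c) w' a d Z a b Z c d ph (e a d) b c`.  The terms with `δ_ab δ_cd` vanish (`Z a a = 0`), those with `f b a * f c d` vanish by
  `htr`: for block diagonal `f` the blocks of `b`, `d` are those of `a`, `c`, for block off-diagonal `f` they are the opposite ones and
  `x1 = x2`, `p1 = p2`, so the weight depends on the blocks of `a` and `c` only, and `∑ a ∈ A, ∑ b, Z a b * f b a = 0`,
  `∑ c ∈ block, ∑ d, Z c d * f c d = - ∑ d ∈ block', ∑ c, Z d c * f c d = 0`.  The terms with `δ_bd δ_ac`, `f b d * f c a` (or `J a d J b c / M`) are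
  `O(|Z|²)`: split the weights into blocks, `∑ Z a b f b d Z c d f c a = trace (Z f Zᵀ f)`, `f` orthogonal.
-/

namespace Pool.Agent.EinV

open Matrix Pool.Agent.EStab Pool.Agent.EinS Pool.Agent.SmIso Pool.Agent.EinU Pool.Agent.EinG

/-- The elements orthogonal to the centre have no trace with the matrices `f k`, on both blocks. -/
def TrZ {L : Type} [LieRing L] [LieAlgebra ℝ L] {I : Type} [Fintype I] [DecidableEq I] {m : ℕ}
    (R : Rp L I m) (A : Finset I) (c : L) : Prop :=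
  ∀ x, Qf L x c = 0 → ∀ k, ∑ a ∈ A, ∑ b, R.ph x a b * R.f k b a = 0 ∧
    ∑ a ∈ Aᶜ, ∑ b, R.ph x a b * R.f k b a = 0

section BaseF_aux

variable {I : Type} [Fintype I] [DecidableEq I]

private theorem BaseF_mn_tr (X : Matrix I I ℝ) : mn Xᵀ = mn X := by
  unfold mn
  rw [Finset.sum_comm]
  rfl

private theorem BaseF_mn_sq1 (X : Matrix I I ℝ) : mn X ^ 2 = Matrix.trace (Xᵀ * X) := by
  rw [mn_sq, Finset.sum_comm]
  unfold Matrix.trace
  simp only [diag_apply, mul_apply, transpose_apply]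
  exact Finset.sum_congr rfl fun a _ => Finset.sum_congr rfl fun b _ => by ring

/-- two-sided operator bound -/
private def BaseF_OB (F : Matrix I I ℝ) (s : ℝ) : Prop :=
  0 ≤ s ∧ ∀ X : Matrix I I ℝ, mn (X * F) ≤ s * mn X ∧ mn (F * X) ≤ s * mn X

private theorem BaseF_OB_tr {F : Matrix I I ℝ} {s : ℝ} (h : BaseF_OB F s) : BaseF_OB Fᵀ s := by
  refine ⟨h.1, fun X => ⟨?_, ?_⟩⟩
  · rw [← BaseF_mn_tr, transpose_mul, transpose_transpose, ← BaseF_mn_tr X]
    exact (h.2 _).2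
  · rw [← BaseF_mn_tr, transpose_mul, transpose_transpose, ← BaseF_mn_tr X]
    exact (h.2 _).1

private theorem BaseF_OB_of_right {F : Matrix I I ℝ} {s : ℝ} (hs : 0 ≤ s)
    (h1 : ∀ X : Matrix I I ℝ, mn (X * F) ≤ s * mn X)
    (h2 : ∀ X : Matrix I I ℝ, mn (X * Fᵀ) ≤ s * mn X) : BaseF_OB F s := by
  refine ⟨hs, fun X => ⟨h1 X, ?_⟩⟩
  rw [← BaseF_mn_tr, transpose_mul, ← BaseF_mn_tr X]
  exact h2 _

private theorem BaseF_orth_right {F : Matrix I I ℝ} (hF : Fᵀ * F = 1) (X : Matrix I I ℝ) :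
    mn (X * F) = mn X := by
  have hF' : F * Fᵀ = 1 := mul_eq_one_comm.1 hF
  have h1 : mn (X * F) ^ 2 = mn X ^ 2 := by
    rw [BaseF_mn_sq1, BaseF_mn_sq1, transpose_mul, Matrix.trace_mul_comm]
    have : X * F * (Fᵀ * Xᵀ) = X * Xᵀ := by
      rw [Matrix.mul_assoc, ← Matrix.mul_assoc F, hF', Matrix.one_mul]
    rw [this, Matrix.trace_mul_comm]
  exact (sq_eq_sq₀ (mn_nonneg _) (mn_nonneg _)).1 h1

private theorem BaseF_OB_orth {F : Matrix I I ℝ} (hF : Fᵀ * F = 1) : BaseF_OB F 1 := by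
  have hF' : F * Fᵀ = 1 := mul_eq_one_comm.1 hF
  refine BaseF_OB_of_right zero_le_one (fun X => ?_) (fun X => ?_)
  · rw [BaseF_orth_right hF, one_mul]
  · rw [BaseF_orth_right (by rw [transpose_transpose]; exact hF'), one_mul]

private theorem BaseF_OB_zero : BaseF_OB (0 : Matrix I I ℝ) 1 := by
  have h0 : mn (0 : Matrix I I ℝ) = 0 := by unfold mn; simp
  refine ⟨zero_le_one, fun X => ?_⟩
  rw [Matrix.mul_zero, Matrix.zero_mul, h0, one_mul]
  exact ⟨mn_nonneg _, mn_nonneg _⟩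

/-- block weights, not necessarily symmetric -/
private def BaseF_w4 (A : Finset I) (u r r' v : ℝ) (a b : I) : ℝ :=
  if a ∈ A then (if b ∈ A then u else r) else (if b ∈ A then r' else v)

private theorem BaseF_mn_le {X Y : Matrix I I ℝ} {K : ℝ} (hK : 0 ≤ K)
    (h : ∀ a b, |X a b| ≤ K * |Y a b|) : mn X ≤ K * mn Y := by
  unfold mn
  rw [Real.sqrt_le_left (mul_nonneg hK (Real.sqrt_nonneg _)), mul_pow,
    Real.sq_sqrt (Finset.sum_nonneg fun i _ => Finset.sum_nonneg fun j _ => sq_nonneg _),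
    Finset.mul_sum]
  refine Finset.sum_le_sum fun a _ => ?_
  rw [Finset.mul_sum]
  refine Finset.sum_le_sum fun b _ => ?_
  rw [← sq_abs (X a b), ← sq_abs (Y a b), ← mul_pow]
  exact pow_le_pow_left₀ (abs_nonneg _) (h a b) 2

private theorem BaseF_w4_right (A : Finset I) {u r r' v K : ℝ} (hu : |u| ≤ K) (hr : |r| ≤ K)
    (hr' : |r'| ≤ K) (hv : |v| ≤ K) {F : Matrix I I ℝ} {s : ℝ} (hs : 0 ≤ s)
    (h : ∀ X : Matrix I I ℝ, mn (X * F) ≤ s * mn X) (X : Matrix I I ℝ) :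
    mn (X * of fun a b => BaseF_w4 A u r r' v a b * F a b) ≤ 2 * K * s * mn X := by
  have hK : 0 ≤ K := (abs_nonneg _).trans hu
  obtain ⟨XA, hXA⟩ : ∃ XA : Matrix I I ℝ, XA = of fun i a => X i a * (if a ∈ A then u else r') :=
    ⟨_, rfl⟩
  obtain ⟨XB, hXB⟩ : ∃ XB : Matrix I I ℝ, XB = of fun i a => X i a * (if a ∈ A then r else v) :=
    ⟨_, rfl⟩
  have hA : mn XA ≤ K * mn X := by
    refine BaseF_mn_le hK fun a b => ?_
    rw [hXA, of_apply, abs_mul, mul_comm]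
    refine mul_le_mul_of_nonneg_right ?_ (abs_nonneg _)
    split_ifs <;> assumption
  have hB : mn XB ≤ K * mn X := by
    refine BaseF_mn_le hK fun a b => ?_
    rw [hXB, of_apply, abs_mul, mul_comm]
    refine mul_le_mul_of_nonneg_right ?_ (abs_nonneg _)
    split_ifs <;> assumption
  obtain ⟨YA, hYA⟩ : ∃ YA : Matrix I I ℝ, YA = of fun i j => if j ∈ A then (XA * F) i j else 0 :=
    ⟨_, rfl⟩
  obtain ⟨YB, hYB⟩ : ∃ YB : Matrix I I ℝ, YB = of fun i j => if j ∈ A then 0 else (XB * F) i j :=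
    ⟨_, rfl⟩
  have e : (X * of fun a b => BaseF_w4 A u r r' v a b * F a b) = YA + YB := by
    ext i j
    rw [Matrix.add_apply, hYA, hYB, of_apply, of_apply, mul_apply]
    by_cases hj : j ∈ A
    · rw [if_pos hj, if_pos hj, add_zero, mul_apply]
      refine Finset.sum_congr rfl fun a _ => ?_
      rw [of_apply, hXA, of_apply]
      unfold BaseF_w4
      rw [if_pos hj, if_pos hj]
      ring
    · rw [if_neg hj, if_neg hj, zero_add, mul_apply]
      refine Finset.sum_congr rfl fun a _ => ?_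
      rw [of_apply, hXB, of_apply]
      unfold BaseF_w4
      rw [if_neg hj, if_neg hj]
      ring
  have h1 : mn YA ≤ mn (XA * F) := by
    have := BaseF_mn_le (X := YA) (Y := XA * F) zero_le_one (fun a b => by
      rw [hYA, of_apply, one_mul]
      split_ifs
      · exact le_rfl
      · rw [abs_zero]; exact abs_nonneg _)
    rwa [one_mul] at this
  have h2 : mn YB ≤ mn (XB * F) := by
    have := BaseF_mn_le (X := YB) (Y := XB * F) zero_le_one (fun a b => by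
      rw [hYB, of_apply, one_mul]
      split_ifs
      · rw [abs_zero]; exact abs_nonneg _
      · exact le_rfl)
    rwa [one_mul] at this
  rw [e]
  have h3 := mn_add YA YB
  have h4 := h XA
  have h5 := h XB
  have h6 : s * mn XA ≤ s * (K * mn X) := mul_le_mul_of_nonneg_left hA hs
  have h7 : s * mn XB ≤ s * (K * mn X) := mul_le_mul_of_nonneg_left hB hs
  nlinarith

private theorem BaseF_OB_w4 (A : Finset I) {u r r' v K : ℝ} (hu : |u| ≤ K) (hr : |r| ≤ K)
    (hr' : |r'| ≤ K) (hv : |v| ≤ K) {F : Matrix I I ℝ} {s : ℝ} (h : BaseF_OB F s) :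
    BaseF_OB (of fun a b => BaseF_w4 A u r r' v a b * F a b) (2 * K * s) := by
  have hK : 0 ≤ K := (abs_nonneg _).trans hu
  refine BaseF_OB_of_right (mul_nonneg (by linarith) h.1)
    (BaseF_w4_right A hu hr hr' hv h.1 fun X => (h.2 X).1) ?_
  have e : (of fun a b => BaseF_w4 A u r r' v a b * F a b)ᵀ =
      of fun a b => BaseF_w4 A u r' r v a b * Fᵀ a b := by
    ext i j
    rw [transpose_apply, of_apply, of_apply, transpose_apply]
    unfold BaseF_w4
    split_ifs <;> rfl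
  rw [e]
  exact BaseF_w4_right A hu hr' hr hv h.1 fun X => ((BaseF_OB_tr h).2 X).1

private theorem BaseF_OB_wt (A : Finset I) {u v t K : ℝ} (hu : |u| ≤ K) (hv : |v| ≤ K)
    (ht : |t| ≤ K) {F : Matrix I I ℝ} {s : ℝ} (h : BaseF_OB F s) :
    BaseF_OB (of fun a b => wt A u v t a b * F a b) (2 * K * s) :=
  BaseF_OB_w4 A hu ht ht hv h

/-- the weighted pairing -/
private theorem BaseF_pair {w : I → I → ℝ} {K : ℝ} (hK : 0 ≤ K) (hw : ∀ a b, |w a b| ≤ K)
    (X Y : Matrix I I ℝ) : |∑ i, ∑ j, w i j * (X i j * Y i j)| ≤ K * (mn X * mn Y) := by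
  have h1 := cs_mat (of fun i j => w i j * X i j) Y
  have h2 : mn (of fun i j => w i j * X i j) ≤ K * mn X := by
    refine BaseF_mn_le hK fun a b => ?_
    rw [of_apply, abs_mul]
    exact mul_le_mul_of_nonneg_right (hw a b) (abs_nonneg _)
  have h3 : ∑ i, ∑ j, w i j * (X i j * Y i j) =
      ∑ i, ∑ j, (of fun i j => w i j * X i j) i j * Y i j :=
    Finset.sum_congr rfl fun i _ => Finset.sum_congr rfl fun j _ => by rw [of_apply]; ring
  rw [h3]
  refine h1.trans ?_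
  have h4 := mul_le_mul_of_nonneg_right h2 (mn_nonneg Y)
  linarith

private theorem BaseF_pair2 {w : I → I → ℝ} {K : ℝ} (hK : 0 ≤ K) (hw : ∀ a b, |w a b| ≤ K)
    {X Y Z : Matrix I I ℝ} {s s' : ℝ} (hs : 0 ≤ s) (hX : mn X ≤ s * mn Z)
    (hY : mn Y ≤ s' * mn Z) :
    |∑ i, ∑ j, w i j * (X i j * Y i j)| ≤ K * s * s' * mn Z ^ 2 := by
  refine (BaseF_pair hK hw X Y).trans ?_
  have h1 : mn X * mn Y ≤ (s * mn Z) * (s' * mn Z) :=
    mul_le_mul hX hY (mn_nonneg _) (mul_nonneg hs (mn_nonneg _))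
  have h2 := mul_le_mul_of_nonneg_left h1 hK
  refine h2.trans (le_of_eq ?_)
  ring

/-! ### Permutations of fourfold sums -/

private theorem BaseF_perm1 (F : I → I → I → I → ℝ) :
    ∑ a, ∑ b, ∑ c, ∑ d, F a b c d = ∑ a, ∑ d, ∑ b, ∑ c, F a b c d := by
  refine Finset.sum_congr rfl fun a _ => ?_
  have h1 : ∀ b, ∑ c, ∑ d, F a b c d = ∑ d, ∑ c, F a b c d := fun b => Finset.sum_comm
  simp only [h1]
  exact Finset.sum_comm

private theorem BaseF_perm2 (F : I → I → I → I → ℝ) :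
    ∑ a, ∑ b, ∑ c, ∑ d, F a b c d = ∑ b, ∑ d, ∑ a, ∑ c, F a b c d := by
  rw [Finset.sum_comm]
  exact BaseF_perm1 (fun b a c d => F a b c d)

private theorem BaseF_perm3 (F : I → I → I → I → ℝ) :
    ∑ a, ∑ b, ∑ c, ∑ d, F a b c d = ∑ a, ∑ c, ∑ b, ∑ d, F a b c d :=
  Finset.sum_congr rfl fun _ _ => Finset.sum_comm

/-! ### The slow and the fast part as linear functions of the tensor -/

private noncomputable def BaseF_SL (w : I → I → ℝ) (Z : Matrix I I ℝ) : (I → I → I → I → ℝ) →ₗ[ℝ] ℝ where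
  toFun t := SLb w t Z Z
  map_add' t t' := by
    unfold SLb
    simp only [Pi.add_apply, mul_add, Finset.sum_add_distrib]
  map_smul' r t := by
    unfold SLb
    simp only [Pi.smul_apply, smul_eq_mul, Finset.mul_sum, RingHom.id_apply]
    refine Finset.sum_congr rfl fun c _ => Finset.sum_congr rfl fun a _ =>
      Finset.sum_congr rfl fun d _ => Finset.sum_congr rfl fun b _ => ?_
    ring

private noncomputable def BaseF_FA (w : I → I → ℝ) (Z : Matrix I I ℝ) : (I → I → I → I → ℝ) →ₗ[ℝ] ℝ where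
  toFun t := FAb w t Z Z
  map_add' t t' := by
    unfold FAb
    simp only [Pi.add_apply, mul_add, Finset.sum_add_distrib]
  map_smul' r t := by
    unfold FAb
    simp only [Pi.smul_apply, smul_eq_mul, Finset.mul_sum, RingHom.id_apply]
    refine Finset.sum_congr rfl fun c _ => Finset.sum_congr rfl fun a _ =>
      Finset.sum_congr rfl fun d _ => Finset.sum_congr rfl fun b _ => ?_
    ring

private theorem BaseF_SL_apply (w : I → I → ℝ) (Z : Matrix I I ℝ) (t : I → I → I → I → ℝ) :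
    BaseF_SL w Z t = SLb w t Z Z := rfl

private theorem BaseF_FA_apply (w : I → I → ℝ) (Z : Matrix I I ℝ) (t : I → I → I → I → ℝ) :
    BaseF_FA w Z t = FAb w t Z Z := rfl

/-- the tensors which occur -/
private def BaseF_T1 (w' : I → I → ℝ) (F : Matrix I I ℝ) (a b c d : I) : ℝ :=
  w' a b * (F c a * F d b)

private def BaseF_T2 (w' : I → I → ℝ) (F : Matrix I I ℝ) (a b c d : I) : ℝ :=
  w' a b * (F c b * F d a)

private def BaseF_TJ (w' : I → I → ℝ) (F : Matrix I I ℝ) (a b c d : I) : ℝ :=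
  w' a b * (F a b * F c d)

private theorem BaseF_slow (A : Finset I) {u v t K K' : ℝ} {w : I → I → ℝ} (hK : 0 ≤ K)
    (hw : ∀ a b, |w a b| ≤ K) (hu : |u| ≤ K') (hv : |v| ≤ K') (ht : |t| ≤ K')
    {F G : Matrix I I ℝ} {s s' : ℝ} (hF : BaseF_OB F s) (hG : BaseF_OB G s')
    (Z : Matrix I I ℝ) :
    |2 * ∑ c, ∑ a, ∑ d, Z c a * Z c d * ∑ b, w c b * (wt A u v t a b * (F a b * G d b))| ≤
      4 * K * K' * s * s' * mn Z ^ 2 := by
  have hK' : 0 ≤ K' := (abs_nonneg _).trans hu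
  obtain ⟨F', hF'⟩ : ∃ F' : Matrix I I ℝ, F' = of fun a b => wt A u v t a b * F a b := ⟨_, rfl⟩
  have h1 : BaseF_OB F' (2 * K' * s) := by rw [hF']; exact BaseF_OB_wt A hu hv ht hF
  have h2 : ∑ c, ∑ a, ∑ d, Z c a * Z c d * ∑ b, w c b * (wt A u v t a b * (F a b * G d b)) =
      ∑ c, ∑ b, w c b * ((Z * F') c b * (Z * G) c b) := by
    refine Finset.sum_congr rfl fun c _ => ?_
    simp only [Finset.mul_sum, mul_apply, Finset.sum_mul]
    have h3 : ∀ a, ∑ d, ∑ b, Z c a * Z c d * (w c b * (wt A u v t a b * (F a b * G d b))) =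
        ∑ b, ∑ d, Z c a * Z c d * (w c b * (wt A u v t a b * (F a b * G d b))) :=
      fun a => Finset.sum_comm
    simp only [h3]
    rw [Finset.sum_comm]
    refine Finset.sum_congr rfl fun b _ => ?_
    rw [Finset.sum_comm]
    refine Finset.sum_congr rfl fun d _ => Finset.sum_congr rfl fun a _ => ?_
    rw [hF', of_apply]
    ring
  rw [h2, abs_mul, abs_two]
  have h4 := BaseF_pair2 hK hw (X := Z * F') (Y := Z * G) (Z := Z) h1.1 (h1.2 Z).1 (hG.2 Z).1
  nlinarith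

private theorem BaseF_fast1 (A : Finset I) {u v t K K' : ℝ} {w' : I → I → ℝ} (hK' : 0 ≤ K')
    (hw' : ∀ a b, |w' a b| ≤ K') (hu : |u| ≤ K) (hv : |v| ≤ K) (ht : |t| ≤ K)
    {F : Matrix I I ℝ} {s : ℝ} (hF : BaseF_OB F s) (Z : Matrix I I ℝ) :
    |FAb (wt A u v t) (BaseF_T2 w' F) Z Z| ≤ 4 * K * K' * s * s * mn Z ^ 2 := by
  obtain ⟨F', hF'⟩ : ∃ F' : Matrix I I ℝ, F' = of fun a b => wt A u v t a b * F a b := ⟨_, rfl⟩
  have h1 : BaseF_OB F' (2 * K * s) := by rw [hF']; exact BaseF_OB_wt A hu hv ht hF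
  have h1t := BaseF_OB_tr h1
  have hFt := BaseF_OB_tr hF
  have h2 : FAb (wt A u v t) (BaseF_T2 w' F) Z Z =
      ∑ a, ∑ d, w' a d * ((Z * F') a d * (Fᵀ * Z) a d) +
        ∑ a, ∑ d, w' a d * ((Z * F) a d * (F'ᵀ * Z) a d) := by
    unfold FAb
    rw [BaseF_perm1, ← Finset.sum_add_distrib]
    refine Finset.sum_congr rfl fun a _ => ?_
    rw [← Finset.sum_add_distrib]
    refine Finset.sum_congr rfl fun d _ => ?_
    simp only [mul_apply, Finset.mul_sum, Finset.sum_mul, transpose_apply]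
    rw [Finset.sum_comm, ← Finset.sum_add_distrib]
    refine Finset.sum_congr rfl fun c _ => ?_
    rw [← Finset.sum_add_distrib]
    refine Finset.sum_congr rfl fun b _ => ?_
    rw [hF', of_apply, of_apply, wt_symm A u v t c a]
    unfold BaseF_T2
    ring
  rw [h2]
  have h3 := BaseF_pair2 hK' hw' (X := Z * F') (Y := Fᵀ * Z) (Z := Z) h1.1 (h1.2 Z).1 (hFt.2 Z).2
  have h4 := BaseF_pair2 hK' hw' (X := Z * F) (Y := F'ᵀ * Z) (Z := Z) hF.1 (hF.2 Z).1 (h1t.2 Z).2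
  refine (abs_add_le _ _).trans ?_
  nlinarith

private theorem BaseF_fast2 (A : Finset I) {u v t K K' : ℝ} {w : I → I → ℝ} (hK : 0 ≤ K)
    (hw : ∀ a b, |w a b| ≤ K) (hu : |u| ≤ K') (hv : |v| ≤ K') (ht : |t| ≤ K')
    {F : Matrix I I ℝ} {s : ℝ} (hF : BaseF_OB F s) (Z : Matrix I I ℝ) :
    |FAb w (BaseF_TJ (wt A u v t) F) Z Z| ≤ 4 * K * K' * s * s * mn Z ^ 2 := by
  obtain ⟨F', hF'⟩ : ∃ F' : Matrix I I ℝ, F' = of fun a b => wt A u v t a b * F a b := ⟨_, rfl⟩
  have h1 : BaseF_OB F' (2 * K' * s) := by rw [hF']; exact BaseF_OB_wt A hu hv ht hF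
  have h1t := BaseF_OB_tr h1
  have h2 : FAb w (BaseF_TJ (wt A u v t) F) Z Z =
      ∑ b, ∑ d, w b d * ((Zᵀ * F') b d * (F * Z) b d) +
        ∑ a, ∑ c, w a c * ((Z * F) a c * (F' * Zᵀ) a c) := by
    have e1 : FAb w (BaseF_TJ (wt A u v t) F) Z Z =
        ∑ a, ∑ b, ∑ c, ∑ d, w b d * (Z a b * Z c d) * BaseF_TJ (wt A u v t) F a d b c +
          ∑ a, ∑ b, ∑ c, ∑ d, w a c * (Z a b * Z c d) * BaseF_TJ (wt A u v t) F a d b c := by
      unfold FAb
      simp only [← Finset.sum_add_distrib]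
      refine Finset.sum_congr rfl fun a _ => Finset.sum_congr rfl fun b _ =>
        Finset.sum_congr rfl fun c _ => Finset.sum_congr rfl fun d _ => ?_
      ring
    rw [e1]
    congr 1
    · rw [BaseF_perm2]
      refine Finset.sum_congr rfl fun b _ => Finset.sum_congr rfl fun d _ => ?_
      simp only [mul_apply, Finset.mul_sum, Finset.sum_mul, transpose_apply]
      rw [Finset.sum_comm]
      refine Finset.sum_congr rfl fun c _ => Finset.sum_congr rfl fun a _ => ?_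
      rw [hF', of_apply]
      unfold BaseF_TJ
      ring
    · rw [BaseF_perm3]
      refine Finset.sum_congr rfl fun a _ => Finset.sum_congr rfl fun c _ => ?_
      simp only [mul_apply, Finset.mul_sum, Finset.sum_mul, transpose_apply]
      rw [Finset.sum_comm]
      refine Finset.sum_congr rfl fun d _ => Finset.sum_congr rfl fun b _ => ?_
      rw [hF', of_apply]
      unfold BaseF_TJ
      ring
  rw [h2]
  have h3 := BaseF_pair2 hK hw (X := Zᵀ * F') (Y := F * Z) (Z := Z) h1.1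
    (by rw [← BaseF_mn_tr Z]; exact (h1.2 Zᵀ).1) (hF.2 Z).2
  have h4 := BaseF_pair2 hK hw (X := Z * F) (Y := F' * Zᵀ) (Z := Z) hF.1 (hF.2 Z).1
    (by rw [← BaseF_mn_tr Z]; exact (h1.2 Zᵀ).2)
  refine (abs_add_le _ _).trans ?_
  nlinarith

private theorem BaseF_slow_T2 (A : Finset I) {u v t K K' : ℝ} {w : I → I → ℝ} (hK : 0 ≤ K)
    (hw : ∀ a b, |w a b| ≤ K) (hu : |u| ≤ K') (hv : |v| ≤ K') (ht : |t| ≤ K')
    {F : Matrix I I ℝ} {s : ℝ} (hF : BaseF_OB F s) (Z : Matrix I I ℝ) :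
    |SLb w (BaseF_T2 (wt A u v t) F) Z Z| ≤ 4 * K * K' * s * s * mn Z ^ 2 := by
  have h := BaseF_slow A hK hw hu hv ht (BaseF_OB_tr hF) hF Z
  have e : SLb w (BaseF_T2 (wt A u v t) F) Z Z = 2 * ∑ c, ∑ a, ∑ d, Z c a * Z c d *
      ∑ b, w c b * (wt A u v t a b * (Fᵀ a b * F d b)) := by
    unfold SLb BaseF_T2
    congr 1
    refine Finset.sum_congr rfl fun c _ => Finset.sum_congr rfl fun a _ =>
      Finset.sum_congr rfl fun d _ => ?_
    congr 1
    refine Finset.sum_congr rfl fun b _ => ?_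
    rw [transpose_apply]
    ring
  rw [e]
  exact h

private theorem BaseF_slow_TJ (A : Finset I) {u v t K K' : ℝ} {w : I → I → ℝ} (hK : 0 ≤ K)
    (hw : ∀ a b, |w a b| ≤ K) (hu : |u| ≤ K') (hv : |v| ≤ K') (ht : |t| ≤ K')
    {F : Matrix I I ℝ} {s : ℝ} (hF : BaseF_OB F s) (Z : Matrix I I ℝ) :
    |SLb w (BaseF_TJ (wt A u v t) F) Z Z| ≤ 4 * K * K' * s * s * mn Z ^ 2 :=
  BaseF_slow A hK hw hu hv ht hF hF Z

/-- the slow part of the first tensor for the identity matrix -/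
private theorem BaseF_slow_one (A : Finset I) (p1 p2 y1 y2 : ℝ) (Z : Matrix I I ℝ) :
    SLb (wt A p1 p2 1) (BaseF_T1 (wt A y1 y2 1) 1) Z Z = 2 * ∑ i, ∑ a, Z i a ^ 2 *
      ((A.card : ℝ) * ((if i ∈ A then p1 else 1) * (if a ∈ A then y1 else 1)) +
        (Aᶜ.card : ℝ) * ((if i ∈ A then 1 else p2) * (if a ∈ A then 1 else y2))) := by
  unfold SLb BaseF_T1
  congr 1
  refine Finset.sum_congr rfl fun c _ => Finset.sum_congr rfl fun a _ => ?_
  rw [Finset.sum_eq_single a]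
  · have h1 : ∀ b, wt A p1 p2 1 c b * (wt A y1 y2 1 a b * ((1 : Matrix I I ℝ) a a *
        (1 : Matrix I I ℝ) b b)) = wt A p1 p2 1 c b * wt A y1 y2 1 a b := by
      intro b
      rw [one_apply_eq, one_apply_eq, mul_one, mul_one]
    rw [Finset.sum_congr rfl fun b _ => h1 b, ← Finset.sum_add_sum_compl A]
    have h2 : ∑ b ∈ A, wt A p1 p2 1 c b * wt A y1 y2 1 a b =
        (A.card : ℝ) * ((if c ∈ A then p1 else 1) * (if a ∈ A then y1 else 1)) := by
      rw [← nsmul_eq_mul, ← Finset.sum_const]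
      refine Finset.sum_congr rfl fun b hb => ?_
      unfold wt
      simp only [if_pos hb]
    have h3 : ∑ b ∈ Aᶜ, wt A p1 p2 1 c b * wt A y1 y2 1 a b =
        (Aᶜ.card : ℝ) * ((if c ∈ A then 1 else p2) * (if a ∈ A then 1 else y2)) := by
      rw [← nsmul_eq_mul, ← Finset.sum_const]
      refine Finset.sum_congr rfl fun b hb => ?_
      unfold wt
      simp only [if_neg (Finset.mem_compl.1 hb)]
    rw [h2, h3]
    ring
  · intro d _ hd
    have h1 : ∀ b, wt A p1 p2 1 c b * (wt A y1 y2 1 a b * ((1 : Matrix I I ℝ) d a *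
        (1 : Matrix I I ℝ) b b)) = 0 := by
      intro b
      rw [one_apply_ne hd]
      ring
    rw [Finset.sum_congr rfl fun b _ => h1 b, Finset.sum_const_zero, mul_zero]
  · intro h; exact absurd (Finset.mem_univ _) h

private theorem BaseF_fast_one {w w' : I → I → ℝ} {Z : Matrix I I ℝ} (hZ : ∀ a, Z a a = 0) :
    FAb w (BaseF_T1 w' 1) Z Z = 0 := by
  unfold FAb BaseF_T1
  refine Finset.sum_eq_zero fun a _ => Finset.sum_eq_zero fun b _ =>
    Finset.sum_eq_zero fun c _ => Finset.sum_eq_zero fun d _ => ?_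
  by_cases h : b = a
  · rw [h, hZ]
    ring
  · rw [one_apply_ne h]
    ring

private theorem BaseF_slow_zero {w w' : I → I → ℝ} {Z F : Matrix I I ℝ} (hF : ∀ a, F a a = 0) :
    SLb w (BaseF_T1 w' F) Z Z = 0 := by
  unfold SLb BaseF_T1
  rw [mul_eq_zero]
  right
  refine Finset.sum_eq_zero fun c _ => Finset.sum_eq_zero fun a _ =>
    Finset.sum_eq_zero fun d _ => ?_
  rw [Finset.sum_eq_zero fun b _ => ?_, mul_zero]
  rw [hF b]
  ring

/-- the dangerous term vanishes -/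
private theorem BaseF_fast_zero (A : Finset I) {w w' : I → I → ℝ} {Z F : Matrix I I ℝ}
    {r r' : I → ℝ}
    (hr : ∀ a b c d, (w b d + w a c) * w' a d * (F b a * F c d) =
      (if a ∈ A then r c else r' c) * (F b a * F c d))
    (h1 : ∑ a ∈ A, ∑ b, Z a b * F b a = 0) (h2 : ∑ a ∈ Aᶜ, ∑ b, Z a b * F b a = 0) :
    FAb w (BaseF_T1 w' F) Z Z = 0 := by
  have e : FAb w (BaseF_T1 w' F) Z Z =
      ∑ c, ∑ d, Z c d * F c d * ∑ a, (if a ∈ A then r c else r' c) * ∑ b, Z a b * F b a := by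
    unfold FAb BaseF_T1
    have p : ∀ G : I → I → I → I → ℝ, ∑ a, ∑ b, ∑ c, ∑ d, G a b c d =
        ∑ c, ∑ d, ∑ a, ∑ b, G a b c d := by
      intro G
      have h3 : ∀ a, ∑ b, ∑ c, ∑ d, G a b c d = ∑ c, ∑ d, ∑ b, G a b c d := by
        intro a
        rw [Finset.sum_comm]
        exact Finset.sum_congr rfl fun c _ => Finset.sum_comm
      simp only [h3]
      rw [Finset.sum_comm]
      exact Finset.sum_congr rfl fun c _ => Finset.sum_comm
    rw [p]
    refine Finset.sum_congr rfl fun c _ => Finset.sum_congr rfl fun d _ => ?_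
    simp only [Finset.mul_sum]
    refine Finset.sum_congr rfl fun a _ => Finset.sum_congr rfl fun b _ => ?_
    have := hr a b c d
    calc (w b d + w a c) * (Z a b * Z c d) * (w' a d * (F b a * F c d))
        = (Z a b * Z c d) * ((w b d + w a c) * w' a d * (F b a * F c d)) := by ring
      _ = _ := by rw [this]; ring
  have h3 : ∀ c, ∑ a, (if a ∈ A then r c else r' c) * ∑ b, Z a b * F b a = 0 := by
    intro c
    rw [← Finset.sum_add_sum_compl A]
    have h4 : ∑ a ∈ A, (if a ∈ A then r c else r' c) * ∑ b, Z a b * F b a =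
        r c * ∑ a ∈ A, ∑ b, Z a b * F b a := by
      rw [Finset.mul_sum]
      refine Finset.sum_congr rfl fun a ha => ?_
      rw [if_pos ha]
    have h5 : ∑ a ∈ Aᶜ, (if a ∈ A then r c else r' c) * ∑ b, Z a b * F b a =
        r' c * ∑ a ∈ Aᶜ, ∑ b, Z a b * F b a := by
      rw [Finset.mul_sum]
      refine Finset.sum_congr rfl fun a ha => ?_
      rw [if_neg (Finset.mem_compl.1 ha)]
    rw [h4, h5, h1, h2, mul_zero, mul_zero, add_zero]
  rw [e]
  refine Finset.sum_eq_zero fun c _ => Finset.sum_eq_zero fun d _ => ?_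
  rw [h3 c, mul_zero]

end BaseF_aux

section BaseF_lie

variable {L : Type} [LieRing L] [LieAlgebra ℝ L] {I : Type} [Fintype I] [DecidableEq I] {m : ℕ}

private theorem BaseF_ph_e (R : Rp L I m) (a b c d : I) : R.ph (R.e a b) c d =
    (1 / (2 * ((m : ℝ) + 1))) * (((1 : Matrix I I ℝ) c a * (1 : Matrix I I ℝ) d b -
      (1 : Matrix I I ℝ) c b * (1 : Matrix I I ℝ) d a) +
      ∑ k, (R.f k c a * R.f k d b - R.f k c b * R.f k d a)) -
      1 / (Fintype.card I : ℝ) * (R.J a b * R.J c d) := by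
  rw [R.ker, Matrix.sub_apply, Matrix.smul_apply, Matrix.smul_apply, Matrix.add_apply,
    Matrix.sub_apply, Matrix.sum_apply, smul_eq_mul, smul_eq_mul]
  have h1 : ∀ x y : I, Matrix.single x y (1 : ℝ) c d =
      (1 : Matrix I I ℝ) c x * (1 : Matrix I I ℝ) d y := by
    intro x y
    rw [Matrix.single_apply, Matrix.one_apply, Matrix.one_apply]
    by_cases h1 : x = c
    · by_cases h2 : y = d
      · rw [if_pos ⟨h1, h2⟩, if_pos h1.symm, if_pos h2.symm, one_mul]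
      · rw [if_neg (fun h => h2 h.2), if_pos h1.symm, if_neg (fun h => h2 h.symm), mul_zero]
    · rw [if_neg (fun h => h1 h.1), if_neg (fun h => h1 h.symm), zero_mul]
  have h2 : ∀ k, ((R.f k * (Matrix.single a b (1 : ℝ) - Matrix.single b a 1) * (R.f k)ᵀ :
      Matrix I I ℝ) c d) = R.f k c a * R.f k d b - R.f k c b * R.f k d a := by
    intro k
    have h3 : ∀ x y : I, ((R.f k * Matrix.single x y (1 : ℝ) * (R.f k)ᵀ : Matrix I I ℝ) c d) =
        R.f k c x * R.f k d y := by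
      intro x y
      rw [Matrix.mul_assoc, Matrix.mul_apply, Finset.sum_eq_single x]
      · rw [Matrix.mul_apply, Finset.sum_eq_single y]
        · rw [Matrix.single_apply_same, transpose_apply, one_mul]
        · intro j _ hj
          rw [Matrix.single_apply_of_ne _ _ _ _ _ (fun h => hj h.2.symm), zero_mul]
        · intro h; exact absurd (Finset.mem_univ _) h
      · intro j _ hj
        rw [Matrix.mul_apply, Finset.sum_eq_zero, mul_zero]
        intro l _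
        rw [Matrix.single_apply_of_ne _ _ _ _ _ (fun h => hj h.1.symm), zero_mul]
      · intro h; exact absurd (Finset.mem_univ _) h
    rw [Matrix.mul_sub, Matrix.sub_mul, Matrix.sub_apply, h3, h3]
  rw [h1 a b, h1 b a, Finset.sum_congr rfl fun k _ => h2 k]
  ring

/-- the tensor of `S` -/
private theorem BaseF_tn {R : Rp L I m} {A : Finset I} {x1 x2 z : ℝ} {S T Pp : L →ₗ[ℝ] L} {c : L}
    {J0 : Matrix I I ℝ} {g1 g2 : ℝ} (h : Spl R A x1 x2 z S T Pp c J0 g1 g2) :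
    R.tn S = (1 / (2 * ((m : ℝ) + 1))) •
      ((BaseF_T1 (wt A (1 / x1) (1 / x2) 1) 1 - BaseF_T2 (wt A (1 / x1) (1 / x2) 1) 1) +
        ∑ k, (BaseF_T1 (wt A (1 / x1) (1 / x2) 1) (R.f k) -
          BaseF_T2 (wt A (1 / x1) (1 / x2) 1) (R.f k))) -
      (1 / (Fintype.card I : ℝ)) • BaseF_TJ (wt A (1 / x1) (1 / x2) 1) R.J +
      R.n • BaseF_TJ (wt A (1 / z - 1 / x1) (1 / z - 1 / x2) (1 / z - 1)) (R.ph c) := by
  funext a b c' d
  have e1 : R.tn S a b c' d = wt A (1 / x1) (1 / x2) 1 a b * R.ph (R.e a b) c' d +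
      ((1 / z - wt A (1 / x1) (1 / x2) 1 a b) * (R.n * R.ph c a b)) * R.ph c c' d := by
    unfold Rp.tn
    rw [h.se, map_add, map_smul, map_smul, Matrix.add_apply, Matrix.smul_apply, Matrix.smul_apply,
      smul_eq_mul, smul_eq_mul]
  have e2 : 1 / z - wt A (1 / x1) (1 / x2) 1 a b =
      wt A (1 / z - 1 / x1) (1 / z - 1 / x2) (1 / z - 1) a b := by
    unfold wt
    split_ifs <;> rfl
  rw [e1, e2, BaseF_ph_e]
  simp only [Pi.add_apply, Pi.sub_apply, Pi.smul_apply, Finset.sum_apply, smul_eq_mul]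
  unfold BaseF_T1 BaseF_T2 BaseF_TJ
  have e3 : ∑ k, (wt A (1 / x1) (1 / x2) 1 a b * (R.f k c' a * R.f k d b) -
      wt A (1 / x1) (1 / x2) 1 a b * (R.f k c' b * R.f k d a)) =
      wt A (1 / x1) (1 / x2) 1 a b * ∑ k, (R.f k c' a * R.f k d b - R.f k c' b * R.f k d a) := by
    rw [Finset.mul_sum]
    exact Finset.sum_congr rfl fun k _ => by ring
  rw [e3]
  ring

/-- `ph c` is small. -/
private theorem BaseF_pc {R : Rp L I m} {A : Finset I} {x1 x2 z : ℝ} {S T Pp : L →ₗ[ℝ] L} {c : L}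
    {J0 : Matrix I I ℝ} {g1 g2 c0 : ℝ} (h : Spl R A x1 x2 z S T Pp c J0 g1 g2)
    (hb : Bnd I m A x1 x2 z c0) : ∃ s : ℝ, BaseF_OB (R.ph c) s ∧ R.n * s * s ≤ 4 * c0 := by
  have hM : 0 < (Fintype.card I : ℝ) := by
    have := hb.M1
    have : (0 : ℝ) < 4 * ((m : ℝ) + 1) := by positivity
    linarith
  have hc0 : 0 < c0 := by linarith [hb.c1]
  by_cases hc : R.ph c = 0
  · refine ⟨0, ⟨le_rfl, fun X => ?_⟩, by nlinarith⟩
    have h0 : mn (0 : Matrix I I ℝ) = 0 := by unfold mn; simp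
    rw [hc, Matrix.mul_zero, Matrix.zero_mul, h0, zero_mul]
    exact ⟨le_rfl, le_rfl⟩
  · have hJ : J0ᵀ * J0 = 1 := by
      rcases h.J0J with h0 | h0
      · exfalso
        apply hc
        ext a b
        rw [h.pc, h0]
        simp
      · exact h0
    have hcc : Qf L c c = 1 := by
      rcases h.cc with h0 | h0
      · exact h0
      · exfalso
        apply hc
        rw [h0, map_zero]
    have hJ' : J0 * J0ᵀ = 1 := mul_eq_one_comm.1 hJ
    have hrow : ∀ a, ∑ b, J0 a b ^ 2 = 1 := by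
      intro a
      have h1 := congrFun (congrFun hJ' a) a
      rw [mul_apply, one_apply_eq] at h1
      rw [← h1]
      exact Finset.sum_congr rfl fun b _ => by rw [transpose_apply]; ring
    have hq : R.n * ((A.card : ℝ) * g1 ^ 2 + (Aᶜ.card : ℝ) * g2 ^ 2) = 1 := by
      rw [← hcc, R.qf]
      congr 1
      rw [← Finset.sum_add_sum_compl A]
      congr 1
      · rw [← nsmul_eq_mul, ← Finset.sum_const]
        refine Finset.sum_congr rfl fun a ha => ?_
        rw [← mul_one (g1 ^ 2), ← hrow a, Finset.mul_sum]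
        refine Finset.sum_congr rfl fun b _ => ?_
        rw [h.pc, if_pos ha]
        ring
      · rw [← nsmul_eq_mul, ← Finset.sum_const]
        refine Finset.sum_congr rfl fun a ha => ?_
        rw [← mul_one (g2 ^ 2), ← hrow a, Finset.mul_sum]
        refine Finset.sum_congr rfl fun b _ => ?_
        rw [h.pc, if_neg (Finset.mem_compl.1 ha)]
        ring
    have hn0 := R.n0
    have hA : 0 < (A.card : ℝ) := by
      by_contra hcon
      push Not at hcon
      have := hb.Al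
      nlinarith
    have hB : 0 < (Aᶜ.card : ℝ) := by
      by_contra hcon
      push Not at hcon
      have := hb.Bl
      nlinarith
    have hM1 : (1 : ℝ) ≤ Fintype.card I := by
      have := hb.M1
      have h2 : (0 : ℝ) ≤ (m : ℝ) := Nat.cast_nonneg m
      linarith
    obtain ⟨g, hg⟩ : ∃ g, g = max |g1| |g2| := ⟨_, rfl⟩
    have hg1 : |g1| ≤ g := hg ▸ le_max_left _ _
    have hg2 : |g2| ≤ g := hg ▸ le_max_right _ _
    have hgg : R.n * g ^ 2 ≤ c0 := by
      have k1 : R.n * g1 ^ 2 ≤ c0 := by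
        have h3 : R.n * ((A.card : ℝ) * g1 ^ 2) ≤ 1 := by
          rw [← hq]
          have : 0 ≤ (Aᶜ.card : ℝ) * g2 ^ 2 := by positivity
          nlinarith
        have h4 : 1 ≤ c0 * (A.card : ℝ) := hM1.trans hb.Al
        have h5 : 0 ≤ R.n * g1 ^ 2 := by positivity
        by_contra hcon
        push Not at hcon
        nlinarith
      have k2 : R.n * g2 ^ 2 ≤ c0 := by
        have h3 : R.n * ((Aᶜ.card : ℝ) * g2 ^ 2) ≤ 1 := by
          rw [← hq]
          have : 0 ≤ (A.card : ℝ) * g1 ^ 2 := by positivity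
          nlinarith
        have h4 : 1 ≤ c0 * (Aᶜ.card : ℝ) := hM1.trans hb.Bl
        have h5 : 0 ≤ R.n * g2 ^ 2 := by positivity
        by_contra hcon
        push Not at hcon
        nlinarith
      rcases max_choice |g1| |g2| with h0 | h0
      · rw [hg, h0, sq_abs]; exact k1
      · rw [hg, h0, sq_abs]; exact k2
    have e : R.ph c = of fun a b => BaseF_w4 A g1 g1 g2 g2 a b * J0 a b := by
      ext a b
      rw [of_apply, h.pc]
      unfold BaseF_w4
      split_ifs <;> rfl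
    refine ⟨2 * g * 1, ?_, ?_⟩
    · rw [e]
      exact BaseF_OB_w4 A hg1 hg1 hg2 hg2 (BaseF_OB_orth hJ)
    · have : R.n * (2 * g * 1) * (2 * g * 1) = 4 * (R.n * g ^ 2) := by ring
      rw [this]
      linarith

end BaseF_lie

theorem fo_S (c0 : ℝ) (m : ℕ) : ∃ C : ℝ, 1 ≤ C ∧ ∀ (L : Type) [LieRing L] [LieAlgebra ℝ L]
    (I : Type) [Fintype I] [DecidableEq I] (R : Rp L I m) (A : Finset I) (x1 x2 z : ℝ)
    (S T Pp : L →ₗ[ℝ] L) (c : L) (J0 : Matrix I I ℝ) (g1 g2 : ℝ),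
    Spl R A x1 x2 z S T Pp c J0 g1 g2 → Bnd I m A x1 x2 z c0 → TrZ R A c →
    ∀ p1 p2 : ℝ, |p1| ≤ c0 → |p2| ≤ c0 → (x1 = x2 → p1 = p2) → ∀ y : L, Qf L y c = 0 →
      |R.FO A p1 p2 S y - R.n * ∑ i, ∑ a, R.ph y i a ^ 2 *
        ((A.card : ℝ) / Fintype.card I * ((if i ∈ A then p1 else 1) * (if a ∈ A then 1 / x1 else 1)) +
          (Aᶜ.card : ℝ) / Fintype.card I *
            ((if i ∈ A then 1 else p2) * (if a ∈ A then 1 else 1 / x2)))| ≤
        C / Fintype.card I * Qf L y y := by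
  obtain ⟨k0, hk0⟩ : ∃ k0 : ℝ, k0 = max c0 1 := ⟨_, rfl⟩
  have hk1 : 1 ≤ k0 := hk0 ▸ le_max_right _ _
  refine ⟨156 * k0 ^ 3 * ((m : ℝ) + 1), ?_, ?_⟩
  · have h1 : (0 : ℝ) ≤ m := Nat.cast_nonneg m
    have h2 : 1 ≤ k0 ^ 3 := one_le_pow₀ hk1
    nlinarith
  intro L _ _ I _ _ R A x1 x2 z S T Pp c J0 g1 g2 h hb hT p1 p2 hp1 hp2 hxp y hy
  have hc0 : k0 = c0 := by rw [hk0]; exact max_eq_left hb.c1
  rw [hc0] at hk1 ⊢
  have hc0' : 0 ≤ c0 := by linarith
  have hm : (0 : ℝ) ≤ m := Nat.cast_nonneg m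
  have hM1 : (1 : ℝ) ≤ Fintype.card I := by have := hb.M1; linarith
  have hM0 : (0 : ℝ) < Fintype.card I := by linarith
  have hx1 := h.x1p
  have hx2 := h.x2p
  have hz := h.zp
  -- sizes of the weights
  have inv_le : ∀ t : ℝ, 0 < t → 1 / c0 ≤ t → 1 / t ≤ c0 := by
    intro t ht h1
    rw [div_le_iff₀ (by linarith)] at h1
    rw [div_le_iff₀ ht]
    linarith
  have hi1 := inv_le x1 hx1 hb.x1l
  have hi2 := inv_le x2 hx2 hb.x2l
  have hiz := inv_le z hz hb.zl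
  have hi1' : 0 < 1 / x1 := by positivity
  have hi2' : 0 < 1 / x2 := by positivity
  have hiz' : 0 < 1 / z := by positivity
  have a1 : |1 / x1| ≤ c0 := by rw [abs_of_pos hi1']; exact hi1
  have a2 : |1 / x2| ≤ c0 := by rw [abs_of_pos hi2']; exact hi2
  have a3 : |(1 : ℝ)| ≤ c0 := by rw [abs_one]; exact hk1
  have b1 : |1 / z - 1 / x1| ≤ c0 := by rw [abs_le]; constructor <;> linarith
  have b2 : |1 / z - 1 / x2| ≤ c0 := by rw [abs_le]; constructor <;> linarith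
  have b3 : |1 / z - 1| ≤ c0 := by rw [abs_le]; constructor <;> linarith
  have hw : ∀ a b, |wt A p1 p2 1 a b| ≤ c0 := wt_le A hp1 hp2 a3
  have hw' : ∀ a b, |wt A (1 / x1) (1 / x2) 1 a b| ≤ c0 := wt_le A a1 a2 a3
  obtain ⟨Z, hZ⟩ : ∃ Z, Z = R.ph y := ⟨_, rfl⟩
  have hZd : ∀ a, Z a a = 0 := by
    intro a
    have := congrFun (congrFun (R.skew y) a) a
    rw [transpose_apply, Matrix.neg_apply, ← hZ] at this
    linarith
  -- the terms with `f`
  have hf : ∀ k, SLb (wt A p1 p2 1) (BaseF_T1 (wt A (1 / x1) (1 / x2) 1) (R.f k)) Z Z = 0 ∧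
      FAb (wt A p1 p2 1) (BaseF_T1 (wt A (1 / x1) (1 / x2) 1) (R.f k)) Z Z = 0 := by
    intro k
    obtain ⟨t1, t2⟩ := hT y hy k
    rw [← hZ] at t1 t2
    rcases h.fA k with ⟨hd, hs⟩ | ⟨hd, hxx⟩
    · constructor
      · apply BaseF_slow_zero
        intro a
        have := congrFun (congrFun hs a) a
        rw [transpose_apply, Matrix.neg_apply] at this
        linarith
      · refine BaseF_fast_zero A (r := fun c => 2 * (if c ∈ A then p1 else 1) *
          (if c ∈ A then 1 / x1 else 1)) (r' := fun c => 2 * (if c ∈ A then 1 else p2) *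
          (if c ∈ A then 1 else 1 / x2)) ?_ t1 t2
        intro a b c' d
        by_cases e1 : b ∈ A ↔ a ∈ A
        · by_cases e2 : c' ∈ A ↔ d ∈ A
          · unfold wt
            by_cases ha : a ∈ A <;> by_cases hc : c' ∈ A <;>
              simp only [ha, hc, iff_true, iff_false, true_iff, false_iff] at e1 e2 <;>
              simp only [ha, hc, e1, e2, if_true, if_false] <;> ring
          · rw [hd c' d e2]
            ring
        · rw [hd b a e1]
          ring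
    · constructor
      · apply BaseF_slow_zero
        intro a
        exact hd a a Iff.rfl
      · have hpp := hxp hxx
        refine BaseF_fast_zero A (r := fun c => 2 * (if c ∈ A then p1 else 1) *
          (if c ∈ A then 1 else 1 / x1)) (r' := fun c => 2 * (if c ∈ A then 1 else p1) *
          (if c ∈ A then 1 / x1 else 1)) ?_ t1 t2
        intro a b c' d
        by_cases e1 : b ∈ A ↔ a ∈ A
        · rw [hd b a e1]
          ring
        · by_cases e2 : c' ∈ A ↔ d ∈ A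
          · rw [hd c' d e2]
            ring
          · unfold wt
            rw [← hxx, ← hpp]
            by_cases ha : a ∈ A <;> by_cases hc : c' ∈ A <;>
              simp only [ha, hc, iff_true, iff_false, true_iff, false_iff, not_not] at e1 e2 <;>
              simp only [ha, hc, e1, e2, if_true, if_false] <;> ring
  -- the expansion
  obtain ⟨s, hs, hns⟩ := BaseF_pc h hb
  obtain ⟨Λ, hΛ⟩ : ∃ Λ, Λ = BaseF_SL (wt A p1 p2 1) Z + BaseF_FA (wt A p1 p2 1) Z := ⟨_, rfl⟩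
  have hFO : R.FO A p1 p2 S y = Λ (R.tn S) := by
    rw [hΛ, LinearMap.add_apply, BaseF_SL_apply, BaseF_FA_apply, hZ]
    rfl
  have hΛ1 : ∀ t, Λ t = SLb (wt A p1 p2 1) t Z Z + FAb (wt A p1 p2 1) t Z Z := by
    intro t
    rw [hΛ, LinearMap.add_apply, BaseF_SL_apply, BaseF_FA_apply]
  have hT1one : Λ (BaseF_T1 (wt A (1 / x1) (1 / x2) 1) 1) = 2 * ∑ i, ∑ a, Z i a ^ 2 *
      ((A.card : ℝ) * ((if i ∈ A then p1 else 1) * (if a ∈ A then 1 / x1 else 1)) +
        (Aᶜ.card : ℝ) * ((if i ∈ A then 1 else p2) * (if a ∈ A then 1 else 1 / x2))) := by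
    rw [hΛ1, BaseF_fast_one hZd, BaseF_slow_one, add_zero]
  have hT1f : ∀ k, Λ (BaseF_T1 (wt A (1 / x1) (1 / x2) 1) (R.f k)) = 0 := by
    intro k
    rw [hΛ1, (hf k).1, (hf k).2, add_zero]
  have hT2 : ∀ F : Matrix I I ℝ, BaseF_OB F 1 →
      |Λ (BaseF_T2 (wt A (1 / x1) (1 / x2) 1) F)| ≤ 8 * c0 ^ 2 * mn Z ^ 2 := by
    intro F hF
    rw [hΛ1]
    have u1 := BaseF_slow_T2 A hc0' hw a1 a2 a3 hF Z
    have u2 := BaseF_fast1 A hc0' hw' hp1 hp2 a3 hF Z
    refine (abs_add_le _ _).trans ?_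
    nlinarith
  have hTJ : ∀ (F : Matrix I I ℝ) (s u v t : ℝ), BaseF_OB F s → |u| ≤ c0 → |v| ≤ c0 → |t| ≤ c0 →
      |Λ (BaseF_TJ (wt A u v t) F)| ≤ 8 * c0 ^ 2 * (s * s) * mn Z ^ 2 := by
    intro F s u v t hF hu hv ht
    rw [hΛ1]
    have u1 := BaseF_slow_TJ A hc0' hw hu hv ht hF Z
    have u2 := BaseF_fast2 A hc0' hw hu hv ht hF Z
    refine (abs_add_le _ _).trans ?_
    nlinarith
  have hOJ : BaseF_OB R.J 1 := by
    rcases R.JJ with h0 | h0
    · rw [h0]; exact BaseF_OB_zero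
    · exact BaseF_OB_orth h0
  have hO1 : BaseF_OB (1 : Matrix I I ℝ) 1 := BaseF_OB_orth (by simp)
  obtain ⟨q, hq⟩ : ∃ q : ℝ, q = 1 / (2 * ((m : ℝ) + 1)) := ⟨_, rfl⟩
  have hq0 : 0 < q := by rw [hq]; positivity
  have hqm : q * ((m : ℝ) + 1) = 1 / 2 := by rw [hq]; field_simp
  obtain ⟨Mn, hMn⟩ : ∃ Mn : ℝ, Mn = Fintype.card I := ⟨_, rfl⟩
  obtain ⟨W, hW⟩ : ∃ W : ℝ, W = ∑ i, ∑ a, Z i a ^ 2 *
      ((A.card : ℝ) * ((if i ∈ A then p1 else 1) * (if a ∈ A then 1 / x1 else 1)) +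
        (Aᶜ.card : ℝ) * ((if i ∈ A then 1 else p2) * (if a ∈ A then 1 else 1 / x2))) := ⟨_, rfl⟩
  rw [← hW] at hT1one
  have hWmain : ∑ i, ∑ a, R.ph y i a ^ 2 *
        ((A.card : ℝ) / Fintype.card I * ((if i ∈ A then p1 else 1) * (if a ∈ A then 1 / x1 else 1)) +
          (Aᶜ.card : ℝ) / Fintype.card I *
            ((if i ∈ A then 1 else p2) * (if a ∈ A then 1 else 1 / x2))) =
      W / Fintype.card I := by
    rw [hW, Finset.sum_div]
    refine Finset.sum_congr rfl fun i _ => ?_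
    rw [Finset.sum_div]
    refine Finset.sum_congr rfl fun a _ => ?_
    rw [← hZ]
    ring
  -- the size of `W`
  have hcard : (A.card : ℝ) + (Aᶜ.card : ℝ) = Fintype.card I := by
    rw [← Nat.cast_add, Finset.card_add_card_compl]
  have hWb : |W| ≤ Fintype.card I * c0 ^ 2 * mn Z ^ 2 := by
    rw [hW, mn_sq, Finset.mul_sum]
    refine (Finset.abs_sum_le_sum_abs _ _).trans (Finset.sum_le_sum fun i _ => ?_)
    rw [Finset.mul_sum]
    refine (Finset.abs_sum_le_sum_abs _ _).trans (Finset.sum_le_sum fun a _ => ?_)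
    rw [abs_mul, abs_of_nonneg (sq_nonneg _), mul_comm]
    refine mul_le_mul_of_nonneg_right ?_ (sq_nonneg _)
    have v1 : |(if i ∈ A then p1 else 1) * (if a ∈ A then 1 / x1 else 1)| ≤ c0 ^ 2 := by
      rw [abs_mul, sq]
      refine mul_le_mul ?_ ?_ (abs_nonneg _) hc0'
      · split_ifs <;> assumption
      · split_ifs <;> assumption
    have v2 : |(if i ∈ A then 1 else p2) * (if a ∈ A then 1 else 1 / x2)| ≤ c0 ^ 2 := by
      rw [abs_mul, sq]
      refine mul_le_mul ?_ ?_ (abs_nonneg _) hc0'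
      · split_ifs <;> assumption
      · split_ifs <;> assumption
    refine (abs_add_le _ _).trans ?_
    rw [abs_mul (A.card : ℝ), abs_mul (Aᶜ.card : ℝ),
      abs_of_nonneg (Nat.cast_nonneg (α := ℝ) A.card),
      abs_of_nonneg (Nat.cast_nonneg (α := ℝ) Aᶜ.card)]
    have v3 := mul_le_mul_of_nonneg_left v1 (Nat.cast_nonneg (α := ℝ) A.card)
    have v4 := mul_le_mul_of_nonneg_left v2 (Nat.cast_nonneg (α := ℝ) Aᶜ.card)
    rw [← hcard]
    linarith
  -- the expansion of `FO`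
  have hexp : R.FO A p1 p2 S y = q * ((2 * W - Λ (BaseF_T2 (wt A (1 / x1) (1 / x2) 1) 1)) +
      ∑ k, (0 - Λ (BaseF_T2 (wt A (1 / x1) (1 / x2) 1) (R.f k)))) -
      1 / (Fintype.card I : ℝ) * Λ (BaseF_TJ (wt A (1 / x1) (1 / x2) 1) R.J) +
      R.n * Λ (BaseF_TJ (wt A (1 / z - 1 / x1) (1 / z - 1 / x2) (1 / z - 1)) (R.ph c)) := by
    rw [hFO, BaseF_tn h, map_add, map_sub, map_smul, map_smul, map_smul, map_add, map_sub,
      map_sum, hT1one, smul_eq_mul, smul_eq_mul, smul_eq_mul, ← hq]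
    congr 4
    refine Finset.sum_congr rfl fun k _ => ?_
    rw [map_sub, hT1f]
  have hmn := mn_nonneg Z
  -- bounds of the parts
  have hsum : |Λ (BaseF_T2 (wt A (1 / x1) (1 / x2) 1) 1) +
      ∑ k, Λ (BaseF_T2 (wt A (1 / x1) (1 / x2) 1) (R.f k))| ≤
      ((m : ℝ) + 1) * (8 * c0 ^ 2 * mn Z ^ 2) := by
    refine (abs_add_le _ _).trans ?_
    have u1 := hT2 1 hO1
    have u2 : |∑ k, Λ (BaseF_T2 (wt A (1 / x1) (1 / x2) 1) (R.f k))| ≤
        (m : ℝ) * (8 * c0 ^ 2 * mn Z ^ 2) := by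
      refine (Finset.abs_sum_le_sum_abs _ _).trans ?_
      refine (Finset.sum_le_sum fun k _ => hT2 (R.f k) (BaseF_OB_orth (R.fo k))).trans ?_
      rw [Finset.sum_const, Finset.card_univ, Fintype.card_fin, nsmul_eq_mul]
    linarith
  have hJb := hTJ R.J 1 _ _ _ hOJ a1 a2 a3
  have hCb := hTJ (R.ph c) s _ _ _ hs b1 b2 b3
  obtain ⟨X2, hX2⟩ : ∃ X2, X2 = Λ (BaseF_T2 (wt A (1 / x1) (1 / x2) 1) 1) +
      ∑ k, Λ (BaseF_T2 (wt A (1 / x1) (1 / x2) 1) (R.f k)) := ⟨_, rfl⟩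
  obtain ⟨XJ, hXJ⟩ : ∃ XJ, XJ = Λ (BaseF_TJ (wt A (1 / x1) (1 / x2) 1) R.J) := ⟨_, rfl⟩
  obtain ⟨XC, hXC⟩ : ∃ XC, XC =
      Λ (BaseF_TJ (wt A (1 / z - 1 / x1) (1 / z - 1 / x2) (1 / z - 1)) (R.ph c)) := ⟨_, rfl⟩
  rw [← hX2] at hsum
  rw [← hXJ] at hJb
  rw [← hXC] at hCb
  have hexp2 : R.FO A p1 p2 S y = q * (2 * W - X2) - 1 / (Fintype.card I : ℝ) * XJ +
      R.n * XC := by
    rw [hexp, hX2, hXJ, hXC]
    simp only [zero_sub, Finset.sum_neg_distrib]
    ring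
  rw [hWmain, hexp2]
  have hQ : Qf L y y = R.n * mn Z ^ 2 := by rw [R.Qf_mn, hZ]
  obtain ⟨n1, n2, n3, n4⟩ := R.n_bd hb.M1
  have hn0 := R.n0
  have hnM := R.nM
  -- main error
  have hq2 : 2 * q * W = (Fintype.card I / ((m : ℝ) + 1)) * (W / Fintype.card I) := by
    rw [hq]
    field_simp
  have hm1 : |2 * q * W - R.n * (W / Fintype.card I)| ≤ 2 * c0 ^ 2 * mn Z ^ 2 := by
    have e1 : 2 * q * W - R.n * (W / Fintype.card I) =
        -(R.n - Fintype.card I / ((m : ℝ) + 1)) * (W / Fintype.card I) := by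
      rw [hq2]
      ring
    rw [e1, abs_mul, abs_neg]
    have e2 : |W / Fintype.card I| ≤ c0 ^ 2 * mn Z ^ 2 := by
      rw [abs_div, abs_of_pos hM0, div_le_iff₀ hM0]
      linarith
    calc |R.n - Fintype.card I / ((m : ℝ) + 1)| * |W / Fintype.card I|
        ≤ 2 * (c0 ^ 2 * mn Z ^ 2) := mul_le_mul hnM e2 (abs_nonneg _) (by norm_num)
      _ = 2 * c0 ^ 2 * mn Z ^ 2 := by ring
  have hx2b : |q * X2| ≤ 4 * c0 ^ 2 * mn Z ^ 2 := by
    rw [abs_mul, abs_of_pos hq0]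
    have := mul_le_mul_of_nonneg_left hsum hq0.le
    have e1 : q * (((m : ℝ) + 1) * (8 * c0 ^ 2 * mn Z ^ 2)) =
        q * ((m : ℝ) + 1) * (8 * c0 ^ 2 * mn Z ^ 2) := by ring
    rw [e1, hqm] at this
    linarith
  have hJb2 : |1 / (Fintype.card I : ℝ) * XJ| ≤ 8 * c0 ^ 2 * mn Z ^ 2 := by
    rw [abs_mul, abs_of_pos (by positivity)]
    have e1 : 1 / (Fintype.card I : ℝ) ≤ 1 := by
      rw [div_le_one hM0]; exact hM1
    have e2 : |XJ| ≤ 8 * c0 ^ 2 * mn Z ^ 2 := by linarith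
    calc 1 / (Fintype.card I : ℝ) * |XJ| ≤ 1 * |XJ| :=
          mul_le_mul_of_nonneg_right e1 (abs_nonneg _)
      _ ≤ _ := by rw [one_mul]; exact e2
  have hCb2 : |R.n * XC| ≤ 32 * c0 ^ 3 * mn Z ^ 2 := by
    rw [abs_mul, abs_of_pos hn0]
    have e1 := mul_le_mul_of_nonneg_left hCb hn0.le
    have e2 : R.n * (8 * c0 ^ 2 * (s * s) * mn Z ^ 2) =
        (R.n * s * s) * (8 * c0 ^ 2 * mn Z ^ 2) := by ring
    rw [e2] at e1
    have e3 : (R.n * s * s) * (8 * c0 ^ 2 * mn Z ^ 2) ≤ (4 * c0) * (8 * c0 ^ 2 * mn Z ^ 2) :=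
      mul_le_mul_of_nonneg_right hns (by positivity)
    refine e1.trans (e3.trans (le_of_eq ?_))
    ring
  have hc23 : c0 ^ 2 ≤ c0 ^ 3 := pow_le_pow_right₀ hk1 (by norm_num)
  have hmn2 : 0 ≤ mn Z ^ 2 := sq_nonneg _
  have htot : |q * (2 * W - X2) - 1 / (Fintype.card I : ℝ) * XJ + R.n * XC -
      R.n * (W / Fintype.card I)| ≤ 46 * c0 ^ 3 * mn Z ^ 2 := by
    have e1 : q * (2 * W - X2) - 1 / (Fintype.card I : ℝ) * XJ + R.n * XC -
      R.n * (W / Fintype.card I) = (2 * q * W - R.n * (W / Fintype.card I)) - q * X2 -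
        1 / (Fintype.card I : ℝ) * XJ + R.n * XC := by ring
    rw [e1]
    have e2 : c0 ^ 2 * mn Z ^ 2 ≤ c0 ^ 3 * mn Z ^ 2 := mul_le_mul_of_nonneg_right hc23 hmn2
    rw [abs_le] at hm1 hx2b hJb2 hCb2 ⊢
    constructor <;> linarith [hm1.1, hm1.2, hx2b.1, hx2b.2, hJb2.1, hJb2.2, hCb2.1, hCb2.2]
  refine htot.trans ?_
  rw [hQ]
  have e5 : 46 * c0 ^ 3 * mn Z ^ 2 = (46 * c0 ^ 3 * mn Z ^ 2) * 1 := by ring
  have e6 : 1 ≤ 2 * ((m : ℝ) + 1) / Fintype.card I * R.n := by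
    have : (Fintype.card I : ℝ) / (2 * ((m : ℝ) + 1)) ≤ R.n := n1
    rw [div_le_iff₀ (by positivity)] at this
    rw [div_mul_eq_mul_div, le_div_iff₀ hM0]
    linarith
  have e7 : 0 ≤ c0 ^ 3 * mn Z ^ 2 := by positivity
  calc 46 * c0 ^ 3 * mn Z ^ 2 ≤ 78 * (c0 ^ 3 * mn Z ^ 2) * 1 := by linarith
    _ ≤ 78 * (c0 ^ 3 * mn Z ^ 2) * (2 * ((m : ℝ) + 1) / Fintype.card I * R.n) :=
        mul_le_mul_of_nonneg_left e6 (by positivity)
    _ = 156 * c0 ^ 3 * ((m : ℝ) + 1) / Fintype.card I * (R.n * mn Z ^ 2) := by ring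

end Pool.Agent.EinV
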