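import Pool.Agent.EinV.Equi
import Pool.Agent.EinV.BaseF

/-!
# The Einstein equation of the base metric, approximately

`base_V`: `TH2 T S`, `TH2 S S` by `TH2_spl` (`NBL S c0`) and `fo_S`; write `Qf y y = n ∑ Z c a ^ 2`, `Qf (S y) y = n ∑ w' c a * Z c a ^ 2`; by `SSc`, `SSp`
and `S D S = D`, `D c = 0` it is enough to treat `y ∈ k`, `Qf y c = 0`, and `y ∈ p`; on `c` the equation is exact (`z = 4 lam`).
With `ν_A = M_A / M → ν` and `y_i = 1 / x_i`: on the block `A`: `(1/4) (ν y1² + (1 - ν)) = lam y1`, on the block `B`: `(1/4) (ν + (1 - ν) y2²) = lam y2`,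
on `p`: `om = 1 - (1/2) (ν (x1 + y1) + (1 - ν) (x2 + y2)) = 2 lam - 1 - sN ν`, `om / 2 + (1/4) (ν y1 + (1 - ν) y2) = lam`
(see `EinU/Cst.lean` for the same identities).
-/

namespace Pool.Agent.EinV

open Matrix Pool.Agent.EStab Pool.Agent.EinS Pool.Agent.SmIso Pool.Agent.EinU Pool.Agent.EinG

/-! ### The constants -/

private theorem BaseE_s0 (ν : ℝ) : 0 ≤ sN ν := Real.sqrt_nonneg _

private theorem BaseE_s2 {ν : ℝ} (h0 : 0 < ν) (h1 : ν < 1) : sN ν ^ 2 = ν * (1 - ν) := by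
  unfold sN
  exact Real.sq_sqrt (mul_nonneg h0.le (by linarith))

private theorem BaseE_s1 (ν : ℝ) : sN (1 - ν) = sN ν := by
  unfold sN
  congr 1
  ring

private theorem BaseE_y1 {ν : ℝ} (h0 : 0 < ν) : 1 / xN ν = (1 + sN ν) / ν := by
  unfold xN
  have := BaseE_s0 ν
  have h : 1 + sN ν ≠ 0 := by positivity
  field_simp

private theorem BaseE_om {ν : ℝ} (h0 : 0 < ν) (h1 : ν < 1) (k : ℝ) :
    1 - 1 / 2 * (k * (xN ν + 1 / xN ν) + (1 - k) * (xN (1 - ν) + 1 / xN (1 - ν))) =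
      (2 * lamN ν - 1 - sN ν) - (k - ν) / 2 *
        ((xN ν + 1 / xN ν) - (xN (1 - ν) + 1 / xN (1 - ν))) := by
  rw [BaseE_y1 h0, BaseE_y1 (by linarith : (0 : ℝ) < 1 - ν), BaseE_s1]
  have hx1 : xN ν = ν / (1 + sN ν) := rfl
  have hx2 : xN (1 - ν) = (1 - ν) / (1 + sN ν) := by
    unfold xN
    rw [BaseE_s1]
  rw [hx1, hx2]
  unfold lamN
  have hs := BaseE_s0 ν
  have hs2 := BaseE_s2 h0 h1
  have hν1 : (1 - ν) ≠ 0 := by linarith
  have hsn : 1 + sN ν ≠ 0 := by positivity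
  generalize sN ν = s at *
  field_simp
  ring_nf
  have h3 : s ^ 3 = s * (ν * (1 - ν)) := by rw [← hs2]; ring
  have h4 : s ^ 4 = (ν * (1 - ν)) ^ 2 := by rw [← hs2]; ring
  try rw [h4]
  try rw [h3]
  try rw [hs2]
  ring

private theorem BaseE_c1 {ν : ℝ} (h0 : 0 < ν) (h1 : ν < 1) (μ : ℝ) :
    1 / 4 * (μ * (1 / xN ν) * (1 / xN ν) + (1 - μ)) - lamN ν * (1 / xN ν) =
      1 / 4 * ((μ - ν) * (1 / xN ν * (1 / xN ν) - 1)) := by
  rw [BaseE_y1 h0]
  unfold lamN
  have hs := BaseE_s0 ν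
  have hs2 := BaseE_s2 h0 h1
  have hsn : 1 + sN ν ≠ 0 := by positivity
  generalize sN ν = s at *
  field_simp
  ring_nf
  try rw [hs2]
  ring

private theorem BaseE_c2 {ν : ℝ} (h0 : 0 < ν) (h1 : ν < 1) (μ : ℝ) :
    1 / 4 * (μ + (1 - μ) * (1 / xN (1 - ν)) * (1 / xN (1 - ν))) - lamN ν * (1 / xN (1 - ν)) =
      -(1 / 4 * ((μ - ν) * (1 / xN (1 - ν) * (1 / xN (1 - ν)) - 1))) := by
  have h := BaseE_c1 (ν := 1 - ν) (by linarith) (by linarith) (1 - μ)
  have hl : lamN (1 - ν) = lamN ν := by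
    unfold lamN
    rw [BaseE_s1]
  rw [hl] at h
  linear_combination h

private theorem BaseE_c3 {ν : ℝ} (h0 : 0 < ν) (h1 : ν < 1) (k : ℝ) :
    1 / 2 * (1 - 1 / 2 * (k * (xN ν + 1 / xN ν) + (1 - k) * (xN (1 - ν) + 1 / xN (1 - ν)))) +
      1 / 4 * (1 / 2 * (k * (1 / xN ν + 1 / xN ν) + (1 - k) * (1 / xN (1 - ν) + 1 / xN (1 - ν)))) -
        lamN ν = -(1 / 4) * ((k - ν) * (xN ν - xN (1 - ν))) := by
  have h1' : (0 : ℝ) < 1 - ν := by linarith
  have b1 : ν * (1 / xN ν) = 1 + sN ν := by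
    rw [BaseE_y1 h0]
    field_simp
  have b2 : (1 - ν) * (1 / xN (1 - ν)) = 1 + sN ν := by
    rw [BaseE_y1 h1', BaseE_s1]
    field_simp
  rw [BaseE_om h0 h1 k]
  have h3 := BaseE_om h0 h1 k
  linear_combination (1 / 4) * b1 + (1 / 4) * b2

/-! ### Sums over the blocks -/

section

variable {I : Type} [Fintype I] [DecidableEq I]

private theorem BaseE_sum (A : Finset I) (Z : Matrix I I ℝ) (hZ : ∀ a b, Z b a = -Z a b)
    (k l p1 p2 y1 y2 : ℝ) :
    ∑ i, ∑ a, Z i a ^ 2 * (k * ((if i ∈ A then p1 else 1) * (if a ∈ A then y1 else 1)) +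
        l * ((if i ∈ A then 1 else p2) * (if a ∈ A then 1 else y2))) =
      (k * p1 * y1 + l) * (∑ i, ∑ a, wt A 1 0 0 i a * Z i a ^ 2) +
        (k + l * p2 * y2) * (∑ i, ∑ a, wt A 0 1 0 i a * Z i a ^ 2) +
        1 / 2 * (k * (p1 + y1) + l * (p2 + y2)) * (∑ i, ∑ a, wt A 0 0 1 i a * Z i a ^ 2) := by
  set f : I → I → ℝ := fun i a => Z i a ^ 2 *
    (k * ((if i ∈ A then p1 else 1) * (if a ∈ A then y1 else 1)) +
        l * ((if i ∈ A then 1 else p2) * (if a ∈ A then 1 else y2))) with hf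
  have e1 : ∑ i, ∑ a, f i a = 1 / 2 * ∑ i, ∑ a, (f i a + f a i) := by
    have : ∑ i, ∑ a, f a i = ∑ i, ∑ a, f i a := Finset.sum_comm
    simp only [Finset.sum_add_distrib]
    rw [this]
    ring
  rw [e1]
  simp only [Finset.mul_sum, ← Finset.sum_add_distrib]
  refine Finset.sum_congr rfl fun i _ => Finset.sum_congr rfl fun a _ => ?_
  have h2 : Z a i ^ 2 = Z i a ^ 2 := by rw [hZ i a]; ring
  simp only [hf, h2, wt]
  by_cases hi : i ∈ A <;> by_cases ha : a ∈ A <;> simp only [hi, ha, if_true, if_false] <;> ring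

end

section

variable {L : Type} [LieRing L] [LieAlgebra ℝ L] {I : Type} [Fintype I] [DecidableEq I] {m : ℕ}
  {R : Rp L I m} {A : Finset I} {x1 x2 z : ℝ} {S T Pp : L →ₗ[ℝ] L} {c : L} {J0 : Matrix I I ℝ}
  {g1 g2 : ℝ}

/-- The part of the form on the block `(u, v, t)`. -/
private noncomputable def BaseE_q (R : Rp L I m) (A : Finset I) (u v t : ℝ) (y : L) : ℝ :=
  R.n * ∑ i, ∑ a, wt A u v t i a * R.ph y i a ^ 2

private theorem BaseE_q_nn (R : Rp L I m) (A : Finset I) {u v t : ℝ} (hu : 0 ≤ u) (hv : 0 ≤ v)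
    (ht : 0 ≤ t) (y : L) : 0 ≤ BaseE_q R A u v t y := by
  unfold BaseE_q
  refine mul_nonneg R.n0.le (Finset.sum_nonneg fun i _ => Finset.sum_nonneg fun a _ =>
    mul_nonneg ?_ (sq_nonneg _))
  unfold wt
  split_ifs <;> assumption

private theorem BaseE_q_lin (R : Rp L I m) (A : Finset I) (u v t : ℝ) (y : L) :
    BaseE_q R A u v t y = u * BaseE_q R A 1 0 0 y + v * BaseE_q R A 0 1 0 y +
      t * BaseE_q R A 0 0 1 y := by
  unfold BaseE_q
  have : ∀ (r : ℝ) (w : I → I → ℝ), r * (R.n * ∑ i, ∑ a, w i a * R.ph y i a ^ 2) =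
      R.n * ∑ i, ∑ a, (r * w i a) * R.ph y i a ^ 2 := by
    intro r w
    simp only [Finset.mul_sum]
    refine Finset.sum_congr rfl fun i _ => Finset.sum_congr rfl fun a _ => ?_
    ring
  rw [this, this, this, ← mul_add, ← mul_add]
  congr 1
  simp only [← Finset.sum_add_distrib]
  refine Finset.sum_congr rfl fun i _ => Finset.sum_congr rfl fun a _ => ?_
  unfold wt
  split_ifs <;> ring

private theorem BaseE_qf (R : Rp L I m) (A : Finset I) (y : L) :
    Qf L y y = BaseE_q R A 1 0 0 y + BaseE_q R A 0 1 0 y + BaseE_q R A 0 0 1 y := by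
  have h := BaseE_q_lin R A 1 1 1 y
  rw [one_mul, one_mul, one_mul] at h
  rw [← h, R.qf]
  unfold BaseE_q
  congr 1
  refine Finset.sum_congr rfl fun i _ => Finset.sum_congr rfl fun a _ => ?_
  unfold wt
  split_ifs <;> ring

private theorem BaseE_nn (R : Rp L I m) (y : L) : 0 ≤ Qf L y y := by
  rw [BaseE_qf R ∅ y]
  have a1 := BaseE_q_nn R (∅ : Finset I) (u := 1) (v := 0) (t := 0) (by norm_num) le_rfl le_rfl y
  have a2 := BaseE_q_nn R (∅ : Finset I) (u := 0) (v := 1) (t := 0) le_rfl (by norm_num) le_rfl y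
  have a3 := BaseE_q_nn R (∅ : Finset I) (u := 0) (v := 0) (t := 1) le_rfl le_rfl (by norm_num) y
  linarith

private theorem BaseE_qP (h : Spl R A x1 x2 z S T Pp c J0 g1 g2) (y : L) :
    Qf L (Pp y) y = BaseE_q R A 0 0 1 y := by
  rw [R.qf]
  unfold BaseE_q
  congr 1
  refine Finset.sum_congr rfl fun i _ => Finset.sum_congr rfl fun a _ => ?_
  rw [h.pp]
  unfold wt
  by_cases hi : i ∈ A <;> by_cases ha : a ∈ A <;> simp [hi, ha] <;> ring

private theorem BaseE_qS (h : Spl R A x1 x2 z S T Pp c J0 g1 g2) (y : L) (hy : Qf L y c = 0) :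
    Qf L (S y) y = 1 / x1 * BaseE_q R A 1 0 0 y + 1 / x2 * BaseE_q R A 0 1 0 y +
      BaseE_q R A 0 0 1 y := by
  have h' := BaseE_q_lin R A (1 / x1) (1 / x2) 1 y
  rw [one_mul] at h'
  rw [← h', R.qf]
  unfold BaseE_q
  congr 1
  refine Finset.sum_congr rfl fun i _ => Finset.sum_congr rfl fun a _ => ?_
  rw [h.tS, hy]
  ring

private theorem BaseE_fo (R : Rp L I m) (A : Finset I) (k l p1 p2 y1 y2 : ℝ) (y : L) :
    R.n * ∑ i, ∑ a, R.ph y i a ^ 2 *
        (k * ((if i ∈ A then p1 else 1) * (if a ∈ A then y1 else 1)) +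
          l * ((if i ∈ A then 1 else p2) * (if a ∈ A then 1 else y2))) =
      (k * p1 * y1 + l) * BaseE_q R A 1 0 0 y + (k + l * p2 * y2) * BaseE_q R A 0 1 0 y +
        1 / 2 * (k * (p1 + y1) + l * (p2 + y2)) * BaseE_q R A 0 0 1 y := by
  rw [BaseE_sum A (R.ph y) (fun a b => R.ph_skew y a b)]
  unfold BaseE_q
  ring

end

theorem base_V (m : ℕ) {ν : ℝ} (h0 : 0 < ν) (h1 : ν < 1) (e : ℝ) (he : 0 < e) : ∃ δ : ℝ, 0 < δ ∧
    ∀ (L : Type) [LieRing L] [LieAlgebra ℝ L] [Module.Finite ℝ L] (I : Type) [Fintype I]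
    [DecidableEq I] (R : Rp L I m) (A : Finset I) (S T Pp : L →ₗ[ℝ] L) (c : L)
    (J0 : Matrix I I ℝ) (g1 g2 : ℝ),
    Spl R A (xN ν) (xN (1 - ν)) (4 * lamN ν) S T Pp c J0 g1 g2 → TrZ R A c →
    1 / δ ≤ Fintype.card I → |(A.card : ℝ) / Fintype.card I - ν| ≤ δ →
    ∀ (D : L →ₗ[ℝ] L), QSym D → (∀ x, D (Pp x) = D x) → (∀ x, Pp (D x) = D x) →
    (∀ x, TH2 T S x x = Qf L x x - Qf L (D x) x) →
      (∀ x, |Qf L (D x) x - (2 * lamN ν - 1 - sN ν) * Qf L (Pp x) x| ≤ e * Qf L x x) ∧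
      ∀ x, |1 / 2 * Qf L (S (D (S x))) x + 1 / 4 * TH2 S S x x - lamN ν * Qf L (S x) x| ≤
        e * Qf L x x := by
  have h1' : (0 : ℝ) < 1 - ν := by linarith
  have X1 : 0 < xN ν := xN_pos h0 h1
  have X2 : 0 < xN (1 - ν) := xN_pos h1' (by linarith)
  obtain ⟨LP, -⟩ := lamN_pos h0 h1
  -- the constant `c0`
  set c0 : ℝ := 1 + xN ν + 1 / xN ν + xN (1 - ν) + 1 / xN (1 - ν) + 4 * lamN ν +
    1 / (4 * lamN ν) + 2 / ν + 2 / (1 - ν) with hc0
  have t1 : 0 < 1 / xN ν := by positivity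
  have t2 : 0 < 1 / xN (1 - ν) := by positivity
  have t3 : 0 < 1 / (4 * lamN ν) := by positivity
  have t4 : 0 < 2 / ν := by positivity
  have t5 : 0 < 2 / (1 - ν) := by positivity
  have hc1 : 1 ≤ c0 := by linarith
  have hc00 : 0 < c0 := by linarith
  have inv : ∀ x : ℝ, 0 < x → 1 / x ≤ c0 → 1 / c0 ≤ x := by
    intro x hx hxc
    rw [div_le_iff₀ hx] at hxc
    rw [div_le_iff₀ hc00]
    linarith [mul_comm c0 x]
  obtain ⟨C1, hC1, H1⟩ := TH2_spl c0 m
  obtain ⟨C2, hC2, H2⟩ := fo_S c0 m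
  set K : ℝ := |(xN ν + 1 / xN ν) - (xN (1 - ν) + 1 / xN (1 - ν))| +
    |1 / xN ν * (1 / xN ν) - 1| + |1 / xN (1 - ν) * (1 / xN (1 - ν)) - 1| +
      |xN ν - xN (1 - ν)| with hK
  have hK0 : 0 ≤ K := by positivity
  have hC10 : 0 < C1 := by linarith
  have hC20 : 0 < C2 := by linarith
  set Q : ℝ := 4 * ((m : ℝ) + 1) + 2 * (C1 * c0 + C2) / e + 2 * (K + 1) / e + 2 / ν +
    2 / (1 - ν) with hQ
  have q1 : 0 < 2 * (C1 * c0 + C2) / e := by positivity
  have q2 : 0 < 2 * (K + 1) / e := by positivity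
  have q3 : 0 < 4 * ((m : ℝ) + 1) := by positivity
  have hQ0 : 0 < Q := by linarith
  refine ⟨1 / Q, by positivity, ?_⟩
  intro L _ _ _ I _ _ R A S T Pp c J0 g1 g2 h htr hM hA D hD hDP hPD hTS
  rw [one_div_one_div] at hM
  have hM0 : 0 < (Fintype.card I : ℝ) := lt_of_lt_of_le hQ0 hM
  set k : ℝ := (A.card : ℝ) / Fintype.card I with hk
  have hl : (Aᶜ.card : ℝ) / Fintype.card I = 1 - k := by
    rw [Finset.card_compl, Nat.cast_sub (Finset.card_le_univ A), hk]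
    field_simp
  have inv2 : ∀ x : ℝ, 0 < x → 2 / x ≤ Q → 1 / Q ≤ x / 2 := by
    intro x hx hxc
    rw [div_le_iff₀ hx] at hxc
    rw [div_le_iff₀ hQ0]
    linarith [mul_comm Q x]
  have hkν : ν / 2 ≤ k := by
    have := inv2 ν h0 (by linarith)
    rw [abs_le] at hA
    linarith [hA.1]
  have hkν' : (1 - ν) / 2 ≤ 1 - k := by
    have := inv2 (1 - ν) h1' (by linarith)
    rw [abs_le] at hA
    linarith [hA.2]
  have hb : Bnd I m A (xN ν) (xN (1 - ν)) (4 * lamN ν) c0 := by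
    refine ⟨hc1, inv _ X1 (by linarith), by linarith, inv _ X2 (by linarith), by linarith,
      inv _ (by linarith) (by linarith), by linarith, ?_, ?_, by linarith⟩
    · have e1 : (A.card : ℝ) = k * Fintype.card I := by
        rw [hk]
        field_simp
      have e2 : 1 ≤ c0 * k := by
        have : 2 / ν * (ν / 2) ≤ c0 * k := mul_le_mul (by linarith) hkν (by positivity) hc00.le
        have e3 : 2 / ν * (ν / 2) = 1 := by field_simp
        linarith
      rw [e1]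
      have e4 := mul_le_mul_of_nonneg_right e2 hM0.le
      linarith [mul_assoc c0 k (Fintype.card I : ℝ)]
    · have e1 : (Aᶜ.card : ℝ) = (1 - k) * Fintype.card I := by
        rw [← hl]
        field_simp
      have e2 : 1 ≤ c0 * (1 - k) := by
        have : 2 / (1 - ν) * ((1 - ν) / 2) ≤ c0 * (1 - k) :=
          mul_le_mul (by linarith) hkν' (by positivity) hc00.le
        have e3 : 2 / (1 - ν) * ((1 - ν) / 2) = 1 := by field_simp
        linarith
      rw [e1]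
      have e4 := mul_le_mul_of_nonneg_right e2 hM0.le
      linarith [mul_assoc c0 (1 - k) (Fintype.card I : ℝ)]
  have hSb : NBL S c0 := by
    intro x
    rw [abs_le]
    have a1 := (h.hi hb x).1
    have a2 := (h.lo hb x).1
    have a3 := BaseE_nn R x
    have a4 : 0 ≤ 1 / c0 * Qf L x x := by positivity
    have a5 : 0 ≤ c0 * Qf L x x := mul_nonneg hc00.le a3
    constructor
    · linarith
    · exact a1
  have hsmall : (C1 * c0 + C2) / Fintype.card I ≤ e / 2 := by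
    rw [div_le_iff₀ hM0]
    have : 2 * (C1 * c0 + C2) / e ≤ Fintype.card I := by linarith
    rw [div_le_iff₀ he] at this
    linarith [mul_comm (Fintype.card I : ℝ) e]
  have hKs : |k - ν| * K ≤ e / 2 := by
    have a1 : |k - ν| * K ≤ 1 / Q * K := mul_le_mul_of_nonneg_right hA hK0
    have a2 : 1 / Q * K ≤ e / 2 := by
      have : 2 * (K + 1) / e ≤ Q := by linarith
      rw [div_le_iff₀ he] at this
      rw [one_div, ← div_eq_inv_mul, div_le_iff₀ hQ0]
      linarith [mul_comm Q e]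
    linarith
  -- the two trace forms
  have key : ∀ y, Qf L y c = 0 →
      |TH2 T S y y - (BaseE_q R A 1 0 0 y + BaseE_q R A 0 1 0 y +
        1 / 2 * (k * (xN ν + 1 / xN ν) + (1 - k) * (xN (1 - ν) + 1 / xN (1 - ν))) *
          BaseE_q R A 0 0 1 y)| ≤ e / 2 * Qf L y y ∧
      |TH2 S S y y - ((k * (1 / xN ν) * (1 / xN ν) + (1 - k)) * BaseE_q R A 1 0 0 y +
        (k + (1 - k) * (1 / xN (1 - ν)) * (1 / xN (1 - ν))) * BaseE_q R A 0 1 0 y +
        1 / 2 * (k * (1 / xN ν + 1 / xN ν) + (1 - k) * (1 / xN (1 - ν) + 1 / xN (1 - ν))) *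
          BaseE_q R A 0 0 1 y)| ≤ e / 2 * Qf L y y := by
    intro y hy
    obtain ⟨u1, u2⟩ := H1 L I R A _ _ _ S T Pp c J0 g1 g2 h hb S c0 h.sS hc00.le hSb y
    have v1 := H2 L I R A _ _ _ S T Pp c J0 g1 g2 h hb htr (xN ν) (xN (1 - ν))
      (by rw [abs_of_pos X1]; linarith) (by rw [abs_of_pos X2]; linarith) (fun hh => hh) y hy
    have v2 := H2 L I R A _ _ _ S T Pp c J0 g1 g2 h hb htr (1 / xN ν) (1 / xN (1 - ν))
      (by rw [abs_of_pos t1]; linarith) (by rw [abs_of_pos t2]; linarith)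
      (fun hh => by rw [hh]) y hy
    rw [hl, ← hk, BaseE_fo] at v1 v2
    have w1 : k * xN ν * (1 / xN ν) + (1 - k) = 1 := by field_simp; ring
    have w2 : k + (1 - k) * xN (1 - ν) * (1 / xN (1 - ν)) = 1 := by field_simp; ring
    rw [w1, w2, one_mul, one_mul] at v1
    have hq := BaseE_nn R y
    have fin : C1 / Fintype.card I * c0 * Qf L y y + C2 / Fintype.card I * Qf L y y ≤
        e / 2 * Qf L y y := by
      have : C1 / Fintype.card I * c0 * Qf L y y + C2 / Fintype.card I * Qf L y y =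
          (C1 * c0 + C2) / Fintype.card I * Qf L y y := by
        field_simp
      rw [this]
      exact mul_le_mul_of_nonneg_right hsmall hq
    constructor
    · refine le_trans ?_ fin
      refine le_trans (abs_sub_le _ (R.FO A (xN ν) (xN (1 - ν)) S y) _) ?_
      exact add_le_add u1 v1
    · refine le_trans ?_ fin
      refine le_trans (abs_sub_le _ (R.FO A (1 / xN ν) (1 / xN (1 - ν)) S y) _) ?_
      exact add_le_add u2 v2
  have hnn : ∀ y : L, 0 ≤ BaseE_q R A 1 0 0 y ∧ 0 ≤ BaseE_q R A 0 1 0 y ∧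
      0 ≤ BaseE_q R A 0 0 1 y := fun y =>
    ⟨BaseE_q_nn R A (by norm_num) le_rfl le_rfl y, BaseE_q_nn R A le_rfl (by norm_num) le_rfl y,
      BaseE_q_nn R A le_rfl le_rfl (by norm_num) y⟩
  have hKi : ∀ r : ℝ, |r| ≤ K → |(k - ν) * r| ≤ e / 2 := by
    intro r hr
    rw [abs_mul]
    exact le_trans (mul_le_mul_of_nonneg_left hr (abs_nonneg _)) hKs
  have n1 : 0 ≤ |(xN ν + 1 / xN ν) - (xN (1 - ν) + 1 / xN (1 - ν))| := abs_nonneg _
  have n2 : 0 ≤ |1 / xN ν * (1 / xN ν) - 1| := abs_nonneg _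
  have n3 : 0 ≤ |1 / xN (1 - ν) * (1 / xN (1 - ν)) - 1| := abs_nonneg _
  have n4 : 0 ≤ |xN ν - xN (1 - ν)| := abs_nonneg _
  have hpc : ∀ x, Qf L (Pp x) c = 0 := by
    intro x
    rw [h.sP x c, h.Pc, map_zero]
  have hDD : ∀ x, Qf L (D x) x = Qf L (D (Pp x)) (Pp x) := by
    intro x
    rw [hDP, ← h.sP (D x) x, hPD]
  constructor
  · intro x
    rw [hDD x]
    set y := Pp x with hy
    have hyc : Qf L y c = 0 := hpc x
    have hyy : Qf L y y = Qf L (Pp x) x := by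
      rw [hy, ← h.sP (Pp x) x, h.P2]
    have hq := BaseE_qf R A y
    have hq3 : Qf L y y = BaseE_q R A 0 0 1 y := by
      rw [← BaseE_qP h y, hy, h.P2]
    have hle : Qf L y y ≤ Qf L x x := by
      rw [hyy, BaseE_qP h x, BaseE_qf R A x]
      obtain ⟨a1, a2, a3⟩ := hnn x
      linarith
    obtain ⟨k1, -⟩ := key y hyc
    have e1 := hTS y
    have e2 := BaseE_om h0 h1 k
    have e3 := hKi ((xN ν + 1 / xN ν) - (xN (1 - ν) + 1 / xN (1 - ν))) (by linarith)
    rw [← hyy]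
    have e4 : BaseE_q R A 1 0 0 y + BaseE_q R A 0 1 0 y = 0 := by linarith
    rw [← hq3, e4] at k1
    generalize 1 / 2 * (k * (xN ν + 1 / xN ν) + (1 - k) * (xN (1 - ν) + 1 / xN (1 - ν))) = κ at *
    generalize (xN ν + 1 / xN ν) - (xN (1 - ν) + 1 / xN (1 - ν)) = K1 at *
    have hq0 : 0 ≤ Qf L y y := BaseE_nn R y
    have e5 : Qf L (D y) y - (2 * lamN ν - 1 - sN ν) * Qf L y y =
        -(TH2 T S y y - (0 + κ * Qf L y y)) - 1 / 2 * ((k - ν) * K1) * Qf L y y := by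
      linear_combination e1 + Qf L y y * e2
    rw [e5]
    have e6 : |1 / 2 * ((k - ν) * K1) * Qf L y y| ≤ e / 4 * Qf L y y := by
      rw [abs_mul, abs_mul, abs_of_nonneg hq0, abs_of_pos (by norm_num : (0 : ℝ) < 1 / 2)]
      refine mul_le_mul_of_nonneg_right ?_ hq0
      linarith
    have e7 : e / 2 * Qf L y y + e / 4 * Qf L y y ≤ e * Qf L x x := by
      have e8 : e * Qf L y y ≤ e * Qf L x x := mul_le_mul_of_nonneg_left hle he.le
      have e9 : 0 ≤ e * Qf L y y := mul_nonneg he.le hq0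
      linarith
    refine le_trans (abs_sub _ _) (le_trans (add_le_add ?_ e6) e7)
    rw [abs_neg]
    exact k1
  · intro x
    have hcc : ∃ (y : L) (r : ℝ), x = y + r • c ∧ Qf L y c = 0 := by
      rcases h.cc with h3 | h3
      · refine ⟨x - Qf L x c • c, Qf L x c, by abel, ?_⟩
        simp [h3]
      · exact ⟨x, 0, by simp [h3], by simp [h3]⟩
    obtain ⟨y, r, hx, hyc⟩ := hcc
    have hcy : Qf L c y = 0 := by rw [Qf_symm, hyc]
    have hDc : D c = 0 := by rw [← hDP, h.Pc, map_zero]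
    have hSDS : S (D (S x)) = D y := by
      have a1 : D (S x) = D x := by rw [← hDP, h.PS, hDP]
      have a2 : S (D x) = D x := by
        rw [← hPD x, h.SP]
      rw [a1, a2, hx, map_add, map_smul, hDc, smul_zero, add_zero]
    have hDyc : Qf L (D y) c = 0 := by rw [← hPD y, hpc]
    have f1 : Qf L (S (D (S x))) x = Qf L (D y) y := by
      rw [hSDS, hx, map_add, map_smul, hDyc]
      simp
    have f2 : TH2 S S x x = TH2 S S y y + r ^ 2 * Qf L c c := by
      rw [hx]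
      exact h.SSc y hyc r
    have f3 : Qf L (S x) x = Qf L (S y) y + r ^ 2 * (1 / (4 * lamN ν)) * Qf L c c := by
      have a1 : Qf L (S y) c = 0 := by
        rw [h.sS y c, h.Sc, map_smul, hyc, smul_zero]
      have a2 : S x = S y + r • ((1 / (4 * lamN ν)) • c) := by
        rw [hx, map_add, map_smul, h.Sc]
      rw [a2, hx]
      simp only [map_add, map_smul, LinearMap.add_apply, LinearMap.smul_apply, smul_eq_mul]
      rw [a1, hcy]
      ring
    have f4 : Qf L x x = Qf L y y + r ^ 2 * Qf L c c := by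
      rw [hx]
      simp only [map_add, map_smul, LinearMap.add_apply, LinearMap.smul_apply, smul_eq_mul]
      rw [hyc, hcy]
      ring
    have hle : Qf L y y ≤ Qf L x x := by
      rw [f4]
      have := mul_nonneg (sq_nonneg r) (BaseE_nn R c)
      linarith
    have hq0 : 0 ≤ Qf L y y := BaseE_nn R y
    have hq := BaseE_qf R A y
    have hqS := BaseE_qS h y hyc
    obtain ⟨k1, k2⟩ := key y hyc
    have e1 := hTS y
    have c1 := BaseE_c1 h0 h1 k
    have c2 := BaseE_c2 h0 h1 k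
    have c3 := BaseE_c3 h0 h1 k
    have d1 := hKi (1 / xN ν * (1 / xN ν) - 1) (by linarith)
    have d2 := hKi (1 / xN (1 - ν) * (1 / xN (1 - ν)) - 1) (by linarith)
    have d3 := hKi (xN ν - xN (1 - ν)) (by linarith)
    rw [f1, f2, f3]
    have g0 : 1 / 2 * Qf L (D y) y + 1 / 4 * (TH2 S S y y + r ^ 2 * Qf L c c) -
        lamN ν * (Qf L (S y) y + r ^ 2 * (1 / (4 * lamN ν)) * Qf L c c) =
        1 / 2 * Qf L (D y) y + 1 / 4 * TH2 S S y y - lamN ν * Qf L (S y) y := by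
      field_simp
      ring
    rw [g0]
    obtain ⟨a1, a2, a3⟩ := hnn y
    generalize BaseE_q R A 1 0 0 y = Q1 at *
    generalize BaseE_q R A 0 1 0 y = Q2 at *
    generalize BaseE_q R A 0 0 1 y = Q3 at *
    generalize (k - ν) * (1 / xN ν * (1 / xN ν) - 1) = K1 at *
    generalize (k - ν) * (1 / xN (1 - ν) * (1 / xN (1 - ν)) - 1) = K2 at *
    generalize (k - ν) * (xN ν - xN (1 - ν)) = K3 at *
    have g1 : 1 / 2 * Qf L (D y) y + 1 / 4 * TH2 S S y y - lamN ν * Qf L (S y) y =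
        -(1 / 2) * (TH2 T S y y - (Q1 + Q2 +
          1 / 2 * (k * (xN ν + 1 / xN ν) + (1 - k) * (xN (1 - ν) + 1 / xN (1 - ν))) * Q3)) +
        1 / 4 * (TH2 S S y y - ((k * (1 / xN ν) * (1 / xN ν) + (1 - k)) * Q1 +
          (k + (1 - k) * (1 / xN (1 - ν)) * (1 / xN (1 - ν))) * Q2 +
        1 / 2 * (k * (1 / xN ν + 1 / xN ν) + (1 - k) * (1 / xN (1 - ν) + 1 / xN (1 - ν))) * Q3)) +
        (1 / 4 * K1 * Q1 - 1 / 4 * K2 * Q2 - 1 / 4 * K3 * Q3) := by
      linear_combination (1 / 2 : ℝ) * e1 - lamN ν * hqS + Q1 * c1 + Q2 * c2 + Q3 * c3 +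
        1 / 2 * hq
    rw [g1]
    generalize 1 / 2 * (k * (xN ν + 1 / xN ν) + (1 - k) * (xN (1 - ν) + 1 / xN (1 - ν))) = κ1 at *
    generalize 1 / 2 * (k * (1 / xN ν + 1 / xN ν) + (1 - k) *
      (1 / xN (1 - ν) + 1 / xN (1 - ν))) = κ2 at *
    generalize k * (1 / xN ν) * (1 / xN ν) + (1 - k) = κ3 at *
    generalize k + (1 - k) * (1 / xN (1 - ν)) * (1 / xN (1 - ν)) = κ4 at *
    have m1 : |K1 * Q1| ≤ e / 2 * Q1 := by
      rw [abs_mul, abs_of_nonneg a1]
      exact mul_le_mul_of_nonneg_right d1 a1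
    have m2 : |K2 * Q2| ≤ e / 2 * Q2 := by
      rw [abs_mul, abs_of_nonneg a2]
      exact mul_le_mul_of_nonneg_right d2 a2
    have m3 : |K3 * Q3| ≤ e / 2 * Q3 := by
      rw [abs_mul, abs_of_nonneg a3]
      exact mul_le_mul_of_nonneg_right d3 a3
    have hex : e * Qf L y y ≤ e * Qf L x x := mul_le_mul_of_nonneg_left hle he.le
    have heq : 0 ≤ e * Qf L y y := mul_nonneg he.le hq0
    have hm : e / 2 * Q1 + e / 2 * Q2 + e / 2 * Q3 = e / 2 * Qf L y y := by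
      rw [hq]
      ring
    rw [abs_le] at k1 k2 m1 m2 m3 ⊢
    obtain ⟨k11, k12⟩ := k1
    obtain ⟨k21, k22⟩ := k2
    obtain ⟨m11, m12⟩ := m1
    obtain ⟨m21, m22⟩ := m2
    obtain ⟨m31, m32⟩ := m3
    constructor <;> linarith

end Pool.Agent.EinV
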