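import Pool.Agent.EinV.Gap
import Pool.Agent.EinV.BaseE
import Pool.Agent.EinV.EtaV

/-!
# The generic existence theorem

For fixed `ν` all constants (`x_i`, `1/x_i`, `z = 4 lam`, `lam`, `1/lam`, `1/ν`, ...) are bounded by one `c0`.  Take `D` from `Spl.exists_D`; `base_V` (with `e` small)
gives `dom` and `base`; `DD` from `zcond`.  `Γ = {σ}`, `σ` from `Spl.refl` (`cp`: `β` commutes with `σ`; `σ` preserves `h` since `Pp = 0` on `h`).
`GapLG Γ S T D lam K` by `gapV`, `LBaseG` by `SplB`, `et_V` (`τ² = C (δ + 1/M)`), `perturb_einsteinG` (`EinG/Frm.lean`).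
-/

namespace Pool.Agent.EinV

open Matrix Pool.Agent.EStab Pool.Agent.EinS Pool.Agent.SmIso Pool.Agent.EinU Pool.Agent.EinG

private theorem Main_nn {L : Type} [LieRing L] [LieAlgebra ℝ L] {I : Type} [Fintype I]
    [DecidableEq I] {m : ℕ} (R : Rp L I m) (x : L) : 0 ≤ Qf L x x := by
  rw [R.qf]
  exact mul_nonneg (by linarith [R.n1]) (Finset.sum_nonneg fun _ _ =>
    Finset.sum_nonneg fun _ _ => mul_self_nonneg _)

private theorem Main_compact {L : Type} [LieRing L] [LieAlgebra ℝ L] {I : Type} [Fintype I]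
    [DecidableEq I] {m : ℕ} (R : Rp L I m) : CompactSemisimple L := by
  intro x hx
  by_contra hk
  have h1 : Qf L x x ≤ 0 := by
    rw [Qf_apply]
    linarith
  have h2 : Qf L x x = 0 := le_antisymm h1 (Main_nn R x)
  rw [R.qf] at h2
  have h3 : ∑ a, ∑ b, R.ph x a b * R.ph x a b = 0 := by
    rcases mul_eq_zero.1 h2 with h | h
    · linarith [R.n1]
    · exact h
  apply hx
  apply R.inj
  ext a b
  have h4 := (Finset.sum_eq_zero_iff_of_nonneg (fun a _ =>
    Finset.sum_nonneg fun b _ => mul_self_nonneg (R.ph x a b))).1 h3 a (Finset.mem_univ a)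
  have h5 := (Finset.sum_eq_zero_iff_of_nonneg (fun b _ =>
    mul_self_nonneg (R.ph x a b))).1 h4 b (Finset.mem_univ b)
  exact mul_self_eq_zero.1 h5

private theorem Main_qP {L : Type} [LieRing L] [LieAlgebra ℝ L] {I : Type} [Fintype I]
    [DecidableEq I] {m : ℕ} (R : Rp L I m) {Pp : L →ₗ[ℝ] L} (hs : QSym Pp)
    (h2 : ∀ x, Pp (Pp x) = Pp x) (x : L) :
    0 ≤ Qf L (Pp x) x ∧ Qf L (Pp x) x ≤ Qf L x x := by
  have e1 : Qf L (Pp x) x = Qf L (Pp x) (Pp x) := by
    have := hs (Pp x) x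
    rw [h2] at this
    exact this
  have e2 : Qf L (x - Pp x) (x - Pp x) = Qf L x x - Qf L (Pp x) x := by
    have e3 : Qf L (x - Pp x) (x - Pp x) =
        Qf L x x - Qf L x (Pp x) - (Qf L (Pp x) x - Qf L (Pp x) (Pp x)) := by
      simp only [map_sub, LinearMap.sub_apply]
      try ring
    rw [e3, Qf_symm x (Pp x), ← e1]
    ring
  have p1 := Main_nn R (Pp x)
  have p2 := Main_nn R (x - Pp x)
  rw [e2] at p2
  rw [← e1] at p1
  exact ⟨p1, by linarith⟩

theorem einstein_V (m : ℕ) {ν : ℝ} (h0 : 0 < ν) (h1 : ν < 1) : ∃ δ : ℝ, 0 < δ ∧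
    ∀ (L : Type) [LieRing L] [LieAlgebra ℝ L] [Module.Finite ℝ L] (I : Type) [Fintype I]
    [DecidableEq I] (R : Rp L I m) (A : Finset I) (S T Pp : L →ₗ[ℝ] L) (c : L)
    (J0 : Matrix I I ℝ) (g1 g2 : ℝ),
    Spl R A (xN ν) (xN (1 - ν)) (4 * lamN ν) S T Pp c J0 g1 g2 → TrZ R A c →
    1 / δ ≤ Fintype.card I → |(A.card : ℝ) / Fintype.card I - ν| ≤ δ →
    ∀ h : LieSubalgebra ℝ L, (∀ y ∈ h, Pp y = 0) → SmallR R h δ →
      HasEinsteinMetric L h.toSubmodule (autsG h S) := by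
  have h0' : 0 < 1 - ν := by linarith
  have h1' : 1 - ν < 1 := by linarith
  obtain ⟨K, hK, δ₁, hδ₁, hgap⟩ := gapV m h0 h1
  have hx1 := xN_pos h0 h1
  have hx2 := xN_pos h0' h1'
  obtain ⟨hl, -⟩ := lamN_pos h0 h1
  -- the constant
  obtain ⟨c0, hc⟩ : ∃ c0 : ℝ, c0 = 1 + xN ν + 1 / xN ν + xN (1 - ν) + 1 / xN (1 - ν) +
      1 / lamN ν + 4 * lamN ν + 1 / (4 * lamN ν) + (|2 * lamN ν - 1 - sN ν| + 1) + 2 / ν +
      2 / (1 - ν) := ⟨_, rfl⟩
  have p1 : 0 < 1 / xN ν := by positivity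
  have p2 : 0 < 1 / xN (1 - ν) := by positivity
  have p3 : 0 < 1 / lamN ν := by positivity
  have p4 : 0 < 1 / (4 * lamN ν) := by positivity
  have p5 : 0 ≤ |2 * lamN ν - 1 - sN ν| := abs_nonneg _
  have p6 : 0 < 2 / ν := by positivity
  have p7 : 0 < 2 / (1 - ν) := by positivity
  have hc1 : 1 ≤ c0 := by rw [hc]; linarith
  have hc0 : 0 < c0 := by linarith
  have hK0 : 0 < K := by linarith
  have hD : (0 : ℝ) < 500 * K * c0 ^ 10 := by positivity
  have hD' : (0 : ℝ) < 5000 * K ^ 2 * c0 ^ 10 := by positivity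
  obtain ⟨τ, hτ⟩ : ∃ τ : ℝ, τ = 1 / (500 * K * c0 ^ 10) := ⟨_, rfl⟩
  have hτ0 : 0 < τ := by rw [hτ]; positivity
  obtain ⟨eps, heps⟩ : ∃ eps : ℝ, eps = 1 / (5000 * K ^ 2 * c0 ^ 10) := ⟨_, rfl⟩
  have heps0 : 0 < eps := by rw [heps]; positivity
  set e : ℝ := min (min δ₁ eps) 1 with he
  have he0 : 0 < e := lt_min (lt_min hδ₁ heps0) one_pos
  obtain ⟨δ₂, hδ₂, hbase⟩ := base_V m h0 h1 e he0
  obtain ⟨C, hC, het⟩ := et_V c0 m
  have hC0 : 0 < C := by linarith
  have hδ₃ : 0 < τ ^ 2 / (2 * C) := by positivity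
  have hδ₄ : 0 < min (ν / 2) ((1 - ν) / 2) := lt_min (by linarith) (by linarith)
  have hδ₅ : (0 : ℝ) < 1 / (4 * ((m : ℝ) + 1)) := by positivity
  set δ : ℝ := min (min δ₁ δ₂) (min (τ ^ 2 / (2 * C))
    (min (min (ν / 2) ((1 - ν) / 2)) (1 / (4 * ((m : ℝ) + 1))))) with hδ
  have hδ0 : 0 < δ := lt_min (lt_min hδ₁ hδ₂) (lt_min hδ₃ (lt_min hδ₄ hδ₅))
  have d1 : δ ≤ δ₁ := (min_le_left _ _).trans (min_le_left _ _)
  have d2 : δ ≤ δ₂ := (min_le_left _ _).trans (min_le_right _ _)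
  have d3 : δ ≤ τ ^ 2 / (2 * C) := (min_le_right _ _).trans (min_le_left _ _)
  have d4 : δ ≤ min (ν / 2) ((1 - ν) / 2) :=
    ((min_le_right _ _).trans (min_le_right _ _)).trans (min_le_left _ _)
  have d5 : δ ≤ 1 / (4 * ((m : ℝ) + 1)) :=
    ((min_le_right _ _).trans (min_le_right _ _)).trans (min_le_right _ _)
  refine ⟨δ, hδ0, ?_⟩
  intro L _ _ _ I _ _ R A S T Pp c J0 g1 g2 hS hTr hN hA h hh hs
  have hNd : ∀ d, δ ≤ d → 1 / d ≤ (Fintype.card I : ℝ) := fun d hd =>
    (one_div_le_one_div_of_le hδ0 hd).trans hN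
  have hM0 : (0 : ℝ) < Fintype.card I := lt_of_lt_of_le (by positivity) hN
  have hM1 : 1 / (Fintype.card I : ℝ) ≤ δ := by
    rw [div_le_iff₀ hM0]
    rw [div_le_iff₀ hδ0] at hN
    linarith [mul_comm (Fintype.card I : ℝ) δ]
  -- the bounds
  have hinv : ∀ u : ℝ, 0 < u → 1 / u ≤ c0 → 1 / c0 ≤ u := by
    intro u hu huc
    rw [div_le_iff₀ hc0]
    rw [div_le_iff₀ hu] at huc
    linarith
  have hb : Bnd I m A (xN ν) (xN (1 - ν)) (4 * lamN ν) c0 := by
    have hA' := abs_le.1 hA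
    refine ⟨hc1, hinv _ hx1 (by rw [hc]; linarith), by rw [hc]; linarith,
      hinv _ hx2 (by rw [hc]; linarith), by rw [hc]; linarith,
      hinv _ (by linarith) (by rw [hc]; linarith), by rw [hc]; linarith, ?_, ?_, ?_⟩
    · have d6 : δ ≤ ν / 2 := d4.trans (min_le_left _ _)
      have k1 : ν / 2 ≤ (A.card : ℝ) / Fintype.card I := by linarith [hA'.1]
      rw [le_div_iff₀ hM0] at k1
      have k2 : 2 / ν ≤ c0 := by rw [hc]; linarith
      have k3 : (Fintype.card I : ℝ) = 2 / ν * (ν / 2 * Fintype.card I) := by field_simp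
      calc (Fintype.card I : ℝ) = 2 / ν * (ν / 2 * Fintype.card I) := k3
        _ ≤ c0 * A.card := mul_le_mul k2 k1 (by positivity) hc0.le
    · have d6 : δ ≤ (1 - ν) / 2 := d4.trans (min_le_right _ _)
      have k0 : ((Aᶜ).card : ℝ) = Fintype.card I - A.card := by
        rw [Finset.card_compl, Nat.cast_sub (Finset.card_le_univ A)]
      have k1 : (A.card : ℝ) / Fintype.card I ≤ ν + (1 - ν) / 2 := by linarith [hA'.2]
      rw [div_le_iff₀ hM0] at k1
      have k1' : (1 - ν) / 2 * Fintype.card I ≤ ((Aᶜ).card : ℝ) := by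
        rw [k0]
        linarith
      have k2 : 2 / (1 - ν) ≤ c0 := by rw [hc]; linarith
      have k3 : (Fintype.card I : ℝ) = 2 / (1 - ν) * ((1 - ν) / 2 * Fintype.card I) := by
        field_simp
      calc (Fintype.card I : ℝ) = 2 / (1 - ν) * ((1 - ν) / 2 * Fintype.card I) := k3
        _ ≤ c0 * (Aᶜ).card := mul_le_mul k2 k1' (by positivity) hc0.le
    · have := hNd _ d5
      rwa [one_div_one_div] at this
  obtain ⟨D, hDs, hDP, hPD, hDt⟩ := hS.exists_D
  obtain ⟨hdom, hbs⟩ := hbase L I R A S T Pp c J0 g1 g2 hS hTr (hNd _ d2) (hA.trans d2) D hDs hDP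
    hPD hDt
  have hDD : DD S T Pp D (2 * lamN ν - 1 - sN ν) δ₁ := by
    refine ⟨hδ₁.le, hDs, hDP, hPD, fun x => (hdom x).trans ?_, fun β hβ hc x =>
      hS.zcond hβ hc x⟩
    exact mul_le_mul_of_nonneg_right ((min_le_left _ _).trans (min_le_left _ _)) (Main_nn R x)
  obtain ⟨σ, hσ⟩ := hS.refl
  have hcp : ∀ β : L →ₗ[ℝ] L, Cls {σ} β → ∀ x, β (Pp x) = Pp (β x) := by
    rintro β ⟨-, hβ⟩ x
    have k := hβ σ (Set.mem_singleton _) x
    rw [hσ, hσ, map_sub, map_smul, sub_right_inj] at k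
    exact smul_right_injective L (two_ne_zero' ℝ) k
  have hgp : GapLG {σ} S T D (lamN ν) K := by
    intro β hβ s hes
    exact hgap L I R A S T Pp c J0 g1 g2 hS (hNd _ d1) (hA.trans d1) D hDD β s hβ.1
      (hcp β hβ) hes
  have hqP := Main_qP R hS.sP hS.P2
  have hSD : ∀ x, S (D x) = D x := fun x => by rw [← hPD x, hS.SP]
  have hDS : ∀ x, D (S x) = D x := fun x => by rw [← hDP (S x), hS.PS, hDP]
  have hB : LBaseG h {σ} S T Pp D c0 τ (lamN ν) eps := by
    refine
      { symS := hS.sS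
        symT := hS.sT
        symP := hS.sP
        symD := hDs
        ST := hS.ST
        TS := hS.TS
        c1 := hc1
        t0 := hτ0.le
        e0 := heps0.le
        loS := fun x => (hS.lo hb x).1
        hiS := fun x => (hS.hi hb x).1
        loT := fun x => ?_
        hiT := fun x => (hS.hi hb x).2
        bdD := fun x => ?_
        pp2 := hS.P2
        Spp := fun x => by rw [hS.SP, hS.PS]
        Dpp := hDP
        SD := fun x => by rw [hSD, hDS]
        hpp := hh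
        et := fun n a ha hao x => ?_
        uts := hDt
        la := hl
        la' := by rw [hc]; linarith
        base := fun x => (hbs x).trans ?_
        inv := ?_
        cp := hcp
        z := fun β hβ x => hS.zcond hβ.1 (hcp β hβ) x }
    · have k := (hS.lo hb x).2
      have k2 := Main_nn R x
      have k3 : 0 ≤ 1 / c0 * Qf L x x := by positivity
      linarith
    · have k1 := hdom x
      obtain ⟨k2, k3⟩ := hqP x
      have k4 := Main_nn R x
      have k5 : e ≤ 1 := min_le_right _ _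
      have k6 : |(2 * lamN ν - 1 - sN ν) * Qf L (Pp x) x| ≤
          |2 * lamN ν - 1 - sN ν| * Qf L x x := by
        rw [abs_mul, abs_of_nonneg k2]
        exact mul_le_mul_of_nonneg_left k3 (abs_nonneg _)
      have k7 : e * Qf L x x ≤ 1 * Qf L x x := mul_le_mul_of_nonneg_right k5 k4
      have k8 : |Qf L (D x) x| ≤ |Qf L (D x) x - (2 * lamN ν - 1 - sN ν) * Qf L (Pp x) x| +
          |(2 * lamN ν - 1 - sN ν) * Qf L (Pp x) x| := by
        have := abs_add_le (Qf L (D x) x - (2 * lamN ν - 1 - sN ν) * Qf L (Pp x) x)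
          ((2 * lamN ν - 1 - sN ν) * Qf L (Pp x) x)
        rwa [sub_add_cancel] at this
      have k9 : (|2 * lamN ν - 1 - sN ν| + 1) * Qf L x x ≤ c0 * Qf L x x :=
        mul_le_mul_of_nonneg_right (by rw [hc]; linarith) k4
      linarith
    · have k := het L I R A (xN ν) (xN (1 - ν)) (4 * lamN ν) S T Pp c J0 g1 g2 hS hb h δ hδ0.le
        hh hs n a ha hao x
      have k1 : C * (δ + 1 / Fintype.card I) * Qf L x x ≤ τ ^ 2 * Qf L x x := by
        apply mul_le_mul_of_nonneg_right _ (Main_nn R x)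
        rw [le_div_iff₀ (by positivity)] at d3
        nlinarith
      exact ⟨k.1.trans k1, k.2.1.trans k1, k.2.2.trans k1⟩
    · exact mul_le_mul_of_nonneg_right ((min_le_left _ _).trans (min_le_right _ _)) (Main_nn R x)
    · rintro γ rfl
      have hfix : ∀ y ∈ h, γ y = y := fun y hy => by rw [hσ, hh y hy, smul_zero, sub_zero]
      refine ⟨?_, fun x => ?_⟩
      · ext x
        constructor
        · intro hx
          obtain ⟨y, hy, hyx⟩ := (LieSubalgebra.mem_map _ _ _).1 hx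
          have hyx' : γ y = x := hyx
          rw [← hyx', hfix y hy]
          exact hy
        · intro hx
          exact (LieSubalgebra.mem_map _ _ _).2 ⟨x, hx, hfix x hx⟩
      · rw [hσ, hσ, map_sub, map_smul, hS.SP, hS.PS]
  exact perturb_einsteinG (Main_compact R) hB hK hgp (by rw [hτ, mul_one_div_cancel hD.ne'])
    (by rw [heps, mul_one_div_cancel hD'.ne'])

end Pool.Agent.EinV
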