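import Pool.Agent.EinV.Hat
import Pool.Agent.EinV.Main
import Pool.Agent.EinV.BaseF

/-!
# Existence of Einstein metrics from a symmetric involution

`s` is a symmetric orthogonal matrix on `ℝ^I`, `s² = 1`; the subalgebra `k` consists of the elements of `L` which commute with `s`.

`einstein_inv`: diagonalise `s` (`exists_diag`), `R' = R.conj Q` (`exists_conj`), `A` the coordinates with `s = 1`; `trace s = 2 |A| - M`.
A matrix `X` which commutes (anticommutes) with `s` is block diagonal (off-diagonal) in the new coordinates.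
`exists_spl` for `R'` with `x1 = xN ν`, `x2 = xN (1 - ν)`, `z = 4 lamN ν`; here `ν = 1/2` if `trace s = 0`, otherwise all `f k` and `J` commute with `s` and `ν`
is the center of one of finitely many balls which cover `[θ, 1 - θ]` (as in `so_theta`, `EinU/Fin.lean`).
`TrZ`, `hJ`: `∑ a ∈ A, ∑ b, X a b * Y b a = (1/2) (trace (X Y) + trace (s X Y))` in the new coordinates.
`sAuts ⊆ autsG`: `g' = Q g Qᵀ` is block diagonal, so `γ` commutes with the blockwise scaling; `γ c = c` because `g J0 = J0 g`.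
-/

namespace Pool.Agent.EinV

open Matrix Pool.Agent.EStab Pool.Agent.EinS Pool.Agent.SmIso Pool.Agent.EinU Pool.Agent.EinG

section

variable {L : Type} [LieRing L] [LieAlgebra ℝ L] {I : Type} [Fintype I] [DecidableEq I] {m : ℕ}

/-- An involution and the centre of its fixed algebra. -/
structure InvD (R : Rp L I m) (s : Matrix I I ℝ) (c : L) (J0 : Matrix I I ℝ) (g1 g2 : ℝ) :
    Prop where
  ss : sᵀ = s
  s2 : s * s = 1
  fs : ∀ k, (s * R.f k = R.f k * s ∧ (R.f k)ᵀ = -R.f k) ∨ s * R.f k = -(R.f k * s)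
  Js : s * R.J = R.J * s ∨ s * R.J = -(R.J * s)
  J0s : J0ᵀ = -J0
  J0J : J0 = 0 ∨ J0ᵀ * J0 = 1
  J0c : ∀ x, J0 * R.ph x = R.ph x * J0
  sJ0 : s * J0 = J0 * s
  cc : Qf L c c = 1 ∨ c = 0
  pc : R.ph c = (g1 / 2) • ((1 + s) * J0) + (g2 / 2) • ((1 - s) * J0)
  tJ : ∀ x, Qf L x c = 0 → trace (R.ph x * R.J) = 0 ∧ trace (s * R.ph x * R.J) = 0
  tf : ∀ x, Qf L x c = 0 → ∀ k, trace (R.ph x * R.f k) = 0 ∧ trace (s * R.ph x * R.f k) = 0

/-- The automorphisms of `L` given by orthogonal matrices which commute with `s` and `J0`. -/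
def sAuts (R : Rp L I m) (h : LieSubalgebra ℝ L) (s J0 : Matrix I I ℝ) : Set (L →ₗ[ℝ] L) :=
  {γ | ∃ δ : L ≃ₗ⁅ℝ⁆ L, (∀ x, γ x = δ x) ∧ h.map (δ : L →ₗ⁅ℝ⁆ L) = h ∧
    ∃ g : Matrix I I ℝ, g * gᵀ = 1 ∧ s * g = g * s ∧ J0 * g = g * J0 ∧
      ∀ x, R.ph (δ x) = g * R.ph x * gᵀ}

end

section Inv_aux

variable {L : Type} [LieRing L] [LieAlgebra ℝ L] {I : Type} [Fintype I] [DecidableEq I] {m : ℕ}

/-- The diagonal reflection. -/
private noncomputable def Inv_dg (A : Finset I) : Matrix I I ℝ :=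
  Matrix.diagonal (fun a => if a ∈ A then (1 : ℝ) else -1)

private theorem Inv_dgT (A : Finset I) : (Inv_dg A)ᵀ = Inv_dg A := by
  unfold Inv_dg
  rw [Matrix.diagonal_transpose]

private theorem Inv_comm {A : Finset I} {X : Matrix I I ℝ} (h : Inv_dg A * X = X * Inv_dg A)
    (a b : I) (hab : ¬(a ∈ A ↔ b ∈ A)) : X a b = 0 := by
  have h1 := congrFun (congrFun h a) b
  unfold Inv_dg at h1
  rw [Matrix.diagonal_mul, Matrix.mul_diagonal] at h1
  by_cases ha : a ∈ A <;> by_cases hb : b ∈ A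
  · exact absurd (iff_of_true ha hb) hab
  · rw [if_pos ha, if_neg hb] at h1
    linarith
  · rw [if_neg ha, if_pos hb] at h1
    linarith
  · exact absurd (iff_of_false ha hb) hab

private theorem Inv_anti {A : Finset I} {X : Matrix I I ℝ} (h : Inv_dg A * X = -(X * Inv_dg A))
    (a b : I) (hab : a ∈ A ↔ b ∈ A) : X a b = 0 := by
  have h1 := congrFun (congrFun h a) b
  unfold Inv_dg at h1
  rw [Matrix.neg_apply, Matrix.diagonal_mul, Matrix.mul_diagonal] at h1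
  by_cases ha : a ∈ A
  · rw [if_pos ha, if_pos (hab.1 ha)] at h1
    linarith
  · rw [if_neg ha, if_neg (fun hb => ha (hab.2 hb))] at h1
    linarith

private theorem Inv_wt (A : Finset I) (u v : ℝ) (X : Matrix I I ℝ) (a b : I) :
    wt A u v 1 a b * X a b = (((u + v + 2) / 4) • X + ((u - v) / 4) • (Inv_dg A * X + X * Inv_dg A) +
      ((u + v - 2) / 4) • (Inv_dg A * X * Inv_dg A)) a b := by
  unfold Inv_dg wt
  simp only [Matrix.add_apply, Matrix.smul_apply, Matrix.diagonal_mul, Matrix.mul_diagonal,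
    smul_eq_mul]
  split_ifs <;> ring

/-- The blockwise scaling. -/
private noncomputable def Inv_W (A : Finset I) (u v : ℝ) (X : Matrix I I ℝ) : Matrix I I ℝ :=
  ((u + v + 2) / 4) • X + ((u - v) / 4) • (Inv_dg A * X + X * Inv_dg A) +
      ((u + v - 2) / 4) • (Inv_dg A * X * Inv_dg A)

private theorem Inv_W_conj {A : Finset I} (u v : ℝ) {g : Matrix I I ℝ}
    (hg : Inv_dg A * g = g * Inv_dg A) (X : Matrix I I ℝ) :
    Inv_W A u v (g * X * gᵀ) = g * Inv_W A u v X * gᵀ := by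
  have hg' : Inv_dg A * gᵀ = gᵀ * Inv_dg A := by
    have := congrArg Matrix.transpose hg
    rw [Matrix.transpose_mul, Matrix.transpose_mul, Inv_dgT] at this
    exact this.symm
  have e1 : Inv_dg A * (g * X * gᵀ) = g * (Inv_dg A * X) * gᵀ := by
    rw [Matrix.mul_assoc g X, ← Matrix.mul_assoc, hg]
    simp only [Matrix.mul_assoc]
  have e2 : g * X * gᵀ * Inv_dg A = g * (X * Inv_dg A) * gᵀ := by
    rw [Matrix.mul_assoc (g * X), ← hg']
    simp only [Matrix.mul_assoc]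
  have e3 : Inv_dg A * (g * X * gᵀ) * Inv_dg A = g * (Inv_dg A * X * Inv_dg A) * gᵀ := by
    rw [e1, Matrix.mul_assoc (g * (Inv_dg A * X)), ← hg']
    simp only [Matrix.mul_assoc]
  unfold Inv_W
  rw [e3, e1, e2]
  simp only [Matrix.mul_add, Matrix.add_mul, Matrix.mul_smul, Matrix.smul_mul]

private theorem Inv_spl_S {R : Rp L I m} {A : Finset I} {x1 x2 z : ℝ} {S T Pp : L →ₗ[ℝ] L} {c : L}
    {J0 : Matrix I I ℝ} {g1 g2 : ℝ} (hS : Spl R A x1 x2 z S T Pp c J0 g1 g2) (x : L) :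
    R.ph (S x) = Inv_W A (1 / x1) (1 / x2) (R.ph x) +
      Qf L x c • ((1 / z) • R.ph c - Inv_W A (1 / x1) (1 / x2) (R.ph c)) := by
  ext a b
  rw [hS.tS, Matrix.add_apply, Matrix.smul_apply, Matrix.sub_apply, Matrix.smul_apply, smul_eq_mul,
    smul_eq_mul, Inv_W, Inv_W, ← Inv_wt, ← Inv_wt]
  ring

private theorem Inv_qf (φ : L ≃ₗ⁅ℝ⁆ L) (x y : L) : Qf L (φ x) (φ y) = Qf L x y := by
  rw [Qf_apply, Qf_apply, LieAlgebra.killingForm_of_equiv_apply]

private theorem Inv_cph {R : Rp L I m} {A : Finset I} {x1 x2 z : ℝ} {S T Pp : L →ₗ[ℝ] L} {c : L}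
    {J0 : Matrix I I ℝ} {g1 g2 : ℝ} (hS : Spl R A x1 x2 z S T Pp c J0 g1 g2) :
    R.ph c = (g1 / 2) • ((1 + Inv_dg A) * J0) + (g2 / 2) • ((1 - Inv_dg A) * J0) := by
  ext a b
  rw [hS.pc]
  unfold Inv_dg
  simp only [Matrix.add_apply, Matrix.smul_apply, Matrix.add_mul, Matrix.sub_mul, Matrix.one_mul,
    Matrix.sub_apply, Matrix.diagonal_mul, smul_eq_mul]
  split_ifs <;> ring

private theorem Inv_aut {R : Rp L I m} {A : Finset I} {x1 x2 z : ℝ} {S T Pp : L →ₗ[ℝ] L} {c : L}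
    {J0 : Matrix I I ℝ} {g1 g2 : ℝ} (hS : Spl R A x1 x2 z S T Pp c J0 g1 g2) {δ : L ≃ₗ⁅ℝ⁆ L}
    {g : Matrix I I ℝ} (hg : g * gᵀ = 1) (hA : Inv_dg A * g = g * Inv_dg A)
    (hJ : J0 * g = g * J0) (hδ : ∀ x, R.ph (δ x) = g * R.ph x * gᵀ) (x : L) :
    S (δ x) = δ (S x) := by
  have hc : g * R.ph c * gᵀ = R.ph c := by
    have h1 : g * R.ph c = R.ph c * g := by
      rw [Inv_cph hS]
      simp only [Matrix.mul_add, Matrix.add_mul, Matrix.mul_smul, Matrix.smul_mul, Matrix.one_mul,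
        Matrix.sub_mul, Matrix.mul_sub]
      have e1 : g * (Inv_dg A * J0) = Inv_dg A * J0 * g := by
        rw [← Matrix.mul_assoc, ← hA, Matrix.mul_assoc, Matrix.mul_assoc, hJ]
      rw [e1, hJ]
    rw [h1, Matrix.mul_assoc, hg, Matrix.mul_one]
  have hδc : δ c = c := by
    have h1 : R.ph (δ c - c) = 0 := by rw [map_sub, hδ, hc, sub_self]
    exact sub_eq_zero.1 (R.inj _ h1)
  have hq : Qf L (δ x) c = Qf L x c := by
    conv_lhs => rw [← hδc]
    rw [Inv_qf]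
  have hWc : g * Inv_W A (1 / x1) (1 / x2) (R.ph c) * gᵀ = Inv_W A (1 / x1) (1 / x2) (R.ph c) := by
    rw [← Inv_W_conj _ _ hA, hc]
  have h1 : R.ph (S (δ x) - δ (S x)) = 0 := by
    rw [map_sub, sub_eq_zero, Inv_spl_S hS, hδ, hδ, Inv_spl_S hS, hq, Inv_W_conj _ _ hA]
    simp only [Matrix.mul_add, Matrix.add_mul, Matrix.mul_smul, Matrix.smul_mul,
        Matrix.sub_mul, Matrix.mul_sub]
    rw [hc, hWc]
  exact sub_eq_zero.1 (R.inj _ h1)

private theorem Inv_tr (A : Finset I) (X : Matrix I I ℝ) :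
    ∑ a ∈ A, X a a = 1 / 2 * (trace X + trace (Inv_dg A * X)) ∧
    ∑ a ∈ Aᶜ, X a a = 1 / 2 * (trace X - trace (Inv_dg A * X)) := by
  have h1 : trace X = ∑ a ∈ A, X a a + ∑ a ∈ Aᶜ, X a a := by
    unfold Matrix.trace
    simp only [Matrix.diag_apply]
    rw [Finset.sum_add_sum_compl]
  have h2 : trace (Inv_dg A * X) = ∑ a ∈ A, X a a - ∑ a ∈ Aᶜ, X a a := by
    unfold Matrix.trace
    simp only [Matrix.diag_apply]
    rw [← Finset.sum_add_sum_compl A, sub_eq_add_neg, ← Finset.sum_neg_distrib]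
    unfold Inv_dg
    congr 1
    · refine Finset.sum_congr rfl fun a ha => ?_
      rw [Matrix.diagonal_mul, if_pos ha, one_mul]
    · refine Finset.sum_congr rfl fun a ha => ?_
      rw [Matrix.diagonal_mul, if_neg (Finset.mem_compl.1 ha)]
      ring
  rw [h1, h2]
  constructor <;> ring

private theorem Inv_tr2 {A : Finset I} {X Y : Matrix I I ℝ} (h1 : trace (X * Y) = 0)
    (h2 : trace (Inv_dg A * (X * Y)) = 0) :
    ∑ a ∈ A, ∑ b, X a b * Y b a = 0 ∧ ∑ a ∈ Aᶜ, ∑ b, X a b * Y b a = 0 := by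
  have h3 := Inv_tr A (X * Y)
  rw [h1, h2] at h3
  simp only [Matrix.mul_apply] at h3
  constructor
  · rw [h3.1]
    ring
  · rw [h3.2]
    ring

private theorem Inv_conj_mul {Q : Matrix I I ℝ} (hQ : Qᵀ * Q = 1) (X Y : Matrix I I ℝ) :
    Q * X * Qᵀ * (Q * Y * Qᵀ) = Q * (X * Y) * Qᵀ := by
  calc Q * X * Qᵀ * (Q * Y * Qᵀ) = Q * X * (Qᵀ * Q) * Y * Qᵀ := by simp only [Matrix.mul_assoc]
    _ = Q * (X * Y) * Qᵀ := by rw [hQ, Matrix.mul_one]; simp only [Matrix.mul_assoc]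

private theorem Inv_conj_tr {Q : Matrix I I ℝ} (hQ : Qᵀ * Q = 1) (X : Matrix I I ℝ) :
    trace (Q * X * Qᵀ) = trace X := by
  rw [Matrix.trace_mul_comm, ← Matrix.mul_assoc, hQ, Matrix.one_mul]

private theorem Inv_conj_T (Q X : Matrix I I ℝ) : (Q * X * Qᵀ)ᵀ = Q * Xᵀ * Qᵀ := by
  rw [Matrix.transpose_mul, Matrix.transpose_mul, Matrix.transpose_transpose]
  simp only [Matrix.mul_assoc]

private theorem Inv_mono {k : Submodule ℝ L} {Γ Γ' : Set (L →ₗ[ℝ] L)}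
    (h : HasEinsteinMetric L k Γ) (hΓ : Γ' ⊆ Γ) : HasEinsteinMetric L k Γ' := by
  obtain ⟨m, π, β, D, X, c, h1, h2, h3, h4, h5, h6, h7, h8, h9, h10, h11⟩ := h
  exact ⟨m, π, β, D, X, c, h1, h2, h3, h4, fun γ hγ => h5 γ (hΓ hγ), fun γ hγ => h6 γ (hΓ hγ),
    h7, h8, h9, h10, h11⟩

/-- The conclusion of `einstein_V`. -/
private def Inv_EV (m : ℕ) (ν δ : ℝ) : Prop :=
    ∀ (L : Type) [LieRing L] [LieAlgebra ℝ L] [Module.Finite ℝ L] (I : Type) [Fintype I]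
    [DecidableEq I] (R : Rp L I m) (A : Finset I) (S T Pp : L →ₗ[ℝ] L) (c : L)
    (J0 : Matrix I I ℝ) (g1 g2 : ℝ),
    Spl R A (xN ν) (xN (1 - ν)) (4 * lamN ν) S T Pp c J0 g1 g2 → TrZ R A c →
    1 / δ ≤ Fintype.card I → |(A.card : ℝ) / Fintype.card I - ν| ≤ δ →
    ∀ h : LieSubalgebra ℝ L, (∀ y ∈ h, Pp y = 0) → SmallR R h δ →
      HasEinsteinMetric L h.toSubmodule (autsG h S)

private theorem Inv_step {ν δ : ℝ} (h0 : 0 < ν) (h1 : ν < 1) (hE : Inv_EV m ν δ)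
    [Module.Finite ℝ L] (R : Rp L I m) {s : Matrix I I ℝ} {c : L} {J0 : Matrix I I ℝ} {g1 g2 : ℝ}
    (hI : InvD R s c J0 g1 g2) (hM : 1 / δ ≤ Fintype.card I) {Q : Matrix I I ℝ} {A : Finset I}
    (hQ : Q * Qᵀ = 1) (hQs : Q * s * Qᵀ = Inv_dg A)
    (hA : |(A.card : ℝ) / Fintype.card I - ν| ≤ δ)
    (hc : ((∀ k, s * R.f k = R.f k * s) ∧ s * R.J = R.J * s) ∨ ν = 1 / 2)
    (h : LieSubalgebra ℝ L) (hh : ∀ y ∈ h, s * R.ph y = R.ph y * s) (hs : SmallR R h δ) :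
    HasEinsteinMetric L h.toSubmodule (sAuts R h s J0) := by
  have hQ' : Qᵀ * Q = 1 := mul_eq_one_comm.1 hQ
  obtain ⟨R', hph, hf, hJ, -⟩ := R.exists_conj hQ
  have hcm : ∀ X : Matrix I I ℝ, s * X = X * s →
      Inv_dg A * (Q * X * Qᵀ) = Q * X * Qᵀ * Inv_dg A := by
    intro X hX
    rw [← hQs, Inv_conj_mul hQ', Inv_conj_mul hQ', hX]
  have hac : ∀ X : Matrix I I ℝ, s * X = -(X * s) →
      Inv_dg A * (Q * X * Qᵀ) = -(Q * X * Qᵀ * Inv_dg A) := by
    intro X hX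
    rw [← hQs, Inv_conj_mul hQ', Inv_conj_mul hQ', hX, Matrix.mul_neg, Matrix.neg_mul]
  have hx12 : ν = 1 / 2 → xN ν = xN (1 - ν) := by
    rintro rfl
    norm_num
  have fA : ∀ k, ((∀ a b, ¬(a ∈ A ↔ b ∈ A) → R'.f k a b = 0) ∧ (R'.f k)ᵀ = -R'.f k) ∨
      ((∀ a b, (a ∈ A ↔ b ∈ A) → R'.f k a b = 0) ∧ xN ν = xN (1 - ν)) := by
    intro k
    rw [hf]
    rcases hI.fs k with ⟨h2, h3⟩ | h2
    · left
      refine ⟨Inv_comm (hcm _ h2), ?_⟩
      rw [Inv_conj_T, h3, Matrix.mul_neg, Matrix.neg_mul]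
    · rcases hc with hc | hc
      · left
        have h3 := hc.1 k
        have h4 : R.f k = 0 := by
          have h5 : R.f k * s = 0 := by
            rw [h3] at h2
            ext a b
            have h6 := congrFun (congrFun h2 a) b
            rw [Matrix.neg_apply] at h6
            rw [Matrix.zero_apply]
            linarith
          calc R.f k = R.f k * s * s := by rw [Matrix.mul_assoc, hI.s2, Matrix.mul_one]
            _ = 0 := by rw [h5, Matrix.zero_mul]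
        rw [h4]
        simp
      · right
        exact ⟨Inv_anti (hac _ h2), hx12 hc⟩
  have JA : (∀ a b, ¬(a ∈ A ↔ b ∈ A) → R'.J a b = 0) ∨
      ((∀ a b, (a ∈ A ↔ b ∈ A) → R'.J a b = 0) ∧ xN ν = xN (1 - ν)) := by
    rw [hJ]
    rcases hc with hc | hc
    · left
      exact Inv_comm (hcm _ hc.2)
    · rcases hI.Js with h2 | h2
      · left
        exact Inv_comm (hcm _ h2)
      · right
        exact ⟨Inv_anti (hac _ h2), hx12 hc⟩
  have J0s : (Q * J0 * Qᵀ)ᵀ = -(Q * J0 * Qᵀ) := by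
    rw [Inv_conj_T, hI.J0s, Matrix.mul_neg, Matrix.neg_mul]
  have J0J : Q * J0 * Qᵀ = 0 ∨ (Q * J0 * Qᵀ)ᵀ * (Q * J0 * Qᵀ) = 1 := by
    rcases hI.J0J with h2 | h2
    · left
      rw [h2, Matrix.mul_zero, Matrix.zero_mul]
    · right
      rw [Inv_conj_T, Inv_conj_mul hQ', h2, Matrix.mul_one, hQ]
  have J0c : ∀ x, Q * J0 * Qᵀ * R'.ph x = R'.ph x * (Q * J0 * Qᵀ) := by
    intro x
    rw [hph, Inv_conj_mul hQ', Inv_conj_mul hQ', hI.J0c]
  have pc : ∀ a b, R'.ph c a b = (if a ∈ A then g1 else g2) * (Q * J0 * Qᵀ) a b := by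
    have h2 : R'.ph c = (g1 / 2) • ((1 + Inv_dg A) * (Q * J0 * Qᵀ)) +
        (g2 / 2) • ((1 - Inv_dg A) * (Q * J0 * Qᵀ)) := by
      rw [hph, hI.pc, ← hQs]
      simp only [Matrix.add_mul, Matrix.sub_mul, Matrix.one_mul, Matrix.mul_add, Matrix.mul_sub,
        Matrix.mul_smul, Matrix.smul_mul, Inv_conj_mul hQ']
    intro a b
    rw [h2]
    unfold Inv_dg
    simp only [Matrix.add_apply, Matrix.smul_apply, Matrix.add_mul, Matrix.sub_mul,
      Matrix.one_mul, Matrix.sub_apply, Matrix.diagonal_mul, smul_eq_mul]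
    split_ifs <;> ring
  have hdgm : ∀ X Y : Matrix I I ℝ,
      trace (Q * X * Qᵀ * (Q * Y * Qᵀ)) = trace (X * Y) ∧
      trace (Inv_dg A * (Q * X * Qᵀ * (Q * Y * Qᵀ))) = trace (s * X * Y) := by
    intro X Y
    constructor
    · rw [Inv_conj_mul hQ', Inv_conj_tr hQ']
    · rw [← hQs, Inv_conj_mul hQ', Inv_conj_mul hQ', Inv_conj_tr hQ', Matrix.mul_assoc]
  have htJ : ∀ x, Qf L x c = 0 → ∑ a ∈ A, ∑ b, R'.ph x a b * R'.J a b = 0 ∧
      ∑ a ∈ Aᶜ, ∑ b, R'.ph x a b * R'.J a b = 0 := by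
    intro x hx
    have h2 := hI.tJ x hx
    have h3 := Inv_tr2 (A := A) (X := R'.ph x) (Y := R'.J)
      (by rw [hph, hJ, (hdgm _ _).1, h2.1]) (by rw [hph, hJ, (hdgm _ _).2, h2.2])
    have h4 : ∀ a b, R'.J a b = -R'.J b a := by
      intro a b
      have := congrFun (congrFun R'.Js b) a
      rwa [Matrix.transpose_apply, Matrix.neg_apply] at this
    have h5 : ∀ B : Finset I, ∑ a ∈ B, ∑ b, R'.ph x a b * R'.J a b =
        -∑ a ∈ B, ∑ b, R'.ph x a b * R'.J b a := by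
      intro B
      rw [← Finset.sum_neg_distrib]
      refine Finset.sum_congr rfl fun a _ => ?_
      rw [← Finset.sum_neg_distrib]
      refine Finset.sum_congr rfl fun b _ => ?_
      rw [h4 a b]
      ring
    rw [h5, h5, h3.1, h3.2, neg_zero]
    exact ⟨rfl, rfl⟩
  have htf : TrZ R' A c := by
    intro x hx k
    have h2 := hI.tf x hx k
    exact Inv_tr2 (by rw [hph, hf, (hdgm _ _).1, h2.1]) (by rw [hph, hf, (hdgm _ _).2, h2.2])
  obtain ⟨S, T, Pp, hS⟩ := R'.exists_spl (xN_pos h0 h1) (xN_pos (by linarith : 0 < 1 - ν)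
    (by linarith)) (by linarith [(lamN_pos h0 h1).1] : 0 < 4 * lamN ν) fA JA J0s J0J
    (Inv_comm (hcm _ hI.sJ0)) J0c hI.cc pc htJ
  have hPh : ∀ y ∈ h, Pp y = 0 := by
    intro y hy
    apply R'.inj
    ext a b
    rw [hS.pp]
    split_ifs with hab
    · rfl
    · rw [hph]
      exact Inv_comm (hcm _ (hh y hy)) a b hab
  have hmain := hE L I R' A S T Pp c _ g1 g2 hS htf hM hA h hPh (hs.conj hQ hph)
  refine Inv_mono hmain ?_
  rintro γ ⟨δ', hγ, hm, g, hg, hsg, hJg, hδg⟩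
  refine ⟨δ', hm, ?_, hγ⟩
  refine Inv_aut hS (g := Q * g * Qᵀ) ?_ (hcm _ hsg) ?_ ?_
  · rw [Inv_conj_T, Inv_conj_mul hQ', hg, Matrix.mul_one, hQ]
  · rw [Inv_conj_mul hQ', Inv_conj_mul hQ', hJg]
  · intro x
    rw [hph, hph, hδg, Inv_conj_T, Inv_conj_mul hQ', Inv_conj_mul hQ']

private theorem Inv_card {s : Matrix I I ℝ} {Q : Matrix I I ℝ} {A : Finset I} (hQ : Q * Qᵀ = 1)
    (hQs : Q * s * Qᵀ = Inv_dg A) : trace s = 2 * A.card - Fintype.card I := by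
  have hQ' : Qᵀ * Q = 1 := mul_eq_one_comm.1 hQ
  rw [← Inv_conj_tr hQ' s, hQs]
  have h1 := (Inv_tr A (1 : Matrix I I ℝ)).1
  rw [Matrix.mul_one, Matrix.trace_one] at h1
  simp only [Matrix.one_apply_eq, Finset.sum_const, nsmul_eq_mul, mul_one] at h1
  linarith

end Inv_aux

theorem einstein_inv (m : ℕ) {θ : ℝ} (hθ : 0 < θ) : ∃ δ : ℝ, 0 < δ ∧
    ∀ (L : Type) [LieRing L] [LieAlgebra ℝ L] [Module.Finite ℝ L] (I : Type) [Fintype I]
    [DecidableEq I] (R : Rp L I m) (s : Matrix I I ℝ) (c : L) (J0 : Matrix I I ℝ) (g1 g2 : ℝ),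
    InvD R s c J0 g1 g2 → 1 / δ ≤ Fintype.card I →
    |trace s| ≤ (1 - 2 * θ) * Fintype.card I →
    (((∀ k, s * R.f k = R.f k * s) ∧ s * R.J = R.J * s) ∨ trace s = 0) →
    ∀ h : LieSubalgebra ℝ L, (∀ y ∈ h, s * R.ph y = R.ph y * s) → SmallR R h δ →
      HasEinsteinMetric L h.toSubmodule (sAuts R h s J0) := by
  classical
  have hcore : ∀ ν : ℝ, ∃ δ : ℝ, 0 < δ ∧ (0 < ν → ν < 1 → Inv_EV m ν δ) := by
    intro ν
    by_cases h : 0 < ν ∧ ν < 1
    · obtain ⟨δ, hδ, hd⟩ := einstein_V m h.1 h.2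
      exact ⟨δ, hδ, fun _ _ => hd⟩
    · exact ⟨1, one_pos, fun h0 h1 => absurd ⟨h0, h1⟩ h⟩
  choose d hd0 hd using hcore
  obtain ⟨t, ht, hcov⟩ := (isCompact_Icc (a := θ) (b := 1 - θ)).elim_nhds_subcover
    (fun ν => Metric.ball ν (d ν)) fun ν _ => Metric.ball_mem_nhds ν (hd0 ν)
  obtain ⟨δ, hδ, hmin, hmin2⟩ : ∃ δ : ℝ, 0 < δ ∧ (∀ ν ∈ t, δ ≤ d ν) ∧ δ ≤ d (1 / 2) := by
    refine ⟨(insert (1 / 2) t).inf' (Finset.insert_nonempty _ _) d, ?_,
      fun ν hν => Finset.inf'_le d (Finset.mem_insert_of_mem hν),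
      Finset.inf'_le d (Finset.mem_insert_self _ _)⟩
    rw [Finset.lt_inf'_iff]
    exact fun ν _ => hd0 ν
  refine ⟨δ, hδ, ?_⟩
  intro L _ _ _ I _ _ R s c J0 g1 g2 hI hM htr hcase h hh hs
  have hM0 : (0 : ℝ) < Fintype.card I := lt_of_lt_of_le (by positivity) hM
  obtain ⟨Q, A, hQ, hQs⟩ := exists_diag hI.ss hI.s2
  have hcard := Inv_card hQ hQs
  rcases hcase with hcase | hcase
  · have hmem : (A.card : ℝ) / Fintype.card I ∈ Set.Icc θ (1 - θ) := by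
      rw [hcard] at htr
      have h2 := abs_le.1 htr
      constructor
      · rw [le_div_iff₀ hM0]
        linarith [h2.1]
      · rw [div_le_iff₀ hM0]
        linarith [h2.2]
    obtain ⟨ν, hνt, hν⟩ := Set.mem_iUnion₂.1 (hcov hmem)
    have hνI := ht ν hνt
    have h0 : 0 < ν := lt_of_lt_of_le hθ hνI.1
    have h1 : ν < 1 := by linarith [hνI.2]
    rw [Metric.mem_ball, Real.dist_eq] at hν
    exact Inv_step h0 h1 (hd ν h0 h1) R hI
      ((one_div_le_one_div_of_le hδ (hmin ν hνt)).trans hM) hQ hQs hν.le (Or.inl hcase) h hh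
      (hs.mono (hmin ν hνt))
  · have h2 : (A.card : ℝ) / Fintype.card I - 1 / 2 = 0 := by
      rw [hcase] at hcard
      rw [sub_eq_zero, div_eq_iff hM0.ne']
      linarith
    exact Inv_step (by norm_num) (by norm_num) (hd (1 / 2) (by norm_num) (by norm_num)) R hI
      ((one_div_le_one_div_of_le hδ hmin2).trans hM) hQ hQs
      (by rw [h2, abs_zero]; exact (hd0 _).le) (Or.inr rfl) h hh (hs.mono hmin2)

end Pool.Agent.EinV
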