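import Pool.Agent.EinV.ClRp
import Pool.Agent.EinV.Inv

/-!
# The centre of the algebra of block diagonal matrices

`inv_I`: `t = trace s`, `M = card`.  If `iu = 0`, take `c = 0`, `g1 = g2 = 0` (`J = rmul 0 = 0`).  Otherwise `X = (1/2) (M s - t) J`,
`c = κ • R.hat X`, `κ = 1 / √(n |X|²)`, `g1 = κ (M - t) / 2`, `g2 = - κ (M + t) / 2`; `ph (hat X) = X` by `ph_hat`, since
`∑ X a b * J a b = (1/2) trace ((M s - t) J Jᵀ) = (1/2) (M t - t M) = 0`, `Jᵀ J = 1`.
`tJ`: `trace (ph x * J) = 0` by `cl_trace`, and `0 = Qf c x = n κ ∑ X a b * ph x a b = -(n κ / 2) (M trace (s J ph x) - t trace (J ph x))`.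
`tf`: if `bs k = iu`, this is `tJ`; otherwise there is `l` with `f l * f k = -(f k * f l)`, `f l` commutes with `s` and `ph x`, and
`trace (s X f k) = trace (f l s X f k (f l)ᵀ) = - trace (s X f k)`.
-/

namespace Pool.Agent.EinV

open Matrix Pool.Agent.EStab Pool.Agent.EinS Pool.Agent.SmIso Pool.Agent.EinU Pool.Agent.EinG

attribute [local instance 100] LieRing.ofAssociativeRing

variable {A : Type} [Ring A] [StarRing A] [Algebra ℝ A] [Cen A] [Coef A] [CoefU A]
  {ι : Type} [Fintype ι] [DecidableEq ι]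

private theorem ClInv_sum {I : Type} [Fintype I] (X Y : Matrix I I ℝ) :
    ∑ a, ∑ b, X a b * Y a b = trace (X * Yᵀ) := by
  unfold trace
  simp only [Matrix.diag_apply, Matrix.mul_apply, Matrix.transpose_apply]

omit [CoefU A] in
private theorem ClInv_rmul_zero : rmul ι (0 : A) = 0 := by
  ext a b
  simp only [rmul, Matrix.of_apply, mul_zero, zero_mul, map_zero, Matrix.zero_apply]
  split_ifs <;> rfl

/-- The trace vanishes by conjugation. -/
private theorem ClInv_conj {I : Type} [Fintype I] [DecidableEq I] {Y F G : Matrix I I ℝ}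
    (hG : Gᵀ * G = 1) (h1 : G * Y = Y * G) (h2 : G * F = -(F * G)) : trace (Y * F) = 0 := by
  have hG' : G * Gᵀ = 1 := mul_eq_one_comm.1 hG
  have e1 : trace (Y * F) = trace (G * (Y * F) * Gᵀ) := by
    rw [Matrix.trace_mul_comm (G * (Y * F)) Gᵀ, ← Matrix.mul_assoc, hG, Matrix.one_mul]
  have e2 : G * (Y * F) * Gᵀ = -(Y * F) := by
    calc G * (Y * F) * Gᵀ = (G * Y) * F * Gᵀ := by rw [Matrix.mul_assoc G Y F]
      _ = Y * (G * F) * Gᵀ := by rw [h1, Matrix.mul_assoc Y G F]
      _ = -(Y * F * (G * Gᵀ)) := by rw [h2]; noncomm_ring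
      _ = _ := by rw [hG', Matrix.mul_one]
  rw [e2, Matrix.trace_neg] at e1
  linarith

theorem inv_I (R : Rp (cl A ι) (ι × Fin (Coef.m A)) (CoefU.mu A)) (hph : ∀ x, R.ph x = lmul x.1)
    (hf : ∀ k, R.f k = rmul ι (CoefU.bs k)) (hJ : R.J = rmul ι (CoefU.iu : A))
    {s : Matrix (ι × Fin (Coef.m A)) (ι × Fin (Coef.m A)) ℝ} (ss : sᵀ = s) (s2 : s * s = 1)
    (hs : ∀ u : A, s * rmul ι u = rmul ι u * s)
    (ht : |trace s| < Fintype.card (ι × Fin (Coef.m A))) :
    ∃ (c : cl A ι) (g1 g2 : ℝ), InvD R s c R.J g1 g2 := by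
  have hfs : ∀ k, (R.f k)ᵀ = -R.f k := by
    intro k
    rw [hf, rmul_T, CoefU.bs_skew, rmul_neg]
  have hsf : ∀ k, s * R.f k = R.f k * s := by
    intro k
    rw [hf, hs]
  have hsJ : s * R.J = R.J * s := by rw [hJ, hs]
  -- the conjugation argument
  have hconj : ∀ k, CoefU.bs k ≠ (CoefU.iu : A) → ∀ x : cl A ι,
      trace (R.ph x * R.f k) = 0 ∧ trace (s * R.ph x * R.f k) = 0 := by
    intro k hk x
    rcases CoefU.bs_or (A := A) k with h1 | ⟨l, hl⟩
    · exact absurd h1 hk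
    · have hG : (R.f l)ᵀ * R.f l = 1 := R.fo l
      have h2 : R.f l * R.f k = -(R.f k * R.f l) := by
        rw [hf, hf, rmul_mul, rmul_mul, ← rmul_neg, hl, neg_neg]
      refine ⟨ClInv_conj hG (R.com l x) h2, ClInv_conj hG ?_ h2⟩
      rw [← Matrix.mul_assoc, ← hsf, Matrix.mul_assoc, R.com, Matrix.mul_assoc]
  rcases CoefU.iu_or (A := A) with hiu | hiu
  · -- no centre
    have hJ0 : R.J = 0 := by rw [hJ, hiu, ClInv_rmul_zero]
    refine ⟨0, 0, 0, ss, s2, fun k => Or.inl ⟨hsf k, hfs k⟩, Or.inl hsJ, R.Js, R.JJ, R.Jc, hsJ,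
      Or.inr rfl, ?_, ?_, ?_⟩
    · rw [map_zero, zero_div, zero_smul, zero_smul, add_zero]
    · intro x _
      rw [hJ0, Matrix.mul_zero, Matrix.mul_zero, Matrix.trace_zero]
      exact ⟨rfl, rfl⟩
    · intro x _ k
      by_cases hk : CoefU.bs k = (CoefU.iu : A)
      · have hf0 : R.f k = 0 := by rw [hf, hk, hiu, ClInv_rmul_zero]
        rw [hf0, Matrix.mul_zero, Matrix.mul_zero, Matrix.trace_zero]
        exact ⟨rfl, rfl⟩
      · exact hconj k hk x
  · -- the centre is spanned by `c`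
    have hJJ : R.Jᵀ * R.J = 1 := by
      rw [hJ, rmul_T, rmul_mul, hiu, rmul_one]
    have hJJ' : R.J * R.Jᵀ = 1 := mul_eq_one_comm.1 hJJ
    have hfJ : ∀ k, R.f k * R.J = R.J * R.f k := by
      intro k
      rw [hf, hJ, rmul_mul, rmul_mul, CoefU.iu_comm]
    obtain ⟨M, hM⟩ : ∃ M : ℝ, M = Fintype.card (ι × Fin (Coef.m A)) := ⟨_, rfl⟩
    obtain ⟨t, hts⟩ : ∃ t : ℝ, t = trace s := ⟨_, rfl⟩
    rw [← hM, ← hts] at ht
    have htr1 : trace (1 : Matrix (ι × Fin (Coef.m A)) (ι × Fin (Coef.m A)) ℝ) = M := by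
      rw [Matrix.trace_one, hM]
    obtain ⟨X, hX⟩ : ∃ X : Matrix (ι × Fin (Coef.m A)) (ι × Fin (Coef.m A)) ℝ,
      X = (1 / 2 : ℝ) • ((M • s - t • (1 : Matrix _ _ ℝ)) * R.J) := ⟨_, rfl⟩
    have hXT : Xᵀ = -X := by
      rw [hX, Matrix.transpose_smul, Matrix.transpose_mul, Matrix.transpose_sub,
        Matrix.transpose_smul, Matrix.transpose_smul, Matrix.transpose_one, ss, R.Js,
        ← smul_neg]
      congr 1
      rw [Matrix.neg_mul, Matrix.mul_sub, Matrix.sub_mul, Matrix.mul_smul, Matrix.mul_smul,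
        Matrix.smul_mul, Matrix.smul_mul, Matrix.mul_one, Matrix.one_mul, hsJ]
    have hXf : ∀ k, R.f k * X = X * R.f k := by
      intro k
      rw [hX, Matrix.mul_smul, Matrix.smul_mul]
      congr 1
      rw [Matrix.sub_mul, Matrix.mul_sub, Matrix.sub_mul, Matrix.smul_mul, Matrix.smul_mul,
        Matrix.mul_smul, Matrix.mul_smul, Matrix.smul_mul, Matrix.smul_mul, Matrix.one_mul,
        ← Matrix.mul_assoc, ← hsf, Matrix.mul_assoc, hfJ, ← Matrix.mul_assoc]
    have hXJ : ∑ a, ∑ b, X a b * R.J a b = 0 := by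
      rw [ClInv_sum, hX, Matrix.smul_mul, Matrix.mul_assoc, hJJ', Matrix.mul_one,
        Matrix.trace_smul, Matrix.trace_sub, Matrix.trace_smul, Matrix.trace_smul, htr1, ← hts]
      simp only [smul_eq_mul]
      ring
    have hph0 : R.ph (R.hat X) = X := by
      rw [R.ph_hat hXT hXf, hXJ, zero_div, zero_smul, sub_zero]
    have hXX : ∑ a, ∑ b, X a b * X a b = 1 / 4 * M * (M ^ 2 - t ^ 2) := by
      have e1 : X * Xᵀ = (1 / 4 : ℝ) • ((M ^ 2 + t ^ 2) • (1 : Matrix _ _ ℝ) - (2 * M * t) • s) := by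
        have e2 : Xᵀ = (1 / 2 : ℝ) • (R.Jᵀ * (M • s - t • (1 : Matrix _ _ ℝ))) := by
          rw [hX, Matrix.transpose_smul, Matrix.transpose_mul, Matrix.transpose_sub,
            Matrix.transpose_smul, Matrix.transpose_smul, Matrix.transpose_one, ss]
        rw [e2, hX, Matrix.smul_mul, Matrix.mul_smul, smul_smul, Matrix.mul_assoc,
          ← Matrix.mul_assoc R.J, hJJ', Matrix.one_mul]
        simp only [Matrix.sub_mul, Matrix.mul_sub, Matrix.smul_mul, Matrix.mul_smul,
          Matrix.mul_one, Matrix.one_mul, s2]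
        module
      rw [ClInv_sum, e1, Matrix.trace_smul, Matrix.trace_sub, Matrix.trace_smul, Matrix.trace_smul,
        htr1, ← hts]
      simp only [smul_eq_mul]
      ring
    have hM0 : 0 < M := lt_of_le_of_lt (abs_nonneg _) ht
    have hXpos : 0 < R.n * (1 / 4 * M * (M ^ 2 - t ^ 2)) := by
      have h1 : t ^ 2 < M ^ 2 := by
        rw [← sq_abs t]
        exact pow_lt_pow_left₀ ht (abs_nonneg _) two_ne_zero
      have h2 : 0 < M ^ 2 - t ^ 2 := by linarith
      have h3 := R.n0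
      positivity
    obtain ⟨ν, hν⟩ : ∃ ν : ℝ, ν = R.n * (1 / 4 * M * (M ^ 2 - t ^ 2)) := ⟨_, rfl⟩
    rw [← hν] at hXpos
    obtain ⟨κ, hκ⟩ : ∃ κ : ℝ, κ = 1 / √ν := ⟨_, rfl⟩
    have hsq : 0 < √ν := Real.sqrt_pos.2 hXpos
    have hκ0 : κ ≠ 0 := by
      rw [hκ]
      positivity
    have hκν : κ * (κ * ν) = 1 := by
      rw [hκ]
      have := Real.mul_self_sqrt hXpos.le
      field_simp
      rw [sq, this]
    have hQ0 : Qf (cl A ι) (R.hat X) (R.hat X) = ν := by
      rw [R.Qf_hatl, hph0, hXX, hν]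
    have hpc : R.ph (κ • R.hat X) = (κ * (M - t) / 2 / 2) • ((1 + s) * R.J) +
        (-(κ * (M + t)) / 2 / 2) • ((1 - s) * R.J) := by
      rw [map_smul, hph0, hX, Matrix.sub_mul, Matrix.add_mul, Matrix.sub_mul, Matrix.smul_mul,
        Matrix.smul_mul, Matrix.one_mul]
      module
    have htJ : ∀ x : cl A ι, Qf (cl A ι) x (κ • R.hat X) = 0 →
        trace (R.ph x * R.J) = 0 ∧ trace (s * R.ph x * R.J) = 0 := by
      intro x hx
      have h1 : trace (R.ph x * R.J) = 0 := by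
        rw [hph, hJ]
        exact cl_trace x
      refine ⟨h1, ?_⟩
      rw [map_smul, smul_eq_mul] at hx
      have h2 : Qf (cl A ι) (R.hat X) x = 0 := by
        rw [Qf_symm]
        rcases mul_eq_zero.1 hx with h | h
        · exact absurd h hκ0
        · exact h
      rw [R.Qf_hatl] at h2
      have h3 : ∑ a, ∑ b, X a b * R.ph x a b = 0 := by
        rcases mul_eq_zero.1 h2 with h | h
        · exact absurd h R.n0.ne'
        · exact h
      rw [ClInv_sum, R.skew, Matrix.mul_neg, Matrix.trace_neg, neg_eq_zero, hX, Matrix.smul_mul,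
        Matrix.trace_smul, smul_eq_mul, Matrix.mul_assoc, Matrix.sub_mul, Matrix.trace_sub,
        Matrix.smul_mul, Matrix.smul_mul, Matrix.trace_smul, Matrix.trace_smul, Matrix.one_mul,
        R.Jc, h1, smul_zero, sub_zero, smul_eq_mul, ← Matrix.mul_assoc] at h3
      have h4 : M * trace (s * R.ph x * R.J) = 0 := by linarith
      rcases mul_eq_zero.1 h4 with h | h
      · exact absurd h hM0.ne'
      · exact h
    refine ⟨κ • R.hat X, κ * (M - t) / 2, -(κ * (M + t)) / 2, ss, s2,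
      fun k => Or.inl ⟨hsf k, hfs k⟩, Or.inl hsJ, R.Js, R.JJ, R.Jc, hsJ, Or.inl ?_, hpc, htJ, ?_⟩
    · rw [map_smul, map_smul, LinearMap.smul_apply, hQ0, smul_eq_mul, smul_eq_mul]
      exact hκν
    · intro x hx k
      by_cases hk : CoefU.bs k = (CoefU.iu : A)
      · have hfJ' : R.f k = R.J := by rw [hf, hJ, hk]
        rw [hfJ']
        exact htJ x hx
      · exact hconj k hk x

/-! ### The coordinates of the vectors -/

/-- The real coordinates of a vector. -/
noncomputable def co : (ι → A) ≃ₗ[ℝ] (ι × Fin (Coef.m A) → ℝ) where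
  toFun v := fun a => rl (v a.1 * star (Coef.b a.2))
  invFun w := fun i => ∑ p, w (i, p) • Coef.b p
  map_add' v w := by
    funext a
    simp only [Pi.add_apply, add_mul, map_add]
  map_smul' r v := by
    funext a
    simp only [Pi.smul_apply, smul_mul_assoc, map_smul, RingHom.id_apply]
  left_inv v := by
    funext i
    exact (Coef.exp (v i)).symm
  right_inv w := by
    funext a
    simp only [Finset.sum_mul, smul_mul_assoc, rl, map_sum, map_smul, smul_eq_mul, Coef.orth]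
    simp

theorem co_apply (v : ι → A) (a : ι × Fin (Coef.m A)) :
    co v a = rl (v a.1 * star (Coef.b a.2)) := rfl

theorem co_lmul (X : Matrix ι ι A) (v : ι → A) : co (X *ᵥ v) = lmul X *ᵥ co v := by
  funext a
  rw [co_apply]
  simp only [Matrix.mulVec, dotProduct]
  rw [Fintype.sum_prod_type, Finset.sum_mul, rl_sum]
  refine Finset.sum_congr rfl fun j _ => ?_
  conv_lhs => rw [Coef.exp (v j)]
  rw [Finset.mul_sum, Finset.sum_mul, rl_sum]
  refine Finset.sum_congr rfl fun q _ => ?_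
  rw [lmul_apply, co_apply, mul_smul_comm, smul_mul_assoc, rl_smul, mul_comm]

theorem co_rmul (u : A) (v : ι → A) : co (fun i => v i * u) = rmul ι u *ᵥ co v := by
  funext a
  rw [co_apply]
  simp only [Matrix.mulVec, dotProduct]
  rw [Fintype.sum_prod_type, Finset.sum_eq_single a.1]
  · conv_lhs => rw [Coef.exp (v a.1)]
    rw [Finset.sum_mul, Finset.sum_mul, rl_sum]
    refine Finset.sum_congr rfl fun q _ => ?_
    rw [co_apply, rmul, Matrix.of_apply, if_pos rfl, smul_mul_assoc, smul_mul_assoc, rl_smul,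
      mul_comm]
  · intro j _ hj
    refine Finset.sum_eq_zero fun q _ => ?_
    rw [rmul, Matrix.of_apply, if_neg (Ne.symm hj), zero_mul]
  · intro h
    exact absurd (Finset.mem_univ _) h

theorem co_dot (v w : ι → A) : co v ⬝ᵥ co w = rl (star v ⬝ᵥ w) := by
  simp only [dotProduct]
  rw [Fintype.sum_prod_type, rl_sum]
  refine Finset.sum_congr rfl fun i _ => ?_
  rw [Pi.star_apply, rl_mul_comm, rl_star_mul, coef_parseval]
  rfl

end Pool.Agent.EinV
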