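import Pool.Agent.EinV.Hat
import Pool.Agent.EinS.ClConj

/-!
# The classical Lie algebras as algebras of real skew matrices

`cl A ι` (`so`, `su`, `sp` of `N = card ι` variables) acts on `A^ι = ℝ^(ι × Fin (Coef.m A))` from the left; the right multiplications by the
imaginary units `bs k` commute with this action.

`exists_rp`: `n = N - 2 sg / (m + 1)`, `m + 1 = Coef.m A`, by `Qf_cl` and `∑ p q, rl (X b_q b̄_p) rl (Y b_q b̄_p) = (m + 1) rl (X star Y)`.
`ker`: with `u ∈ {1, bs}`, `∑ u, rl (b_p u b̄_r) rl (b_q u b̄_s) = rl (b̄_r b_p star (b̄_s b_q))` by `par`.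
`rmul k` is the matrix of the right multiplication by `bs k`, `lmul X` the matrix of the left multiplication by the matrix `X`.
-/

namespace Pool.Agent.EinV

open Matrix Pool.Agent.EStab Pool.Agent.EinS Pool.Agent.SmIso Pool.Agent.EinU Pool.Agent.EinG
  Quaternion

attribute [local instance 100] LieRing.ofAssociativeRing

/-- The imaginary units. -/
class CoefU (A : Type) [Ring A] [StarRing A] [Algebra ℝ A] [Cen A] [Coef A] where
  /-- the number of imaginary units -/
  mu : ℕ
  /-- the imaginary units -/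
  bs : Fin mu → A
  /-- the central imaginary unit -/
  iu : A
  hm : Coef.m A = mu + 1
  bs_skew : ∀ k, star (bs k) = -bs k
  bs_one : ∀ k, bs k * star (bs k) = 1
  par : ∀ x y : A, rl (x * star y) = rl x * rl y + ∑ k, rl (x * bs k) * rl (y * bs k)
  iu_comm : ∀ x, iu * x = x * iu
  iu_skew : star iu = -iu
  iu_or : iu = 0 ∨ iu * star iu = 1
  iu_cen : ∀ x : A, Cen.cen ((1 / 2 : ℝ) • (x - star x)) = rl (x * star iu) • iu
  bs_or : ∀ k, bs k = iu ∨ ∃ l, bs l * bs k = -(bs k * bs l)

noncomputable instance coefUReal : CoefU ℝ where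
  mu := 0
  bs := ![]
  iu := 0
  hm := rfl
  bs_skew k := k.elim0
  bs_one k := k.elim0
  par x y := by
    simp only [star_trivial, Finset.univ_eq_empty, Finset.sum_empty, add_zero]
    rfl
  iu_comm x := by simp
  iu_skew := by simp
  iu_or := Or.inl rfl
  iu_cen x := by simp [cen_real]
  bs_or k := k.elim0

noncomputable instance coefUComplex : CoefU ℂ where
  mu := 1
  bs := ![Complex.I]
  iu := Complex.I
  hm := rfl
  bs_skew k := by
    fin_cases k
    simp
  bs_one k := by
    fin_cases k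
    simp
  par x y := by
    change (x * star y).re = x.re * y.re + ∑ k : Fin 1, (x * ![Complex.I] k).re * (y * ![Complex.I] k).re
    simp
  iu_comm x := mul_comm _ _
  iu_skew := by simp
  iu_or := Or.inr (by simp)
  iu_cen x := by
    rw [cen_complex]
    change _ = (x * star Complex.I).re • Complex.I
    apply Complex.ext <;> simp
    ring
  bs_or k := by
    fin_cases k
    exact Or.inl rfl

noncomputable instance coefUQuat : CoefU ℍ[ℝ] where
  mu := 3
  bs := ![⟨0, 1, 0, 0⟩, ⟨0, 0, 1, 0⟩, ⟨0, 0, 0, 1⟩]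
  iu := 0
  hm := rfl
  bs_skew k := by
    fin_cases k <;> apply Quaternion.ext <;> simp
  bs_one k := by
    fin_cases k <;> apply Quaternion.ext <;> simp
  par x y := by
    change (x * star y).re = x.re * y.re +
      ∑ k : Fin 3, (x * (![⟨0, 1, 0, 0⟩, ⟨0, 0, 1, 0⟩, ⟨0, 0, 0, 1⟩] : Fin 3 → ℍ[ℝ]) k).re *
        (y * (![⟨0, 1, 0, 0⟩, ⟨0, 0, 1, 0⟩, ⟨0, 0, 0, 1⟩] : Fin 3 → ℍ[ℝ]) k).re
    simp [Fin.sum_univ_three]
    ring
  iu_comm x := by simp
  iu_skew := by simp
  iu_or := Or.inl rfl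
  iu_cen x := by
    rw [cen_quat]
    apply Quaternion.ext <;> simp
  bs_or k := by
    fin_cases k
    · refine Or.inr ⟨1, ?_⟩
      apply Quaternion.ext <;> simp
    · refine Or.inr ⟨0, ?_⟩
      apply Quaternion.ext <;> simp
    · refine Or.inr ⟨0, ?_⟩
      apply Quaternion.ext <;> simp

variable {A : Type} [Ring A] [StarRing A] [Algebra ℝ A] [Cen A] [Coef A] [CoefU A]
  {ι : Type} [Fintype ι] [DecidableEq ι]

/-- The real matrix of the left multiplication by a matrix. -/
noncomputable def lmul : Matrix ι ι A →ₗ[ℝ]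
    Matrix (ι × Fin (Coef.m A)) (ι × Fin (Coef.m A)) ℝ where
  toFun X := of fun a b => rl (X a.1 b.1 * Coef.b b.2 * star (Coef.b a.2))
  map_add' X Y := by
    ext a b
    simp only [Matrix.of_apply, Matrix.add_apply, add_mul, map_add]
  map_smul' r X := by
    ext a b
    simp only [Matrix.of_apply, Matrix.smul_apply, smul_mul_assoc, map_smul, RingHom.id_apply]

theorem lmul_apply (X : Matrix ι ι A) (a b : ι × Fin (Coef.m A)) :
    lmul X a b = rl (X a.1 b.1 * Coef.b b.2 * star (Coef.b a.2)) := rfl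

/-- The real matrix of the right multiplication by an element. -/
noncomputable def rmul (ι : Type) [Fintype ι] [DecidableEq ι] (u : A) :
    Matrix (ι × Fin (Coef.m A)) (ι × Fin (Coef.m A)) ℝ :=
  of fun a b => if a.1 = b.1 then rl (Coef.b b.2 * u * star (Coef.b a.2)) else 0

/-- Parseval for the coefficients, in the form used for products of matrices. -/
private theorem ClRp_key (x y : A) :
    ∑ r : Fin (Coef.m A), rl (x * Coef.b r) * rl (y * star (Coef.b r)) = rl (x * y) := by
  have h := coef_parseval y (star x)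
  rw [star_star, rl_mul_comm y x] at h
  rw [h]
  refine Finset.sum_congr rfl fun r _ => ?_
  rw [mul_comm, ← rl_star (x * Coef.b r), star_mul, rl_mul_comm (star (Coef.b r))]

private theorem ClRp_sum (α : Type) [Fintype α] [DecidableEq α] (j : α) (f : α → ℝ) :
    ∑ k : α, (if k = j then f k else 0) = f j := by
  rw [Finset.sum_ite_eq' Finset.univ j f, if_pos (Finset.mem_univ _)]

private theorem ClRp_sum' (α : Type) [Fintype α] [DecidableEq α] (j : α) (f : α → ℝ) :
    ∑ k : α, (if j = k then f k else 0) = f j := by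
  rw [Finset.sum_ite_eq Finset.univ j f, if_pos (Finset.mem_univ _)]

theorem lmul_one : lmul (1 : Matrix ι ι A) = 1 := by
  ext ⟨i, p⟩ ⟨j, q⟩
  rw [lmul_apply, Matrix.one_apply, Matrix.one_apply]
  by_cases h : i = j
  · rw [if_pos h, one_mul, rl, Coef.orth]
    by_cases h2 : q = p
    · rw [if_pos h2, if_pos (Prod.ext h h2.symm)]
    · rw [if_neg h2, if_neg fun h3 => h2 (Prod.ext_iff.1 h3).2.symm]
  · rw [if_neg h, zero_mul, zero_mul, rl, map_zero, if_neg fun h3 => h (Prod.ext_iff.1 h3).1]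

theorem lmul_mul (X Y : Matrix ι ι A) : lmul (X * Y) = lmul X * lmul Y := by
  ext ⟨i, p⟩ ⟨j, q⟩
  rw [Matrix.mul_apply, lmul_apply, Fintype.sum_prod_type, Matrix.mul_apply, Finset.sum_mul,
    Finset.sum_mul, rl_sum]
  refine Finset.sum_congr rfl fun k _ => ?_
  simp only [lmul_apply]
  have h := ClRp_key (star (Coef.b p) * X i k) (Y k j * Coef.b q)
  have h1 : ∀ r : Fin (Coef.m A), rl (X i k * Coef.b r * star (Coef.b p)) =
      rl (star (Coef.b p) * X i k * Coef.b r) := by
    intro r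
    rw [rl_mul_comm, mul_assoc]
  simp only [h1]
  rw [h, mul_assoc (star _), rl_mul_comm (star _), mul_assoc (X i k)]

theorem lmul_conjT (X : Matrix ι ι A) : lmul Xᴴ = (lmul X)ᵀ := by
  ext ⟨i, p⟩ ⟨j, q⟩
  rw [Matrix.transpose_apply, lmul_apply, lmul_apply, Matrix.conjTranspose_apply]
  rw [← rl_star (X j i * _ * _)]
  simp only [star_mul, star_star]
  rw [← mul_assoc, rl_mul_comm _ (star (X j i)), ← mul_assoc]

theorem lmul_ip (X Y : Matrix ι ι A) :
    ∑ a, ∑ b, lmul X a b * lmul Y a b = (CoefU.mu A + 1 : ℝ) * ip X Y := by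
  have hm : (CoefU.mu A + 1 : ℝ) = Coef.m A := by
    rw [CoefU.hm (A := A)]
    push_cast
    rfl
  rw [hm, ip, Fintype.sum_prod_type, Finset.mul_sum]
  refine Finset.sum_congr rfl fun i _ => ?_
  rw [Finset.sum_comm, Fintype.sum_prod_type, Finset.mul_sum]
  refine Finset.sum_congr rfl fun j _ => ?_
  have h1 : ∀ q : Fin (Coef.m A), ∑ p : Fin (Coef.m A),
      lmul X (i, p) (j, q) * lmul Y (i, p) (j, q) = rl (X i j * star (Y i j)) := by
    intro q
    simp only [lmul_apply]
    rw [← coef_parseval, star_mul, ← mul_assoc, mul_assoc (X i j), b_mul_star, mul_one]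
  rw [Finset.sum_congr rfl fun q _ => h1 q, Finset.sum_const, Finset.card_univ, Fintype.card_fin,
    nsmul_eq_mul]

theorem lmul_inj {X : Matrix ι ι A} (h : lmul X = 0) : X = 0 := by
  have h1 := lmul_ip X X
  rw [h] at h1
  simp only [Matrix.zero_apply, mul_zero, Finset.sum_const_zero] at h1
  have h2 : (CoefU.mu A + 1 : ℝ) ≠ 0 := by positivity
  rcases mul_eq_zero.1 h1.symm with h3 | h3
  · exact absurd h3 h2
  · exact ip_self_eq_zero h3

private theorem ClRp_rmul_apply (u : A) (i j : ι) (p q : Fin (Coef.m A)) :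
    rmul ι u (i, p) (j, q) = if i = j then rl (Coef.b q * u * star (Coef.b p)) else 0 := rfl

theorem rmul_mul (u v : A) : rmul ι u * rmul ι v = rmul ι (v * u) := by
  ext ⟨i, p⟩ ⟨j, q⟩
  rw [Matrix.mul_apply, Fintype.sum_prod_type]
  have h1 : ∀ k : ι, (∑ r : Fin (Coef.m A), rmul ι u (i, p) (k, r) * rmul ι v (k, r) (j, q)) =
      if i = k then (if k = j then ∑ r : Fin (Coef.m A), rl (Coef.b r * u * star (Coef.b p)) *
        rl (Coef.b q * v * star (Coef.b r)) else 0) else 0 := by
    intro k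
    simp only [ClRp_rmul_apply]
    by_cases h2 : i = k
    · by_cases h3 : k = j
      · simp only [if_pos h2, if_pos h3]
      · simp only [if_neg h3, mul_zero, Finset.sum_const_zero, ite_self]
    · simp only [if_neg h2, zero_mul, Finset.sum_const_zero]
  rw [Finset.sum_congr rfl fun k _ => h1 k, ClRp_sum', ClRp_rmul_apply]
  by_cases h : i = j
  · rw [if_pos h, if_pos h]
    have h2 := ClRp_key (u * star (Coef.b p)) (Coef.b q * v)
    have h3 : ∀ r : Fin (Coef.m A), rl (Coef.b r * u * star (Coef.b p)) =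
        rl (u * star (Coef.b p) * Coef.b r) := by
      intro r
      rw [mul_assoc, rl_mul_comm]
    simp only [h3]
    rw [h2, mul_assoc u, rl_mul_comm u]
    simp only [mul_assoc]
    rw [rl_mul_comm]
    simp only [mul_assoc]
  · rw [if_neg h, if_neg h]

theorem rmul_T (u : A) : (rmul ι u)ᵀ = rmul ι (star u) := by
  ext ⟨i, p⟩ ⟨j, q⟩
  rw [Matrix.transpose_apply, ClRp_rmul_apply, ClRp_rmul_apply]
  by_cases h : i = j
  · rw [if_pos h, if_pos h.symm, ← rl_star]
    simp only [star_mul, star_star, mul_assoc]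
  · rw [if_neg h, if_neg fun h3 => h h3.symm]

theorem rmul_one : rmul ι (1 : A) = 1 := by
  ext ⟨i, p⟩ ⟨j, q⟩
  rw [ClRp_rmul_apply, Matrix.one_apply]
  by_cases h : i = j
  · rw [if_pos h, mul_one, rl, Coef.orth]
    by_cases h2 : q = p
    · rw [if_pos h2, if_pos (Prod.ext h h2.symm)]
    · rw [if_neg h2, if_neg fun h3 => h2 (Prod.ext_iff.1 h3).2.symm]
  · rw [if_neg h, if_neg fun h3 => h (Prod.ext_iff.1 h3).1]

theorem rmul_neg (u : A) : rmul ι (-u) = -rmul ι u := by
  ext ⟨i, p⟩ ⟨j, q⟩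
  rw [Matrix.neg_apply, ClRp_rmul_apply, ClRp_rmul_apply]
  by_cases h : i = j
  · rw [if_pos h, if_pos h, mul_neg, neg_mul, rl, map_neg]
  · rw [if_neg h, if_neg h, neg_zero]

theorem lmul_rmul (X : Matrix ι ι A) (u : A) : lmul X * rmul ι u = rmul ι u * lmul X := by
  ext ⟨i, p⟩ ⟨j, q⟩
  rw [Matrix.mul_apply, Fintype.sum_prod_type, Matrix.mul_apply, Fintype.sum_prod_type]
  have h1 : ∀ k : ι, (∑ r : Fin (Coef.m A), lmul X (i, p) (k, r) * rmul ι u (k, r) (j, q)) =
      if k = j then ∑ r : Fin (Coef.m A), rl (X i k * Coef.b r * star (Coef.b p)) *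
        rl (Coef.b q * u * star (Coef.b r)) else 0 := by
    intro k
    simp only [ClRp_rmul_apply, lmul_apply]
    by_cases h3 : k = j
    · simp only [if_pos h3]
    · simp only [if_neg h3, mul_zero, Finset.sum_const_zero]
  have h2 : ∀ k : ι, (∑ r : Fin (Coef.m A), rmul ι u (i, p) (k, r) * lmul X (k, r) (j, q)) =
      if i = k then ∑ r : Fin (Coef.m A), rl (Coef.b r * u * star (Coef.b p)) *
        rl (X k j * Coef.b q * star (Coef.b r)) else 0 := by
    intro k
    simp only [ClRp_rmul_apply, lmul_apply]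
    by_cases h3 : i = k
    · simp only [if_pos h3]
    · simp only [if_neg h3, zero_mul, Finset.sum_const_zero]
  rw [Finset.sum_congr rfl fun k _ => h1 k, Finset.sum_congr rfl fun k _ => h2 k, ClRp_sum,
    ClRp_sum']
  have h3 : ∀ r : Fin (Coef.m A), rl (X i j * Coef.b r * star (Coef.b p)) =
      rl (star (Coef.b p) * X i j * Coef.b r) := by
    intro r
    rw [rl_mul_comm, mul_assoc]
  have h4 : ∀ r : Fin (Coef.m A), rl (Coef.b r * u * star (Coef.b p)) =
      rl (u * star (Coef.b p) * Coef.b r) := by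
    intro r
    rw [mul_assoc, rl_mul_comm]
  simp only [h3, h4]
  rw [ClRp_key, ClRp_key, rl_mul_comm]
  simp only [mul_assoc]
  rw [rl_mul_comm]
  simp only [mul_assoc]

/-- The central imaginary unit, from the left or from the right. -/
theorem lmul_iu : lmul ((CoefU.iu : A) • (1 : Matrix ι ι A)) = rmul ι (CoefU.iu : A) := by
  ext ⟨i, p⟩ ⟨j, q⟩
  rw [lmul_apply, ClRp_rmul_apply, Matrix.smul_apply, Matrix.one_apply, smul_eq_mul]
  by_cases h : i = j
  · rw [if_pos h, if_pos h, mul_one, CoefU.iu_comm]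
  · rw [if_neg h, if_neg h, mul_zero, zero_mul, zero_mul, rl, map_zero]

theorem ip_pr [Nonempty ι] (X : Matrix ι ι A) (x : cl A ι) : ip (pr X).1 x.1 = ip X x.1 := by
  rw [pr_apply, ip_sub, ip_smul, ip_sub]
  have h1 : ip Xᴴ x.1 = -ip X x.1 := by
    have h2 : x.1 = -x.1ᴴ := by rw [x.2.1, neg_neg]
    conv_lhs => rw [h2]
    rw [ip_neg_right, ip_conjT]
  have h3 : ip (Matrix.diagonal (fun _ => cc X)) x.1 = 0 := ip_diag_ce _ x.2.2
  rw [h1, h3]
  ring

/-- The element of the Lie algebra which corresponds to a matrix unit. -/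
private noncomputable def ClRp_e [Nonempty ι] (a b : ι × Fin (Coef.m A)) : cl A ι :=
  (1 / (CoefU.mu A + 1 : ℝ)) • pr (Matrix.single a.1 b.1 (Coef.b a.2 * star (Coef.b b.2)))

private theorem ClRp_m : (CoefU.mu A + 1 : ℝ) = Coef.m A := by
  rw [CoefU.hm (A := A)]
  push_cast
  rfl

private theorem ClRp_single (i j : ι) (c : A) (Y : Matrix ι ι A) :
    ip (Matrix.single i j c) Y = rl (c * star (Y i j)) := by
  unfold ip
  rw [Finset.sum_eq_single i]
  · rw [Finset.sum_eq_single j]
    · rw [Matrix.single_apply_same]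
    · intro j' _ hj'
      rw [Matrix.single_apply_of_ne (h := fun h => hj' h.2.symm), zero_mul, rl, map_zero]
    · intro h
      exact absurd (Finset.mem_univ j) h
  · intro i' _ hi'
    refine Finset.sum_eq_zero fun j' _ => ?_
    rw [Matrix.single_apply_of_ne (h := fun h => hi' h.1.symm), zero_mul, rl, map_zero]
  · intro h
    exact absurd (Finset.mem_univ i) h

private theorem ClRp_he [Nonempty ι] (a b : ι × Fin (Coef.m A)) (x : cl A ι) :
    Qf (cl A ι) (ClRp_e a b) x =
      ((Fintype.card ι : ℝ) - 2 * Coef.sg A / (CoefU.mu A + 1)) * lmul x.1 a b := by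
  have hm : (CoefU.mu A + 1 : ℝ) ≠ 0 := by positivity
  rw [Qf_cl, ← ClRp_m (A := A)]
  have h1 : (ClRp_e a b : cl A ι).1 = (1 / (CoefU.mu A + 1 : ℝ)) •
      (pr (Matrix.single a.1 b.1 (Coef.b a.2 * star (Coef.b b.2))) : cl A ι).1 := rfl
  rw [h1, ip_smul, ip_pr, ClRp_single, lmul_apply]
  have h2 : rl (Coef.b a.2 * star (Coef.b b.2) * star (x.1 a.1 b.1)) =
      rl (x.1 a.1 b.1 * Coef.b b.2 * star (Coef.b a.2)) := by
    rw [← rl_star]
    simp only [star_mul, star_star, mul_assoc]
  rw [h2]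
  field_simp

private theorem ClRp_sandwich (u : A) (a b c d : ι × Fin (Coef.m A)) :
    (rmul ι u * Matrix.single a b (1 : ℝ) * (rmul ι u)ᵀ) c d = rmul ι u c a * rmul ι u d b := by
  rw [Matrix.mul_apply, Finset.sum_eq_single b]
  · rw [Matrix.mul_apply, Finset.sum_eq_single a]
    · rw [Matrix.single_apply_same, mul_one, Matrix.transpose_apply]
    · intro a' _ ha'
      rw [Matrix.single_apply_of_ne (h := fun h => ha' h.1.symm), mul_zero]
    · intro h
      exact absurd (Finset.mem_univ a) h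
  · intro b' _ hb'
    rw [Matrix.mul_apply, Finset.sum_eq_zero, zero_mul]
    intro a' _
    rw [Matrix.single_apply_of_ne (h := fun h => hb' h.2.symm), mul_zero]
  · intro h
    exact absurd (Finset.mem_univ b) h

/-- The sum of the matrix unit and its conjugates. -/
private theorem ClRp_conj (a b c d : ι × Fin (Coef.m A)) :
    (Matrix.single a b (1 : ℝ)) c d + ∑ k, rmul ι (CoefU.bs k : A) c a * rmul ι (CoefU.bs k) d b =
      if c.1 = a.1 ∧ d.1 = b.1 then
        rl (star (Coef.b c.2) * Coef.b a.2 * star (star (Coef.b d.2) * Coef.b b.2)) else 0 := by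
  obtain ⟨i, p⟩ := a
  obtain ⟨j, q⟩ := b
  obtain ⟨k, r⟩ := c
  obtain ⟨l, s⟩ := d
  simp only [ClRp_rmul_apply]
  by_cases h1 : k = i
  · by_cases h2 : l = j
    · rw [if_pos ⟨h1, h2⟩, CoefU.par]
      simp only [if_pos h1, if_pos h2]
      congr 1
      · rw [rl_mul_comm (star (Coef.b r)), rl_mul_comm (star (Coef.b s)), rl, rl, Coef.orth,
          Coef.orth, Matrix.single_apply]
        by_cases h3 : p = r
        · by_cases h4 : q = s
          · rw [if_pos h3, if_pos h4, if_pos ⟨Prod.ext h1.symm h3, Prod.ext h2.symm h4⟩, mul_one]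
          · rw [if_neg h4, mul_zero, if_neg fun h => h4 (Prod.ext_iff.1 h.2).2]
        · rw [if_neg h3, zero_mul, if_neg fun h => h3 (Prod.ext_iff.1 h.1).2]
      · refine Finset.sum_congr rfl fun t _ => ?_
        congr 1
        · rw [rl_mul_comm, mul_assoc]
        · rw [rl_mul_comm, mul_assoc]
    · rw [if_neg fun h => h2 h.2, Matrix.single_apply_of_ne
        (h := fun h => h2 (Prod.ext_iff.1 h.2).1.symm)]
      simp only [if_neg h2, mul_zero, Finset.sum_const_zero, add_zero]
  · rw [if_neg fun h => h1 h.1, Matrix.single_apply_of_ne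
      (h := fun h => h1 (Prod.ext_iff.1 h.1).1.symm)]
    simp only [if_neg h1, zero_mul, Finset.sum_const_zero, add_zero]

private theorem ClRp_lmul_single (i j : ι) (w : A) (c d : ι × Fin (Coef.m A)) :
    lmul (Matrix.single i j w) c d =
      if c.1 = i ∧ d.1 = j then rl (w * Coef.b d.2 * star (Coef.b c.2)) else 0 := by
  rw [lmul_apply, Matrix.single_apply]
  by_cases h : c.1 = i ∧ d.1 = j
  · rw [if_pos h, if_pos ⟨h.1.symm, h.2.symm⟩]
  · rw [if_neg h, if_neg fun h1 => h ⟨h1.1.symm, h1.2.symm⟩, zero_mul, zero_mul, rl, map_zero]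

private theorem ClRp_cc (a b : ι × Fin (Coef.m A)) :
    lmul (Matrix.diagonal (fun _ : ι =>
      cc (Matrix.single a.1 b.1 (Coef.b a.2 * star (Coef.b b.2)) : Matrix ι ι A))) =
      (rmul ι (CoefU.iu : A) a b / Fintype.card ι) • rmul ι (CoefU.iu : A) := by
  obtain ⟨i, p⟩ := a
  obtain ⟨j, q⟩ := b
  have h0 : cc (Matrix.single i j (Coef.b p * star (Coef.b q)) : Matrix ι ι A) =
      (rmul ι (CoefU.iu : A) (i, p) (j, q) / Fintype.card ι) • (CoefU.iu : A) := by
    unfold cc
    have h1 : ∀ y : A, (1 / (2 * (Fintype.card ι : ℝ))) • y =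
        (1 / (Fintype.card ι : ℝ)) • ((1 / 2 : ℝ) • y) := by
      intro y
      rw [smul_smul]
      congr 1
      ring
    rw [h1, map_smul, CoefU.iu_cen, smul_smul, ClRp_rmul_apply]
    congr 1
    by_cases h : i = j
    · rw [if_pos h, h, Matrix.trace_single_eq_same]
      have h2 : rl (Coef.b p * star (Coef.b q) * star (CoefU.iu : A)) =
          rl (Coef.b q * CoefU.iu * star (Coef.b p)) := by
        rw [← rl_star, star_mul, star_mul, star_star, star_star, ← mul_assoc, CoefU.iu_comm]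
      rw [h2]
      ring
    · rw [if_neg h, Matrix.trace_single_eq_of_ne _ _ _ h, zero_mul, rl, map_zero]
      ring
  rw [h0, ← lmul_iu, ← map_smul]
  congr 1
  ext k l
  rw [Matrix.diagonal_apply, Matrix.smul_apply, Matrix.smul_apply, Matrix.one_apply]
  by_cases h : k = l
  · rw [if_pos h, if_pos h, smul_eq_mul, mul_one]
  · rw [if_neg h, if_neg h, smul_zero, smul_zero]

private theorem ClRp_ker [Nonempty ι] (a b : ι × Fin (Coef.m A)) :
    lmul (ClRp_e a b : cl A ι).1 = (1 / (2 * ((CoefU.mu A : ℝ) + 1))) •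
      (Matrix.single a b 1 - Matrix.single b a 1 +
      ∑ k, rmul ι (CoefU.bs k : A) * (Matrix.single a b 1 - Matrix.single b a 1) *
        (rmul ι (CoefU.bs k : A))ᵀ) -
      (rmul ι (CoefU.iu : A) a b / Fintype.card (ι × Fin (Coef.m A))) • rmul ι (CoefU.iu : A) := by
  have h1 : (ClRp_e a b : cl A ι).1 = (1 / (CoefU.mu A + 1 : ℝ)) •
      ((1 / 2 : ℝ) • (Matrix.single a.1 b.1 (Coef.b a.2 * star (Coef.b b.2)) -
        Matrix.single b.1 a.1 (Coef.b b.2 * star (Coef.b a.2))) -
        Matrix.diagonal (fun _ : ι =>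
          cc (Matrix.single a.1 b.1 (Coef.b a.2 * star (Coef.b b.2)) : Matrix ι ι A))) := by
    change (1 / (CoefU.mu A + 1 : ℝ)) •
      (pr (Matrix.single a.1 b.1 (Coef.b a.2 * star (Coef.b b.2))) : cl A ι).1 = _
    rw [pr_apply, Matrix.conjTranspose_single, star_mul, star_star]
  have h2 : (CoefU.mu A + 1 : ℝ) ≠ 0 := by positivity
  have h3 : (Fintype.card ι : ℝ) ≠ 0 := by exact_mod_cast Fintype.card_ne_zero
  rw [h1, map_smul, map_sub, map_smul, map_sub, ClRp_cc, smul_sub]
  congr 1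
  · ext c d
    have h4 := ClRp_conj a b c d
    have h5 := ClRp_conj b a c d
    have h6 : ∀ k : Fin (CoefU.mu A), (rmul ι (CoefU.bs k : A) *
        (Matrix.single a b (1 : ℝ) - Matrix.single b a (1 : ℝ)) *
        (rmul ι (CoefU.bs k : A))ᵀ : Matrix (ι × Fin (Coef.m A)) (ι × Fin (Coef.m A)) ℝ) c d =
        rmul ι (CoefU.bs k : A) c a * rmul ι (CoefU.bs k) d b -
          rmul ι (CoefU.bs k : A) c b * rmul ι (CoefU.bs k) d a := by
      intro k
      rw [Matrix.mul_sub, Matrix.sub_mul, Matrix.sub_apply, ClRp_sandwich, ClRp_sandwich]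
    rw [Matrix.smul_apply, Matrix.smul_apply, Matrix.sub_apply, Matrix.smul_apply,
      Matrix.add_apply, Matrix.sub_apply, Matrix.sum_apply, Finset.sum_congr rfl fun k _ => h6 k,
      Finset.sum_sub_distrib, ClRp_lmul_single, ClRp_lmul_single]
    have h7 : ∀ x y z w : A, rl (star x * y * star (star z * w)) = rl (y * star w * z * star x) := by
      intro x y z w
      rw [star_mul, star_star, mul_assoc, rl_mul_comm]
      simp only [mul_assoc]
    rw [h7] at h4 h5
    simp only [smul_eq_mul]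
    have h8 : (Matrix.single a b (1 : ℝ)) c d - (Matrix.single b a (1 : ℝ)) c d +
        (∑ k, rmul ι (CoefU.bs k : A) c a * rmul ι (CoefU.bs k) d b -
          ∑ k, rmul ι (CoefU.bs k : A) c b * rmul ι (CoefU.bs k) d a) =
        ((Matrix.single a b (1 : ℝ)) c d +
          ∑ k, rmul ι (CoefU.bs k : A) c a * rmul ι (CoefU.bs k) d b) -
        ((Matrix.single b a (1 : ℝ)) c d +
          ∑ k, rmul ι (CoefU.bs k : A) c b * rmul ι (CoefU.bs k) d a) := by ring
    rw [h8, h4, h5]
    field_simp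
  · rw [smul_smul, Fintype.card_prod, Fintype.card_fin, Nat.cast_mul, ← ClRp_m (A := A)]
    congr 1
    field_simp

/-- The representation of `cl A ι` on `ℝ^(ι × Fin m)`. -/
theorem exists_rp (hN : 3 ≤ Fintype.card ι) :
    ∃ R : Rp (cl A ι) (ι × Fin (Coef.m A)) (CoefU.mu A), (∀ x, R.ph x = lmul x.1) ∧
      (∀ k, R.f k = rmul ι (CoefU.bs k)) ∧ R.J = rmul ι (CoefU.iu : A) ∧
      R.n = (Fintype.card ι : ℝ) - 2 * Coef.sg A / (CoefU.mu A + 1) := by
  have : Nonempty ι := Fintype.card_pos_iff.1 (by omega)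
  have hm : (1 : ℝ) ≤ CoefU.mu A + 1 := by
    have := Nat.cast_nonneg (α := ℝ) (CoefU.mu A)
    linarith
  have hN' : (3 : ℝ) ≤ Fintype.card ι := by exact_mod_cast hN
  have hsg := Coef.sg_le (A := A)
  have hsg' := Coef.sg_ge (A := A)
  have hs1 : 2 * Coef.sg A / (CoefU.mu A + 1) ≤ 2 := by
    rw [div_le_iff₀ (by linarith)]
    linarith
  have hs2 : -2 ≤ 2 * Coef.sg A / (CoefU.mu A + 1) := by
    rw [le_div_iff₀ (by linarith), ClRp_m (A := A)]
    have := ClRp_m (A := A)
    linarith
  refine ⟨{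
    ph := lmul ∘ₗ (cl A ι).toSubmodule.subtype
    e := ClRp_e
    f := fun k => rmul ι (CoefU.bs k)
    J := rmul ι (CoefU.iu : A)
    n := (Fintype.card ι : ℝ) - 2 * Coef.sg A / (CoefU.mu A + 1)
    skew := ?_
    lie := ?_
    n1 := by linarith
    qf := ?_
    he := fun a b x => ClRp_he a b x
    inj := ?_
    fo := ?_
    com := fun k x => (lmul_rmul x.1 _).symm
    Js := by rw [rmul_T, CoefU.iu_skew, rmul_neg]
    Jc := fun x => (lmul_rmul x.1 _).symm
    JJ := ?_
    ker := fun a b => ClRp_ker a b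
    nM := ?_ }, fun x => rfl, fun k => rfl, rfl, rfl⟩
  · intro x
    change (lmul x.1)ᵀ = -lmul x.1
    rw [← lmul_conjT, x.2.1, map_neg]
  · intro x y
    change lmul (x.1 * y.1 - y.1 * x.1) = lmul x.1 * lmul y.1 - lmul y.1 * lmul x.1
    rw [map_sub, lmul_mul, lmul_mul]
  · intro x y
    change Qf _ x y = _ * ∑ a, ∑ b, lmul x.1 a b * lmul y.1 a b
    rw [lmul_ip, Qf_cl, ← ClRp_m (A := A)]
    field_simp
  · intro x hx
    exact Subtype.ext (lmul_inj hx)
  · intro k
    rw [rmul_T, rmul_mul, CoefU.bs_one, rmul_one]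
  · rcases CoefU.iu_or (A := A) with h | h
    · left
      rw [h]
      ext ⟨i, p⟩ ⟨j, q⟩
      rw [ClRp_rmul_apply, mul_zero, zero_mul, rl, map_zero, ite_self]
      rfl
    · right
      rw [rmul_T, rmul_mul, h, rmul_one]
  · have h1 : (Fintype.card (ι × Fin (Coef.m A)) : ℝ) / ((CoefU.mu A : ℝ) + 1) = Fintype.card ι := by
      rw [Fintype.card_prod, Fintype.card_fin, Nat.cast_mul, ClRp_m (A := A)]
      have h2 : (Coef.m A : ℝ) ≠ 0 := by
        have := Coef.m_pos (A := A)
        positivity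
      rw [mul_div_assoc, div_self h2, mul_one]
    rw [h1, abs_le]
    constructor <;> linarith

/-- The trace of the elements of the Lie algebra. -/
theorem cl_trace (x : cl A ι) : trace (lmul x.1 * rmul ι (CoefU.iu : A)) = 0 := by
  have hc := CoefU.iu_cen (A := A) (trace x.1)
  have h1 : star (trace x.1) = -trace x.1 := by
    rw [← trace_conjT, x.2.1, Matrix.trace_neg]
  have h2 : (1 / 2 : ℝ) • (trace x.1 - star (trace x.1)) = trace x.1 := by
    rw [h1, sub_neg_eq_add, ← two_smul ℝ, smul_smul]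
    norm_num
  rw [h2, cl_tr] at hc
  have h3 : rl (trace x.1 * (CoefU.iu : A)) = 0 := by
    rcases CoefU.iu_or (A := A) with h4 | h4
    · rw [h4, mul_zero, rl, map_zero]
    · have h5 : rl (trace x.1 * star (CoefU.iu : A)) = 0 := by
        have h6 := congrArg (fun y : A => rl (y * star (CoefU.iu : A))) hc
        simp only [zero_mul, smul_mul_assoc, h4, rl_smul, map_zero] at h6
        have h7 : (rl (1 : A)) = 1 := Coef.re_one
        rw [h7, mul_one] at h6
        exact h6.symm
      rw [CoefU.iu_skew, mul_neg, rl, map_neg, neg_eq_zero] at h5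
      exact h5
  rw [← lmul_iu, ← lmul_mul]
  have h4 : ∀ Y : Matrix ι ι A, trace (lmul Y) = (Coef.m A : ℝ) * rl (trace Y) := by
    intro Y
    rw [trace, Fintype.sum_prod_type, trace, rl_sum, Finset.mul_sum]
    refine Finset.sum_congr rfl fun i _ => ?_
    have h5 : ∀ p : Fin (Coef.m A), (lmul Y).diag (i, p) = rl (Y i i) := by
      intro p
      rw [Matrix.diag_apply, lmul_apply, mul_assoc, b_mul_star, mul_one]
    rw [Finset.sum_congr rfl fun p _ => h5 p, Finset.sum_const, Finset.card_univ, Fintype.card_fin,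
      nsmul_eq_mul, Matrix.diag_apply]
  rw [h4]
  have h5 : trace (x.1 * ((CoefU.iu : A) • (1 : Matrix ι ι A))) = trace x.1 * (CoefU.iu : A) := by
    rw [trace, trace, Finset.sum_mul]
    refine Finset.sum_congr rfl fun i _ => ?_
    rw [Matrix.diag_apply, Matrix.diag_apply, Matrix.mul_apply, Finset.sum_eq_single i]
    · rw [Matrix.smul_apply, Matrix.one_apply_eq, smul_eq_mul, mul_one]
    · intro j _ hj
      rw [Matrix.smul_apply, Matrix.one_apply_ne hj, smul_zero, mul_zero]
    · intro h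
      exact absurd (Finset.mem_univ i) h
  rw [h5, h3, mul_zero]

end Pool.Agent.EinV
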