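import Pool.Agent.EinV.Inv

/-!
# Doubling

`σ` is an involution of `L` which on `ℝ^I` is the conjugation by a skew orthogonal matrix `s`.  Write `x = x₀ + x₁`, `σ x₀ = x₀`, `σ x₁ = -x₁`.
On `ℝ^I ⊗ ℝ²` put `ph' x = ph x₀ ⊗ 1 + ph x₁ ⊗ σx` (`σx` the swap, `σz = diag (1, -1)`, `E = !![0, -1; 1, 0]`).  The commutant has the basis
`f ⊗ 1`, `f ⊗ σx`, `f s ⊗ σz`, `f s ⊗ E`, `f ∈ {1, f k}`; `J' = J ⊗ σx`, `n' = n / 2`, `e' (a, p) (b, q) = (1/4) (e a b ± σ (e a b))`, `+` if and only if `p = q`.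
Index the basis by `Fin (4 * m + 3 + 1) = Fin (4 * (m + 1)) ≃ Fin 4 × Fin (m + 1)` (`finProdFinEquiv`), the index `0` is `1 ⊗ 1`; then
`∑ u, u ⊗ .. (E_ab ⊗ E_pq) ..ᵀ = ∑ f, f (E_ab ± s E_ab sᵀ) fᵀ ⊗ (1 or σx)`, and `s ph (e a b) sᵀ = ph (σ (e a b))`, `s f = - f s`.
Traces: `tr (x₀ f) = 0` by `s`; `tr (x₁ f) = tr (ph x f) = 0`; `tr (x₁ s) = 0` by `s`; `tr (x₀ s) = tr (ph x s) = 0` for `x` orthogonal to `c`;
`tr (x₀ f s) = tr (x₁ f s) = 0` by `f`; `1`, `σx`, `σz`, `E` and their products with `σx`, `σz`, other than the identity, have trace `0`.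
-/

namespace Pool.Agent.EinV

open Matrix Pool.Agent.EStab Pool.Agent.EinS Pool.Agent.SmIso Pool.Agent.EinU Pool.Agent.EinG

open scoped Kronecker

variable {L : Type} [LieRing L] [LieAlgebra ℝ L] {I : Type} [Fintype I] [DecidableEq I] {m : ℕ}

/-- The involution on the doubled space. -/
noncomputable def dz (I : Type) [Fintype I] [DecidableEq I] : Matrix (I × Fin 2) (I × Fin 2) ℝ :=
  Matrix.diagonal fun a => if a.2 = 0 then 1 else -1

/-- The complex structure on the doubled space. -/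
def dJ (s : Matrix I I ℝ) : Matrix (I × Fin 2) (I × Fin 2) ℝ :=
  of fun a b => if a.2 = b.2 then (if a.2 = 0 then s a.1 b.1 else -s a.1 b.1) else 0

/-! ### Two by two matrices -/

/-- The swap. -/
private def Dbl_x : Matrix (Fin 2) (Fin 2) ℝ := !![0, 1; 1, 0]

/-- The diagonal matrix. -/
private def Dbl_z : Matrix (Fin 2) (Fin 2) ℝ := !![1, 0; 0, -1]

/-- The rotation. -/
private def Dbl_e : Matrix (Fin 2) (Fin 2) ℝ := !![0, -1; 1, 0]

private theorem Dbl_xT : Dbl_xᵀ = Dbl_x := by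
  ext i j; fin_cases i <;> fin_cases j <;> simp [Dbl_x]

private theorem Dbl_zT : Dbl_zᵀ = Dbl_z := by
  ext i j; fin_cases i <;> fin_cases j <;> simp [Dbl_z]

private theorem Dbl_eT : Dbl_eᵀ = -Dbl_e := by
  ext i j; fin_cases i <;> fin_cases j <;> simp [Dbl_e]

private theorem Dbl_xx : Dbl_x * Dbl_x = 1 := by
  ext i j; fin_cases i <;> fin_cases j <;> simp [Dbl_x]

private theorem Dbl_zz : Dbl_z * Dbl_z = 1 := by
  ext i j; fin_cases i <;> fin_cases j <;> simp [Dbl_z]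

private theorem Dbl_ee : Dbl_e * Dbl_e = -1 := by
  ext i j; fin_cases i <;> fin_cases j <;> simp [Dbl_e]

private theorem Dbl_xz : Dbl_x * Dbl_z = Dbl_e := by
  ext i j; fin_cases i <;> fin_cases j <;> simp [Dbl_x, Dbl_z, Dbl_e]

private theorem Dbl_zx : Dbl_z * Dbl_x = -Dbl_e := by
  ext i j; fin_cases i <;> fin_cases j <;> simp [Dbl_x, Dbl_z, Dbl_e]

private theorem Dbl_xe : Dbl_x * Dbl_e = Dbl_z := by
  ext i j; fin_cases i <;> fin_cases j <;> simp [Dbl_x, Dbl_z, Dbl_e]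

private theorem Dbl_ex : Dbl_e * Dbl_x = -Dbl_z := by
  ext i j; fin_cases i <;> fin_cases j <;> simp [Dbl_x, Dbl_z, Dbl_e]

private theorem Dbl_ze : Dbl_z * Dbl_e = -Dbl_x := by
  ext i j; fin_cases i <;> fin_cases j <;> simp [Dbl_x, Dbl_z, Dbl_e]

private theorem Dbl_ez : Dbl_e * Dbl_z = Dbl_x := by
  ext i j; fin_cases i <;> fin_cases j <;> simp [Dbl_x, Dbl_z, Dbl_e]

private theorem Dbl_trx : trace Dbl_x = 0 := by simp [Dbl_x, Matrix.trace]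

private theorem Dbl_trz : trace Dbl_z = 0 := by simp [Dbl_z, Matrix.trace]

private theorem Dbl_tre : trace Dbl_e = 0 := by simp [Dbl_e, Matrix.trace]

/-- The identity or the swap. -/
private def Dbl_d (p q : Fin 2) : Matrix (Fin 2) (Fin 2) ℝ := if p = q then 1 else Dbl_x

/-- The sign. -/
private def Dbl_s (p q : Fin 2) : ℝ := if p = q then 1 else -1

private theorem Dbl_k1 (p q : Fin 2) : Matrix.single p q (1 : ℝ) +
    Dbl_x * Matrix.single p q 1 * Dbl_xᵀ = Dbl_d p q := by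
  ext i j
  simp only [Matrix.add_apply, Matrix.mul_apply, Fin.sum_univ_two, Matrix.single_apply,
    Matrix.transpose_apply, Dbl_d]
  fin_cases p <;> fin_cases q <;> fin_cases i <;> fin_cases j <;> simp [Dbl_x]

private theorem Dbl_k2 (p q : Fin 2) : Dbl_z * Matrix.single p q (1 : ℝ) * Dbl_zᵀ +
    Dbl_e * Matrix.single p q 1 * Dbl_eᵀ = Dbl_s p q • Dbl_d p q := by
  ext i j
  simp only [Matrix.add_apply, Matrix.mul_apply, Fin.sum_univ_two, Matrix.single_apply,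
    Matrix.transpose_apply, Dbl_d, Dbl_s, Matrix.smul_apply]
  fin_cases p <;> fin_cases q <;> fin_cases i <;> fin_cases j <;>
    simp [Dbl_x, Dbl_z, Dbl_e]

private theorem Dbl_dc (p q : Fin 2) : Dbl_d q p = Dbl_d p q := by
  unfold Dbl_d; simp only [eq_comm]

private theorem Dbl_sc (p q : Fin 2) : Dbl_s q p = Dbl_s p q := by
  unfold Dbl_s; simp only [eq_comm]

/-! ### The basis of the commutant -/

/-- Index of the basis. -/
private def Dbl_i (m : ℕ) (k : Fin (4 * m + 3)) : Fin 4 × Fin (m + 1) :=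
  (finProdFinEquiv (m := 4) (n := m + 1)).symm (k.succ : Fin (4 * m + 3 + 1))

private theorem Dbl_i_ne (m : ℕ) (k : Fin (4 * m + 3)) : Dbl_i m k ≠ (0, 0) := by
  intro h
  unfold Dbl_i at h
  rw [Equiv.symm_apply_eq] at h
  have h2 := congrArg Fin.val h
  simp at h2

private theorem Dbl_sum {M : Type} [AddCommMonoid M] (F : Fin 4 × Fin (m + 1) → M) :
    F (0, 0) + ∑ k, F (Dbl_i m k) = ∑ p, F p := by
  rw [← Equiv.sum_comp (finProdFinEquiv (m := 4) (n := m + 1)).symm F]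
  have h : (finProdFinEquiv (m := 4) (n := m + 1)).symm (0 : Fin (4 * m + 3 + 1)) = (0, 0) := by
    rw [Equiv.symm_apply_eq]
    apply Fin.ext
    simp
  have h2 := Fin.sum_univ_succ (n := 4 * m + 3)
    (fun k => F ((finProdFinEquiv (m := 4) (n := m + 1)).symm k))
  rw [h] at h2
  exact h2.symm

/-- The elements of the basis. -/
private def Dbl_u (f : Fin m → Matrix I I ℝ) (s : Matrix I I ℝ) (p : Fin 4 × Fin (m + 1)) :
    Matrix (I × Fin 2) (I × Fin 2) ℝ :=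
  ((Fin.cons 1 f : Fin (m + 1) → Matrix I I ℝ) p.2 *
    (![1, 1, s, s] : Fin 4 → Matrix I I ℝ) p.1) ⊗ₖ
      (![1, Dbl_x, Dbl_z, Dbl_e] : Fin 4 → Matrix (Fin 2) (Fin 2) ℝ) p.1

private theorem Dbl_cases {P : Matrix (I × Fin 2) (I × Fin 2) ℝ → Prop}
    (f : Fin m → Matrix I I ℝ) (s : Matrix I I ℝ)
    (h0 : ∀ k, P (f k ⊗ₖ 1)) (h1 : P (1 ⊗ₖ Dbl_x)) (h1' : ∀ k, P (f k ⊗ₖ Dbl_x))
    (h2 : P (s ⊗ₖ Dbl_z)) (h2' : ∀ k, P ((f k * s) ⊗ₖ Dbl_z))
    (h3 : P (s ⊗ₖ Dbl_e)) (h3' : ∀ k, P ((f k * s) ⊗ₖ Dbl_e)) (k : Fin (4 * m + 3)) :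
    P (Dbl_u f s (Dbl_i m k)) := by
  have hne := Dbl_i_ne m k
  revert hne
  generalize Dbl_i m k = p
  obtain ⟨i, j⟩ := p
  intro hne
  unfold Dbl_u
  dsimp only
  induction j using Fin.cases with
  | zero =>
    fin_cases i
    · exact absurd rfl hne
    · simpa using h1
    · simpa using h2
    · simpa using h3
  | succ j =>
    fin_cases i
    · simpa using h0 j
    · simpa using h1' j
    · simpa using h2' j
    · simpa using h3' j

private theorem Dbl_T (A : Matrix I I ℝ) (B : Matrix (Fin 2) (Fin 2) ℝ) :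
    (A ⊗ₖ B)ᵀ = Aᵀ ⊗ₖ Bᵀ := rfl

private theorem Dbl_dz : dz I = 1 ⊗ₖ Dbl_z := by
  ext ⟨a, p⟩ ⟨b, q⟩
  by_cases h : a = b <;> fin_cases p <;> fin_cases q <;>
    simp [dz, Dbl_z, Matrix.diagonal_apply, Matrix.one_apply, h]

private theorem Dbl_dJ (s : Matrix I I ℝ) : dJ s = s ⊗ₖ Dbl_z := by
  ext ⟨a, p⟩ ⟨b, q⟩
  fin_cases p <;> fin_cases q <;> simp [dJ, Dbl_z]

/-- The doubled representation. -/
private noncomputable def Dbl_ph (R : Rp L I m) (σ : L ≃ₗ⁅ℝ⁆ L) :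
    L →ₗ[ℝ] Matrix (I × Fin 2) (I × Fin 2) ℝ where
  toFun x := of fun a b => 1 / 2 * (R.ph x a.1 b.1 +
        (if a.2 = b.2 then 1 else -1) * R.ph (σ x) a.1 b.1)
  map_add' x y := by
    ext a b
    simp only [map_add, of_apply, Matrix.add_apply]
    ring
  map_smul' r x := by
    ext a b
    simp only [map_smul, of_apply, Matrix.smul_apply, smul_eq_mul, RingHom.id_apply]
    ring

/-- The even part. -/
private noncomputable def Dbl_0 (R : Rp L I m) (σ : L ≃ₗ⁅ℝ⁆ L) (x : L) : Matrix I I ℝ :=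
  (1 / 2 : ℝ) • (R.ph x + R.ph (σ x))

/-- The odd part. -/
private noncomputable def Dbl_1 (R : Rp L I m) (σ : L ≃ₗ⁅ℝ⁆ L) (x : L) : Matrix I I ℝ :=
  (1 / 2 : ℝ) • (R.ph x - R.ph (σ x))

private theorem Dbl_ph_eq (R : Rp L I m) (σ : L ≃ₗ⁅ℝ⁆ L) (x : L) :
    Dbl_ph R σ x = Dbl_0 R σ x ⊗ₖ 1 + Dbl_1 R σ x ⊗ₖ Dbl_x := by
  ext ⟨a, p⟩ ⟨b, q⟩
  fin_cases p <;> fin_cases q <;> simp [Dbl_ph, Dbl_0, Dbl_1, Dbl_x] <;> ring


/-! ### Algebra -/

private theorem Dbl_sk {κ : Type} (t : Finset κ) (A : κ → Matrix I I ℝ)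
    (B : Matrix (Fin 2) (Fin 2) ℝ) : ∑ i ∈ t, (A i ⊗ₖ B) = (∑ i ∈ t, A i) ⊗ₖ B := by
  ext a b
  simp [Matrix.sum_apply, Finset.sum_mul]

private theorem Dbl_row (f : Fin m → Matrix I I ℝ) (w A : Matrix I I ℝ)
    (D B : Matrix (Fin 2) (Fin 2) ℝ) :
    ∑ j : Fin (m + 1), (((Fin.cons 1 f : Fin (m + 1) → Matrix I I ℝ) j * w) ⊗ₖ D) * (A ⊗ₖ B) *
      (((Fin.cons 1 f : Fin (m + 1) → Matrix I I ℝ) j * w) ⊗ₖ D)ᵀ =
    (w * A * wᵀ + ∑ k, f k * w * A * (f k * w)ᵀ) ⊗ₖ (D * B * Dᵀ) := by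
  rw [Fin.sum_univ_succ]
  simp only [Fin.cons_zero, Fin.cons_succ, one_mul, Dbl_T, ← mul_kronecker_mul]
  rw [Dbl_sk, add_kronecker]

private theorem Dbl_tot (f : Fin m → Matrix I I ℝ) (s A : Matrix I I ℝ)
    (B : Matrix (Fin 2) (Fin 2) ℝ) :
    ∑ p, Dbl_u f s p * (A ⊗ₖ B) * (Dbl_u f s p)ᵀ =
      (A + ∑ k, f k * A * (f k)ᵀ) ⊗ₖ (B + Dbl_x * B * Dbl_xᵀ) +
      (s * A * sᵀ + ∑ k, f k * s * A * (f k * s)ᵀ) ⊗ₖ
        (Dbl_z * B * Dbl_zᵀ + Dbl_e * B * Dbl_eᵀ) := by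
  rw [Fintype.sum_prod_type, Fin.sum_univ_four]
  unfold Dbl_u
  dsimp only
  rw [Dbl_row, Dbl_row, Dbl_row, Dbl_row]
  simp only [kronecker_add]
  simp
  abel

private theorem Dbl_u0 (f : Fin m → Matrix I I ℝ) (s : Matrix I I ℝ) :
    Dbl_u f s (0, 0) = 1 := by
  unfold Dbl_u
  simp

section

variable (R : Rp L I m) {σ : L ≃ₗ⁅ℝ⁆ L} {s : Matrix I I ℝ}

private theorem Dbl_ssT (hs : sᵀ = -s) (hs2 : s * s = -1) : s * sᵀ = 1 := by
  rw [hs, mul_neg, hs2, neg_neg]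

private theorem Dbl_sTs (hs : sᵀ = -s) (hs2 : s * s = -1) : sᵀ * s = 1 := by
  rw [hs, neg_mul, hs2, neg_neg]

private theorem Dbl_conj (hs : sᵀ = -s) (hs2 : s * s = -1)
    (hsσ : ∀ x, s * R.ph x = R.ph (σ x) * s) (x : L) : s * R.ph x * sᵀ = R.ph (σ x) := by
  rw [hsσ, mul_assoc, Dbl_ssT hs hs2, mul_one]

private theorem Dbl_s0 (hσ : ∀ x, σ (σ x) = x)
    (hsσ : ∀ x, s * R.ph x = R.ph (σ x) * s) (x : L) :
    s * Dbl_0 R σ x = Dbl_0 R σ x * s := by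
  unfold Dbl_0
  rw [mul_smul_comm, smul_mul_assoc, mul_add, add_mul, hsσ, hsσ, hσ, add_comm]

private theorem Dbl_s1 (hσ : ∀ x, σ (σ x) = x)
    (hsσ : ∀ x, s * R.ph x = R.ph (σ x) * s) (x : L) :
    s * Dbl_1 R σ x = -(Dbl_1 R σ x * s) := by
  unfold Dbl_1
  rw [mul_smul_comm, smul_mul_assoc, mul_sub, sub_mul, hsσ, hsσ, hσ, ← smul_neg, neg_sub]

private theorem Dbl_c0 {g : Matrix I I ℝ} (hg : ∀ x, g * R.ph x = R.ph x * g) (x : L) :
    g * Dbl_0 R σ x = Dbl_0 R σ x * g := by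
  unfold Dbl_0
  rw [mul_smul_comm, smul_mul_assoc, mul_add, add_mul, hg, hg]

private theorem Dbl_c1 {g : Matrix I I ℝ} (hg : ∀ x, g * R.ph x = R.ph x * g) (x : L) :
    g * Dbl_1 R σ x = Dbl_1 R σ x * g := by
  unfold Dbl_1
  rw [mul_smul_comm, smul_mul_assoc, mul_sub, sub_mul, hg, hg]

/-- Commutation with the doubled representation. -/
private theorem Dbl_com (g : Matrix I I ℝ) (D : Matrix (Fin 2) (Fin 2) ℝ) (x : L) (ε : ℝ)
    (hε : ε * ε = 1)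
    (h0 : g * Dbl_0 R σ x = Dbl_0 R σ x * g) (h1 : g * Dbl_1 R σ x = ε • (Dbl_1 R σ x * g))
    (hD : D * Dbl_x = ε • (Dbl_x * D)) :
    (g ⊗ₖ D) * Dbl_ph R σ x = Dbl_ph R σ x * (g ⊗ₖ D) := by
  rw [Dbl_ph_eq, mul_add, add_mul, ← mul_kronecker_mul, ← mul_kronecker_mul,
    ← mul_kronecker_mul, ← mul_kronecker_mul, h0, h1, hD, mul_one, one_mul, smul_kronecker,
    kronecker_smul, smul_smul, hε, one_smul]

private theorem Dbl_G (hs : sᵀ = -s) (hs2 : s * s = -1)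
    (hsσ : ∀ x, s * R.ph x = R.ph (σ x) * s) (hf : ∀ k, s * R.f k = -(R.f k * s))
    (hJ : s * R.J = -(R.J * s)) (a b : I) (X : Matrix I I ℝ)
    (hX : X = Matrix.single a b 1 - Matrix.single b a 1) :
    (X + ∑ k, R.f k * X * (R.f k)ᵀ =
      (2 * ((m : ℝ) + 1)) • (R.ph (R.e a b) + (R.J a b / Fintype.card I) • R.J)) ∧
    (s * X * sᵀ + ∑ k, R.f k * s * X * (R.f k * s)ᵀ =
      (2 * ((m : ℝ) + 1)) • (R.ph (σ (R.e a b)) - (R.J a b / Fintype.card I) • R.J)) := by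
  have hm : (2 * ((m : ℝ) + 1)) ≠ 0 := by positivity
  have h1 : X + ∑ k, R.f k * X * (R.f k)ᵀ =
      (2 * ((m : ℝ) + 1)) • (R.ph (R.e a b) + (R.J a b / Fintype.card I) • R.J) := by
    rw [R.ker a b, ← hX, sub_add_cancel, smul_smul, mul_one_div_cancel hm, one_smul]
  refine ⟨h1, ?_⟩
  have h2 : s * X * sᵀ + ∑ k, R.f k * s * X * (R.f k * s)ᵀ =
      s * (X + ∑ k, R.f k * X * (R.f k)ᵀ) * sᵀ := by
    rw [mul_add, add_mul, Finset.mul_sum, Finset.sum_mul]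
    congr 1
    refine Finset.sum_congr rfl fun k _ => ?_
    have h3 : R.f k * s = -(s * R.f k) := by rw [hf, neg_neg]
    rw [h3, transpose_neg, transpose_mul]
    simp only [neg_mul, mul_neg, neg_neg, mul_assoc]
  rw [h2, h1]
  generalize 2 * ((m : ℝ) + 1) = c
  rw [mul_smul_comm, smul_mul_assoc, mul_add, add_mul, Dbl_conj R hs hs2 hsσ,
    mul_smul_comm, smul_mul_assoc, hJ, neg_mul, mul_assoc, Dbl_ssT hs hs2, mul_one, smul_neg,
    sub_eq_add_neg]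

private theorem Dbl_ker (hσ : ∀ x, σ (σ x) = x) (hs : sᵀ = -s) (hs2 : s * s = -1)
    (hsσ : ∀ x, s * R.ph x = R.ph (σ x) * s) (hf : ∀ k, s * R.f k = -(R.f k * s))
    (hJ : s * R.J = -(R.J * s)) (a b : I) (p q : Fin 2) :
    Dbl_ph R σ ((1 / 4 : ℝ) • (R.e a b + Dbl_s p q • σ (R.e a b))) =
      (1 / (2 * (((4 * m + 3 : ℕ) : ℝ) + 1))) •
        (Matrix.single (a, p) (b, q) 1 - Matrix.single (b, q) (a, p) 1 +
          ∑ k, Dbl_u R.f s (Dbl_i m k) *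
            (Matrix.single (a, p) (b, q) 1 - Matrix.single (b, q) (a, p) 1) *
            (Dbl_u R.f s (Dbl_i m k))ᵀ) -
        ((R.J ⊗ₖ Dbl_x) (a, p) (b, q) / Fintype.card (I × Fin 2)) • (R.J ⊗ₖ Dbl_x) := by
  set X : Matrix I I ℝ := Matrix.single a b 1 - Matrix.single b a 1 with hX
  obtain ⟨hG1, hG2⟩ := Dbl_G R hs hs2 hsσ hf hJ a b X hX
  have h0 : (Matrix.single (a, p) (b, q) (1 : ℝ) - Matrix.single (b, q) (a, p) 1 :
      Matrix (I × Fin 2) (I × Fin 2) ℝ) =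
      Matrix.single a b 1 ⊗ₖ Matrix.single p q 1 - Matrix.single b a 1 ⊗ₖ Matrix.single q p 1 := by
    rw [single_kronecker_single, single_kronecker_single, one_mul]
  have h1 : (Matrix.single (a, p) (b, q) (1 : ℝ) - Matrix.single (b, q) (a, p) 1) +
      ∑ k, Dbl_u R.f s (Dbl_i m k) *
            (Matrix.single (a, p) (b, q) 1 - Matrix.single (b, q) (a, p) 1) *
            (Dbl_u R.f s (Dbl_i m k))ᵀ =
      (X + ∑ k, R.f k * X * (R.f k)ᵀ) ⊗ₖ Dbl_d p q +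
        Dbl_s p q • ((s * X * sᵀ + ∑ k, R.f k * s * X * (R.f k * s)ᵀ) ⊗ₖ Dbl_d p q) := by
    have h2 := Dbl_sum (m := m) (fun r => Dbl_u R.f s r *
            (Matrix.single (a, p) (b, q) 1 - Matrix.single (b, q) (a, p) 1) *
            (Dbl_u R.f s r)ᵀ)
    rw [Dbl_u0, one_mul, transpose_one, mul_one] at h2
    rw [h2, h0]
    simp only [mul_sub, sub_mul]
    rw [Finset.sum_sub_distrib, Dbl_tot, Dbl_tot, Dbl_k1, Dbl_k1, Dbl_k2, Dbl_k2, Dbl_dc p q,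
      Dbl_sc p q, hX]
    simp only [mul_sub, sub_mul, Finset.sum_sub_distrib, kronecker_smul, ← smul_add]
    ext ⟨a', p'⟩ ⟨b', q'⟩
    simp only [Matrix.add_apply, Matrix.sub_apply, Matrix.smul_apply, kronecker_apply, smul_eq_mul]
    ring
  rw [h1, hG1, hG2, Dbl_ph_eq]
  have hc : (Fintype.card (I × Fin 2) : ℝ) = Fintype.card I * 2 := by
    rw [Fintype.card_prod, Fintype.card_fin]
    push_cast
    ring
  have hm : ((m : ℝ) + 1) ≠ 0 := by positivity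
  rw [hc]
  push_cast
  by_cases hpq : p = q
  · subst hpq
    have hx : Dbl_x p p = 0 := by
      fin_cases p <;> simp [Dbl_x]
    ext ⟨a', p'⟩ ⟨b', q'⟩
    simp only [Matrix.add_apply, Matrix.sub_apply, Matrix.smul_apply, kronecker_apply, smul_eq_mul,
      Dbl_s, Dbl_d, if_true, Dbl_0, Dbl_1, map_smul, map_add, one_smul, hσ, hx]
    field_simp
    ring
  · have hx : Dbl_x p q = 1 := by
      fin_cases p <;> fin_cases q <;> simp [Dbl_x] at hpq ⊢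
    ext ⟨a', p'⟩ ⟨b', q'⟩
    simp only [Matrix.add_apply, Matrix.sub_apply, Matrix.smul_apply, kronecker_apply, smul_eq_mul,
      Dbl_s, Dbl_d, if_neg hpq, Dbl_0, Dbl_1, map_smul, map_add, neg_smul, one_smul, map_neg, hσ,
      Matrix.neg_apply, hx]
    by_cases hI : (Fintype.card I : ℝ) = 0
    · rw [hI]
      field_simp
      ring
    · field_simp
      ring


private theorem Dbl_Q (σ : L ≃ₗ⁅ℝ⁆ L) (x y : L) : Qf L (σ x) (σ y) = Qf L x y := by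
  unfold Qf
  simp only [LinearMap.neg_apply]
  rw [LieAlgebra.killingForm_of_equiv_apply]

private theorem Dbl_skew (x : L) : (Dbl_ph R σ x)ᵀ = -Dbl_ph R σ x := by
  have h0 : (Dbl_0 R σ x)ᵀ = -Dbl_0 R σ x := by
    unfold Dbl_0
    rw [transpose_smul, transpose_add, R.skew, R.skew, ← neg_add, smul_neg]
  have h1 : (Dbl_1 R σ x)ᵀ = -Dbl_1 R σ x := by
    unfold Dbl_1
    rw [transpose_smul, transpose_sub, R.skew, R.skew, ← neg_sub', smul_neg]
  rw [Dbl_ph_eq, transpose_add, Dbl_T, Dbl_T, h0, h1, transpose_one, Dbl_xT]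
  ext ⟨a', p'⟩ ⟨b', q'⟩
  simp only [Matrix.add_apply, Matrix.neg_apply, kronecker_apply]
  ring

private theorem Dbl_lie (x y : L) : Dbl_ph R σ ⁅x, y⁆ =
    Dbl_ph R σ x * Dbl_ph R σ y - Dbl_ph R σ y * Dbl_ph R σ x := by
  have h0 : Dbl_0 R σ ⁅x, y⁆ = Dbl_0 R σ x * Dbl_0 R σ y + Dbl_1 R σ x * Dbl_1 R σ y -
      (Dbl_0 R σ y * Dbl_0 R σ x + Dbl_1 R σ y * Dbl_1 R σ x) := by
    simp only [Dbl_0, Dbl_1, smul_mul_assoc, mul_smul_comm, smul_smul, mul_add, add_mul, mul_sub,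
      sub_mul, R.lie, LieEquiv.map_lie]
    module
  have h1 : Dbl_1 R σ ⁅x, y⁆ = Dbl_0 R σ x * Dbl_1 R σ y + Dbl_1 R σ x * Dbl_0 R σ y -
      (Dbl_0 R σ y * Dbl_1 R σ x + Dbl_1 R σ y * Dbl_0 R σ x) := by
    simp only [Dbl_0, Dbl_1, smul_mul_assoc, mul_smul_comm, smul_smul, mul_add, add_mul, mul_sub,
      sub_mul, R.lie, LieEquiv.map_lie]
    module
  simp only [Dbl_ph_eq, mul_add, add_mul, ← mul_kronecker_mul, Dbl_xx, mul_one, one_mul, h0, h1]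
  ext ⟨a', p'⟩ ⟨b', q'⟩
  simp only [Matrix.add_apply, Matrix.sub_apply, kronecker_apply]
  ring

private theorem Dbl_qf (x y : L) : Qf L x y =
    R.n / 2 * ∑ a, ∑ b, Dbl_ph R σ x a b * Dbl_ph R σ y a b := by
  have h1 : ∑ a, ∑ b, Dbl_ph R σ x a b * Dbl_ph R σ y a b =
      ∑ a, ∑ b, R.ph x a b * R.ph y a b + ∑ a, ∑ b, R.ph (σ x) a b * R.ph (σ y) a b := by
    simp only [Fintype.sum_prod_type, Fin.sum_univ_two]
    rw [← Finset.sum_add_distrib]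
    refine Finset.sum_congr rfl fun a _ => ?_
    rw [← Finset.sum_add_distrib, ← Finset.sum_add_distrib]
    refine Finset.sum_congr rfl fun b _ => ?_
    simp [Dbl_ph]
    ring
  have h2 := R.qf x y
  have h3 := R.qf (σ x) (σ y)
  rw [Dbl_Q] at h3
  rw [h1, mul_add]
  linarith

private theorem Dbl_tr (g : Matrix I I ℝ) (D : Matrix (Fin 2) (Fin 2) ℝ) (x : L) :
    trace (Dbl_ph R σ x * (g ⊗ₖ D)) =
      trace (Dbl_0 R σ x * g) * trace D + trace (Dbl_1 R σ x * g) * trace (Dbl_x * D) := by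
  rw [Dbl_ph_eq, add_mul, trace_add, ← mul_kronecker_mul, ← mul_kronecker_mul, trace_kronecker,
    trace_kronecker, one_mul]

private theorem Dbl_tr' (g : Matrix I I ℝ) (D : Matrix (Fin 2) (Fin 2) ℝ) (x : L) :
    trace (dz I * Dbl_ph R σ x * (g ⊗ₖ D)) =
      trace (Dbl_0 R σ x * g) * trace (Dbl_z * D) +
        trace (Dbl_1 R σ x * g) * trace (Dbl_e * D) * (-1) := by
  rw [Dbl_ph_eq, Dbl_dz, mul_add, ← mul_kronecker_mul, ← mul_kronecker_mul, Dbl_zx, add_mul,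
    trace_add, ← mul_kronecker_mul, ← mul_kronecker_mul, trace_kronecker,
    trace_kronecker, one_mul, one_mul, mul_one, neg_mul, trace_neg]
  ring

private theorem Dbl_t0 (x : L) {g : Matrix I I ℝ} (hg : ∀ x, trace (R.ph x * g) = 0) :
    trace (Dbl_0 R σ x * g) = 0 := by
  unfold Dbl_0
  rw [smul_mul_assoc, trace_smul, add_mul, trace_add, hg, hg, add_zero, smul_zero]

private theorem Dbl_t1 (x : L) {g : Matrix I I ℝ} (hg : ∀ x, trace (R.ph x * g) = 0) :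
    trace (Dbl_1 R σ x * g) = 0 := by
  unfold Dbl_1
  rw [smul_mul_assoc, trace_smul, sub_mul, trace_sub, hg, hg, sub_zero, smul_zero]

private theorem Dbl_tsσ (hsσ : ∀ x, s * R.ph x = R.ph (σ x) * s) (x : L) :
    trace (R.ph (σ x) * s) = trace (R.ph x * s) := by
  rw [← hsσ, trace_mul_comm]

private theorem Dbl_t1s (hsσ : ∀ x, s * R.ph x = R.ph (σ x) * s) (x : L) :
    trace (Dbl_1 R σ x * s) = 0 := by
  unfold Dbl_1
  rw [smul_mul_assoc, trace_smul, sub_mul, trace_sub, Dbl_tsσ R hsσ, sub_self, smul_zero]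

private theorem Dbl_t0s (hsσ : ∀ x, s * R.ph x = R.ph (σ x) * s) (x : L)
    (hx : trace (R.ph x * s) = 0) : trace (Dbl_0 R σ x * s) = 0 := by
  unfold Dbl_0
  rw [smul_mul_assoc, trace_smul, add_mul, trace_add, Dbl_tsσ R hsσ, hx, add_zero, smul_zero]

private theorem Dbl_tX {X g s : Matrix I I ℝ} (h1 : g * X = X * g) (h2 : s * g = -(g * s)) :
    trace (X * (g * s)) = 0 := by
  have h3 : trace (X * (g * s)) = -trace (X * (g * s)) := by
    calc trace (X * (g * s)) = trace (g * X * s) := by rw [h1, mul_assoc]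
      _ = trace (X * s * g) := by rw [mul_assoc, trace_mul_comm]
      _ = trace (X * (s * g)) := by rw [mul_assoc]
      _ = -trace (X * (g * s)) := by rw [h2, mul_neg, trace_neg]
  linarith

private theorem Dbl_tph (x : L) : trace (R.ph x * 1) = 0 := by
  have h1 : trace (R.ph x) = -trace (R.ph x) := by
    conv_lhs => rw [← trace_transpose, R.skew, trace_neg]
  rw [mul_one]
  linarith

/-- The doubled representation. -/
private noncomputable def Dbl_R (h2 : 2 ≤ R.n) (hσ : ∀ x, σ (σ x) = x)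
    (hs : sᵀ = -s) (hs2 : s * s = -1)
    (hsσ : ∀ x, s * R.ph x = R.ph (σ x) * s) (hf : ∀ k, s * R.f k = -(R.f k * s))
    (hJ : s * R.J = -(R.J * s)) : Rp L (I × Fin 2) (4 * m + 3) where
  ph := Dbl_ph R σ
  e a b := (1 / 4 : ℝ) • (R.e a.1 b.1 + Dbl_s a.2 b.2 • σ (R.e a.1 b.1))
  f k := Dbl_u R.f s (Dbl_i m k)
  J := R.J ⊗ₖ Dbl_x
  n := R.n / 2
  skew := Dbl_skew R
  lie := Dbl_lie R
  n1 := by linarith
  qf := Dbl_qf R
  he a b x := by
    have h1 : Qf L (σ (R.e a.1 b.1)) x = Qf L (R.e a.1 b.1) (σ x) := by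
      rw [← Dbl_Q σ (R.e a.1 b.1) (σ x), hσ]
    rw [map_smul, map_add, map_smul, LinearMap.smul_apply, LinearMap.add_apply,
      LinearMap.smul_apply, h1, R.he, R.he]
    simp only [Dbl_ph, Dbl_s, LinearMap.coe_mk, AddHom.coe_mk, of_apply, smul_eq_mul]
    ring
  inj x hx := by
    apply R.inj
    ext a b
    have h0 := congrFun (congrFun hx (a, 0)) (b, 0)
    have h1 := congrFun (congrFun hx (a, 0)) (b, 1)
    simp [Dbl_ph] at h0 h1
    simp only [Matrix.zero_apply]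
    linarith
  fo k := by
    have hsT := Dbl_sTs hs hs2
    have hf' : ∀ k, (R.f k * s)ᵀ * (R.f k * s) = 1 := by
      intro k
      rw [transpose_mul, mul_assoc, ← mul_assoc _ (R.f k) s, R.fo, one_mul, hsT]
    have hz : Dbl_zᵀ * Dbl_z = 1 := by rw [Dbl_zT, Dbl_zz]
    have hx : Dbl_xᵀ * Dbl_x = 1 := by rw [Dbl_xT, Dbl_xx]
    have he : Dbl_eᵀ * Dbl_e = 1 := by rw [Dbl_eT, neg_mul, Dbl_ee, neg_neg]
    revert k
    apply Dbl_cases (P := fun u => uᵀ * u = 1) R.f s <;>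
    intros <;>
    simp only [Dbl_T, ← mul_kronecker_mul, R.fo, hf', hz, hx, he, hsT, transpose_one, mul_one,
      one_kronecker_one]
  com k x := by
    have c0 : ∀ k, R.f k * Dbl_0 R σ x = Dbl_0 R σ x * R.f k :=
      fun k => Dbl_c0 R (R.com k) x
    have c1 : ∀ k, R.f k * Dbl_1 R σ x = Dbl_1 R σ x * R.f k :=
      fun k => Dbl_c1 R (R.com k) x
    have s0 := Dbl_s0 R hσ hsσ x
    have s1 := Dbl_s1 R hσ hsσ x
    have f0 : ∀ k, (R.f k * s) * Dbl_0 R σ x = Dbl_0 R σ x * (R.f k * s) := fun k => by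
      rw [mul_assoc, s0, ← mul_assoc, c0, mul_assoc]
    have f1 : ∀ k, (R.f k * s) * Dbl_1 R σ x = (-1 : ℝ) • (Dbl_1 R σ x * (R.f k * s)) :=
      fun k => by
        rw [mul_assoc, s1, mul_neg, ← mul_assoc, c1, mul_assoc, neg_smul, one_smul]
    have s1' : s * Dbl_1 R σ x = (-1 : ℝ) • (Dbl_1 R σ x * s) := by
      rw [s1, neg_smul, one_smul]
    have dz : Dbl_z * Dbl_x = (-1 : ℝ) • (Dbl_x * Dbl_z) := by
      rw [Dbl_zx, Dbl_xz, neg_smul, one_smul]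
    have de : Dbl_e * Dbl_x = (-1 : ℝ) • (Dbl_x * Dbl_e) := by
      rw [Dbl_ex, Dbl_xe, neg_smul, one_smul]
    revert k
    apply Dbl_cases (P := fun u => u * Dbl_ph R σ x = Dbl_ph R σ x * u) R.f s
    · intro k
      exact Dbl_com R _ _ x 1 (by norm_num) (c0 k) (by rw [one_smul]; exact c1 k) (by simp)
    · exact Dbl_com R _ _ x 1 (by norm_num) (by simp) (by simp) (by simp)
    · intro k
      exact Dbl_com R _ _ x 1 (by norm_num) (c0 k) (by rw [one_smul]; exact c1 k) (by simp)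
    · exact Dbl_com R _ _ x (-1) (by norm_num) s0 s1' dz
    · intro k
      exact Dbl_com R _ _ x (-1) (by norm_num) (f0 k) (f1 k) dz
    · exact Dbl_com R _ _ x (-1) (by norm_num) s0 s1' de
    · intro k
      exact Dbl_com R _ _ x (-1) (by norm_num) (f0 k) (f1 k) de
  Js := by
    rw [Dbl_T, R.Js, Dbl_xT]
    ext ⟨a', p'⟩ ⟨b', q'⟩
    simp only [Matrix.neg_apply, kronecker_apply]
    ring
  Jc x := Dbl_com R _ _ x 1 (by norm_num) (Dbl_c0 R R.Jc x)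
    (by rw [one_smul]; exact Dbl_c1 R R.Jc x) (by simp)
  JJ := by
    rcases R.JJ with h | h
    · left
      rw [h, zero_kronecker]
    · right
      rw [Dbl_T, ← mul_kronecker_mul, h, Dbl_xT, Dbl_xx, one_kronecker_one]
  ker a b := Dbl_ker R hσ hs hs2 hsσ hf hJ a.1 b.1 a.2 b.2
  nM := by
    have hc : (Fintype.card (I × Fin 2) : ℝ) = Fintype.card I * 2 := by
      rw [Fintype.card_prod, Fintype.card_fin]
      push_cast
      ring
    rw [hc]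
    push_cast
    have h3 : R.n / 2 - (Fintype.card I : ℝ) * 2 / (4 * (m : ℝ) + 3 + 1) =
        (1 / 2) * (R.n - Fintype.card I / ((m : ℝ) + 1)) := by
      have hm : ((m : ℝ) + 1) ≠ 0 := by positivity
      have hm2 : (4 * (m : ℝ) + 3 + 1) ≠ 0 := by positivity
      field_simp
      ring
    rw [h3, abs_mul]
    have h4 := R.nM
    have h5 := abs_nonneg (R.n - Fintype.card I / ((m : ℝ) + 1))
    rw [abs_of_pos (by norm_num : (0 : ℝ) < 1 / 2)]
    linarith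

end

theorem exists_dbl (R : Rp L I m) (h2 : 2 ≤ R.n) {σ : L ≃ₗ⁅ℝ⁆ L} (hσ : ∀ x, σ (σ x) = x)
    {s : Matrix I I ℝ} (hs : sᵀ = -s) (hs2 : s * s = -1)
    (hsσ : ∀ x, s * R.ph x = R.ph (σ x) * s) (hf : ∀ k, s * R.f k = -(R.f k * s))
    (hfs : ∀ k, (R.f k)ᵀ = -R.f k) (hJ : s * R.J = -(R.J * s))
    (htJ : ∀ x, trace (R.ph x * R.J) = 0) (htf : ∀ x k, trace (R.ph x * R.f k) = 0)
    {c : L} {κ : ℝ} (hc : R.ph c = κ • s) (hcc : Qf L c c = 1 ∨ c = 0)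
    (hts : ∀ x, Qf L x c = 0 → trace (R.ph x * s) = 0) :
    ∃ R' : Rp L (I × Fin 2) (4 * m + 3), R'.n = R.n / 2 ∧
      (∀ x a b, R'.ph x a b = 1 / 2 * (R.ph x a.1 b.1 +
        (if a.2 = b.2 then 1 else -1) * R.ph (σ x) a.1 b.1)) ∧
      InvD R' (dz I) c (dJ s) κ (-κ) := by
  have hsT := Dbl_sTs hs hs2
  have fsT : ∀ k, (R.f k * s)ᵀ = -(R.f k * s) := by
    intro k
    rw [transpose_mul, hs, hfs, neg_mul_neg, hf]
  refine ⟨Dbl_R R h2 hσ hs hs2 hsσ hf hJ, rfl, fun x a b => rfl, ?_⟩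
  constructor
  · rw [Dbl_dz, Dbl_T, transpose_one, Dbl_zT]
  · rw [Dbl_dz, ← mul_kronecker_mul, Dbl_zz, one_mul, one_kronecker_one]
  · rw [Dbl_dz]
    apply Dbl_cases (P := fun u => (1 ⊗ₖ Dbl_z * u = u * 1 ⊗ₖ Dbl_z ∧ uᵀ = -u) ∨
      1 ⊗ₖ Dbl_z * u = -(u * 1 ⊗ₖ Dbl_z)) R.f s
    · intro k
      left
      simp only [Dbl_T, ← mul_kronecker_mul, one_mul, mul_one, transpose_one, hfs, true_and]
      ext ⟨a', p'⟩ ⟨b', q'⟩
      simp only [Matrix.neg_apply, kronecker_apply]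
      ring
    · right
      simp only [← mul_kronecker_mul, one_mul, mul_one, Dbl_zx, Dbl_xz]
      ext ⟨a', p'⟩ ⟨b', q'⟩
      simp only [Matrix.neg_apply, kronecker_apply]
      ring
    · intro k
      right
      simp only [← mul_kronecker_mul, one_mul, mul_one, Dbl_zx, Dbl_xz]
      ext ⟨a', p'⟩ ⟨b', q'⟩
      simp only [Matrix.neg_apply, kronecker_apply]
      ring
    · left
      simp only [Dbl_T, ← mul_kronecker_mul, one_mul, mul_one, Dbl_zT, hs, true_and]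
      ext ⟨a', p'⟩ ⟨b', q'⟩
      simp only [Matrix.neg_apply, kronecker_apply]
      ring
    · intro k
      left
      simp only [Dbl_T, ← mul_kronecker_mul, one_mul, mul_one, Dbl_zT, fsT, true_and]
      ext ⟨a', p'⟩ ⟨b', q'⟩
      simp only [Matrix.neg_apply, kronecker_apply]
      ring
    · right
      simp only [← mul_kronecker_mul, one_mul, mul_one, Dbl_ze, Dbl_ez]
      ext ⟨a', p'⟩ ⟨b', q'⟩
      simp only [Matrix.neg_apply, kronecker_apply]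
      ring
    · intro k
      right
      simp only [← mul_kronecker_mul, one_mul, mul_one, Dbl_ze, Dbl_ez]
      ext ⟨a', p'⟩ ⟨b', q'⟩
      simp only [Matrix.neg_apply, kronecker_apply]
      ring
  · right
    change dz I * (R.J ⊗ₖ Dbl_x) = -((R.J ⊗ₖ Dbl_x) * dz I)
    rw [Dbl_dz, ← mul_kronecker_mul, ← mul_kronecker_mul, one_mul, mul_one, Dbl_zx, Dbl_xz]
    ext ⟨a', p'⟩ ⟨b', q'⟩
    simp only [Matrix.neg_apply, kronecker_apply]
    ring
  · rw [Dbl_dJ, Dbl_T, hs, Dbl_zT]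
    ext ⟨a', p'⟩ ⟨b', q'⟩
    simp only [Matrix.neg_apply, kronecker_apply]
    ring
  · right
    rw [Dbl_dJ, Dbl_T, ← mul_kronecker_mul, hsT, Dbl_zT, Dbl_zz, one_kronecker_one]
  · intro x
    rw [Dbl_dJ]
    refine Dbl_com R _ _ x (-1) (by norm_num) (Dbl_s0 R hσ hsσ x) ?_ ?_
    · rw [Dbl_s1 R hσ hsσ x, neg_smul, one_smul]
    · rw [Dbl_zx, Dbl_xz, neg_smul, one_smul]
  · rw [Dbl_dJ, Dbl_dz, ← mul_kronecker_mul, ← mul_kronecker_mul, one_mul, mul_one]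
  · exact hcc
  · change Dbl_ph R σ c = _
    have h3 : R.ph (σ c) = κ • s := by
      rw [← Dbl_conj R hs hs2 hsσ, hc, mul_smul_comm, smul_mul_assoc, mul_assoc,
        Dbl_ssT hs hs2, mul_one]
    rw [Dbl_ph_eq, Dbl_dJ, Dbl_dz, add_mul, sub_mul, ← mul_kronecker_mul, one_mul, one_mul,
      Dbl_zz]
    ext ⟨a', p'⟩ ⟨b', q'⟩
    simp only [Matrix.add_apply, Matrix.sub_apply, Matrix.smul_apply, kronecker_apply, Dbl_0,
      Dbl_1, hc, h3, smul_eq_mul]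
    ring
  · intro x _
    refine ⟨?_, ?_⟩
    · change trace (Dbl_ph R σ x * (R.J ⊗ₖ Dbl_x)) = 0
      rw [Dbl_tr, Dbl_t0 R x htJ, Dbl_t1 R x htJ, zero_mul, zero_mul, add_zero]
    · change trace (dz I * Dbl_ph R σ x * (R.J ⊗ₖ Dbl_x)) = 0
      rw [Dbl_tr', Dbl_t0 R x htJ, Dbl_t1 R x htJ]
      ring
  · intro x hx
    have hxs := hts x hx
    have t0f : ∀ k, trace (Dbl_0 R σ x * R.f k) = 0 := fun k => Dbl_t0 R x fun y => htf y k
    have t1f : ∀ k, trace (Dbl_1 R σ x * R.f k) = 0 := fun k => Dbl_t1 R x fun y => htf y k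
    have t1 : trace (Dbl_1 R σ x * 1) = 0 := Dbl_t1 R x (Dbl_tph R)
    have t0 : trace (Dbl_0 R σ x * 1) = 0 := Dbl_t0 R x (Dbl_tph R)
    have t0s : trace (Dbl_0 R σ x * s) = 0 := Dbl_t0s R hsσ x hxs
    have t1s : trace (Dbl_1 R σ x * s) = 0 := Dbl_t1s R hsσ x
    have t0fs : ∀ k, trace (Dbl_0 R σ x * (R.f k * s)) = 0 :=
      fun k => Dbl_tX (Dbl_c0 R (R.com k) x) (hf k)
    have t1fs : ∀ k, trace (Dbl_1 R σ x * (R.f k * s)) = 0 :=
      fun k => Dbl_tX (Dbl_c1 R (R.com k) x) (hf k)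
    change ∀ k, trace (Dbl_ph R σ x * Dbl_u R.f s (Dbl_i m k)) = 0 ∧
      trace (dz I * Dbl_ph R σ x * Dbl_u R.f s (Dbl_i m k)) = 0
    apply Dbl_cases (P := fun u => trace (Dbl_ph R σ x * u) = 0 ∧
      trace (dz I * Dbl_ph R σ x * u) = 0) R.f s <;> intros <;>
      rw [Dbl_tr, Dbl_tr'] <;>
      simp only [t0f, t1f, t0, t1, t0s, t1s, t0fs, t1fs, zero_mul, add_zero, and_self]

end Pool.Agent.EinV
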