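import Pool.Agent.EinG.Frm
import Pool.Agent.EinU.Cst

/-!
# Symmetric subgroups of the classical groups: definitions

`L` is a Lie algebra of skew matrices on `ℝ^I` (`Rp`): the image of `ph` consists of the skew matrices which
commute with the orthogonal matrices `f k` (up to the one-dimensional correction `J` for `su`).
`e a b` is the element of `L` with `Qf (e a b) x = n * ph x a b`, so `ph (e a b)` is the projection of the
matrix unit `E a b`.  An endomorphism `U` of `L` has the tensor `tn U a b c d = ph (U (e a b)) c d`.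

`ℝ^I` is the sum of two blocks, the coordinates in `A : Finset I` and the others; the subalgebra `k` consists
of the block diagonal elements, `p` of the others (`Spl`).
-/

namespace Pool.Agent.EinV

open Matrix Pool.Agent.EStab Pool.Agent.EinS Pool.Agent.SmIso Pool.Agent.EinU Pool.Agent.EinG

section Mat

variable {I : Type} [Fintype I] [DecidableEq I]

/-- Block weights: `u` on `V₁ × V₁`, `v` on `V₂ × V₂`, `t` on the mixed pairs. -/
def wt (A : Finset I) (u v t : ℝ) (a b : I) : ℝ :=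
  if a ∈ A then (if b ∈ A then u else t) else (if b ∈ A then t else v)

/-- The Hilbert-Schmidt norm of a matrix. -/
noncomputable def mn (x : Matrix I I ℝ) : ℝ := √(∑ a, ∑ b, x a b ^ 2)

/-- The Hilbert-Schmidt norm of a tensor. -/
noncomputable def hs (t : I → I → I → I → ℝ) : ℝ := √(∑ a, ∑ b, ∑ c, ∑ d, t a b c d ^ 2)

/-- `s` bounds the operator norm of the tensor `t`. -/
def N1 (t : I → I → I → I → ℝ) (s : ℝ) : Prop :=
  ∀ x y : Matrix I I ℝ, |∑ a, ∑ b, ∑ c, ∑ d, t a b c d * (x a b * y c d)| ≤ s * (mn x * mn y)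

/-- The slow part of the trace form, polarised. -/
noncomputable def SLb (w : I → I → ℝ) (t : I → I → I → I → ℝ) (Z Z' : Matrix I I ℝ) : ℝ :=
  2 * ∑ c, ∑ a, ∑ d, Z c a * Z' c d * ∑ b, w c b * t a b d b

/-- The fast part of the trace form, polarised. -/
noncomputable def FAb (w : I → I → ℝ) (t : I → I → I → I → ℝ) (Z Z' : Matrix I I ℝ) : ℝ :=
  ∑ a, ∑ b, ∑ c, ∑ d, (w b d + w a c) * (Z a b * Z' c d) * t a d b c

/-- The trace over a block, divided by the dimension of the space. -/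
noncomputable def ta (A : Finset I) (u : Matrix I I ℝ) : ℝ := (∑ a ∈ A, u a a) / Fintype.card I

/-- The trace form in a block: `(1/M) * (M_A * u + tr_A u)`. -/
noncomputable def bf (A : Finset I) (u : Matrix I I ℝ) (v : I → ℝ) : ℝ :=
  (A.card : ℝ) / Fintype.card I * (v ⬝ᵥ (u *ᵥ v)) + ta A u * (v ⬝ᵥ v)

end Mat

section Lie

variable {L : Type} [LieRing L] [LieAlgebra ℝ L]

/-- `s` bounds the quadratic form of `U`. -/
def NBL (U : L →ₗ[ℝ] L) (s : ℝ) : Prop := ∀ z, |Qf L (U z) z| ≤ s * Qf L z z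

variable (L) in
/-- A representation of `L` by skew matrices; see the top of the file. -/
structure Rp (I : Type) [Fintype I] [DecidableEq I] (m : ℕ) where
  /-- the representation -/
  ph : L →ₗ[ℝ] Matrix I I ℝ
  /-- the projections of the matrix units -/
  e : I → I → L
  /-- orthogonal matrices which commute with the representation -/
  f : Fin m → Matrix I I ℝ
  /-- the correction for `su` -/
  J : Matrix I I ℝ
  /-- the scale of the Killing form -/
  n : ℝ
  skew : ∀ x, (ph x)ᵀ = -ph x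
  lie : ∀ x y, ph ⁅x, y⁆ = ph x * ph y - ph y * ph x
  n1 : 1 ≤ n
  qf : ∀ x y, Qf L x y = n * ∑ a, ∑ b, ph x a b * ph y a b
  he : ∀ a b x, Qf L (e a b) x = n * ph x a b
  inj : ∀ x, ph x = 0 → x = 0
  fo : ∀ k, (f k)ᵀ * f k = 1
  com : ∀ k x, f k * ph x = ph x * f k
  Js : Jᵀ = -J
  Jc : ∀ x, J * ph x = ph x * J
  JJ : J = 0 ∨ Jᵀ * J = 1
  ker : ∀ a b, ph (e a b) = (1 / (2 * ((m : ℝ) + 1))) • (Matrix.single a b 1 - Matrix.single b a 1 +
    ∑ k, f k * (Matrix.single a b 1 - Matrix.single b a 1) * (f k)ᵀ) -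
      (J a b / Fintype.card I) • J
  nM : |n - Fintype.card I / ((m : ℝ) + 1)| ≤ 2

variable {I : Type} [Fintype I] [DecidableEq I] {m : ℕ}

/-- The tensor of an endomorphism. -/
noncomputable def Rp.tn (R : Rp L I m) (U : L →ₗ[ℝ] L) (a b c d : I) : ℝ := R.ph (U (R.e a b)) c d

/-- The element of `L` which corresponds to the matrix `v ⊗ w`. -/
noncomputable def Rp.zz (R : Rp L I m) (v w : I → ℝ) : L := ∑ a, ∑ b, (v a * w b) • R.e a b

/-- The contraction of an endomorphism over the block `B`, normalised. -/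
noncomputable def Rp.rh (R : Rp L I m) (B : Finset I) (U : L →ₗ[ℝ] L) : Matrix I I ℝ :=
  of fun a d => 1 / R.n * ∑ b ∈ B, R.tn U a b d b

/-- A combination of the two contractions. -/
noncomputable def Rp.ub (R : Rp L I m) (A : Finset I) (p q : ℝ) (U : L →ₗ[ℝ] L) : Matrix I I ℝ :=
  p • R.rh A U + q • R.rh Aᶜ U

/-- The splitting of `L` into `k` (block diagonal) and `p` (block off-diagonal) and the operators `T` (scale
`x1`, `x2` on the two blocks, `z` on the centre of `k`, spanned by `c`, and `1` on `p`), `S = T⁻¹`. -/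
structure Spl (R : Rp L I m) (A : Finset I) (x1 x2 z : ℝ) (S T Pp : L →ₗ[ℝ] L) (c : L)
    (J0 : Matrix I I ℝ) (g1 g2 : ℝ) : Prop where
  x1p : 0 < x1
  x2p : 0 < x2
  zp : 0 < z
  fA : ∀ k, ((∀ a b, ¬(a ∈ A ↔ b ∈ A) → R.f k a b = 0) ∧ (R.f k)ᵀ = -R.f k) ∨
    ((∀ a b, (a ∈ A ↔ b ∈ A) → R.f k a b = 0) ∧ x1 = x2)
  JA : (∀ a b, ¬(a ∈ A ↔ b ∈ A) → R.J a b = 0) ∨
    ((∀ a b, (a ∈ A ↔ b ∈ A) → R.J a b = 0) ∧ x1 = x2)
  pp : ∀ x a b, R.ph (Pp x) a b = if (a ∈ A ↔ b ∈ A) then 0 else R.ph x a b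
  J0s : J0ᵀ = -J0
  J0J : J0 = 0 ∨ J0ᵀ * J0 = 1
  J0A : ∀ a b, ¬(a ∈ A ↔ b ∈ A) → J0 a b = 0
  J0c : ∀ x, J0 * R.ph x = R.ph x * J0
  cc : Qf L c c = 1 ∨ c = 0
  pc : ∀ a b, R.ph c a b = (if a ∈ A then g1 else g2) * J0 a b
  tT : ∀ x a b, R.ph (T x) a b =
    wt A x1 x2 1 a b * R.ph x a b + Qf L x c * ((z - wt A x1 x2 1 a b) * R.ph c a b)
  tS : ∀ x a b, R.ph (S x) a b =
    wt A (1 / x1) (1 / x2) 1 a b * R.ph x a b +
      Qf L x c * ((1 / z - wt A (1 / x1) (1 / x2) 1 a b) * R.ph c a b)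

/-- Bounds for the constants: both blocks are large. -/
structure Bnd (I : Type) [Fintype I] [DecidableEq I] (m : ℕ) (A : Finset I)
    (x1 x2 z c0 : ℝ) : Prop where
  c1 : 1 ≤ c0
  x1l : 1 / c0 ≤ x1
  x1u : x1 ≤ c0
  x2l : 1 / c0 ≤ x2
  x2u : x2 ≤ c0
  zl : 1 / c0 ≤ z
  zu : z ≤ c0
  Al : (Fintype.card I : ℝ) ≤ c0 * (A.card : ℝ)
  Bl : (Fintype.card I : ℝ) ≤ c0 * (Aᶜ.card : ℝ)
  M1 : 4 * ((m : ℝ) + 1) ≤ Fintype.card I

end Lie

end Pool.Agent.EinV
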