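import Pool.Agent.EinV.TrS

/-!
# The linearised Einstein equation in terms of the slow and the fast part

`ellQG S T D lam β y = Qf (β y) (S (D y)) - (1/2) (TH2 T β (S y) (S y) - TH2 (T β T) S (S y) (S y)) + (1/2) TH2 S β y y - lam Qf (β y) y`.
* `S (D y) = D y` and `D y = D (Pp y)`, `Pp (D y) = D y`, so the first term is `Qf (β (Pp y)) (D (Pp y))`; the symmetric operator
  `D - ω Pp` (`ω = lam - mu`) has quadratic form at most `δ`, so by `polar` the term is `ω Qf (β (Pp y)) (Pp y) + O(δ b)`.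
* By `hz` the bracket may be computed at `Pp (S y) = Pp y` (`Spl.PS`).  `TH2 U S x x = TH2 S U x x` (cyclicity of the trace), and
  `U = T β T` is symmetric with `NBL U (c0² b)`.  Apply `TH2_spl` three times.
-/

namespace Pool.Agent.EinV

open Matrix Pool.Agent.EStab Pool.Agent.EinS Pool.Agent.SmIso Pool.Agent.EinU Pool.Agent.EinG

section

variable {L : Type} [LieRing L] [LieAlgebra ℝ L] {I : Type} [Fintype I] [DecidableEq I] {m : ℕ}

/-- The slow and the fast part together. -/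
noncomputable def Rp.FO (R : Rp L I m) (A : Finset I) (u v : ℝ) (U : L →ₗ[ℝ] L) (y : L) : ℝ :=
  SLb (wt A u v 1) (R.tn U) (R.ph y) (R.ph y) + FAb (wt A u v 1) (R.tn U) (R.ph y) (R.ph y)

/-- The properties of the operator `D`, and of the base metric (`z`). -/
structure DD (S T Pp D : L →ₗ[ℝ] L) (om δ : ℝ) : Prop where
  δ0 : 0 ≤ δ
  symD : QSym D
  DP : ∀ x, D (Pp x) = D x
  PD : ∀ x, Pp (D x) = D x
  dom : ∀ x, |Qf L (D x) x - om * Qf L (Pp x) x| ≤ δ * Qf L x x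
  z : ∀ β : L →ₗ[ℝ] L, QSym β → (∀ x, β (Pp x) = Pp (β x)) → ∀ x,
    TH2 T β x x - TH2 (T ∘ₗ β ∘ₗ T) S x x =
      TH2 T β (Pp x) (Pp x) - TH2 (T ∘ₗ β ∘ₗ T) S (Pp x) (Pp x)

theorem TH2_cyc [Module.Finite ℝ L] (T U : L →ₗ[ℝ] L) (x : L) : TH2 T U x x = TH2 U T x x := by
  unfold TH2
  congr 1
  exact LinearMap.trace_mul_comm ℝ ((LieAlgebra.ad ℝ L x : L →ₗ[ℝ] L) * T)
    ((LieAlgebra.ad ℝ L x : L →ₗ[ℝ] L) * U)

end

private theorem Ell_nn {L : Type} [LieRing L] [LieAlgebra ℝ L] {I : Type} [Fintype I] [DecidableEq I]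
    {m : ℕ} (R : Rp L I m) (x : L) : 0 ≤ Qf L x x := by
  rw [R.Qf_mn]
  exact mul_nonneg R.n0.le (sq_nonneg _)

private theorem Ell_polar {L : Type} [LieRing L] [LieAlgebra ℝ L] {I : Type} [Fintype I] [DecidableEq I]
    {m : ℕ} (R : Rp L I m) {U : L →ₗ[ℝ] L} (hU : QSym U) {b : ℝ} (hb : 0 ≤ b) (h : NBL U b) (x y : L) :
    |Qf L (U x) y| ≤ b * (√(Qf L x x) * √(Qf L y y)) := by
  first
    | exact Rp.polar R hU hb h x y
    | exact Rp.polar hU hb h x y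

private theorem Ell_sq {L : Type} [LieRing L] [LieAlgebra ℝ L] {I : Type} [Fintype I] [DecidableEq I]
    {m : ℕ} (R : Rp L I m) {T : L →ₗ[ℝ] L} (hT : QSym T) {c : ℝ} (hc : 0 ≤ c) (hTb : NBL T c) (x : L) :
    Qf L (T x) (T x) ≤ c ^ 2 * Qf L x x := by
  have h1 := Ell_polar R hT hc hTb x (T x)
  have h2 := Ell_nn R (T x)
  have h3 := Ell_nn R x
  rw [abs_of_nonneg h2] at h1
  set s := √(Qf L (T x) (T x)) with hs
  set r := √(Qf L x x) with hr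
  have e1 : Qf L (T x) (T x) = s ^ 2 := (Real.sq_sqrt h2).symm
  have e2 : Qf L x x = r ^ 2 := (Real.sq_sqrt h3).symm
  have hs0 : 0 ≤ s := Real.sqrt_nonneg _
  have hr0 : 0 ≤ r := Real.sqrt_nonneg _
  rw [e1] at h1 ⊢
  rw [e2]
  have h4 : s ≤ c * r := by
    by_contra hcon
    have h5 : c * r < s := not_le.1 hcon
    have h6 : 0 < s := lt_of_le_of_lt (mul_nonneg hc hr0) h5
    nlinarith
  calc s ^ 2 ≤ (c * r) ^ 2 := pow_le_pow_left₀ hs0 h4 2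
    _ = c ^ 2 * r ^ 2 := by ring

theorem NBL_TUT {L : Type} [LieRing L] [LieAlgebra ℝ L] {I : Type} [Fintype I] [DecidableEq I]
    {m : ℕ} {R : Rp L I m} {A : Finset I} {x1 x2 z : ℝ} {S T Pp : L →ₗ[ℝ] L} {c : L}
    {J0 : Matrix I I ℝ} {g1 g2 c0 b : ℝ} (h : Spl R A x1 x2 z S T Pp c J0 g1 g2)
    (hb : Bnd I m A x1 x2 z c0) {U : L →ₗ[ℝ] L} (hU : QSym U) (hb0 : 0 ≤ b) (hUb : NBL U b) :
    QSym (T ∘ₗ U ∘ₗ T) ∧ NBL (T ∘ₗ U ∘ₗ T) (c0 ^ 2 * b) := by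
  have hc1 := hb.c1
  have hsT := h.sT
  constructor
  · intro x y
    simp only [LinearMap.comp_apply]
    rw [hsT, hU, hsT]
  · intro x
    simp only [LinearMap.comp_apply]
    rw [hsT]
    refine (hUb (T x)).trans ?_
    have hT : Qf L (T x) (T x) ≤ c0 ^ 2 * Qf L x x := by
      apply Ell_sq R hsT (by linarith) _ x
      intro z'
      have h1 := (h.lo hb z').2
      have h2 := (h.hi hb z').2
      have h3 := Ell_nn R z'
      rw [abs_of_nonneg (le_trans (by positivity) h1)]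
      exact h2
    calc b * Qf L (T x) (T x) ≤ b * (c0 ^ 2 * Qf L x x) := mul_le_mul_of_nonneg_left hT hb0
      _ = c0 ^ 2 * b * Qf L x x := by ring

theorem ell_form (c0 : ℝ) (m : ℕ) : ∃ C : ℝ, 1 ≤ C ∧ ∀ (L : Type) [LieRing L] [LieAlgebra ℝ L]
    [Module.Finite ℝ L] (I : Type) [Fintype I] [DecidableEq I] (R : Rp L I m) (A : Finset I)
    (x1 x2 z : ℝ) (S T Pp : L →ₗ[ℝ] L) (c : L) (J0 : Matrix I I ℝ) (g1 g2 : ℝ),
    Spl R A x1 x2 z S T Pp c J0 g1 g2 → Bnd I m A x1 x2 z c0 →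
    ∀ (D : L →ₗ[ℝ] L) (lam mu δ : ℝ), DD S T Pp D (lam - mu) δ →
    ∀ (β : L →ₗ[ℝ] L) (b : ℝ), QSym β → (∀ x, β (Pp x) = Pp (β x)) → 0 ≤ b → NBL β b → ∀ y : L,
      |ellQG S T D lam β y -
        (-lam * Qf L (β y) y + (lam - mu) * Qf L (β (Pp y)) (Pp y) -
          1 / 2 * (R.FO A x1 x2 β (Pp y) - R.FO A (1 / x1) (1 / x2) (T ∘ₗ β ∘ₗ T) (Pp y)) +
          1 / 2 * R.FO A (1 / x1) (1 / x2) β y)| ≤
        C * (1 / Fintype.card I + δ) * b * Qf L y y := by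
  obtain ⟨C, hC1, hC⟩ := TH2_spl c0 m
  refine ⟨C * (2 + c0 ^ 2), by nlinarith [sq_nonneg c0], ?_⟩
  intro L _ _ _ I _ _ R A x1 x2 z S T Pp c J0 g1 g2 h hb D lam mu δ hD β b hβ hβP hb0 hβb y
  have hspl := hC L I R A x1 x2 z S T Pp c J0 g1 g2 h hb
  obtain ⟨hU, hUb⟩ := NBL_TUT h hb hβ hb0 hβb
  have hsP := h.sP
  obtain ⟨-, -, hM0, -⟩ := R.n_bd hb.M1
  have hδ := hD.δ0
  have hQ0 : 0 ≤ Qf L y y := Ell_nn R y
  have hQP0 : 0 ≤ Qf L (Pp y) (Pp y) := Ell_nn R (Pp y)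
  have hQP : Qf L (Pp y) (Pp y) ≤ Qf L y y := by
    have e1 := Ell_nn R (y - Pp y)
    have e2 : Qf L (y - Pp y) (y - Pp y) = Qf L y y - Qf L y (Pp y) - Qf L (Pp y) y +
        Qf L (Pp y) (Pp y) := by
      simp only [map_sub, LinearMap.sub_apply]
      ring
    have e3 : Qf L (Pp y) (Pp y) = Qf L (Pp y) y := by
      rw [← hsP, h.P2]
    have e4 : Qf L y (Pp y) = Qf L (Pp y) y := (hsP y y).symm
    linarith
  -- the first term
  have f1 : Qf L (β y) (S (D y)) = Qf L (β (Pp y)) (D (Pp y)) := by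
    have e1 : S (D y) = D y := by
      conv_lhs => rw [← hD.PD y]
      rw [h.SP, hD.PD]
    rw [e1, hD.DP, hβP y, hsP, hD.PD]
  obtain ⟨E, hE⟩ : ∃ E : L →ₗ[ℝ] L, E = D - (lam - mu) • Pp := ⟨_, rfl⟩
  have hEa : ∀ x, E x = D x - (lam - mu) • Pp x := by
    intro x
    rw [hE]
    rfl
  have hEs : QSym E := by
    intro x x'
    rw [hEa, hEa]
    simp only [map_sub, map_smul, LinearMap.sub_apply, LinearMap.smul_apply]
    rw [hD.symD x x', hsP x x']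
  have hEb : NBL E δ := by
    intro x
    rw [hEa]
    simp only [map_sub, map_smul, LinearMap.sub_apply, LinearMap.smul_apply, smul_eq_mul]
    exact hD.dom x
  have f2 : Qf L (β (Pp y)) (D (Pp y)) = Qf L (β (Pp y)) (E (Pp y)) +
      (lam - mu) * Qf L (β (Pp y)) (Pp y) := by
    rw [hEa, h.P2]
    simp only [map_sub, map_smul, smul_eq_mul]
    ring
  have f3 : |Qf L (β (Pp y)) (E (Pp y))| ≤ δ * b * Qf L y y := by
    rw [← hEs (β (Pp y)) (Pp y)]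
    refine (Ell_polar R hEs hδ hEb _ _).trans ?_
    have e1 := Ell_sq R hβ hb0 hβb (Pp y)
    have e2 : √(Qf L (β (Pp y)) (β (Pp y))) ≤ b * √(Qf L (Pp y) (Pp y)) := by
      rw [← Real.sqrt_sq hb0, ← Real.sqrt_mul (sq_nonneg b)]
      exact Real.sqrt_le_sqrt e1
    have e3 : √(Qf L (Pp y) (Pp y)) * √(Qf L (Pp y) (Pp y)) = Qf L (Pp y) (Pp y) :=
      Real.mul_self_sqrt hQP0
    have e4 : 0 ≤ √(Qf L (Pp y) (Pp y)) := Real.sqrt_nonneg _
    calc δ * (√(Qf L (β (Pp y)) (β (Pp y))) * √(Qf L (Pp y) (Pp y)))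
        ≤ δ * ((b * √(Qf L (Pp y) (Pp y))) * √(Qf L (Pp y) (Pp y))) := by gcongr
      _ = δ * b * Qf L (Pp y) (Pp y) := by rw [mul_assoc b, e3]; ring
      _ ≤ δ * b * Qf L y y := by gcongr
  -- the bracket
  have f4 : TH2 T β (S y) (S y) - TH2 (T ∘ₗ β ∘ₗ T) S (S y) (S y) =
      TH2 T β (Pp y) (Pp y) - TH2 S (T ∘ₗ β ∘ₗ T) (Pp y) (Pp y) := by
    rw [hD.z β hβ hβP (S y), h.PS, TH2_cyc (T ∘ₗ β ∘ₗ T) S (Pp y)]
  have g1' := abs_le.1 (hspl β b hβ hb0 hβb (Pp y)).1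
  have g2' := abs_le.1 (hspl (T ∘ₗ β ∘ₗ T) (c0 ^ 2 * b) hU (by positivity) hUb (Pp y)).2
  have g3' := abs_le.1 (hspl β b hβ hb0 hβb y).2
  have f3' := abs_le.1 f3
  have hC0 : 0 ≤ C := by linarith
  have k1 : C / Fintype.card I * b * Qf L (Pp y) (Pp y) ≤ C / Fintype.card I * b * Qf L y y :=
    mul_le_mul_of_nonneg_left hQP (by positivity)
  have k2 : C / Fintype.card I * (c0 ^ 2 * b) * Qf L (Pp y) (Pp y) ≤
      C / Fintype.card I * (c0 ^ 2 * b) * Qf L y y :=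
    mul_le_mul_of_nonneg_left hQP (by positivity)
  have k3 : C * (2 + c0 ^ 2) * (1 / Fintype.card I + δ) * b * Qf L y y =
      2 * (C / Fintype.card I * b * Qf L y y) + C / Fintype.card I * (c0 ^ 2 * b) * Qf L y y +
        C * (2 + c0 ^ 2) * (δ * b * Qf L y y) := by ring
  have k4 : δ * b * Qf L y y ≤ C * (2 + c0 ^ 2) * (δ * b * Qf L y y) := by
    have e1 : 1 ≤ C * (2 + c0 ^ 2) := by nlinarith [sq_nonneg c0]
    have e2 : 0 ≤ δ * b * Qf L y y := by positivity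
    nlinarith
  have k5 : 0 ≤ C / Fintype.card I * b * Qf L y y := by positivity
  have k6 : 0 ≤ C / Fintype.card I * (c0 ^ 2 * b) * Qf L y y := by positivity
  rw [k3]
  unfold ellQG Rp.FO
  rw [f1, f2, f4]
  rw [abs_le]
  constructor
  · linarith [g1'.1, g1'.2, g2'.1, g2'.2, g3'.1, g3'.2, f3'.1, f3'.2]
  · linarith [g1'.1, g1'.2, g2'.1, g2'.2, g3'.1, g3'.2, f3'.1, f3'.2]

end Pool.Agent.EinV
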