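import Pool.Agent.EinV.Ell

/-!
# The exact properties of the base metric

`trace_adj`: `trace F = (1/n) ∑ a b, Qf (F (e a b)) (e a b)` (`Rp.trace`, `he`).
Let `σ = 1 - 2 Pp` (`Spl.refl`), an automorphism which commutes with `S`, `T`, `β`; conjugating by `σ` shows
`trace (ad x ∘ T ∘ ad y ∘ U) = 0` for `x ∈ k`, `y ∈ p` or conversely.  For `x ∈ k` (`Pp x = 0`), `a = ad x` commutes with `S` and `T`
(`Spl.equi`), so `trace (a T a S) = trace (a a)`, and `trace (a T a β) = trace (a² β T)`, `trace (a (T β T) a S) = trace (a² T β)`; the two are equal by `trace_adj`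
(`a` is skew, `T`, `β` are symmetric for `Qf`).
`D` is the operator of the form `(x, y) ↦ Qf (Pp x) (Pp y) - B (Pp x) (Pp y)`, `B` the symmetrised form of `TH2 T S` (`Rp.exists_op`).
-/

namespace Pool.Agent.EinV

open Matrix Pool.Agent.EStab Pool.Agent.EinS Pool.Agent.SmIso Pool.Agent.EinU Pool.Agent.EinG

section

variable {L : Type} [LieRing L] [LieAlgebra ℝ L] [Module.Finite ℝ L] {I : Type} [Fintype I]
  [DecidableEq I] {m : ℕ} {R : Rp L I m} {A : Finset I} {x1 x2 z : ℝ} {S T Pp : L →ₗ[ℝ] L} {c : L}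
  {J0 : Matrix I I ℝ} {g1 g2 : ℝ}

omit [Module.Finite ℝ L] in
private theorem Equi_add_left (T U : L →ₗ[ℝ] L) (x x' y : L) :
    TH2 T U (x + x') y = TH2 T U x y + TH2 T U x' y := by
  unfold TH2
  have h : (LieAlgebra.ad ℝ L (x + x') : L →ₗ[ℝ] L) ∘ₗ T ∘ₗ (LieAlgebra.ad ℝ L y : L →ₗ[ℝ] L) ∘ₗ U =
      (LieAlgebra.ad ℝ L x : L →ₗ[ℝ] L) ∘ₗ T ∘ₗ (LieAlgebra.ad ℝ L y : L →ₗ[ℝ] L) ∘ₗ U +
      (LieAlgebra.ad ℝ L x' : L →ₗ[ℝ] L) ∘ₗ T ∘ₗ (LieAlgebra.ad ℝ L y : L →ₗ[ℝ] L) ∘ₗ U := by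
    refine LinearMap.ext fun z => ?_
    change ⁅x + x', T ⁅y, U z⁆⁆ = ⁅x, T ⁅y, U z⁆⁆ + ⁅x', T ⁅y, U z⁆⁆
    rw [add_lie]
  rw [h, map_add]
  ring

omit [Module.Finite ℝ L] in
private theorem Equi_add_right (T U : L →ₗ[ℝ] L) (x y y' : L) :
    TH2 T U x (y + y') = TH2 T U x y + TH2 T U x y' := by
  unfold TH2
  have h : (LieAlgebra.ad ℝ L x : L →ₗ[ℝ] L) ∘ₗ T ∘ₗ (LieAlgebra.ad ℝ L (y + y') : L →ₗ[ℝ] L) ∘ₗ U =
      (LieAlgebra.ad ℝ L x : L →ₗ[ℝ] L) ∘ₗ T ∘ₗ (LieAlgebra.ad ℝ L y : L →ₗ[ℝ] L) ∘ₗ U +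
      (LieAlgebra.ad ℝ L x : L →ₗ[ℝ] L) ∘ₗ T ∘ₗ (LieAlgebra.ad ℝ L y' : L →ₗ[ℝ] L) ∘ₗ U := by
    refine LinearMap.ext fun z => ?_
    change ⁅x, T ⁅y + y', U z⁆⁆ = ⁅x, T ⁅y, U z⁆⁆ + ⁅x, T ⁅y', U z⁆⁆
    rw [add_lie, map_add, lie_add]
  rw [h, map_add]
  ring

omit [Module.Finite ℝ L] in
private theorem Equi_smul_left (T U : L →ₗ[ℝ] L) (r : ℝ) (x y : L) :
    TH2 T U (r • x) y = r * TH2 T U x y := by
  unfold TH2
  have h : (LieAlgebra.ad ℝ L (r • x) : L →ₗ[ℝ] L) ∘ₗ T ∘ₗ (LieAlgebra.ad ℝ L y : L →ₗ[ℝ] L) ∘ₗ U =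
      r • ((LieAlgebra.ad ℝ L x : L →ₗ[ℝ] L) ∘ₗ T ∘ₗ (LieAlgebra.ad ℝ L y : L →ₗ[ℝ] L) ∘ₗ U) := by
    refine LinearMap.ext fun z => ?_
    change ⁅r • x, T ⁅y, U z⁆⁆ = r • ⁅x, T ⁅y, U z⁆⁆
    rw [smul_lie]
  rw [h, map_smul, smul_eq_mul]
  ring

omit [Module.Finite ℝ L] in
private theorem Equi_smul_right (T U : L →ₗ[ℝ] L) (r : ℝ) (x y : L) :
    TH2 T U x (r • y) = r * TH2 T U x y := by
  unfold TH2
  have h : (LieAlgebra.ad ℝ L x : L →ₗ[ℝ] L) ∘ₗ T ∘ₗ (LieAlgebra.ad ℝ L (r • y) : L →ₗ[ℝ] L) ∘ₗ U =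
      r • ((LieAlgebra.ad ℝ L x : L →ₗ[ℝ] L) ∘ₗ T ∘ₗ (LieAlgebra.ad ℝ L y : L →ₗ[ℝ] L) ∘ₗ U) := by
    refine LinearMap.ext fun z => ?_
    change ⁅x, T ⁅r • y, U z⁆⁆ = r • ⁅x, T ⁅y, U z⁆⁆
    rw [smul_lie, map_smul, lie_smul]
  rw [h, map_smul, smul_eq_mul]
  ring

/-- the symmetrised form of `TH2` on `p`, with the Killing form -/
private noncomputable def Equi_bil (T U P : L →ₗ[ℝ] L) : L →ₗ[ℝ] L →ₗ[ℝ] ℝ :=
  LinearMap.mk₂ ℝ (fun x y => Qf L (P x) (P y) - 1 / 2 * (TH2 T U (P x) (P y) + TH2 T U (P y) (P x)))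
    (fun x x' y => by
      simp only [map_add, LinearMap.add_apply, Equi_add_left, Equi_add_right]
      ring)
    (fun r x y => by
      simp only [map_smul, LinearMap.smul_apply, Equi_smul_left, Equi_smul_right, smul_eq_mul]
      ring)
    (fun x y y' => by
      simp only [map_add, Equi_add_left, Equi_add_right]
      ring)
    (fun r x y => by
      simp only [map_smul, Equi_smul_left, Equi_smul_right, smul_eq_mul]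
      ring)

omit [Module.Finite ℝ L] in
private theorem Equi_bil_apply (T U P : L →ₗ[ℝ] L) (x y : L) : Equi_bil T U P x y =
    Qf L (P x) (P y) - 1 / 2 * (TH2 T U (P x) (P y) + TH2 T U (P y) (P x)) := rfl

/-- Invariance under automorphisms which commute with the two operators. -/
private theorem Equi_conj (σ : L ≃ₗ⁅ℝ⁆ L) {T U : L →ₗ[ℝ] L} (hT : ∀ x, T (σ x) = σ (T x))
    (hU : ∀ x, U (σ x) = σ (U x)) (x y : L) : TH2 T U (σ x) (σ y) = TH2 T U x y := by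
  unfold TH2
  have h1 : (LieAlgebra.ad ℝ L (σ x) : L →ₗ[ℝ] L) ∘ₗ T ∘ₗ (LieAlgebra.ad ℝ L (σ y) : L →ₗ[ℝ] L) ∘ₗ U =
      (σ.toLinearEquiv : L →ₗ[ℝ] L) ∘ₗ (((LieAlgebra.ad ℝ L x : L →ₗ[ℝ] L) ∘ₗ T ∘ₗ
        (LieAlgebra.ad ℝ L y : L →ₗ[ℝ] L) ∘ₗ U) ∘ₗ (σ.symm.toLinearEquiv : L →ₗ[ℝ] L)) := by
    refine LinearMap.ext fun z => ?_
    change ⁅σ x, T ⁅σ y, U z⁆⁆ = σ ⁅x, T ⁅y, U (σ.symm z)⁆⁆
    rw [LieEquiv.map_lie, ← hT, LieEquiv.map_lie, ← hU, LieEquiv.apply_symm_apply]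
  rw [h1, LinearMap.trace_comp_comm']
  congr 2
  refine LinearMap.ext fun z => ?_
  change ⁅x, T ⁅y, U (σ.symm (σ z))⁆⁆ = ⁅x, T ⁅y, U z⁆⁆
  rw [LieEquiv.symm_apply_apply]

/-- There are no mixed terms. -/
private theorem Equi_mixed (h : Spl R A x1 x2 z S T Pp c J0 g1 g2) {V U : L →ₗ[ℝ] L}
    (hV : ∀ x, V (Pp x) = Pp (V x)) (hU : ∀ x, U (Pp x) = Pp (U x)) (x : L) :
    TH2 V U x x = TH2 V U (x - Pp x) (x - Pp x) + TH2 V U (Pp x) (Pp x) := by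
  obtain ⟨σ, hσ⟩ := h.refl
  have hV' : ∀ x, V (σ x) = σ (V x) := by
    intro x
    rw [hσ, hσ, map_sub, map_smul, hV]
  have hU' : ∀ x, U (σ x) = σ (U x) := by
    intro x
    rw [hσ, hσ, map_sub, map_smul, hU]
  have hk : σ (x - Pp x) = x - Pp x := by
    rw [hσ, map_sub, h.P2]
    simp
  have hp : σ (Pp x) = (-1 : ℝ) • Pp x := by
    rw [hσ, h.P2]
    module
  have e1 := Equi_conj σ hV' hU' (x - Pp x) (Pp x)
  have e2 := Equi_conj σ hV' hU' (Pp x) (x - Pp x)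
  rw [hk, hp, Equi_smul_right] at e1
  rw [hk, hp, Equi_smul_left] at e2
  have e3 : TH2 V U x x = TH2 V U ((x - Pp x) + Pp x) ((x - Pp x) + Pp x) := by
    rw [sub_add_cancel]
  rw [e3, Equi_add_left, Equi_add_right, Equi_add_right]
  linarith

theorem Rp.trace_adj (R : Rp L I m) {F G : L →ₗ[ℝ] L} (h : ∀ x y, Qf L (F x) y = Qf L x (G y)) :
    LinearMap.trace ℝ L F = LinearMap.trace ℝ L G := by
  rw [R.trace, R.trace]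
  refine Finset.sum_congr rfl fun a _ => Finset.sum_congr rfl fun b _ => ?_
  have hn : R.n ≠ 0 := R.n0.ne'
  apply mul_left_cancel₀ hn
  rw [← R.he, ← R.he, Qf_symm, h]

theorem Spl.exists_D (h : Spl R A x1 x2 z S T Pp c J0 g1 g2) : ∃ D : L →ₗ[ℝ] L, QSym D ∧
    (∀ x, D (Pp x) = D x) ∧ (∀ x, Pp (D x) = D x) ∧
    ∀ x, TH2 T S x x = Qf L x x - Qf L (D x) x := by
  obtain ⟨D, hD, hD2⟩ := R.exists_op (Equi_bil T S Pp) (fun x y => by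
    rw [Equi_bil_apply, Equi_bil_apply, Qf_symm]
    ring)
  refine ⟨D, hD, ?_, ?_, ?_⟩
  · intro x
    apply R.ext_Qf
    intro w
    rw [hD2, hD2, Equi_bil_apply, Equi_bil_apply, h.P2]
  · intro x
    apply R.ext_Qf
    intro w
    rw [h.sP, hD2, hD2, Equi_bil_apply, Equi_bil_apply, h.P2]
  · intro x
    rw [hD2, Equi_bil_apply]
    have hTP : ∀ x, T (Pp x) = Pp (T x) := fun x => by rw [h.TP, h.PT]
    have hSP : ∀ x, S (Pp x) = Pp (S x) := fun x => by rw [h.SP, h.PS]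
    rw [Equi_mixed h hTP hSP x]
    have hk : Pp (x - Pp x) = 0 := by rw [map_sub, h.P2, sub_self]
    have e1 : TH2 T S (x - Pp x) (x - Pp x) = Qf L (x - Pp x) (x - Pp x) := by
      rw [Qf_apply, killingForm_apply_apply]
      unfold TH2
      congr 2
      refine LinearMap.ext fun w => ?_
      change ⁅x - Pp x, T ⁅x - Pp x, S w⁆⁆ = ⁅x - Pp x, ⁅x - Pp x, w⁆⁆
      rw [(h.equi hk _).1, h.TS]
    rw [e1]
    have e2 : Qf L (x - Pp x) (x - Pp x) = Qf L x x - Qf L (Pp x) (Pp x) := by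
      simp only [map_sub, LinearMap.sub_apply]
      have e3 : Qf L x (Pp x) = Qf L (Pp x) (Pp x) := by rw [h.sP, h.P2]
      rw [Qf_symm (Pp x) x, e3]
      ring
    rw [e2]
    ring

theorem Spl.zcond (h : Spl R A x1 x2 z S T Pp c J0 g1 g2) {β : L →ₗ[ℝ] L} (hβ : QSym β)
    (hc : ∀ x, β (Pp x) = Pp (β x)) (x : L) :
    TH2 T β x x - TH2 (T ∘ₗ β ∘ₗ T) S x x =
      TH2 T β (Pp x) (Pp x) - TH2 (T ∘ₗ β ∘ₗ T) S (Pp x) (Pp x) := by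
  have hTP : ∀ x, T (Pp x) = Pp (T x) := fun x => by rw [h.TP, h.PT]
  have hSP : ∀ x, S (Pp x) = Pp (S x) := fun x => by rw [h.SP, h.PS]
  have hTT : ∀ x, (T ∘ₗ β ∘ₗ T) (Pp x) = Pp ((T ∘ₗ β ∘ₗ T) x) := by
    intro x
    change T (β (T (Pp x))) = Pp (T (β (T x)))
    rw [hTP, hc, hTP]
  rw [Equi_mixed h hTP hc x, Equi_mixed h hTT hSP x]
  have hk : Pp (x - Pp x) = 0 := by rw [map_sub, h.P2, sub_self]
  have e1 : TH2 T β (x - Pp x) (x - Pp x) = TH2 (T ∘ₗ β ∘ₗ T) S (x - Pp x) (x - Pp x) := by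
    generalize x - Pp x = k at hk
    unfold TH2
    congr 1
    have e2 : (LieAlgebra.ad ℝ L k : L →ₗ[ℝ] L) ∘ₗ T ∘ₗ (LieAlgebra.ad ℝ L k : L →ₗ[ℝ] L) ∘ₗ β =
        (LieAlgebra.ad ℝ L k : L →ₗ[ℝ] L) ∘ₗ ((LieAlgebra.ad ℝ L k : L →ₗ[ℝ] L) ∘ₗ T ∘ₗ β) := by
      refine LinearMap.ext fun w => ?_
      change ⁅k, T ⁅k, β w⁆⁆ = ⁅k, ⁅k, T (β w)⁆⁆
      rw [(h.equi hk _).1]
    have e3 : (LieAlgebra.ad ℝ L k : L →ₗ[ℝ] L) ∘ₗ (T ∘ₗ β ∘ₗ T) ∘ₗ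
        (LieAlgebra.ad ℝ L k : L →ₗ[ℝ] L) ∘ₗ S =
        ((LieAlgebra.ad ℝ L k : L →ₗ[ℝ] L) ∘ₗ T ∘ₗ β) ∘ₗ (LieAlgebra.ad ℝ L k : L →ₗ[ℝ] L) := by
      refine LinearMap.ext fun w => ?_
      change ⁅k, T (β (T ⁅k, S w⁆))⁆ = ⁅k, T (β ⁅k, w⁆)⁆
      rw [(h.equi hk _).1, h.TS]
    rw [e2, e3, LinearMap.trace_comp_comm']
  rw [e1]
  ring

/-- The form on the centre. -/
theorem Spl.SSc (h : Spl R A x1 x2 z S T Pp c J0 g1 g2) (y : L) (hy : Qf L y c = 0) (r : ℝ) :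
    TH2 S S (y + r • c) (y + r • c) = TH2 S S y y + r ^ 2 * Qf L c c := by
  have hcS : ∀ w, ⁅c, S w⁆ = ⁅c, w⁆ := by
    intro w
    rw [(h.pc_lie (S w)).1, h.PS, ← (h.pc_lie w).1]
  have hSc : ∀ w, S ⁅c, w⁆ = ⁅c, w⁆ := by
    intro w
    rw [← (h.pc_lie w).2, h.SP]
  have e1 : TH2 S S c c = Qf L c c := by
    rw [Qf_apply, killingForm_apply_apply]
    unfold TH2
    congr 2
    refine LinearMap.ext fun w => ?_
    change ⁅c, S ⁅c, S w⁆⁆ = ⁅c, ⁅c, w⁆⁆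
    rw [hcS, hcS]
  have e2 : TH2 S S y c = 0 := by
    rw [← hy, Qf_apply, killingForm_apply_apply]
    unfold TH2
    congr 2
    refine LinearMap.ext fun w => ?_
    change ⁅y, S ⁅c, S w⁆⁆ = ⁅y, ⁅c, w⁆⁆
    rw [hcS, hSc]
  have e3 : TH2 S S c y = 0 := by
    rw [← hy, Qf_symm, Qf_apply, killingForm_apply_apply]
    unfold TH2
    congr 1
    have e4 : (LieAlgebra.ad ℝ L c : L →ₗ[ℝ] L) ∘ₗ S ∘ₗ (LieAlgebra.ad ℝ L y : L →ₗ[ℝ] L) ∘ₗ S =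
        ((LieAlgebra.ad ℝ L c : L →ₗ[ℝ] L) ∘ₗ (LieAlgebra.ad ℝ L y : L →ₗ[ℝ] L)) ∘ₗ S := by
      refine LinearMap.ext fun w => ?_
      change ⁅c, S ⁅y, S w⁆⁆ = ⁅c, ⁅y, S w⁆⁆
      rw [hcS]
    rw [e4, LinearMap.trace_comp_comm']
    congr 1
    refine LinearMap.ext fun w => ?_
    change S ⁅c, ⁅y, w⁆⁆ = ⁅c, ⁅y, w⁆⁆
    rw [hSc]
  rw [Equi_add_left, Equi_add_right, Equi_add_right, Equi_smul_right, Equi_smul_left, Equi_smul_left,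
    Equi_smul_right, e1, e2, e3]
  ring

/-- There are no mixed terms. -/
theorem Spl.SSp (h : Spl R A x1 x2 z S T Pp c J0 g1 g2) (y : L) :
    TH2 S S y y = TH2 S S (y - Pp y) (y - Pp y) + TH2 S S (Pp y) (Pp y) := by
  have hSP : ∀ x, S (Pp x) = Pp (S x) := fun x => by rw [h.SP, h.PS]
  exact Equi_mixed h hSP hSP y

end

end Pool.Agent.EinV
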