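import Pool.Agent.EinV.EtaV

/-!
# The Casimir operator of a family of elements

`et_fam`, `et_nor`: as `et_V` (`EtaV.lean`), for a family `b` with `∑ i, |ph (b i) v|² ≤ δ |v|²` and `∑ i, Qf (b i) y ^ 2 ≤ Qf y y` instead of an orthonormal family in `h`.
`fam_small`: expand `b i = ∑ j, Qf (b i) (f j) • f j` in an orthonormal basis `f` of `h` (`exists_frame`); the matrix `M i j = Qf (b i) (f j)` has norm `≤ 1`
(`∑ i, (∑ j, M i j w j)² = ∑ i, Qf (b i) (∑ j, w j • f j) ^ 2 ≤ ∑ j, w j ^ 2`), so `∑ i, |∑ j, M i j • ph (f j) v|² ≤ ∑ j, |ph (f j) v|²`, coordinate by coordinate.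
-/

namespace Pool.Agent.EinV

open Matrix Pool.Agent.EStab Pool.Agent.EinS Pool.Agent.SmIso Pool.Agent.EinU Pool.Agent.EinG

section Cas

variable {L : Type} [LieRing L] [LieAlgebra ℝ L] {I : Type} [Fintype I] [DecidableEq I] {m : ℕ}

private theorem EtF_sk (R : Rp L I m) (x : L) (a b : I) : R.ph x b a = -R.ph x a b := by
  have h1 := congrFun (congrFun (R.skew x) a) b
  rwa [Matrix.transpose_apply, Matrix.neg_apply] at h1

omit [DecidableEq I] in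
private theorem EtF_sq (X : Matrix I I ℝ) : mn X ^ 2 = ∑ a, ∑ b, X a b ^ 2 :=
  Real.sq_sqrt (Finset.sum_nonneg fun _ _ => Finset.sum_nonneg fun _ _ => sq_nonneg _)

private theorem EtF_one {J0 : Matrix I I ℝ} (h : J0ᵀ * J0 = 1) : J0 * J0ᵀ = 1 :=
  mul_eq_one_comm.1 h

private theorem EtF_g {R : Rp L I m} {A : Finset I} {x1 x2 z c0 : ℝ} {S T Pp : L →ₗ[ℝ] L} {c : L}
    {J0 : Matrix I I ℝ} {g1 g2 : ℝ} (h : Spl R A x1 x2 z S T Pp c J0 g1 g2)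
    (hb : Bnd I m A x1 x2 z c0) (hJ : J0ᵀ * J0 = 1) :
    |g1| ≤ 2 * ((m : ℝ) + 1) * c0 / Fintype.card I ∧ |g2| ≤ 2 * ((m : ℝ) + 1) * c0 / Fintype.card I := by
  have hm : (0 : ℝ) ≤ m := Nat.cast_nonneg m
  obtain ⟨hn1, -, hM0, -⟩ := R.n_bd hb.M1
  have hc1 := hb.c1
  have hQ : Qf L c c ≤ 1 := by
    rcases h.cc with h1 | h1
    · exact h1.le
    · rw [h1]
      have : Qf L (0 : L) (0 : L) = 0 := by
        rw [R.qf]
        simp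
      rw [this]
      exact zero_le_one
  have hrow : ∀ a, ∑ b, J0 a b ^ 2 = 1 := by
    intro a
    have h1 := congrFun (congrFun (EtF_one hJ) a) a
    rw [Matrix.mul_apply, Matrix.one_apply_eq] at h1
    rw [← h1]
    refine Finset.sum_congr rfl fun b _ => ?_
    rw [Matrix.transpose_apply]
    ring
  have hmn : mn (R.ph c) ^ 2 = (A.card : ℝ) * g1 ^ 2 + (Aᶜ.card : ℝ) * g2 ^ 2 := by
    rw [EtF_sq, ← Finset.sum_add_sum_compl A]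
    congr 1
    · rw [← nsmul_eq_mul, ← Finset.sum_const]
      refine Finset.sum_congr rfl fun a ha => ?_
      calc ∑ b, R.ph c a b ^ 2 = ∑ b, g1 ^ 2 * J0 a b ^ 2 :=
            Finset.sum_congr rfl fun b _ => by rw [h.pc, if_pos ha, mul_pow]
        _ = g1 ^ 2 := by rw [← Finset.mul_sum, hrow, mul_one]
    · rw [← nsmul_eq_mul, ← Finset.sum_const]
      refine Finset.sum_congr rfl fun a ha => ?_
      calc ∑ b, R.ph c a b ^ 2 = ∑ b, g2 ^ 2 * J0 a b ^ 2 :=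
            Finset.sum_congr rfl fun b _ => by rw [h.pc, if_neg (Finset.mem_compl.1 ha), mul_pow]
        _ = g2 ^ 2 := by rw [← Finset.mul_sum, hrow, mul_one]
  rw [R.Qf_mn, hmn] at hQ
  obtain ⟨M, hMd⟩ : ∃ M : ℝ, M = (Fintype.card I : ℝ) := ⟨_, rfl⟩
  have hAl := hb.Al
  have hBl := hb.Bl
  rw [← hMd] at hn1 hM0 hAl hBl ⊢
  have hn := R.n0
  have key : ∀ k g : ℝ, M ≤ c0 * k → R.n * (k * g ^ 2) ≤ 1 → |g| ≤ 2 * ((m : ℝ) + 1) * c0 / M := by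
    intro k g hk hg
    have hc00 : 0 < c0 := by linarith
    have hk0 : 0 < k := by
      by_contra hk0
      have : c0 * k ≤ 0 := mul_nonpos_of_nonneg_of_nonpos hc00.le (not_lt.1 hk0)
      linarith
    have e1 : M ^ 2 * g ^ 2 ≤ 2 * ((m : ℝ) + 1) * c0 := by
      have e2 : M ≤ 2 * ((m : ℝ) + 1) * R.n := by
        rw [div_le_iff₀ (by positivity)] at hn1
        linarith
      calc M ^ 2 * g ^ 2 = M * M * g ^ 2 := by ring
        _ ≤ (2 * ((m : ℝ) + 1) * R.n) * (c0 * k) * g ^ 2 := by gcongr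
        _ = 2 * ((m : ℝ) + 1) * c0 * (R.n * (k * g ^ 2)) := by ring
        _ ≤ 2 * ((m : ℝ) + 1) * c0 * 1 := by gcongr
        _ = _ := by ring
    have e3 : 1 ≤ 2 * ((m : ℝ) + 1) * c0 := by nlinarith
    rw [le_div_iff₀ hM0]
    have e4 : (|g| * M) ^ 2 ≤ (2 * ((m : ℝ) + 1) * c0) ^ 2 := by
      rw [mul_pow, sq_abs]
      calc g ^ 2 * M ^ 2 = M ^ 2 * g ^ 2 := by ring
        _ ≤ 2 * ((m : ℝ) + 1) * c0 := e1
        _ ≤ (2 * ((m : ℝ) + 1) * c0) ^ 2 := by nlinarith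
    exact (pow_le_pow_iff_left₀ (by positivity) (by positivity) two_ne_zero).1 e4
  refine ⟨key A.card g1 hAl ?_, key Aᶜ.card g2 hBl ?_⟩
  · refine le_trans ?_ hQ
    apply mul_le_mul_of_nonneg_left _ hn.le
    have : 0 ≤ (Aᶜ.card : ℝ) * g2 ^ 2 := by positivity
    linarith
  · refine le_trans ?_ hQ
    apply mul_le_mul_of_nonneg_left _ hn.le
    have : 0 ≤ (A.card : ℝ) * g1 ^ 2 := by positivity
    linarith

private theorem EtF_diff {c0 p r : ℝ} (hp : 0 < p) (hr : 0 < r) (hp' : p ≤ c0) (hr' : r ≤ c0) :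
    |p - r| ≤ c0 := by
  rw [abs_le]
  constructor <;> linarith

private theorem EtF_br (R : Rp L I m) (u x : L) :
    Qf L ⁅u, x⁆ ⁅u, x⁆ ≤ 4 * (R.n * mn (R.ph u * R.ph x) ^ 2) := by
  rw [R.Qf_mn, R.lie, EtF_sq, EtF_sq]
  have hsw : ∀ p q, (R.ph x * R.ph u) p q = (R.ph u * R.ph x) q p := by
    intro p q
    rw [Matrix.mul_apply, Matrix.mul_apply]
    refine Finset.sum_congr rfl fun r _ => ?_
    rw [EtF_sk R x r p, EtF_sk R u q r]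
    ring
  have h1 : ∑ p, ∑ q, (R.ph u * R.ph x - R.ph x * R.ph u) p q ^ 2 ≤
      4 * ∑ p, ∑ q, (R.ph u * R.ph x) p q ^ 2 := by
    have h3 : ∀ p q, (R.ph u * R.ph x - R.ph x * R.ph u) p q ^ 2 ≤
        2 * ((R.ph u * R.ph x) p q) ^ 2 + 2 * ((R.ph u * R.ph x) q p) ^ 2 := by
      intro p q
      rw [Matrix.sub_apply, hsw]
      nlinarith [sq_nonneg ((R.ph u * R.ph x) p q + (R.ph u * R.ph x) q p)]
    calc ∑ p, ∑ q, (R.ph u * R.ph x - R.ph x * R.ph u) p q ^ 2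
        ≤ ∑ p, ∑ q, (2 * ((R.ph u * R.ph x) p q) ^ 2 + 2 * ((R.ph u * R.ph x) q p) ^ 2) :=
          Finset.sum_le_sum fun p _ => Finset.sum_le_sum fun q _ => h3 p q
      _ = 2 * (∑ p, ∑ q, ((R.ph u * R.ph x) p q) ^ 2) +
          2 * ∑ p, ∑ q, ((R.ph u * R.ph x) q p) ^ 2 := by
          simp only [Finset.sum_add_distrib, Finset.mul_sum]
      _ = 4 * ∑ p, ∑ q, ((R.ph u * R.ph x) p q) ^ 2 := by
          rw [Finset.sum_comm (f := fun p q => ((R.ph u * R.ph x) q p) ^ 2)]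
          ring
  calc R.n * ∑ p, ∑ q, (R.ph u * R.ph x - R.ph x * R.ph u) p q ^ 2
      ≤ R.n * (4 * ∑ p, ∑ q, (R.ph u * R.ph x) p q ^ 2) :=
        mul_le_mul_of_nonneg_left h1 R.n0.le
    _ = _ := by ring

private theorem EtF_cas (R : Rp L I m) {δ : ℝ} {n : ℕ} {a : Fin n → L}
    (hs : ∀ v : I → ℝ, ∑ i, (R.ph (a i) *ᵥ v) ⬝ᵥ (R.ph (a i) *ᵥ v) ≤ δ * (v ⬝ᵥ v)) (x : L) :
    ∑ i, mn (R.ph (a i) * R.ph x) ^ 2 ≤ δ * mn (R.ph x) ^ 2 := by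
  have hcol : ∀ q : I, ∑ i, ∑ p, ((R.ph (a i) * R.ph x) p q) ^ 2 ≤ δ * ∑ p, R.ph x p q ^ 2 := by
    intro q
    have h1 := hs (fun p => R.ph x p q)
    have h2 : ∀ i, (R.ph (a i) *ᵥ fun p => R.ph x p q) ⬝ᵥ (R.ph (a i) *ᵥ fun p => R.ph x p q) =
        ∑ p, ((R.ph (a i) * R.ph x) p q) ^ 2 := by
      intro i
      rw [dotProduct]
      refine Finset.sum_congr rfl fun p _ => ?_
      have h3 : (R.ph (a i) *ᵥ fun p => R.ph x p q) p = (R.ph (a i) * R.ph x) p q := by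
        rw [Matrix.mulVec, dotProduct, Matrix.mul_apply]
      rw [h3]
      ring
    have h4 : (fun p => R.ph x p q) ⬝ᵥ (fun p => R.ph x p q) = ∑ p, R.ph x p q ^ 2 := by
      rw [dotProduct]
      exact Finset.sum_congr rfl fun p _ => by ring
    rw [h4] at h1
    simpa only [h2] using h1
  calc ∑ i, mn (R.ph (a i) * R.ph x) ^ 2 = ∑ i, ∑ q, ∑ p, ((R.ph (a i) * R.ph x) p q) ^ 2 :=
        Finset.sum_congr rfl fun i _ => by rw [EtF_sq, Finset.sum_comm]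
    _ = ∑ q, ∑ i, ∑ p, ((R.ph (a i) * R.ph x) p q) ^ 2 := Finset.sum_comm
    _ ≤ ∑ q, δ * ∑ p, R.ph x p q ^ 2 := Finset.sum_le_sum fun q _ => hcol q
    _ = δ * ∑ q, ∑ p, R.ph x p q ^ 2 := by rw [Finset.mul_sum]
    _ = δ * mn (R.ph x) ^ 2 := by rw [EtF_sq, Finset.sum_comm]

private theorem EtF_J {J0 : Matrix I I ℝ} (h : J0ᵀ * J0 = 1) (Z : Matrix I I ℝ) :
    mn (J0 * Z) ^ 2 = mn Z ^ 2 := by
  have key : ∀ X : Matrix I I ℝ, mn X ^ 2 = Matrix.trace (Xᵀ * X) := by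
    intro X
    rw [EtF_sq, Finset.sum_comm]
    unfold Matrix.trace
    refine Finset.sum_congr rfl fun a _ => ?_
    rw [Matrix.diag_apply, Matrix.mul_apply]
    refine Finset.sum_congr rfl fun b _ => ?_
    rw [Matrix.transpose_apply]
    ring
  rw [key, key, Matrix.transpose_mul]
  congr 1
  calc Zᵀ * J0ᵀ * (J0 * Z) = Zᵀ * (J0ᵀ * J0) * Z := by noncomm_ring
    _ = Zᵀ * Z := by rw [h, Matrix.mul_one]

private theorem EtF_mat {A : Finset I} {X Y J0 Z : Matrix I I ℝ} {r1 r2 k1 k2 q c0 κ : ℝ}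
    (hX : ∀ a b, X a b = (if a ∈ A then r1 else r2) * Y a b +
      q * ((if a ∈ A then k1 else k2) * J0 a b)) (h1 : |r1| ≤ c0) (h2 : |r2| ≤ c0)
    (hJ : J0 = 0 ∨ (J0ᵀ * J0 = 1 ∧ |k1| ≤ κ ∧ |k2| ≤ κ)) :
    mn (X * Z) ^ 2 ≤ 2 * c0 ^ 2 * mn (Y * Z) ^ 2 + 2 * q ^ 2 * κ ^ 2 * mn Z ^ 2 := by
  have hent : ∀ p s, (X * Z) p s = (if p ∈ A then r1 else r2) * (Y * Z) p s +
      q * ((if p ∈ A then k1 else k2) * (J0 * Z) p s) := by
    intro p s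
    rw [Matrix.mul_apply, Matrix.mul_apply, Matrix.mul_apply, Finset.mul_sum, Finset.mul_sum,
      Finset.mul_sum, ← Finset.sum_add_distrib]
    refine Finset.sum_congr rfl fun t _ => ?_
    rw [hX]
    ring
  have hr : ∀ p, (if p ∈ A then r1 else r2) ^ 2 ≤ c0 ^ 2 := by
    intro p
    rw [← sq_abs]
    apply pow_le_pow_left₀ (abs_nonneg _)
    split_ifs
    · exact h1
    · exact h2
  have hk : ∑ p, ∑ s, ((if p ∈ A then k1 else k2) * (J0 * Z) p s) ^ 2 ≤ κ ^ 2 * mn Z ^ 2 := by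
    rcases hJ with hJ | ⟨hJ, e1, e2⟩
    · rw [hJ]
      have : ∑ p, ∑ s, ((if p ∈ A then k1 else k2) * ((0 : Matrix I I ℝ) * Z) p s) ^ 2 = 0 := by
        simp
      rw [this]
      positivity
    · rw [← EtF_J hJ, EtF_sq, Finset.mul_sum]
      refine Finset.sum_le_sum fun p _ => ?_
      rw [Finset.mul_sum]
      refine Finset.sum_le_sum fun s _ => ?_
      rw [mul_pow]
      apply mul_le_mul_of_nonneg_right _ (sq_nonneg _)
      rw [← sq_abs]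
      apply pow_le_pow_left₀ (abs_nonneg _)
      split_ifs
      · exact e1
      · exact e2
  have hpt : ∀ p s, (X * Z) p s ^ 2 ≤ 2 * c0 ^ 2 * (Y * Z) p s ^ 2 +
      2 * q ^ 2 * ((if p ∈ A then k1 else k2) * (J0 * Z) p s) ^ 2 := by
    intro p s
    rw [hent]
    have e1 : ((if p ∈ A then r1 else r2) * (Y * Z) p s) ^ 2 ≤ c0 ^ 2 * (Y * Z) p s ^ 2 := by
      rw [mul_pow]
      exact mul_le_mul_of_nonneg_right (hr p) (sq_nonneg _)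
    obtain ⟨u, hu⟩ : ∃ u, u = (if p ∈ A then r1 else r2) * (Y * Z) p s := ⟨_, rfl⟩
    obtain ⟨w, hw⟩ : ∃ w, w = (if p ∈ A then k1 else k2) * (J0 * Z) p s := ⟨_, rfl⟩
    rw [← hu] at e1
    rw [← hu, ← hw]
    nlinarith [sq_nonneg (u - q * w)]
  rw [EtF_sq]
  calc ∑ p, ∑ s, (X * Z) p s ^ 2 ≤ ∑ p, ∑ s, (2 * c0 ^ 2 * (Y * Z) p s ^ 2 +
        2 * q ^ 2 * ((if p ∈ A then k1 else k2) * (J0 * Z) p s) ^ 2) :=
        Finset.sum_le_sum fun p _ => Finset.sum_le_sum fun s _ => hpt p s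
    _ = 2 * c0 ^ 2 * mn (Y * Z) ^ 2 +
        2 * q ^ 2 * ∑ p, ∑ s, ((if p ∈ A then k1 else k2) * (J0 * Z) p s) ^ 2 := by
        rw [EtF_sq]
        simp only [Finset.sum_add_distrib, Finset.mul_sum]
    _ ≤ 2 * c0 ^ 2 * mn (Y * Z) ^ 2 + 2 * q ^ 2 * (κ ^ 2 * mn Z ^ 2) := by
        have := mul_le_mul_of_nonneg_left hk (show 0 ≤ 2 * q ^ 2 by positivity)
        linarith
    _ = _ := by ring

/-- The common estimate for `S` and `T`. -/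
private theorem EtF_op (R : Rp L I m) {A : Finset I} {x1 x2 z : ℝ} {S T Pp : L →ₗ[ℝ] L} {c : L}
    {J0 : Matrix I I ℝ} {g1 g2 : ℝ} (h : Spl R A x1 x2 z S T Pp c J0 g1 g2) {c0 : ℝ}
    (hb : Bnd I m A x1 x2 z c0) {U : L →ₗ[ℝ] L} {r1 r2 r : ℝ}
    (hU : ∀ x a b, R.ph (U x) a b = wt A r1 r2 1 a b * R.ph x a b +
      Qf L x c * ((r - wt A r1 r2 1 a b) * R.ph c a b))
    (h1 : |r1| ≤ c0) (h2 : |r2| ≤ c0) (h3 : |r - r1| ≤ c0) (h4 : |r - r2| ≤ c0)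
    {δ : ℝ} {n : ℕ} {a : Fin n → L} (ha : ∀ i, Pp (a i) = 0)
    (hs : ∀ v : I → ℝ, ∑ i, (R.ph (a i) *ᵥ v) ⬝ᵥ (R.ph (a i) *ᵥ v) ≤ δ * (v ⬝ᵥ v))
    (hq : ∀ y, ∑ i, Qf L (a i) y ^ 2 ≤ Qf L y y) (x : L) :
    ∑ i, Qf L ⁅U (a i), x⁆ ⁅U (a i), x⁆ ≤
      (8 * c0 ^ 2 * δ + 8 * (2 * ((m : ℝ) + 1) * c0 ^ 2) ^ 2 / Fintype.card I) * Qf L x x := by
  have hm : (0 : ℝ) ≤ m := Nat.cast_nonneg m
  obtain ⟨-, -, hM0, -⟩ := R.n_bd hb.M1
  have hc1 := hb.c1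
  have hM1 : (1 : ℝ) ≤ Fintype.card I := by
    have := hb.M1
    nlinarith
  have hn := R.n0
  obtain ⟨κ, hκ⟩ : ∃ κ : ℝ, κ = c0 * (2 * ((m : ℝ) + 1) * c0 / Fintype.card I) := ⟨_, rfl⟩
  have hJ : J0 = 0 ∨ (J0ᵀ * J0 = 1 ∧ |(r - r1) * g1| ≤ κ ∧ |(r - r2) * g2| ≤ κ) := by
    rcases h.J0J with hJ | hJ
    · exact Or.inl hJ
    · obtain ⟨e1, e2⟩ := EtF_g h hb hJ
      refine Or.inr ⟨hJ, ?_, ?_⟩
      · rw [hκ, abs_mul]
        exact mul_le_mul h3 e1 (abs_nonneg _) (by linarith)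
      · rw [hκ, abs_mul]
        exact mul_le_mul h4 e2 (abs_nonneg _) (by linarith)
  have hQ : Qf L c c ≤ 1 := by
    rcases h.cc with h1 | h1
    · exact h1.le
    · rw [h1, map_zero]
      exact zero_le_one
  have hent : ∀ i p q, R.ph (U (a i)) p q = (if p ∈ A then r1 else r2) * R.ph (a i) p q +
      Qf L c (a i) * ((if p ∈ A then (r - r1) * g1 else (r - r2) * g2) * J0 p q) := by
    intro i p q
    have hp : R.ph (Pp (a i)) p q = 0 := by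
      rw [ha i, map_zero]
      rfl
    rw [h.pp] at hp
    rw [hU, h.pc, Qf_symm c (a i)]
    unfold wt
    by_cases h5 : p ∈ A <;> by_cases h6 : q ∈ A
    · simp only [h5, h6, if_true]
      ring
    · have h7 := h.J0A p q (by simp [h5, h6])
      simp only [h5, h6, iff_false, not_true_eq_false, if_false] at hp
      rw [h7, hp]
      ring
    · have h7 := h.J0A p q (by simp [h5, h6])
      simp only [h5, h6, iff_true, if_false] at hp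
      rw [h7, hp]
      ring
    · simp only [h5, h6, if_false]
      ring
  have hone : ∀ i, Qf L ⁅U (a i), x⁆ ⁅U (a i), x⁆ ≤ 4 * R.n *
      (2 * c0 ^ 2 * mn (R.ph (a i) * R.ph x) ^ 2 +
        2 * κ ^ 2 * mn (R.ph x) ^ 2 * Qf L c (a i) ^ 2) := by
    intro i
    refine (EtF_br R (U (a i)) x).trans ?_
    have := EtF_mat (Z := R.ph x) (hent i) h1 h2 hJ
    calc 4 * (R.n * mn (R.ph (U (a i)) * R.ph x) ^ 2) =
          4 * R.n * mn (R.ph (U (a i)) * R.ph x) ^ 2 := by ring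
      _ ≤ 4 * R.n * (2 * c0 ^ 2 * mn (R.ph (a i) * R.ph x) ^ 2 +
          2 * Qf L c (a i) ^ 2 * κ ^ 2 * mn (R.ph x) ^ 2) :=
          mul_le_mul_of_nonneg_left this (by positivity)
      _ = _ := by ring
  have hcas := EtF_cas R hs x
  have hbes : ∑ i, Qf L c (a i) ^ 2 ≤ 1 := by
    refine le_trans (le_of_eq ?_) ((hq c).trans hQ)
    exact Finset.sum_congr rfl fun i _ => by rw [Qf_symm]
  have hκ2 : κ ^ 2 ≤ (2 * ((m : ℝ) + 1) * c0 ^ 2) ^ 2 / Fintype.card I := by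
    have e1 : κ ^ 2 = (2 * ((m : ℝ) + 1) * c0 ^ 2) ^ 2 / (Fintype.card I : ℝ) ^ 2 := by
      rw [hκ]
      field_simp
    rw [e1]
    apply div_le_div_of_nonneg_left (sq_nonneg _) hM0
    nlinarith
  calc ∑ i, Qf L ⁅U (a i), x⁆ ⁅U (a i), x⁆
      ≤ ∑ i, 4 * R.n * (2 * c0 ^ 2 * mn (R.ph (a i) * R.ph x) ^ 2 +
        2 * κ ^ 2 * mn (R.ph x) ^ 2 * Qf L c (a i) ^ 2) := Finset.sum_le_sum fun i _ => hone i
    _ = 4 * R.n * (2 * c0 ^ 2 * ∑ i, mn (R.ph (a i) * R.ph x) ^ 2 +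
        2 * κ ^ 2 * mn (R.ph x) ^ 2 * ∑ i, Qf L c (a i) ^ 2) := by
        rw [← Finset.mul_sum, Finset.sum_add_distrib, ← Finset.mul_sum, ← Finset.mul_sum]
    _ ≤ 4 * R.n * (2 * c0 ^ 2 * (δ * mn (R.ph x) ^ 2) + 2 * κ ^ 2 * mn (R.ph x) ^ 2 * 1) := by
        gcongr
    _ = (8 * c0 ^ 2 * δ + 8 * κ ^ 2) * (R.n * mn (R.ph x) ^ 2) := by ring
    _ ≤ (8 * c0 ^ 2 * δ + 8 * ((2 * ((m : ℝ) + 1) * c0 ^ 2) ^ 2 / Fintype.card I)) *
        (R.n * mn (R.ph x) ^ 2) := by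
        apply mul_le_mul_of_nonneg_right _ (by positivity)
        linarith
    _ = _ := by
        rw [R.Qf_mn]
        ring

end Cas

theorem fam_small {L : Type} [LieRing L] [LieAlgebra ℝ L] [Module.Finite ℝ L] {I : Type}
    [Fintype I] [DecidableEq I] {m : ℕ} (R : Rp L I m) {h : LieSubalgebra ℝ L} {δ : ℝ}
    (hs : SmallR R h δ) {n : ℕ} {b : Fin n → L} (hb : ∀ i, b i ∈ h)
    (hq : ∀ y, ∑ i, Qf L (b i) y ^ 2 ≤ Qf L y y) (v : I → ℝ) :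
    ∑ i, (R.ph (b i) *ᵥ v) ⬝ᵥ (R.ph (b i) *ᵥ v) ≤ δ * (v ⬝ᵥ v) := by
  obtain ⟨k, f, hf⟩ := exists_frame R.compact h.toSubmodule
  refine le_trans ?_ (hs k f hf.mem hf.orth v)
  have hM : ∀ w : Fin k → ℝ, ∑ i, (∑ j, Qf L (b i) (f j) * w j) ^ 2 ≤ ∑ j, w j ^ 2 := by
    intro w
    have h1 := hq (∑ j, w j • f j)
    have h2 : ∀ i, Qf L (b i) (∑ j, w j • f j) = ∑ j, Qf L (b i) (f j) * w j := by
      intro i
      rw [Qf_sum']
      exact Finset.sum_congr rfl fun j _ => mul_comm _ _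
    have h3 : Qf L (∑ j, w j • f j) (∑ j, w j • f j) = ∑ j, w j ^ 2 := by
      rw [Qf_sum']
      refine Finset.sum_congr rfl fun j _ => ?_
      rw [hf.coord]
      ring
    rw [h3] at h1
    simpa only [h2] using h1
  have hexp : ∀ i p, (R.ph (b i) *ᵥ v) p = ∑ j, Qf L (b i) (f j) * (R.ph (f j) *ᵥ v) p := by
    intro i p
    have h1 : R.ph (b i) = ∑ j, Qf L (b i) (f j) • R.ph (f j) := by
      conv_lhs => rw [hf.exp (b i) (hb i)]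
      rw [map_sum]
      exact Finset.sum_congr rfl fun j _ => by rw [map_smul]
    rw [h1, Matrix.sum_mulVec, Finset.sum_apply]
    refine Finset.sum_congr rfl fun j _ => ?_
    rw [Matrix.smul_mulVec, Pi.smul_apply, smul_eq_mul]
  have hl : ∀ i, (R.ph (b i) *ᵥ v) ⬝ᵥ (R.ph (b i) *ᵥ v) =
      ∑ p, (∑ j, Qf L (b i) (f j) * (R.ph (f j) *ᵥ v) p) ^ 2 := by
    intro i
    rw [dotProduct]
    refine Finset.sum_congr rfl fun p _ => ?_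
    rw [hexp]
    ring
  have hr : ∀ j, (R.ph (f j) *ᵥ v) ⬝ᵥ (R.ph (f j) *ᵥ v) = ∑ p, ((R.ph (f j) *ᵥ v) p) ^ 2 := by
    intro j
    rw [dotProduct]
    exact Finset.sum_congr rfl fun p _ => by ring
  rw [Finset.sum_congr rfl fun i _ => hl i, Finset.sum_congr rfl fun j _ => hr j]
  calc ∑ i, ∑ p, (∑ j, Qf L (b i) (f j) * (R.ph (f j) *ᵥ v) p) ^ 2
      = ∑ p, ∑ i, (∑ j, Qf L (b i) (f j) * (R.ph (f j) *ᵥ v) p) ^ 2 := Finset.sum_comm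
    _ ≤ ∑ p, ∑ j, ((R.ph (f j) *ᵥ v) p) ^ 2 :=
        Finset.sum_le_sum fun p _ => hM fun j => (R.ph (f j) *ᵥ v) p
    _ = _ := Finset.sum_comm

/-- The normal metric. -/
theorem et_nor {L : Type} [LieRing L] [LieAlgebra ℝ L] {I : Type} [Fintype I] [DecidableEq I]
    {m : ℕ} (R : Rp L I m) {δ : ℝ} {n : ℕ} {b : Fin n → L}
    (hs : ∀ v : I → ℝ, ∑ i, (R.ph (b i) *ᵥ v) ⬝ᵥ (R.ph (b i) *ᵥ v) ≤ δ * (v ⬝ᵥ v)) (x : L) :
    ∑ i, Qf L ⁅b i, x⁆ ⁅b i, x⁆ ≤ 4 * δ * Qf L x x := by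
  calc ∑ i, Qf L ⁅b i, x⁆ ⁅b i, x⁆ ≤ ∑ i, 4 * (R.n * mn (R.ph (b i) * R.ph x) ^ 2) :=
        Finset.sum_le_sum fun i _ => EtF_br R (b i) x
    _ = 4 * R.n * ∑ i, mn (R.ph (b i) * R.ph x) ^ 2 := by
        rw [Finset.mul_sum]
        exact Finset.sum_congr rfl fun i _ => by ring
    _ ≤ 4 * R.n * (δ * mn (R.ph x) ^ 2) :=
        mul_le_mul_of_nonneg_left (EtF_cas R hs x) (mul_nonneg (by norm_num) R.n0.le)
    _ = 4 * δ * Qf L x x := by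
        rw [R.Qf_mn]
        ring

theorem et_fam (c0 : ℝ) (m : ℕ) : ∃ C : ℝ, 1 ≤ C ∧ ∀ (L : Type) [LieRing L] [LieAlgebra ℝ L]
    [Module.Finite ℝ L] (I : Type) [Fintype I] [DecidableEq I] (R : Rp L I m) (A : Finset I)
    (x1 x2 z : ℝ) (S T Pp : L →ₗ[ℝ] L) (c : L) (J0 : Matrix I I ℝ) (g1 g2 : ℝ),
    Spl R A x1 x2 z S T Pp c J0 g1 g2 → Bnd I m A x1 x2 z c0 →
    ∀ (δ : ℝ), 0 ≤ δ → ∀ (n : ℕ) (b : Fin n → L), (∀ i, Pp (b i) = 0) →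
      (∀ v : I → ℝ, ∑ i, (R.ph (b i) *ᵥ v) ⬝ᵥ (R.ph (b i) *ᵥ v) ≤ δ * (v ⬝ᵥ v)) →
      (∀ y, ∑ i, Qf L (b i) y ^ 2 ≤ Qf L y y) → ∀ x,
        ∑ i, Qf L ⁅b i, x⁆ ⁅b i, x⁆ ≤ C * (δ + 1 / Fintype.card I) * Qf L x x ∧
        ∑ i, Qf L ⁅S (b i), x⁆ ⁅S (b i), x⁆ ≤ C * (δ + 1 / Fintype.card I) * Qf L x x ∧
        ∑ i, Qf L ⁅T (b i), x⁆ ⁅T (b i), x⁆ ≤ C * (δ + 1 / Fintype.card I) * Qf L x x := by
  obtain ⟨D, hD⟩ : ∃ D : ℝ, D = 8 * (2 * ((m : ℝ) + 1) * c0 ^ 2) ^ 2 := ⟨_, rfl⟩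
  have hD0 : 0 ≤ D := by rw [hD]; positivity
  refine ⟨8 * c0 ^ 2 + D + 4, by nlinarith [sq_nonneg c0], ?_⟩
  intro L _ _ _ I _ _ R A x1 x2 z S T Pp c J0 g1 g2 h hb δ hδ n b hbP hs hbq x
  have hm : (0 : ℝ) ≤ m := Nat.cast_nonneg m
  obtain ⟨-, -, hM0, -⟩ := R.n_bd hb.M1
  have hc1 := hb.c1
  have hx1 := h.x1p
  have hx2 := h.x2p
  have hz := h.zp
  have hq := R.Qf_nn x
  have hinv : ∀ p : ℝ, 0 < p → 1 / c0 ≤ p → 1 / p ≤ c0 := by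
    intro p hp hp'
    rw [div_le_iff₀ (by linarith)] at hp'
    rw [div_le_iff₀ hp]
    linarith
  have habs : ∀ p : ℝ, 0 < p → p ≤ c0 → |p| ≤ c0 := by
    intro p hp hp'
    rwa [abs_of_pos hp]
  have hfin : (8 * c0 ^ 2 * δ + D / Fintype.card I) * Qf L x x ≤
      (8 * c0 ^ 2 + D + 4) * (δ + 1 / Fintype.card I) * Qf L x x := by
    apply mul_le_mul_of_nonneg_right _ hq
    have e1 : D / (Fintype.card I : ℝ) = D * (1 / Fintype.card I) := by ring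
    rw [e1]
    have e2 : 0 ≤ 1 / (Fintype.card I : ℝ) := by positivity
    nlinarith [mul_nonneg hD0 hδ, mul_nonneg (sq_nonneg c0) e2]
  refine ⟨?_, ?_, ?_⟩
  · refine (et_nor R hs x).trans ?_
    apply mul_le_mul_of_nonneg_right _ hq
    have e2 : 0 ≤ 1 / (Fintype.card I : ℝ) := by positivity
    have e3 : 0 ≤ 8 * c0 ^ 2 + D := by positivity
    nlinarith [mul_nonneg e3 hδ, mul_nonneg e3 e2]
  · have := EtF_op R h hb (U := S) (r1 := 1 / x1) (r2 := 1 / x2) (r := 1 / z)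
      (fun x a b => h.tS x a b) (habs _ (one_div_pos.2 hx1) (hinv x1 hx1 hb.x1l))
      (habs _ (one_div_pos.2 hx2) (hinv x2 hx2 hb.x2l))
      (EtF_diff (one_div_pos.2 hz) (one_div_pos.2 hx1) (hinv z hz hb.zl) (hinv x1 hx1 hb.x1l))
      (EtF_diff (one_div_pos.2 hz) (one_div_pos.2 hx2) (hinv z hz hb.zl) (hinv x2 hx2 hb.x2l))
      hbP hs hbq x
    rw [← hD] at this
    exact this.trans hfin
  · have := EtF_op R h hb (U := T) (r1 := x1) (r2 := x2) (r := z)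
      (fun x a b => h.tT x a b) (habs _ hx1 hb.x1u) (habs _ hx2 hb.x2u)
      (EtF_diff hz hx1 hb.zu hb.x1u) (EtF_diff hz hx2 hb.zu hb.x2u)
      hbP hs hbq x
    rw [← hD] at this
    exact this.trans hfin

end Pool.Agent.EinV
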