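import Pool.Agent.EinV.StP
import Pool.Agent.EinV.ExpN
import Pool.Agent.EinS.ClFinal

/-!
# One parameter subgroups of a product normalise

`exp_tuple`: `lmul (g i) = exp (t • lmul (y i))` by `exists_exp` (with the subalgebra `⊤`); the vector `(lmul (g i * x i * (g i)ᴴ))_i = (exp (t ad Y_i) X_i)_i` is the limit of elements of the
finite dimensional, hence closed, subspace of the `(lmul (x i))_i`, `x ∈ h` (see the proof of `exists_exp` in `ExpN.lean`).
-/

namespace Pool.Agent.EinV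

open Matrix Pool.Agent.EStab Pool.Agent.EinS Pool.Agent.SmIso Pool.Agent.EinU Pool.Agent.EinG
  Quaternion

attribute [local instance 100] LieRing.ofAssociativeRing

noncomputable instance Fld.coefU : (F : Fld) → CoefU F.T
  | .R => coefUReal
  | .C => coefUComplex
  | .H => coefUQuat

section

variable {B : Type*} [NormedRing B] [NormedAlgebra ℝ B] [CompleteSpace B]

/-- The left multiplications. -/
private noncomputable def ExpT_L (B : Type*) [NormedRing B] [NormedAlgebra ℝ B] :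
    B →+* (B →L[ℝ] B) where
  toFun a := ContinuousLinearMap.mul ℝ B a
  map_zero' := map_zero _
  map_one' := by
    ext x
    simp
  map_add' := map_add _
  map_mul' a b := by
    ext x
    simp [mul_assoc]

/-- The right multiplications. -/
private noncomputable def ExpT_R (B : Type*) [NormedRing B] [NormedAlgebra ℝ B] :
    Bᵐᵒᵖ →+* (B →L[ℝ] B) where
  toFun a := (ContinuousLinearMap.mul ℝ B).flip a.unop
  map_zero' := by
    ext x
    simp
  map_one' := by
    ext x
    simp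
  map_add' a b := by
    ext x
    simp
  map_mul' a b := by
    ext x
    simp [mul_assoc]

/-- The continuous linear maps which preserve a subspace. -/
private noncomputable def ExpT_S (V : Submodule ℝ B) : Subalgebra ℝ (B →L[ℝ] B) where
  carrier := {T | ∀ v ∈ V, T v ∈ V}
  mul_mem' := fun {S T} hS hT v hv => hS _ (hT _ hv)
  add_mem' := fun {S T} hS hT v hv => V.add_mem (hS _ hv) (hT _ hv)
  algebraMap_mem' := fun r v hv => by
    rw [Algebra.algebraMap_eq_smul_one]
    exact V.smul_mem r hv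

omit [CompleteSpace B] in
private theorem ExpT_closed (V : Submodule ℝ B) [FiniteDimensional ℝ V] :
    IsClosed (ExpT_S V : Set (B →L[ℝ] B)) := by
  have h1 : (ExpT_S V : Set (B →L[ℝ] B)) = ⋂ v : V, {T : B →L[ℝ] B | T v.1 ∈ V} := by
    ext T
    rw [Set.mem_iInter]
    constructor
    · intro h v
      exact h v.1 v.2
    · intro h v hv
      exact h ⟨v, hv⟩
  rw [h1]
  refine isClosed_iInter fun v => ?_
  exact (Submodule.closed_of_finiteDimensional V).preimage
    (ContinuousLinearMap.apply ℝ B v.1).continuous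

private theorem ExpT_conj [FiniteDimensional ℝ B] [NormedAlgebra ℚ B] (V : Submodule ℝ B) (Y : B)
    (hV : ∀ M ∈ V, Y * M - M * Y ∈ V) :
    ∀ M ∈ V, NormedSpace.exp Y * M * NormedSpace.exp (-Y) ∈ V := by
  letI : NormedAlgebra ℚ (B →L[ℝ] B) := NormedAlgebra.restrictScalars ℚ ℝ (B →L[ℝ] B)
  letI : NormedAlgebra ℚ Bᵐᵒᵖ := NormedAlgebra.restrictScalars ℚ ℝ Bᵐᵒᵖ
  have h1 : ExpT_L B Y + ExpT_R B (MulOpposite.op (-Y)) ∈ ExpT_S V := by
    intro v hv
    have h2 := hV v hv
    have h3 : (ExpT_L B Y + ExpT_R B (MulOpposite.op (-Y))) v = Y * v - v * Y := by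
      change Y * v + v * (-Y) = _
      rw [mul_neg, sub_eq_add_neg]
    rw [h3]
    exact h2
  have h4 : NormedSpace.exp (ExpT_L B Y + ExpT_R B (MulOpposite.op (-Y))) ∈ ExpT_S V :=
    NormedSpace.exp_mem (R := ℝ) (ExpT_closed V) h1
  have hc : Commute (ExpT_L B Y) (ExpT_R B (MulOpposite.op (-Y))) := by
    ext x
    change Y * (x * (-Y)) = Y * x * (-Y)
    rw [mul_assoc]
  rw [NormedSpace.exp_add_of_commute hc] at h4
  have h5 : NormedSpace.exp (ExpT_L B Y) = ExpT_L B (NormedSpace.exp Y) :=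
    (NormedSpace.map_exp (ExpT_L B) (ContinuousLinearMap.mul ℝ B).continuous Y).symm
  have h6 : NormedSpace.exp (ExpT_R B (MulOpposite.op (-Y))) =
      ExpT_R B (NormedSpace.exp (MulOpposite.op (-Y))) :=
    (NormedSpace.map_exp (ExpT_R B) ((ContinuousLinearMap.mul ℝ B).flip.continuous.comp
      MulOpposite.continuous_unop) (MulOpposite.op (-Y))).symm
  rw [h5, h6, NormedSpace.exp_op] at h4
  intro M hM
  have h7 := h4 M hM
  have h8 : (ExpT_L B (NormedSpace.exp Y) * ExpT_R B (MulOpposite.op (NormedSpace.exp (-Y)))) M =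
      NormedSpace.exp Y * M * NormedSpace.exp (-Y) := by
    change NormedSpace.exp Y * (M * NormedSpace.exp (-Y)) = _
    rw [mul_assoc]
  rw [← h8]
  exact h7

end

private theorem ExpT_pi {r : ℕ} {B : Fin r → Type} [∀ i, NormedRing (B i)]
    [∀ i, NormedAlgebra ℝ (B i)] [∀ i, CompleteSpace (B i)] [∀ i, FiniteDimensional ℝ (B i)]
    [∀ i, NormedAlgebra ℚ (B i)] (V : Submodule ℝ (∀ i, B i)) (Y : ∀ i, B i)
    (hV : ∀ M ∈ V, Y * M - M * Y ∈ V) :
    ∀ M ∈ V, (fun i => NormedSpace.exp (Y i) * M i * NormedSpace.exp (-Y i)) ∈ V := by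
  intro M hM
  letI : NormedAlgebra ℚ (∀ i, B i) := NormedAlgebra.restrictScalars ℚ ℝ (∀ i, B i)
  have h1 := ExpT_conj V Y hV M hM
  have h2 : NormedSpace.exp Y * M * NormedSpace.exp (-Y) =
      fun i => NormedSpace.exp (Y i) * M i * NormedSpace.exp (-Y i) := by
    funext i
    rw [Pi.mul_apply, Pi.mul_apply, Pi.coe_exp, Pi.coe_exp, Pi.neg_apply]
  rw [← h2]
  exact h1

/-- The vector of the left multiplications. -/
private noncomputable def ExpT_psi {r : ℕ} (F : Fin r → Fld) (N : Fin r → ℕ) :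
    ProdG F N →ₗ[ℝ] ∀ i, Matrix (Fin (N i) × Fin (Coef.m (F i).T))
      (Fin (N i) × Fin (Coef.m (F i).T)) ℝ where
  toFun x := fun i => lmul (x i).mat
  map_add' x y := by
    funext i
    exact map_add lmul (x i).mat (y i).mat
  map_smul' c x := by
    funext i
    exact map_smul lmul c (x i).mat

set_option backward.isDefEq.respectTransparency false in
open scoped Matrix.Norms.Operator in
private theorem ExpT_mat {r : ℕ} {κ : Fin r → Type} [∀ i, Fintype (κ i)]
    [∀ i, DecidableEq (κ i)] (V : Submodule ℝ (∀ i, Matrix (κ i) (κ i) ℝ))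
    (Y : ∀ i, Matrix (κ i) (κ i) ℝ) (hV : ∀ M ∈ V, (fun i => Y i * M i - M i * Y i) ∈ V) :
    ∀ M ∈ V, (fun i => NormedSpace.exp (Y i) * M i * NormedSpace.exp (-Y i)) ∈ V := by
  intro M hM
  letI : ∀ i, NormedAlgebra ℚ (Matrix (κ i) (κ i) ℝ) := fun i =>
    NormedAlgebra.restrictScalars ℚ ℝ (Matrix (κ i) (κ i) ℝ)
  exact ExpT_pi (B := fun i => Matrix (κ i) (κ i) ℝ) V Y hV M hM

theorem exp_tuple {r : ℕ} {F : Fin r → Fld} {N : Fin r → ℕ} {h : LieSubalgebra ℝ (ProdG F N)}
    {y : ProdG F N} (hy : y ∈ h) (t : ℝ) :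
    ∃ g : ∀ i, Matrix (Fin (N i)) (Fin (N i)) (F i).T, (∀ i, g i * (g i)ᴴ = 1 ∧
      (g i)ᴴ * g i = 1 ∧ lmul (g i) = NormedSpace.exp (t • lmul (y i).mat)) ∧
      ∀ x ∈ h, ∃ z ∈ h, ∀ i, (z i).mat = g i * (x i).mat * (g i)ᴴ := by
  have h1 : ∀ i, ∃ g : Matrix (Fin (N i)) (Fin (N i)) (F i).T, g * gᴴ = 1 ∧ gᴴ * g = 1 ∧
      lmul g = NormedSpace.exp (t • lmul (y i).mat) := by
    intro i
    obtain ⟨g, hg1, hg2, hg3, -⟩ := exists_exp (A := (F i).T) (ι := Fin (N i)) (h := ⊤)
      (x := y i) (LieSubalgebra.mem_top _) t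
    exact ⟨g, hg1, hg2, hg3⟩
  choose g hg1 hg2 hg3 using h1
  refine ⟨g, fun i => ⟨hg1 i, hg2 i, hg3 i⟩, ?_⟩
  intro x hx
  have h2 : ∀ M ∈ h.toSubmodule.map (ExpT_psi F N),
      (fun i => (t • lmul (y i).mat) * M i - M i * (t • lmul (y i).mat)) ∈
        h.toSubmodule.map (ExpT_psi F N) := by
    rintro M ⟨w, hw, rfl⟩
    refine ⟨t • ⁅y, w⁆, h.smul_mem t (h.lie_mem hy hw), ?_⟩
    funext i
    change lmul (t • ((y i).mat * (w i).mat - (w i).mat * (y i).mat)) =
      (t • lmul (y i).mat) * lmul (w i).mat - lmul (w i).mat * (t • lmul (y i).mat)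
    rw [map_smul, map_sub, lmul_mul, lmul_mul, smul_mul_assoc, mul_smul_comm, smul_sub]
  obtain ⟨z, hz, hz'⟩ := ExpT_mat (h.toSubmodule.map (ExpT_psi F N))
    (fun i => t • lmul (y i).mat) h2 (ExpT_psi F N x) ⟨x, hx, rfl⟩
  refine ⟨z, hz, fun i => ?_⟩
  have h3 : lmul (z i).mat = NormedSpace.exp (t • lmul (y i).mat) * lmul (x i).mat *
      NormedSpace.exp (-(t • lmul (y i).mat)) := congrFun hz' i
  have h4 : lmul (g i)ᴴ = NormedSpace.exp (-(t • lmul (y i).mat)) := by
    rw [Matrix.exp_neg, ← hg3 i]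
    refine (Matrix.inv_eq_right_inv ?_).symm
    rw [← lmul_mul, hg1 i, lmul_one]
  rw [← h4, ← hg3 i, ← lmul_mul, ← lmul_mul] at h3
  have h5 := lmul_inj (X := (z i).mat - g i * (x i).mat * (g i)ᴴ) (by rw [map_sub, h3, sub_self])
  exact sub_eq_zero.mp h5

end Pool.Agent.EinV
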