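import Pool.Agent.EinV.Rh

/-!
# The fast part: Hilbert-Schmidt norms

`hs_FAb`: `hs (tn W)² = ∑ tn W a b c d * (1/n) FAb w t (ph (e a b)) (ph (e c d))` (`Qf_e`), and
`∑ a b c d, tn W a b c d * (ph (e a b) p q * ph (e c d) r s) = tn W p q r s` (`ph_e_symm`, `exp` applied to `W (e p q)` ...), so
`hs (tn W)² = (1/n) ∑ p q r s, (w q s + w p r) * t p s q r * tn W p q r s ≤ (2c/n) hs t * hs (tn W)` (`cs_hs`).

`hs_cut`: `tn (P ∘ W ∘ P) a b c d = tn W a b c d` or `0` for `P = Pp` or `1 - Pp` (`Spl.pe`, `pp`).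

`hs_TUT`: `Spl.te` and `tn (T ∘ U ∘ T) a b c d = (1/n) Qf (U (T (e a b))) (T (e c d))`: `w a b * w c d * tn U a b c d` plus three terms of
the form `O(1) * ph c c d * Qf (U (e a b)) c`, whose norm is `mn (ph c) * n * mn (ph (U c)) ≤ C b` (`n mn (ph x)² = Qf x x`).
-/

namespace Pool.Agent.EinV

open Matrix Pool.Agent.EStab Pool.Agent.EinS Pool.Agent.SmIso Pool.Agent.EinU Pool.Agent.EinG

section

variable {I : Type} [Fintype I] [DecidableEq I]

private theorem FastH_le_of_sq {a b : ℝ} (hb : 0 ≤ b) (h : a ^ 2 ≤ b ^ 2) : a ≤ b :=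
  le_of_not_gt fun hab => by nlinarith

/-- A permutation of the indices. -/
private theorem FastH_perm (t : I → I → I → I → ℝ) :
    hs (fun p q r s => t p s q r) = hs t := by
  unfold hs
  congr 1
  refine Finset.sum_congr rfl fun p _ => ?_
  calc ∑ q, ∑ r, ∑ s, t p s q r ^ 2 = ∑ q, ∑ s, ∑ r, t p s q r ^ 2 :=
        Finset.sum_congr rfl fun q _ => Finset.sum_comm
    _ = ∑ s, ∑ q, ∑ r, t p s q r ^ 2 := Finset.sum_comm

private theorem FastH_mn_mul {h : I → I → ℝ} {C : ℝ} (hC : 0 ≤ C) (hh : ∀ a b, |h a b| ≤ C)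
    (x : Matrix I I ℝ) : mn (of fun a b => h a b * x a b) ≤ C * mn x := by
  refine FastH_le_of_sq (mul_nonneg hC (mn_nonneg _)) ?_
  rw [mul_pow, mn_sq, mn_sq, Finset.mul_sum]
  refine Finset.sum_le_sum fun a _ => ?_
  rw [Finset.mul_sum]
  refine Finset.sum_le_sum fun b _ => ?_
  rw [of_apply, mul_pow]
  refine mul_le_mul_of_nonneg_right ?_ (sq_nonneg _)
  rw [← sq_abs (h a b)]
  exact pow_le_pow_left₀ (abs_nonneg _) (hh a b) 2

private theorem FastH_add_left (w : I → I → ℝ) (t : I → I → I → I → ℝ) (X X' Y : Matrix I I ℝ) :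
    FAb w t (X + X') Y = FAb w t X Y + FAb w t X' Y := by
  unfold FAb
  simp only [← Finset.sum_add_distrib]
  refine Finset.sum_congr rfl fun a _ => Finset.sum_congr rfl fun b _ =>
    Finset.sum_congr rfl fun c _ => Finset.sum_congr rfl fun d _ => ?_
  rw [Matrix.add_apply]
  ring

private theorem FastH_add_right (w : I → I → ℝ) (t : I → I → I → I → ℝ) (X Y Y' : Matrix I I ℝ) :
    FAb w t X (Y + Y') = FAb w t X Y + FAb w t X Y' := by
  unfold FAb
  simp only [← Finset.sum_add_distrib]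
  refine Finset.sum_congr rfl fun a _ => Finset.sum_congr rfl fun b _ =>
    Finset.sum_congr rfl fun c _ => Finset.sum_congr rfl fun d _ => ?_
  rw [Matrix.add_apply]
  ring

private theorem FastH_smul_left (w : I → I → ℝ) (t : I → I → I → I → ℝ) (r : ℝ)
    (X Y : Matrix I I ℝ) : FAb w t (r • X) Y = r * FAb w t X Y := by
  unfold FAb
  simp only [Finset.mul_sum]
  refine Finset.sum_congr rfl fun a _ => Finset.sum_congr rfl fun b _ =>
    Finset.sum_congr rfl fun c _ => Finset.sum_congr rfl fun d _ => ?_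
  rw [Matrix.smul_apply, smul_eq_mul]
  ring

private theorem FastH_smul_right (w : I → I → ℝ) (t : I → I → I → I → ℝ) (r : ℝ)
    (X Y : Matrix I I ℝ) : FAb w t X (r • Y) = r * FAb w t X Y := by
  unfold FAb
  simp only [Finset.mul_sum]
  refine Finset.sum_congr rfl fun a _ => Finset.sum_congr rfl fun b _ =>
    Finset.sum_congr rfl fun c _ => Finset.sum_congr rfl fun d _ => ?_
  rw [Matrix.smul_apply, smul_eq_mul]
  ring

end

section

variable {L : Type} [LieRing L] [LieAlgebra ℝ L] {I : Type} [Fintype I] [DecidableEq I] {m : ℕ}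
  (R : Rp L I m)

/-- The tensor of `W` is invariant under the projection in the first pair of indices. -/
private theorem Rp.FastH_pair1 (W : L →ₗ[ℝ] L) (p q c d : I) :
    ∑ a, ∑ b, R.tn W a b c d * R.ph (R.e a b) p q = R.tn W p q c d := by
  have h1 := congrArg (fun x => R.ph (W x) c d) (R.exp (R.e p q))
  have h2 : R.ph (W (∑ a, ∑ b, R.ph (R.e p q) a b • R.e a b)) c d =
      ∑ a, ∑ b, R.ph (R.e p q) a b * R.tn W a b c d := by
    simp only [map_sum, map_smul, Matrix.sum_apply, Matrix.smul_apply, smul_eq_mul]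
    rfl
  have h3 : R.tn W p q c d = ∑ a, ∑ b, R.ph (R.e p q) a b * R.tn W a b c d := h1.trans h2
  rw [h3]
  refine Finset.sum_congr rfl fun a _ => Finset.sum_congr rfl fun b _ => ?_
  rw [R.ph_e_symm a b p q, mul_comm]

/-- The tensor of `W` is invariant under the projection in the second pair of indices. -/
private theorem Rp.FastH_pair2 (W : L →ₗ[ℝ] L) (p q r s : I) :
    ∑ c, ∑ d, R.tn W p q c d * R.ph (R.e c d) r s = R.tn W p q r s := by
  have h1 := congrArg (fun x => R.ph x r s) (R.exp (W (R.e p q)))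
  have h2 : R.ph (∑ c, ∑ d, R.ph (W (R.e p q)) c d • R.e c d) r s =
      ∑ c, ∑ d, R.tn W p q c d * R.ph (R.e c d) r s := by
    simp only [map_sum, map_smul, Matrix.sum_apply, Matrix.smul_apply, smul_eq_mul]
    rfl
  exact (h1.trans h2).symm

theorem Rp.hs_FAb {w : I → I → ℝ} {c' : ℝ} (hw : ∀ a b, |w a b| ≤ c') (t : I → I → I → I → ℝ)
    {W : L →ₗ[ℝ] L} (hW : ∀ x y, Qf L (W x) y = FAb w t (R.ph x) (R.ph y)) :
    hs (R.tn W) ≤ 2 * c' / R.n * hs t := by
  rcases isEmpty_or_nonempty I with hI | hI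
  · have h1 : ∀ u : I → I → I → I → ℝ, hs u = 0 := by
      intro u
      unfold hs
      rw [Finset.univ_eq_empty, Finset.sum_empty, Real.sqrt_zero]
    rw [h1, h1, mul_zero]
  have hc : 0 ≤ c' := (abs_nonneg _).trans (hw (Classical.arbitrary I) (Classical.arbitrary I))
  have hn := R.n0
  have e1 : ∀ a b c d, R.tn W a b c d = 1 / R.n * FAb w t (R.ph (R.e a b)) (R.ph (R.e c d)) := by
    intro a b c d
    rw [← hW, R.Qf_e]
    field_simp
  -- the square of the norm
  have e2 : hs (R.tn W) ^ 2 = 1 / R.n * ∑ p, ∑ q, ∑ r, ∑ s,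
      R.tn W p q r s * ((w q s + w p r) * t p s q r) := by
    rw [hs_sq]
    have h1 : ∀ a b c d, R.tn W a b c d ^ 2 = ∑ p, ∑ q, ∑ r, ∑ s,
        1 / R.n * ((w q s + w p r) * t p s q r) *
          (R.tn W a b c d * R.ph (R.e a b) p q * R.ph (R.e c d) r s) := by
      intro a b c d
      rw [sq]
      nth_rw 2 [e1]
      unfold FAb
      simp only [Finset.mul_sum]
      refine Finset.sum_congr rfl fun p _ => Finset.sum_congr rfl fun q _ =>
        Finset.sum_congr rfl fun r _ => Finset.sum_congr rfl fun s _ => ?_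
      ring
    have h2 : ∀ p q r s, ∑ a, ∑ b, ∑ c, ∑ d,
        R.tn W a b c d * R.ph (R.e a b) p q * R.ph (R.e c d) r s = R.tn W p q r s := by
      intro p q r s
      have h3 : ∀ a b, ∑ c, ∑ d, R.tn W a b c d * R.ph (R.e a b) p q * R.ph (R.e c d) r s =
          R.tn W a b r s * R.ph (R.e a b) p q := by
        intro a b
        rw [← R.FastH_pair2 W a b r s, Finset.sum_mul]
        refine Finset.sum_congr rfl fun c _ => ?_
        rw [Finset.sum_mul]
        refine Finset.sum_congr rfl fun d _ => ?_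
        ring
      rw [Finset.sum_congr rfl fun a _ => Finset.sum_congr rfl fun b _ => h3 a b]
      exact R.FastH_pair1 W p q r s
    -- interchange of the sums
    have h4 : ∑ a, ∑ b, ∑ c, ∑ d, R.tn W a b c d ^ 2 = ∑ x : I × I × I × I,
        ∑ y : I × I × I × I, 1 / R.n * ((w y.2.1 y.2.2.2 + w y.1 y.2.2.1) *
          t y.1 y.2.2.2 y.2.1 y.2.2.1) * (R.tn W x.1 x.2.1 x.2.2.1 x.2.2.2 *
            R.ph (R.e x.1 x.2.1) y.1 y.2.1 * R.ph (R.e x.2.2.1 x.2.2.2) y.2.2.1 y.2.2.2) := by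
      rw [Fintype.sum_prod_type]
      refine Finset.sum_congr rfl fun a _ => ?_
      rw [Fintype.sum_prod_type]
      refine Finset.sum_congr rfl fun b _ => ?_
      rw [Fintype.sum_prod_type]
      refine Finset.sum_congr rfl fun c _ => Finset.sum_congr rfl fun d _ => ?_
      rw [h1, Fintype.sum_prod_type]
      refine Finset.sum_congr rfl fun p _ => ?_
      rw [Fintype.sum_prod_type]
      refine Finset.sum_congr rfl fun q _ => ?_
      rw [Fintype.sum_prod_type]
    rw [h4, Finset.sum_comm, Finset.mul_sum, Fintype.sum_prod_type]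
    refine Finset.sum_congr rfl fun p _ => ?_
    rw [Fintype.sum_prod_type, Finset.mul_sum]
    refine Finset.sum_congr rfl fun q _ => ?_
    rw [Fintype.sum_prod_type, Finset.mul_sum]
    refine Finset.sum_congr rfl fun r _ => ?_
    rw [Finset.mul_sum]
    refine Finset.sum_congr rfl fun s _ => ?_
    rw [← Finset.mul_sum, ← h2 p q r s, Fintype.sum_prod_type]
    have h5 : ∀ a, ∑ y : I × I × I, R.tn W a y.1 y.2.1 y.2.2 * R.ph (R.e a y.1) p q *
        R.ph (R.e y.2.1 y.2.2) r s = ∑ b, ∑ c, ∑ d, R.tn W a b c d * R.ph (R.e a b) p q *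
          R.ph (R.e c d) r s := by
      intro a
      rw [Fintype.sum_prod_type]
      refine Finset.sum_congr rfl fun b _ => ?_
      rw [Fintype.sum_prod_type]
    rw [Finset.sum_congr rfl fun a _ => h5 a]
    ring
  have e3 : hs (fun p q r s => (w q s + w p r) * t p s q r) ≤ 2 * c' * hs t := by
    rw [← FastH_perm t]
    refine hs_mul_le (h := fun p q r s => w q s + w p r) (t := fun p q r s => t p s q r)
      (by positivity) fun p q r s => ?_
    have h1 := abs_add_le (w q s) (w p r)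
    have h2 := hw q s
    have h3 := hw p r
    show |w q s + w p r| ≤ 2 * c'
    linarith
  have e4 := cs_hs (R.tn W) (fun p q r s => (w q s + w p r) * t p s q r)
  have e5 : hs (R.tn W) ^ 2 ≤ hs (R.tn W) * (2 * c' / R.n * hs t) := by
    rw [e2]
    calc 1 / R.n * ∑ p, ∑ q, ∑ r, ∑ s, R.tn W p q r s * ((w q s + w p r) * t p s q r)
        ≤ 1 / R.n * (hs (R.tn W) * hs (fun p q r s => (w q s + w p r) * t p s q r)) :=
          mul_le_mul_of_nonneg_left ((le_abs_self _).trans e4) (by positivity)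
      _ ≤ 1 / R.n * (hs (R.tn W) * (2 * c' * hs t)) :=
          mul_le_mul_of_nonneg_left (mul_le_mul_of_nonneg_left e3 (hs_nonneg _)) (by positivity)
      _ = hs (R.tn W) * (2 * c' / R.n * hs t) := by ring
  rcases (hs_nonneg (R.tn W)).eq_or_lt with h0 | h0
  · rw [← h0]
    have := hs_nonneg t
    positivity
  · rw [sq] at e5
    exact le_of_mul_le_mul_left e5 h0

/-- Existence of the operator of `FAb`, for the tensor of a symmetric operator. -/
theorem Rp.exists_FAb {w : I → I → ℝ} (hw : ∀ a b, w a b = w b a) {U : L →ₗ[ℝ] L} (hU : QSym U) :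
    ∃ W : L →ₗ[ℝ] L, QSym W ∧ ∀ x y, Qf L (W x) y = FAb w (R.tn U) (R.ph x) (R.ph y) := by
  have hG : ∀ X Y : Matrix I I ℝ, FAb w (R.tn U) X Y = FAb w (R.tn U) Y X := by
    intro X Y
    unfold FAb
    have h1 : ∀ a b c d, R.tn U c b d a = R.tn U a d b c := by
      intro a b c d
      rw [R.tn_symm hU d a c b, R.tn_skew1 U a d c b, R.tn_skew2 U a d b c, neg_neg]
    calc ∑ a, ∑ b, ∑ c, ∑ d, (w b d + w a c) * (X a b * Y c d) * R.tn U a d b c
        = ∑ c, ∑ d, ∑ a, ∑ b, (w b d + w a c) * (X a b * Y c d) * R.tn U a d b c := by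
          calc _ = ∑ a, ∑ c, ∑ b, ∑ d, (w b d + w a c) * (X a b * Y c d) * R.tn U a d b c :=
                Finset.sum_congr rfl fun a _ => Finset.sum_comm
            _ = ∑ c, ∑ a, ∑ b, ∑ d, (w b d + w a c) * (X a b * Y c d) * R.tn U a d b c :=
                Finset.sum_comm
            _ = ∑ c, ∑ a, ∑ d, ∑ b, (w b d + w a c) * (X a b * Y c d) * R.tn U a d b c :=
                Finset.sum_congr rfl fun c _ => Finset.sum_congr rfl fun a _ => Finset.sum_comm
            _ = _ := Finset.sum_congr rfl fun c _ => Finset.sum_comm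
      _ = _ := by
          refine Finset.sum_congr rfl fun a _ => Finset.sum_congr rfl fun b _ =>
            Finset.sum_congr rfl fun c _ => Finset.sum_congr rfl fun d _ => ?_
          rw [h1 a b c d, hw d b, hw c a]
          ring
  let G : L →ₗ[ℝ] L →ₗ[ℝ] ℝ := LinearMap.mk₂ ℝ (fun x y => FAb w (R.tn U) (R.ph x) (R.ph y))
    (fun x x' y => by rw [map_add, FastH_add_left])
    (fun r x y => by rw [map_smul, FastH_smul_left, smul_eq_mul])
    (fun x y y' => by rw [map_add, FastH_add_right])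
    (fun r x y => by rw [map_smul, FastH_smul_right, smul_eq_mul])
  first
    | exact R.exists_op G fun x y => hG _ _
    | exact Rp.exists_op G fun x y => hG _ _

end

section

variable {L : Type} [LieRing L] [LieAlgebra ℝ L] {I : Type} [Fintype I] [DecidableEq I] {m : ℕ}
  {R : Rp L I m} {A : Finset I} {x1 x2 z : ℝ} {S T Pp : L →ₗ[ℝ] L} {c : L} {J0 : Matrix I I ℝ}
  {g1 g2 : ℝ}

theorem Spl.hs_cut (h : Spl R A x1 x2 z S T Pp c J0 g1 g2) (W : L →ₗ[ℝ] L) :
    hs (R.tn (Pp ∘ₗ W ∘ₗ Pp)) ≤ hs (R.tn W) ∧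
    hs (R.tn ((LinearMap.id - Pp) ∘ₗ W ∘ₗ (LinearMap.id - Pp))) ≤ hs (R.tn W) := by
  constructor
  · have h1 : R.tn (Pp ∘ₗ W ∘ₗ Pp) = fun a b c d =>
        (if (a ∈ A ↔ b ∈ A) ∨ (c ∈ A ↔ d ∈ A) then (0 : ℝ) else 1) * R.tn W a b c d := by
      funext a b c d
      show R.ph (Pp (W (Pp (R.e a b)))) c d = _
      rw [h.pp, h.pe]
      by_cases h1 : (a ∈ A ↔ b ∈ A)
      · rw [if_pos h1, map_zero, map_zero, Matrix.zero_apply, if_pos (Or.inl h1), zero_mul]
        simp
      · rw [if_neg h1]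
        by_cases h2 : (c ∈ A ↔ d ∈ A)
        · rw [if_pos h2, if_pos (Or.inr h2), zero_mul]
        · rw [if_neg h2, if_neg (by tauto), one_mul]
          rfl
    rw [h1]
    refine (hs_mul_le (C := 1) zero_le_one fun a b c d => ?_).trans (one_mul _).le
    split_ifs <;> simp
  · have h1 : R.tn ((LinearMap.id - Pp) ∘ₗ W ∘ₗ (LinearMap.id - Pp)) = fun a b c d =>
        (if (a ∈ A ↔ b ∈ A) ∧ (c ∈ A ↔ d ∈ A) then (1 : ℝ) else 0) * R.tn W a b c d := by
      funext a b c d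
      show R.ph (W (R.e a b - Pp (R.e a b)) - Pp (W (R.e a b - Pp (R.e a b)))) c d = _
      rw [map_sub R.ph, Matrix.sub_apply, h.pp, h.pe]
      by_cases h1 : (a ∈ A ↔ b ∈ A)
      · rw [if_pos h1, sub_zero]
        by_cases h2 : (c ∈ A ↔ d ∈ A)
        · rw [if_pos h2, if_pos ⟨h1, h2⟩, one_mul, sub_zero]
          rfl
        · rw [if_neg h2, if_neg (fun h' : (a ∈ A ↔ b ∈ A) ∧ (c ∈ A ↔ d ∈ A) => h2 h'.2), zero_mul, sub_self]
      · rw [if_neg h1, sub_self, map_zero, map_zero, Matrix.zero_apply,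
          if_neg (fun h' : (a ∈ A ↔ b ∈ A) ∧ (c ∈ A ↔ d ∈ A) => h1 h'.1), zero_mul]
        simp
    rw [h1]
    refine (hs_mul_le (C := 1) zero_le_one fun a b c d => ?_).trans (one_mul _).le
    split_ifs <;> simp

end

theorem hs_TUT (c0 : ℝ) (m : ℕ) : ∃ C : ℝ, 1 ≤ C ∧ ∀ (L : Type) [LieRing L] [LieAlgebra ℝ L]
    (I : Type) [Fintype I] [DecidableEq I] (R : Rp L I m) (A : Finset I) (x1 x2 z : ℝ)
    (S T Pp : L →ₗ[ℝ] L) (c : L) (J0 : Matrix I I ℝ) (g1 g2 : ℝ),
    Spl R A x1 x2 z S T Pp c J0 g1 g2 → Bnd I m A x1 x2 z c0 →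
    ∀ (U : L →ₗ[ℝ] L) (b : ℝ), QSym U → 0 ≤ b → NBL U b →
      hs (R.tn (T ∘ₗ U ∘ₗ T)) ≤ C * (hs (R.tn U) + b) := by
  refine ⟨3 * c0 ^ 2 + 1, by nlinarith [sq_nonneg c0], ?_⟩
  intro L _ _ I _ _ R A x1 x2 z S T Pp c J0 g1 g2 h hB U b hU hb hN
  have hn := R.n0
  have hc0 : 0 ≤ c0 := zero_le_one.trans hB.c1
  -- the weights
  obtain ⟨α, hα⟩ : ∃ α : I → I → ℝ, ∀ a b, α a b = wt A x1 x2 1 a b := ⟨_, fun _ _ => rfl⟩
  have hα1 : ∀ a b, 0 ≤ α a b ∧ α a b ≤ c0 := by
    intro a b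
    rw [hα]
    unfold wt
    have h1 := h.x1p.le
    have h2 := h.x2p.le
    have h3 := hB.x1u
    have h4 := hB.x2u
    have h5 := hB.c1
    split_ifs
    · exact ⟨h1, h3⟩
    · exact ⟨zero_le_one, h5⟩
    · exact ⟨zero_le_one, h5⟩
    · exact ⟨h2, h4⟩
  have hα2 : ∀ a b, |α a b| ≤ c0 := fun a b => by
    rw [abs_of_nonneg (hα1 a b).1]
    exact (hα1 a b).2
  have hα3 : ∀ a b, |z - α a b| ≤ c0 := fun a b => by
    have h1 := hα1 a b
    have h2 := h.zp
    have h3 := hB.zu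
    rw [abs_le]
    constructor <;> linarith
  obtain ⟨β, hβ⟩ : ∃ β : Matrix I I ℝ, β = of fun a b => (z - α a b) * (R.n * R.ph c a b) :=
    ⟨_, rfl⟩
  obtain ⟨β', hβ'⟩ : ∃ β' : Matrix I I ℝ, β' = of fun a b => α a b * R.ph (U c) a b := ⟨_, rfl⟩
  have hte : ∀ a b, T (R.e a b) = α a b • R.e a b + β a b • c := by
    intro a b
    rw [h.te, hα, hβ, of_apply, hα]
  -- the tensor
  have e1 : R.tn (T ∘ₗ U ∘ₗ T) = fun a b p q => α a b * α p q * R.tn U a b p q +
      (β' a b * β p q + (β a b * β' p q +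
        (1 / R.n * Qf L (U c) c * β a b) * β p q)) := by
    funext a b p q
    have h1 := R.Qf_e (T ∘ₗ U ∘ₗ T) a b p q
    have h2 : Qf L ((T ∘ₗ U ∘ₗ T) (R.e a b)) (R.e p q) =
        Qf L (U (T (R.e a b))) (T (R.e p q)) := h.sT _ _
    have h3 := R.Qf_e U a b p q
    have h4 : Qf L (U (R.e a b)) c = R.n * R.ph (U c) a b := by
      rw [hU, R.he]
    have h5 : Qf L (U c) (R.e p q) = R.n * R.ph (U c) p q := by
      rw [Qf_symm, R.he]
    have h6 : R.n * R.tn (T ∘ₗ U ∘ₗ T) a b p q = α a b * α p q * (R.n * R.tn U a b p q) +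
        α a b * β p q * (R.n * R.ph (U c) a b) + β a b * α p q * (R.n * R.ph (U c) p q) +
        β a b * β p q * Qf L (U c) c := by
      rw [← h1, h2, hte, hte]
      simp only [map_add, map_smul, LinearMap.add_apply, LinearMap.smul_apply, h3, h4, h5,
        smul_eq_mul]
      ring
    have h7 : R.tn (T ∘ₗ U ∘ₗ T) a b p q = 1 / R.n * (R.n * R.tn (T ∘ₗ U ∘ₗ T) a b p q) := by
      field_simp
    rw [h7, h6, hβ', of_apply, of_apply]
    field_simp
    ring
  -- norms of the vectors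
  have n1 : √R.n * mn (R.ph c) ≤ 1 := by
    refine FastH_le_of_sq zero_le_one ?_
    rw [mul_pow, Real.sq_sqrt hn.le, ← R.Qf_mn, one_pow]
    rcases h.cc with h1 | h1
    · exact h1.le
    · rw [h1, map_zero]
      exact zero_le_one
  have n2 : √R.n * mn (R.ph (U c)) ≤ b := by
    have h1 : √(Qf L (U c) (U c)) = √R.n * mn (R.ph (U c)) := by
      rw [R.Qf_mn, Real.sqrt_mul hn.le, Real.sqrt_sq (mn_nonneg _)]
    have h2 : √(Qf L c c) = √R.n * mn (R.ph c) := by
      rw [R.Qf_mn, Real.sqrt_mul hn.le, Real.sqrt_sq (mn_nonneg _)]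
    have h3 : |Qf L (U c) (U c)| ≤ b * (√(Qf L c c) * √(Qf L (U c) (U c))) := by
      first
        | exact R.polar hU hb hN c (U c)
        | exact Rp.polar hU hb hN c (U c)
    rw [h1, h2, R.Qf_mn] at h3
    have h4 := (le_abs_self _).trans h3
    obtain ⟨X, hX⟩ : ∃ X, X = √R.n * mn (R.ph (U c)) := ⟨_, rfl⟩
    have h5 : R.n * mn (R.ph (U c)) ^ 2 = X ^ 2 := by
      rw [hX, mul_pow, Real.sq_sqrt hn.le]
    have hX0 : 0 ≤ X := by
      rw [hX]
      exact mul_nonneg (Real.sqrt_nonneg _) (mn_nonneg _)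
    rw [h5, ← hX] at h4
    rw [← hX]
    by_contra hc
    rw [not_le] at hc
    have h6 : b * (√R.n * mn (R.ph c) * X) ≤ b * (1 * X) :=
      mul_le_mul_of_nonneg_left (mul_le_mul_of_nonneg_right n1 hX0) hb
    nlinarith
  have n3 : mn β ≤ c0 * (R.n * mn (R.ph c)) := by
    have h1 : β = of fun a b => (z - α a b) * (R.n • R.ph c) a b := by
      rw [hβ]
      rfl
    rw [h1]
    refine (FastH_mn_mul hc0 hα3 _).trans (le_of_eq ?_)
    rw [mn_smul, abs_of_pos hn]
  have n4 : mn β' ≤ c0 * mn (R.ph (U c)) := by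
    rw [hβ']
    exact FastH_mn_mul hc0 hα2 _
  have n5 : R.n = √R.n * √R.n := (Real.mul_self_sqrt hn.le).symm
  have n6 : mn β' * mn β ≤ c0 ^ 2 * b := by
    calc mn β' * mn β ≤ (c0 * mn (R.ph (U c))) * (c0 * (R.n * mn (R.ph c))) :=
          mul_le_mul n4 n3 (mn_nonneg _) (mul_nonneg hc0 (mn_nonneg _))
      _ = c0 ^ 2 * ((√R.n * mn (R.ph (U c))) * (√R.n * mn (R.ph c))) := by
          rw [n5]
          have : √(√R.n * √R.n) = √R.n := by rw [← n5]
          rw [this]
          ring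
      _ ≤ c0 ^ 2 * (b * 1) := by
          refine mul_le_mul_of_nonneg_left ?_ (sq_nonneg _)
          exact mul_le_mul n2 n1 (mul_nonneg (Real.sqrt_nonneg _) (mn_nonneg _)) hb
      _ = c0 ^ 2 * b := by ring
  have n7 : |Qf L (U c) c| ≤ b * (R.n * mn (R.ph c) ^ 2) := by
    rw [← R.Qf_mn]
    exact hN c
  have n8 : |1 / R.n * Qf L (U c) c| * (mn β * mn β) ≤ c0 ^ 2 * b := by
    obtain ⟨Y, hY⟩ : ∃ Y, Y = √R.n * mn (R.ph c) := ⟨_, rfl⟩
    have hY0 : 0 ≤ Y := by
      rw [hY]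
      exact mul_nonneg (Real.sqrt_nonneg _) (mn_nonneg _)
    have hY1 : Y ≤ 1 := hY ▸ n1
    have h1 : R.n * mn (R.ph c) ^ 2 = Y ^ 2 := by
      rw [hY, mul_pow, Real.sq_sqrt hn.le]
    have h2 : mn β * mn β ≤ c0 ^ 2 * (R.n * Y ^ 2) := by
      calc mn β * mn β ≤ (c0 * (R.n * mn (R.ph c))) * (c0 * (R.n * mn (R.ph c))) :=
            mul_le_mul n3 n3 (mn_nonneg _) (mul_nonneg hc0 (mul_nonneg hn.le (mn_nonneg _)))
        _ = c0 ^ 2 * (R.n * (R.n * mn (R.ph c) ^ 2)) := by ring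
        _ = c0 ^ 2 * (R.n * Y ^ 2) := by rw [h1]
    rw [abs_mul, abs_of_pos (by positivity : (0 : ℝ) < 1 / R.n)]
    rw [h1] at n7
    calc 1 / R.n * |Qf L (U c) c| * (mn β * mn β)
        ≤ 1 / R.n * (b * Y ^ 2) * (c0 ^ 2 * (R.n * Y ^ 2)) := by
          refine mul_le_mul (mul_le_mul_of_nonneg_left n7 (by positivity)) h2
            (mul_nonneg (mn_nonneg _) (mn_nonneg _)) (by positivity)
      _ = c0 ^ 2 * b * (Y ^ 2 * Y ^ 2) := by
          field_simp
      _ ≤ c0 ^ 2 * b * (1 * 1) := by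
          have hY2 : Y ^ 2 ≤ 1 := by nlinarith
          refine mul_le_mul_of_nonneg_left ?_ (by positivity)
          exact mul_le_mul hY2 hY2 (sq_nonneg _) zero_le_one
      _ = c0 ^ 2 * b := by ring
  -- the sum
  have s1 : hs (fun a b p q => α a b * α p q * R.tn U a b p q) ≤ c0 ^ 2 * hs (R.tn U) := by
    refine hs_mul_le (h := fun a b p q => α a b * α p q) (sq_nonneg _) fun a b p q => ?_
    show |α a b * α p q| ≤ c0 ^ 2
    rw [abs_mul, sq]
    exact mul_le_mul (hα2 a b) (hα2 p q) (abs_nonneg _) hc0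
  have s2 : hs (fun a b p q => β' a b * β p q) ≤ c0 ^ 2 * b := by
    rw [hs_ten]
    exact n6
  have s3 : hs (fun a b p q => β a b * β' p q) ≤ c0 ^ 2 * b := by
    rw [hs_ten, mul_comm]
    exact n6
  have s4 : hs (fun a b p q => (1 / R.n * Qf L (U c) c * β a b) * β p q) ≤ c0 ^ 2 * b := by
    have h1 : (fun a b p q => (1 / R.n * Qf L (U c) c * β a b) * β p q) =
        fun a b p q => ((1 / R.n * Qf L (U c) c) • β) a b * β p q := rfl
    rw [h1, hs_ten, mn_smul, mul_assoc]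
    exact n8
  rw [e1]
  have t1 := hs_add (fun a b p q => α a b * α p q * R.tn U a b p q)
    (fun a b p q => β' a b * β p q + (β a b * β' p q +
        (1 / R.n * Qf L (U c) c * β a b) * β p q))
  have t2 := hs_add (fun a b p q => β' a b * β p q) (fun a b p q => β a b * β' p q +
        (1 / R.n * Qf L (U c) c * β a b) * β p q)
  have t3 := hs_add (fun a b p q => β a b * β' p q) (fun a b p q =>
        (1 / R.n * Qf L (U c) c * β a b) * β p q)
  have t4 := hs_nonneg (R.tn U)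
  have t5 : c0 ^ 2 * hs (R.tn U) + 3 * (c0 ^ 2 * b) ≤ (3 * c0 ^ 2 + 1) * (hs (R.tn U) + b) := by
    nlinarith [mul_nonneg (sq_nonneg c0) t4, mul_nonneg (sq_nonneg c0) hb]
  linarith

end Pool.Agent.EinV
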