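import Pool.Agent.EinV.Ell
import Pool.Agent.EinV.FastH

/-!
# The fast part

Let `r` bound the contractions `rh A β`, `rh Aᶜ β`.  `SLb` for `β` and for `T β T` is `O(r + b/M)` (`SLb_le`, `rh_TUT`; the contractions are
symmetric and block diagonal).  By `ell_form`, with `Pk = 1 - Pp`,
`lam Qf (β y) y = (1/2) FAb w' β y y + F(y)` for `y = Pk y`, and
`mu Qf (β y) y = - (1/2) FAb w β y y + (1/2) FAb w' (TβT) y y + (1/2) FAb w' β y y + F(y)` for `y = Pp y`,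
`|F(y)| ≤ C (s + r + (1/M + δ) b) Qf y y =: C ε Qf y y`.
Let `W1`, `W2`, `W3` be the operators of the three `FAb` (`exists_FAb`).  Then `Pk (lam β - W3/2) Pk` and `Pp (mu β + W1/2 - W2/2 - W3/2) Pp` have
quadratic forms `≤ C ε` (`Qf (Pk y) (Pk y) ≤ Qf y y`), so their tensors have `hs ≤ C M ε` (`hs_tn`), and
`hs (tn β) ≤ C M ε + (C/n) (hs (tn β) + hs (tn (TβT)))` (`hs_cut`, `hs_FAb`, `β = Pk β Pk + Pp β Pp`), `hs (tn (TβT)) ≤ C (hs (tn β) + b)`.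
For `M ≥ M0(c0)`: `hs (tn β) ≤ C M ε`.  Finally `|FAb w β y y| ≤ 2 c hs (tn β) (mn (ph y))² = (2c/n) hs (tn β) Qf y y ≤ C ε Qf y y`.
-/

namespace Pool.Agent.EinV

open Matrix Pool.Agent.EStab Pool.Agent.EinS Pool.Agent.SmIso Pool.Agent.EinU Pool.Agent.EinG

section

variable {L : Type} [LieRing L] [LieAlgebra ℝ L]

private theorem Fast_add {U V : L →ₗ[ℝ] L} (hU : QSym U) (hV : QSym V) : QSym (U + V) := by
  intro x y
  simp only [LinearMap.add_apply, map_add]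
  rw [hU x y, hV x y]

private theorem Fast_smul (r : ℝ) {U : L →ₗ[ℝ] L} (hU : QSym U) : QSym (r • U) := by
  intro x y
  simp only [LinearMap.smul_apply, map_smul, smul_eq_mul]
  rw [hU x y]

private theorem Fast_conj {P U : L →ₗ[ℝ] L} (hP : QSym P) (hU : QSym U) : QSym (P ∘ₗ U ∘ₗ P) := by
  intro x y
  simp only [LinearMap.comp_apply]
  rw [hP, hU, hP]

end

section

variable {L : Type} [LieRing L] [LieAlgebra ℝ L] {I : Type} [Fintype I] [DecidableEq I] {m : ℕ}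
  (R : Rp L I m)


private theorem Fast_nn (R : Rp L I m) (x : L) : 0 ≤ Qf L x x := by
  have := R.n0
  rw [R.Qf_mn x]
  positivity

private theorem Fast_hs_add (U V : L →ₗ[ℝ] L) : hs (R.tn (U + V)) ≤ hs (R.tn U) + hs (R.tn V) := by
  have e : R.tn (U + V) = fun a b c d => R.tn U a b c d + R.tn V a b c d := by
    funext a b c d
    simp only [Rp.tn, LinearMap.add_apply, map_add, Matrix.add_apply]
  rw [e]
  exact hs_add _ _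

private theorem Fast_hs_smul (r : ℝ) (U : L →ₗ[ℝ] L) : hs (R.tn (r • U)) ≤ |r| * hs (R.tn U) := by
  have e : R.tn (r • U) = fun a b c d => r * R.tn U a b c d := by
    funext a b c d
    simp only [Rp.tn, LinearMap.smul_apply, map_smul, Matrix.smul_apply, smul_eq_mul]
  rw [e]
  exact hs_mul_le (h := fun _ _ _ _ => r) (abs_nonneg r) fun _ _ _ _ => le_rfl

end

section

variable {L : Type} [LieRing L] [LieAlgebra ℝ L] {I : Type} [Fintype I] [DecidableEq I] {m : ℕ}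
  {R : Rp L I m} {A : Finset I} {x1 x2 z : ℝ} {S T Pp : L →ₗ[ℝ] L} {c : L} {J0 : Matrix I I ℝ}
  {g1 g2 : ℝ}

/-- The contractions of an operator which preserves the splitting. -/
private theorem Fast_rh (h : Spl R A x1 x2 z S T Pp c J0 g1 g2) {U : L →ₗ[ℝ] L}
    (hU : ∀ x, U (Pp x) = Pp (U x)) {B : Finset I} (hB : B = A ∨ B = Aᶜ) {ρ : ℝ}
    (h1 : ∀ v : I → ℝ, (∀ i, i ∉ A → v i = 0) → |v ⬝ᵥ (R.rh B U *ᵥ v)| ≤ ρ * (v ⬝ᵥ v))
    (h2 : ∀ v : I → ℝ, (∀ i, i ∉ Aᶜ → v i = 0) → |v ⬝ᵥ (R.rh B U *ᵥ v)| ≤ ρ * (v ⬝ᵥ v))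
    (v : I → ℝ) : |v ⬝ᵥ (R.rh B U *ᵥ v)| ≤ ρ * (v ⬝ᵥ v) := by
  set v1 : I → ℝ := fun i => if i ∈ A then v i else 0 with hv1
  set v2 : I → ℝ := fun i => if i ∈ A then 0 else v i with hv2
  have hv : v = v1 + v2 := by
    funext i
    simp only [hv1, hv2, Pi.add_apply]
    split_ifs <;> simp
  have e1 : v1 ⬝ᵥ (R.rh B U *ᵥ v2) = 0 := by
    simp only [dotProduct, mulVec, Finset.mul_sum]
    refine Finset.sum_eq_zero fun a _ => Finset.sum_eq_zero fun d _ => ?_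
    simp only [hv1, hv2]
    by_cases ha : a ∈ A
    · by_cases hd : d ∈ A
      · rw [if_pos hd]
        ring
      · rw [h.rh_diag hU B hB (by tauto)]
        ring
    · rw [if_neg ha]
      ring
  have e2 : v2 ⬝ᵥ (R.rh B U *ᵥ v1) = 0 := by
    simp only [dotProduct, mulVec, Finset.mul_sum]
    refine Finset.sum_eq_zero fun a _ => Finset.sum_eq_zero fun d _ => ?_
    simp only [hv1, hv2]
    by_cases ha : a ∈ A
    · rw [if_pos ha]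
      ring
    · by_cases hd : d ∈ A
      · rw [h.rh_diag hU B hB (by tauto)]
        ring
      · rw [if_neg hd]
        ring
  have e3 : v1 ⬝ᵥ v2 = 0 := by
    simp only [dotProduct]
    refine Finset.sum_eq_zero fun a _ => ?_
    simp only [hv1, hv2]
    split_ifs <;> simp
  have e4 : v2 ⬝ᵥ v1 = 0 := by rw [dotProduct_comm, e3]
  have e5 : v ⬝ᵥ (R.rh B U *ᵥ v) = v1 ⬝ᵥ (R.rh B U *ᵥ v1) + v2 ⬝ᵥ (R.rh B U *ᵥ v2) := by
    rw [hv, mulVec_add, dotProduct_add, add_dotProduct, add_dotProduct, e1, e2]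
    ring
  have e6 : v ⬝ᵥ v = v1 ⬝ᵥ v1 + v2 ⬝ᵥ v2 := by
    rw [hv, dotProduct_add, add_dotProduct, add_dotProduct, e3, e4]
    ring
  have g1 := h1 v1 fun i hi => by simp only [hv1]; rw [if_neg hi]
  have g2 := h2 v2 fun i hi => by
    simp only [hv2]
    rw [if_pos]
    by_contra hc
    exact hi (Finset.mem_compl.2 hc)
  rw [e5, e6]
  refine (abs_add_le _ _).trans ?_
  linarith

end

/-- The contractions of `T β T`. -/
private theorem Fast_rhT (c0 : ℝ) (m : ℕ) : ∃ C : ℝ, 1 ≤ C ∧ ∀ (L : Type) [LieRing L] [LieAlgebra ℝ L]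
    (I : Type) [Fintype I] [DecidableEq I] (R : Rp L I m) (A : Finset I)
    (x1 x2 z : ℝ) (S T Pp : L →ₗ[ℝ] L) (c : L) (J0 : Matrix I I ℝ) (g1 g2 : ℝ),
    Spl R A x1 x2 z S T Pp c J0 g1 g2 → Bnd I m A x1 x2 z c0 →
    ∀ (β : L →ₗ[ℝ] L) (r b : ℝ), QSym β → (∀ x, β (Pp x) = Pp (β x)) → 0 ≤ r → 0 ≤ b → NBL β b →
      (∀ v : I → ℝ, |v ⬝ᵥ (R.rh A β *ᵥ v)| ≤ r * (v ⬝ᵥ v)) →
      (∀ v : I → ℝ, |v ⬝ᵥ (R.rh Aᶜ β *ᵥ v)| ≤ r * (v ⬝ᵥ v)) →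
      (∀ v : I → ℝ, |v ⬝ᵥ (R.rh A (T ∘ₗ β ∘ₗ T) *ᵥ v)| ≤
        (c0 ^ 2 * r + C / Fintype.card I * b) * (v ⬝ᵥ v)) ∧
      (∀ v : I → ℝ, |v ⬝ᵥ (R.rh Aᶜ (T ∘ₗ β ∘ₗ T) *ᵥ v)| ≤
        (c0 ^ 2 * r + C / Fintype.card I * b) * (v ⬝ᵥ v)) := by
  obtain ⟨C, hC1, hC⟩ := rh_TUT c0 m
  refine ⟨C, hC1, ?_⟩
  intro L _ _ I _ _ R A x1 x2 z S T Pp c J0 g1 g2 h hb β r b hβ hcom hr hb0 hβb hA hB
  have key := hC L I R A x1 x2 z S T Pp c J0 g1 g2 h hb β b hβ hb0 hβb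
  have hc1 := hb.c1
  have hcom' : ∀ x, (T ∘ₗ β ∘ₗ T) (Pp x) = Pp ((T ∘ₗ β ∘ₗ T) x) := by
    intro x
    simp only [LinearMap.comp_apply]
    rw [h.TP, hcom, h.TP]
    have h1 : Pp (T (β (T x))) = Pp (β (T x)) := h.PT _
    rw [h1, ← hcom, ← hcom, h.PT]
  have hx1 : x1 ^ 2 ≤ c0 ^ 2 := pow_le_pow_left₀ h.x1p.le hb.x1u 2
  have hx2 : x2 ^ 2 ≤ c0 ^ 2 := pow_le_pow_left₀ h.x2p.le hb.x2u 2
  have h1c : (1 : ℝ) ^ 2 ≤ c0 ^ 2 := pow_le_pow_left₀ zero_le_one hc1 2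
  have step : ∀ (v : I → ℝ) (B K : Finset I) (w : ℝ), w ^ 2 ≤ c0 ^ 2 →
      |v ⬝ᵥ (R.rh B (T ∘ₗ β ∘ₗ T) *ᵥ v) - w ^ 2 * (v ⬝ᵥ (R.rh B β *ᵥ v))| ≤
        C / Fintype.card I * b * (v ⬝ᵥ v) → |v ⬝ᵥ (R.rh B β *ᵥ v)| ≤ r * (v ⬝ᵥ v) →
      |v ⬝ᵥ (R.rh B (T ∘ₗ β ∘ₗ T) *ᵥ v)| ≤ (c0 ^ 2 * r + C / Fintype.card I * b) * (v ⬝ᵥ v) := by
    intro v B K w hw h1 h2
    have hv : 0 ≤ v ⬝ᵥ v := by
      simp only [dotProduct]
      exact Finset.sum_nonneg fun i _ => mul_self_nonneg _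
    have h3 : |w ^ 2 * (v ⬝ᵥ (R.rh B β *ᵥ v))| ≤ c0 ^ 2 * (r * (v ⬝ᵥ v)) := by
      rw [abs_mul, abs_of_nonneg (sq_nonneg w)]
      exact mul_le_mul hw h2 (abs_nonneg _) (sq_nonneg _)
    have h4 := abs_add_le (v ⬝ᵥ (R.rh B (T ∘ₗ β ∘ₗ T) *ᵥ v) - w ^ 2 * (v ⬝ᵥ (R.rh B β *ᵥ v)))
      (w ^ 2 * (v ⬝ᵥ (R.rh B β *ᵥ v)))
    rw [sub_add_cancel] at h4
    linarith
  constructor
  · intro v
    refine Fast_rh h hcom' (Or.inl rfl) ?_ ?_ v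
    · intro v hv
      exact step v A A x1 hx1 (key v A A x1 (Or.inl ⟨rfl, rfl, rfl⟩) hv) (hA v)
    · intro v hv
      exact step v A Aᶜ 1 h1c (key v Aᶜ A 1 (Or.inr (Or.inr (Or.inr ⟨rfl, rfl, rfl⟩))) hv) (hA v)
  · intro v
    refine Fast_rh h hcom' (Or.inr rfl) ?_ ?_ v
    · intro v hv
      exact step v Aᶜ A 1 h1c (key v A Aᶜ 1 (Or.inr (Or.inr (Or.inl ⟨rfl, rfl, rfl⟩))) hv) (hB v)
    · intro v hv
      exact step v Aᶜ Aᶜ x2 hx2 (key v Aᶜ Aᶜ x2 (Or.inr (Or.inl ⟨rfl, rfl, rfl⟩)) hv) (hB v)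

/-- The form of the linearised equation up to the fast part. -/
private theorem Fast_form (c0 : ℝ) (m : ℕ) : ∃ C : ℝ, 1 ≤ C ∧ ∀ (L : Type) [LieRing L] [LieAlgebra ℝ L]
    [Module.Finite ℝ L] (I : Type) [Fintype I] [DecidableEq I] (R : Rp L I m) (A : Finset I)
    (x1 x2 z : ℝ) (S T Pp : L →ₗ[ℝ] L) (c : L) (J0 : Matrix I I ℝ) (g1 g2 : ℝ),
    Spl R A x1 x2 z S T Pp c J0 g1 g2 → Bnd I m A x1 x2 z c0 →
    ∀ (D : L →ₗ[ℝ] L) (lam mu δ : ℝ), DD S T Pp D (lam - mu) δ →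
    ∀ (β : L →ₗ[ℝ] L) (s r b : ℝ), QSym β → (∀ x, β (Pp x) = Pp (β x)) → 0 ≤ s → 0 ≤ r → 0 ≤ b →
      NBL β b → (∀ y, |ellQG S T D lam β y| ≤ s * Qf L y y) →
      (∀ v : I → ℝ, |v ⬝ᵥ (R.rh A β *ᵥ v)| ≤ r * (v ⬝ᵥ v)) →
      (∀ v : I → ℝ, |v ⬝ᵥ (R.rh Aᶜ β *ᵥ v)| ≤ r * (v ⬝ᵥ v)) → ∀ y : L,
      |-lam * Qf L (β y) y + (lam - mu) * Qf L (β (Pp y)) (Pp y) -
          1 / 2 * (FAb (wt A x1 x2 1) (R.tn β) (R.ph (Pp y)) (R.ph (Pp y)) -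
            FAb (wt A (1 / x1) (1 / x2) 1) (R.tn (T ∘ₗ β ∘ₗ T)) (R.ph (Pp y)) (R.ph (Pp y))) +
          1 / 2 * FAb (wt A (1 / x1) (1 / x2) 1) (R.tn β) (R.ph y) (R.ph y)| ≤
        C * (s + r + (1 / Fintype.card I + δ) * b) * Qf L y y := by
  obtain ⟨Ce, hCe1, hCe⟩ := ell_form c0 m
  obtain ⟨Cr, hCr1, hCr⟩ := Fast_rhT c0 m
  by_cases hc : 1 ≤ c0
  swap
  · exact ⟨1, le_rfl, fun L _ _ _ I _ _ R A x1 x2 z S T Pp c J0 g1 g2 _ hb => absurd hb.c1 hc⟩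
  refine ⟨1 + 4 * c0 + 2 * c0 ^ 3 + Ce + 2 * c0 * Cr, ?_, ?_⟩
  · have : 0 ≤ 4 * c0 + 2 * c0 ^ 3 + Ce + 2 * c0 * Cr := by positivity
    linarith
  intro L _ _ _ I _ _ R A x1 x2 z S T Pp c J0 g1 g2 h hb D lam mu δ hD β s r b hβ hcom hs hr hb0 hβb
    hell hA hB y
  have h1 := hCe L I R A x1 x2 z S T Pp c J0 g1 g2 h hb D lam mu δ hD β b hβ hcom hb0 hβb y
  obtain ⟨hTA, hTB⟩ := hCr L I R A x1 x2 z S T Pp c J0 g1 g2 h hb β r b hβ hcom hr hb0 hβb hA hB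
  obtain ⟨hM1, hM2, hM0, -⟩ := R.n_bd hb.M1
  set M : ℝ := (Fintype.card I : ℝ) with hM
  have hδ := hD.δ0
  have hq : 0 ≤ Qf L y y := Fast_nn R y
  have hPq : Qf L (Pp y) (Pp y) ≤ Qf L y y := by
    have e1 : Qf L (Pp y) (Pp y) = Qf L (Pp y) y := by
      rw [← h.sP (Pp y) y, h.P2]
    have e2 : Qf L y (Pp y) = Qf L (Pp y) y := Qf_symm _ _
    have e3 : Qf L (y - Pp y) (y - Pp y) = Qf L y y - Qf L (Pp y) (Pp y) := by
      simp only [map_sub, LinearMap.sub_apply]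
      rw [e1, e2]
      ring
    have := Fast_nn R (y - Pp y)
    linarith
  have hPq0 : 0 ≤ Qf L (Pp y) (Pp y) := Fast_nn R _
  have hx1 : |x1| ≤ c0 := by rw [abs_of_pos h.x1p]; exact hb.x1u
  have hx2 : |x2| ≤ c0 := by rw [abs_of_pos h.x2p]; exact hb.x2u
  have hc0 : 0 < c0 := by linarith
  have hy1 : |1 / x1| ≤ c0 := by
    rw [abs_of_pos (by have := h.x1p; positivity), div_le_iff₀ h.x1p]
    have := hb.x1l
    rw [div_le_iff₀ hc0] at this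
    linarith
  have hy2 : |1 / x2| ≤ c0 := by
    rw [abs_of_pos (by have := h.x2p; positivity), div_le_iff₀ h.x2p]
    have := hb.x2l
    rw [div_le_iff₀ hc0] at this
    linarith
  have h11 : |(1 : ℝ)| ≤ c0 := by rw [abs_one]; exact hc
  have s1 := R.SLb_le (A := A) hx1 hx2 h11 hA hB (Pp y)
  have s2 := R.SLb_le (A := A) hy1 hy2 h11 hTA hTB (Pp y)
  have s3 := R.SLb_le (A := A) hy1 hy2 h11 hA hB y
  have h2 := hell y
  have t1 : |SLb (wt A x1 x2 1) (R.tn β) (R.ph (Pp y)) (R.ph (Pp y))| ≤ 4 * c0 * r * Qf L y y :=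
    s1.trans (by gcongr)
  have t2 : |SLb (wt A (1 / x1) (1 / x2) 1) (R.tn (T ∘ₗ β ∘ₗ T)) (R.ph (Pp y)) (R.ph (Pp y))| ≤
      4 * c0 * (c0 ^ 2 * r + Cr / M * b) * Qf L y y :=
    s2.trans (by gcongr)
  simp only [Rp.FO] at h1
  have hfin : (s + Ce * (1 / M + δ) * b + 2 * c0 * r + 2 * c0 * (c0 ^ 2 * r + Cr / M * b) + 2 * c0 * r) ≤
      (1 + 4 * c0 + 2 * c0 ^ 3 + Ce + 2 * c0 * Cr) * (s + r + (1 / M + δ) * b) := by
    have e : (1 + 4 * c0 + 2 * c0 ^ 3 + Ce + 2 * c0 * Cr) * (s + r + (1 / M + δ) * b) -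
        (s + Ce * (1 / M + δ) * b + 2 * c0 * r + 2 * c0 * (c0 ^ 2 * r + Cr / M * b) + 2 * c0 * r) =
        (4 * c0 + 2 * c0 ^ 3 + Ce + 2 * c0 * Cr) * s + (1 + Ce + 2 * c0 * Cr) * r +
        (1 + 4 * c0 + 2 * c0 ^ 3) * ((1 / M + δ) * b) + 2 * c0 * Cr * (δ * b) := by
      ring
    have e2 : 0 ≤ (4 * c0 + 2 * c0 ^ 3 + Ce + 2 * c0 * Cr) * s + (1 + Ce + 2 * c0 * Cr) * r +
        (1 + 4 * c0 + 2 * c0 ^ 3) * ((1 / M + δ) * b) + 2 * c0 * Cr * (δ * b) := by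
      have : 0 ≤ 1 / M := by positivity
      positivity
    linarith
  refine le_trans ?_ (mul_le_mul_of_nonneg_right hfin hq)
  rw [abs_le] at h1 h2 t1 t2 s3 ⊢
  obtain ⟨a1, a2⟩ := h1
  obtain ⟨b1, b2⟩ := h2
  obtain ⟨c1, c2⟩ := t1
  obtain ⟨d1, d2⟩ := t2
  obtain ⟨f1, f2⟩ := s3
  constructor <;> linarith

theorem fast_gap (c0 : ℝ) (m : ℕ) : ∃ C : ℝ, 1 ≤ C ∧ ∀ (L : Type) [LieRing L] [LieAlgebra ℝ L]
    [Module.Finite ℝ L] (I : Type) [Fintype I] [DecidableEq I] (R : Rp L I m) (A : Finset I)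
    (x1 x2 z : ℝ) (S T Pp : L →ₗ[ℝ] L) (c : L) (J0 : Matrix I I ℝ) (g1 g2 : ℝ),
    Spl R A x1 x2 z S T Pp c J0 g1 g2 → Bnd I m A x1 x2 z c0 → C ≤ Fintype.card I →
    ∀ (D : L →ₗ[ℝ] L) (lam mu δ : ℝ), 1 / c0 ≤ lam → 1 / c0 ≤ mu → DD S T Pp D (lam - mu) δ →
    ∀ (β : L →ₗ[ℝ] L) (s r b : ℝ), QSym β → (∀ x, β (Pp x) = Pp (β x)) → 0 ≤ s → 0 ≤ r → 0 ≤ b →
      NBL β b → (∀ y, |ellQG S T D lam β y| ≤ s * Qf L y y) →
      (∀ v : I → ℝ, |v ⬝ᵥ (R.rh A β *ᵥ v)| ≤ r * (v ⬝ᵥ v)) →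
      (∀ v : I → ℝ, |v ⬝ᵥ (R.rh Aᶜ β *ᵥ v)| ≤ r * (v ⬝ᵥ v)) →
      NBL β (C * (s + r + (1 / Fintype.card I + δ) * b)) := by
  obtain ⟨C1, hC11, hC1⟩ := Fast_form c0 m
  obtain ⟨Ch, hCh1, hCh⟩ := hs_TUT c0 m
  by_cases hc : 1 ≤ c0
  swap
  · exact ⟨1, le_rfl, fun L _ _ _ I _ _ R A x1 x2 z S T Pp c J0 g1 g2 _ hb => absurd hb.c1 hc⟩
  have hc0 : 0 < c0 := by linarith
  set m1 : ℝ := (m : ℝ) + 1 with hm1
  have hm11 : 1 ≤ m1 := by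
    have : (0 : ℝ) ≤ m := Nat.cast_nonneg m
    linarith
  set C2 : ℝ := 4 * c0 ^ 2 * m1 * Ch + 4 * c0 * C1 with hC2
  set C3 : ℝ := 4 * c0 * m1 * C2 with hC3
  set C4 : ℝ := 4 * c0 * m1 * Ch * (C2 + 1) with hC4
  have hC20 : 0 ≤ C2 := by positivity
  have hC30 : 0 ≤ C3 := by positivity
  have hC40 : 0 ≤ C4 := by positivity
  refine ⟨c0 * (C1 + C3 + C4) + 4 * c0 ^ 2 * m1 * (3 + Ch), ?_, ?_⟩
  · have e1 : 1 ≤ c0 * (C1 + C3 + C4) := by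
      have : 1 ≤ C1 + C3 + C4 := by linarith
      calc (1 : ℝ) = 1 * 1 := (one_mul 1).symm
        _ ≤ c0 * (C1 + C3 + C4) := by gcongr
    have e2 : 0 ≤ 4 * c0 ^ 2 * m1 * (3 + Ch) := by positivity
    linarith
  intro L _ _ _ I _ _ R A x1 x2 z S T Pp c J0 g1 g2 h hb hCM D lam mu δ hlam hmu hD β s r b hβ hcom hs0
    hr hb0 hβb hell hA hB
  have hform := hC1 L I R A x1 x2 z S T Pp c J0 g1 g2 h hb D lam mu δ hD β s r b hβ hcom hs0 hr hb0 hβb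
    hell hA hB
  have hTUT := hCh L I R A x1 x2 z S T Pp c J0 g1 g2 h hb β b hβ hb0 hβb
  obtain ⟨hTs, -⟩ := NBL_TUT h hb hβ hb0 hβb
  obtain ⟨hM1, hM2, hM0, -⟩ := R.n_bd hb.M1
  set M : ℝ := (Fintype.card I : ℝ) with hM
  have hδ := hD.δ0
  set ε0 : ℝ := s + r + (1 / M + δ) * b with hε0
  have hbM : b / M ≤ ε0 := by
    have : 0 ≤ δ * b := mul_nonneg hδ hb0
    have e : ε0 = s + r + b / M + δ * b := by rw [hε0]; ring
    linarith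
  have hε00 : 0 ≤ ε0 := le_trans (by positivity) hbM
  have hn0 := R.n0
  have hnM : 1 / R.n ≤ 2 * m1 / M := by
    rw [div_le_iff₀ (by positivity)] at hM1
    rw [div_le_div_iff₀ hn0 hM0]
    linarith
  have hMbig : 4 * c0 ^ 2 * m1 * (3 + Ch) ≤ M := by
    have : 0 ≤ c0 * (C1 + C3 + C4) := by positivity
    linarith
  have hMone : 1 ≤ M := by
    have e1 : (1 : ℝ) ≤ 4 * c0 ^ 2 * m1 * (3 + Ch) := by
      have h1 : (1 : ℝ) ≤ c0 ^ 2 := one_le_pow₀ hc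
      calc (1 : ℝ) ≤ 4 * 1 * 1 * (3 + 1) := by norm_num
        _ ≤ 4 * c0 ^ 2 * m1 * (3 + Ch) := by gcongr
    linarith
  have hlam0 : 0 < lam := lt_of_lt_of_le (by positivity) hlam
  have hmu0 : 0 < mu := lt_of_lt_of_le (by positivity) hmu
  have hlam1 : 1 / lam ≤ c0 := by
    rw [div_le_iff₀ hc0] at hlam
    rw [div_le_iff₀ hlam0]
    linarith
  have hmu1 : 1 / mu ≤ c0 := by
    rw [div_le_iff₀ hc0] at hmu
    rw [div_le_iff₀ hmu0]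
    linarith
  -- the weights
  have hx1 : |x1| ≤ c0 := by rw [abs_of_pos h.x1p]; exact hb.x1u
  have hx2 : |x2| ≤ c0 := by rw [abs_of_pos h.x2p]; exact hb.x2u
  have hy1 : |1 / x1| ≤ c0 := by
    rw [abs_of_pos (by have := h.x1p; positivity), div_le_iff₀ h.x1p]
    have := hb.x1l
    rw [div_le_iff₀ hc0] at this
    linarith
  have hy2 : |1 / x2| ≤ c0 := by
    rw [abs_of_pos (by have := h.x2p; positivity), div_le_iff₀ h.x2p]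
    have := hb.x2l
    rw [div_le_iff₀ hc0] at this
    linarith
  have h11 : |(1 : ℝ)| ≤ c0 := by rw [abs_one]; exact hc
  have hw := wt_le A hx1 hx2 h11
  have hw' := wt_le A hy1 hy2 h11
  -- the operators
  obtain ⟨W1, hW1s, hW1⟩ := R.exists_FAb (wt_symm A x1 x2 1) hβ
  obtain ⟨W2, hW2s, hW2⟩ := R.exists_FAb (wt_symm A (1 / x1) (1 / x2) 1) hTs
  obtain ⟨W3, hW3s, hW3⟩ := R.exists_FAb (wt_symm A (1 / x1) (1 / x2) 1) hβ
  have k1 := R.hs_FAb hw (R.tn β) hW1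
  have k2 := R.hs_FAb hw' (R.tn (T ∘ₗ β ∘ₗ T)) hW2
  have k3 := R.hs_FAb hw' (R.tn β) hW3
  set η : ℝ := hs (R.tn β) with hη
  have hη0 : 0 ≤ η := hs_nonneg _
  set Pk : L →ₗ[ℝ] L := LinearMap.id - Pp with hPk
  have hPkx : ∀ x, Pk x = x - Pp x := fun x => by rw [hPk]; rfl
  set U : L →ₗ[ℝ] L := (-lam) • β + (lam - mu) • (Pp ∘ₗ β ∘ₗ Pp) + (-(1 / 2) : ℝ) • (Pp ∘ₗ W1 ∘ₗ Pp) +
    (1 / 2 : ℝ) • (Pp ∘ₗ W2 ∘ₗ Pp) + (1 / 2 : ℝ) • W3 with hU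
  have hUs : QSym U := Fast_add (Fast_add (Fast_add (Fast_add (Fast_smul _ hβ)
    (Fast_smul _ (Fast_conj h.sP hβ))) (Fast_smul _ (Fast_conj h.sP hW1s)))
    (Fast_smul _ (Fast_conj h.sP hW2s))) (Fast_smul _ hW3s)
  have hUq : ∀ y, Qf L (U y) y = -lam * Qf L (β y) y + (lam - mu) * Qf L (β (Pp y)) (Pp y) -
          1 / 2 * (FAb (wt A x1 x2 1) (R.tn β) (R.ph (Pp y)) (R.ph (Pp y)) -
            FAb (wt A (1 / x1) (1 / x2) 1) (R.tn (T ∘ₗ β ∘ₗ T)) (R.ph (Pp y)) (R.ph (Pp y))) +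
          1 / 2 * FAb (wt A (1 / x1) (1 / x2) 1) (R.tn β) (R.ph y) (R.ph y) := by
    intro y
    rw [← hW1, ← hW2, ← hW3, hU]
    simp only [LinearMap.add_apply, LinearMap.smul_apply, LinearMap.comp_apply, map_add, map_smul,
      smul_eq_mul]
    rw [h.sP (β (Pp y)) y, h.sP (W1 (Pp y)) y, h.sP (W2 (Pp y)) y]
    ring
  have hUb : NBL U (C1 * ε0) := fun y => by rw [hUq]; exact hform y
  have hUhs : hs (R.tn U) ≤ M * (C1 * ε0) := R.hs_tn hUs (by positivity) hUb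
  -- the decomposition of `β`
  have dec : β = (1 / lam) • (Pk ∘ₗ ((1 / 2 : ℝ) • W3 + (-1 : ℝ) • U) ∘ₗ Pk) +
      (1 / mu) • (Pp ∘ₗ (((1 / 2 : ℝ) • W3 + (-1 : ℝ) • U) + (-(1 / 2) : ℝ) • W1 + (1 / 2 : ℝ) • W2) ∘ₗ Pp) := by
    have hPP : ∀ x, Pp (x - Pp x) = 0 := fun x => by rw [map_sub, h.P2, sub_self]
    have e1 : Pk ∘ₗ ((1 / 2 : ℝ) • W3 + (-1 : ℝ) • U) ∘ₗ Pk = lam • (Pk ∘ₗ β ∘ₗ Pk) := by
      ext x
      simp only [LinearMap.comp_apply, LinearMap.add_apply, LinearMap.smul_apply, hU, hPkx, hPP, map_zero,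
        smul_zero, add_zero, map_add, map_smul]
      module
    have e2 : Pp ∘ₗ (((1 / 2 : ℝ) • W3 + (-1 : ℝ) • U) + (-(1 / 2) : ℝ) • W1 + (1 / 2 : ℝ) • W2) ∘ₗ Pp =
        mu • (Pp ∘ₗ β ∘ₗ Pp) := by
      ext x
      simp only [LinearMap.comp_apply, LinearMap.add_apply, LinearMap.smul_apply, hU, h.P2, map_add, map_smul]
      module
    rw [e1, e2, smul_smul, smul_smul, one_div_mul_cancel hlam0.ne', one_div_mul_cancel hmu0.ne', one_smul,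
      one_smul]
    ext x
    simp only [LinearMap.comp_apply, LinearMap.add_apply, hPkx, map_sub, hcom, h.P2]
    abel
  -- the Hilbert-Schmidt norm
  have hV : hs (R.tn ((1 / 2 : ℝ) • W3 + (-1 : ℝ) • U)) ≤ 1 / 2 * hs (R.tn W3) + hs (R.tn U) := by
    refine (Fast_hs_add R _ _).trans ?_
    have a1 := Fast_hs_smul R (1 / 2 : ℝ) W3
    have a2 := Fast_hs_smul R (-1 : ℝ) U
    rw [abs_of_pos (by norm_num : (0 : ℝ) < 1 / 2)] at a1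
    rw [abs_neg, abs_one, one_mul] at a2
    exact add_le_add a1 a2
  have hV2 : hs (R.tn (((1 / 2 : ℝ) • W3 + (-1 : ℝ) • U) + (-(1 / 2) : ℝ) • W1 + (1 / 2 : ℝ) • W2)) ≤
      1 / 2 * hs (R.tn W3) + hs (R.tn U) + 1 / 2 * hs (R.tn W1) + 1 / 2 * hs (R.tn W2) := by
    refine (Fast_hs_add R _ _).trans (add_le_add ((Fast_hs_add R _ _).trans (add_le_add hV ?_)) ?_)
    · have a1 := Fast_hs_smul R (-(1 / 2) : ℝ) W1
      rwa [abs_neg, abs_of_pos (by norm_num : (0 : ℝ) < 1 / 2)] at a1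
    · have a1 := Fast_hs_smul R (1 / 2 : ℝ) W2
      rwa [abs_of_pos (by norm_num : (0 : ℝ) < 1 / 2)] at a1
  have hη1 : η ≤ c0 * (1 / 2 * hs (R.tn W3) + hs (R.tn U)) +
      c0 * (1 / 2 * hs (R.tn W3) + hs (R.tn U) + 1 / 2 * hs (R.tn W1) + 1 / 2 * hs (R.tn W2)) := by
    rw [hη]
    nth_rewrite 1 [dec]
    refine (Fast_hs_add R _ _).trans (add_le_add ?_ ?_)
    · refine (Fast_hs_smul R _ _).trans ?_
      rw [abs_of_pos (by positivity)]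
      exact mul_le_mul hlam1 ((h.hs_cut _).2.trans hV) (hs_nonneg _) hc0.le
    · refine (Fast_hs_smul R _ _).trans ?_
      rw [abs_of_pos (by positivity)]
      exact mul_le_mul hmu1 ((h.hs_cut _).1.trans hV2) (hs_nonneg _) hc0.le
  have hn2 : 2 * c0 / R.n ≤ 4 * c0 * m1 / M := by
    calc 2 * c0 / R.n = 2 * c0 * (1 / R.n) := by ring
      _ ≤ 2 * c0 * (2 * m1 / M) := by gcongr
      _ = 4 * c0 * m1 / M := by ring
  have j1 : hs (R.tn W1) ≤ 4 * c0 * m1 / M * η := k1.trans (by gcongr)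
  have j3 : hs (R.tn W3) ≤ 4 * c0 * m1 / M * η := k3.trans (by gcongr)
  have j2 : hs (R.tn W2) ≤ 4 * c0 * m1 / M * (Ch * (η + b)) :=
    k2.trans (mul_le_mul hn2 hTUT (hs_nonneg _) (by positivity))
  have hη2 : η ≤ 2 * c0 ^ 2 * m1 * (3 + Ch) / M * η + 2 * c0 ^ 2 * m1 * Ch * (b / M) + 2 * c0 * C1 * (M * ε0) := by
    calc η ≤ c0 * (1 / 2 * hs (R.tn W3) + hs (R.tn U)) +
      c0 * (1 / 2 * hs (R.tn W3) + hs (R.tn U) + 1 / 2 * hs (R.tn W1) + 1 / 2 * hs (R.tn W2)) := hη1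
      _ ≤ c0 * (1 / 2 * (4 * c0 * m1 / M * η) + M * (C1 * ε0)) +
      c0 * (1 / 2 * (4 * c0 * m1 / M * η) + M * (C1 * ε0) + 1 / 2 * (4 * c0 * m1 / M * η) +
        1 / 2 * (4 * c0 * m1 / M * (Ch * (η + b)))) := by gcongr
      _ = 2 * c0 ^ 2 * m1 * (3 + Ch) / M * η + 2 * c0 ^ 2 * m1 * Ch * (b / M) + 2 * c0 * C1 * (M * ε0) := by
        field_simp
        ring
  have hη3 : 2 * c0 ^ 2 * m1 * (3 + Ch) / M ≤ 1 / 2 := by
    rw [div_le_iff₀ hM0]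
    linarith
  have hε1 : ε0 ≤ M * ε0 := le_mul_of_one_le_left hε00 hMone
  have hη4 : η ≤ C2 * (M * ε0) := by
    have a1 : 2 * c0 ^ 2 * m1 * (3 + Ch) / M * η ≤ 1 / 2 * η := by gcongr
    have a2 : 2 * c0 ^ 2 * m1 * Ch * (b / M) ≤ 2 * c0 ^ 2 * m1 * Ch * (M * ε0) := by
      have : b / M ≤ M * ε0 := hbM.trans hε1
      gcongr
    have a3 : C2 * (M * ε0) = 2 * (2 * c0 ^ 2 * m1 * Ch * (M * ε0) + 2 * c0 * C1 * (M * ε0)) := by
      rw [hC2]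
      ring
    rw [a3]
    linarith
  -- the bounds of the `FAb`
  have hFb : ∀ (w : I → I → ℝ), (∀ a b, |w a b| ≤ c0) → ∀ y : L,
      |FAb w (R.tn β) (R.ph y) (R.ph y)| ≤ C3 * ε0 * Qf L y y := by
    intro w hw y
    have a1 := FAb_le hw (R.tn β) (R.ph y) (R.ph y)
    have a2 := R.Qf_mn y
    have hq : 0 ≤ Qf L y y := Fast_nn R y
    have a3 : mn (R.ph y) * mn (R.ph y) = 1 / R.n * Qf L y y := by
      rw [a2]
      field_simp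
    rw [a3] at a1
    calc |FAb w (R.tn β) (R.ph y) (R.ph y)| ≤ 2 * c0 * η * (1 / R.n * Qf L y y) := a1
      _ ≤ 2 * c0 * (C2 * (M * ε0)) * (2 * m1 / M * Qf L y y) := by gcongr
      _ = C3 * ε0 * Qf L y y := by
        rw [hC3]
        field_simp
        ring
  have hFT : ∀ y : L, |FAb (wt A (1 / x1) (1 / x2) 1) (R.tn (T ∘ₗ β ∘ₗ T)) (R.ph y) (R.ph y)| ≤
      C4 * ε0 * Qf L y y := by
    intro y
    have a1 := FAb_le hw' (R.tn (T ∘ₗ β ∘ₗ T)) (R.ph y) (R.ph y)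
    have a2 := R.Qf_mn y
    have hq : 0 ≤ Qf L y y := Fast_nn R y
    have a3 : mn (R.ph y) * mn (R.ph y) = 1 / R.n * Qf L y y := by
      rw [a2]
      field_simp
    rw [a3] at a1
    have a4 : b ≤ M * ε0 := by
      rw [div_le_iff₀ hM0] at hbM
      linarith
    calc |FAb (wt A (1 / x1) (1 / x2) 1) (R.tn (T ∘ₗ β ∘ₗ T)) (R.ph y) (R.ph y)|
        ≤ 2 * c0 * hs (R.tn (T ∘ₗ β ∘ₗ T)) * (1 / R.n * Qf L y y) := a1
      _ ≤ 2 * c0 * (Ch * (C2 * (M * ε0) + M * ε0)) * (2 * m1 / M * Qf L y y) := by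
        have a5 : hs (R.tn (T ∘ₗ β ∘ₗ T)) ≤ Ch * (C2 * (M * ε0) + M * ε0) :=
          hTUT.trans (by gcongr)
        gcongr
      _ = C4 * ε0 * Qf L y y := by
        rw [hC4]
        field_simp
        ring
  -- the two parts
  have hk : ∀ y : L, Pp y = 0 → |Qf L (β y) y| ≤ c0 * (C1 + C3 + C4) * ε0 * Qf L y y := by
    intro y hy
    have a1 := hform y
    have hq : 0 ≤ Qf L y y := Fast_nn R y
    rw [hy] at a1
    have a2 : ∀ (w : I → I → ℝ) (t : I → I → I → I → ℝ), FAb w t (R.ph (0 : L)) (R.ph (0 : L)) = 0 := by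
      intro w t
      simp [FAb]
    rw [a2, a2, map_zero β, map_zero (Qf L), LinearMap.zero_apply] at a1
    have a3 := hFb _ hw' y
    have a4 : lam * |Qf L (β y) y| ≤ (C1 + C3) * ε0 * Qf L y y := by
      rw [← abs_of_pos hlam0, ← abs_mul]
      rw [abs_le] at a1 a3 ⊢
      obtain ⟨b1, b2⟩ := a1
      obtain ⟨b3, b4⟩ := a3
      have : 0 ≤ C3 * ε0 * Qf L y y := by positivity
      constructor <;> linarith
    calc |Qf L (β y) y| = 1 / lam * (lam * |Qf L (β y) y|) := by field_simp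
      _ ≤ c0 * ((C1 + C3) * ε0 * Qf L y y) := mul_le_mul hlam1 a4 (by positivity) hc0.le
      _ ≤ c0 * ((C1 + C3 + C4) * ε0 * Qf L y y) :=
        mul_le_mul_of_nonneg_left (mul_le_mul_of_nonneg_right (mul_le_mul_of_nonneg_right
          (by linarith) hε00) hq) hc0.le
      _ = c0 * (C1 + C3 + C4) * ε0 * Qf L y y := by ring
  have hp : ∀ y : L, Pp y = y → |Qf L (β y) y| ≤ c0 * (C1 + C3 + C4) * ε0 * Qf L y y := by
    intro y hy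
    have a1 := hform y
    have hq : 0 ≤ Qf L y y := Fast_nn R y
    rw [hy] at a1
    have a3 := hFb _ hw' y
    have a5 := hFb _ hw y
    have a6 := hFT y
    have a4 : mu * |Qf L (β y) y| ≤ (C1 + C3 + C4) * ε0 * Qf L y y := by
      rw [← abs_of_pos hmu0, ← abs_mul]
      rw [abs_le] at a1 a3 a5 a6 ⊢
      obtain ⟨b1, b2⟩ := a1
      obtain ⟨b3, b4⟩ := a3
      obtain ⟨b5, b6⟩ := a5
      obtain ⟨b7, b8⟩ := a6
      have : 0 ≤ C4 * ε0 * Qf L y y := by positivity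
      constructor <;> linarith
    calc |Qf L (β y) y| = 1 / mu * (mu * |Qf L (β y) y|) := by field_simp
      _ ≤ c0 * ((C1 + C3 + C4) * ε0 * Qf L y y) := mul_le_mul hmu1 a4 (by positivity) hc0.le
      _ = c0 * (C1 + C3 + C4) * ε0 * Qf L y y := by ring
  intro y
  have q1 : Qf L (Pp y) (y - Pp y) = 0 := by
    rw [h.sP y (y - Pp y), map_sub, h.P2, sub_self, map_zero]
  have q2 : Qf L (y - Pp y) (Pp y) = 0 := by rw [Qf_symm, q1]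
  have q3 : Qf L (β (Pp y)) (y - Pp y) = 0 := by
    rw [hcom, h.sP (β y) (y - Pp y), map_sub, h.P2, sub_self, map_zero]
  have q4 : Qf L (β (y - Pp y)) (Pp y) = 0 := by rw [hβ, Qf_symm, q3]
  have e1 : Qf L y y = Qf L (y - Pp y) (y - Pp y) + Qf L (Pp y) (Pp y) := by
    have e0 : Qf L ((y - Pp y) + Pp y) ((y - Pp y) + Pp y) =
        Qf L (y - Pp y) (y - Pp y) + Qf L (Pp y) (Pp y) := by
      rw [map_add (Qf L), LinearMap.add_apply, map_add (Qf L (y - Pp y)), map_add (Qf L (Pp y)), q1, q2]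
      ring
    rwa [sub_add_cancel] at e0
  have e2 : Qf L (β y) y = Qf L (β (y - Pp y)) (y - Pp y) + Qf L (β (Pp y)) (Pp y) := by
    have e0 : Qf L (β ((y - Pp y) + Pp y)) ((y - Pp y) + Pp y) =
        Qf L (β (y - Pp y)) (y - Pp y) + Qf L (β (Pp y)) (Pp y) := by
      rw [map_add β, map_add (Qf L), LinearMap.add_apply, map_add (Qf L (β (y - Pp y))),
        map_add (Qf L (β (Pp y))), q3, q4]
      ring
    rwa [sub_add_cancel] at e0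
  have f1 := hk (y - Pp y) (by rw [map_sub, h.P2, sub_self])
  have f2 := hp (Pp y) (h.P2 y)
  have hq : 0 ≤ Qf L y y := Fast_nn R y
  have f3 : |Qf L (β y) y| ≤ c0 * (C1 + C3 + C4) * ε0 * Qf L y y := by
    rw [e2]
    refine (abs_add_le _ _).trans ?_
    rw [e1]
    linarith
  refine f3.trans ?_
  have : c0 * (C1 + C3 + C4) * ε0 ≤ (c0 * (C1 + C3 + C4) + 4 * c0 ^ 2 * m1 * (3 + Ch)) * ε0 := by
    have : 0 ≤ 4 * c0 ^ 2 * m1 * (3 + Ch) := by positivity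
    gcongr
    linarith
  gcongr

end Pool.Agent.EinV
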