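import Pool.Agent.EinV.Rh

/-!
# The contraction of the fast part

`ph (zz v e_b)` is a combination of `2 (m + 1)` matrices of rank one and norm at most `|v|`, with coefficients `± 1 / (2 (m+1))`, and of
`- (v ⬝ᵥ J e_b / M) J` (`ph_zz`).  `FAb` of two matrices of rank one is at most `8 c' b |v|²` (`FAb_rank`, `N1_tn`); `FAb` of `J` and a matrix
`Z` is at most `2 c' (M b) √M mn Z` (`FAb_le`, `hs_tn`, `mn J ≤ √M`), and `∑ b, |v ⬝ᵥ J e_b| ≤ √M |v|`, `∑ b, |v ⬝ᵥ J e_b|² ≤ |v|²`.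
So `∑ b, |FAb K_b K_b| ≤ C M b |v|²`.
-/

namespace Pool.Agent.EinV

open Matrix Pool.Agent.EStab Pool.Agent.EinS Pool.Agent.SmIso Pool.Agent.EinU Pool.Agent.EinG

section Bil

variable {I : Type} [Fintype I] [DecidableEq I]

private noncomputable def FL (w : I → I → ℝ) (t : I → I → I → I → ℝ) :
    Matrix I I ℝ →ₗ[ℝ] Matrix I I ℝ →ₗ[ℝ] ℝ :=
  LinearMap.mk₂ ℝ (fun Z Z' => FAb w t Z Z')
    (by
      intro Z1 Z2 Z'
      simp only [FAb, Matrix.add_apply, ← Finset.sum_add_distrib]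
      refine Finset.sum_congr rfl fun a _ => Finset.sum_congr rfl fun b _ =>
        Finset.sum_congr rfl fun c _ => Finset.sum_congr rfl fun d _ => ?_
      ring)
    (by
      intro r Z Z'
      simp only [FAb, Matrix.smul_apply, smul_eq_mul, Finset.mul_sum]
      refine Finset.sum_congr rfl fun a _ => Finset.sum_congr rfl fun b _ =>
        Finset.sum_congr rfl fun c _ => Finset.sum_congr rfl fun d _ => ?_
      ring)
    (by
      intro Z Z1 Z2
      simp only [FAb, Matrix.add_apply, ← Finset.sum_add_distrib]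
      refine Finset.sum_congr rfl fun a _ => Finset.sum_congr rfl fun b _ =>
        Finset.sum_congr rfl fun c _ => Finset.sum_congr rfl fun d _ => ?_
      ring)
    (by
      intro r Z Z'
      simp only [FAb, Matrix.smul_apply, smul_eq_mul, Finset.mul_sum]
      refine Finset.sum_congr rfl fun a _ => Finset.sum_congr rfl fun b _ =>
        Finset.sum_congr rfl fun c _ => Finset.sum_congr rfl fun d _ => ?_
      ring)

omit [DecidableEq I] in
private theorem FL_apply (w : I → I → ℝ) (t : I → I → I → I → ℝ) (Z Z' : Matrix I I ℝ) :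
    FL w t Z Z' = FAb w t Z Z' := rfl

omit [DecidableEq I] in
private theorem FL_rank_sum {κ : Type} [Fintype κ] (w : I → I → ℝ) (t : I → I → I → I → ℝ)
    (p q : κ → I → ℝ) {s : ℝ}
    (h : ∀ i j, |FL w t (vecMulVec (p i) (q i)) (vecMulVec (p j) (q j))| ≤ s ∧
      |FL w t (vecMulVec (p i) (q i)) (vecMulVec (q j) (p j))| ≤ s ∧
      |FL w t (vecMulVec (q i) (p i)) (vecMulVec (p j) (q j))| ≤ s ∧
      |FL w t (vecMulVec (q i) (p i)) (vecMulVec (q j) (p j))| ≤ s) :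
    |FL w t (∑ i, (vecMulVec (p i) (q i) - vecMulVec (q i) (p i)))
      (∑ i, (vecMulVec (p i) (q i) - vecMulVec (q i) (p i)))| ≤
      (Fintype.card κ : ℝ) ^ 2 * (4 * s) := by
  have e1 : FL w t (∑ i, (vecMulVec (p i) (q i) - vecMulVec (q i) (p i)))
      (∑ i, (vecMulVec (p i) (q i) - vecMulVec (q i) (p i))) =
      ∑ i, ∑ j, FL w t (vecMulVec (p i) (q i) - vecMulVec (q i) (p i))
        (vecMulVec (p j) (q j) - vecMulVec (q j) (p j)) := by
    simp only [map_sum, LinearMap.sum_apply]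
    exact Finset.sum_comm
  rw [e1]
  calc |∑ i, ∑ j, FL w t (vecMulVec (p i) (q i) - vecMulVec (q i) (p i))
        (vecMulVec (p j) (q j) - vecMulVec (q j) (p j))| ≤
        ∑ i, |∑ j, FL w t (vecMulVec (p i) (q i) - vecMulVec (q i) (p i))
        (vecMulVec (p j) (q j) - vecMulVec (q j) (p j))| := Finset.abs_sum_le_sum_abs _ _
    _ ≤ ∑ _i : κ, ∑ _j : κ, 4 * s := by
        refine Finset.sum_le_sum fun i _ => ?_
        refine (Finset.abs_sum_le_sum_abs _ _).trans ?_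
        refine Finset.sum_le_sum fun j _ => ?_
        obtain ⟨h1, h2, h3, h4⟩ := h i j
        simp only [map_sub, LinearMap.sub_apply]
        rw [abs_le] at h1 h2 h3 h4 ⊢
        constructor <;> linarith [h1.1, h1.2, h2.1, h2.2, h3.1, h3.2, h4.1, h4.2]
    _ = (Fintype.card κ : ℝ) ^ 2 * (4 * s) := by
        simp only [Finset.sum_const, Finset.card_univ, nsmul_eq_mul]
        ring

end Bil

section J

variable {L : Type} [LieRing L] [LieAlgebra ℝ L] {I : Type} [Fintype I] [DecidableEq I] {m : ℕ}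
  (R : Rp L I m)

private theorem mnJ : mn R.J ≤ √(Fintype.card I : ℝ) := by
  rcases R.JJ with h | h
  · rw [h]
    have : mn (0 : Matrix I I ℝ) = 0 := by simp [mn]
    rw [this]
    exact Real.sqrt_nonneg _
  · refine le_of_eq ?_
    rw [mn]
    congr 1
    have h1 : ∀ b, ∑ a, R.J a b ^ 2 = 1 := by
      intro b
      have h2 := congrFun (congrFun h b) b
      rw [Matrix.mul_apply, Matrix.one_apply_eq] at h2
      rw [← h2]
      refine Finset.sum_congr rfl fun a _ => ?_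
      rw [Matrix.transpose_apply]
      ring
    rw [Finset.sum_comm]
    simp [h1]

private theorem sumJ (v : I → ℝ) :
    ∑ b, (v ⬝ᵥ (R.J *ᵥ (Pi.single b 1))) ^ 2 ≤ v ⬝ᵥ v := by
  have hvv : 0 ≤ v ⬝ᵥ v := by
    rw [dotProduct]
    exact Finset.sum_nonneg fun i _ => mul_self_nonneg _
  rcases R.JJ with h | h
  · rw [h]
    simp only [zero_mulVec, dotProduct_zero]
    simpa using hvv
  · have h0 : R.J * R.Jᵀ = 1 := mul_eq_one_comm.1 h
    refine le_of_eq ?_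
    have h1 : ∀ b, v ⬝ᵥ (R.J *ᵥ (Pi.single b 1)) = (v ᵥ* R.J) b := by
      intro b
      rw [dotProduct_mulVec, dotProduct_single, mul_one]
    calc ∑ b, (v ⬝ᵥ (R.J *ᵥ (Pi.single b 1))) ^ 2 = ∑ b, (v ᵥ* R.J) b * (R.Jᵀ *ᵥ v) b := by
          refine Finset.sum_congr rfl fun b _ => ?_
          rw [h1, mulVec_transpose, pow_two]
      _ = (v ᵥ* R.J) ⬝ᵥ (R.Jᵀ *ᵥ v) := rfl
      _ = v ⬝ᵥ v := by rw [← dotProduct_mulVec, mulVec_mulVec, h0, one_mulVec]

private theorem orth_dot {f : Matrix I I ℝ} (h : fᵀ * f = 1) (v : I → ℝ) :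
    (f *ᵥ v) ⬝ᵥ (f *ᵥ v) = v ⬝ᵥ v := by
  rw [dotProduct_mulVec, vecMul_mulVec, ← dotProduct_mulVec]
  rw [h, one_mulVec]

end J

theorem fast_contr (c0 : ℝ) (m : ℕ) : ∃ C : ℝ, 1 ≤ C ∧ ∀ (L : Type) [LieRing L] [LieAlgebra ℝ L]
    (I : Type) [Fintype I] [DecidableEq I] (R : Rp L I m) (A : Finset I),
    4 * ((m : ℝ) + 1) ≤ Fintype.card I →
    ∀ (U : L →ₗ[ℝ] L) (b : ℝ), QSym U → 0 ≤ b → NBL U b →
    ∀ (u1 u2 t : ℝ), |u1| ≤ c0 → |u2| ≤ c0 → |t| ≤ c0 → ∀ (B : Finset I) (v : I → ℝ),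
      |1 / R.n ^ 2 * ∑ b' ∈ B, FAb (wt A u1 u2 t) (R.tn U) (R.ph (R.zz v (Pi.single b' 1)))
          (R.ph (R.zz v (Pi.single b' 1)))| ≤
        C / Fintype.card I * b * (v ⬝ᵥ v) := by
  refine ⟨56 * ((m : ℝ) + 1) ^ 2 * |c0| + 1, le_add_of_nonneg_left (by positivity), ?_⟩
  intro L _ _ I _ _ R A hM U b hU hb hUb u1 u2 t h1 h2 h3 B v
  have hc0 : 0 ≤ c0 := (abs_nonneg _).trans h1
  rw [abs_of_nonneg hc0]
  obtain ⟨hn1, hn2, hM0, hn3⟩ := R.n_bd hM
  obtain ⟨M, hMd⟩ : ∃ M : ℝ, M = (Fintype.card I : ℝ) := ⟨_, rfl⟩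
  rw [← hMd] at hn1 hn2 hM0 hn3 hM ⊢
  have hvv : 0 ≤ v ⬝ᵥ v := by
    rw [dotProduct]
    exact Finset.sum_nonneg fun i _ => mul_self_nonneg _
  obtain ⟨N, hN⟩ : ∃ N : ℝ, N = √(v ⬝ᵥ v) := ⟨_, rfl⟩
  have hN0 : 0 ≤ N := by rw [hN]; exact Real.sqrt_nonneg _
  have hNN : N * N = v ⬝ᵥ v := by rw [hN]; exact Real.mul_self_sqrt hvv
  have hsM0 : 0 ≤ √M := Real.sqrt_nonneg _
  have hsMM : √M * √M = M := Real.mul_self_sqrt hM0.le
  have hhs : hs (R.tn U) ≤ M * b := by rw [hMd]; exact R.hs_tn hU hb hUb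
  have hhs0 : 0 ≤ hs (R.tn U) := hs_nonneg _
  have hmJ : mn R.J ≤ √M := by rw [hMd]; exact mnJ R
  have hmJ0 : 0 ≤ mn R.J := mn_nonneg _
  have hN1 := R.N1_tn hU hb hUb
  have hwt : ∀ a b, |wt A u1 u2 t a b| ≤ c0 := wt_le A h1 h2 h3
  -- the pieces
  have key : ∀ i : I, |FAb (wt A u1 u2 t) (R.tn U) (R.ph (R.zz v (Pi.single i 1)))
      (R.ph (R.zz v (Pi.single i 1)))| ≤ 8 * c0 * b * (N * N) +
        |v ⬝ᵥ (R.J *ᵥ (Pi.single i 1))| * (4 * c0 * b * √M * N) +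
        (v ⬝ᵥ (R.J *ᵥ (Pi.single i 1))) ^ 2 * (2 * c0 * b) := by
    intro i
    obtain ⟨w, hw⟩ : ∃ w : I → ℝ, w = Pi.single i 1 := ⟨_, rfl⟩
    rw [← hw]
    have hww : w ⬝ᵥ w = 1 := by rw [hw, single_dotProduct, Pi.single_eq_same, mul_one]
    obtain ⟨K, hK⟩ : ∃ K : Matrix I I ℝ, K = R.ph (R.zz v w) := ⟨_, rfl⟩
    obtain ⟨s, hs⟩ : ∃ s : ℝ, s = v ⬝ᵥ (R.J *ᵥ w) := ⟨_, rfl⟩
    rw [← hK, ← hs]
    have hmK : mn K ≤ N := by
      have := R.mn_zz_le v w
      rwa [hww, Real.sqrt_one, mul_one, ← hK, ← hN] at this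
    have hmK0 : 0 ≤ mn K := mn_nonneg _
    let p : Option (Fin m) → I → ℝ := fun o => o.elim v fun k => R.f k *ᵥ v
    let q : Option (Fin m) → I → ℝ := fun o => o.elim w fun k => R.f k *ᵥ w
    have hp : ∀ o, p o ⬝ᵥ p o = v ⬝ᵥ v := by
      rintro (_ | k)
      · rfl
      · exact orth_dot (R.fo k) v
    have hq : ∀ o, q o ⬝ᵥ q o = 1 := by
      rintro (_ | k)
      · exact hww
      · exact (orth_dot (R.fo k) w).trans hww
    obtain ⟨X, hX⟩ : ∃ X : Matrix I I ℝ,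
        X = ∑ o, (vecMulVec (p o) (q o) - vecMulVec (q o) (p o)) := ⟨_, rfl⟩
    have hKX : (1 / (2 * ((m : ℝ) + 1))) • X = K + (s / M) • R.J := by
      rw [hK, R.ph_zz v w, ← hs, hMd, hX, Fintype.sum_option]
      simp only [sub_add_cancel]
      rfl
    have hFX : |FL (wt A u1 u2 t) (R.tn U) X X| ≤ ((m : ℝ) + 1) ^ 2 * (4 * (8 * c0 * b * (N * N))) := by
      have hcard : (Fintype.card (Option (Fin m)) : ℝ) = (m : ℝ) + 1 := by
        rw [Fintype.card_option, Fintype.card_fin]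
        push_cast
        rfl
      rw [hX, ← hcard]
      refine FL_rank_sum _ _ p q fun i j => ⟨?_, ?_, ?_, ?_⟩ <;>
      · refine (FAb_rank A h1 h2 h3 hb hN1 _ _ _ _).trans (le_of_eq ?_)
        rw [hp, hp, hq, hq, Real.sqrt_one, ← hN]
        ring
    have hmm : 0 < (m : ℝ) + 1 := by positivity
    -- expansion
    have e1 : FAb (wt A u1 u2 t) (R.tn U) K K =
        (1 / (2 * ((m : ℝ) + 1))) ^ 2 * FL (wt A u1 u2 t) (R.tn U) X X -
          (s / M) * FAb (wt A u1 u2 t) (R.tn U) K R.J - (s / M) * FAb (wt A u1 u2 t) (R.tn U) R.J K -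
          (s / M) ^ 2 * FAb (wt A u1 u2 t) (R.tn U) R.J R.J := by
      have e2 : FL (wt A u1 u2 t) (R.tn U) (K + (s / M) • R.J) (K + (s / M) • R.J) =
          (1 / (2 * ((m : ℝ) + 1))) ^ 2 * FL (wt A u1 u2 t) (R.tn U) X X := by
        rw [← hKX]
        simp only [map_smul, LinearMap.smul_apply, smul_eq_mul]
        ring
      rw [← e2]
      simp only [map_add, map_smul, LinearMap.add_apply, LinearMap.smul_apply, smul_eq_mul, FL_apply]
      ring
    have b1 : |FAb (wt A u1 u2 t) (R.tn U) K R.J| ≤ 2 * c0 * (M * b) * (N * √M) := by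
      refine (FAb_le hwt _ _ _).trans ?_
      refine mul_le_mul (mul_le_mul_of_nonneg_left hhs (by positivity))
        (mul_le_mul hmK hmJ hmJ0 hN0) (by positivity) (by positivity)
    have b2 : |FAb (wt A u1 u2 t) (R.tn U) R.J K| ≤ 2 * c0 * (M * b) * (N * √M) := by
      refine (FAb_le hwt _ _ _).trans ?_
      rw [mul_comm N]
      refine mul_le_mul (mul_le_mul_of_nonneg_left hhs (by positivity))
        (mul_le_mul hmJ hmK hmK0 hsM0) (by positivity) (by positivity)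
    have b3 : |FAb (wt A u1 u2 t) (R.tn U) R.J R.J| ≤ 2 * c0 * (M * b) * (√M * √M) := by
      refine (FAb_le hwt _ _ _).trans ?_
      refine mul_le_mul (mul_le_mul_of_nonneg_left hhs (by positivity))
        (mul_le_mul hmJ hmJ hmJ0 hsM0) (by positivity) (by positivity)
    have c1 : |(1 / (2 * ((m : ℝ) + 1))) ^ 2 * FL (wt A u1 u2 t) (R.tn U) X X| ≤
        8 * c0 * b * (N * N) := by
      rw [abs_mul, abs_of_nonneg (by positivity)]
      refine (mul_le_mul_of_nonneg_left hFX (by positivity)).trans (le_of_eq ?_)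
      field_simp
      ring
    have c2 : |(s / M) * FAb (wt A u1 u2 t) (R.tn U) K R.J| ≤ |s| * (2 * c0 * b * √M * N) := by
      rw [abs_mul, abs_div, abs_of_pos hM0]
      refine (mul_le_mul_of_nonneg_left b1 (by positivity)).trans (le_of_eq ?_)
      field_simp
    have c3 : |(s / M) * FAb (wt A u1 u2 t) (R.tn U) R.J K| ≤ |s| * (2 * c0 * b * √M * N) := by
      rw [abs_mul, abs_div, abs_of_pos hM0]
      refine (mul_le_mul_of_nonneg_left b2 (by positivity)).trans (le_of_eq ?_)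
      field_simp
    have c4 : |(s / M) ^ 2 * FAb (wt A u1 u2 t) (R.tn U) R.J R.J| ≤ s ^ 2 * (2 * c0 * b) := by
      rw [abs_mul, abs_of_nonneg (by positivity)]
      refine (mul_le_mul_of_nonneg_left b3 (by positivity)).trans (le_of_eq ?_)
      rw [hsMM]
      field_simp
    rw [e1]
    rw [abs_le] at c1 c2 c3 c4 ⊢
    constructor <;> linarith [c1.1, c1.2, c2.1, c2.2, c3.1, c3.2, c4.1, c4.2]
  -- summation
  have hBM : (B.card : ℝ) ≤ M := by
    rw [hMd]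
    exact_mod_cast Finset.card_le_univ B
  have s2 : ∑ i ∈ B, (v ⬝ᵥ (R.J *ᵥ (Pi.single i 1))) ^ 2 ≤ N * N := by
    rw [hNN]
    refine le_trans ?_ (sumJ R v)
    exact Finset.sum_le_sum_of_subset_of_nonneg (Finset.subset_univ _) fun i _ _ => sq_nonneg _
  have s1 : ∑ i ∈ B, |v ⬝ᵥ (R.J *ᵥ (Pi.single i 1))| ≤ √M * N := by
    have hcs := Finset.sum_mul_sq_le_sq_mul_sq B (fun _ => (1 : ℝ))
      fun i => |v ⬝ᵥ (R.J *ᵥ (Pi.single i 1))|
    simp only [one_mul, one_pow, Finset.sum_const, nsmul_eq_mul, mul_one, sq_abs] at hcs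
    have h5 : (B.card : ℝ) * ∑ i ∈ B, (v ⬝ᵥ (R.J *ᵥ (Pi.single i 1))) ^ 2 ≤ M * (N * N) :=
      mul_le_mul hBM s2 (Finset.sum_nonneg fun i _ => sq_nonneg _) hM0.le
    have h6 : (∑ i ∈ B, |v ⬝ᵥ (R.J *ᵥ (Pi.single i 1))|) ^ 2 ≤ (√M * N) ^ 2 := by
      refine (hcs.trans h5).trans (le_of_eq ?_)
      calc M * (N * N) = (√M * √M) * (N * N) := by rw [hsMM]
        _ = (√M * N) ^ 2 := by ring
    exact le_of_abs_le (sq_le_sq.1 h6 |>.trans (le_of_eq (abs_of_nonneg (by positivity))))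
  have hsum : |∑ i ∈ B, FAb (wt A u1 u2 t) (R.tn U) (R.ph (R.zz v (Pi.single i 1)))
      (R.ph (R.zz v (Pi.single i 1)))| ≤ 14 * c0 * b * M * (N * N) := by
    refine (Finset.abs_sum_le_sum_abs _ _).trans ?_
    refine (Finset.sum_le_sum fun i _ => key i).trans ?_
    rw [Finset.sum_add_distrib, Finset.sum_add_distrib, Finset.sum_const, nsmul_eq_mul,
      ← Finset.sum_mul, ← Finset.sum_mul]
    have g1 : (B.card : ℝ) * (8 * c0 * b * (N * N)) ≤ M * (8 * c0 * b * (N * N)) :=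
      mul_le_mul_of_nonneg_right hBM (by positivity)
    have g2 : (∑ i ∈ B, |v ⬝ᵥ (R.J *ᵥ (Pi.single i 1))|) * (4 * c0 * b * √M * N) ≤
        (√M * N) * (4 * c0 * b * √M * N) := mul_le_mul_of_nonneg_right s1 (by positivity)
    have g3 : (∑ i ∈ B, (v ⬝ᵥ (R.J *ᵥ (Pi.single i 1))) ^ 2) * (2 * c0 * b) ≤
        (N * N) * (2 * c0 * b) := mul_le_mul_of_nonneg_right s2 (by positivity)
    have g4 : (√M * N) * (4 * c0 * b * √M * N) = M * (4 * c0 * b * (N * N)) := by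
      calc (√M * N) * (4 * c0 * b * √M * N) = (√M * √M) * (4 * c0 * b * (N * N)) := by ring
        _ = _ := by rw [hsMM]
    have hM1 : 1 ≤ M := by
      have : (0 : ℝ) ≤ m := Nat.cast_nonneg m
      linarith
    have g5 : (N * N) * (2 * c0 * b) ≤ M * (2 * c0 * b * (N * N)) := by
      have : (N * N) * (2 * c0 * b) = 1 * (2 * c0 * b * (N * N)) := by ring
      rw [this]
      exact mul_le_mul_of_nonneg_right hM1 (by positivity)
    calc _ ≤ M * (8 * c0 * b * (N * N)) + M * (4 * c0 * b * (N * N)) +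
          M * (2 * c0 * b * (N * N)) := by linarith
      _ = 14 * c0 * b * M * (N * N) := by ring
  have hn0 : 0 < R.n := R.n0
  have hmm : 0 < (m : ℝ) + 1 := by positivity
  have hinv : 1 / R.n ^ 2 ≤ 4 * ((m : ℝ) + 1) ^ 2 / M ^ 2 := by
    rw [div_le_div_iff₀ (by positivity) (by positivity), one_mul]
    have h5 : M ≤ R.n * (2 * (m + 1)) := by
      rwa [div_le_iff₀ (by positivity)] at hn1
    calc M ^ 2 ≤ (R.n * (2 * (m + 1))) ^ 2 := pow_le_pow_left₀ hM0.le h5 2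
      _ = 4 * ((m : ℝ) + 1) ^ 2 * R.n ^ 2 := by ring
  rw [abs_mul, abs_of_nonneg (by positivity), ← hNN]
  obtain ⟨Y, hY⟩ : ∃ Y : ℝ, Y = ∑ i ∈ B, FAb (wt A u1 u2 t) (R.tn U) (R.ph (R.zz v (Pi.single i 1)))
      (R.ph (R.zz v (Pi.single i 1))) := ⟨_, rfl⟩
  rw [← hY] at hsum ⊢
  calc 1 / R.n ^ 2 * |Y| ≤ 4 * ((m : ℝ) + 1) ^ 2 / M ^ 2 * (14 * c0 * b * M * (N * N)) :=
        mul_le_mul hinv hsum (abs_nonneg _) (by positivity)
    _ = 56 * ((m : ℝ) + 1) ^ 2 * c0 / M * b * (N * N) := by field_simp; ring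
    _ ≤ (56 * ((m : ℝ) + 1) ^ 2 * c0 + 1) / M * b * (N * N) := by
        refine mul_le_mul_of_nonneg_right (mul_le_mul_of_nonneg_right ?_ hb) (by positivity)
        exact div_le_div_of_nonneg_right (by linarith) hM0.le

end Pool.Agent.EinV
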