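import Pool.Agent.EinS.Prod
import Mathlib.Algebra.Lie.Prod

/-!
# The Casimir operator of a subalgebra of a product on the first factor

For `u` in `g` put `y = ∑ j, Qf (a j).1 u • a j`, in `h`, and `s = ∑ j, Qf (a j).1 u ^ 2`.  The `a j` are orthonormal, so `Qf y.1 y.1 + Qf y.2 y.2 = s`, hence `(1 + M) Qf y.1 y.1 ≤ s`; and
`s = Qf y.1 u ≤ √(Qf y.1 y.1) √(Qf u u)`, so `s ≤ Qf u u / (1 + M)`.  Finally with an orthonormal basis `e` of `g` (`exists_frame`):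
`∑ j, Qf ⁅(a j).1, x⁆ ⁅(a j).1, x⁆ = ∑ b, ∑ j, Qf (a j).1 ⁅x, e b⁆ ^ 2 ≤ ∑ b, Qf ⁅x, e b⁆ ⁅x, e b⁆ / (1 + M) = Qf x x / (1 + M)`.
-/

namespace Pool.Agent.EinV

open Pool.Agent.EStab Pool.Agent.EinS

/-- Bessel inequality for the first components -/
theorem fr_cas_aux {g g' : Type} [LieRing g] [LieAlgebra ℝ g] [Module.Finite ℝ g] [LieRing g']
    [LieAlgebra ℝ g'] [Module.Finite ℝ g'] (hg : CompactSemisimple g)
    {h : LieSubalgebra ℝ (g × g')} {M : ℝ} (hM : 0 < M)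
    (hle : ∀ y ∈ h, M * Qf g y.1 y.1 ≤ Qf g' y.2 y.2) {k : ℕ} {a : Fin k → g × g'}
    (ha : ∀ j, a j ∈ h)
    (ho : ∀ j l, Qf g (a j).1 (a l).1 + Qf g' (a j).2 (a l).2 = if j = l then 1 else 0) (u : g) :
    ∑ j, Qf g (a j).1 u ^ 2 ≤ 1 / M * Qf g u u := by
  set s := ∑ j, Qf g (a j).1 u ^ 2 with hs
  set y : g × g' := ∑ j, Qf g (a j).1 u • a j with hy
  have hyh : y ∈ h := by
    rw [hy]
    exact sum_mem fun j _ => h.smul_mem _ (ha j)
  have hy1 : y.1 = ∑ j, Qf g (a j).1 u • (a j).1 := by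
    rw [hy, Prod.fst_sum]
    rfl
  have hy2 : y.2 = ∑ j, Qf g (a j).1 u • (a j).2 := by
    rw [hy, Prod.snd_sum]
    rfl
  have h1 : Qf g y.1 u = s := by
    rw [hy1, Qf_sum, hs]
    refine Finset.sum_congr rfl fun j _ => ?_
    ring
  have h2 : Qf g y.1 y.1 + Qf g' y.2 y.2 = s := by
    have e1 : Qf g y.1 y.1 = ∑ j, Qf g (a j).1 u * ∑ l, Qf g (a l).1 u * Qf g (a j).1 (a l).1 := by
      conv_lhs => rw [hy1]
      rw [Qf_sum]
      refine Finset.sum_congr rfl fun j _ => ?_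
      rw [Qf_sum']
    have e2 : Qf g' y.2 y.2 =
        ∑ j, Qf g (a j).1 u * ∑ l, Qf g (a l).1 u * Qf g' (a j).2 (a l).2 := by
      conv_lhs => rw [hy2]
      rw [Qf_sum]
      refine Finset.sum_congr rfl fun j _ => ?_
      rw [Qf_sum']
    rw [e1, e2, ← Finset.sum_add_distrib, hs]
    refine Finset.sum_congr rfl fun j _ => ?_
    rw [← mul_add, ← Finset.sum_add_distrib]
    have e3 : ∑ l, (Qf g (a l).1 u * Qf g (a j).1 (a l).1 +
        Qf g (a l).1 u * Qf g' (a j).2 (a l).2) = Qf g (a j).1 u := by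
      have e4 : ∀ l, Qf g (a l).1 u * Qf g (a j).1 (a l).1 +
          Qf g (a l).1 u * Qf g' (a j).2 (a l).2 = if j = l then Qf g (a l).1 u else 0 := by
        intro l
        rw [← mul_add, ho]
        split_ifs <;> ring
      simp only [e4]
      simp
    rw [e3]
    ring
  have h3 : (1 + M) * Qf g y.1 y.1 ≤ s := by
    have := hle y hyh
    linarith
  have hs0 : 0 ≤ s := Finset.sum_nonneg fun j _ => sq_nonneg _
  have hu0 := Qf_nonneg hg u
  have hp0 := Qf_nonneg hg y.1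
  -- Cauchy-Schwarz with a parameter
  have h4 : ∀ t : ℝ, 0 ≤ Qf g u u - 2 * t * s + t ^ 2 * Qf g y.1 y.1 := by
    intro t
    have e1 := Qf_nonneg hg (u - t • y.1)
    have e2 : Qf g (u - t • y.1) (u - t • y.1) = Qf g u u - t * Qf g u y.1 - t * Qf g y.1 u +
        t * (t * Qf g y.1 y.1) := by
      simp only [map_sub, LinearMap.sub_apply, map_smul, LinearMap.smul_apply, smul_eq_mul]
      ring
    have e3 : Qf g u y.1 = s := by rw [Qf_symm, h1]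
    rw [e2, e3, h1] at e1
    calc (0 : ℝ) ≤ _ := e1
      _ = _ := by ring
  have h5 := h4 (1 + M)
  have h6 : (1 + M) * s ≤ Qf g u u := by
    nlinarith [mul_le_mul_of_nonneg_left h3 (by linarith : (0 : ℝ) ≤ 1 + M)]
  rw [one_div, inv_mul_eq_div, le_div_iff₀ hM]
  nlinarith

theorem fr_cas {g g' : Type} [LieRing g] [LieAlgebra ℝ g] [Module.Finite ℝ g] [LieRing g']
    [LieAlgebra ℝ g'] [Module.Finite ℝ g'] (hg : CompactSemisimple g)
    (hg' : CompactSemisimple g') {h : LieSubalgebra ℝ (g × g')} {M : ℝ} (hM : 0 < M)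
    (hle : ∀ y ∈ h, M * Qf g y.1 y.1 ≤ Qf g' y.2 y.2) {k : ℕ} {a : Fin k → g × g'}
    (ha : ∀ j, a j ∈ h)
    (ho : ∀ j l, Qf g (a j).1 (a l).1 + Qf g' (a j).2 (a l).2 = if j = l then 1 else 0) (x : g) :
    ∑ j, Qf g ⁅(a j).1, x⁆ ⁅(a j).1, x⁆ ≤ 1 / M * Qf g x x := by
  have _ := hg'
  obtain ⟨m, e, he⟩ := exists_frame hg (⊤ : Submodule ℝ g)
  have h1 : ∀ u : g, Qf g ⁅u, x⁆ ⁅u, x⁆ = ∑ m, Qf g u ⁅x, e m⁆ ^ 2 := by
    intro u
    rw [he.parseval Submodule.mem_top]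
    refine Finset.sum_congr rfl fun m _ => ?_
    rw [Qf_lie]
    ring
  simp only [h1]
  rw [Finset.sum_comm]
  have h2 : Qf g x x = ∑ m, Qf g ⁅x, e m⁆ ⁅x, e m⁆ := by
    rw [he.killing]
  rw [h2, Finset.mul_sum]
  exact Finset.sum_le_sum fun m _ => fr_cas_aux hg hM hle ha ho ⁅x, e m⁆

end Pool.Agent.EinV
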