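import Pool.Agent.EinS.ClSt

/-!
# Principal bundles over homogeneous spaces: the statement
-/

namespace Pool.Agent.EinV

open Matrix Pool.Agent.EStab Pool.Agent.EinS Quaternion

/-- The bi-invariant metric of the group with Lie algebra `g` has no infinitesimal Einstein deformations
which are left-invariant and invariant under the automorphisms in `G` and those which fix `h`. -/
def RigidFor {g : Type} [LieRing g] [LieAlgebra ℝ g] (h : LieSubalgebra ℝ g)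
    (G : Set (g ≃ₗ⁅ℝ⁆ g)) : Prop :=
  ∀ T : g →ₗ[ℝ] g, CasimirOne T →
    (∀ γ : g ≃ₗ⁅ℝ⁆ g, (γ ∈ G ∨ ∀ y ∈ h, γ y = y) → ∀ x, T (γ x) = γ (T x)) → T = 0

section

variable {A : Type} [Ring A] [StarRing A] [Algebra ℝ A] [Cen A]

/-- The subalgebra `h` of `g × g(k)` as a subspace of `g × g(n + k)`: the pairs `(x, diag (0, y))`, `(x, y)` in `h`. -/
noncomputable def cornerP {g : Type} [LieRing g] [LieAlgebra ℝ g] (n : ℕ) {k : ℕ}
    (h : LieSubalgebra ℝ (g × Gr A (Fin k))) : Submodule ℝ (g × Gr A (Fin n ⊕ Fin k)) where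
  carrier := {x | ∃ y ∈ h, x.1 = y.1 ∧ x.2.mat = fromBlocks 0 0 0 y.2.mat}
  add_mem' := by
    rintro x x' ⟨y, hy, hxy1, hxy⟩ ⟨y', hy', hxy1', hxy'⟩
    refine ⟨y + y', h.add_mem hy hy', ?_, ?_⟩
    · change x.1 + x'.1 = y.1 + y'.1
      rw [hxy1, hxy1']
    · change x.2.mat + x'.2.mat = fromBlocks 0 0 0 (y.2.mat + y'.2.mat)
      rw [hxy, hxy', fromBlocks_add]
      simp only [add_zero]
  zero_mem' := by
    refine ⟨0, h.zero_mem, rfl, ?_⟩
    change (0 : Matrix (Fin n ⊕ Fin k) (Fin n ⊕ Fin k) A) =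
      fromBlocks 0 0 0 (0 : Matrix (Fin k) (Fin k) A)
    rw [fromBlocks_zero]
  smul_mem' := by
    rintro c x ⟨y, hy, hxy1, hxy⟩
    refine ⟨c • y, h.smul_mem c hy, ?_, ?_⟩
    · change c • x.1 = c • y.1
      rw [hxy1]
    · change c • x.2.mat = fromBlocks 0 0 0 (c • y.2.mat)
      rw [hxy, fromBlocks_smul]
      simp only [smul_zero]

end

/-- Let `G` be a compact semisimple group with Lie algebra `g`, `G_k = SO(k)`, `SU(k)` or `Sp(k)`, and `H` a closed subgroup of `G × U_k`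
(`U_k = O(k)`, `U(k)` or `Sp(k)`) with Lie algebra `h` in `g × g(k)`; `Γ` is the set of the `(Ad a, b)`, `(a, b) ∈ H`.
If `H ∩ G` is finite and the bi-invariant metric of `G` is rigid for the projection of `H`, then `(G × G_(n+k))/H` has an invariant Einstein metric for all large `n`. -/
def BundlesEinstein (A : Type) [Ring A] [StarRing A] [Algebra ℝ A] [Cen A] : Prop :=
  ∀ (g : Type) [LieRing g] [LieAlgebra ℝ g] [Module.Finite ℝ g], CompactSemisimple g →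
    ∀ (k : ℕ) (h : LieSubalgebra ℝ (g × Gr A (Fin k)))
      (Γ : Set ((g ≃ₗ⁅ℝ⁆ g) × Matrix (Fin k) (Fin k) A)),
      (∀ γ ∈ Γ, γ.2 * γ.2ᴴ = 1 ∧ γ.2ᴴ * γ.2 = 1 ∧
        ∀ x ∈ h, ∃ y ∈ h, y.1 = γ.1 x.1 ∧ y.2.mat = γ.2 * x.2.mat * γ.2ᴴ) →
      (∀ y ∈ h, y.2 = 0 → y = 0) →
      RigidFor (h.map (LieHom.fst ℝ g (Gr A (Fin k)))) {γ | ∃ u, (γ, u) ∈ Γ} →
      ∃ n₀ : ℕ, ∀ n ≥ n₀, HasEinsteinMetric (g × Gr A (Fin n ⊕ Fin k)) (cornerP n h)
        {δ | ∃ γ ∈ Γ, ∀ x, (δ x).1 = γ.1 x.1 ∧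
          (δ x).2.mat = fromBlocks 1 0 0 γ.2 * x.2.mat * (fromBlocks 1 0 0 γ.2)ᴴ}

end Pool.Agent.EinV
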