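import Pool.Agent.EinS.ClFinal
import Pool.Agent.EinV.FrDefs

/-!
# Comparison of the norms

The map `y ↦ y.2` is injective on `h`, so there is `C` with `Qf g y.1 y.1 ≤ C * ip y.2.mat y.2.mat` for `y ∈ h` (finite dimension: `y.1 = f y.2` for a linear map `f`, and `ip` is positive definite);
and `Qf z z = (N m - 2 sg) * ip z.1 z.1`, `N = n + k` (`Qf_cl`), `ip z.1 z.1 = ip y.2.mat y.2.mat`.
-/

namespace Pool.Agent.EinV

open Matrix Pool.Agent.EStab Pool.Agent.EinS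

attribute [local instance 100] LieRing.ofAssociativeRing

private theorem FrN_bilin {g : Type} [AddCommGroup g] [Module ℝ g] {ι : Type} [Fintype ι]
    [DecidableEq ι] (B : LinearMap.BilinForm ℝ g) (f : (ι → ℝ) →ₗ[ℝ] g) :
    ∃ C : ℝ, 0 ≤ C ∧ ∀ v : ι → ℝ, |B (f v) (f v)| ≤ C * ∑ i, v i * v i := by
  refine ⟨∑ i, ∑ j, |B (f (Pi.single i 1)) (f (Pi.single j 1))|,
    Finset.sum_nonneg fun i _ => Finset.sum_nonneg fun j _ => abs_nonneg _, fun v => ?_⟩
  have hv : f v = ∑ i, v i • f (Pi.single i 1) := by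
    conv_lhs => rw [pi_eq_sum_univ' v]
    rw [map_sum]
    refine Finset.sum_congr rfl fun i _ => ?_
    rw [map_smul]
  have h1 : B (f v) (f v) = ∑ i, ∑ j, v i * v j * B (f (Pi.single i 1)) (f (Pi.single j 1)) := by
    rw [hv, LinearMap.map_sum₂]
    refine Finset.sum_congr rfl fun i _ => ?_
    rw [map_sum]
    refine Finset.sum_congr rfl fun j _ => ?_
    rw [map_smul, map_smul, LinearMap.smul_apply, smul_eq_mul, smul_eq_mul]
    ring
  rw [h1, Finset.sum_mul]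
  refine (Finset.abs_sum_le_sum_abs _ _).trans (Finset.sum_le_sum fun i _ => ?_)
  rw [Finset.sum_mul]
  refine (Finset.abs_sum_le_sum_abs _ _).trans (Finset.sum_le_sum fun j _ => ?_)
  rw [abs_mul, mul_comm]
  refine mul_le_mul_of_nonneg_left ?_ (abs_nonneg _)
  have hi : v i * v i ≤ ∑ l, v l * v l :=
    Finset.single_le_sum (f := fun l => v l * v l) (fun l _ => mul_self_nonneg _)
      (Finset.mem_univ i)
  have hj : v j * v j ≤ ∑ l, v l * v l :=
    Finset.single_le_sum (f := fun l => v l * v l) (fun l _ => mul_self_nonneg _)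
      (Finset.mem_univ j)
  rw [abs_le]
  constructor
  · nlinarith [mul_self_nonneg (v i + v j)]
  · nlinarith [mul_self_nonneg (v i - v j)]

private theorem FrN_bound {A : Type} [Ring A] [StarRing A] [Algebra ℝ A] [Cen A] [Coef A]
    {g : Type} [LieRing g] [LieAlgebra ℝ g] {k : ℕ}
    (h : LieSubalgebra ℝ (g × Gr A (Fin k))) (hi : ∀ y ∈ h, y.2 = 0 → y = 0) :
    ∃ C : ℝ, 0 ≤ C ∧ ∀ y ∈ h, |Qf g y.1 y.1| ≤ C * ip y.2.mat y.2.mat := by
  let T : h →ₗ[ℝ] (Fin k × Fin k × Fin (Coef.m A) → ℝ) :=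
    { toFun := fun y i => mco i y.1.2.mat
      map_add' := fun x y => by
        funext i
        exact map_add (mco i) x.1.2.mat y.1.2.mat
      map_smul' := fun c y => by
        funext i
        exact map_smul (mco i) c y.1.2.mat }
  have hT : ∀ y : h, ∑ i, T y i * T y i = ip y.1.2.mat y.1.2.mat := by
    intro y
    rw [ip_coord, Fintype.sum_prod_type]
    refine Finset.sum_congr rfl fun i _ => ?_
    rw [Fintype.sum_prod_type]
    rfl
  have hker : LinearMap.ker T = ⊥ := by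
    rw [LinearMap.ker_eq_bot']
    intro y hy
    have h1 := hT y
    rw [hy] at h1
    have h2 : ip y.1.2.mat y.1.2.mat = 0 := by
      rw [← h1]
      refine Finset.sum_eq_zero fun i _ => ?_
      rw [Pi.zero_apply, mul_zero]
    have h3 : y.1.2 = 0 := Subtype.ext (ip_self_eq_zero h2)
    exact Subtype.ext (hi y.1 y.2 h3)
  obtain ⟨S, hS⟩ := T.exists_leftInverse_of_injective hker
  let f : (Fin k × Fin k × Fin (Coef.m A) → ℝ) →ₗ[ℝ] g :=
    { toFun := fun v => (S v).1.1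
      map_add' := fun u v => by
        rw [map_add]
        rfl
      map_smul' := fun c v => by
        rw [map_smul]
        rfl }
  obtain ⟨C, hC0, hC⟩ := FrN_bilin (Qf g) f
  refine ⟨C, hC0, fun y hy => ?_⟩
  have h1 := hC (T ⟨y, hy⟩)
  have h2 : f (T ⟨y, hy⟩) = y.1 := by
    change (S (T ⟨y, hy⟩)).1.1 = y.1
    have h3 : S (T ⟨y, hy⟩) = ⟨y, hy⟩ := by
      have := congrArg (fun L => L (⟨y, hy⟩ : h)) hS
      exact this
    rw [h3]
  rw [h2, hT] at h1
  exact h1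

private theorem FrN_ip {A : Type} [Ring A] [StarRing A] [Algebra ℝ A] [Cen A] [Coef A]
    {n k : ℕ} (Y : Matrix (Fin k) (Fin k) A) :
    ip (fromBlocks (0 : Matrix (Fin n) (Fin n) A) 0 0 Y) (fromBlocks 0 0 0 Y) = ip Y Y := by
  have h0 : rl (0 : A) = 0 := by rw [rl, map_zero]
  unfold ip
  rw [Fintype.sum_sum_type]
  have h1 : ∑ i : Fin n, ∑ j : Fin n ⊕ Fin k,
      rl (fromBlocks (0 : Matrix (Fin n) (Fin n) A) 0 0 Y (Sum.inl i) j *
        star (fromBlocks (0 : Matrix (Fin n) (Fin n) A) 0 0 Y (Sum.inl i) j)) = 0 := by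
    refine Finset.sum_eq_zero fun i _ => Finset.sum_eq_zero fun j _ => ?_
    rcases j with j | j
    · rw [fromBlocks_apply₁₁, Matrix.zero_apply, zero_mul, h0]
    · rw [fromBlocks_apply₁₂, Matrix.zero_apply, zero_mul, h0]
  rw [h1, zero_add]
  refine Finset.sum_congr rfl fun i _ => ?_
  rw [Fintype.sum_sum_type]
  have h2 : ∑ j : Fin n,
      rl (fromBlocks (0 : Matrix (Fin n) (Fin n) A) 0 0 Y (Sum.inr i) (Sum.inl j) *
        star (fromBlocks (0 : Matrix (Fin n) (Fin n) A) 0 0 Y (Sum.inr i) (Sum.inl j))) = 0 := by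
    refine Finset.sum_eq_zero fun j _ => ?_
    rw [fromBlocks_apply₂₁, Matrix.zero_apply, zero_mul, h0]
  rw [h2, zero_add]
  rfl

theorem fr_norm {A : Type} [Ring A] [StarRing A] [Algebra ℝ A] [Cen A] [Coef A] {g : Type}
    [LieRing g] [LieAlgebra ℝ g] [Module.Finite ℝ g] {k : ℕ}
    (h : LieSubalgebra ℝ (g × Gr A (Fin k))) (hi : ∀ y ∈ h, y.2 = 0 → y = 0) (M : ℝ) :
    ∃ n₀ : ℕ, ∀ n ≥ n₀, ∀ y ∈ h, ∀ z : cl A (Fin n ⊕ Fin k),
      z.1 = fromBlocks 0 0 0 y.2.mat →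
      M * Qf g y.1 y.1 ≤ Qf (cl A (Fin n ⊕ Fin k)) z z := by
  obtain ⟨C, hC0, hC⟩ := FrN_bound h hi
  refine ⟨⌈|M| * C⌉₊ + 3, fun n hn y hy z hz => ?_⟩
  have hn1 : (⌈|M| * C⌉₊ : ℝ) + 3 ≤ n := by exact_mod_cast hn
  have hn2 : |M| * C + 3 ≤ n := by
    have := Nat.le_ceil (|M| * C)
    linarith
  have : Nonempty (Fin n ⊕ Fin k) := ⟨Sum.inl ⟨0, by omega⟩⟩
  rw [Qf_cl, hz, FrN_ip]
  have h1 := hC y hy
  have h2 : M * Qf g y.1 y.1 ≤ |M| * (C * ip y.2.mat y.2.mat) := by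
    calc M * Qf g y.1 y.1 ≤ |M * Qf g y.1 y.1| := le_abs_self _
      _ = |M| * |Qf g y.1 y.1| := abs_mul _ _
      _ ≤ _ := mul_le_mul_of_nonneg_left h1 (abs_nonneg _)
  refine h2.trans ?_
  rw [← mul_assoc]
  refine mul_le_mul_of_nonneg_right ?_ (ip_self_nonneg _)
  have hm1 : (1 : ℝ) ≤ Coef.m A := by exact_mod_cast Coef.m_pos (A := A)
  have hsg := Coef.sg_le (A := A)
  have hc : (Fintype.card (Fin n ⊕ Fin k) : ℝ) = n + k := by
    rw [Fintype.card_sum, Fintype.card_fin, Fintype.card_fin]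
    push_cast
    rfl
  rw [hc]
  have hk0 : (0 : ℝ) ≤ k := Nat.cast_nonneg k
  have hMC : 0 ≤ |M| * C := mul_nonneg (abs_nonneg _) hC0
  nlinarith

end Pool.Agent.EinV
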