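import Pool.Agent.EinV.GoodP
import Pool.Agent.EinG.Tr
import Mathlib.Algebra.Lie.Prod

/-!
# Products of two factors

`two_fac`: `pi_facW` with `E 0 = g`, `E 1 = g'` (a family over `Fin 2` with the instances by cases), and `einstein_equiv` for `(∀ i, E i) ≃ₗ⁅ℝ⁆ g × g'`.  For the factor `g'` the bounds `het` follow from
`Fac.et` and Bessel's inequality, as in the proof of `pi_fac`.
-/

namespace Pool.Agent.EinV

open Pool.Agent.EStab Pool.Agent.EinS Pool.Agent.SmIso Pool.Agent.EinU Pool.Agent.EinG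

/-- The family. -/
private def F2 (g g' : Type) : Fin 2 → Type
  | 0 => g
  | 1 => g'

private instance f2LR (g g' : Type) [LieRing g] [LieRing g'] : ∀ i, LieRing (F2 g g' i)
  | 0 => inferInstanceAs (LieRing g)
  | 1 => inferInstanceAs (LieRing g')

private instance f2LA (g g' : Type) [LieRing g] [LieAlgebra ℝ g] [LieRing g'] [LieAlgebra ℝ g'] :
    ∀ i, LieAlgebra ℝ (F2 g g' i)
  | 0 => inferInstanceAs (LieAlgebra ℝ g)
  | 1 => inferInstanceAs (LieAlgebra ℝ g')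

private instance f2MF (g g' : Type) [LieRing g] [LieAlgebra ℝ g] [Module.Finite ℝ g]
    [LieRing g'] [LieAlgebra ℝ g'] [Module.Finite ℝ g'] :
    ∀ i, Module.Finite ℝ (F2 g g' i)
  | 0 => inferInstanceAs (Module.Finite ℝ g)
  | 1 => inferInstanceAs (Module.Finite ℝ g')

section

variable {g g' : Type} [LieRing g] [LieAlgebra ℝ g] [LieRing g'] [LieAlgebra ℝ g']

private def f2mk (x : g) (y : g') : ∀ i, F2 g g' i
  | 0 => x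
  | 1 => y

private def f2E : (∀ i, F2 g g' i) ≃ₗ⁅ℝ⁆ g × g' where
  toFun x := (x 0, x 1)
  map_add' x y := rfl
  map_smul' c x := rfl
  map_lie' := fun {x y} => rfl
  invFun p := f2mk p.1 p.2
  left_inv x := by
    funext i
    fin_cases i <;> rfl
  right_inv p := rfl

private theorem f2_E (x : ∀ i, F2 g g' i) : (f2E : (∀ i, F2 g g' i) ≃ₗ⁅ℝ⁆ g × g') x = (x 0, x 1) :=
  rfl

private def f2S (S : g →ₗ[ℝ] g) (S' : g' →ₗ[ℝ] g') : ∀ i, F2 g g' i →ₗ[ℝ] F2 g g' i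
  | 0 => S
  | 1 => S'

private def f2h (h : LieSubalgebra ℝ g) (h' : LieSubalgebra ℝ g') :
    ∀ i, LieSubalgebra ℝ (F2 g g' i)
  | 0 => h
  | 1 => h'

private def f2A (γ : g ≃ₗ⁅ℝ⁆ g) (γ' : g' ≃ₗ⁅ℝ⁆ g') : ∀ i, F2 g g' i ≃ₗ⁅ℝ⁆ F2 g g' i
  | 0 => γ
  | 1 => γ'

end

/-- Bessel. -/
private theorem f2_bessel {M : Type} [LieRing M] [LieAlgebra ℝ M] [Module.Finite ℝ M]
    (hM : CompactSemisimple M) {k : ℕ} (a : Fin k → M)
    (ha : ∀ j l, Qf M (a j) (a l) = if j = l then 1 else 0) (z : M) :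
    ∑ j, Qf M (a j) z ^ 2 ≤ Qf M z z := by
  obtain ⟨p, hp⟩ : ∃ p : M, p = ∑ j, Qf M (a j) z • a j := ⟨_, rfl⟩
  have h0 := Qf_nonneg hM (z - p)
  have h1 : ∀ w, Qf M w p = ∑ j, Qf M (a j) z * Qf M w (a j) := by
    intro w
    rw [hp, map_sum]
    refine Finset.sum_congr rfl fun j _ => ?_
    rw [map_smul, smul_eq_mul]
  have h3 : ∀ j, Qf M (a j) p = Qf M (a j) z := by
    intro j
    rw [h1, Finset.sum_eq_single j]
    · rw [ha, if_pos rfl, mul_one]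
    · intro l _ hl
      rw [ha, if_neg (Ne.symm hl), mul_zero]
    · intro hj
      exact absurd (Finset.mem_univ j) hj
  have h2 : Qf M z p = ∑ j, Qf M (a j) z ^ 2 := by
    rw [h1]
    refine Finset.sum_congr rfl fun j _ => ?_
    rw [Qf_symm z, sq]
  have h4 : Qf M p p = ∑ j, Qf M (a j) z ^ 2 := by
    rw [h1]
    refine Finset.sum_congr rfl fun j _ => ?_
    rw [Qf_symm p, h3, sq]
  have h5 : Qf M (z - p) (z - p) = Qf M z z - Qf M z p - (Qf M p z - Qf M p p) := by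
    rw [map_sub, map_sub]
    change Qf M z z - Qf M p z - (Qf M z p - Qf M p p) = _
    ring
  rw [h5, Qf_symm p z, h2, h4] at h0
  linarith

theorem two_fac {g g' : Type} [LieRing g] [LieAlgebra ℝ g] [Module.Finite ℝ g] [LieRing g']
    [LieAlgebra ℝ g'] [Module.Finite ℝ g'] {h : LieSubalgebra ℝ (g × g')}
    {Γ : Set ((g ≃ₗ⁅ℝ⁆ g) × (g' ≃ₗ⁅ℝ⁆ g'))} {S T Pp D : g →ₗ[ℝ] g} {c τ eps K : ℝ}
    (hF : FacW (h.map (LieHom.fst ℝ g g')) {γ | ∃ γ', (γ, γ') ∈ Γ} S T Pp D c 1 eps K)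
    (hF' : GoodAt (h.map (LieHom.snd ℝ g g')) {γ' | ∃ γ, (γ, γ') ∈ Γ} c τ eps K)
    (hc : 1 ≤ c) (hK : 1 ≤ K) (h0 : 0 ≤ τ) (h1 : 0 ≤ eps)
    (hτ : 500 * (K + 2) * c ^ 10 * τ ≤ 1) (heps : 5000 * (K + 2) ^ 2 * c ^ 10 * eps ≤ 1)
    (hΓ : ∀ γ ∈ Γ, ∀ x ∈ h, ((γ.1 x.1, γ.2 x.2) : g × g') ∈ h)
    (het : ∀ (k : ℕ) (a : Fin k → g × g'), (∀ j, a j ∈ h) →
      (∀ j l, Qf g (a j).1 (a l).1 + Qf g' (a j).2 (a l).2 = if j = l then 1 else 0) →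
      ∀ x : g, ∑ j, Qf g ⁅(a j).1, x⁆ ⁅(a j).1, x⁆ ≤ τ ^ 2 * Qf g x x ∧
        ∑ j, Qf g ⁅S (a j).1, x⁆ ⁅S (a j).1, x⁆ ≤ τ ^ 2 * Qf g x x ∧
        ∑ j, Qf g ⁅T (a j).1, x⁆ ⁅T (a j).1, x⁆ ≤ τ ^ 2 * Qf g x x) :
    HasEinsteinMetric (g × g') h.toSubmodule
      {δ | ∃ γ ∈ Γ, ∀ x, δ x = (γ.1 x.1, γ.2 x.2)} := by
  classical
  obtain ⟨S', T', Pp', D', hF'⟩ := hF'
  let φ : (∀ i, F2 g g' i) ≃ₗ⁅ℝ⁆ g × g' := f2E
  have hφ : ∀ x, φ x = (x 0, x 1) := fun x => rfl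
  let hh : ∀ i, LieSubalgebra ℝ (F2 g g' i) :=
    f2h (h.map (LieHom.fst ℝ g g')) (h.map (LieHom.snd ℝ g g'))
  let Γ₂ : Set (∀ i, F2 g g' i ≃ₗ⁅ℝ⁆ F2 g g' i) := {γ | (γ 0, γ 1) ∈ Γ}
  let k : LieSubalgebra ℝ (∀ i, F2 g g' i) := h.comap (φ : (∀ i, F2 g g' i) →ₗ⁅ℝ⁆ g × g')
  have hk : ∀ x, x ∈ k ↔ (x 0, x 1) ∈ h := fun x => Iff.rfl
  have e0 : {γ : g ≃ₗ⁅ℝ⁆ g | ∃ γ', (γ, γ') ∈ Γ} = {γ | ∃ δ ∈ Γ₂, δ 0 = γ} := by
    ext γ
    constructor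
    · rintro ⟨γ', hγ⟩
      exact ⟨f2A γ γ', hγ, rfl⟩
    · rintro ⟨δ, hδ, rfl⟩
      exact ⟨δ 1, hδ⟩
  have e1 : {γ' : g' ≃ₗ⁅ℝ⁆ g' | ∃ γ, (γ, γ') ∈ Γ} = {γ | ∃ δ ∈ Γ₂, δ 1 = γ} := by
    ext γ'
    constructor
    · rintro ⟨γ, hγ⟩
      exact ⟨f2A γ γ', hγ, rfl⟩
    · rintro ⟨δ, hδ, rfl⟩
      exact ⟨δ 0, hδ⟩
  rw [e0] at hF
  rw [e1] at hF'
  have hFF : ∀ i, FacW (hh i) {g | ∃ γ ∈ Γ₂, γ i = g} (f2S S S' i) (f2S T T' i)
      (f2S Pp Pp' i) (f2S D D' i) c 1 eps K := by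
    rw [Fin.forall_fin_two]
    exact ⟨hF, hF'.toW⟩
  have hcomp : CompactSemisimple (∀ i, F2 g g' i) := compact_pi fun i => (hFF i).comp
  have hmain : HasEinsteinMetric (∀ i, F2 g g' i) k.toSubmodule
      {δ | ∃ γ ∈ Γ₂, ∀ x i, δ x i = γ i (x i)} := by
    refine pi_facW hFF hc hK h0 h1 hτ heps k ?_ ?_ ?_
    · intro y hy
      rw [Fin.forall_fin_two]
      exact ⟨⟨_, (hk y).1 hy, rfl⟩, ⟨_, (hk y).1 hy, rfl⟩⟩
    · intro γ hγ x hx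
      exact hΓ _ hγ _ hx
    · intro n a ha ho
      rw [Fin.forall_fin_two]
      have hs : ∀ j l, Qf (∀ i, F2 g g' i) (a j) (a l) =
          Qf g (a j 0) (a l 0) + Qf g' (a j 1) (a l 1) := by
        intro j l
        rw [Qf_pi, Fin.sum_univ_two]
        rfl
      constructor
      · intro x
        exact het n (fun j => (a j 0, a j 1)) (fun j => ha j) (fun j l => by
          rw [← hs]
          exact ho j l) x
      · intro x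
        refine hF'.et n (fun j => a j 1) (fun j => ⟨_, ha j, rfl⟩) (fun y => ?_) x
        have h2 := f2_bessel hcomp a ho (Pi.single 1 y)
        simp only [Qf_single, Pi.single_eq_same] at h2
        exact h2
  have h3 := einstein_equiv (Γ' := {δ : (g × g') →ₗ[ℝ] (g × g') |
    ∃ γ ∈ Γ, ∀ x, δ x = (γ.1 x.1, γ.2 x.2)}) φ ?_ hmain
  · have h4 : k.toSubmodule.map (φ : (∀ i, F2 g g' i) →ₗ[ℝ] g × g') = h.toSubmodule := by
      ext x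
      constructor
      · rintro ⟨y, hy, rfl⟩
        exact hy
      · intro hx
        exact ⟨f2mk x.1 x.2, hx, rfl⟩
    rw [h4] at h3
    exact h3
  · rintro δ ⟨γ, hγ, hδ⟩
    refine ⟨((φ.toLinearEquiv.symm : (g × g') →ₗ[ℝ] (∀ i, F2 g g' i)) ∘ₗ δ ∘ₗ
      (φ.toLinearEquiv : (∀ i, F2 g g' i) →ₗ[ℝ] g × g')), ⟨f2A γ.1 γ.2, hγ, ?_⟩, ?_⟩
    · intro x
      have e : δ (φ x) = (γ.1 (x 0), γ.2 (x 1)) := hδ (φ x)
      rw [Fin.forall_fin_two]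
      exact ⟨congrArg Prod.fst e, congrArg Prod.snd e⟩
    · intro x
      exact (φ.toLinearEquiv.apply_symm_apply (δ (φ x))).symm

end Pool.Agent.EinV
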