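import Pool.Agent.EinV.GoodCl

/-!
# Good base metrics: subalgebras which preserve a subspace

Copy of `split_small` (`FinI.lean`) with `good_inv` instead of `einstein_inv`; `SmallR R h δ'` by `small_dimR`: `√(d/2) / n ≤ δ'` if `d ≤ δ N²`, `δ` small, `n ≥ N / 3`.
-/

namespace Pool.Agent.EinV

open Matrix Pool.Agent.EStab Pool.Agent.EinS Pool.Agent.SmIso Pool.Agent.EinU Pool.Agent.EinG

attribute [local instance 100] LieRing.ofAssociativeRing

/-- Small subalgebras. -/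
theorem small_cl (A : Type) [Ring A] [StarRing A] [Algebra ℝ A] [Cen A] [Coef A] [CoefU A]
    {δ : ℝ} (hδ : 0 < δ) {ι : Type} [Fintype ι] [DecidableEq ι] (hN : 3 ≤ Fintype.card ι)
    (R : Rp (cl A ι) (ι × Fin (Coef.m A)) (CoefU.mu A))
    (hn : R.n = (Fintype.card ι : ℝ) - 2 * Coef.sg A / (CoefU.mu A + 1))
    {h : LieSubalgebra ℝ (cl A ι)}
    (hd : (Module.finrank ℝ h : ℝ) ≤ δ ^ 2 / 9 * (Fintype.card ι : ℝ) ^ 2) : SmallR R h δ := by
  have hN3 : (3 : ℝ) ≤ Fintype.card ι := by exact_mod_cast hN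
  have hM : 3 ≤ Fintype.card (ι × Fin (Coef.m A)) := by
    rw [Fintype.card_prod, Fintype.card_fin]
    have := Coef.m_pos (A := A)
    nlinarith
  have hn3 : (Fintype.card ι : ℝ) / 3 ≤ R.n := by
    have h1 := Coef.sg_le (A := A)
    have h2 : (0 : ℝ) ≤ CoefU.mu A := Nat.cast_nonneg _
    have h3 : 2 * Coef.sg A / (CoefU.mu A + 1) ≤ 2 := by
      rw [div_le_iff₀ (by linarith)]
      nlinarith
    rw [hn]
    linarith
  refine (small_dimR R hM h).mono ?_
  have hn0 : (0 : ℝ) < R.n := by linarith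
  rw [div_le_iff₀ hn0]
  have h1 : √((Module.finrank ℝ h : ℝ) / 2) ≤ √((δ * Fintype.card ι / 3) ^ 2) := by
    apply Real.sqrt_le_sqrt
    nlinarith [sq_nonneg (δ * Fintype.card ι)]
  rw [Real.sqrt_sq (by positivity)] at h1
  nlinarith [h1]

private theorem GoodI_rmul_add {A : Type} [Ring A] [StarRing A] [Algebra ℝ A] [Cen A] [Coef A]
    {ι : Type} [Fintype ι] [DecidableEq ι] (u v : A) :
    rmul ι (u + v) = rmul ι u + rmul ι v := by
  ext a b
  rw [Matrix.add_apply]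
  unfold rmul
  rw [Matrix.of_apply, Matrix.of_apply, Matrix.of_apply]
  split_ifs
  · rw [mul_add, add_mul, rl, map_add]
  · rw [add_zero]

private theorem GoodI_rmul_smul {A : Type} [Ring A] [StarRing A] [Algebra ℝ A] [Cen A] [Coef A]
    {ι : Type} [Fintype ι] [DecidableEq ι] (r : ℝ) (u : A) :
    rmul ι (r • u) = r • rmul ι u := by
  ext a b
  rw [Matrix.smul_apply]
  unfold rmul
  rw [Matrix.of_apply, Matrix.of_apply]
  split_ifs
  · rw [mul_smul_comm, smul_mul_assoc, rl_smul, smul_eq_mul]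
  · rw [smul_zero]

/-- A reflection which commutes with the skew right multiplications commutes with all. -/
private theorem GoodI_rmul_comm {A : Type} [Ring A] [StarRing A] [Algebra ℝ A] [Cen A] [Coef A]
    [CoefU A] {ι : Type} [Fintype ι] [DecidableEq ι]
    {s : Matrix (ι × Fin (Coef.m A)) (ι × Fin (Coef.m A)) ℝ}
    (h : ∀ u : A, star u = -u → s * rmul ι u = rmul ι u * s) (u : A) :
    s * rmul ι u = rmul ι u * s := by
  have h1 : u = rl u • (1 : A) + (1 / 2 : ℝ) • (u - star u) := by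
    have h2 := Coef.add_star u
    have h3 : rl u • (1 : A) = (1 / 2 : ℝ) • (u + star u) := by
      rw [h2, smul_smul]
      congr 1
      rw [rl]
      ring
    rw [h3, ← smul_add]
    have h4 : u + star u + (u - star u) = (2 : ℝ) • u := by
      rw [two_smul]
      abel
    rw [h4, smul_smul]
    norm_num
  have h5 : star (u - star u) = -(u - star u) := by
    rw [star_sub, star_star]
    abel
  have h6 := h _ h5
  rw [h1, GoodI_rmul_add, GoodI_rmul_smul, GoodI_rmul_smul, rmul_one, Matrix.mul_add,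
    Matrix.add_mul, Matrix.mul_smul, Matrix.smul_mul, Matrix.mul_smul, Matrix.smul_mul, h6,
    Matrix.mul_one, Matrix.one_mul]

theorem good_I (A : Type) [Ring A] [StarRing A] [Algebra ℝ A] [Cen A] [Coef A] [CoefU A]
    {θ : ℝ} (hθ : 0 < θ) : ∃ c K : ℝ, 1 ≤ c ∧ 1 ≤ K ∧ ∀ τ eps : ℝ, 0 < τ → 0 < eps →
    ∃ δ : ℝ, 0 < δ ∧ ∀ (ι : Type) [Fintype ι] [DecidableEq ι], 3 ≤ Fintype.card ι →
    1 / δ ≤ Fintype.card ι → ∀ (h : LieSubalgebra ℝ (cl A ι)) (W : Submodule ℝ (ι → A)),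
      (∀ v ∈ W, ∀ u : A, (fun i => v i * u) ∈ W) → (∀ x ∈ h, ∀ v ∈ W, x.1 *ᵥ v ∈ W) →
      θ * Module.finrank ℝ (ι → A) ≤ Module.finrank ℝ W →
      (Module.finrank ℝ W : ℝ) ≤ (1 - θ) * Module.finrank ℝ (ι → A) →
      (Module.finrank ℝ h : ℝ) ≤ δ * (Fintype.card ι : ℝ) ^ 2 →
      ∀ G : Set (cl A ι ≃ₗ⁅ℝ⁆ cl A ι), (∀ γ ∈ G, ∃ g : Matrix ι ι A, AdU g γ ∧
        ∀ v ∈ W, g *ᵥ v ∈ W) → GoodAt h G c τ eps K := by
  obtain ⟨c, K, hc, hK, hE⟩ := good_inv (CoefU.mu A) hθ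
  refine ⟨c, K, hc, hK, ?_⟩
  intro τ eps hτ heps
  obtain ⟨δ, hδ, hE⟩ := hE τ eps hτ heps
  have hδ' : 0 < min δ (δ ^ 2 / 9) := lt_min hδ (by positivity)
  refine ⟨min δ (δ ^ 2 / 9), hδ', ?_⟩
  intro ι _ _ hN hNδ' h W hWr hWh hW1 hW2 hdim G hG
  obtain ⟨R, hph, hf, hJ, hn⟩ := exists_rp (A := A) hN
  have hNδ : 1 / δ ≤ (Fintype.card ι : ℝ) :=
    (one_div_le_one_div_of_le hδ' (min_le_left _ _)).trans hNδ'
  have hs : SmallR R h δ := by
    refine small_cl A hδ hN R hn (hdim.trans ?_)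
    exact mul_le_mul_of_nonneg_right (min_le_right _ _) (sq_nonneg _)
  have hm : (1 : ℝ) ≤ Coef.m A := by exact_mod_cast Coef.m_pos (A := A)
  have hN3 : (3 : ℝ) ≤ Fintype.card ι := by exact_mod_cast hN
  have hcard : (Fintype.card (ι × Fin (Coef.m A)) : ℝ) = Fintype.card ι * Coef.m A := by
    rw [Fintype.card_prod, Fintype.card_fin]
    push_cast
    rfl
  have hle : (Fintype.card ι : ℝ) ≤ Fintype.card (ι × Fin (Coef.m A)) := by
    rw [hcard]
    nlinarith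
  obtain ⟨W', hW'⟩ : ∃ W' : Submodule ℝ (ι × Fin (Coef.m A) → ℝ),
      W' = W.map (co (A := A) (ι := ι)).toLinearMap := ⟨_, rfl⟩
  have hmem : ∀ v, v ∈ W → co v ∈ W' := by
    intro v hv
    rw [hW']
    exact ⟨v, hv, rfl⟩
  have hmem' : ∀ w ∈ W', ∃ v ∈ W, co v = w := by
    intro w hw
    rw [hW'] at hw
    exact hw
  have hfr : Module.finrank ℝ W' = Module.finrank ℝ W := by
    rw [hW']
    exact LinearEquiv.finrank_map_eq _ W
  obtain ⟨s, ss, s2, hsW, htr⟩ := exists_refl W'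
  rw [hfr] at htr
  have hFc : (Module.finrank ℝ (ι → A) : ℝ) = Fintype.card (ι × Fin (Coef.m A)) := by
    rw [finrank_vec, Fintype.card_prod, Fintype.card_fin]
  rw [hFc] at hW1 hW2
  have ht1 : |trace s| ≤ (1 - 2 * θ) * Fintype.card (ι × Fin (Coef.m A)) := by
    rw [htr, abs_le]
    constructor
    · linarith
    · linarith
  have ht2 : |trace s| < Fintype.card (ι × Fin (Coef.m A)) := by
    refine lt_of_le_of_lt ht1 ?_
    nlinarith
  have hsr : ∀ u : A, s * rmul ι u = rmul ι u * s := by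
    apply GoodI_rmul_comm
    intro u hu
    refine refl_comm ss s2 hsW ?_ (Or.inl ?_)
    · intro w hw
      obtain ⟨v, hv, rfl⟩ := hmem' w hw
      rw [← co_rmul]
      exact hmem _ (hWr v hv u)
    · rw [rmul_T, hu, rmul_neg]
  have hsl : ∀ X : Matrix ι ι A, (∀ v ∈ W, X *ᵥ v ∈ W) → ((lmul X)ᵀ = -lmul X ∨
      lmul X * (lmul X)ᵀ = 1) → s * lmul X = lmul X * s := by
    intro X hX hX'
    refine refl_comm ss s2 hsW ?_ hX'
    intro w hw
    obtain ⟨v, hv, rfl⟩ := hmem' w hw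
    rw [← co_lmul]
    exact hmem _ (hX v hv)
  obtain ⟨c', g1, g2, hinv⟩ := inv_I R hph hf hJ ss s2 hsr ht2
  refine hE (cl A ι) (ι × Fin (Coef.m A)) R s c' R.J g1 g2 hinv (hNδ.trans hle) ht1
    (Or.inl ⟨fun k => by rw [hf, hsr], by rw [hJ, hsr]⟩) h ?_ hs G ?_
  · intro y hy
    rw [hph]
    refine hsl _ (hWh y hy) (Or.inl ?_)
    rw [← hph]
    exact R.skew y
  · intro γ hγ
    obtain ⟨g, ⟨hg, hg', hgγ⟩, hgW⟩ := hG γ hγ
    refine ⟨lmul g, ?_, ?_, ?_, ?_⟩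
    · rw [← lmul_conjT, ← lmul_mul, hg, lmul_one]
    · refine hsl g hgW (Or.inr ?_)
      rw [← lmul_conjT, ← lmul_mul, hg, lmul_one]
    · rw [hJ]
      exact (lmul_rmul g _).symm
    · intro x
      rw [hph, hph, hgγ, lmul_mul, lmul_mul, lmul_conjT]

end Pool.Agent.EinV
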