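import Pool.Agent.EinV.FrG
import Pool.Agent.EinV.FrCas
import Pool.Agent.EinV.FrN
import Pool.Agent.EinV.FrTwo
import Pool.Agent.EinV.GoodI

/-!
# Principal bundles over homogeneous spaces: assembly

`g' = cl A (Fin n ⊕ Fin k)` (`Gr` by definition), `h' = ` the subalgebra of the pairs `(x, diag (0, y))`, `(x, y) ∈ h` (`toSubmodule = cornerP n h`), `Γ' = ` the pairs `(γ, Ad (diag (1, u)))`,
`(γ, u) ∈ Γ` (`clConj`).  Factor `g`: `facW_normal` (for `h.map fst`, which is `h'.map fst`); factor `g'`: `good_I` with `θ = 1 / 4` and `W = ` the vectors which vanish on the first `n / 2` indices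
of `Fin n` (`n ≥ k`, `n` large), `finrank h' = finrank h` is fixed.  `c`, `K`: maxima; then `τ`, `eps`; then `n₀`: `good_I`, and `fr_norm`, `fr_cas` with `M = 16 / τ ^ 2`.
-/

namespace Pool.Agent.EinV

open Matrix Pool.Agent.EStab Pool.Agent.EinS Pool.Agent.SmIso Pool.Agent.EinU Pool.Agent.EinG
  Quaternion

attribute [local instance 100] LieRing.ofAssociativeRing

/-- the vectors which vanish on the first half of the indices of `Fin n` -/
private def faW (A : Type) [Ring A] [Algebra ℝ A] (n k : ℕ) :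
    Submodule ℝ (Fin n ⊕ Fin k → A) where
  carrier := {v | ∀ i : Fin n, i.1 < n / 2 → v (Sum.inl i) = 0}
  add_mem' := by
    intro v w hv hw i hi
    rw [Pi.add_apply, hv i hi, hw i hi, add_zero]
  zero_mem' := fun _ _ => rfl
  smul_mem' := by
    intro c v hv i hi
    rw [Pi.smul_apply, hv i hi, smul_zero]

private theorem fa_mul {A : Type} [Ring A] [Algebra ℝ A] {n k : ℕ} {v : Fin n ⊕ Fin k → A}
    (hv : v ∈ faW A n k) (u : A) : (fun i => v i * u) ∈ faW A n k := by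
  intro i hi
  change v (Sum.inl i) * u = 0
  rw [hv i hi, zero_mul]

private theorem fa_zero {A : Type} [Ring A] [Algebra ℝ A] {n k : ℕ} (X : Matrix (Fin k) (Fin k) A)
    (v : Fin n ⊕ Fin k → A) : fromBlocks 0 0 0 X *ᵥ v ∈ faW A n k := by
  intro i hi
  rw [Matrix.fromBlocks_mulVec, Sum.elim_inl, Matrix.zero_mulVec, Matrix.zero_mulVec, add_zero]
  rfl

private theorem fa_one {A : Type} [Ring A] [Algebra ℝ A] {n k : ℕ} (X : Matrix (Fin k) (Fin k) A)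
    {v : Fin n ⊕ Fin k → A} (hv : v ∈ faW A n k) : fromBlocks 1 0 0 X *ᵥ v ∈ faW A n k := by
  intro i hi
  rw [Matrix.fromBlocks_mulVec, Sum.elim_inl, Matrix.zero_mulVec, Matrix.one_mulVec, add_zero]
  exact hv i hi

private theorem fa_card (n k : ℕ) : ((Finset.univ : Finset (Fin n ⊕ Fin k)).filter
    (fun x => ∃ i : Fin n, x = Sum.inl i ∧ i.1 < n / 2)).card = n / 2 := by
  classical
  have h1 : (Finset.univ : Finset (Fin n ⊕ Fin k)).filter
      (fun x => ∃ i : Fin n, x = Sum.inl i ∧ i.1 < n / 2) =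
      ((Finset.univ : Finset (Fin n)).filter (fun i => i.1 < n / 2)).map
        ⟨Sum.inl, Sum.inl_injective⟩ := by
    ext x
    simp only [Finset.mem_filter, Finset.mem_univ, true_and, Finset.mem_map,
      Function.Embedding.coeFn_mk]
    constructor
    · rintro ⟨i, rfl, hi⟩
      exact ⟨i, hi, rfl⟩
    · rintro ⟨i, hi, rfl⟩
      exact ⟨i, rfl, hi⟩
  rw [h1, Finset.card_map, Finset.card_filter,
    Fin.sum_univ_eq_sum_range (fun i => if i < n / 2 then 1 else 0) n, ← Finset.card_filter]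
  have h2 : (Finset.range n).filter (fun i => i < n / 2) = Finset.range (n / 2) := by
    ext i
    simp only [Finset.mem_filter, Finset.mem_range]
    omega
  rw [h2, Finset.card_range]

private theorem fa_finrank {A : Type} [Ring A] [Algebra ℝ A] [Module.Finite ℝ A] (n k : ℕ) :
    Module.finrank ℝ (faW A n k) = (n + k - n / 2) * Module.finrank ℝ A := by
  classical
  set J : Finset (Fin n ⊕ Fin k) := Finset.univ.filter
    (fun x => ∃ i : Fin n, x = Sum.inl i ∧ i.1 < n / 2) with hJ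
  have h1 : faW A n k = (⨅ i ∈ (J : Set (Fin n ⊕ Fin k)),
      LinearMap.ker (LinearMap.proj i : (Fin n ⊕ Fin k → A) →ₗ[ℝ] A)) := by
    ext v
    simp only [Submodule.mem_iInf, LinearMap.mem_ker, LinearMap.proj_apply, hJ,
      Finset.coe_filter, Finset.mem_univ, true_and, Set.mem_ofPred_eq]
    constructor
    · rintro hv x ⟨i, rfl, hi⟩
      exact hv i hi
    · intro hv i hi
      exact hv _ ⟨i, rfl, hi⟩
  have h2 := LinearEquiv.finrank_eq (LinearMap.iInfKerProjEquiv ℝ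
    (fun _ : Fin n ⊕ Fin k => A) (I := ((Jᶜ : Finset (Fin n ⊕ Fin k)) : Set (Fin n ⊕ Fin k)))
    (J := (J : Set (Fin n ⊕ Fin k))) (by
      rw [Finset.disjoint_coe]
      exact disjoint_compl_left) (by
      intro x _
      by_cases hx : x ∈ J
      · exact Or.inr hx
      · exact Or.inl (by simpa using hx)))
  rw [h1, h2, Module.finrank_pi_fintype]
  rw [Finset.sum_const, Finset.card_univ, smul_eq_mul]
  congr 1
  rw [← Set.toFinset_card, Finset.toFinset_coe, Finset.card_compl, hJ, fa_card,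
    Fintype.card_sum, Fintype.card_fin, Fintype.card_fin]

section

variable {A : Type} [Ring A] [StarRing A] [Algebra ℝ A] [Cen A]

/-- the embedding -/
private noncomputable def faE (A : Type) [Ring A] [StarRing A] [Algebra ℝ A] [Cen A] (g : Type)
    [LieRing g] [LieAlgebra ℝ g] (n k : ℕ) :
    g × Gr A (Fin k) →ₗ⁅ℝ⁆ g × cl A (Fin n ⊕ Fin k) :=
  LieHom.prodMap LieHom.id (lowHomA A n k)

private theorem faE_fst {g : Type} [LieRing g] [LieAlgebra ℝ g] {n k : ℕ}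
    (y : g × Gr A (Fin k)) : (faE A g n k y).1 = y.1 := rfl

private theorem faE_snd {g : Type} [LieRing g] [LieAlgebra ℝ g] {n k : ℕ}
    (y : g × Gr A (Fin k)) : (faE A g n k y).2.1 = fromBlocks 0 0 0 y.2.mat := rfl

private theorem fa_fst {g : Type} [LieRing g] [LieAlgebra ℝ g] {n k : ℕ}
    (h : LieSubalgebra ℝ (g × Gr A (Fin k))) :
    (h.map (faE A g n k)).map (LieHom.fst ℝ g (cl A (Fin n ⊕ Fin k))) =
      h.map (LieHom.fst ℝ g (Gr A (Fin k))) := by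
  ext x
  constructor
  · rintro ⟨_, ⟨y, hy, rfl⟩, rfl⟩
    exact ⟨y, hy, rfl⟩
  · rintro ⟨y, hy, rfl⟩
    exact ⟨faE A g n k y, ⟨y, hy, rfl⟩, rfl⟩

private theorem fa_corner {g : Type} [LieRing g] [LieAlgebra ℝ g] {n k : ℕ}
    (h : LieSubalgebra ℝ (g × Gr A (Fin k))) :
    (h.map (faE A g n k)).toSubmodule = cornerP n h := by
  ext x
  constructor
  · rintro ⟨y, hy, rfl⟩
    exact ⟨y, hy, rfl, rfl⟩
  · rintro ⟨y, hy, h1, h2⟩
    exact ⟨y, hy, Prod.ext h1.symm (Subtype.ext h2.symm)⟩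

omit [Algebra ℝ A] [Cen A] in
private theorem fa_unit {n k : ℕ} {u : Matrix (Fin k) (Fin k) A} (hu : u * uᴴ = 1) :
    (fromBlocks 1 0 0 u : Matrix (Fin n ⊕ Fin k) (Fin n ⊕ Fin k) A) *
      (fromBlocks 1 0 0 u)ᴴ = 1 := by
  rw [fromBlocks_conjTranspose, fromBlocks_multiply]
  simp [hu]

omit [Algebra ℝ A] [Cen A] in
private theorem fa_unit' {n k : ℕ} {u : Matrix (Fin k) (Fin k) A} (hu : uᴴ * u = 1) :
    (fromBlocks 1 0 0 u : Matrix (Fin n ⊕ Fin k) (Fin n ⊕ Fin k) A)ᴴ *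
      fromBlocks 1 0 0 u = 1 := by
  rw [fromBlocks_conjTranspose, fromBlocks_multiply]
  simp [hu]

omit [Algebra ℝ A] [Cen A] in
private theorem fa_conj {n k : ℕ} (u X : Matrix (Fin k) (Fin k) A) :
    (fromBlocks 1 0 0 u : Matrix (Fin n ⊕ Fin k) (Fin n ⊕ Fin k) A) * fromBlocks 0 0 0 X *
      (fromBlocks 1 0 0 u)ᴴ = fromBlocks 0 0 0 (u * X * uᴴ) := by
  rw [fromBlocks_conjTranspose, fromBlocks_multiply, fromBlocks_multiply]
  simp

/-- the automorphisms -/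
private def faG {g : Type} [LieRing g] [LieAlgebra ℝ g] (n : ℕ) {k : ℕ}
    (Γ : Set ((g ≃ₗ⁅ℝ⁆ g) × Matrix (Fin k) (Fin k) A)) :
    Set ((g ≃ₗ⁅ℝ⁆ g) × (cl A (Fin n ⊕ Fin k) ≃ₗ⁅ℝ⁆ cl A (Fin n ⊕ Fin k))) :=
  {δ | ∃ γ ∈ Γ, δ.1 = γ.1 ∧ AdU (fromBlocks 1 0 0 γ.2) δ.2}

private theorem fa_good [Coef A] [CoefU A] {g : Type} [LieRing g] [LieAlgebra ℝ g]
    [Module.Finite ℝ g] {k : ℕ} (h : LieSubalgebra ℝ (g × Gr A (Fin k)))
    (Γ : Set ((g ≃ₗ⁅ℝ⁆ g) × Matrix (Fin k) (Fin k) A)) : ∃ c K : ℝ, 1 ≤ c ∧ 1 ≤ K ∧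
    ∀ τ eps : ℝ, 0 < τ → 0 < eps → ∃ n₀ : ℕ, ∀ n ≥ n₀, 3 ≤ n ∧
      GoodAt ((h.map (faE A g n k)).map (LieHom.snd ℝ g (cl A (Fin n ⊕ Fin k))))
        {γ' | ∃ γ, (γ, γ') ∈ faG n Γ} c τ eps K := by
  obtain ⟨c, K, hc, hK, hE⟩ := good_I A (θ := 1 / 4) (by norm_num)
  refine ⟨c, K, hc, hK, ?_⟩
  intro τ eps hτ heps
  obtain ⟨δ, hδ, hE⟩ := hE τ eps hτ heps
  have : Module.Finite ℝ A := coef_finite A
  have : Module.Finite ℝ (Gr A (Fin k)) := inferInstanceAs (Module.Finite ℝ (cl A (Fin k)))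
  set d : ℕ := Module.finrank ℝ h with hd
  refine ⟨max (k + 3) (max ⌈1 / δ⌉₊ ⌈(d : ℝ) / δ⌉₊), ?_⟩
  intro n hn
  have hn1 : k + 3 ≤ n := (le_max_left _ _).trans hn
  have hn2 : 1 / δ ≤ (n : ℝ) := Nat.ceil_le.1
    (((le_max_left _ _).trans (le_max_right _ _)).trans hn)
  have hn3 : (d : ℝ) / δ ≤ (n : ℝ) := Nat.ceil_le.1
    (((le_max_right _ _).trans (le_max_right _ _)).trans hn)
  have hcard : Fintype.card (Fin n ⊕ Fin k) = n + k := by
    rw [Fintype.card_sum, Fintype.card_fin, Fintype.card_fin]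
  have hn0 : (1 : ℝ) ≤ n := by
    have : 1 ≤ n := by omega
    exact_mod_cast this
  have hkn : (n : ℝ) ≤ ((n + k : ℕ) : ℝ) := by
    push_cast
    have : (0 : ℝ) ≤ k := Nat.cast_nonneg k
    linarith
  have hfr : (Module.finrank ℝ (Fin n ⊕ Fin k → A) : ℝ) =
      ((n + k : ℕ) : ℝ) * Module.finrank ℝ A := by
    rw [Module.finrank_pi_fintype, Finset.sum_const, Finset.card_univ, hcard, smul_eq_mul]
    push_cast
    ring
  have hfW : (Module.finrank ℝ (faW A n k) : ℝ) =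
      ((n + k - n / 2 : ℕ) : ℝ) * Module.finrank ℝ A := by
    rw [fa_finrank]
    push_cast
    ring
  have hA0 : (0 : ℝ) ≤ Module.finrank ℝ A := Nat.cast_nonneg _
  refine ⟨by omega, hE (Fin n ⊕ Fin k) (by rw [hcard]; omega) (by
    rw [hcard]
    exact hn2.trans hkn) _ (faW A n k) (fun v hv u => fa_mul hv u) ?_ ?_ ?_ ?_ _ ?_⟩
  · rintro _ ⟨_, ⟨y, hy, rfl⟩, rfl⟩ v hv
    exact fa_zero _ v
  · rw [hfr, hfW]
    have h1 : (1 / 4 : ℝ) * ((n + k : ℕ) : ℝ) ≤ ((n + k - n / 2 : ℕ) : ℝ) := by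
      have h2 : n + k ≤ 4 * (n + k - n / 2) := by omega
      have h3 : ((n + k : ℕ) : ℝ) ≤ ((4 * (n + k - n / 2) : ℕ) : ℝ) := Nat.cast_le.2 h2
      rw [Nat.cast_mul] at h3
      norm_num at h3 ⊢
      linarith
    calc (1 / 4 : ℝ) * (((n + k : ℕ) : ℝ) * Module.finrank ℝ A) =
          (1 / 4 : ℝ) * ((n + k : ℕ) : ℝ) * Module.finrank ℝ A := by ring
      _ ≤ _ := mul_le_mul_of_nonneg_right h1 hA0
  · rw [hfr, hfW]
    have h1 : ((n + k - n / 2 : ℕ) : ℝ) ≤ (1 - 1 / 4 : ℝ) * ((n + k : ℕ) : ℝ) := by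
      have h2 : 4 * (n + k - n / 2) ≤ 3 * (n + k) := by omega
      have h3 : ((4 * (n + k - n / 2) : ℕ) : ℝ) ≤ ((3 * (n + k) : ℕ) : ℝ) := Nat.cast_le.2 h2
      rw [Nat.cast_mul, Nat.cast_mul] at h3
      norm_num at h3 ⊢
      linarith
    calc ((n + k - n / 2 : ℕ) : ℝ) * Module.finrank ℝ A ≤
          (1 - 1 / 4 : ℝ) * ((n + k : ℕ) : ℝ) * Module.finrank ℝ A :=
          mul_le_mul_of_nonneg_right h1 hA0
      _ = _ := by ring
  · rw [hcard]
    have h1 : Module.finrank ℝ ((h.map (faE A g n k)).map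
        (LieHom.snd ℝ g (cl A (Fin n ⊕ Fin k)))) ≤ d := by
      refine (Submodule.finrank_map_le (LieHom.snd ℝ g (cl A (Fin n ⊕ Fin k))).toLinearMap
        (h.map (faE A g n k)).toSubmodule).trans ?_
      exact Submodule.finrank_map_le (faE A g n k).toLinearMap h.toSubmodule
    have h2 : (Module.finrank ℝ ((h.map (faE A g n k)).map
        (LieHom.snd ℝ g (cl A (Fin n ⊕ Fin k)))) : ℝ) ≤ d := Nat.cast_le.2 h1
    refine h2.trans ?_
    rw [div_le_iff₀ hδ] at hn3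
    have h3 : (n : ℝ) ≤ ((n + k : ℕ) : ℝ) ^ 2 := by nlinarith
    calc (d : ℝ) ≤ n * δ := hn3
      _ = δ * n := by ring
      _ ≤ _ := mul_le_mul_of_nonneg_left h3 hδ.le
  · rintro γ' ⟨γ, ⟨⟨γ₀, u⟩, hγ, -, hu⟩⟩
    exact ⟨_, hu, fun v hv => fa_one _ hv⟩

end

theorem bundles_einstein (A : Type) [Ring A] [StarRing A] [Algebra ℝ A] [Cen A] [Coef A]
    [CoefU A] : BundlesEinstein A := by
  intro g _ _ _ hg k h Γ hΓ hi hr
  obtain ⟨K₁, hK₁, hF⟩ := facW_normal hg hr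
  obtain ⟨c₂, K₂, hc₂, hK₂, hgood⟩ := fa_good h Γ
  obtain ⟨c, hc⟩ : ∃ c : ℝ, c = max 4 c₂ := ⟨_, rfl⟩
  obtain ⟨K, hK⟩ : ∃ K : ℝ, K = max K₁ K₂ := ⟨_, rfl⟩
  have hc4 : 4 ≤ c := by rw [hc]; exact le_max_left _ _
  have hcc : c₂ ≤ c := by rw [hc]; exact le_max_right _ _
  have hK1 : K₁ ≤ K := by rw [hK]; exact le_max_left _ _
  have hK2 : K₂ ≤ K := by rw [hK]; exact le_max_right _ _
  have hc0 : 0 < c := by linarith
  have hK0 : 0 < K := by linarith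
  obtain ⟨τ, hτ⟩ : ∃ τ : ℝ, τ = 1 / (500 * (K + 2) * c ^ 10) := ⟨_, rfl⟩
  have hD : 0 < 500 * (K + 2) * c ^ 10 := by positivity
  have hτ0 : 0 < τ := by rw [hτ]; positivity
  obtain ⟨eps, heps⟩ : ∃ eps : ℝ, eps = 1 / (5000 * (K + 2) ^ 2 * c ^ 10) := ⟨_, rfl⟩
  have hD' : 0 < 5000 * (K + 2) ^ 2 * c ^ 10 := by positivity
  have heps0 : 0 < eps := by rw [heps]; positivity
  obtain ⟨n₁, hn₁⟩ := hgood τ eps hτ0 heps0
  obtain ⟨n₂, hn₂⟩ := fr_norm h hi (16 / τ ^ 2)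
  have hM : 0 < 16 / τ ^ 2 := by positivity
  refine ⟨max n₁ n₂, ?_⟩
  intro n hn
  obtain ⟨hn3, hgd⟩ := hn₁ n ((le_max_left _ _).trans hn)
  have hg' : CompactSemisimple (cl A (Fin n ⊕ Fin k)) := by
    refine cl_comp ?_
    rw [Fintype.card_sum, Fintype.card_fin, Fintype.card_fin]
    omega
  have hle : ∀ y ∈ h.map (faE A g n k), 16 / τ ^ 2 * Qf g y.1 y.1 ≤
      Qf (cl A (Fin n ⊕ Fin k)) y.2 y.2 := by
    rintro _ ⟨y, hy, rfl⟩
    exact hn₂ n ((le_max_right _ _).trans hn) y hy _ rfl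
  have hset : {γ : g ≃ₗ⁅ℝ⁆ g | ∃ γ', (γ, γ') ∈ faG n Γ} = {γ | ∃ u, (γ, u) ∈ Γ} := by
    ext γ
    constructor
    · rintro ⟨γ', ⟨⟨γ₀, u⟩, h1, h2, -⟩⟩
      refine ⟨u, ?_⟩
      have h3 : γ = γ₀ := h2
      rw [h3]
      exact h1
    · rintro ⟨u, hu⟩
      have h1 := hΓ _ hu
      exact ⟨clConj _ (fa_unit (n := n) h1.1) (fa_unit' h1.2.1), (γ, u), hu, rfl,
        fa_unit h1.1, fa_unit' h1.2.1, fun x => rfl⟩
  have key := two_fac (g := g) (g' := cl A (Fin n ⊕ Fin k)) (h := h.map (faE A g n k))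
    (Γ := faG n Γ) (c := c) (τ := τ) (eps := eps) (K := K)
    (S := (4 : ℝ) • LinearMap.id) (T := (1 / 4 : ℝ) • LinearMap.id) (Pp := 0) (D := 0) (by
      rw [fa_fst, hset]
      exact hF.mono hc4 heps0.le hK1) (good_mono hgd hcc hK2) (by linarith)
    (by linarith) hτ0.le heps0.le
    (by rw [hτ, mul_one_div_cancel hD.ne']) (by rw [heps, mul_one_div_cancel hD'.ne']) (by
      rintro ⟨γ, γ'⟩ ⟨⟨γ₀, u⟩, h1, h2, h3⟩ _ ⟨y, hy, rfl⟩
      obtain ⟨y', hy', e1, e2⟩ := (hΓ _ h1).2.2 y hy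
      refine ⟨y', hy', Prod.ext ?_ (Subtype.ext ?_)⟩
      · have h4 : γ = γ₀ := h2
        change y'.1 = γ y.1
        rw [h4]
        exact e1
      · change fromBlocks 0 0 0 y'.2.mat = (γ' (faE A g n k y).2).1
        rw [h3.2.2, faE_snd, fa_conj, e2])
    (by
      intro m a ha ho x
      have h1 := fr_cas hg hg' hM hle ha ho x
      have hQ := Qf_nonneg hg x
      have h2 : 1 / (16 / τ ^ 2) = τ ^ 2 / 16 := by
        rw [one_div_div]
      rw [h2] at h1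
      have h3 : 0 ≤ τ ^ 2 * Qf g x x := by positivity
      have h4 : ∀ r : ℝ, ∀ u : g, Qf g ⁅(r • LinearMap.id : g →ₗ[ℝ] g) u, x⁆
          ⁅(r • LinearMap.id : g →ₗ[ℝ] g) u, x⁆ = r ^ 2 * Qf g ⁅u, x⁆ ⁅u, x⁆ := by
        intro r u
        have e : (r • LinearMap.id : g →ₗ[ℝ] g) u = r • u := rfl
        rw [e, smul_lie, map_smul, map_smul, LinearMap.smul_apply, smul_eq_mul, smul_eq_mul]
        ring
      simp only [h4, ← Finset.mul_sum]
      refine ⟨by linarith, by linarith, by linarith⟩)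
  have key' : HasEinsteinMetric (g × cl A (Fin n ⊕ Fin k)) (cornerP n h)
      {δ | ∃ γ ∈ faG n Γ, ∀ x, δ x = (γ.1 x.1, γ.2 x.2)} := by
    rw [← fa_corner]
    exact key
  refine einstein_mono key' ?_
  rintro δ ⟨⟨γ, u⟩, hγ, hδ⟩
  have h1 := hΓ _ hγ
  refine ⟨(γ, clConj _ (fa_unit (n := n) h1.1) (fa_unit' h1.2.1)), ⟨(γ, u), hγ, rfl,
    fa_unit h1.1, fa_unit' h1.2.1, fun x => rfl⟩, fun x => ?_⟩
  exact Prod.ext (hδ x).1 (Subtype.ext (hδ x).2)

theorem rigidFor_of_rigid {g : Type} [LieRing g] [LieAlgebra ℝ g] (hr : Rigid g)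
    (h : LieSubalgebra ℝ g) (G : Set (g ≃ₗ⁅ℝ⁆ g)) : RigidFor h G := fun T hT _ => hr T hT

theorem bundles_real : BundlesEinstein ℝ := bundles_einstein ℝ

theorem bundles_complex : BundlesEinstein ℂ := bundles_einstein ℂ

theorem bundles_quat : BundlesEinstein ℍ[ℝ] := bundles_einstein ℍ[ℝ]

end Pool.Agent.EinV
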