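import Pool.Agent.EinV.Good
import Pool.Agent.EinV.FrDefs
import Pool.Agent.SmIso.GapF

/-!
# The normal metric as a base metric

With `S = 4`, `T = 1/4`, `D = 0`, `Pp = 0` one has `ellQG S T D 1 β z = 2 * TH2 1 β z z - Qf (β z) z` (`TH2` is symmetric in its two operators: `trace` is cyclic), which vanishes for all `z` iff
`CasimirOne β` (polarise; `TH2 1 β x y` is symmetric in `x`, `y` for `QSym β`, trace of the transposed).  So by `RigidFor` the linear map `β ↦ ellQG .. β` is injective on the finite dimensional space of the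
operators in `ClsG h G S`; compactness gives `K` (as in `BlkGap.lean` of `EinG`, or `SmIso/RigGap.lean`).
-/

namespace Pool.Agent.EinV

open Pool.Agent.EStab Pool.Agent.EinS Pool.Agent.SmIso Pool.Agent.EinU Pool.Agent.EinG

section RigGap

variable {L : Type*} [LieRing L] [LieAlgebra ℝ L]

/-- The symmetric endomorphisms which commute with the automorphisms in `G`. -/
private def frGrSym (G : Set (L ≃ₗ⁅ℝ⁆ L)) : Submodule ℝ (L →ₗ[ℝ] L) where
  carrier := {T | QSym T ∧ ∀ γ ∈ G, ∀ x, T (γ x) = γ (T x)}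
  add_mem' := fun {a b} ha hb => by
    refine ⟨fun x y => ?_, fun γ hγ x => ?_⟩
    · rw [LinearMap.add_apply, LinearMap.add_apply, map_add, LinearMap.add_apply, map_add,
        ha.1 x y, hb.1 x y]
    · rw [LinearMap.add_apply, LinearMap.add_apply, map_add, ha.2 γ hγ, hb.2 γ hγ]
  zero_mem' := by
    refine ⟨fun x y => ?_, fun γ hγ x => ?_⟩
    · rw [LinearMap.zero_apply, LinearMap.zero_apply, map_zero, map_zero, LinearMap.zero_apply]
    · rw [LinearMap.zero_apply, LinearMap.zero_apply, map_zero]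
  smul_mem' := fun c T h => by
    refine ⟨fun x y => ?_, fun γ hγ x => ?_⟩
    · rw [LinearMap.smul_apply, LinearMap.smul_apply, map_smul, LinearMap.smul_apply, map_smul,
        h.1 x y]
    · rw [LinearMap.smul_apply, LinearMap.smul_apply, map_smul, h.2 γ hγ]

/-- The form `2 TH` subtracted from the form of `T`. -/
private noncomputable def frGrB (T : L →ₗ[ℝ] L) (x y : L) : ℝ := Qf L (T x) y - 2 * TH T x y

private theorem frGr_TH_add (S T : L →ₗ[ℝ] L) (x y : L) : TH (S + T) x y = TH S x y + TH T x y := by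
  unfold TH
  rw [LinearMap.add_comp, LinearMap.comp_add, map_add]
  ring

private theorem frGr_TH_smul (c : ℝ) (T : L →ₗ[ℝ] L) (x y : L) : TH (c • T) x y = c * TH T x y := by
  unfold TH
  rw [LinearMap.smul_comp, LinearMap.comp_smul, map_smul, smul_eq_mul]
  ring

private theorem frGr_TH_left (T : L →ₗ[ℝ] L) (x x' y : L) : TH T (x + x') y = TH T x y + TH T x' y := by
  unfold TH
  rw [map_add]
  change -LinearMap.trace ℝ L (((LieAlgebra.ad ℝ L x : L →ₗ[ℝ] L) + (LieAlgebra.ad ℝ L x' : L →ₗ[ℝ] L)) ∘ₗ T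
    ∘ₗ (LieAlgebra.ad ℝ L y : L →ₗ[ℝ] L)) = _
  rw [LinearMap.add_comp, map_add]
  ring

private theorem frGr_TH_lsmul (T : L →ₗ[ℝ] L) (c : ℝ) (x y : L) : TH T (c • x) y = c * TH T x y := by
  unfold TH
  rw [map_smul]
  change -LinearMap.trace ℝ L ((c • (LieAlgebra.ad ℝ L x : L →ₗ[ℝ] L)) ∘ₗ T
    ∘ₗ (LieAlgebra.ad ℝ L y : L →ₗ[ℝ] L)) = _
  rw [LinearMap.smul_comp, map_smul, smul_eq_mul]
  ring

private theorem frGr_TH_right (T : L →ₗ[ℝ] L) (x y y' : L) : TH T x (y + y') = TH T x y + TH T x y' := by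
  unfold TH
  rw [map_add]
  change -LinearMap.trace ℝ L ((LieAlgebra.ad ℝ L x : L →ₗ[ℝ] L) ∘ₗ T
    ∘ₗ ((LieAlgebra.ad ℝ L y : L →ₗ[ℝ] L) + (LieAlgebra.ad ℝ L y' : L →ₗ[ℝ] L))) = _
  rw [LinearMap.comp_add, LinearMap.comp_add, map_add]
  ring

private theorem frGr_TH_rsmul (T : L →ₗ[ℝ] L) (c : ℝ) (x y : L) : TH T x (c • y) = c * TH T x y := by
  unfold TH
  rw [map_smul]
  change -LinearMap.trace ℝ L ((LieAlgebra.ad ℝ L x : L →ₗ[ℝ] L) ∘ₗ T
    ∘ₗ (c • (LieAlgebra.ad ℝ L y : L →ₗ[ℝ] L))) = _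
  rw [LinearMap.comp_smul, LinearMap.comp_smul, map_smul, smul_eq_mul]
  ring

/-- The form `TH T` as a bilinear form. -/
private noncomputable def frGrTH (T : L →ₗ[ℝ] L) : L →ₗ[ℝ] L →ₗ[ℝ] ℝ :=
  LinearMap.mk₂ ℝ (TH T) (frGr_TH_left T) (frGr_TH_lsmul T) (frGr_TH_right T) (frGr_TH_rsmul T)

private theorem frGr_symm {ι : Type*} [Fintype ι] [DecidableEq ι] {e : ι → L}
    (he : IsFrame (⊤ : Submodule ℝ L) e) {T : L →ₗ[ℝ] L} (hT : QSym T) (x y : L) :
    TH T x y = TH T y x := by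
  rw [TH_frame he, TH_frame he]
  refine Finset.sum_congr rfl fun i _ => ?_
  rw [hT, Qf_symm]

private theorem frGr_inj {ι : Type*} [Fintype ι] [DecidableEq ι] {e : ι → L}
    (he : IsFrame (⊤ : Submodule ℝ L) e) {G : Set (L ≃ₗ⁅ℝ⁆ L)}
    (hr : ∀ T : L →ₗ[ℝ] L, CasimirOne T → (∀ γ ∈ G, ∀ x, T (γ x) = γ (T x)) → T = 0)
    {T : L →ₗ[ℝ] L} (hT : QSym T) (hG : ∀ γ ∈ G, ∀ x, T (γ x) = γ (T x))
    (h : ∀ i j, frGrB T (e i) (e j) = 0) : T = 0 := by
  have h1 : (Qf L ∘ₗ T : L →ₗ[ℝ] L →ₗ[ℝ] ℝ) = (2 : ℝ) • frGrTH T := by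
    refine he.basis.ext fun i => he.basis.ext fun j => ?_
    rw [he.basis_apply, he.basis_apply]
    have := h i j
    unfold frGrB at this
    change Qf L (T (e i)) (e j) = 2 * TH T (e i) (e j)
    linarith
  refine hr T ⟨fun x y => ?_, fun x y => ?_⟩ hG
  · have := hT x y
    rw [Qf_apply, Qf_apply] at this
    linarith
  · have h2 : Qf L (T x) y = 2 * TH T x y := by
      have := congrArg (fun f : L →ₗ[ℝ] L →ₗ[ℝ] ℝ => f x y) h1
      exact this
    rw [Qf_apply] at h2
    unfold TH at h2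
    linarith

/-- The entries of the form of `T - 2 Θ T`. -/
private noncomputable def frGrF {n : ℕ} (G : Set (L ≃ₗ⁅ℝ⁆ L)) (e : Fin n → L) : frGrSym G →ₗ[ℝ] (Fin n → Fin n → ℝ) where
  toFun := fun T i j => frGrB T.1 (e i) (e j)
  map_add' := fun S T => by
    funext i j
    change frGrB (S.1 + T.1) (e i) (e j) = frGrB S.1 (e i) (e j) + frGrB T.1 (e i) (e j)
    unfold frGrB
    rw [frGr_TH_add, LinearMap.add_apply, map_add, LinearMap.add_apply]
    ring
  map_smul' := fun c T => by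
    funext i j
    change frGrB (c • T.1) (e i) (e j) = c * frGrB T.1 (e i) (e j)
    unfold frGrB
    rw [frGr_TH_smul, LinearMap.smul_apply, map_smul, LinearMap.smul_apply, smul_eq_mul]
    ring

/-- The entries of the form of `T`. -/
private noncomputable def frGrG {n : ℕ} (G : Set (L ≃ₗ⁅ℝ⁆ L)) (e : Fin n → L) : frGrSym G →ₗ[ℝ] (Fin n → Fin n → ℝ) where
  toFun := fun T i j => Qf L (T.1 (e i)) (e j)
  map_add' := fun S T => by
    funext i j
    change Qf L ((S.1 + T.1) (e i)) (e j) = Qf L (S.1 (e i)) (e j) + Qf L (T.1 (e i)) (e j)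
    rw [LinearMap.add_apply, map_add, LinearMap.add_apply]
  map_smul' := fun c T => by
    funext i j
    change Qf L ((c • T.1) (e i)) (e j) = c * Qf L (T.1 (e i)) (e j)
    rw [LinearMap.smul_apply, map_smul, LinearMap.smul_apply, smul_eq_mul]

private theorem frGr_bound {n : ℕ} {e : Fin n → L} (he : IsFrame (⊤ : Submodule ℝ L) e)
    {G : Set (L ≃ₗ⁅ℝ⁆ L)}
    (hr : ∀ T : L →ₗ[ℝ] L, CasimirOne T → (∀ γ ∈ G, ∀ x, T (γ x) = γ (T x)) → T = 0) :
    ∃ C : ℝ, 0 ≤ C ∧ ∀ T : L →ₗ[ℝ] L, QSym T → (∀ γ ∈ G, ∀ x, T (γ x) = γ (T x)) →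
      ∀ s : ℝ, 0 ≤ s → (∀ i j, |frGrB T (e i) (e j)| ≤ s) → ∀ i j, |Qf L (T (e i)) (e j)| ≤ C * s := by
  have hker : LinearMap.ker (frGrF G e) = ⊥ := by
    rw [LinearMap.ker_eq_bot']
    intro T hT
    apply Subtype.ext
    exact frGr_inj he hr T.2.1 T.2.2 fun i j => congrFun (congrFun hT i) j
  obtain ⟨g, hg⟩ := LinearMap.exists_leftInverse_of_injective (frGrF G e) hker
  set k : (Fin n → Fin n → ℝ) →L[ℝ] (Fin n → Fin n → ℝ) :=
    LinearMap.toContinuousLinearMap (frGrG G e ∘ₗ g) with hk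
  refine ⟨‖k‖, norm_nonneg _, fun T hT hTG s hs hB i j => ?_⟩
  set T' : frGrSym G := ⟨T, hT, hTG⟩ with hT'
  have h1 : k (frGrF G e T') = frGrG G e T' := by
    change frGrG G e (g (frGrF G e T')) = _
    have := congrArg (fun f : frGrSym G →ₗ[ℝ] frGrSym G => f T') hg
    change g (frGrF G e T') = T' at this
    rw [this]
  have h2 : ‖frGrF G e T'‖ ≤ s := by
    rw [pi_norm_le_iff_of_nonneg hs]
    intro i
    rw [pi_norm_le_iff_of_nonneg hs]
    intro j
    exact hB i j
  have h3 : ‖frGrG G e T'‖ ≤ ‖k‖ * s := by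
    rw [← h1]
    exact (k.le_opNorm _).trans (mul_le_mul_of_nonneg_left h2 (norm_nonneg _))
  have h4 : ‖frGrG G e T' i j‖ ≤ ‖frGrG G e T'‖ :=
    (norm_le_pi_norm (frGrG G e T' i) j).trans (norm_le_pi_norm (frGrG G e T') i)
  exact h4.trans h3

private theorem frGr_polar {n : ℕ} {e : Fin n → L} (he : IsFrame (⊤ : Submodule ℝ L) e)
    {T : L →ₗ[ℝ] L} (hT : QSym T) {s : ℝ}
    (hs : ∀ x, |Qf L (T x) x - 2 * TH T x x| ≤ s * Qf L x x) (i j : Fin n) :
    |frGrB T (e i) (e j)| ≤ s := by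
  have h1 := hs (e i + e j)
  have h2 := hs (e i - e j)
  have hTs := frGr_symm he hT (e i) (e j)
  have hQs : Qf L (T (e i)) (e j) = Qf L (T (e j)) (e i) := by rw [hT, Qf_symm]
  have hb : ∀ x y : L, TH T (x - y) (x - y) = TH T x x - TH T x y - TH T y x + TH T y y := by
    intro x y
    have := congrArg (fun r : ℝ => r) (show frGrTH T (x - y) (x - y) =
      frGrTH T x x - frGrTH T x y - frGrTH T y x + frGrTH T y y by
        rw [map_sub, map_sub, LinearMap.sub_apply, LinearMap.sub_apply]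
        ring)
    exact this
  have ha : ∀ x y : L, TH T (x + y) (x + y) = TH T x x + TH T x y + TH T y x + TH T y y := by
    intro x y
    rw [frGr_TH_left, frGr_TH_right, frGr_TH_right]
    ring
  have hqa : ∀ x y : L, Qf L (T (x + y)) (x + y) =
      Qf L (T x) x + Qf L (T x) y + Qf L (T y) x + Qf L (T y) y := by
    intro x y
    rw [map_add, map_add, map_add, LinearMap.add_apply, LinearMap.add_apply]
    ring
  have hqb : ∀ x y : L, Qf L (T (x - y)) (x - y) =
      Qf L (T x) x - Qf L (T x) y - Qf L (T y) x + Qf L (T y) y := by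
    intro x y
    rw [map_sub, map_sub, map_sub, LinearMap.sub_apply, LinearMap.sub_apply]
    ring
  have hca : Qf L (e i + e j) (e i + e j) =
      Qf L (e i) (e i) + Qf L (e i) (e j) + Qf L (e j) (e i) + Qf L (e j) (e j) := by
    rw [map_add, map_add, LinearMap.add_apply, LinearMap.add_apply]
    ring
  have hcb : Qf L (e i - e j) (e i - e j) =
      Qf L (e i) (e i) - Qf L (e i) (e j) - Qf L (e j) (e i) + Qf L (e j) (e j) := by
    rw [map_sub, map_sub, LinearMap.sub_apply, LinearMap.sub_apply]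
    ring
  have hii : Qf L (e i) (e i) = 1 := by rw [he.orth, if_pos rfl]
  have hjj : Qf L (e j) (e j) = 1 := by rw [he.orth, if_pos rfl]
  rw [hqa, ha, hca, hii, hjj, ← hTs, ← hQs, Qf_symm (e j) (e i)] at h1
  rw [hqb, hb, hcb, hii, hjj, ← hTs, ← hQs, Qf_symm (e j) (e i)] at h2
  rw [abs_le] at h1 h2 ⊢
  unfold frGrB
  constructor
  · linarith [h1.1, h1.2, h2.1, h2.2]
  · linarith [h1.1, h1.2, h2.1, h2.2]

end RigGap

private theorem frGr_gap {L : Type*} [LieRing L] [LieAlgebra ℝ L] [Module.Finite ℝ L]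
    (hg : CompactSemisimple L) {G : Set (L ≃ₗ⁅ℝ⁆ L)}
    (hr : ∀ T : L →ₗ[ℝ] L, CasimirOne T → (∀ γ ∈ G, ∀ x, T (γ x) = γ (T x)) → T = 0) :
    ∃ K : ℝ, 1 ≤ K ∧ ∀ T : L →ₗ[ℝ] L, QSym T → (∀ γ ∈ G, ∀ x, T (γ x) = γ (T x)) →
      ∀ s : ℝ, (∀ x, |Qf L (T x) x - 2 * TH T x x| ≤ s * Qf L x x) →
      ∀ x, |Qf L (T x) x| ≤ K * s * Qf L x x := by
  obtain ⟨n, e, he⟩ := exists_frame hg (⊤ : Submodule ℝ L)
  obtain ⟨C, hC, hb⟩ := frGr_bound he hr
  refine ⟨max 1 (C * n), le_max_left _ _, fun T hT hTG s hs x => ?_⟩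
  rcases eq_or_ne x 0 with rfl | hx
  · rw [map_zero, map_zero, abs_zero, mul_zero]
  have hxp := Qf_pos hg hx
  have hs0 : 0 ≤ s := by
    have := (abs_nonneg _).trans (hs x)
    by_contra hneg
    push Not at hneg
    nlinarith
  have h1 := hb T hT hTG s hs0 (fun i j => frGr_polar he hT hs i j)
  have h2 : Qf L (T x) x = ∑ i, ∑ j, Qf L x (e i) * Qf L x (e j) * Qf L (T (e i)) (e j) := by
    have hx' := he.exp x Submodule.mem_top
    have h3 : T x = ∑ i, Qf L x (e i) • T (e i) := by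
      conv_lhs => rw [hx']
      rw [map_sum]
      exact Finset.sum_congr rfl fun i _ => map_smul _ _ _
    rw [h3, Qf_sum]
    refine Finset.sum_congr rfl fun i _ => ?_
    have h3' : Qf L (T (e i)) x = ∑ j, Qf L x (e j) * Qf L (T (e i)) (e j) := by
      conv_lhs => rw [hx']
      rw [Qf_sum']
    rw [h3', Finset.mul_sum]
    refine Finset.sum_congr rfl fun j _ => ?_
    ring
  have h4 : Qf L x x = ∑ i, Qf L x (e i) ^ 2 := by
    rw [he.parseval Submodule.mem_top x]
    exact Finset.sum_congr rfl fun i _ => (pow_two _).symm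
  have h5 : |Qf L (T x) x| ≤ (∑ i, |Qf L x (e i)|) ^ 2 * (C * s) := by
    rw [h2, pow_two, Finset.sum_mul_sum, Finset.sum_mul]
    refine (Finset.abs_sum_le_sum_abs _ _).trans (Finset.sum_le_sum fun i _ => ?_)
    rw [Finset.sum_mul]
    refine (Finset.abs_sum_le_sum_abs _ _).trans (Finset.sum_le_sum fun j _ => ?_)
    rw [abs_mul, abs_mul]
    exact mul_le_mul_of_nonneg_left (h1 i j) (mul_nonneg (abs_nonneg _) (abs_nonneg _))
  have h6 : (∑ i, |Qf L x (e i)|) ^ 2 ≤ n * Qf L x x := by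
    have := sq_sum_le_card_mul_sum_sq (s := Finset.univ) (f := fun i : Fin n => |Qf L x (e i)|)
    rw [Finset.card_univ, Fintype.card_fin] at this
    rw [h4]
    refine this.trans (le_of_eq ?_)
    congr 1
    exact Finset.sum_congr rfl fun i _ => sq_abs _
  have h7 : |Qf L (T x) x| ≤ (C * n) * s * Qf L x x := by
    refine h5.trans ((mul_le_mul_of_nonneg_right h6 (mul_nonneg hC hs0)).trans (le_of_eq ?_))
    ring
  refine h7.trans ?_
  exact mul_le_mul_of_nonneg_right (mul_le_mul_of_nonneg_right (le_max_right _ _) hs0) hxp.le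

/-! ### The normal metric -/

section Norm

variable {L : Type*} [LieRing L] [LieAlgebra ℝ L]

private theorem frG_TH2 (a b : ℝ) (T U : L →ₗ[ℝ] L) (x y : L) :
    TH2 (a • T) (b • U) x y = a * b * TH2 T U x y := by
  unfold TH2
  rw [LinearMap.smul_comp, LinearMap.comp_smul, map_smul, LinearMap.comp_smul,
    LinearMap.comp_smul, LinearMap.comp_smul, map_smul, smul_eq_mul, smul_eq_mul]
  ring

private theorem frG_TH2_one (T : L →ₗ[ℝ] L) (x y : L) : TH2 T LinearMap.id x y = TH T x y := by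
  unfold TH2 TH
  rw [LinearMap.comp_id]

private theorem frG_TH2_comm (T : L →ₗ[ℝ] L) (x : L) : TH2 LinearMap.id T x x = TH T x x := by
  unfold TH2 TH
  rw [LinearMap.id_comp]
  have := LinearMap.trace_mul_comm ℝ (LieAlgebra.ad ℝ L x : L →ₗ[ℝ] L)
    ((LieAlgebra.ad ℝ L x : L →ₗ[ℝ] L) ∘ₗ T)
  rw [Module.End.mul_eq_comp, Module.End.mul_eq_comp, LinearMap.comp_assoc] at this
  rw [this]

private theorem frG_TH_id (x : L) : TH LinearMap.id x x = Qf L x x := by
  unfold TH
  rw [LinearMap.id_comp]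
  rfl

private theorem frG_TH2_zero (T U : L →ₗ[ℝ] L) : TH2 T U 0 0 = 0 := by
  unfold TH2
  rw [map_zero]
  change -LinearMap.trace ℝ L ((0 : L →ₗ[ℝ] L) ∘ₗ T ∘ₗ (0 : L →ₗ[ℝ] L) ∘ₗ U) = 0
  rw [LinearMap.zero_comp, map_zero, neg_zero]

private theorem frG_TH2_smul (c : ℝ) (T U : L →ₗ[ℝ] L) (x : L) :
    TH2 T U (c • x) (c • x) = c * c * TH2 T U x x := by
  unfold TH2
  rw [map_smul]
  change -LinearMap.trace ℝ L ((c • (LieAlgebra.ad ℝ L x : L →ₗ[ℝ] L)) ∘ₗ T ∘ₗ
    (c • (LieAlgebra.ad ℝ L x : L →ₗ[ℝ] L)) ∘ₗ U) = _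
  rw [LinearMap.smul_comp, LinearMap.smul_comp, LinearMap.comp_smul, LinearMap.comp_smul,
    map_smul, map_smul, smul_eq_mul, smul_eq_mul]
  ring

private theorem frG_TH2_left (c : ℝ) (T : L →ₗ[ℝ] L) (x : L) :
    TH2 (c • LinearMap.id) T x x = c * TH T x x := by
  have := frG_TH2 c 1 LinearMap.id T x x
  rw [one_smul, mul_one, frG_TH2_comm] at this
  exact this

private theorem frG_TH2_conj (a b : ℝ) (T : L →ₗ[ℝ] L) (x : L) :
    TH2 ((a • LinearMap.id) ∘ₗ T ∘ₗ (a • LinearMap.id)) (b • LinearMap.id) x x =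
      a * a * b * TH T x x := by
  have h1 : ((a • LinearMap.id) ∘ₗ T ∘ₗ (a • LinearMap.id) : L →ₗ[ℝ] L) = (a * a) • T := by
    rw [LinearMap.smul_comp, LinearMap.id_comp, LinearMap.comp_smul, LinearMap.comp_id, smul_smul]
  rw [h1, frG_TH2, frG_TH2_one]

private theorem frG_ell (β : L →ₗ[ℝ] L) (z : L) :
    ellQG ((4 : ℝ) • LinearMap.id) ((1 / 4 : ℝ) • LinearMap.id) 0 1 β z =
      -(Qf L (β z) z - 2 * TH β z z) := by
  unfold ellQG
  rw [LinearMap.zero_apply, map_zero, map_zero]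
  have h1 : (((4 : ℝ) • LinearMap.id : L →ₗ[ℝ] L)) z = (4 : ℝ) • z := rfl
  rw [h1, frG_TH2_smul, frG_TH2_smul, frG_TH2_left, frG_TH2_conj, frG_TH2_left]
  ring

end Norm

theorem facW_normal {g : Type} [LieRing g] [LieAlgebra ℝ g] [Module.Finite ℝ g]
    (hg : CompactSemisimple g) {h : LieSubalgebra ℝ g} {G : Set (g ≃ₗ⁅ℝ⁆ g)}
    (hr : RigidFor h G) : ∃ K : ℝ, 1 ≤ K ∧
      FacW h G ((4 : ℝ) • LinearMap.id) ((1 / 4 : ℝ) • LinearMap.id) 0 0 4 1 0 K := by
  obtain ⟨K, hK1, hK⟩ := frGr_gap (L := g) hg (G := {γ | γ ∈ G ∨ ∀ y ∈ h, γ y = y})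
    (fun T hT hTG => hr T hT fun γ hγ x => hTG γ hγ x)
  have hS : ∀ x : g, (((4 : ℝ) • LinearMap.id : g →ₗ[ℝ] g)) x = (4 : ℝ) • x := fun x => rfl
  have hT : ∀ x : g, (((1 / 4 : ℝ) • LinearMap.id : g →ₗ[ℝ] g)) x = (1 / 4 : ℝ) • x := fun x => rfl
  have hp := fun x : g => Qf_nonneg hg x
  refine ⟨K, hK1, ?_⟩
  constructor
  case comp => exact hg
  case symS =>
    intro x y
    rw [hS, hS, map_smul, map_smul, LinearMap.smul_apply]
  case symT =>
    intro x y
    rw [hT, hT, map_smul, map_smul, LinearMap.smul_apply]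
  case symP =>
    intro x y
    rw [LinearMap.zero_apply, LinearMap.zero_apply, map_zero, map_zero, LinearMap.zero_apply]
  case symD =>
    intro x y
    rw [LinearMap.zero_apply, LinearMap.zero_apply, map_zero, map_zero, LinearMap.zero_apply]
  case ST =>
    intro x
    rw [hT, hS, smul_smul]
    norm_num
  case TS =>
    intro x
    rw [hT, hS, smul_smul]
    norm_num
  case c1 => norm_num
  case e0 => exact le_rfl
  case K1 => exact hK1
  case loS =>
    intro x
    rw [hS, map_smul, LinearMap.smul_apply, smul_eq_mul]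
    nlinarith [hp x]
  case hiS =>
    intro x
    rw [hS, map_smul, LinearMap.smul_apply, smul_eq_mul]
  case loT =>
    intro x
    rw [hT, map_smul, LinearMap.smul_apply, smul_eq_mul]
    nlinarith [hp x]
  case hiT =>
    intro x
    rw [hT, map_smul, LinearMap.smul_apply, smul_eq_mul]
    nlinarith [hp x]
  case bdD =>
    intro x
    rw [LinearMap.zero_apply, map_zero, LinearMap.zero_apply, abs_zero]
    nlinarith [hp x]
  case pp2 => exact fun x => rfl
  case Spp =>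
    intro x
    rw [LinearMap.zero_apply, LinearMap.zero_apply, map_zero]
  case Dpp => exact fun x => rfl
  case SD =>
    intro x
    rw [LinearMap.zero_apply, LinearMap.zero_apply, map_zero]
  case hpp => exact fun y _ => rfl
  case uts =>
    intro x
    rw [frG_TH2, frG_TH2_one, frG_TH_id, LinearMap.zero_apply, map_zero, LinearMap.zero_apply]
    ring
  case la => norm_num
  case lac => norm_num
  case la' => norm_num
  case base =>
    intro x
    rw [LinearMap.zero_apply, map_zero, map_zero, LinearMap.zero_apply, frG_TH2, frG_TH2_one,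
      frG_TH_id, hS, map_smul, LinearMap.smul_apply, smul_eq_mul]
    rw [show 1 / 2 * (0 : ℝ) + 1 / 4 * (4 * 4 * Qf g x x) - 1 * (4 * Qf g x x) = 0 by ring,
      abs_zero, zero_mul]
  case inv =>
    intro γ _ x
    rw [hS, hS, map_smul]
  case offP => exact fun v _ => rfl
  case off =>
    intro v _ u
    rw [LinearMap.zero_apply, map_zero, map_zero]
  case cp =>
    intro β _ x
    rw [LinearMap.zero_apply, LinearMap.zero_apply, map_zero]
  case z =>
    intro β _ x
    rw [frG_TH2_left, frG_TH2_conj, LinearMap.zero_apply, frG_TH2_zero, frG_TH2_zero]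
    ring
  case gap =>
    intro β hβ s hs z
    refine hK β hβ.1 (fun γ hγ x => hβ.2 γ ?_ x) s (fun x => ?_) z
    · rcases hγ with hγ | hγ
      · exact Or.inl hγ
      · exact Or.inr ⟨hγ, fun x => by rw [hS, hS, map_smul]⟩
    · have := hs x
      rw [frG_ell, abs_neg] at this
      exact this

theorem FacW.mono {g : Type} [LieRing g] [LieAlgebra ℝ g] {h : LieSubalgebra ℝ g}
    {G : Set (g ≃ₗ⁅ℝ⁆ g)} {S T Pp D : g →ₗ[ℝ] g} {c lam eps K c' eps' K' : ℝ}
    (hF : FacW h G S T Pp D c lam eps K) (hc : c ≤ c') (he : eps ≤ eps') (hK : K ≤ K') :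
    FacW h G S T Pp D c' lam eps' K' := by
  have hp := fun x : g => Qf_nonneg hF.comp x
  have hc0 : 0 < c := lt_of_lt_of_le one_pos hF.c1
  exact
    { comp := hF.comp
      symS := hF.symS
      symT := hF.symT
      symP := hF.symP
      symD := hF.symD
      ST := hF.ST
      TS := hF.TS
      c1 := hF.c1.trans hc
      e0 := hF.e0.trans he
      K1 := hF.K1.trans hK
      loS := fun x => (mul_le_mul_of_nonneg_right (one_div_le_one_div_of_le hc0 hc) (hp x)).trans
        (hF.loS x)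
      hiS := fun x => (hF.hiS x).trans (mul_le_mul_of_nonneg_right hc (hp x))
      loT := hF.loT
      hiT := fun x => (hF.hiT x).trans (mul_le_mul_of_nonneg_right hc (hp x))
      bdD := fun x => (hF.bdD x).trans (mul_le_mul_of_nonneg_right hc (hp x))
      pp2 := hF.pp2
      Spp := hF.Spp
      Dpp := hF.Dpp
      SD := hF.SD
      hpp := hF.hpp
      uts := hF.uts
      la := hF.la
      lac := hF.lac.trans hc
      la' := hF.la'.trans hc
      base := fun x => (hF.base x).trans (mul_le_mul_of_nonneg_right he (hp x))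
      inv := hF.inv
      offP := hF.offP
      off := hF.off
      cp := hF.cp
      z := hF.z
      gap := fun β hβ s hs z => by
        have h1 := hF.gap β hβ s hs z
        have h2 : 0 ≤ s * Qf g z z := (abs_nonneg _).trans (hs z)
        rw [mul_assoc] at h1 ⊢
        exact h1.trans (mul_le_mul_of_nonneg_right hK h2) }

end Pool.Agent.EinV
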