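import Pool.Agent.EinV.Sys
import Pool.Agent.EinV.Fast

/-!
# The gap

`esys_of_ell`, `gapRI` and `rh_le` (bound `C b` for the contractions) give `r ≤ C (s + (1/M + δ) b)`; `fast_gap` gives
`NBL β (C (s + (1/M + δ) b))`, so for `M` large and `δ` small `NBL β b → NBL β (C s + b/2)`; iterate (`NBL β (2 C s + b / 2^k)` for all `k`) and
start with `R.bdd`.  (If `s < 0`, then `Qf y y = 0` for all `y`.)
-/

namespace Pool.Agent.EinV

open Matrix Pool.Agent.EStab Pool.Agent.EinS Pool.Agent.SmIso Pool.Agent.EinU Pool.Agent.EinG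

/-- Iteration of a halving step. -/
private theorem Gap_iter {L : Type} [LieRing L] [LieAlgebra ℝ L] {β : L →ₗ[ℝ] L}
    (hQ : ∀ x : L, 0 ≤ Qf L x x) {K s b : ℝ} (hK : 0 ≤ K) (hs : 0 ≤ s) (hb : 0 ≤ b)
    (h0 : NBL β b) (h : ∀ t : ℝ, 0 ≤ t → NBL β t → NBL β (K * s + t / 2)) :
    NBL β (2 * K * s) := by
  have hit : ∀ k : ℕ, NBL β (2 * K * s + b / 2 ^ k) := by
    intro k
    induction k with
    | zero =>
      intro z
      refine (h0 z).trans (mul_le_mul_of_nonneg_right ?_ (hQ z))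
      have : 0 ≤ 2 * K * s := by positivity
      simp only [pow_zero, div_one]
      linarith
    | succ k ih =>
      have h1 := h _ (by positivity) ih
      have e : K * s + (2 * K * s + b / 2 ^ k) / 2 = 2 * K * s + b / 2 ^ (k + 1) := by
        rw [pow_succ]
        field_simp
        ring
      rwa [e] at h1
  intro z
  have ht : Filter.Tendsto (fun k : ℕ => (2 * K * s + b / 2 ^ k) * Qf L z z) Filter.atTop
      (nhds ((2 * K * s + 0) * Qf L z z)) := by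
    refine Filter.Tendsto.mul_const _ (Filter.Tendsto.const_add _ ?_)
    have h2 : Filter.Tendsto (fun k : ℕ => b * (1 / 2 : ℝ) ^ k) Filter.atTop (nhds (b * 0)) :=
      (tendsto_pow_atTop_nhds_zero_of_lt_one (by norm_num) (by norm_num)).const_mul b
    rw [mul_zero] at h2
    refine h2.congr fun k => ?_
    rw [one_div, inv_pow, div_eq_mul_inv]
  have := ge_of_tendsto' ht fun k => hit k z
  rwa [add_zero] at this

theorem gapV (m : ℕ) {ν : ℝ} (h0 : 0 < ν) (h1 : ν < 1) : ∃ K : ℝ, 1 ≤ K ∧ ∃ δ : ℝ, 0 < δ ∧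
    ∀ (L : Type) [LieRing L] [LieAlgebra ℝ L] [Module.Finite ℝ L] (I : Type) [Fintype I]
    [DecidableEq I] (R : Rp L I m) (A : Finset I) (S T Pp : L →ₗ[ℝ] L) (c : L)
    (J0 : Matrix I I ℝ) (g1 g2 : ℝ),
    Spl R A (xN ν) (xN (1 - ν)) (4 * lamN ν) S T Pp c J0 g1 g2 → 1 / δ ≤ Fintype.card I →
    |(A.card : ℝ) / Fintype.card I - ν| ≤ δ →
    ∀ (D : L →ₗ[ℝ] L) , DD S T Pp D (2 * lamN ν - 1 - sN ν) δ →
    ∀ (β : L →ₗ[ℝ] L) (s : ℝ), QSym β → (∀ x, β (Pp x) = Pp (β x)) →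
      (∀ y, |ellQG S T D (lamN ν) β y| ≤ s * Qf L y y) → NBL β (K * s) := by
  have h0' : 0 < 1 - ν := by linarith
  have hx1 := xN_pos h0 h1
  have hx2 := xN_pos h0' (by linarith : 1 - ν < 1)
  obtain ⟨hl, hm'⟩ := lamN_pos h0 h1
  obtain ⟨x1, hx1d⟩ : ∃ x1 : ℝ, x1 = xN ν := ⟨_, rfl⟩
  obtain ⟨x2, hx2d⟩ : ∃ x2 : ℝ, x2 = xN (1 - ν) := ⟨_, rfl⟩
  obtain ⟨lam, hlam⟩ : ∃ lam : ℝ, lam = lamN ν := ⟨_, rfl⟩
  obtain ⟨mu, hmu⟩ : ∃ mu : ℝ, mu = 1 + sN ν - lamN ν := ⟨_, rfl⟩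
  have hom : 2 * lamN ν - 1 - sN ν = lam - mu := by rw [hlam, hmu]; ring
  rw [← hx1d] at hx1
  rw [← hx2d] at hx2
  rw [← hlam] at hl
  rw [← hmu] at hm'
  have p1 : 0 < 1 / x1 := by positivity
  have p2 : 0 < 1 / x2 := by positivity
  have p3 : 0 < 1 / lam := by positivity
  have p4 : 0 < 1 / mu := by positivity
  have p5 : 0 < 1 / (4 * lam) := by positivity
  have p6 : 0 < 2 / ν := by positivity
  have p7 : 0 < 2 / (1 - ν) := by positivity
  obtain ⟨c0, hc0⟩ : ∃ c0 : ℝ, c0 = 1 + x1 + 1 / x1 + x2 + 1 / x2 + 4 * lam + 1 / (4 * lam) +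
    lam + 1 / lam + mu + 1 / mu + 2 / ν + 2 / (1 - ν) := ⟨_, rfl⟩
  have hc1 : 1 ≤ c0 := by rw [hc0]; linarith
  have hinv : ∀ x : ℝ, 0 < x → 1 / x ≤ c0 → 1 / c0 ≤ x := by
    intro x hx h
    rw [div_le_iff₀ (by linarith)]
    rw [div_le_iff₀ hx] at h
    linarith [mul_comm x c0]
  obtain ⟨C₁, hC₁, hE⟩ := esys_of_ell c0 m
  obtain ⟨C₂, hC₂, hF⟩ := fast_gap c0 m
  obtain ⟨C₃, hC₃, δ₃, hδ₃, hR⟩ := gapRI h0 h1
  have hm0 : (0 : ℝ) ≤ m := Nat.cast_nonneg m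
  obtain ⟨K, hKd⟩ : ∃ K : ℝ, K = C₂ * (1 + C₃ * C₁ + C₃ * (2 * (m + 1))) := ⟨_, rfl⟩
  have hK1 : 1 ≤ K := by
    rw [hKd]
    have : 0 ≤ C₃ * C₁ + C₃ * (2 * (m + 1)) := by positivity
    nlinarith
  obtain ⟨δ, hδ0, hd3, hdC, hdm, hdK, hdn, hdn'⟩ : ∃ δ : ℝ, 0 < δ ∧ δ ≤ δ₃ ∧ δ ≤ 1 / C₂ ∧
      δ ≤ 1 / (4 * ((m : ℝ) + 1)) ∧ δ ≤ 1 / (4 * K) ∧ δ ≤ ν / 2 ∧ δ ≤ (1 - ν) / 2 := by
    refine ⟨min (min (min δ₃ (1 / C₂)) (min (1 / (4 * ((m : ℝ) + 1))) (1 / (4 * K))))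
      (min (ν / 2) ((1 - ν) / 2)), ?_, ?_, ?_, ?_, ?_, ?_, ?_⟩
    · refine lt_min (lt_min (lt_min hδ₃ ?_) (lt_min ?_ ?_)) (lt_min ?_ ?_) <;> positivity
    · exact (min_le_left _ _).trans ((min_le_left _ _).trans (min_le_left _ _))
    · exact (min_le_left _ _).trans ((min_le_left _ _).trans (min_le_right _ _))
    · exact (min_le_left _ _).trans ((min_le_right _ _).trans (min_le_left _ _))
    · exact (min_le_left _ _).trans ((min_le_right _ _).trans (min_le_right _ _))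
    · exact (min_le_right _ _).trans (min_le_left _ _)
    · exact (min_le_right _ _).trans (min_le_right _ _)
  refine ⟨2 * K, by linarith, δ, hδ0, ?_⟩
  intro L _ _ _ I _ _ R A S T Pp c J0 g1 g2 hS hM hA D hD β s hβ hc hs
  rw [← hx1d, ← hx2d, ← hlam] at hS
  rw [hom] at hD
  rw [← hlam] at hs
  have hMd : ∀ d, δ ≤ d → 1 / d ≤ Fintype.card I := fun d hd =>
    (one_div_le_one_div_of_le hδ0 hd).trans hM
  have hM0 : (0 : ℝ) < Fintype.card I := lt_of_lt_of_le (by positivity) hM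
  have hMi : 1 / (Fintype.card I : ℝ) ≤ δ := by
    rw [div_le_iff₀ hM0]
    rw [div_le_iff₀ hδ0] at hM
    linarith [mul_comm (Fintype.card I : ℝ) δ]
  have hM4 : 4 * ((m : ℝ) + 1) ≤ Fintype.card I := by
    have := hMd _ hdm
    rwa [one_div_one_div] at this
  have hMC : C₂ ≤ Fintype.card I := by
    have := hMd _ hdC
    rwa [one_div_one_div] at this
  have hAc : (A.card : ℝ) + (Aᶜ.card : ℝ) = Fintype.card I := by
    exact_mod_cast Finset.card_add_card_compl A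
  have hB : Bnd I m A x1 x2 (4 * lam) c0 := by
    have hA' := abs_le.1 hA
    refine ⟨hc1, hinv _ hx1 (by rw [hc0]; linarith), by rw [hc0]; linarith,
      hinv _ hx2 (by rw [hc0]; linarith), by rw [hc0]; linarith,
      hinv _ (by positivity) (by rw [hc0]; linarith), by rw [hc0]; linarith, ?_, ?_, hM4⟩
    · have e : ν / 2 ≤ (A.card : ℝ) / Fintype.card I := by linarith [hA'.1]
      rw [le_div_iff₀ hM0] at e
      have e2 : (Fintype.card I : ℝ) ≤ 2 / ν * A.card := by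
        rw [div_mul_eq_mul_div, le_div_iff₀ h0]
        linarith
      refine e2.trans (mul_le_mul_of_nonneg_right ?_ (Nat.cast_nonneg _))
      rw [hc0]; linarith
    · have e : (A.card : ℝ) / Fintype.card I ≤ ν + (1 - ν) / 2 := by linarith [hA'.2]
      rw [div_le_iff₀ hM0] at e
      have e2 : (Fintype.card I : ℝ) ≤ 2 / (1 - ν) * Aᶜ.card := by
        rw [div_mul_eq_mul_div, le_div_iff₀ h0']
        nlinarith
      refine e2.trans (mul_le_mul_of_nonneg_right ?_ (Nat.cast_nonneg _))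
      rw [hc0]; linarith
  have hQ : ∀ x : L, 0 ≤ Qf L x x := fun x => by
    rw [R.qf]
    exact mul_nonneg (zero_le_one.trans R.n1)
      (Finset.sum_nonneg fun a _ => Finset.sum_nonneg fun b _ => mul_self_nonneg _)
  obtain ⟨b0, hb0, hb0N⟩ : ∃ b : ℝ, 0 ≤ b ∧ NBL β b := by
    first
    | exact R.bdd β
    | exact Rp.bdd β
  rcases lt_or_ge s 0 with hs0 | hs0
  · intro z
    have h2 := (abs_nonneg _).trans (hs z)
    have h3 := hQ z
    have h4 : Qf L z z = 0 := by nlinarith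
    have h5 := hb0N z
    rw [h4, mul_zero] at h5 ⊢
    exact h5
  refine Gap_iter hQ (by linarith) hs0 hb0 hb0N fun b hb hbN => ?_
  have hsys := hE L I R A x1 x2 (4 * lam) S T Pp c J0 g1 g2 hS hB D lam mu δ
    (by rw [abs_of_pos hl, hc0]; linarith) (by rw [abs_of_pos hm', hc0]; linarith) hD β s b hβ hc
    hs0 hb hbN hs
  have hMδ : 0 ≤ 1 / (Fintype.card I : ℝ) + δ := by positivity
  have hs'0 : 0 ≤ C₁ * (s + (1 / Fintype.card I + δ) * b) := by positivity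
  have hb'0 : 0 ≤ 2 * ((m : ℝ) + 1) * b := by positivity
  rw [hx1d, hx2d, hlam] at hsys
  have hr := hR I A mu (C₁ * (s + (1 / Fintype.card I + δ) * b)) (2 * ((m : ℝ) + 1) * b)
    (R.rh A β) (R.rh Aᶜ β) (hMd _ hd3) (hA.trans hd3) (by rw [hmu, sub_self, abs_zero]; exact hδ₃.le)
    hs'0 hb'0 hsys (R.rh_le hM4 hb hbN A) (R.rh_le hM4 hb hbN Aᶜ)
  have hr0 : 0 ≤ C₃ * (C₁ * (s + (1 / Fintype.card I + δ) * b) +
      2 * ((m : ℝ) + 1) * b / Fintype.card I) := by positivity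
  have hfin := hF L I R A x1 x2 (4 * lam) S T Pp c J0 g1 g2 hS hB hMC D lam mu δ
    (hinv _ hl (by rw [hc0]; linarith)) (hinv _ hm' (by rw [hc0]; linarith)) hD β s _ b hβ hc hs0
    hr0 hb hbN hs (fun v => (hr v).1) (fun v => (hr v).2)
  intro z
  refine (hfin z).trans (mul_le_mul_of_nonneg_right ?_ (hQ z))
  have hi0 : 0 < 1 / (Fintype.card I : ℝ) := by positivity
  have hsplit : 2 * ((m : ℝ) + 1) * b / Fintype.card I =
      2 * ((m : ℝ) + 1) * (1 / Fintype.card I * b) := by ring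
  rw [hsplit]
  have hib : 1 / (Fintype.card I : ℝ) * b ≤ δ * b := mul_le_mul_of_nonneg_right hMi hb
  have hKδ : K * (δ * b) ≤ b / 4 := by
    have : K * δ ≤ 1 / 4 := by
      rw [le_div_iff₀ (by positivity)] at hdK
      linarith
    calc K * (δ * b) = K * δ * b := by ring
      _ ≤ 1 / 4 * b := mul_le_mul_of_nonneg_right this hb
      _ = b / 4 := by ring
  have hu : (1 / (Fintype.card I : ℝ) + δ) * b ≤ 2 * (δ * b) := by
    rw [add_mul]; linarith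
  obtain ⟨u, hud⟩ : ∃ u : ℝ, u = δ * b := ⟨_, rfl⟩
  obtain ⟨w, hwd⟩ : ∃ w : ℝ, w = 1 / (Fintype.card I : ℝ) * b := ⟨_, rfl⟩
  obtain ⟨w', hwd'⟩ : ∃ w' : ℝ, w' = (1 / (Fintype.card I : ℝ) + δ) * b := ⟨_, rfl⟩
  rw [← hud] at hib hKδ hu
  rw [← hwd] at hib
  rw [← hwd'] at hu
  rw [← hwd, ← hwd']
  have hu0 : 0 ≤ u := by rw [hud]; positivity
  have hC30 : 0 ≤ C₃ := by linarith
  have hC10 : 0 ≤ C₁ := by linarith
  have hC20 : 0 ≤ C₂ := by linarith
  calc C₂ * (s + C₃ * (C₁ * (s + w') + 2 * ((m : ℝ) + 1) * w) + w')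
      ≤ C₂ * (s + C₃ * (C₁ * (s + 2 * u) + 2 * ((m : ℝ) + 1) * (2 * u)) + 2 * u) := by
        refine mul_le_mul_of_nonneg_left ?_ hC20
        have a1 : C₁ * (s + w') ≤ C₁ * (s + 2 * u) := mul_le_mul_of_nonneg_left (by linarith) hC10
        have a2 : 2 * ((m : ℝ) + 1) * w ≤ 2 * ((m : ℝ) + 1) * (2 * u) :=
          mul_le_mul_of_nonneg_left (by linarith) (by positivity)
        have a3 := mul_le_mul_of_nonneg_left (add_le_add a1 a2) hC30
        linarith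
    _ = C₂ * (1 + C₃ * C₁) * s + 2 * (K * u) := by rw [hKd]; ring
    _ ≤ K * s + b / 2 := by
        have a4 : C₂ * (1 + C₃ * C₁) * s ≤ K * s := by
          refine mul_le_mul_of_nonneg_right ?_ hs0
          rw [hKd]
          refine mul_le_mul_of_nonneg_left ?_ hC20
          have : 0 ≤ C₃ * (2 * ((m : ℝ) + 1)) := by positivity
          linarith
        linarith

end Pool.Agent.EinV
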