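import Pool.Agent.EinU.GapR
import Pool.Agent.EinV.Defs

/-!
# The slow system

Transport to `Fin M`, `M = Fintype.card I` (`Fintype.equivFin I`), and apply `gapR` (`EinU/GapR.lean`; `RSys` in `EinU/SoRho.lean`) with
`N := M`, `r1 :=` the `A × A` part of `ρA`, `r2 :=` the `Aᶜ × Aᶜ` part of `ρB`, `a :=` (`A × A` part of `ρB`) + (`Aᶜ × Aᶜ` part of `ρA`), and `G1`, `G2`, `H`
defined as the right-hand sides of `e1`, `e2`, `e3`, `e4` of `RSys` (zero on the mixed pairs).  Compared with the forms below, the coefficients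
in `RSys` differ by `O(1/M)`, so `MB G1 (s + C b / M)` etc.; use this bound in `gapR`.
(`x1 = xN ν`, `x2 = xN (1 - ν)`, `y_i = 1 / x_i`, `lam = lamN ν` are fixed constants for given `ν`.)
-/

namespace Pool.Agent.EinV

open Matrix Pool.Agent.EStab Pool.Agent.EinS Pool.Agent.SmIso Pool.Agent.EinU Pool.Agent.EinG

/-- The slow system. -/
structure ESys (I : Type) [Fintype I] [DecidableEq I] (A : Finset I) (x1 x2 lam mu s : ℝ)
    (ρA ρB : Matrix I I ℝ) : Prop where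
  sA : ρA.IsSymm
  sB : ρB.IsSymm
  dA : ∀ i j, ¬(i ∈ A ↔ j ∈ A) → ρA i j = 0
  dB : ∀ i j, ¬(i ∈ A ↔ j ∈ A) → ρB i j = 0
  tr : ta Aᶜ ρA = ta A ρB
  e1 : ∀ v : I → ℝ, (∀ i, i ∉ A → v i = 0) →
    |-lam * (v ⬝ᵥ (ρA *ᵥ v)) + 1 / x1 / 4 * bf A ρA v + 1 / 4 * bf A ρB v| ≤ s * (v ⬝ᵥ v)
  e2 : ∀ v : I → ℝ, (∀ i, i ∉ Aᶜ → v i = 0) →
    |-lam * (v ⬝ᵥ (ρB *ᵥ v)) + 1 / x2 / 4 * bf Aᶜ ρB v + 1 / 4 * bf Aᶜ ρA v| ≤ s * (v ⬝ᵥ v)
  e3 : ∀ v : I → ℝ, (∀ i, i ∉ A → v i = 0) →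
    |-mu * (v ⬝ᵥ (ρB *ᵥ v)) + 1 / 4 * ((Aᶜ.card : ℝ) / Fintype.card I * x1 ^ 2 *
        (v ⬝ᵥ (ρA *ᵥ v)) + x2 ^ 2 * ta Aᶜ ρB * (v ⬝ᵥ v)) -
      (x1 / 2 - 1 / x1) / 2 * ta Aᶜ ρA * (v ⬝ᵥ v) -
      (x2 / 2 - 1 / x2) / 2 * ((Aᶜ.card : ℝ) / Fintype.card I) * (v ⬝ᵥ (ρB *ᵥ v))| ≤
        s * (v ⬝ᵥ v)
  e4 : ∀ v : I → ℝ, (∀ i, i ∉ Aᶜ → v i = 0) →
    |-mu * (v ⬝ᵥ (ρA *ᵥ v)) + 1 / 4 * ((A.card : ℝ) / Fintype.card I * x2 ^ 2 *
        (v ⬝ᵥ (ρB *ᵥ v)) + x1 ^ 2 * ta A ρA * (v ⬝ᵥ v)) -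
      (x2 / 2 - 1 / x2) / 2 * ta A ρB * (v ⬝ᵥ v) -
      (x1 / 2 - 1 / x1) / 2 * ((A.card : ℝ) / Fintype.card I) * (v ⬝ᵥ (ρA *ᵥ v))| ≤
        s * (v ⬝ᵥ v)


private theorem GapRI_mulb {a b A B : ℝ} (ha : |a| ≤ A) (hb : |b| ≤ B) : |a * b| ≤ A * B := by
  rw [abs_mul]
  exact mul_le_mul ha hb (abs_nonneg _) ((abs_nonneg _).trans ha)

private theorem GapRI_quad {N : ℕ} {A : Finset (Fin N)} {u p q : Matrix (Fin N) (Fin N) ℝ}
    {c d t : ℝ} {v : Fin N → ℝ} (hv : ∀ i, i ∉ A → v i = 0)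
    (h : ∀ i ∈ A, ∀ j ∈ A, u i j = c * p i j + d * q i j + t * (if i = j then 1 else 0)) :
    v ⬝ᵥ (u *ᵥ v) = c * (v ⬝ᵥ (p *ᵥ v)) + d * (v ⬝ᵥ (q *ᵥ v)) + t * (v ⬝ᵥ v) := by
  simp only [dotProduct, mulVec]
  rw [Finset.mul_sum, Finset.mul_sum, Finset.mul_sum, ← Finset.sum_add_distrib,
    ← Finset.sum_add_distrib]
  refine Finset.sum_congr rfl fun i _ => ?_
  by_cases hi : i ∈ A
  · have h2 : ∑ j, u i j * v j = c * ∑ j, p i j * v j + d * ∑ j, q i j * v j + t * v i := by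
      have h1 : ∀ j, u i j * v j = c * (p i j * v j) + d * (q i j * v j) +
          t * (if i = j then v j else 0) := by
        intro j
        by_cases hj : j ∈ A
        · rw [h i hi j hj]
          split_ifs <;> ring
        · rw [hv j hj]
          split_ifs <;> simp
      rw [Finset.sum_congr rfl fun j _ => h1 j, Finset.sum_add_distrib, Finset.sum_add_distrib,
        ← Finset.mul_sum, ← Finset.mul_sum, ← Finset.mul_sum]
      simp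
    rw [h2]
    ring
  · rw [hv i hi]
    simp

private theorem GapRI_MBr {N : ℕ} {A : Finset (Fin N)} {u : Matrix (Fin N) (Fin N) ℝ} {S : ℝ}
    (hS : 0 ≤ S) (hu : ∀ i j, ¬(i ∈ A ∧ j ∈ A) → u i j = 0)
    (h : ∀ v : Fin N → ℝ, (∀ i, i ∉ A → v i = 0) → |v ⬝ᵥ (u *ᵥ v)| ≤ S * (v ⬝ᵥ v)) : MB u S := by
  intro v
  set w : Fin N → ℝ := fun i => if i ∈ A then v i else 0 with hw
  have h1 : v ⬝ᵥ (u *ᵥ v) = w ⬝ᵥ (u *ᵥ w) := by
    simp only [dotProduct, mulVec]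
    refine Finset.sum_congr rfl fun i _ => ?_
    by_cases hi : i ∈ A
    · have h2 : w i = v i := by simp [hw, hi]
      rw [h2]
      congr 1
      refine Finset.sum_congr rfl fun j _ => ?_
      by_cases hj : j ∈ A
      · simp [hw, hj]
      · rw [hu i j (fun hh => hj hh.2)]
        simp
    · have h2 : ∑ j, u i j * v j = 0 := by
        refine Finset.sum_eq_zero fun j _ => ?_
        rw [hu i j (fun hh => hi hh.1)]
        simp
      have h3 : w i = 0 := by simp [hw, hi]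
      rw [h2, h3]
      simp
  have h4 : w ⬝ᵥ w ≤ v ⬝ᵥ v := by
    simp only [dotProduct]
    refine Finset.sum_le_sum fun i _ => ?_
    by_cases hi : i ∈ A
    · simp [hw, hi]
    · simp only [hw, hi, if_false, mul_zero]
      exact mul_self_nonneg _
  rw [h1]
  refine (h w (fun i hi => by simp [hw, hi])).trans ?_
  exact mul_le_mul_of_nonneg_left h4 hS

private theorem GapRI_MBa {N : ℕ} {A : Finset (Fin N)} {u : Matrix (Fin N) (Fin N) ℝ} {S : ℝ}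
    (hu : ∀ i j, ¬(i ∈ A ↔ j ∈ A) → u i j = 0)
    (h : ∀ v : Fin N → ℝ, (∀ i, i ∉ A → v i = 0) → |v ⬝ᵥ (u *ᵥ v)| ≤ S * (v ⬝ᵥ v))
    (h' : ∀ v : Fin N → ℝ, (∀ i, i ∉ Aᶜ → v i = 0) → |v ⬝ᵥ (u *ᵥ v)| ≤ S * (v ⬝ᵥ v)) :
    MB u S := by
  intro v
  set w : Fin N → ℝ := fun i => if i ∈ A then v i else 0 with hw
  set z : Fin N → ℝ := fun i => if i ∈ A then 0 else v i with hz
  have h1 : v ⬝ᵥ (u *ᵥ v) = w ⬝ᵥ (u *ᵥ w) + z ⬝ᵥ (u *ᵥ z) := by
    simp only [dotProduct, mulVec]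
    rw [← Finset.sum_add_distrib]
    refine Finset.sum_congr rfl fun i _ => ?_
    by_cases hi : i ∈ A
    · have h2 : w i = v i := by simp [hw, hi]
      have h3 : z i = 0 := by simp [hz, hi]
      rw [h2, h3, zero_mul, add_zero]
      congr 1
      refine Finset.sum_congr rfl fun j _ => ?_
      by_cases hj : j ∈ A
      · simp [hw, hj]
      · rw [hu i j (fun hh => hj (hh.1 hi))]
        simp
    · have h2 : w i = 0 := by simp [hw, hi]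
      have h3 : z i = v i := by simp [hz, hi]
      rw [h2, h3, zero_mul, zero_add]
      congr 1
      refine Finset.sum_congr rfl fun j _ => ?_
      by_cases hj : j ∈ A
      · rw [hu i j (fun hh => hi (hh.2 hj))]
        simp
      · simp [hz, hj]
  have h4 : v ⬝ᵥ v = w ⬝ᵥ w + z ⬝ᵥ z := by
    simp only [dotProduct]
    rw [← Finset.sum_add_distrib]
    refine Finset.sum_congr rfl fun i _ => ?_
    by_cases hi : i ∈ A
    · simp [hw, hz, hi]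
    · simp [hw, hz, hi]
  rw [h1, h4]
  have h5 := h w (fun i hi => by simp [hw, hi])
  have h6 := h' z (fun i hi => by
    have : i ∈ A := by simpa using hi
    simp [hz, this])
  calc |w ⬝ᵥ (u *ᵥ w) + z ⬝ᵥ (u *ᵥ z)| ≤ |w ⬝ᵥ (u *ᵥ w)| + |z ⬝ᵥ (u *ᵥ z)| := abs_add_le _ _
    _ ≤ S * (w ⬝ᵥ w) + S * (z ⬝ᵥ z) := add_le_add h5 h6
    _ = S * (w ⬝ᵥ w + z ⬝ᵥ z) := by ring

private theorem GapRI_ta {N : ℕ} (A : Finset (Fin N)) {u : Matrix (Fin N) (Fin N) ℝ} {b : ℝ}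
    (hN : 0 < N) (h : MB u b) : |ta A u| ≤ b := by
  have hN' : (0 : ℝ) < N := by exact_mod_cast hN
  have h1 : ∀ i : Fin N, |u i i| ≤ b := by
    intro i
    have := h (Pi.single i 1)
    simpa using this
  have hb : 0 ≤ b := (abs_nonneg _).trans (h1 ⟨0, hN⟩)
  unfold ta
  rw [Fintype.card_fin, abs_div, abs_of_pos hN', div_le_iff₀ hN']
  refine (Finset.abs_sum_le_sum_abs _ _).trans ?_
  refine (Finset.sum_le_sum fun i _ => h1 i).trans ?_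
  rw [Finset.sum_const, nsmul_eq_mul, mul_comm]
  refine mul_le_mul_of_nonneg_left ?_ hb
  have := A.card_le_univ
  rw [Fintype.card_fin] at this
  exact_mod_cast this

private theorem GapRI_kap {n m : ℝ} (hn : 4 ≤ n) (hm0 : 0 ≤ m) (hmn : m ≤ n) :
    |(m - 4) / (n - 2) - m / n| ≤ 8 / n ∧ |(m - 2) / (n - 2) - m / n| ≤ 8 / n ∧
      |m / (n - 2) - m / n| ≤ 8 / n ∧ |n / (n - 2) - 1| ≤ 8 / n ∧ |1 / (n - 2)| ≤ 8 / n := by
  have h1 : 0 < n - 2 := by linarith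
  have h2 : 0 < n := by linarith
  have h3 : 0 < n * (n - 2) := by positivity
  have h4 : (n - 2) ≠ 0 := h1.ne'
  have h5 : n ≠ 0 := h2.ne'
  have gen : ∀ t : ℝ, |t| ≤ 4 * n → |t / (n * (n - 2))| ≤ 8 / n := by
    intro t ht
    rw [abs_div, abs_of_pos h3, div_le_div_iff₀ h3 h2]
    have : |t| * n ≤ 4 * n * n := mul_le_mul_of_nonneg_right ht h2.le
    nlinarith
  refine ⟨?_, ?_, ?_, ?_, ?_⟩
  · have k : (m - 4) / (n - 2) - m / n = (2 * m - 4 * n) / (n * (n - 2)) := by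
      field_simp
      ring
    rw [k]
    refine gen _ ?_
    rw [abs_le]
    constructor <;> linarith
  · have k : (m - 2) / (n - 2) - m / n = (2 * m - 2 * n) / (n * (n - 2)) := by
      field_simp
      ring
    rw [k]
    refine gen _ ?_
    rw [abs_le]
    constructor <;> linarith
  · have k : m / (n - 2) - m / n = (2 * m) / (n * (n - 2)) := by
      field_simp
      ring
    rw [k]
    refine gen _ ?_
    rw [abs_le]
    constructor <;> linarith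
  · have k : n / (n - 2) - 1 = (2 * n) / (n * (n - 2)) := by
      field_simp
      ring
    rw [k]
    refine gen _ ?_
    rw [abs_le]
    constructor <;> linarith
  · have k : 1 / (n - 2) = n / (n * (n - 2)) := by
      field_simp
    rw [k]
    refine gen _ ?_
    rw [abs_le]
    constructor <;> linarith

private theorem GapRI_e1 {n m lam y p q tp tq w s b Y : ℝ} (hn : 4 ≤ n) (hm0 : 0 ≤ m)
    (hmn : m ≤ n) (hY : 1 ≤ Y) (hy : |y| ≤ Y) (hp : |p| ≤ b * w) (hq : |q| ≤ b * w)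
    (htp : |tp| ≤ b) (htq : |tq| ≤ b) (hw : 0 ≤ w) (hb : 0 ≤ b)
    (h : |-lam * p + y / 4 * (m / n * p + tp * w) + 1 / 4 * (m / n * q + tq * w)| ≤ s * w) :
    |(-lam + y / (4 * (n - 2)) * (m - 4)) * p + (1 / (4 * (n - 2)) * (m - 2)) * q +
      (y / (4 * (n - 2)) * (n * tp) + 1 / (4 * (n - 2)) * (n * tq)) * w| ≤
      (s + 40 * Y * (b / n)) * w := by
  obtain ⟨k1, k2, k3, k4, k5⟩ := GapRI_kap hn hm0 hmn
  have h1 : 0 < n - 2 := by linarith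
  have h2 : 0 < n := by linarith
  have h4 : (n - 2) ≠ 0 := h1.ne'
  have h5 : n ≠ 0 := h2.ne'
  have habsw : |w| ≤ w := (abs_of_nonneg hw).le
  have key : (-lam + y / (4 * (n - 2)) * (m - 4)) * p + (1 / (4 * (n - 2)) * (m - 2)) * q +
      (y / (4 * (n - 2)) * (n * tp) + 1 / (4 * (n - 2)) * (n * tq)) * w =
      (-lam * p + y / 4 * (m / n * p + tp * w) + 1 / 4 * (m / n * q + tq * w)) +
      1 / 4 * (y * (((m - 4) / (n - 2) - m / n) * p)) +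
      1 / 4 * (y * ((n / (n - 2) - 1) * (tp * w))) +
      1 / 4 * (((m - 2) / (n - 2) - m / n) * q) +
      1 / 4 * ((n / (n - 2) - 1) * (tq * w)) := by
    field_simp
    ring
  have m1 := GapRI_mulb hy (GapRI_mulb k1 hp)
  have m2 := GapRI_mulb hy (GapRI_mulb k4 (GapRI_mulb htp habsw))
  have m3 := GapRI_mulb k2 hq
  have m4 := GapRI_mulb k4 (GapRI_mulb htq habsw)
  have hbw : 0 ≤ 8 / n * (b * w) := by positivity
  have hbY : 8 / n * (b * w) ≤ Y * (8 / n * (b * w)) := by nlinarith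
  have hfin : (s + 40 * Y * (b / n)) * w = s * w + 5 * (Y * (8 / n * (b * w))) := by
    field_simp
    ring
  rw [key, hfin]
  rw [abs_le] at h m1 m2 m3 m4 ⊢
  constructor <;> linarith [h.1, h.2, m1.1, m1.2, m2.1, m2.2, m3.1, m3.2, m4.1, m4.2]

private theorem GapRI_e3 {n m mu x1 x2 y1 y2 p q tp tq w s b Y : ℝ} (hn : 4 ≤ n) (hm0 : 0 ≤ m)
    (hmn : m ≤ n) (hY : 1 ≤ Y) (hx1 : |x1 ^ 2| ≤ Y) (hx2 : |x2 ^ 2| ≤ Y)
    (hq1 : |x1 / 2 - y1| ≤ Y) (hq2 : |x2 / 2 - y2| ≤ Y)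
    (hq3 : |x1 / 2 - y1 + (x2 / 2 - y2)| ≤ 2 * Y) (hp : |p| ≤ b * w) (hq : |q| ≤ b * w)
    (htp : |tp| ≤ b) (htq : |tq| ≤ b) (hw : 0 ≤ w) (hb : 0 ≤ b)
    (h : |-mu * q + 1 / 4 * (m / n * x1 ^ 2 * p + x2 ^ 2 * tq * w) -
      (x1 / 2 - y1) / 2 * tp * w - (x2 / 2 - y2) / 2 * (m / n) * q| ≤ s * w) :
    |(1 / (4 * (n - 2)) * (m * x1 ^ 2)) * p + (-mu - (x2 / 2 - y2) / (2 * (n - 2)) * m +
      (x1 / 2 - y1 + (x2 / 2 - y2)) / (2 * (n - 2))) * q +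
      (1 / (4 * (n - 2)) * (x2 ^ 2 * (n * tq)) - (x1 / 2 - y1) / (2 * (n - 2)) * (n * tp)) * w| ≤
      (s + 40 * Y * (b / n)) * w := by
  obtain ⟨k1, k2, k3, k4, k5⟩ := GapRI_kap hn hm0 hmn
  have h1 : 0 < n - 2 := by linarith
  have h2 : 0 < n := by linarith
  have h4 : (n - 2) ≠ 0 := h1.ne'
  have h5 : n ≠ 0 := h2.ne'
  have habsw : |w| ≤ w := (abs_of_nonneg hw).le
  have key : (1 / (4 * (n - 2)) * (m * x1 ^ 2)) * p + (-mu - (x2 / 2 - y2) / (2 * (n - 2)) * m +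
      (x1 / 2 - y1 + (x2 / 2 - y2)) / (2 * (n - 2))) * q +
      (1 / (4 * (n - 2)) * (x2 ^ 2 * (n * tq)) - (x1 / 2 - y1) / (2 * (n - 2)) * (n * tp)) * w =
      (-mu * q + 1 / 4 * (m / n * x1 ^ 2 * p + x2 ^ 2 * tq * w) -
      (x1 / 2 - y1) / 2 * tp * w - (x2 / 2 - y2) / 2 * (m / n) * q) +
      1 / 4 * (x1 ^ 2 * ((m / (n - 2) - m / n) * p)) -
      1 / 2 * ((x2 / 2 - y2) * ((m / (n - 2) - m / n) * q)) +
      1 / 2 * ((x1 / 2 - y1 + (x2 / 2 - y2)) * (1 / (n - 2) * q)) +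
      1 / 4 * (x2 ^ 2 * ((n / (n - 2) - 1) * (tq * w))) -
      1 / 2 * ((x1 / 2 - y1) * ((n / (n - 2) - 1) * (tp * w))) := by
    field_simp
    ring
  have m1 := GapRI_mulb hx1 (GapRI_mulb k3 hp)
  have m2 := GapRI_mulb hq2 (GapRI_mulb k3 hq)
  have m3 := GapRI_mulb hq3 (GapRI_mulb k5 hq)
  have m4 := GapRI_mulb hx2 (GapRI_mulb k4 (GapRI_mulb htq habsw))
  have m5 := GapRI_mulb hq1 (GapRI_mulb k4 (GapRI_mulb htp habsw))
  have hbw : 0 ≤ 8 / n * (b * w) := by positivity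
  have hYbw : 0 ≤ Y * (8 / n * (b * w)) := by positivity
  have hfin : (s + 40 * Y * (b / n)) * w = s * w + 5 * (Y * (8 / n * (b * w))) := by
    field_simp
    ring
  rw [key, hfin]
  rw [abs_le] at h m1 m2 m3 m4 m5 ⊢
  constructor <;> linarith [h.1, h.2, m1.1, m1.2, m2.1, m2.2, m3.1, m3.2, m4.1, m4.2, m5.1, m5.2]

private theorem GapRI_swap {I : Type} [Fintype I] [DecidableEq I] {A : Finset I}
    {x1 x2 lam mu s : ℝ} {ρA ρB : Matrix I I ℝ} (h : ESys I A x1 x2 lam mu s ρA ρB) :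
    ESys I Aᶜ x2 x1 lam mu s ρB ρA where
  sA := h.sB
  sB := h.sA
  dA := by
    intro i j hij
    apply h.dB
    simp only [Finset.mem_compl] at hij
    tauto
  dB := by
    intro i j hij
    apply h.dA
    simp only [Finset.mem_compl] at hij
    tauto
  tr := by
    rw [compl_compl]
    exact h.tr.symm
  e1 := h.e2
  e2 := by
    rw [compl_compl]
    exact h.e1
  e3 := by
    intro v hv
    rw [compl_compl]
    exact h.e4 v hv
  e4 := by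
    intro v hv
    rw [compl_compl] at hv
    exact h.e3 v hv

private theorem GapRI_fin {ν : ℝ} (h0 : 0 < ν) (h1 : ν < 1) : ∃ C : ℝ, 1 ≤ C ∧ ∃ δ : ℝ, 0 < δ ∧
    ∀ (N : ℕ) (A : Finset (Fin N)) (mu s b : ℝ) (ρA ρB : Matrix (Fin N) (Fin N) ℝ),
    1 / δ ≤ N → |(A.card : ℝ) / N - ν| ≤ δ →
    |mu - (1 + sN ν - lamN ν)| ≤ δ → 0 ≤ s → 0 ≤ b →
    ESys (Fin N) A (xN ν) (xN (1 - ν)) (lamN ν) mu s ρA ρB →
    MB ρA b → MB ρB b → MB ρA (C * (s + b / N)) ∧ MB ρB (C * (s + b / N)) := by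
  obtain ⟨C, hC, δ, hδ, main⟩ := gapR h0 h1
  obtain ⟨Y, hY⟩ : ∃ Y : ℝ, Y = 1 + |1 / xN ν| + |1 / xN (1 - ν)| + |xN ν ^ 2| +
    |xN (1 - ν) ^ 2| + |xN ν / 2 - 1 / xN ν| + |xN (1 - ν) / 2 - 1 / xN (1 - ν)| := ⟨_, rfl⟩
  have a1 := abs_nonneg (1 / xN ν)
  have a2 := abs_nonneg (1 / xN (1 - ν))
  have a3 := abs_nonneg (xN ν ^ 2)
  have a4 := abs_nonneg (xN (1 - ν) ^ 2)
  have a5 := abs_nonneg (xN ν / 2 - 1 / xN ν)
  have a6 := abs_nonneg (xN (1 - ν) / 2 - 1 / xN (1 - ν))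
  have hY1 : 1 ≤ Y := by linarith
  refine ⟨C * (40 * Y), by nlinarith, min δ (1 / 4), by positivity, ?_⟩
  intro N A mu s b ρA ρB hN hA hmu hs hb h bA bB
  have hN1 : 1 / δ ≤ N := (one_div_le_one_div_of_le (by positivity) (min_le_left _ _)).trans hN
  have hN4 : (4 : ℝ) ≤ N := by
    have := (one_div_le_one_div_of_le (a := min δ (1 / 4)) (by positivity)
      (min_le_right δ (1 / 4))).trans hN
    rw [one_div_one_div] at this
    exact this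
  have hN0 : 0 < N := by
    have : (0 : ℝ) < N := by linarith
    exact_mod_cast this
  have hNN : (0 : ℝ) < N := by linarith
  have hn2 : (N : ℝ) - 2 ≠ 0 := by
    have : 0 < (N : ℝ) - 2 := by linarith
    exact this.ne'
  have hδA := hA.trans (min_le_left δ (1 / 4))
  have hδm := hmu.trans (min_le_left δ (1 / 4))
  have hm0 : (0 : ℝ) ≤ A.card := Nat.cast_nonneg _
  have hmn : (A.card : ℝ) ≤ N := by
    have := A.card_le_univ
    rw [Fintype.card_fin] at this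
    exact_mod_cast this
  have hcc : ((Aᶜ).card : ℝ) = (N : ℝ) - A.card := by
    have h := Finset.card_compl_add_card A
    rw [Fintype.card_fin] at h
    have h2 : ((Aᶜ).card : ℝ) + A.card = N := by exact_mod_cast h
    linarith
  have hm0' : (0 : ℝ) ≤ (N : ℝ) - A.card := by linarith
  have hmn' : (N : ℝ) - A.card ≤ N := by linarith
  have hw : ∀ v : Fin N → ℝ, 0 ≤ v ⬝ᵥ v := by
    intro v
    simp only [dotProduct]
    exact Finset.sum_nonneg fun i _ => mul_self_nonneg _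
  have tAA := GapRI_ta A hN0 bA
  have tAB := GapRI_ta A hN0 bB
  have tBA := GapRI_ta Aᶜ hN0 bA
  have tBB := GapRI_ta Aᶜ hN0 bB
  have hbN : 0 ≤ b / N := by positivity
  obtain ⟨S, hS⟩ : ∃ S : ℝ, S = s + 40 * Y * (b / N) := ⟨_, rfl⟩
  have hS0 : 0 ≤ S := by
    rw [hS]
    positivity
  obtain ⟨x1, hx1⟩ : ∃ x, x = xN ν := ⟨_, rfl⟩
  obtain ⟨x2, hx2⟩ : ∃ x, x = xN (1 - ν) := ⟨_, rfl⟩
  obtain ⟨lam, hlam⟩ : ∃ x, x = lamN ν := ⟨_, rfl⟩
  rw [← hx1, ← hx2, ← hlam] at h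
  rw [← hx1, ← hx2] at hY
  rw [← hx1] at a1 a3 a5
  rw [← hx2] at a2 a4 a6
  have q3 : |x1 / 2 - 1 / x1 + (x2 / 2 - 1 / x2)| ≤ 2 * Y := by
    refine (abs_add_le _ _).trans ?_
    linarith
  -- the coefficients
  obtain ⟨c1, hc1⟩ : ∃ x, x = -lam + 1 / x1 / (4 * ((N : ℝ) - 2)) * ((A.card : ℝ) - 4) :=
    ⟨_, rfl⟩
  obtain ⟨d1, hd1⟩ : ∃ x, x = 1 / (4 * ((N : ℝ) - 2)) * ((A.card : ℝ) - 2) := ⟨_, rfl⟩
  obtain ⟨t1, ht1⟩ : ∃ x, x = 1 / x1 / (4 * ((N : ℝ) - 2)) * ((N : ℝ) * ta A ρA) +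
    1 / (4 * ((N : ℝ) - 2)) * ((N : ℝ) * ta A ρB) := ⟨_, rfl⟩
  obtain ⟨c2, hc2⟩ : ∃ x, x = -lam + 1 / x2 / (4 * ((N : ℝ) - 2)) * ((N : ℝ) - A.card - 4) :=
    ⟨_, rfl⟩
  obtain ⟨d2, hd2⟩ : ∃ x, x = 1 / (4 * ((N : ℝ) - 2)) * ((N : ℝ) - A.card - 2) := ⟨_, rfl⟩
  obtain ⟨t2, ht2⟩ : ∃ x, x = 1 / x2 / (4 * ((N : ℝ) - 2)) * ((N : ℝ) * ta Aᶜ ρB) +
    1 / (4 * ((N : ℝ) - 2)) * ((N : ℝ) * ta Aᶜ ρA) := ⟨_, rfl⟩
  obtain ⟨c3, hc3⟩ : ∃ x, x = 1 / (4 * ((N : ℝ) - 2)) * (((N : ℝ) - A.card) * x1 ^ 2) :=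
    ⟨_, rfl⟩
  obtain ⟨d3, hd3⟩ : ∃ x, x = -mu - (x2 / 2 - 1 / x2) / (2 * ((N : ℝ) - 2)) *
    ((N : ℝ) - A.card) + (x1 / 2 - 1 / x1 + (x2 / 2 - 1 / x2)) / (2 * ((N : ℝ) - 2)) := ⟨_, rfl⟩
  obtain ⟨t3, ht3⟩ : ∃ x, x = 1 / (4 * ((N : ℝ) - 2)) * (x2 ^ 2 * ((N : ℝ) * ta Aᶜ ρB)) -
    (x1 / 2 - 1 / x1) / (2 * ((N : ℝ) - 2)) * ((N : ℝ) * ta Aᶜ ρA) := ⟨_, rfl⟩
  obtain ⟨c4, hc4⟩ : ∃ x, x = 1 / (4 * ((N : ℝ) - 2)) * ((A.card : ℝ) * x2 ^ 2) := ⟨_, rfl⟩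
  obtain ⟨d4, hd4⟩ : ∃ x, x = -mu - (x1 / 2 - 1 / x1) / (2 * ((N : ℝ) - 2)) *
    (A.card : ℝ) + (x2 / 2 - 1 / x2 + (x1 / 2 - 1 / x1)) / (2 * ((N : ℝ) - 2)) := ⟨_, rfl⟩
  obtain ⟨t4, ht4⟩ : ∃ x, x = 1 / (4 * ((N : ℝ) - 2)) * (x1 ^ 2 * ((N : ℝ) * ta A ρA)) -
    (x2 / 2 - 1 / x2) / (2 * ((N : ℝ) - 2)) * ((N : ℝ) * ta A ρB) := ⟨_, rfl⟩
  -- the matrices
  obtain ⟨r1, hr1⟩ : ∃ r : Matrix (Fin N) (Fin N) ℝ,
    r = of fun i j => if i ∈ A ∧ j ∈ A then ρA i j else 0 := ⟨_, rfl⟩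
  obtain ⟨r2, hr2⟩ : ∃ r : Matrix (Fin N) (Fin N) ℝ,
    r = of fun i j => if i ∉ A ∧ j ∉ A then ρB i j else 0 := ⟨_, rfl⟩
  obtain ⟨a, ha⟩ : ∃ r : Matrix (Fin N) (Fin N) ℝ,
    r = of fun i j => if i ∈ A ∧ j ∈ A then ρB i j else
      if i ∉ A ∧ j ∉ A then ρA i j else 0 := ⟨_, rfl⟩
  obtain ⟨G1, hG1⟩ : ∃ r : Matrix (Fin N) (Fin N) ℝ,
    r = of fun i j => if i ∈ A ∧ j ∈ A then c1 * ρA i j + d1 * ρB i j +
      t1 * (if i = j then 1 else 0) else 0 := ⟨_, rfl⟩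
  obtain ⟨G2, hG2⟩ : ∃ r : Matrix (Fin N) (Fin N) ℝ,
    r = of fun i j => if i ∉ A ∧ j ∉ A then c2 * ρB i j + d2 * ρA i j +
      t2 * (if i = j then 1 else 0) else 0 := ⟨_, rfl⟩
  obtain ⟨H, hH⟩ : ∃ r : Matrix (Fin N) (Fin N) ℝ,
    r = of fun i j => if i ∈ A ∧ j ∈ A then c3 * ρA i j + d3 * ρB i j +
      t3 * (if i = j then 1 else 0) else if i ∉ A ∧ j ∉ A then c4 * ρB i j + d4 * ρA i j +
      t4 * (if i = j then 1 else 0) else 0 := ⟨_, rfl⟩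
  have r1v : ∀ i ∈ A, ∀ j ∈ A, r1 i j = ρA i j := by
    intro i hi j hj
    rw [hr1]
    simp [hi, hj]
  have r2v : ∀ i, i ∉ A → ∀ j, j ∉ A → r2 i j = ρB i j := by
    intro i hi j hj
    rw [hr2]
    simp [hi, hj]
  have av1 : ∀ i ∈ A, ∀ j ∈ A, a i j = ρB i j := by
    intro i hi j hj
    rw [ha]
    simp [hi, hj]
  have av2 : ∀ i, i ∉ A → ∀ j, j ∉ A → a i j = ρA i j := by
    intro i hi j hj
    rw [ha]
    simp [hi, hj]
  have G1v : ∀ i ∈ A, ∀ j ∈ A, G1 i j = c1 * ρA i j + d1 * ρB i j +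
      t1 * (if i = j then 1 else 0) := by
    intro i hi j hj
    rw [hG1]
    simp [hi, hj]
  have G2v : ∀ i ∈ Aᶜ, ∀ j ∈ Aᶜ, G2 i j = c2 * ρB i j + d2 * ρA i j +
      t2 * (if i = j then 1 else 0) := by
    intro i hi j hj
    rw [Finset.mem_compl] at hi hj
    rw [hG2]
    simp [hi, hj]
  have Hv1 : ∀ i ∈ A, ∀ j ∈ A, H i j = c3 * ρA i j + d3 * ρB i j +
      t3 * (if i = j then 1 else 0) := by
    intro i hi j hj
    rw [hH]
    simp [hi, hj]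
  have Hv2 : ∀ i ∈ Aᶜ, ∀ j ∈ Aᶜ, H i j = c4 * ρB i j + d4 * ρA i j +
      t4 * (if i = j then 1 else 0) := by
    intro i hi j hj
    rw [Finset.mem_compl] at hi hj
    rw [hH]
    simp [hi, hj]
  have tr1 : trA A r1 = (N : ℝ) * ta A ρA := by
    unfold trA ta
    rw [Fintype.card_fin, Finset.sum_congr rfl fun i hi => r1v i hi i hi]
    field_simp
  have tr2 : trA Aᶜ r2 = (N : ℝ) * ta Aᶜ ρB := by
    unfold trA ta
    rw [Fintype.card_fin, Finset.sum_congr rfl fun i hi =>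
      r2v i (Finset.mem_compl.mp hi) i (Finset.mem_compl.mp hi)]
    field_simp
  have tr3 : trA A a = (N : ℝ) * ta A ρB := by
    unfold trA ta
    rw [Fintype.card_fin, Finset.sum_congr rfl fun i hi => av1 i hi i hi]
    field_simp
  have tr4 : trA Aᶜ a = (N : ℝ) * ta Aᶜ ρA := by
    unfold trA ta
    rw [Fintype.card_fin, Finset.sum_congr rfl fun i hi =>
      av2 i (Finset.mem_compl.mp hi) i (Finset.mem_compl.mp hi)]
    field_simp
  have symA : ∀ i j, ρA j i = ρA i j := fun i j => congrFun (congrFun h.sA i) j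
  have symB : ∀ i j, ρB j i = ρB i j := fun i j => congrFun (congrFun h.sB i) j
  have E1 := h.e1
  have E2 := h.e2
  have E3 := h.e3
  have E4 := h.e4
  simp only [bf, Fintype.card_fin, hcc] at E1 E2 E3 E4
  have hsys : RSys A x1 x2 (1 / x1) (1 / x2) lam mu S r1 r2 a G1 G2 H := by
    refine ⟨?_, ?_, ?_, ?_, ?_, ?_, ?_, ?_, ?_, ?_, ?_, ?_, ?_, ?_, ?_, ?_, ?_⟩
    · ext i j
      rw [transpose_apply, hr1]
      simp only [of_apply, symA i j, and_comm]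
    · ext i j
      rw [transpose_apply, hr2]
      simp only [of_apply, symB i j, and_comm]
    · ext i j
      rw [transpose_apply, ha]
      simp only [of_apply, symA i j, symB i j, and_comm]
    · ext i j
      rw [transpose_apply, hG1]
      simp only [of_apply, symA i j, symB i j, and_comm, eq_comm]
    · ext i j
      rw [transpose_apply, hG2]
      simp only [of_apply, symA i j, symB i j, and_comm, eq_comm]
    · ext i j
      rw [transpose_apply, hH]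
      simp only [of_apply, symA i j, symB i j, and_comm, eq_comm]
    · intro i j hij
      rw [hr1, of_apply, if_neg hij]
    · intro i j hij
      rw [hr2, of_apply, if_neg hij]
    · intro i j hij
      rw [ha, of_apply, if_neg (by tauto), if_neg (by tauto)]
    · rw [tr3, tr4, h.tr]
    · intro i hi j hj
      rw [G1v i hi j hj, r1v i hi j hj, av1 i hi j hj, tr1, tr3, hc1, hd1, ht1]
      ring
    · intro i hi j hj
      rw [G2v i (Finset.mem_compl.mpr hi) j (Finset.mem_compl.mpr hj), r2v i hi j hj,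
        av2 i hi j hj, tr2, tr4, hc2, hd2, ht2]
      ring
    · intro i hi j hj
      rw [Hv1 i hi j hj, r1v i hi j hj, av1 i hi j hj, tr2, tr4, hc3, hd3, ht3]
      ring
    · intro i hi j hj
      rw [Hv2 i (Finset.mem_compl.mpr hi) j (Finset.mem_compl.mpr hj), r2v i hi j hj,
        av2 i hi j hj, tr1, tr3, hc4, hd4, ht4]
      ring
    · refine GapRI_MBr (A := A) hS0 (fun i j hij => by rw [hG1, of_apply, if_neg hij]) ?_
      intro v hv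
      rw [GapRI_quad hv G1v, hc1, hd1, ht1, hS]
      exact GapRI_e1 hN4 hm0 hmn hY1 (by linarith) (bA v) (bB v) tAA tAB (hw v) hb (E1 v hv)
    · refine GapRI_MBr (A := Aᶜ) hS0 (fun i j hij => by
        rw [hG2, of_apply, if_neg]
        simpa using hij) ?_
      intro v hv
      rw [GapRI_quad hv G2v, hc2, hd2, ht2, hS]
      exact GapRI_e1 hN4 hm0' hmn' hY1 (by linarith) (bB v) (bA v) tBB tBA (hw v) hb (E2 v hv)
    · refine GapRI_MBa (A := A) (fun i j hij => by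
        rw [hH, of_apply, if_neg (by tauto), if_neg (by tauto)]) ?_ ?_
      · intro v hv
        rw [GapRI_quad hv Hv1, hc3, hd3, ht3, hS]
        refine GapRI_e3 hN4 hm0' hmn' hY1 (by linarith) (by linarith) (by linarith)
          (by linarith) q3 (bA v) (bB v) tBA tBB (hw v) hb ?_
        exact E3 v hv
      · intro v hv
        rw [GapRI_quad hv Hv2, hc4, hd4, ht4, hS]
        refine GapRI_e3 hN4 hm0 hmn hY1 (by linarith) (by linarith) (by linarith)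
          (by linarith) (by rw [add_comm]; exact q3) (bB v) (bA v) tAB tAA (hw v) hb ?_
        exact E4 v hv
  obtain ⟨f1, f2, f3⟩ := main N A mu S r1 r2 a G1 G2 H hN1 hδA hδm hS0 (by
    rw [← hx1, ← hx2, ← hlam]
    exact hsys)
  have hSC : S ≤ 40 * Y * (s + b / N) := by
    rw [hS]
    nlinarith
  have up : ∀ {t w : ℝ}, 0 ≤ w → |t| ≤ C * S * w → |t| ≤ C * (40 * Y) * (s + b / N) * w := by
    intro t w hw ht
    refine ht.trans (mul_le_mul_of_nonneg_right ?_ hw)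
    have := mul_le_mul_of_nonneg_left hSC (by linarith : (0 : ℝ) ≤ C)
    linarith
  have res : ∀ {u : Matrix (Fin N) (Fin N) ℝ} {v : Fin N → ℝ} {B : Finset (Fin N)}
      {r : Matrix (Fin N) (Fin N) ℝ}, (∀ i, i ∉ B → v i = 0) →
      (∀ i ∈ B, ∀ j ∈ B, u i j = r i j) → v ⬝ᵥ (u *ᵥ v) = v ⬝ᵥ (r *ᵥ v) := by
    intro u v B r hv hur
    have := GapRI_quad (A := B) (u := u) (p := r) (q := r) (c := 1) (d := 0) (t := 0) hv
      (by
        intro i hi j hj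
        rw [hur i hi j hj]
        ring)
    rw [this]
    ring
  refine ⟨GapRI_MBa h.dA ?_ ?_, GapRI_MBa h.dB ?_ ?_⟩
  · intro v hv
    rw [res hv (r := r1) fun i hi j hj => (r1v i hi j hj).symm]
    exact up (hw v) (f1 v)
  · intro v hv
    rw [res hv (r := a) fun i hi j hj =>
      (av2 i (Finset.mem_compl.mp hi) j (Finset.mem_compl.mp hj)).symm]
    exact up (hw v) (f3 v)
  · intro v hv
    rw [res hv (r := a) fun i hi j hj => (av1 i hi j hj).symm]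
    exact up (hw v) (f3 v)
  · intro v hv
    rw [res hv (r := r2) fun i hi j hj =>
      (r2v i (Finset.mem_compl.mp hi) j (Finset.mem_compl.mp hj)).symm]
    exact up (hw v) (f2 v)

private theorem GapRI_tq {I : Type} [Fintype I] {N : ℕ} (e : I ≃ Fin N)
    (ρ : Matrix I I ℝ) (v : Fin N → ℝ) :
    v ⬝ᵥ (ρ.submatrix e.symm e.symm *ᵥ v) = (v ∘ e) ⬝ᵥ (ρ *ᵥ (v ∘ e)) := by
  simp only [dotProduct, mulVec]
  rw [← Equiv.sum_comp e]
  refine Finset.sum_congr rfl fun i _ => ?_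
  rw [← Equiv.sum_comp e]
  simp

private theorem GapRI_tn {I : Type} [Fintype I] {N : ℕ} (e : I ≃ Fin N) (v : Fin N → ℝ) :
    v ⬝ᵥ v = (v ∘ e) ⬝ᵥ (v ∘ e) := by
  simp only [dotProduct]
  rw [← Equiv.sum_comp e]
  rfl

private theorem GapRI_tc {I : Type} [Fintype I] [DecidableEq I] {N : ℕ} (e : I ≃ Fin N)
    (A : Finset I) : (A.map e.toEmbedding)ᶜ = Aᶜ.map e.toEmbedding := by
  ext i
  simp only [Finset.mem_compl, Finset.mem_map_equiv]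

private theorem GapRI_tt {I : Type} [Fintype I] {N : ℕ} (e : I ≃ Fin N)
    (A : Finset I) (ρ : Matrix I I ℝ) :
    ta (A.map e.toEmbedding) (ρ.submatrix e.symm e.symm) = ta A ρ := by
  unfold ta
  rw [Finset.sum_map, ← Fintype.card_congr e]
  simp

private theorem GapRI_tb {I : Type} [Fintype I] {N : ℕ} (e : I ≃ Fin N)
    (A : Finset I) (ρ : Matrix I I ℝ) (v : Fin N → ℝ) :
    bf (A.map e.toEmbedding) (ρ.submatrix e.symm e.symm) v = bf A ρ (v ∘ e) := by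
  unfold bf
  rw [GapRI_tq, GapRI_tt, ← GapRI_tn, Finset.card_map, ← Fintype.card_congr e]

private theorem GapRI_tr {I : Type} [Fintype I] [DecidableEq I] {N : ℕ} (e : I ≃ Fin N)
    {A : Finset I} {x1 x2 lam mu s : ℝ} {ρA ρB : Matrix I I ℝ}
    (h : ESys I A x1 x2 lam mu s ρA ρB) :
    ESys (Fin N) (A.map e.toEmbedding) x1 x2 lam mu s (ρA.submatrix e.symm e.symm)
      (ρB.submatrix e.symm e.symm) where
  sA := by
    ext i j
    exact congrFun (congrFun h.sA _) _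
  sB := by
    ext i j
    exact congrFun (congrFun h.sB _) _
  dA := by
    intro i j hij
    simp only [Finset.mem_map_equiv] at hij
    exact h.dA _ _ hij
  dB := by
    intro i j hij
    simp only [Finset.mem_map_equiv] at hij
    exact h.dB _ _ hij
  tr := by
    rw [GapRI_tc, GapRI_tt, GapRI_tt]
    exact h.tr
  e1 := by
    intro v hv
    rw [GapRI_tq, GapRI_tb, GapRI_tb, GapRI_tn e]
    refine h.e1 _ fun i hi => hv _ ?_
    simpa [Finset.mem_map_equiv] using hi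
  e2 := by
    intro v hv
    rw [GapRI_tc] at hv ⊢
    rw [GapRI_tq, GapRI_tb, GapRI_tb, GapRI_tn e]
    refine h.e2 _ fun i hi => hv _ ?_
    simpa [Finset.mem_map_equiv] using hi
  e3 := by
    intro v hv
    rw [GapRI_tc, GapRI_tq, GapRI_tq, GapRI_tt, GapRI_tt, GapRI_tn e, Finset.card_map,
      ← Fintype.card_congr e]
    refine h.e3 _ fun i hi => hv _ ?_
    simpa [Finset.mem_map_equiv] using hi
  e4 := by
    intro v hv
    rw [GapRI_tc] at hv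
    rw [GapRI_tq, GapRI_tq, GapRI_tt, GapRI_tt, GapRI_tn e, Finset.card_map,
      ← Fintype.card_congr e]
    refine h.e4 _ fun i hi => hv _ ?_
    simpa [Finset.mem_map_equiv] using hi

theorem gapRI {ν : ℝ} (h0 : 0 < ν) (h1 : ν < 1) : ∃ C : ℝ, 1 ≤ C ∧ ∃ δ : ℝ, 0 < δ ∧
    ∀ (I : Type) [Fintype I] [DecidableEq I] (A : Finset I) (mu s b : ℝ) (ρA ρB : Matrix I I ℝ),
    1 / δ ≤ Fintype.card I → |(A.card : ℝ) / Fintype.card I - ν| ≤ δ →
    |mu - (1 + sN ν - lamN ν)| ≤ δ → 0 ≤ s → 0 ≤ b →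
    ESys I A (xN ν) (xN (1 - ν)) (lamN ν) mu s ρA ρB →
    (∀ v : I → ℝ, |v ⬝ᵥ (ρA *ᵥ v)| ≤ b * (v ⬝ᵥ v)) →
    (∀ v : I → ℝ, |v ⬝ᵥ (ρB *ᵥ v)| ≤ b * (v ⬝ᵥ v)) →
    ∀ v : I → ℝ, |v ⬝ᵥ (ρA *ᵥ v)| ≤ C * (s + b / Fintype.card I) * (v ⬝ᵥ v) ∧
      |v ⬝ᵥ (ρB *ᵥ v)| ≤ C * (s + b / Fintype.card I) * (v ⬝ᵥ v) := by
  obtain ⟨C, hC, δ, hδ, main⟩ := GapRI_fin h0 h1
  refine ⟨C, hC, δ, hδ, ?_⟩
  intro I _ _ A mu s b ρA ρB hN hA hmu hs hb h bA bB
  set e := Fintype.equivFin I with he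
  have bd : ∀ {ρ : Matrix I I ℝ}, (∀ v : I → ℝ, |v ⬝ᵥ (ρ *ᵥ v)| ≤ b * (v ⬝ᵥ v)) →
      MB (ρ.submatrix e.symm e.symm) b := by
    intro ρ hρ v
    rw [GapRI_tq, GapRI_tn e]
    exact hρ _
  have key := main (Fintype.card I) (A.map e.toEmbedding) mu s b (ρA.submatrix e.symm e.symm)
    (ρB.submatrix e.symm e.symm) hN (by rw [Finset.card_map]; exact hA) hmu hs hb
    (GapRI_tr e h) (bd bA) (bd bB)
  have bk : ∀ {ρ : Matrix I I ℝ} {S : ℝ}, MB (ρ.submatrix e.symm e.symm) S →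
      ∀ v : I → ℝ, |v ⬝ᵥ (ρ *ᵥ v)| ≤ S * (v ⬝ᵥ v) := by
    intro ρ S hρ v
    have := hρ (v ∘ e.symm)
    rw [GapRI_tq, GapRI_tn e] at this
    have h2 : (v ∘ e.symm) ∘ e = v := by
      ext i
      simp
    rw [h2] at this
    exact this
  intro v
  exact ⟨bk key.1 v, bk key.2 v⟩

end Pool.Agent.EinV
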