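import Pool.Agent.EinV.Gap

/-!
# The gap, uniformly for `ν` in `[θ, 1 - θ]`

`gapRI_u`: for `ν` near `ν₀` the system `ESys` at `ν` is the system at `ν₀` with `s + 2 η b` instead of `s`; iterate `gapRI` at `ν₀`; compactness.
`gapV_u`: the proof of `gapV` with `gapRI_u` and a constant `c0` which is an upper bound on `[θ, 1 - θ]`.
-/

namespace Pool.Agent.EinV

open Matrix Pool.Agent.EStab Pool.Agent.EinS Pool.Agent.SmIso Pool.Agent.EinU Pool.Agent.EinG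

section

variable {I : Type} [Fintype I] [DecidableEq I]

/-- The bound of a quadratic form. -/
private def GapU_MB (ρ : Matrix I I ℝ) (b : ℝ) : Prop :=
  ∀ v : I → ℝ, |v ⬝ᵥ (ρ *ᵥ v)| ≤ b * (v ⬝ᵥ v)

omit [DecidableEq I] in
private theorem GapU_vv (v : I → ℝ) : 0 ≤ v ⬝ᵥ v :=
  Finset.sum_nonneg fun _ _ => mul_self_nonneg _

private theorem GapU_ta {A : Finset I} {ρ : Matrix I I ℝ} {b : ℝ} (hM : 0 < (Fintype.card I : ℝ))
    (hb : 0 ≤ b) (h : GapU_MB ρ b) : |ta A ρ| ≤ b := by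
  have h1 : ∀ i, |ρ i i| ≤ b := by
    intro i
    have h2 := h (Pi.single i 1)
    rwa [Matrix.mulVec_single_one, single_dotProduct, one_mul, single_dotProduct, one_mul,
      Pi.single_eq_same, mul_one] at h2
  unfold ta
  rw [abs_div, abs_of_pos hM, div_le_iff₀ hM]
  calc |∑ a ∈ A, ρ a a| ≤ ∑ a ∈ A, |ρ a a| := Finset.abs_sum_le_sum_abs _ _
    _ ≤ ∑ _a ∈ A, b := Finset.sum_le_sum fun i _ => h1 i
    _ = A.card * b := by rw [Finset.sum_const, nsmul_eq_mul]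
    _ ≤ b * Fintype.card I := by
        rw [mul_comm]
        refine mul_le_mul_of_nonneg_left ?_ hb
        exact_mod_cast Finset.card_le_univ A

omit [DecidableEq I] in
private theorem GapU_frac (A : Finset I) (hM : 0 < (Fintype.card I : ℝ)) :
    0 ≤ (A.card : ℝ) / Fintype.card I ∧ (A.card : ℝ) / Fintype.card I ≤ 1 := by
  refine ⟨by positivity, ?_⟩
  rw [div_le_one hM]
  exact_mod_cast Finset.card_le_univ A

private theorem GapU_bf {A : Finset I} {ρ : Matrix I I ℝ} {b : ℝ} (hM : 0 < (Fintype.card I : ℝ))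
    (hb : 0 ≤ b) (h : GapU_MB ρ b) (v : I → ℝ) : |bf A ρ v| ≤ 2 * (b * (v ⬝ᵥ v)) := by
  unfold bf
  obtain ⟨f0, f1⟩ := GapU_frac A hM
  have hv := GapU_vv v
  have h1 : |(A.card : ℝ) / Fintype.card I * (v ⬝ᵥ (ρ *ᵥ v))| ≤ 1 * (b * (v ⬝ᵥ v)) := by
    rw [abs_mul, abs_of_nonneg f0]
    exact mul_le_mul f1 (h v) (abs_nonneg _) zero_le_one
  have h2 : |ta A ρ * (v ⬝ᵥ v)| ≤ b * (v ⬝ᵥ v) := by
    rw [abs_mul, abs_of_nonneg hv]
    exact mul_le_mul_of_nonneg_right (GapU_ta hM hb h) hv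
  have h3 := abs_add_le ((A.card : ℝ) / Fintype.card I * (v ⬝ᵥ (ρ *ᵥ v))) (ta A ρ * (v ⬝ᵥ v))
  linarith

/-- Change of the parameters of the slow system. -/
private theorem GapU_chg {A : Finset I} {x1 x2 lam x1' x2' lam' mu s b η : ℝ}
    {ρA ρB : Matrix I I ℝ} (hM : 0 < (Fintype.card I : ℝ)) (hb : 0 ≤ b)
    (bA : GapU_MB ρA b) (bB : GapU_MB ρB b)
    (e1 : |lam - lam'| ≤ η) (e2 : |1 / x1 - 1 / x1'| ≤ η) (e3 : |1 / x2 - 1 / x2'| ≤ η)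
    (e4 : |x1 ^ 2 - x1' ^ 2| ≤ η) (e5 : |x2 ^ 2 - x2' ^ 2| ≤ η)
    (e6 : |(x1 / 2 - 1 / x1) - (x1' / 2 - 1 / x1')| ≤ η)
    (e7 : |(x2 / 2 - 1 / x2) - (x2' / 2 - 1 / x2')| ≤ η)
    (h : ESys I A x1 x2 lam mu s ρA ρB) : ESys I A x1' x2' lam' mu (s + 2 * η * b) ρA ρB := by
  have tA : ∀ B : Finset I, |ta B ρA| ≤ b := fun B => GapU_ta hM hb bA
  have tB : ∀ B : Finset I, |ta B ρB| ≤ b := fun B => GapU_ta hM hb bB
  -- the product of two bounded numbers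
  have pr : ∀ {x y X Y : ℝ}, |x| ≤ X → |y| ≤ Y → |x * y| ≤ X * Y := by
    intro x y X Y hx hy
    rw [abs_mul]
    exact mul_le_mul hx hy (abs_nonneg _) ((abs_nonneg _).trans hx)
  have key : ∀ {X Y E S : ℝ}, |X| ≤ S → |Y - X| ≤ E → |Y| ≤ S + E := by
    intro X Y E S hX hY
    have := abs_add_le X (Y - X)
    rw [add_sub_cancel] at this
    linarith
  refine ⟨h.sA, h.sB, h.dA, h.dB, h.tr, fun v hv => ?_, fun v hv => ?_, fun v hv => ?_,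
    fun v hv => ?_⟩
  · have hvv := GapU_vv v
    have k := key (h.e1 v hv) (Y := -lam' * (v ⬝ᵥ (ρA *ᵥ v)) + 1 / x1' / 4 * bf A ρA v +
      1 / 4 * bf A ρB v) (E := 2 * η * b * (v ⬝ᵥ v)) ?_
    · rw [add_mul]; exact k
    · have a1 := pr e1 (bA v)
      have a2 := pr e2 (GapU_bf (A := A) hM hb bA v)
      have e : (-lam' * (v ⬝ᵥ (ρA *ᵥ v)) + 1 / x1' / 4 * bf A ρA v + 1 / 4 * bf A ρB v) -
          (-lam * (v ⬝ᵥ (ρA *ᵥ v)) + 1 / x1 / 4 * bf A ρA v + 1 / 4 * bf A ρB v) =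
          (lam - lam') * (v ⬝ᵥ (ρA *ᵥ v)) - 1 / 4 * ((1 / x1 - 1 / x1') * bf A ρA v) := by ring
      rw [e]
      rw [abs_le] at a1 a2 ⊢
      constructor <;> nlinarith [mul_nonneg hb hvv]
  · have hvv := GapU_vv v
    have k := key (h.e2 v hv) (Y := -lam' * (v ⬝ᵥ (ρB *ᵥ v)) + 1 / x2' / 4 * bf Aᶜ ρB v +
      1 / 4 * bf Aᶜ ρA v) (E := 2 * η * b * (v ⬝ᵥ v)) ?_
    · rw [add_mul]; exact k
    · have a1 := pr e1 (bB v)
      have a2 := pr e3 (GapU_bf (A := Aᶜ) hM hb bB v)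
      have e : (-lam' * (v ⬝ᵥ (ρB *ᵥ v)) + 1 / x2' / 4 * bf Aᶜ ρB v + 1 / 4 * bf Aᶜ ρA v) -
          (-lam * (v ⬝ᵥ (ρB *ᵥ v)) + 1 / x2 / 4 * bf Aᶜ ρB v + 1 / 4 * bf Aᶜ ρA v) =
          (lam - lam') * (v ⬝ᵥ (ρB *ᵥ v)) - 1 / 4 * ((1 / x2 - 1 / x2') * bf Aᶜ ρB v) := by ring
      rw [e]
      rw [abs_le] at a1 a2 ⊢
      constructor <;> nlinarith [mul_nonneg hb hvv]
  · have hvv := GapU_vv v
    obtain ⟨f0, f1⟩ := GapU_frac Aᶜ hM
    obtain ⟨f, hf⟩ : ∃ f, f = ((Aᶜ).card : ℝ) / Fintype.card I := ⟨_, rfl⟩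
    rw [← hf] at f0 f1
    have fa : |f| ≤ 1 := by rw [abs_of_nonneg f0]; exact f1
    have k := key (h.e3 v hv) (Y := -mu * (v ⬝ᵥ (ρB *ᵥ v)) + 1 / 4 * ((Aᶜ.card : ℝ) /
        Fintype.card I * x1' ^ 2 * (v ⬝ᵥ (ρA *ᵥ v)) + x2' ^ 2 * ta Aᶜ ρB * (v ⬝ᵥ v)) -
      (x1' / 2 - 1 / x1') / 2 * ta Aᶜ ρA * (v ⬝ᵥ v) -
      (x2' / 2 - 1 / x2') / 2 * ((Aᶜ.card : ℝ) / Fintype.card I) * (v ⬝ᵥ (ρB *ᵥ v)))
      (E := 2 * η * b * (v ⬝ᵥ v)) ?_
    · rw [add_mul]; exact k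
    · rw [← hf]
      have a1 := pr fa (pr e4 (bA v))
      have a2 := pr e5 (pr (tB Aᶜ) (abs_of_nonneg hvv).le)
      have a3 := pr e6 (pr (tA Aᶜ) (abs_of_nonneg hvv).le)
      have a4 := pr fa (pr e7 (bB v))
      have e : (-mu * (v ⬝ᵥ (ρB *ᵥ v)) + 1 / 4 * (f * x1' ^ 2 * (v ⬝ᵥ (ρA *ᵥ v)) +
          x2' ^ 2 * ta Aᶜ ρB * (v ⬝ᵥ v)) - (x1' / 2 - 1 / x1') / 2 * ta Aᶜ ρA * (v ⬝ᵥ v) -
          (x2' / 2 - 1 / x2') / 2 * f * (v ⬝ᵥ (ρB *ᵥ v))) -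
          (-mu * (v ⬝ᵥ (ρB *ᵥ v)) + 1 / 4 * (f * x1 ^ 2 * (v ⬝ᵥ (ρA *ᵥ v)) +
          x2 ^ 2 * ta Aᶜ ρB * (v ⬝ᵥ v)) - (x1 / 2 - 1 / x1) / 2 * ta Aᶜ ρA * (v ⬝ᵥ v) -
          (x2 / 2 - 1 / x2) / 2 * f * (v ⬝ᵥ (ρB *ᵥ v))) =
          -(1 / 4 * (f * ((x1 ^ 2 - x1' ^ 2) * (v ⬝ᵥ (ρA *ᵥ v))))) -
          1 / 4 * ((x2 ^ 2 - x2' ^ 2) * (ta Aᶜ ρB * (v ⬝ᵥ v))) +
          1 / 2 * (((x1 / 2 - 1 / x1) - (x1' / 2 - 1 / x1')) * (ta Aᶜ ρA * (v ⬝ᵥ v))) +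
          1 / 2 * (f * (((x2 / 2 - 1 / x2) - (x2' / 2 - 1 / x2')) * (v ⬝ᵥ (ρB *ᵥ v)))) := by
        ring
      rw [e]
      rw [abs_le] at a1 a2 a3 a4 ⊢
      constructor <;> nlinarith [mul_nonneg hb hvv]
  · have hvv := GapU_vv v
    obtain ⟨f0, f1⟩ := GapU_frac A hM
    obtain ⟨f, hf⟩ : ∃ f, f = (A.card : ℝ) / Fintype.card I := ⟨_, rfl⟩
    rw [← hf] at f0 f1
    have fa : |f| ≤ 1 := by rw [abs_of_nonneg f0]; exact f1
    have k := key (h.e4 v hv) (Y := -mu * (v ⬝ᵥ (ρA *ᵥ v)) + 1 / 4 * ((A.card : ℝ) /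
        Fintype.card I * x2' ^ 2 * (v ⬝ᵥ (ρB *ᵥ v)) + x1' ^ 2 * ta A ρA * (v ⬝ᵥ v)) -
      (x2' / 2 - 1 / x2') / 2 * ta A ρB * (v ⬝ᵥ v) -
      (x1' / 2 - 1 / x1') / 2 * ((A.card : ℝ) / Fintype.card I) * (v ⬝ᵥ (ρA *ᵥ v)))
      (E := 2 * η * b * (v ⬝ᵥ v)) ?_
    · rw [add_mul]; exact k
    · rw [← hf]
      have a1 := pr fa (pr e5 (bB v))
      have a2 := pr e4 (pr (tA A) (abs_of_nonneg hvv).le)
      have a3 := pr e7 (pr (tB A) (abs_of_nonneg hvv).le)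
      have a4 := pr fa (pr e6 (bA v))
      have e : (-mu * (v ⬝ᵥ (ρA *ᵥ v)) + 1 / 4 * (f * x2' ^ 2 * (v ⬝ᵥ (ρB *ᵥ v)) +
          x1' ^ 2 * ta A ρA * (v ⬝ᵥ v)) - (x2' / 2 - 1 / x2') / 2 * ta A ρB * (v ⬝ᵥ v) -
          (x1' / 2 - 1 / x1') / 2 * f * (v ⬝ᵥ (ρA *ᵥ v))) -
          (-mu * (v ⬝ᵥ (ρA *ᵥ v)) + 1 / 4 * (f * x2 ^ 2 * (v ⬝ᵥ (ρB *ᵥ v)) +
          x1 ^ 2 * ta A ρA * (v ⬝ᵥ v)) - (x2 / 2 - 1 / x2) / 2 * ta A ρB * (v ⬝ᵥ v) -
          (x1 / 2 - 1 / x1) / 2 * f * (v ⬝ᵥ (ρA *ᵥ v))) =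
          -(1 / 4 * (f * ((x2 ^ 2 - x2' ^ 2) * (v ⬝ᵥ (ρB *ᵥ v))))) -
          1 / 4 * ((x1 ^ 2 - x1' ^ 2) * (ta A ρA * (v ⬝ᵥ v))) +
          1 / 2 * (((x2 / 2 - 1 / x2) - (x2' / 2 - 1 / x2')) * (ta A ρB * (v ⬝ᵥ v))) +
          1 / 2 * (f * (((x1 / 2 - 1 / x1) - (x1' / 2 - 1 / x1')) * (v ⬝ᵥ (ρA *ᵥ v)))) := by
        ring
      rw [e]
      rw [abs_le] at a1 a2 a3 a4 ⊢
      constructor <;> nlinarith [mul_nonneg hb hvv]

omit [DecidableEq I] in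
/-- Iteration. -/
private theorem GapU_iter {ρA ρB : Matrix I I ℝ} {K b : ℝ} (hb : 0 ≤ b)
    (bA : GapU_MB ρA b) (bB : GapU_MB ρB b)
    (h : ∀ t, 0 ≤ t → GapU_MB ρA t → GapU_MB ρB t →
      GapU_MB ρA (K + t / 2) ∧ GapU_MB ρB (K + t / 2)) (hK : 0 ≤ K) :
    GapU_MB ρA (2 * K) ∧ GapU_MB ρB (2 * K) := by
  have hit : ∀ k : ℕ, GapU_MB ρA (2 * K + b / 2 ^ k) ∧ GapU_MB ρB (2 * K + b / 2 ^ k) := by
    intro k
    induction k with
    | zero =>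
      rw [pow_zero, div_one]
      refine ⟨fun v => (bA v).trans ?_, fun v => (bB v).trans ?_⟩ <;>
      exact mul_le_mul_of_nonneg_right (by linarith) (GapU_vv v)
    | succ k ih =>
      have h1 := h _ (by positivity) ih.1 ih.2
      have e : K + (2 * K + b / 2 ^ k) / 2 = 2 * K + b / 2 ^ (k + 1) := by
        rw [pow_succ]
        field_simp
        ring
      rwa [e] at h1
  have hlim : ∀ ρ : Matrix I I ℝ, (∀ k : ℕ, GapU_MB ρ (2 * K + b / 2 ^ k)) →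
      GapU_MB ρ (2 * K) := by
    intro ρ hρ v
    have ht : Filter.Tendsto (fun k : ℕ => (2 * K + b / 2 ^ k) * (v ⬝ᵥ v)) Filter.atTop
        (nhds ((2 * K + 0) * (v ⬝ᵥ v))) := by
      refine Filter.Tendsto.mul_const _ (Filter.Tendsto.const_add _ ?_)
      have h2 : Filter.Tendsto (fun k : ℕ => b * (1 / 2 : ℝ) ^ k) Filter.atTop (nhds (b * 0)) :=
        (tendsto_pow_atTop_nhds_zero_of_lt_one (by norm_num) (by norm_num)).const_mul b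
      rw [mul_zero] at h2
      refine h2.congr fun k => ?_
      rw [one_div, inv_pow, div_eq_mul_inv]
    have := ge_of_tendsto' ht fun k => hρ k v
    rwa [add_zero] at this
  exact ⟨hlim _ fun k => (hit k).1, hlim _ fun k => (hit k).2⟩

end

private theorem GapU_sN : Continuous sN := by
  unfold sN
  fun_prop

private theorem GapU_sN0 (ν : ℝ) : 0 ≤ sN ν := Real.sqrt_nonneg _

private theorem GapU_xN : Continuous xN := by
  unfold xN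
  refine continuous_id.div (continuous_const.add GapU_sN) fun ν => ?_
  have := GapU_sN0 ν
  positivity

private theorem GapU_xN' : Continuous fun ν => xN (1 - ν) :=
  GapU_xN.comp (continuous_const.sub continuous_id)

private theorem GapU_lamN : Continuous lamN := by
  unfold lamN
  refine Continuous.div ?_ ?_ fun ν => ?_
  · exact (continuous_const.add (continuous_const.mul GapU_sN)).add
      (continuous_const.mul (GapU_sN.pow 2))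
  · exact continuous_const.mul (continuous_const.add GapU_sN)
  · have := GapU_sN0 ν
    positivity

private theorem GapU_near {f : ℝ → ℝ} {ν₀ η : ℝ} (hf : ContinuousAt f ν₀) (hη : 0 < η) :
    ∃ r : ℝ, 0 < r ∧ ∀ ν, |ν - ν₀| ≤ r → |f ν - f ν₀| ≤ η := by
  obtain ⟨r, hr, h⟩ := Metric.continuousAt_iff.1 hf η hη
  refine ⟨r / 2, by linarith, fun ν hν => ?_⟩
  have h1 := h (x := ν) (by rw [Real.dist_eq]; linarith)
  rw [Real.dist_eq] at h1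
  exact h1.le

/-- The statement of `gapRI` at `ν`. -/
private def GapU_P (ν C δ : ℝ) : Prop :=
  ∀ (I : Type) [Fintype I] [DecidableEq I] (A : Finset I) (mu s b : ℝ) (ρA ρB : Matrix I I ℝ),
    1 / δ ≤ Fintype.card I → |(A.card : ℝ) / Fintype.card I - ν| ≤ δ →
    |mu - (1 + sN ν - lamN ν)| ≤ δ → 0 ≤ s → 0 ≤ b →
    ESys I A (xN ν) (xN (1 - ν)) (lamN ν) mu s ρA ρB →
    (∀ v : I → ℝ, |v ⬝ᵥ (ρA *ᵥ v)| ≤ b * (v ⬝ᵥ v)) →
    (∀ v : I → ℝ, |v ⬝ᵥ (ρB *ᵥ v)| ≤ b * (v ⬝ᵥ v)) →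
    ∀ v : I → ℝ, |v ⬝ᵥ (ρA *ᵥ v)| ≤ C * (s + b / Fintype.card I) * (v ⬝ᵥ v) ∧
      |v ⬝ᵥ (ρB *ᵥ v)| ≤ C * (s + b / Fintype.card I) * (v ⬝ᵥ v)

private theorem GapU_P_mono {ν C δ C' δ' : ℝ} (h : GapU_P ν C δ) (hC : C ≤ C') (hδ : δ' ≤ δ)
    (h0 : 0 < δ') : GapU_P ν C' δ' := by
  intro I _ _ A mu s b ρA ρB hM hA hmu hs hb hE bA bB v
  have hM0 : (0 : ℝ) < Fintype.card I := lt_of_lt_of_le (by positivity) hM
  have k := h I A mu s b ρA ρB ((one_div_le_one_div_of_le h0 hδ).trans hM) (hA.trans hδ)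
    (hmu.trans hδ) hs hb hE bA bB v
  have hX : 0 ≤ (s + b / Fintype.card I) * (v ⬝ᵥ v) :=
    mul_nonneg (by positivity) (GapU_vv v)
  have hle : C * (s + b / Fintype.card I) * (v ⬝ᵥ v) ≤
      C' * (s + b / Fintype.card I) * (v ⬝ᵥ v) := by
    rw [mul_assoc, mul_assoc]
    exact mul_le_mul_of_nonneg_right hC hX
  exact ⟨k.1.trans hle, k.2.trans hle⟩

private theorem GapU_loc {ν₀ : ℝ} (h0 : 0 < ν₀) (h1 : ν₀ < 1) : ∃ C : ℝ, 1 ≤ C ∧ ∃ r : ℝ, 0 < r ∧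
    ∀ ν, |ν - ν₀| ≤ r → GapU_P ν C r := by
  obtain ⟨C, hC, δ, hδ, hP⟩ := gapRI h0 h1
  have hC0 : 0 < C := by linarith
  obtain ⟨η, hη⟩ : ∃ η : ℝ, η = 1 / (8 * C) := ⟨_, rfl⟩
  have hη0 : 0 < η := by rw [hη]; positivity
  have hx1 := xN_pos h0 h1
  have hx2 := xN_pos (ν := 1 - ν₀) (by linarith) (by linarith)
  have cx := GapU_xN.continuousAt (x := ν₀)
  have cx' := GapU_xN'.continuousAt (x := ν₀)
  have cl := GapU_lamN.continuousAt (x := ν₀)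
  have cs := GapU_sN.continuousAt (x := ν₀)
  have ci : ContinuousAt (fun ν => 1 / xN ν) ν₀ := continuousAt_const.div cx hx1.ne'
  have ci' : ContinuousAt (fun ν => 1 / xN (1 - ν)) ν₀ := continuousAt_const.div cx' hx2.ne'
  obtain ⟨r1, p1, g1⟩ := GapU_near cl hη0
  obtain ⟨r2, p2, g2⟩ := GapU_near ci hη0
  obtain ⟨r3, p3, g3⟩ := GapU_near ci' hη0
  obtain ⟨r4, p4, g4⟩ := GapU_near (cx.pow 2) hη0
  obtain ⟨r5, p5, g5⟩ := GapU_near (cx'.pow 2) hη0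
  obtain ⟨r6, p6, g6⟩ := GapU_near ((cx.div_const 2).sub ci) hη0
  obtain ⟨r7, p7, g7⟩ := GapU_near ((cx'.div_const 2).sub ci') hη0
  obtain ⟨r8, p8, g8⟩ := GapU_near ((continuousAt_const.add cs).sub cl :
    ContinuousAt (fun ν => 1 + sN ν - lamN ν) ν₀) (half_pos hδ)
  obtain ⟨r, hr0, k1, k2, k3, k4, k5, k6, k7, k8, k9, k10⟩ : ∃ r : ℝ, 0 < r ∧ r ≤ r1 ∧ r ≤ r2 ∧
      r ≤ r3 ∧ r ≤ r4 ∧ r ≤ r5 ∧ r ≤ r6 ∧ r ≤ r7 ∧ r ≤ r8 ∧ r ≤ δ / 2 ∧ r ≤ 1 / (4 * C) := by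
    refine ⟨min (min (min r1 r2) (min r3 r4)) (min (min (min r5 r6) (min r7 r8))
      (min (δ / 2) (1 / (4 * C)))), ?_, ?_, ?_, ?_, ?_, ?_, ?_, ?_, ?_, ?_, ?_⟩
    · have : 0 < 1 / (4 * C) := by positivity
      exact lt_min (lt_min (lt_min p1 p2) (lt_min p3 p4)) (lt_min (lt_min (lt_min p5 p6)
        (lt_min p7 p8)) (lt_min (half_pos hδ) this))
    all_goals simp only [min_le_iff, le_refl, true_or, or_true]
  refine ⟨2 * C, by linarith, r, hr0, ?_⟩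
  intro ν hν I _ _ A mu s b ρA ρB hM hA hmu hs hb hE bA bB
  have hM0 : (0 : ℝ) < Fintype.card I := lt_of_lt_of_le (by positivity) hM
  have hMδ : 1 / δ ≤ Fintype.card I :=
    (one_div_le_one_div_of_le hr0 (by linarith : r ≤ δ)).trans hM
  have hAδ : |(A.card : ℝ) / Fintype.card I - ν₀| ≤ δ := by
    have := abs_add_le ((A.card : ℝ) / Fintype.card I - ν) (ν - ν₀)
    rw [sub_add_sub_cancel] at this
    linarith
  have hmuδ : |mu - (1 + sN ν₀ - lamN ν₀)| ≤ δ := by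
    have := abs_add_le (mu - (1 + sN ν - lamN ν)) ((1 + sN ν - lamN ν) - (1 + sN ν₀ - lamN ν₀))
    rw [sub_add_sub_cancel] at this
    have k : |(1 + sN ν - lamN ν) - (1 + sN ν₀ - lamN ν₀)| ≤ δ / 2 := g8 ν (hν.trans k8)
    linarith
  have hCM : C * (1 / Fintype.card I) ≤ 1 / 4 := by
    have h2 : 4 * C ≤ Fintype.card I := by
      have := (one_div_le_one_div_of_le hr0 k10).trans hM
      rwa [one_div_one_div] at this
    rw [mul_one_div, div_le_iff₀ hM0]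
    linarith
  have step : ∀ t, 0 ≤ t → GapU_MB ρA t → GapU_MB ρB t →
      GapU_MB ρA (C * s + t / 2) ∧ GapU_MB ρB (C * s + t / 2) := by
    intro t ht tA tB
    have hE' := GapU_chg hM0 ht tA tB (g1 ν (hν.trans k1)) (g2 ν (hν.trans k2))
      (g3 ν (hν.trans k3)) (g4 ν (hν.trans k4)) (g5 ν (hν.trans k5)) (g6 ν (hν.trans k6))
      (g7 ν (hν.trans k7)) hE
    have k := hP I A mu (s + 2 * η * t) t ρA ρB hMδ hAδ hmuδ (by positivity) ht hE' tA tB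
    have hle : C * (s + 2 * η * t + t / Fintype.card I) ≤ C * s + t / 2 := by
      have e1 : C * (2 * η * t) = t / 4 := by
        rw [hη]
        field_simp
        ring
      have e2 : C * (t / Fintype.card I) = C * (1 / Fintype.card I) * t := by ring
      have e3 : C * (1 / Fintype.card I) * t ≤ 1 / 4 * t := mul_le_mul_of_nonneg_right hCM ht
      rw [mul_add, mul_add, e1, e2]
      linarith
    exact ⟨fun v => (k v).1.trans (mul_le_mul_of_nonneg_right hle (GapU_vv v)),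
      fun v => (k v).2.trans (mul_le_mul_of_nonneg_right hle (GapU_vv v))⟩
  obtain ⟨q1, q2⟩ := GapU_iter hb bA bB step (by positivity)
  intro v
  have hle : 2 * (C * s) * (v ⬝ᵥ v) ≤ 2 * C * (s + b / Fintype.card I) * (v ⬝ᵥ v) := by
    refine mul_le_mul_of_nonneg_right ?_ (GapU_vv v)
    have : 0 ≤ C * (b / Fintype.card I) := by positivity
    linarith
  exact ⟨(q1 v).trans hle, (q2 v).trans hle⟩

/-- `gapRI` with constants which are uniform for `ν` in `[θ, 1 - θ]`. -/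
theorem gapRI_u {θ : ℝ} (hθ : 0 < θ) : ∃ C : ℝ, 1 ≤ C ∧ ∃ δ : ℝ, 0 < δ ∧
    ∀ ν, θ ≤ ν → ν ≤ 1 - θ →
    ∀ (I : Type) [Fintype I] [DecidableEq I] (A : Finset I) (mu s b : ℝ) (ρA ρB : Matrix I I ℝ),
    1 / δ ≤ Fintype.card I → |(A.card : ℝ) / Fintype.card I - ν| ≤ δ →
    |mu - (1 + sN ν - lamN ν)| ≤ δ → 0 ≤ s → 0 ≤ b →
    ESys I A (xN ν) (xN (1 - ν)) (lamN ν) mu s ρA ρB →
    (∀ v : I → ℝ, |v ⬝ᵥ (ρA *ᵥ v)| ≤ b * (v ⬝ᵥ v)) →
    (∀ v : I → ℝ, |v ⬝ᵥ (ρB *ᵥ v)| ≤ b * (v ⬝ᵥ v)) →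
    ∀ v : I → ℝ, |v ⬝ᵥ (ρA *ᵥ v)| ≤ C * (s + b / Fintype.card I) * (v ⬝ᵥ v) ∧
      |v ⬝ᵥ (ρB *ᵥ v)| ≤ C * (s + b / Fintype.card I) * (v ⬝ᵥ v) := by
  classical
  have hl : ∀ ν₀ : ℝ, ∃ C r : ℝ, 1 ≤ C ∧ 0 < r ∧ (0 < ν₀ → ν₀ < 1 →
      ∀ ν, |ν - ν₀| ≤ r → GapU_P ν C r) := by
    intro ν₀
    by_cases h : 0 < ν₀ ∧ ν₀ < 1
    · obtain ⟨C, hC, r, hr, hP⟩ := GapU_loc h.1 h.2
      exact ⟨C, r, hC, hr, fun _ _ => hP⟩
    · exact ⟨1, 1, le_rfl, one_pos, fun a b => absurd ⟨a, b⟩ h⟩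
  choose C r hC hr hP using hl
  obtain ⟨t, ht, hcov⟩ := (isCompact_Icc (a := θ) (b := 1 - θ)).elim_nhds_subcover
    (fun ν => Metric.ball ν (r ν)) fun ν _ => Metric.ball_mem_nhds ν (hr ν)
  obtain ⟨C', hC', hmax⟩ : ∃ C' : ℝ, 1 ≤ C' ∧ ∀ ν ∈ t, C ν ≤ C' := by
    refine ⟨1 + ∑ ν ∈ t, C ν, ?_, fun ν hν => ?_⟩
    · have : 0 ≤ ∑ ν ∈ t, C ν := Finset.sum_nonneg fun ν _ => by linarith [hC ν]
      linarith
    · have := Finset.single_le_sum (f := C) (fun ν _ => by linarith [hC ν]) hν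
      linarith
  obtain ⟨δ, hδ, hmin⟩ : ∃ δ : ℝ, 0 < δ ∧ ∀ ν ∈ t, δ ≤ r ν := by
    by_cases hne : t.Nonempty
    · refine ⟨t.inf' hne r, ?_, fun ν hν => Finset.inf'_le r hν⟩
      rw [Finset.lt_inf'_iff]
      exact fun ν _ => hr ν
    · rw [Finset.not_nonempty_iff_eq_empty] at hne
      exact ⟨1, one_pos, fun ν hν => by rw [hne] at hν; exact absurd hν (Finset.notMem_empty _)⟩
  refine ⟨C', hC', δ, hδ, fun ν hν0 hν1 => ?_⟩
  obtain ⟨ν₀, hν₀, hb⟩ := Set.mem_iUnion₂.1 (hcov ⟨hν0, hν1⟩)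
  have hI := ht ν₀ hν₀
  rw [Metric.mem_ball, Real.dist_eq] at hb
  exact GapU_P_mono (hP ν₀ (lt_of_lt_of_le hθ hI.1) (by linarith [hI.2]) ν hb.le)
    (hmax ν₀ hν₀) (hmin ν₀ hν₀) hδ

/-- Iteration of a halving step. -/
private theorem GapU_itV {L : Type} [LieRing L] [LieAlgebra ℝ L] {β : L →ₗ[ℝ] L}
    (hQ : ∀ x : L, 0 ≤ Qf L x x) {K s b : ℝ} (hK : 0 ≤ K) (hs : 0 ≤ s) (hb : 0 ≤ b)
    (h0 : NBL β b) (h : ∀ t : ℝ, 0 ≤ t → NBL β t → NBL β (K * s + t / 2)) :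
    NBL β (2 * K * s) := by
  have hit : ∀ k : ℕ, NBL β (2 * K * s + b / 2 ^ k) := by
    intro k
    induction k with
    | zero =>
      intro z
      refine (h0 z).trans (mul_le_mul_of_nonneg_right ?_ (hQ z))
      have : 0 ≤ 2 * K * s := by positivity
      simp only [pow_zero, div_one]
      linarith
    | succ k ih =>
      have h1 := h _ (by positivity) ih
      have e : K * s + (2 * K * s + b / 2 ^ k) / 2 = 2 * K * s + b / 2 ^ (k + 1) := by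
        rw [pow_succ]
        field_simp
        ring
      rwa [e] at h1
  intro z
  have ht : Filter.Tendsto (fun k : ℕ => (2 * K * s + b / 2 ^ k) * Qf L z z) Filter.atTop
      (nhds ((2 * K * s + 0) * Qf L z z)) := by
    refine Filter.Tendsto.mul_const _ (Filter.Tendsto.const_add _ ?_)
    have h2 : Filter.Tendsto (fun k : ℕ => b * (1 / 2 : ℝ) ^ k) Filter.atTop (nhds (b * 0)) :=
      (tendsto_pow_atTop_nhds_zero_of_lt_one (by norm_num) (by norm_num)).const_mul b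
    rw [mul_zero] at h2
    refine h2.congr fun k => ?_
    rw [one_div, inv_pow, div_eq_mul_inv]
  have := ge_of_tendsto' ht fun k => hit k z
  rwa [add_zero] at this

/-- A bound for all constants. -/
theorem cst_bd {θ : ℝ} (hθ : 0 < θ) : ∃ c0 : ℝ, 1 ≤ c0 ∧ ∀ ν, θ ≤ ν → ν ≤ 1 - θ →
    1 + xN ν + 1 / xN ν + xN (1 - ν) + 1 / xN (1 - ν) + 4 * lamN ν + 1 / (4 * lamN ν) +
      lamN ν + 1 / lamN ν + (1 + sN ν - lamN ν) + 1 / (1 + sN ν - lamN ν) +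
      |2 * lamN ν - 1 - sN ν| + 2 / ν + 2 / (1 - ν) ≤ c0 := by
  have hI : ∀ ν ∈ Set.Icc θ (1 - θ), 0 < ν ∧ ν < 1 ∧ 0 < 1 - ν := fun ν hν =>
    ⟨lt_of_lt_of_le hθ hν.1, by linarith [hν.2], by linarith [hν.2]⟩
  have c1 := GapU_xN.continuousOn (s := Set.Icc θ (1 - θ))
  have c2 := GapU_xN'.continuousOn (s := Set.Icc θ (1 - θ))
  have c3 := GapU_lamN.continuousOn (s := Set.Icc θ (1 - θ))
  have c4 := GapU_sN.continuousOn (s := Set.Icc θ (1 - θ))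
  have c5 : ContinuousOn (fun ν => 1 + sN ν - lamN ν) (Set.Icc θ (1 - θ)) :=
    (continuousOn_const.add c4).sub c3
  have hc : ContinuousOn (fun ν => 1 + xN ν + 1 / xN ν + xN (1 - ν) + 1 / xN (1 - ν) +
      4 * lamN ν + 1 / (4 * lamN ν) + lamN ν + 1 / lamN ν + (1 + sN ν - lamN ν) +
      1 / (1 + sN ν - lamN ν) + |2 * lamN ν - 1 - sN ν| + 2 / ν + 2 / (1 - ν))
      (Set.Icc θ (1 - θ)) := by
    refine ((((((((((((continuousOn_const.add c1).add (continuousOn_const.div c1 ?_)).add c2).add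
      (continuousOn_const.div c2 ?_)).add (continuousOn_const.mul c3)).add
      (continuousOn_const.div (continuousOn_const.mul c3) ?_)).add c3).add
      (continuousOn_const.div c3 ?_)).add c5).add (continuousOn_const.div c5 ?_)).add
      (((continuousOn_const.mul c3).sub continuousOn_const).sub c4).abs).add
      (continuousOn_const.div continuousOn_id ?_)).add
      (continuousOn_const.div (continuousOn_const.sub continuousOn_id) ?_)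
    · intro ν hν
      exact (xN_pos (hI ν hν).1 (hI ν hν).2.1).ne'
    · intro ν hν
      exact (xN_pos (hI ν hν).2.2 (by linarith [(hI ν hν).1])).ne'
    · intro ν hν
      have := (lamN_pos (hI ν hν).1 (hI ν hν).2.1).1
      exact (mul_pos four_pos this).ne'
    · intro ν hν
      exact (lamN_pos (hI ν hν).1 (hI ν hν).2.1).1.ne'
    · intro ν hν
      exact (lamN_pos (hI ν hν).1 (hI ν hν).2.1).2.ne'
    · intro ν hν
      exact (hI ν hν).1.ne'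
    · intro ν hν
      exact (hI ν hν).2.2.ne'
  obtain ⟨c0, hc0⟩ := (isCompact_Icc.image_of_continuousOn hc).bddAbove
  refine ⟨max c0 1, le_max_right _ _, fun ν h0 h1 => ?_⟩
  exact (hc0 ⟨ν, ⟨h0, h1⟩, rfl⟩).trans (le_max_left _ _)

/-- `gapV` with constants which are uniform for `ν` in `[θ, 1 - θ]`. -/
theorem gapV_u (m : ℕ) {θ : ℝ} (hθ : 0 < θ) : ∃ K : ℝ, 1 ≤ K ∧ ∃ δ : ℝ, 0 < δ ∧
    ∀ ν, θ ≤ ν → ν ≤ 1 - θ →
    ∀ (L : Type) [LieRing L] [LieAlgebra ℝ L] [Module.Finite ℝ L] (I : Type) [Fintype I]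
    [DecidableEq I] (R : Rp L I m) (A : Finset I) (S T Pp : L →ₗ[ℝ] L) (c : L)
    (J0 : Matrix I I ℝ) (g1 g2 : ℝ),
    Spl R A (xN ν) (xN (1 - ν)) (4 * lamN ν) S T Pp c J0 g1 g2 → 1 / δ ≤ Fintype.card I →
    |(A.card : ℝ) / Fintype.card I - ν| ≤ δ →
    ∀ (D : L →ₗ[ℝ] L) , DD S T Pp D (2 * lamN ν - 1 - sN ν) δ →
    ∀ (β : L →ₗ[ℝ] L) (s : ℝ), QSym β → (∀ x, β (Pp x) = Pp (β x)) →
      (∀ y, |ellQG S T D (lamN ν) β y| ≤ s * Qf L y y) → NBL β (K * s) := by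
  obtain ⟨c0, hc1, hc0⟩ := cst_bd hθ
  have hinv : ∀ x : ℝ, 0 < x → 1 / x ≤ c0 → 1 / c0 ≤ x := by
    intro x hx h
    rw [div_le_iff₀ (by linarith)]
    rw [div_le_iff₀ hx] at h
    linarith [mul_comm x c0]
  obtain ⟨C₁, hC₁, hE⟩ := esys_of_ell c0 m
  obtain ⟨C₂, hC₂, hF⟩ := fast_gap c0 m
  obtain ⟨C₃, hC₃, δ₃, hδ₃, hR⟩ := gapRI_u hθ
  have hm0 : (0 : ℝ) ≤ m := Nat.cast_nonneg m
  obtain ⟨K, hKd⟩ : ∃ K : ℝ, K = C₂ * (1 + C₃ * C₁ + C₃ * (2 * (m + 1))) := ⟨_, rfl⟩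
  have hK1 : 1 ≤ K := by
    rw [hKd]
    have : 0 ≤ C₃ * C₁ + C₃ * (2 * (m + 1)) := by positivity
    nlinarith
  obtain ⟨δ, hδ0, hd3, hdC, hdm, hdK, hdn, hdn'⟩ : ∃ δ : ℝ, 0 < δ ∧ δ ≤ δ₃ ∧ δ ≤ 1 / C₂ ∧
      δ ≤ 1 / (4 * ((m : ℝ) + 1)) ∧ δ ≤ 1 / (4 * K) ∧ δ ≤ θ / 2 ∧ δ ≤ θ / 2 := by
    refine ⟨min (min (min δ₃ (1 / C₂)) (min (1 / (4 * ((m : ℝ) + 1))) (1 / (4 * K))))
      (min (θ / 2) (θ / 2)), ?_, ?_, ?_, ?_, ?_, ?_, ?_⟩
    · refine lt_min (lt_min (lt_min hδ₃ ?_) (lt_min ?_ ?_)) (lt_min ?_ ?_) <;> positivity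
    · exact (min_le_left _ _).trans ((min_le_left _ _).trans (min_le_left _ _))
    · exact (min_le_left _ _).trans ((min_le_left _ _).trans (min_le_right _ _))
    · exact (min_le_left _ _).trans ((min_le_right _ _).trans (min_le_left _ _))
    · exact (min_le_left _ _).trans ((min_le_right _ _).trans (min_le_right _ _))
    · exact (min_le_right _ _).trans (min_le_left _ _)
    · exact (min_le_right _ _).trans (min_le_right _ _)
  refine ⟨2 * K, by linarith, δ, hδ0, ?_⟩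
  intro ν hν0 hν1
  have h0 : 0 < ν := lt_of_lt_of_le hθ hν0
  have h1 : ν < 1 := by linarith
  have h0' : 0 < 1 - ν := by linarith
  have hx1 := xN_pos h0 h1
  have hx2 := xN_pos h0' (by linarith : 1 - ν < 1)
  obtain ⟨hl, hm'⟩ := lamN_pos h0 h1
  have hbd := hc0 ν hν0 hν1
  obtain ⟨x1, hx1d⟩ : ∃ x1 : ℝ, x1 = xN ν := ⟨_, rfl⟩
  obtain ⟨x2, hx2d⟩ : ∃ x2 : ℝ, x2 = xN (1 - ν) := ⟨_, rfl⟩
  obtain ⟨lam, hlam⟩ : ∃ lam : ℝ, lam = lamN ν := ⟨_, rfl⟩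
  obtain ⟨mu, hmu⟩ : ∃ mu : ℝ, mu = 1 + sN ν - lamN ν := ⟨_, rfl⟩
  have hom : 2 * lamN ν - 1 - sN ν = lam - mu := by rw [hlam, hmu]; ring
  rw [← hx1d] at hx1
  rw [← hx2d] at hx2
  rw [← hlam] at hl
  rw [← hmu] at hm'
  rw [← hmu, ← hx1d, ← hx2d, ← hlam] at hbd
  have p1 : 0 < 1 / x1 := by positivity
  have p2 : 0 < 1 / x2 := by positivity
  have p3 : 0 < 1 / lam := by positivity
  have p4 : 0 < 1 / mu := by positivity
  have p5 : 0 < 1 / (4 * lam) := by positivity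
  have p6 : 0 < 2 / ν := by positivity
  have p7 : 0 < 2 / (1 - ν) := by positivity
  have p8 := abs_nonneg (2 * lam - 1 - sN ν)
  intro L _ _ _ I _ _ R A S T Pp c J0 g1 g2 hS hM hA D hD β s hβ hc hs
  rw [← hx1d, ← hx2d, ← hlam] at hS
  rw [hom] at hD
  rw [← hlam] at hs
  have hMd : ∀ d, δ ≤ d → 1 / d ≤ Fintype.card I := fun d hd =>
    (one_div_le_one_div_of_le hδ0 hd).trans hM
  have hM0 : (0 : ℝ) < Fintype.card I := lt_of_lt_of_le (by positivity) hM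
  have hMi : 1 / (Fintype.card I : ℝ) ≤ δ := by
    rw [div_le_iff₀ hM0]
    rw [div_le_iff₀ hδ0] at hM
    linarith [mul_comm (Fintype.card I : ℝ) δ]
  have hM4 : 4 * ((m : ℝ) + 1) ≤ Fintype.card I := by
    have := hMd _ hdm
    rwa [one_div_one_div] at this
  have hMC : C₂ ≤ Fintype.card I := by
    have := hMd _ hdC
    rwa [one_div_one_div] at this
  have hAc : (A.card : ℝ) + (Aᶜ.card : ℝ) = Fintype.card I := by
    exact_mod_cast Finset.card_add_card_compl A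
  have hB : Bnd I m A x1 x2 (4 * lam) c0 := by
    have hA' := abs_le.1 hA
    refine ⟨hc1, hinv _ hx1 (by linarith), by linarith,
      hinv _ hx2 (by linarith), by linarith,
      hinv _ (by positivity) (by linarith), by linarith, ?_, ?_, hM4⟩
    · have e : ν / 2 ≤ (A.card : ℝ) / Fintype.card I := by linarith [hA'.1]
      rw [le_div_iff₀ hM0] at e
      have e2 : (Fintype.card I : ℝ) ≤ 2 / ν * A.card := by
        rw [div_mul_eq_mul_div, le_div_iff₀ h0]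
        linarith
      refine e2.trans (mul_le_mul_of_nonneg_right ?_ (Nat.cast_nonneg _))
      linarith
    · have e : (A.card : ℝ) / Fintype.card I ≤ ν + (1 - ν) / 2 := by linarith [hA'.2]
      rw [div_le_iff₀ hM0] at e
      have e2 : (Fintype.card I : ℝ) ≤ 2 / (1 - ν) * Aᶜ.card := by
        rw [div_mul_eq_mul_div, le_div_iff₀ h0']
        nlinarith
      refine e2.trans (mul_le_mul_of_nonneg_right ?_ (Nat.cast_nonneg _))
      linarith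
  have hQ : ∀ x : L, 0 ≤ Qf L x x := fun x => by
    rw [R.qf]
    exact mul_nonneg (zero_le_one.trans R.n1)
      (Finset.sum_nonneg fun a _ => Finset.sum_nonneg fun b _ => mul_self_nonneg _)
  obtain ⟨b0, hb0, hb0N⟩ : ∃ b : ℝ, 0 ≤ b ∧ NBL β b := by
    exact R.bdd β
  rcases lt_or_ge s 0 with hs0 | hs0
  · intro z
    have h2 := (abs_nonneg _).trans (hs z)
    have h3 := hQ z
    have h4 : Qf L z z = 0 := by nlinarith
    have h5 := hb0N z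
    rw [h4, mul_zero] at h5 ⊢
    exact h5
  refine GapU_itV hQ (by linarith) hs0 hb0 hb0N fun b hb hbN => ?_
  have hsys := hE L I R A x1 x2 (4 * lam) S T Pp c J0 g1 g2 hS hB D lam mu δ
    (by rw [abs_of_pos hl]; linarith) (by rw [abs_of_pos hm']; linarith) hD β s b hβ hc
    hs0 hb hbN hs
  have hMδ : 0 ≤ 1 / (Fintype.card I : ℝ) + δ := by positivity
  have hs'0 : 0 ≤ C₁ * (s + (1 / Fintype.card I + δ) * b) := by positivity
  have hb'0 : 0 ≤ 2 * ((m : ℝ) + 1) * b := by positivity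
  rw [hx1d, hx2d, hlam] at hsys
  have hr := hR ν hν0 hν1 I A mu (C₁ * (s + (1 / Fintype.card I + δ) * b)) (2 * ((m : ℝ) + 1) * b)
    (R.rh A β) (R.rh Aᶜ β) (hMd _ hd3) (hA.trans hd3) (by rw [hmu, sub_self, abs_zero]; exact hδ₃.le)
    hs'0 hb'0 hsys (R.rh_le hM4 hb hbN A) (R.rh_le hM4 hb hbN Aᶜ)
  have hr0 : 0 ≤ C₃ * (C₁ * (s + (1 / Fintype.card I + δ) * b) +
      2 * ((m : ℝ) + 1) * b / Fintype.card I) := by positivity
  have hfin := hF L I R A x1 x2 (4 * lam) S T Pp c J0 g1 g2 hS hB hMC D lam mu δ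
    (hinv _ hl (by linarith)) (hinv _ hm' (by linarith)) hD β s _ b hβ hc hs0
    hr0 hb hbN hs (fun v => (hr v).1) (fun v => (hr v).2)
  intro z
  refine (hfin z).trans (mul_le_mul_of_nonneg_right ?_ (hQ z))
  have hi0 : 0 < 1 / (Fintype.card I : ℝ) := by positivity
  have hsplit : 2 * ((m : ℝ) + 1) * b / Fintype.card I =
      2 * ((m : ℝ) + 1) * (1 / Fintype.card I * b) := by ring
  rw [hsplit]
  have hib : 1 / (Fintype.card I : ℝ) * b ≤ δ * b := mul_le_mul_of_nonneg_right hMi hb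
  have hKδ : K * (δ * b) ≤ b / 4 := by
    have : K * δ ≤ 1 / 4 := by
      rw [le_div_iff₀ (by positivity)] at hdK
      linarith
    calc K * (δ * b) = K * δ * b := by ring
      _ ≤ 1 / 4 * b := mul_le_mul_of_nonneg_right this hb
      _ = b / 4 := by ring
  have hu : (1 / (Fintype.card I : ℝ) + δ) * b ≤ 2 * (δ * b) := by
    rw [add_mul]; linarith
  obtain ⟨u, hud⟩ : ∃ u : ℝ, u = δ * b := ⟨_, rfl⟩
  obtain ⟨w, hwd⟩ : ∃ w : ℝ, w = 1 / (Fintype.card I : ℝ) * b := ⟨_, rfl⟩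
  obtain ⟨w', hwd'⟩ : ∃ w' : ℝ, w' = (1 / (Fintype.card I : ℝ) + δ) * b := ⟨_, rfl⟩
  rw [← hud] at hib hKδ hu
  rw [← hwd] at hib
  rw [← hwd'] at hu
  rw [← hwd, ← hwd']
  have hu0 : 0 ≤ u := by rw [hud]; positivity
  have hC30 : 0 ≤ C₃ := by linarith
  have hC10 : 0 ≤ C₁ := by linarith
  have hC20 : 0 ≤ C₂ := by linarith
  calc C₂ * (s + C₃ * (C₁ * (s + w') + 2 * ((m : ℝ) + 1) * w) + w')
      ≤ C₂ * (s + C₃ * (C₁ * (s + 2 * u) + 2 * ((m : ℝ) + 1) * (2 * u)) + 2 * u) := by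
        refine mul_le_mul_of_nonneg_left ?_ hC20
        have a1 : C₁ * (s + w') ≤ C₁ * (s + 2 * u) := mul_le_mul_of_nonneg_left (by linarith) hC10
        have a2 : 2 * ((m : ℝ) + 1) * w ≤ 2 * ((m : ℝ) + 1) * (2 * u) :=
          mul_le_mul_of_nonneg_left (by linarith) (by positivity)
        have a3 := mul_le_mul_of_nonneg_left (add_le_add a1 a2) hC30
        linarith
    _ = C₂ * (1 + C₃ * C₁) * s + 2 * (K * u) := by rw [hKd]; ring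
    _ ≤ K * s + b / 2 := by
        have a4 : C₂ * (1 + C₃ * C₁) * s ≤ K * s := by
          refine mul_le_mul_of_nonneg_right ?_ hs0
          rw [hKd]
          refine mul_le_mul_of_nonneg_left ?_ hC20
          have : 0 ≤ C₃ * (2 * ((m : ℝ) + 1)) := by positivity
          linarith
        linarith

end Pool.Agent.EinV
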