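import Pool.Agent.EinG.PiGap
import Pool.Agent.EinG.Frm

/-!
# Base metrics on the factors of a product

`Fac h G S T Pp D c τ lam eps K`: the data of `LBaseG` and the gap for one factor; `h` is the projection of the isotropy algebra to this factor, `G` the set of the automorphisms of
the factor induced by the isotropy group.  The class `ClsG` of operators is the one which commutes with `G` and with all automorphisms which fix `h` and commute with `S`.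
-/

namespace Pool.Agent.EinV

open Pool.Agent.EStab Pool.Agent.EinS Pool.Agent.SmIso Pool.Agent.EinU Pool.Agent.EinG

section

variable {L : Type} [LieRing L] [LieAlgebra ℝ L]

/-- The automorphism `γ` fixes `h` and commutes with `S`. -/
def FixS (h : LieSubalgebra ℝ L) (S : L →ₗ[ℝ] L) (γ : L ≃ₗ⁅ℝ⁆ L) : Prop :=
  (∀ y ∈ h, γ y = y) ∧ ∀ x, S (γ x) = γ (S x)

/-- The class of operators on a factor. -/
def ClsG (h : LieSubalgebra ℝ L) (G : Set (L ≃ₗ⁅ℝ⁆ L)) (S β : L →ₗ[ℝ] L) : Prop :=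
  QSym β ∧ ∀ γ : L ≃ₗ⁅ℝ⁆ L, γ ∈ G ∨ FixS h S γ → ∀ x, β (γ x) = γ (β x)

/-- The base metric on a factor. -/
structure Fac (h : LieSubalgebra ℝ L) (G : Set (L ≃ₗ⁅ℝ⁆ L)) (S T Pp D : L →ₗ[ℝ] L)
    (c τ lam eps K : ℝ) : Prop where
  comp : CompactSemisimple L
  symS : QSym S
  symT : QSym T
  symP : QSym Pp
  symD : QSym D
  ST : ∀ x, S (T x) = x
  TS : ∀ x, T (S x) = x
  c1 : 1 ≤ c
  t0 : 0 ≤ τ
  e0 : 0 ≤ eps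
  K1 : 1 ≤ K
  loS : ∀ x, 1 / c * Qf L x x ≤ Qf L (S x) x
  hiS : ∀ x, Qf L (S x) x ≤ c * Qf L x x
  loT : ∀ x, 0 ≤ Qf L (T x) x
  hiT : ∀ x, Qf L (T x) x ≤ c * Qf L x x
  bdD : ∀ x, |Qf L (D x) x| ≤ c * Qf L x x
  pp2 : ∀ x, Pp (Pp x) = Pp x
  Spp : ∀ x, S (Pp x) = Pp (S x)
  Dpp : ∀ x, D (Pp x) = D x
  SD : ∀ x, S (D x) = D (S x)
  hpp : ∀ y ∈ h, Pp y = 0
  et : ∀ (n : ℕ) (b : Fin n → L), (∀ i, b i ∈ h) → (∀ y, ∑ i, Qf L (b i) y ^ 2 ≤ Qf L y y) →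
    ∀ x, ∑ i, Qf L ⁅b i, x⁆ ⁅b i, x⁆ ≤ τ ^ 2 * Qf L x x ∧
      ∑ i, Qf L ⁅S (b i), x⁆ ⁅S (b i), x⁆ ≤ τ ^ 2 * Qf L x x ∧
      ∑ i, Qf L ⁅T (b i), x⁆ ⁅T (b i), x⁆ ≤ τ ^ 2 * Qf L x x
  uts : ∀ x, TH2 T S x x = Qf L x x - Qf L (D x) x
  la : 0 < lam
  lac : lam ≤ c
  la' : 1 / lam ≤ c
  base : ∀ x, |1 / 2 * Qf L (S (D (S x))) x + 1 / 4 * TH2 S S x x - lam * Qf L (S x) x| ≤
    eps * Qf L x x
  inv : ∀ γ ∈ G, ∀ x, S (γ x) = γ (S x)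
  offP : ∀ v, (∀ γ, FixS h S γ → γ v = v) → Pp v = 0
  off : ∀ v, (∀ γ, FixS h S γ → γ v = v) → ∀ u, Qf L v (S (D u)) = 0
  cp : ∀ β : L →ₗ[ℝ] L, ClsG h G S β → ∀ x, β (Pp x) = Pp (β x)
  z : ∀ β : L →ₗ[ℝ] L, ClsG h G S β → ∀ x,
    TH2 T β x x - TH2 (T ∘ₗ β ∘ₗ T) S x x =
      TH2 T β (Pp x) (Pp x) - TH2 (T ∘ₗ β ∘ₗ T) S (Pp x) (Pp x)
  gap : ∀ β : L →ₗ[ℝ] L, ClsG h G S β → ∀ s : ℝ,
    (∀ z, |ellQG S T D lam β z| ≤ s * Qf L z z) → ∀ z, |Qf L (β z) z| ≤ K * s * Qf L z z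

/-- The base metric on a factor, without the bound for the Casimir operator of `h`. -/
structure FacW (h : LieSubalgebra ℝ L) (G : Set (L ≃ₗ⁅ℝ⁆ L)) (S T Pp D : L →ₗ[ℝ] L)
    (c lam eps K : ℝ) : Prop where
  comp : CompactSemisimple L
  symS : QSym S
  symT : QSym T
  symP : QSym Pp
  symD : QSym D
  ST : ∀ x, S (T x) = x
  TS : ∀ x, T (S x) = x
  c1 : 1 ≤ c
  e0 : 0 ≤ eps
  K1 : 1 ≤ K
  loS : ∀ x, 1 / c * Qf L x x ≤ Qf L (S x) x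
  hiS : ∀ x, Qf L (S x) x ≤ c * Qf L x x
  loT : ∀ x, 0 ≤ Qf L (T x) x
  hiT : ∀ x, Qf L (T x) x ≤ c * Qf L x x
  bdD : ∀ x, |Qf L (D x) x| ≤ c * Qf L x x
  pp2 : ∀ x, Pp (Pp x) = Pp x
  Spp : ∀ x, S (Pp x) = Pp (S x)
  Dpp : ∀ x, D (Pp x) = D x
  SD : ∀ x, S (D x) = D (S x)
  hpp : ∀ y ∈ h, Pp y = 0
  uts : ∀ x, TH2 T S x x = Qf L x x - Qf L (D x) x
  la : 0 < lam
  lac : lam ≤ c
  la' : 1 / lam ≤ c
  base : ∀ x, |1 / 2 * Qf L (S (D (S x))) x + 1 / 4 * TH2 S S x x - lam * Qf L (S x) x| ≤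
    eps * Qf L x x
  inv : ∀ γ ∈ G, ∀ x, S (γ x) = γ (S x)
  offP : ∀ v, (∀ γ, FixS h S γ → γ v = v) → Pp v = 0
  off : ∀ v, (∀ γ, FixS h S γ → γ v = v) → ∀ u, Qf L v (S (D u)) = 0
  cp : ∀ β : L →ₗ[ℝ] L, ClsG h G S β → ∀ x, β (Pp x) = Pp (β x)
  z : ∀ β : L →ₗ[ℝ] L, ClsG h G S β → ∀ x,
    TH2 T β x x - TH2 (T ∘ₗ β ∘ₗ T) S x x =
      TH2 T β (Pp x) (Pp x) - TH2 (T ∘ₗ β ∘ₗ T) S (Pp x) (Pp x)
  gap : ∀ β : L →ₗ[ℝ] L, ClsG h G S β → ∀ s : ℝ,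
    (∀ z, |ellQG S T D lam β z| ≤ s * Qf L z z) → ∀ z, |Qf L (β z) z| ≤ K * s * Qf L z z

theorem Fac.toW {h : LieSubalgebra ℝ L} {G : Set (L ≃ₗ⁅ℝ⁆ L)} {S T Pp D : L →ₗ[ℝ] L}
    {c τ lam eps K : ℝ} (hF : Fac h G S T Pp D c τ lam eps K) : FacW h G S T Pp D c lam eps K where
  comp := hF.comp
  symS := hF.symS
  symT := hF.symT
  symP := hF.symP
  symD := hF.symD
  ST := hF.ST
  TS := hF.TS
  c1 := hF.c1
  e0 := hF.e0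
  K1 := hF.K1
  loS := hF.loS
  hiS := hF.hiS
  loT := hF.loT
  hiT := hF.hiT
  bdD := hF.bdD
  pp2 := hF.pp2
  Spp := hF.Spp
  Dpp := hF.Dpp
  SD := hF.SD
  hpp := hF.hpp
  uts := hF.uts
  la := hF.la
  lac := hF.lac
  la' := hF.la'
  base := hF.base
  inv := hF.inv
  offP := hF.offP
  off := hF.off
  cp := hF.cp
  z := hF.z
  gap := hF.gap

/-- There is a base metric with Einstein constant `1`. -/
def GoodAt (h : LieSubalgebra ℝ L) (G : Set (L ≃ₗ⁅ℝ⁆ L)) (c τ eps K : ℝ) : Prop :=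
  ∃ S T Pp D : L →ₗ[ℝ] L, Fac h G S T Pp D c τ 1 eps K

end

end Pool.Agent.EinV
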