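import Pool.Agent.EinV.GoodI

/-!
# Good base metrics: irreducible groups, trivial isotropy

`good_irr`: `S = 4`, `T = 1/4`, `D = Pp = 0` (normal metric, Einstein constant `1`; `fac_scale` from `lam = 1/4`, `S = T = 1`); the gap by `gap_irr`: for `β ∈ ClsG` the contraction
`X = rh univ β` is symmetric, commutes with the `f k` and with `lmul g` for all `AdU g γ`, `γ ∈ G` (see the proof of `einstein_irrR`, `Irr.lean`); the eigenspace of `X`, transported by `co`,
is an `A`-subspace (see `irr_cl`, `FinIrr.lean`), so `X` is scalar.  `et`: `et_nor`, `fam_small`, `small_cl`.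
-/

namespace Pool.Agent.EinV

open Matrix Pool.Agent.EStab Pool.Agent.EinS Pool.Agent.SmIso Pool.Agent.EinU Pool.Agent.EinG

attribute [local instance 100] LieRing.ofAssociativeRing

private theorem GoodIrr_cpt {L : Type} [LieRing L] [LieAlgebra ℝ L] {I : Type} [Fintype I]
    [DecidableEq I] {m : ℕ} (R : Rp L I m) :
    CompactSemisimple L := by
  intro x hx
  have hn := R.n0
  have h1 := R.Qf_mn x
  have h2 : 0 < mn (R.ph x) ^ 2 := by
    rcases (sq_nonneg (mn (R.ph x))).lt_or_eq with h | h
    · exact h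
    · exfalso
      apply hx
      apply R.inj
      rw [mn_sq] at h
      have h3 := (Finset.sum_eq_zero_iff_of_nonneg (fun a _ =>
        Finset.sum_nonneg fun b _ => sq_nonneg (R.ph x a b))).1 h.symm
      ext a b
      have h4 := (Finset.sum_eq_zero_iff_of_nonneg (fun b _ => sq_nonneg (R.ph x a b))).1
        (h3 a (Finset.mem_univ a)) b (Finset.mem_univ b)
      exact pow_eq_zero_iff two_ne_zero |>.1 h4
  rw [Qf_apply] at h1
  have h3 : 0 < R.n * mn (R.ph x) ^ 2 := mul_pos hn h2
  linarith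

section

variable {L : Type} [LieRing L] [LieAlgebra ℝ L] {I : Type} [Fintype I] [DecidableEq I] {m : ℕ}
  (R : Rp L I m)

/-- The contraction commutes with symmetries. -/
private theorem GoodIrr_comm {β : L →ₗ[ℝ] L} (hβ : QSym β) {F : L → L} {g : Matrix I I ℝ}
    (hg : g * gᵀ = 1) (hph : ∀ x, R.ph (F x) = g * R.ph x * gᵀ)
    (he : ∀ a b, ∑ a', ∑ b', (g a' a * g b' b) • R.e a' b' = F (R.e a b))
    (hF : ∀ x, β (F x) = F (β x)) :
    g * R.rh Finset.univ β = R.rh Finset.univ β * g := by
  have hg' : gᵀ * g = 1 := mul_eq_one_comm.1 hg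
  have o1 : ∀ p q, ∑ b, g p b * g q b = (1 : Matrix I I ℝ) p q := by
    intro p q
    have := congrFun (congrFun hg p) q
    rw [Matrix.mul_apply] at this
    simpa [Matrix.transpose_apply] using this
  have o2 : ∀ p q, ∑ b, g b p * g b q = (1 : Matrix I I ℝ) p q := by
    intro p q
    have := congrFun (congrFun hg' p) q
    rw [Matrix.mul_apply] at this
    simpa [Matrix.transpose_apply] using this
  have key : ∀ a b c' d', ∑ a', ∑ b', (g a' a * g b' b) * R.tn β a' b' c' d' =
      ∑ c, ∑ d, g c' c * g d' d * R.tn β a b c d := by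
    intro a b c' d'
    have h1 : R.ph (β (F (R.e a b))) c' d' = ∑ a', ∑ b', (g a' a * g b' b) * R.tn β a' b' c' d' := by
      rw [← he]
      simp only [map_sum, map_smul, Matrix.sum_apply, Matrix.smul_apply, smul_eq_mul]
      rfl
    rw [← h1, hF, hph, Matrix.mul_apply]
    simp only [Matrix.mul_apply, Matrix.transpose_apply, Finset.sum_mul]
    rw [Finset.sum_comm]
    refine Finset.sum_congr rfl fun c _ => Finset.sum_congr rfl fun d _ => ?_
    show g c' c * R.tn β a b c d * g d' d = _
    ring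
  ext c' a
  rw [Matrix.mul_apply, Matrix.mul_apply]
  have s1 : ∀ c, R.rh Finset.univ β c a = 1 / R.n * ∑ b, R.tn β a b c b := by
    intro c
    have := R.rh_symm hβ Finset.univ
    rw [this.apply a c]
    rfl
  have s2 : ∀ a', R.rh Finset.univ β c' a' = 1 / R.n * ∑ b, R.tn β a' b c' b := by
    intro a'
    have := R.rh_symm hβ Finset.univ
    rw [this.apply a' c']
    rfl
  simp only [s1, s2]
  have t1 : ∑ b, ∑ d', g d' b * ∑ a', ∑ b', (g a' a * g b' b) * R.tn β a' b' c' d' =
      ∑ a', g a' a * ∑ b', R.tn β a' b' c' b' := by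
    calc ∑ b, ∑ d', g d' b * ∑ a', ∑ b', (g a' a * g b' b) * R.tn β a' b' c' d'
        = ∑ b, ∑ d', ∑ a', ∑ b', g a' a * (g d' b * g b' b) * R.tn β a' b' c' d' := by
          refine Finset.sum_congr rfl fun b _ => Finset.sum_congr rfl fun d' _ => ?_
          rw [Finset.mul_sum]
          refine Finset.sum_congr rfl fun a' _ => ?_
          rw [Finset.mul_sum]
          refine Finset.sum_congr rfl fun b' _ => ?_
          ring
      _ = ∑ d', ∑ a', ∑ b', ∑ b, g a' a * (g d' b * g b' b) * R.tn β a' b' c' d' := by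
          rw [Finset.sum_comm]
          refine Finset.sum_congr rfl fun d' _ => ?_
          rw [Finset.sum_comm]
          refine Finset.sum_congr rfl fun a' _ => ?_
          rw [Finset.sum_comm]
      _ = ∑ d', ∑ a', ∑ b', g a' a * (1 : Matrix I I ℝ) d' b' * R.tn β a' b' c' d' := by
          refine Finset.sum_congr rfl fun d' _ => Finset.sum_congr rfl fun a' _ =>
            Finset.sum_congr rfl fun b' _ => ?_
          rw [← Finset.sum_mul, ← Finset.mul_sum, o1]
      _ = ∑ d', ∑ a', g a' a * R.tn β a' d' c' d' := by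
          refine Finset.sum_congr rfl fun d' _ => Finset.sum_congr rfl fun a' _ => ?_
          rw [Finset.sum_eq_single d']
          · rw [Matrix.one_apply_eq, mul_one]
          · intro b' _ hb'
            rw [Matrix.one_apply_ne (Ne.symm hb')]
            ring
          · intro h; exact absurd (Finset.mem_univ _) h
      _ = ∑ a', g a' a * ∑ b', R.tn β a' b' c' b' := by
          rw [Finset.sum_comm]
          refine Finset.sum_congr rfl fun a' _ => ?_
          rw [Finset.mul_sum]
  have t2 : ∑ b, ∑ d', g d' b * ∑ c, ∑ d, g c' c * g d' d * R.tn β a b c d =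
      ∑ c, g c' c * ∑ b, R.tn β a b c b := by
    calc ∑ b, ∑ d', g d' b * ∑ c, ∑ d, g c' c * g d' d * R.tn β a b c d
        = ∑ b, ∑ d', ∑ c, ∑ d, g c' c * (g d' b * g d' d) * R.tn β a b c d := by
          refine Finset.sum_congr rfl fun b _ => Finset.sum_congr rfl fun d' _ => ?_
          rw [Finset.mul_sum]
          refine Finset.sum_congr rfl fun c _ => ?_
          rw [Finset.mul_sum]
          refine Finset.sum_congr rfl fun d _ => ?_
          ring
      _ = ∑ b, ∑ c, ∑ d, ∑ d', g c' c * (g d' b * g d' d) * R.tn β a b c d := by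
          refine Finset.sum_congr rfl fun b _ => ?_
          rw [Finset.sum_comm]
          refine Finset.sum_congr rfl fun c _ => ?_
          rw [Finset.sum_comm]
      _ = ∑ b, ∑ c, ∑ d, g c' c * (1 : Matrix I I ℝ) b d * R.tn β a b c d := by
          refine Finset.sum_congr rfl fun b _ => Finset.sum_congr rfl fun c _ =>
            Finset.sum_congr rfl fun d _ => ?_
          rw [← Finset.sum_mul, ← Finset.mul_sum, o2]
      _ = ∑ b, ∑ c, g c' c * R.tn β a b c b := by
          refine Finset.sum_congr rfl fun b _ => Finset.sum_congr rfl fun c _ => ?_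
          rw [Finset.sum_eq_single b]
          · rw [Matrix.one_apply_eq, mul_one]
          · intro d _ hd
            rw [Matrix.one_apply_ne (Ne.symm hd)]
            ring
          · intro h; exact absurd (Finset.mem_univ _) h
      _ = ∑ c, g c' c * ∑ b, R.tn β a b c b := by
          rw [Finset.sum_comm]
          refine Finset.sum_congr rfl fun c _ => ?_
          rw [Finset.mul_sum]
  have t3 : ∑ a', g a' a * ∑ b', R.tn β a' b' c' b' = ∑ c, g c' c * ∑ b, R.tn β a b c b := by
    rw [← t1, ← t2]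
    refine Finset.sum_congr rfl fun b _ => Finset.sum_congr rfl fun d' _ => ?_
    rw [key]
  calc ∑ c, g c' c * (1 / R.n * ∑ b, R.tn β a b c b)
      = 1 / R.n * ∑ c, g c' c * ∑ b, R.tn β a b c b := by
        rw [Finset.mul_sum]
        refine Finset.sum_congr rfl fun c _ => ?_
        ring
    _ = 1 / R.n * ∑ a', g a' a * ∑ b', R.tn β a' b' c' b' := by rw [t3]
    _ = ∑ a', 1 / R.n * (∑ b, R.tn β a' b c' b) * g a' a := by
        rw [Finset.mul_sum]
        refine Finset.sum_congr rfl fun a' _ => ?_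
        ring

private theorem GoodIrr_e {δ' : L ≃ₗ⁅ℝ⁆ L} {g : Matrix I I ℝ} (hg : g * gᵀ = 1)
    (hph : ∀ x, R.ph (δ' x) = g * R.ph x * gᵀ) (a b : I) :
    ∑ a', ∑ b', (g a' a * g b' b) • R.e a' b' = δ' (R.e a b) := by
  have hg' : gᵀ * g = 1 := mul_eq_one_comm.1 hg
  have ext : ∀ x y : L, (∀ z, Qf L x z = Qf L y z) → x = y := by
    intro x y h
    refine sub_eq_zero.1 (Qf_eq_zero (GoodIrr_cpt R) ?_)
    have h1 : Qf L (x - y) (x - y) = Qf L x (x - y) - Qf L y (x - y) := by
      rw [map_sub (Qf L) x y, LinearMap.sub_apply]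
    rw [h1, h, sub_self]
  refine ext _ _ fun z => ?_
  obtain ⟨y, rfl⟩ : ∃ y, δ' y = z := δ'.surjective z
  have h0 : Qf L (δ' (R.e a b)) (δ' y) = R.n * R.ph y a b := by
    rw [Qf_equiv, R.he]
  rw [h0]
  have h1 : Qf L (∑ a', ∑ b', (g a' a * g b' b) • R.e a' b') (δ' y) =
      R.n * ∑ a', ∑ b', g a' a * (R.ph (δ' y) a' b' * g b' b) := by
    simp only [map_sum, map_smul, LinearMap.sum_apply, LinearMap.smul_apply, smul_eq_mul, R.he]
    rw [Finset.mul_sum]
    refine Finset.sum_congr rfl fun a' _ => ?_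
    rw [Finset.mul_sum]
    refine Finset.sum_congr rfl fun b' _ => ?_
    ring
  have h2 : ∑ a', ∑ b', g a' a * (R.ph (δ' y) a' b' * g b' b) =
      (gᵀ * (R.ph (δ' y) * g)) a b := by
    rw [Matrix.mul_apply]
    refine Finset.sum_congr rfl fun a' _ => ?_
    rw [Matrix.transpose_apply, Matrix.mul_apply, Finset.mul_sum]
  rw [h1, h2, hph]
  have h3 : gᵀ * (g * R.ph y * gᵀ * g) = R.ph y := by
    calc gᵀ * (g * R.ph y * gᵀ * g) = (gᵀ * g) * R.ph y * (gᵀ * g) := by
          simp only [Matrix.mul_assoc]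
      _ = R.ph y := by rw [hg', Matrix.one_mul, Matrix.mul_one]
  rw [h3]

end

section

variable {A : Type} [Ring A] [StarRing A] [Algebra ℝ A] [Cen A] [Coef A] [CoefU A]
  {ι : Type} [Fintype ι] [DecidableEq ι]

omit [CoefU A] in
private theorem GoodIrr_rmul_add (u v : A) : rmul ι (u + v) = rmul ι u + rmul ι v := by
  ext a b
  simp only [rmul, Matrix.of_apply, Matrix.add_apply]
  split_ifs
  · rw [mul_add, add_mul]
    exact map_add _ _ _
  · rw [add_zero]

omit [CoefU A] in
private theorem GoodIrr_rmul_smul (r : ℝ) (u : A) : rmul ι (r • u) = r • rmul ι u := by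
  ext a b
  simp only [rmul, Matrix.of_apply, Matrix.smul_apply]
  split_ifs
  · rw [mul_smul_comm, smul_mul_assoc]
    exact map_smul _ _ _
  · rw [smul_zero]

omit [CoefU A] in
private theorem GoodIrr_zero {z : A} (h : ∀ y : A, rl (z * star y) = 0) : z = 0 := by
  by_contra hz
  have := Coef.pos z hz
  have h1 : Coef.re (z * star z) = 0 := h z
  linarith

private theorem GoodIrr_span (u : A) :
    u = rl u • (1 : A) + ∑ k : Fin (CoefU.mu A), (-rl (u * CoefU.bs k)) • CoefU.bs k := by
  rw [← sub_eq_zero]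
  refine GoodIrr_zero fun y => ?_
  have h1 : ∀ k : Fin (CoefU.mu A), rl (CoefU.bs k * star y) = -rl (y * CoefU.bs k) := by
    intro k
    have e : Coef.re (CoefU.bs k * star y) = Coef.re (star (CoefU.bs k * star y)) :=
      (Coef.re_star _).symm
    have e2 : star (CoefU.bs k * star y) = -(y * CoefU.bs k) := by
      rw [star_mul, star_star, CoefU.bs_skew, mul_neg]
    change Coef.re (CoefU.bs k * star y) = -Coef.re (y * CoefU.bs k)
    rw [e, e2, map_neg]
  have h2 : rl ((1 : A) * star y) = rl y := by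
    change Coef.re ((1 : A) * star y) = Coef.re y
    rw [one_mul, Coef.re_star]
  have h3 := CoefU.par u y
  change rl (u * star y) = rl u * rl y + ∑ k, rl (u * CoefU.bs k) * rl (y * CoefU.bs k) at h3
  have h4 : rl ((rl u • (1 : A) + ∑ k : Fin (CoefU.mu A), (-rl (u * CoefU.bs k)) • CoefU.bs k) *
      star y) = rl u * rl ((1 : A) * star y) +
        ∑ k : Fin (CoefU.mu A), (-rl (u * CoefU.bs k)) * rl (CoefU.bs k * star y) := by
    rw [add_mul, Finset.sum_mul, smul_mul_assoc]
    simp only [smul_mul_assoc]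
    change Coef.re _ = _
    rw [map_add, map_smul, map_sum]
    simp only [map_smul, smul_eq_mul]
  have h5 : rl ((u - (rl u • (1 : A) + ∑ k : Fin (CoefU.mu A),
      (-rl (u * CoefU.bs k)) • CoefU.bs k)) * star y) = rl (u * star y) -
        rl ((rl u • (1 : A) + ∑ k : Fin (CoefU.mu A), (-rl (u * CoefU.bs k)) • CoefU.bs k) *
      star y) := by
    rw [sub_mul]
    exact map_sub _ _ _
  rw [h5, h4, h3, h2]
  simp only [h1]
  rw [sub_eq_zero, add_right_inj]
  refine Finset.sum_congr rfl fun k _ => ?_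
  ring

private theorem GoodIrr_comm2 {X : Matrix (ι × Fin (Coef.m A)) (ι × Fin (Coef.m A)) ℝ}
    (h : ∀ k, rmul ι (CoefU.bs k : A) * X = X * rmul ι (CoefU.bs k : A)) (u : A) :
    rmul ι u * X = X * rmul ι u := by
  have hs : ∀ (s : Finset (Fin (CoefU.mu A))) (c : Fin (CoefU.mu A) → ℝ),
      rmul ι (∑ k ∈ s, c k • (CoefU.bs k : A)) * X = X * rmul ι (∑ k ∈ s, c k • (CoefU.bs k : A)) := by
    intro s c
    classical
    induction s using Finset.induction_on with
    | empty =>
      have h0 : rmul ι (0 : A) = 0 := by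
        have := GoodIrr_rmul_smul (ι := ι) 0 (0 : A)
        rwa [zero_smul, zero_smul] at this
      rw [Finset.sum_empty, h0, Matrix.zero_mul, Matrix.mul_zero]
    | insert a s ha ih =>
      rw [Finset.sum_insert ha, GoodIrr_rmul_add, GoodIrr_rmul_smul, Matrix.add_mul, Matrix.mul_add, ih,
        Matrix.smul_mul, Matrix.mul_smul, h]
  rw [GoodIrr_span u, GoodIrr_rmul_add, GoodIrr_rmul_smul, rmul_one, Matrix.add_mul, Matrix.mul_add,
    hs, Matrix.smul_mul, Matrix.mul_smul, Matrix.one_mul, Matrix.mul_one]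

end

variable (A : Type) [Ring A] [StarRing A] [Algebra ℝ A] [Cen A] [Coef A] [CoefU A]

theorem good_irr : ∃ c K : ℝ, 1 ≤ c ∧ 1 ≤ K ∧ ∀ τ eps : ℝ, 0 < τ → 0 < eps →
    ∃ δ : ℝ, 0 < δ ∧ ∀ (ι : Type) [Fintype ι] [DecidableEq ι], 3 ≤ Fintype.card ι →
    1 / δ ≤ Fintype.card ι → ∀ (h : LieSubalgebra ℝ (cl A ι)),
      (Module.finrank ℝ h : ℝ) ≤ δ * (Fintype.card ι : ℝ) ^ 2 →
      ∀ G : Set (cl A ι ≃ₗ⁅ℝ⁆ cl A ι), (∀ γ ∈ G, ∃ g : Matrix ι ι A, AdU g γ) →
      (∀ W : Submodule ℝ (ι → A), (∀ v ∈ W, ∀ u : A, (fun i => v i * u) ∈ W) →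
        (∀ (γ : cl A ι ≃ₗ⁅ℝ⁆ cl A ι) (g : Matrix ι ι A), γ ∈ G → AdU g γ →
          ∀ v ∈ W, g *ᵥ v ∈ W) → W = ⊥ ∨ W = ⊤) →
      GoodAt h G c τ eps K := by
  obtain ⟨K0, hK1, δ0, hδ0, hgap⟩ := gap_irr (CoefU.mu A)
  refine ⟨4 ^ 2, 4 * K0, by norm_num, by linarith, ?_⟩
  intro τ eps hτ heps
  obtain ⟨d, hd⟩ : ∃ d : ℝ, d = (τ / 4) ^ 2 / 4 := ⟨_, rfl⟩
  have hd0 : 0 < d := by rw [hd]; positivity
  have hδp : 0 < min δ0 (d ^ 2 / 9) := lt_min hδ0 (by positivity)
  refine ⟨min δ0 (d ^ 2 / 9), hδp, ?_⟩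
  intro ι _ _ hcN hNδ h hdim G hG hirr
  obtain ⟨R, hph, hf, hJ, hn⟩ := exists_rp (A := A) (ι := ι) hcN
  have hm1 : 1 ≤ Coef.m A := Coef.m_pos
  have hcard : Fintype.card (ι × Fin (Coef.m A)) = Fintype.card ι * Coef.m A := by
    rw [Fintype.card_prod, Fintype.card_fin]
  have hNc : Fintype.card ι ≤ Fintype.card (ι × Fin (Coef.m A)) := by
    rw [hcard]
    exact Nat.le_mul_of_pos_right _ hm1
  have hNcR : (Fintype.card ι : ℝ) ≤ Fintype.card (ι × Fin (Coef.m A)) := by exact_mod_cast hNc
  have hne : Nonempty (ι × Fin (Coef.m A)) := by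
    rw [← Fintype.card_pos_iff]
    omega
  have hM' : 1 / δ0 ≤ (Fintype.card (ι × Fin (Coef.m A)) : ℝ) :=
    ((one_div_le_one_div_of_le hδp (min_le_left _ _)).trans hNδ).trans hNcR
  have hdim' : (Module.finrank ℝ h : ℝ) ≤ d ^ 2 / 9 * (Fintype.card ι : ℝ) ^ 2 :=
    hdim.trans (mul_le_mul_of_nonneg_right (min_le_right _ _) (by positivity))
  have hsm : SmallR R h d := small_cl A hd0 hcN R hn hdim'
  have hcpt := cl_comp (A := A) (ι := ι) hcN
  have hnn : ∀ x : cl A ι, 0 ≤ Qf (cl A ι) x x := Qf_nonneg hcpt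
  have hTH0 : ∀ U V : cl A ι →ₗ[ℝ] cl A ι, TH2 U V (0 : cl A ι) (0 : cl A ι) = 0 := by
    intro U V
    unfold TH2
    simp
  have hTH1 : ∀ x : cl A ι,
      TH2 (LinearMap.id : cl A ι →ₗ[ℝ] cl A ι) LinearMap.id x x = Qf (cl A ι) x x := by
    intro x
    unfold TH2
    rw [Qf_apply, killingForm_apply_apply]
    congr 2
  -- the contraction is scalar
  have hscal : ∀ β : cl A ι →ₗ[ℝ] cl A ι, ClsG h G LinearMap.id β →
      ∃ r : ℝ, R.rh Finset.univ β = r • (1 : Matrix _ _ ℝ) := by
    intro β hβ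
    obtain ⟨hβs, hβG⟩ := hβ
    obtain ⟨X, hXd⟩ : ∃ X, X = R.rh Finset.univ β := ⟨_, rfl⟩
    have hX : Xᵀ = X := by rw [hXd]; exact R.rh_symm hβs Finset.univ
    have hXf : ∀ k, R.f k * X = X * R.f k := by
      intro k
      have hfo : R.f k * (R.f k)ᵀ = 1 := mul_eq_one_comm.1 (R.fo k)
      rw [hXd]
      refine GoodIrr_comm R hβs (F := fun x => x) hfo (fun x => ?_) (fun a b => R.e_f k a b)
        (fun x => rfl)
      rw [R.com, Matrix.mul_assoc, hfo, Matrix.mul_one]
    have hXg : ∀ (γ : cl A ι ≃ₗ⁅ℝ⁆ cl A ι) (g : Matrix ι ι A), γ ∈ G → AdU g γ →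
        lmul g * X = X * lmul g := by
      intro γ g hγ hg
      have h2 : lmul g * (lmul g)ᵀ = 1 := by
        rw [← lmul_conjT, ← lmul_mul, hg.1, lmul_one]
      have h3 : ∀ x, R.ph (γ x) = lmul g * R.ph x * (lmul g)ᵀ := by
        intro x
        rw [hph, hph, hg.2.2, lmul_mul, lmul_mul, lmul_conjT]
      rw [hXd]
      exact GoodIrr_comm R hβs (F := fun x => γ x) h2 h3 (fun a b => GoodIrr_e R h2 h3 a b)
        (hβG γ (Or.inl hγ))
    have hXu : ∀ u : A, rmul ι u * X = X * rmul ι u :=
      GoodIrr_comm2 fun k => by rw [← hf]; exact hXf k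
    have hH : X.IsHermitian := by
      rw [Matrix.IsHermitian, Matrix.conjTranspose_eq_transpose_of_trivial]
      exact hX
    obtain ⟨j⟩ := hne
    set r := hH.eigenvalues j with hr
    set v0 : ι × Fin (Coef.m A) → ℝ := (hH.eigenvectorBasis j).ofLp with hv0
    have hev : X *ᵥ v0 = r • v0 := hH.mulVec_eigenvectorBasis j
    have hv00 : v0 ≠ 0 := by
      intro h0
      have h1 : hH.eigenvectorBasis j = 0 := by
        ext a
        exact congrFun h0 a
      have h2 := hH.eigenvectorBasis.orthonormal.ne_zero j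
      exact h2 h1
    refine ⟨r, ?_⟩
    rw [← hXd]
    set W : Submodule ℝ (ι → A) :=
      (LinearMap.ker (X.mulVecLin - r • LinearMap.id)).comap
        (co : (ι → A) ≃ₗ[ℝ] _).toLinearMap with hW
    have hWm : ∀ v : ι → A, v ∈ W ↔ X *ᵥ co v = r • co v := by
      intro v
      rw [hW, Submodule.mem_comap, LinearMap.mem_ker, LinearMap.sub_apply, LinearMap.smul_apply,
        LinearMap.id_apply, Matrix.mulVecLin_apply, sub_eq_zero]
      rfl
    have hWtop : W = ⊤ := by
      refine (hirr W ?_ ?_).resolve_left ?_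
      · intro v hv u
        rw [hWm] at hv ⊢
        rw [co_rmul, Matrix.mulVec_mulVec, ← hXu, ← Matrix.mulVec_mulVec, hv, Matrix.mulVec_smul]
      · intro γ g hγ hg v hv
        have hc := hXg γ g hγ hg
        rw [hWm] at hv ⊢
        rw [co_lmul, Matrix.mulVec_mulVec, ← hc, ← Matrix.mulVec_mulVec, hv, Matrix.mulVec_smul]
      · intro hbot
        have h1 : co.symm v0 ∈ W := by
          rw [hWm, LinearEquiv.apply_symm_apply]
          exact hev
        rw [hbot, Submodule.mem_bot] at h1
        apply hv00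
        have h2 := congrArg co h1
        rw [LinearEquiv.apply_symm_apply, map_zero] at h2
        exact h2
    have hall : ∀ w : ι × Fin (Coef.m A) → ℝ, X *ᵥ w = r • w := by
      intro w
      have h1 : (co.symm w : ι → A) ∈ W := by
        rw [hWtop]
        exact Submodule.mem_top
      rw [hWm, LinearEquiv.apply_symm_apply] at h1
      exact h1
    ext a b
    have h1 := congrFun (hall (Pi.single b 1)) a
    rw [Matrix.mulVec_single_one] at h1
    rw [Matrix.smul_apply, Matrix.one_apply]
    change X a b = _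
    have h2 : X a b = (r • (Pi.single b 1 : ι × Fin (Coef.m A) → ℝ)) a := h1
    rw [h2, Pi.smul_apply, Pi.single_apply]
  -- the normal metric
  have hF : Fac h G LinearMap.id LinearMap.id 0 0 4 (τ / 4) (1 / 4) (eps / 4 ^ 2) K0 := by
    have het : ∀ (n : ℕ) (b : Fin n → cl A ι), (∀ i, b i ∈ h) →
        (∀ y, ∑ i, Qf (cl A ι) (b i) y ^ 2 ≤ Qf (cl A ι) y y) → ∀ x,
        ∑ i, Qf (cl A ι) ⁅b i, x⁆ ⁅b i, x⁆ ≤ (τ / 4) ^ 2 * Qf (cl A ι) x x := by
      intro n b hb hq x
      refine (et_nor R (fam_small R hsm hb hq) x).trans (le_of_eq ?_)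
      rw [hd]
      ring
    exact {
      comp := hcpt
      symS := fun x y => rfl
      symT := fun x y => rfl
      symP := fun x y => by simp
      symD := fun x y => by simp
      ST := fun x => rfl
      TS := fun x => rfl
      c1 := by norm_num
      t0 := by positivity
      e0 := by positivity
      K1 := hK1
      loS := fun x => by
        have := hnn x
        simp only [LinearMap.id_coe, id_eq]
        linarith
      hiS := fun x => by
        have := hnn x
        simp only [LinearMap.id_coe, id_eq]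
        linarith
      loT := fun x => hnn x
      hiT := fun x => by
        have := hnn x
        simp only [LinearMap.id_coe, id_eq]
        linarith
      bdD := fun x => by
        have := hnn x
        simp only [LinearMap.zero_apply, map_zero, abs_zero]
        linarith
      pp2 := fun x => rfl
      Spp := fun x => by simp
      Dpp := fun x => by simp
      SD := fun x => by simp
      hpp := fun y _ => rfl
      et := fun n b hb hq x => ⟨het n b hb hq x, het n b hb hq x, het n b hb hq x⟩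
      uts := fun x => by
        rw [hTH1]
        simp
      la := by norm_num
      lac := by norm_num
      la' := by norm_num
      base := fun x => by
        have h1 := hnn x
        have h2 : 0 ≤ eps / 4 ^ 2 * Qf (cl A ι) x x := by positivity
        rw [hTH1]
        simpa using h2
      inv := fun γ _ x => rfl
      offP := fun v _ => rfl
      off := fun v _ u => by simp
      cp := fun β _ x => by simp
      z := fun β _ x => by
        simp only [LinearMap.zero_apply, hTH0, sub_zero]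
        rw [LinearMap.id_comp, LinearMap.comp_id, TH2_cyc β LinearMap.id x, sub_self]
      gap := fun β hβ s hs => by
        obtain ⟨r, hr⟩ := hscal β hβ
        exact hgap (cl A ι) (ι × Fin (Coef.m A)) R hM' β s r hβ.1 hr hs }
  have h1 := fac_scale hF
  have e1 : (4 : ℝ) * (τ / 4) = τ := by ring
  have e2 : (4 : ℝ) ^ 2 * (eps / 4 ^ 2) = eps := by ring
  rw [e1, e2] at h1
  exact ⟨_, _, _, _, h1⟩

end Pool.Agent.EinV
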