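import Pool.Agent.EinV.GoodI
import Pool.Agent.EinV.Dbl

/-!
# Good base metrics: subalgebras which preserve a structure

Copy of the proof of `so_u` (`FinSO.lean`), with `good_inv` instead of `einstein_inv` and `small_cl` (for the doubled
representation: `small_dimR`).
-/

namespace Pool.Agent.EinV

open Matrix Pool.Agent.EStab Pool.Agent.EinS Pool.Agent.SmIso Pool.Agent.EinU Pool.Agent.EinG
  Quaternion

attribute [local instance 100] LieRing.ofAssociativeRing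

open scoped Kronecker


/-! ### The doubled matrices as Kronecker products -/

section

variable {I : Type} [Fintype I] [DecidableEq I]

/-- The sign matrix. -/
private def GoodSO_z : Matrix (Fin 2) (Fin 2) ℝ := Matrix.diagonal fun a => if a = 0 then 1 else -1

/-- The matrix with all entries `1`. -/
private def GoodSO_j : Matrix (Fin 2) (Fin 2) ℝ := of fun _ _ => 1

/-- The matrix with diagonal entries `1`, the other entries `-1`. -/
private def GoodSO_k : Matrix (Fin 2) (Fin 2) ℝ := of fun a b => if a = b then 1 else -1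

private theorem GoodSO_dz : dz I = (1 : Matrix I I ℝ) ⊗ₖ GoodSO_z := by
  ext a b
  rw [Matrix.kronecker_apply]
  unfold dz GoodSO_z
  rw [Matrix.diagonal_apply, Matrix.one_apply, Matrix.diagonal_apply]
  by_cases h1 : a.1 = b.1 <;> by_cases h2 : a.2 = b.2
  · rw [if_pos (Prod.ext h1 h2), if_pos h1, if_pos h2, one_mul]
  · rw [if_neg (fun e => h2 (by rw [e])), if_neg h2, mul_zero]
  · rw [if_neg (fun e => h1 (by rw [e])), if_neg h1, zero_mul]
  · rw [if_neg (fun e => h1 (by rw [e])), if_neg h1, zero_mul]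

omit [Fintype I] [DecidableEq I] in
private theorem GoodSO_dJ (s : Matrix I I ℝ) : dJ s = s ⊗ₖ GoodSO_z := by
  ext a b
  rw [Matrix.kronecker_apply]
  unfold dJ GoodSO_z
  rw [Matrix.of_apply, Matrix.diagonal_apply]
  split_ifs <;> ring

private theorem GoodSO_tr : trace (dz I) = 0 := by
  rw [GoodSO_dz, Matrix.trace_kronecker]
  have : trace GoodSO_z = 0 := by
    unfold GoodSO_z
    rw [Matrix.trace_diagonal, Fin.sum_univ_two]
    simp
  rw [this, mul_zero]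

private theorem GoodSO_zj : GoodSO_z * (GoodSO_j + GoodSO_k) = (GoodSO_j + GoodSO_k) * GoodSO_z := by
  ext i j
  fin_cases i <;> fin_cases j <;>
    simp [GoodSO_z, GoodSO_j, GoodSO_k, Matrix.mul_apply, Matrix.diagonal_apply]

omit [Fintype I] [DecidableEq I] in
private theorem GoodSO_ph {X Y : Matrix I I ℝ} {P : Matrix (I × Fin 2) (I × Fin 2) ℝ}
    (h : ∀ a b, P a b = 1 / 2 * (X a.1 b.1 + (if a.2 = b.2 then 1 else -1) * Y a.1 b.1)) :
    P = (1 / 2 : ℝ) • (X ⊗ₖ GoodSO_j + Y ⊗ₖ GoodSO_k) := by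
  ext a b
  rw [h, Matrix.smul_apply, Matrix.add_apply, Matrix.kronecker_apply, Matrix.kronecker_apply]
  unfold GoodSO_j GoodSO_k
  rw [Matrix.of_apply, Matrix.of_apply, smul_eq_mul]
  ring

end

private theorem GoodSO_conjT {ι : Type} [Fintype ι] [DecidableEq ι] {s : Matrix ι ι ℝ} (h1 : s * sᴴ = 1)
    (h2 : s * s = -1) : sᴴ = -s := by
  have h3 : sᴴ * s = 1 := mul_eq_one_comm.1 h1
  calc sᴴ = sᴴ * (-(s * s)) := by rw [h2, neg_neg, Matrix.mul_one]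
    _ = -(sᴴ * s * s) := by rw [Matrix.mul_neg, Matrix.mul_assoc]
    _ = -s := by rw [h3, Matrix.one_mul]

private theorem GoodSO_core (δ c0 τ eps K : ℝ)
    (hE : ∀ (L : Type) [LieRing L] [LieAlgebra ℝ L] [Module.Finite ℝ L] (I : Type) [Fintype I]
      [DecidableEq I] (R : Rp L I (4 * CoefU.mu ℝ + 3)) (s : Matrix I I ℝ) (c : L)
      (J0 : Matrix I I ℝ) (g1 g2 : ℝ),
      InvD R s c J0 g1 g2 → 1 / δ ≤ Fintype.card I →
      |trace s| ≤ (1 - 2 * (1 / 2)) * Fintype.card I →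
      (((∀ k, s * R.f k = R.f k * s) ∧ s * R.J = R.J * s) ∨ trace s = 0) →
      ∀ h : LieSubalgebra ℝ L, (∀ y ∈ h, s * R.ph y = R.ph y * s) → SmallR R h δ →
        ∀ G : Set (L ≃ₗ⁅ℝ⁆ L), (∀ γ ∈ G, ByMat R s J0 γ) → GoodAt h G c0 τ eps K)
    {ι : Type} [Fintype ι] [DecidableEq ι] {N : ℕ} (hNι : Fintype.card ι = N) (hN : 4 ≤ N)
    (hNδ : 1 / δ ≤ (N : ℝ))
    (h : LieSubalgebra ℝ (cl ℝ ι)) (s : Matrix ι ι ℝ)
    (hs1 : s * sᴴ = 1) (hs2 : s * s = -1) (hsh : ∀ x ∈ h, s * x.1 = x.1 * s)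
    (hd : √((Module.finrank ℝ h : ℝ) / 2) / (((N : ℝ) - 2) / 2) ≤ δ)
    (Γ : Set (cl ℝ ι ≃ₗ⁅ℝ⁆ cl ℝ ι))
    (hΓ : ∀ γ ∈ Γ, ∃ g : Matrix ι ι ℝ, AdU g γ ∧ g * s = s * g) :
    GoodAt h Γ c0 τ eps K := by
  have hN4 : (4 : ℝ) ≤ N := by exact_mod_cast hN
  obtain ⟨R, hph, -, hJ, hn⟩ := exists_rp (A := ℝ) (ι := ι)
    (by omega)
  have hsT : sᴴ = -s := GoodSO_conjT hs1 hs2
  have hs1' : sᴴ * s = 1 := mul_eq_one_comm.1 hs1
  -- constants
  have hRn : R.n = (N : ℝ) - 2 := by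
    rw [hn, hNι]
    change (N : ℝ) - 2 * (1 : ℝ) / (((0 : ℕ) : ℝ) + 1) = _
    norm_num
  have hRn0 : 0 < R.n := by rw [hRn]; linarith
  have hRJ : R.J = 0 := by
    rw [hJ]
    ext a b
    change (if a.1 = b.1 then rl (Coef.b b.2 * (0 : ℝ) * star (Coef.b a.2)) else 0) = 0
    rw [mul_zero, zero_mul, rl, map_zero, ite_self]
  -- the matrix `S = lmul s`
  obtain ⟨S, hS⟩ : ∃ S, S = lmul s := ⟨_, rfl⟩
  have hST : Sᵀ = -S := by
    rw [hS, ← lmul_conjT, hsT, map_neg]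
  have hSS : S * S = -1 := by
    rw [hS, ← lmul_mul, hs2, map_neg, lmul_one]
  -- the involution
  obtain ⟨σ, hσd⟩ : ∃ σ : cl ℝ ι ≃ₗ⁅ℝ⁆ cl ℝ ι, σ = clConj s hs1 hs1' := ⟨_, rfl⟩
  have hσ1 : ∀ x, (σ x).1 = s * x.1 * sᴴ := fun x => by rw [hσd]; rfl
  have hσσ : ∀ x, σ (σ x) = x := by
    intro x
    apply Subtype.ext
    rw [hσ1, hσ1, hsT]
    calc s * (s * x.1 * -s) * -s = (s * s) * x.1 * (s * s) := by
          simp only [Matrix.mul_neg, Matrix.neg_mul, neg_neg, Matrix.mul_assoc]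
      _ = x.1 := by
          rw [hs2, Matrix.neg_mul, Matrix.one_mul, Matrix.mul_neg, Matrix.mul_one, neg_neg]
  have hsσ : ∀ x, S * R.ph x = R.ph (σ x) * S := by
    intro x
    rw [hph, hph, hS, ← lmul_mul, ← lmul_mul, hσ1, Matrix.mul_assoc _ sᴴ s, hs1', Matrix.mul_one]
  -- the element `c`
  have hss : sᴴ = -s ∧ Cen.cen (trace s) = 0 := by
    refine ⟨hsT, ?_⟩
    rw [cen_real]
    have h1 : trace sᴴ = trace s := by
      rw [Matrix.trace_conjTranspose, star_trivial]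
    rw [hsT, Matrix.trace_neg] at h1
    linarith
  obtain ⟨s0, hs0⟩ : ∃ s0 : cl ℝ ι, s0.1 = s := ⟨⟨s, hss⟩, rfl⟩
  have hphs0 : R.ph s0 = S := by rw [hph, hs0, hS]
  obtain ⟨M, hM⟩ : ∃ M : ℝ, M = Fintype.card (ι × Fin (Coef.m ℝ)) := ⟨_, rfl⟩
  have hMN : M = N := by
    rw [hM, Fintype.card_prod, hNι, Fintype.card_fin]
    change ((N * 1 : ℕ) : ℝ) = N
    rw [mul_one]
  have hsum : ∑ a, ∑ b, S a b * S a b = M := by
    have h1 : trace (S * Sᵀ) = M := by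
      rw [hST, Matrix.mul_neg, hSS, neg_neg, Matrix.trace_one, hM]
    rw [← h1]
    rfl
  have hM0 : 0 < M := by rw [hMN]; linarith
  have hRM : 0 < R.n * M := mul_pos hRn0 hM0
  obtain ⟨κ, hκ⟩ : ∃ κ : ℝ, κ * κ * (R.n * M) = 1 := by
    refine ⟨1 / √(R.n * M), ?_⟩
    have h2 : √(R.n * M) * √(R.n * M) = R.n * M := Real.mul_self_sqrt hRM.le
    have h3 : √(R.n * M) ≠ 0 := (Real.sqrt_pos.2 hRM).ne'
    field_simp
    rw [sq, h2]
  have hc : R.ph (κ • s0) = κ • S := by rw [map_smul, hphs0]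
  have hcc : Qf (cl ℝ ι) (κ • s0) (κ • s0) = 1 := by
    rw [R.qf, hc]
    simp only [Matrix.smul_apply, smul_eq_mul]
    have h1 : ∑ a, ∑ b, κ * S a b * (κ * S a b) = κ * κ * ∑ a, ∑ b, S a b * S a b := by
      rw [Finset.mul_sum]
      refine Finset.sum_congr rfl fun a _ => ?_
      rw [Finset.mul_sum]
      exact Finset.sum_congr rfl fun b _ => by ring
    rw [h1, hsum]
    linarith
  have hκ0 : κ ≠ 0 := by
    rintro rfl
    simp at hκ
  have hts : ∀ x, Qf (cl ℝ ι) x (κ • s0) = 0 → trace (R.ph x * S) = 0 := by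
    intro x hx
    rw [R.qf, hc] at hx
    have h1 : ∑ a, ∑ b, R.ph x a b * (κ • S) a b = κ * ∑ a, ∑ b, R.ph x a b * S a b := by
      rw [Finset.mul_sum]
      refine Finset.sum_congr rfl fun a _ => ?_
      rw [Finset.mul_sum]
      refine Finset.sum_congr rfl fun b _ => ?_
      rw [Matrix.smul_apply, smul_eq_mul]
      ring
    have h2 : trace (R.ph x * S) = -∑ a, ∑ b, R.ph x a b * S a b := by
      have h3 : trace (R.ph x * Sᵀ) = ∑ a, ∑ b, R.ph x a b * S a b := rfl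
      rw [← h3, hST, Matrix.mul_neg, Matrix.trace_neg, neg_neg]
    rw [h1] at hx
    rcases mul_eq_zero.1 hx with h4 | h4
    · exact absurd h4 hRn0.ne'
    · rcases mul_eq_zero.1 h4 with h5 | h5
      · exact absurd h5 hκ0
      · rw [h2, h5, neg_zero]
  -- the doubled representation
  obtain ⟨R', hn', hph', hI⟩ := exists_dbl R (by rw [hRn]; linarith) hσσ hST hSS hsσ
    (fun k => Fin.elim0 k) (fun k => Fin.elim0 k) (by rw [hRJ, Matrix.mul_zero, Matrix.zero_mul, neg_zero])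
    (fun x => by rw [hRJ, Matrix.mul_zero, Matrix.trace_zero]) (fun x k => Fin.elim0 k) hc
    (Or.inl hcc) hts
  have hphK : ∀ x, R'.ph x = (1 / 2 : ℝ) • (R.ph x ⊗ₖ GoodSO_j + R.ph (σ x) ⊗ₖ GoodSO_k) :=
    fun x => GoodSO_ph (hph' x)
  have hcard : (Fintype.card ((ι × Fin (Coef.m ℝ)) × Fin 2) : ℝ) = 2 * N := by
    rw [Fintype.card_prod, Nat.cast_mul, ← hM, hMN, Fintype.card_fin]
    push_cast
    ring
  have hR'n : R'.n = ((N : ℝ) - 2) / 2 := by rw [hn', hRn]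
  have hsm : SmallR R' h δ := by
    refine (small_dimR R' ?_ h).mono ?_
    · have : (3 : ℝ) ≤ Fintype.card ((ι × Fin (Coef.m ℝ)) × Fin 2) := by
        rw [hcard]; linarith
      exact_mod_cast this
    · rw [hR'n]
      exact hd
  refine hE (cl ℝ ι) ((ι × Fin (Coef.m ℝ)) × Fin 2) R' (dz _) (κ • s0) (dJ S)
    κ (-κ) hI (by rw [hcard]; linarith) (by rw [GoodSO_tr]; simp) (Or.inr GoodSO_tr) h ?_ hsm Γ ?_
  · intro y hy
    have hy1 : σ y = y := by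
      apply Subtype.ext
      rw [hσ1, hsh y hy, Matrix.mul_assoc, hs1, Matrix.mul_one]
    rw [hphK, hy1, ← Matrix.kronecker_add, GoodSO_dz, Matrix.mul_smul, Matrix.smul_mul,
      ← Matrix.mul_kronecker_mul, ← Matrix.mul_kronecker_mul, GoodSO_zj, Matrix.one_mul,
      Matrix.mul_one]
  · intro γ hγ
    obtain ⟨g, ⟨hg1, hg2, hγg⟩, hgs⟩ := hΓ γ hγ
    have hγ1 : ∀ x, (γ x).1 = g * x.1 * gᴴ := hγg
    obtain ⟨G, hG⟩ : ∃ G, G = lmul g := ⟨_, rfl⟩
    have hGG : G * Gᵀ = 1 := by rw [hG, ← lmul_conjT, ← lmul_mul, hg1, lmul_one]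
    have hGS : G * S = S * G := by rw [hG, hS, ← lmul_mul, hgs, lmul_mul]
    have hphγ : ∀ x, R.ph (γ x) = G * R.ph x * Gᵀ := by
      intro x
      rw [hph, hph, hγ1, lmul_mul, lmul_mul, lmul_conjT, hG]
    have hσγ : ∀ x, σ (γ x) = γ (σ x) := by
      intro x
      have hgs' : gᴴ * sᴴ = sᴴ * gᴴ := by
        rw [← Matrix.conjTranspose_mul, ← Matrix.conjTranspose_mul, hgs]
      apply Subtype.ext
      rw [hσ1, hγ1, hγ1, hσ1]
      calc s * (g * x.1 * gᴴ) * sᴴ = (s * g) * x.1 * (gᴴ * sᴴ) := by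
            simp only [Matrix.mul_assoc]
        _ = g * (s * x.1 * sᴴ) * gᴴ := by
            rw [← hgs, hgs']
            simp only [Matrix.mul_assoc]
    refine ⟨G ⊗ₖ (1 : Matrix (Fin 2) (Fin 2) ℝ), ?_, ?_, ?_, ?_⟩
    · rw [← Matrix.kroneckerMap_transpose, ← Matrix.mul_kronecker_mul, hGG, Matrix.transpose_one,
        Matrix.mul_one, Matrix.one_kronecker_one]
    · rw [GoodSO_dz, ← Matrix.mul_kronecker_mul, ← Matrix.mul_kronecker_mul, Matrix.one_mul,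
        Matrix.mul_one, Matrix.one_mul, Matrix.mul_one]
    · rw [GoodSO_dJ, ← Matrix.mul_kronecker_mul, ← Matrix.mul_kronecker_mul, hGS,
        Matrix.one_mul, Matrix.mul_one]
    · intro x
      rw [hphK, hphK, hσγ, hphγ, hphγ, ← Matrix.kroneckerMap_transpose, Matrix.mul_smul,
        Matrix.smul_mul, Matrix.mul_add, Matrix.add_mul, ← Matrix.mul_kronecker_mul,
        ← Matrix.mul_kronecker_mul, ← Matrix.mul_kronecker_mul, ← Matrix.mul_kronecker_mul,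
        Matrix.transpose_one, Matrix.one_mul, Matrix.one_mul, Matrix.mul_one, Matrix.mul_one]

theorem good_SO : ∃ c K : ℝ, 1 ≤ c ∧ 1 ≤ K ∧ ∀ τ eps : ℝ, 0 < τ → 0 < eps →
    ∃ δ : ℝ, 0 < δ ∧ ∀ (ι : Type) [Fintype ι] [DecidableEq ι], 3 ≤ Fintype.card ι →
    1 / δ ≤ Fintype.card ι → ∀ (h : LieSubalgebra ℝ (cl ℝ ι)) (s : Matrix ι ι ℝ),
      s * sᴴ = 1 → s * s = -1 → (∀ x ∈ h, s * x.1 = x.1 * s) →
      (Module.finrank ℝ h : ℝ) ≤ δ * (Fintype.card ι : ℝ) ^ 2 →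
      ∀ G : Set (cl ℝ ι ≃ₗ⁅ℝ⁆ cl ℝ ι), (∀ γ ∈ G, ∃ g : Matrix ι ι ℝ, AdU g γ ∧
        g * s = s * g) → GoodAt h G c τ eps K := by
  obtain ⟨c0, K, hc0, hK, hE⟩ := good_inv (4 * CoefU.mu ℝ + 3) (θ := 1 / 2) (by norm_num)
  refine ⟨c0, K, hc0, hK, fun τ eps hτ heps => ?_⟩
  obtain ⟨δ, hδ, hE⟩ := hE τ eps hτ heps
  obtain ⟨d, hd⟩ : ∃ d : ℝ, d = min δ (1 / 4) := ⟨_, rfl⟩
  have hd0 : 0 < d := by rw [hd]; exact lt_min hδ (by norm_num)
  have hdδ : d ≤ δ := by rw [hd]; exact min_le_left _ _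
  have hd4 : d ≤ 1 / 4 := by rw [hd]; exact min_le_right _ _
  refine ⟨d ^ 2 / 9, by positivity, ?_⟩
  intro ι _ _ hN3 hNd h s hs1 hs2 hsh hdim G hG
  obtain ⟨N, hNι⟩ : ∃ N, Fintype.card ι = N := ⟨_, rfl⟩
  rw [hNι] at hN3 hNd hdim
  have hNd' : 1 / d ≤ N := by
    refine le_trans ?_ hNd
    apply one_div_le_one_div_of_le (by positivity)
    nlinarith
  have hN4 : (4 : ℝ) ≤ N := by
    have h1 : (4 : ℝ) ≤ 1 / d := by
      rw [le_div_iff₀ hd0]
      linarith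
    linarith
  refine GoodSO_core δ c0 τ eps K hE hNι (by exact_mod_cast hN4)
    ((one_div_le_one_div_of_le hd0 hdδ).trans hNd') h s hs1 hs2 hsh ?_ G hG
  have hn : (0 : ℝ) < ((N : ℝ) - 2) / 2 := by linarith
  rw [div_le_iff₀ hn]
  have h1 : Real.sqrt ((Module.finrank ℝ h : ℝ) / 2) ≤ Real.sqrt ((d * N / 4) ^ 2) := by
    apply Real.sqrt_le_sqrt
    nlinarith [sq_nonneg (d * N)]
  rw [Real.sqrt_sq (by positivity)] at h1
  have h2 : d * N / 4 ≤ δ * (((N : ℝ) - 2) / 2) := by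
    have h3 : (N : ℝ) / 4 ≤ ((N : ℝ) - 2) / 2 := by linarith
    calc d * N / 4 = d * (N / 4) := by ring
      _ ≤ δ * (((N : ℝ) - 2) / 2) := mul_le_mul hdδ h3 (by positivity) hδ.le
  exact h1.trans h2

end Pool.Agent.EinV
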