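import Pool.Agent.EinV.GoodI
import Pool.Agent.EinV.Dbl

/-!
# Good base metrics: subalgebras which preserve a structure

Copy of the proof of `su_so_sp` (`FinSU.lean`), with `good_inv` instead of `einstein_inv` and `small_cl` (for the doubled
representation: `small_dimR`).
-/

namespace Pool.Agent.EinV

open Matrix Pool.Agent.EStab Pool.Agent.EinS Pool.Agent.SmIso Pool.Agent.EinU Pool.Agent.EinG
  Quaternion

attribute [local instance 100] LieRing.ofAssociativeRing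


section

variable {ι : Type} [Fintype ι] [DecidableEq ι]

/-- The complex conjugation of the coordinates. -/
private noncomputable def GoodSU_cj (ι : Type) [DecidableEq ι] :
    Matrix (ι × Fin (Coef.m ℂ)) (ι × Fin (Coef.m ℂ)) ℝ :=
  Matrix.diagonal fun a => if a.2.val = 0 then 1 else -1

private theorem GoodSU_cc : GoodSU_cj ι * GoodSU_cj ι = 1 := by
  unfold GoodSU_cj
  rw [Matrix.diagonal_mul_diagonal, ← Matrix.diagonal_one]
  congr 1
  funext a
  split_ifs <;> norm_num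

omit [Fintype ι] in
private theorem GoodSU_cT : (GoodSU_cj ι)ᵀ = GoodSU_cj ι := Matrix.diagonal_transpose _

private theorem GoodSU_key (x : ℂ) (p q : Fin 2) :
    (if p.val = 0 then (1 : ℝ) else -1) * (x * ![1, Complex.I] q * star (![1, Complex.I] p)).re =
      (star x * ![1, Complex.I] q * star (![1, Complex.I] p)).re *
        (if q.val = 0 then 1 else -1) := by
  fin_cases p <;> fin_cases q <;> simp

private theorem GoodSU_cl (X : Matrix ι ι ℂ) :
    GoodSU_cj ι * lmul X = lmul (X.map star) * GoodSU_cj ι := by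
  unfold GoodSU_cj
  ext a b
  rw [Matrix.diagonal_mul, Matrix.mul_diagonal, lmul_apply, lmul_apply]
  exact GoodSU_key _ _ _

private theorem GoodSU_cr (u : ℂ) :
    GoodSU_cj ι * rmul ι u = rmul ι (star u) * GoodSU_cj ι := by
  unfold GoodSU_cj
  ext a b
  rw [Matrix.diagonal_mul, Matrix.mul_diagonal]
  unfold rmul
  rw [Matrix.of_apply, Matrix.of_apply]
  by_cases h : a.1 = b.1
  · rw [if_pos h, if_pos h, mul_comm (Coef.b b.2) u, mul_comm (Coef.b b.2) (star u)]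
    exact GoodSU_key _ _ _
  · rw [if_neg h, if_neg h, mul_zero, zero_mul]

/-- The real matrix of `v ↦ s v̄`. -/
private noncomputable def GoodSU_S (s : Matrix ι ι ℂ) :
    Matrix (ι × Fin (Coef.m ℂ)) (ι × Fin (Coef.m ℂ)) ℝ :=
  lmul s * GoodSU_cj ι

private theorem GoodSU_SS (s : Matrix ι ι ℂ) :
    GoodSU_S s * GoodSU_S s = lmul (s * s.map star) := by
  unfold GoodSU_S
  calc lmul s * GoodSU_cj ι * (lmul s * GoodSU_cj ι)
      = lmul s * (GoodSU_cj ι * lmul s) * GoodSU_cj ι := by simp only [Matrix.mul_assoc]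
    _ = lmul s * lmul (s.map star) * (GoodSU_cj ι * GoodSU_cj ι) := by
        rw [GoodSU_cl]
        simp only [Matrix.mul_assoc]
    _ = _ := by rw [GoodSU_cc, Matrix.mul_one, lmul_mul]

private theorem GoodSU_TS {s : Matrix ι ι ℂ} (hs : s * sᴴ = 1) :
    (GoodSU_S s)ᵀ * GoodSU_S s = 1 := by
  have hs' : sᴴ * s = 1 := mul_eq_one_comm.1 hs
  unfold GoodSU_S
  rw [Matrix.transpose_mul, GoodSU_cT, ← lmul_conjT]
  calc GoodSU_cj ι * lmul sᴴ * (lmul s * GoodSU_cj ι)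
      = GoodSU_cj ι * (lmul sᴴ * lmul s) * GoodSU_cj ι := by simp only [Matrix.mul_assoc]
    _ = 1 := by rw [← lmul_mul, hs', lmul_one, Matrix.mul_one, GoodSU_cc]

private theorem GoodSU_Sp {s : Matrix ι ι ℂ} (hs : s * sᴴ = 1) (h : s * s.map star = 1) :
    (GoodSU_S s)ᵀ = GoodSU_S s := by
  have h1 : GoodSU_S s * GoodSU_S s = 1 := by rw [GoodSU_SS, h, lmul_one]
  calc (GoodSU_S s)ᵀ = (GoodSU_S s)ᵀ * (GoodSU_S s * GoodSU_S s) := by rw [h1, Matrix.mul_one]
    _ = (GoodSU_S s)ᵀ * GoodSU_S s * GoodSU_S s := by rw [Matrix.mul_assoc]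
    _ = _ := by rw [GoodSU_TS hs, Matrix.one_mul]

private theorem GoodSU_Sm1 {s : Matrix ι ι ℂ} (h : s * s.map star = -1) :
    GoodSU_S s * GoodSU_S s = -1 := by
  rw [GoodSU_SS, h, map_neg, lmul_one]

private theorem GoodSU_Sm {s : Matrix ι ι ℂ} (hs : s * sᴴ = 1) (h : s * s.map star = -1) :
    (GoodSU_S s)ᵀ = -GoodSU_S s := by
  have h1 := GoodSU_Sm1 h
  calc (GoodSU_S s)ᵀ = -((GoodSU_S s)ᵀ * (GoodSU_S s * GoodSU_S s)) := by
        rw [h1, Matrix.mul_neg, Matrix.mul_one, neg_neg]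
    _ = -((GoodSU_S s)ᵀ * GoodSU_S s * GoodSU_S s) := by rw [Matrix.mul_assoc]
    _ = _ := by rw [GoodSU_TS hs, Matrix.one_mul]

private theorem GoodSU_Sr (s : Matrix ι ι ℂ) (u : ℂ) (hu : star u = -u) :
    GoodSU_S s * rmul ι u = -(rmul ι u * GoodSU_S s) := by
  unfold GoodSU_S
  rw [Matrix.mul_assoc, GoodSU_cr, ← Matrix.mul_assoc, lmul_rmul, hu, rmul_neg, Matrix.neg_mul,
    Matrix.neg_mul, Matrix.mul_assoc]

private theorem GoodSU_Sl {s X Y : Matrix ι ι ℂ} (h : s * X.map star = Y * s) :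
    GoodSU_S s * lmul X = lmul Y * GoodSU_S s := by
  unfold GoodSU_S
  rw [Matrix.mul_assoc, GoodSU_cl, ← Matrix.mul_assoc, ← lmul_mul, h, lmul_mul, Matrix.mul_assoc]

private theorem GoodSU_tr0 {I : Type} [Fintype I] [DecidableEq I] {F M : Matrix I I ℝ}
    (hF : Fᵀ * F = 1) (h : M * F = -(F * M)) : trace M = 0 := by
  have hF' : F * Fᵀ = 1 := mul_eq_one_comm.1 hF
  have h1 : trace M = -trace M := by
    calc trace M = trace (M * F * Fᵀ) := by rw [Matrix.mul_assoc, hF', Matrix.mul_one]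
      _ = -trace (F * M * Fᵀ) := by rw [h, Matrix.neg_mul, Matrix.trace_neg]
      _ = -trace M := by
        rw [Matrix.trace_mul_comm, ← Matrix.mul_assoc, hF, Matrix.one_mul]
  linarith

private theorem GoodSU_FF : (rmul ι Complex.I)ᵀ * rmul ι Complex.I = 1 := by
  rw [rmul_T, rmul_mul]
  have h : Complex.I * star Complex.I = 1 := by simp
  rw [h, rmul_one]

private theorem GoodSU_I : star Complex.I = -Complex.I := by simp

private theorem GoodSU_FT : (rmul ι Complex.I)ᵀ = -rmul ι Complex.I := by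
  rw [rmul_T, GoodSU_I, rmul_neg]

private theorem GoodSU_bs (k : Fin (CoefU.mu ℂ)) : (CoefU.bs k : ℂ) = Complex.I := by
  have h : ∀ k : Fin 1, (![Complex.I] : Fin 1 → ℂ) k = Complex.I := by
    intro k
    fin_cases k
    rfl
  exact h k

private theorem GoodSU_t1 (x : cl ℂ ι) : trace (lmul x.1 * rmul ι Complex.I) = 0 :=
  cl_trace x

private theorem GoodSU_t2 (s : Matrix ι ι ℂ) (X : Matrix ι ι ℂ) :
    trace (GoodSU_S s * lmul X * rmul ι Complex.I) = 0 := by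
  refine GoodSU_tr0 GoodSU_FF ?_
  have h1 := GoodSU_Sr s Complex.I GoodSU_I
  calc GoodSU_S s * lmul X * rmul ι Complex.I * rmul ι Complex.I
      = GoodSU_S s * (lmul X * rmul ι Complex.I) * rmul ι Complex.I := by
        simp only [Matrix.mul_assoc]
    _ = GoodSU_S s * rmul ι Complex.I * lmul X * rmul ι Complex.I := by
        rw [lmul_rmul]
        simp only [Matrix.mul_assoc]
    _ = _ := by
        rw [h1]
        simp only [Matrix.mul_assoc, Matrix.neg_mul]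

private theorem GoodSU_t3 (s : Matrix ι ι ℂ) : trace (GoodSU_S s) = 0 :=
  GoodSU_tr0 GoodSU_FF (GoodSU_Sr s Complex.I GoodSU_I)

private theorem GoodSU_t4 (s : Matrix ι ι ℂ) (X : Matrix ι ι ℂ) :
    trace (lmul X * GoodSU_S s) = 0 := by
  refine GoodSU_tr0 GoodSU_FF ?_
  rw [Matrix.mul_assoc, GoodSU_Sr s Complex.I GoodSU_I, Matrix.mul_neg, ← Matrix.mul_assoc,
    lmul_rmul, Matrix.mul_assoc]

omit [DecidableEq ι] in
private theorem GoodSU_mapm (x y : Matrix ι ι ℂ) :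
    x.map star * y.map star = (x * y).map star := by
  ext i j
  simp only [Matrix.mul_apply, Matrix.map_apply, star_sum, star_mul']

omit [Fintype ι] [DecidableEq ι] in
private theorem GoodSU_mapH (x : Matrix ι ι ℂ) : (xᴴ).map star = (x.map star)ᴴ := rfl

omit [Fintype ι] [DecidableEq ι] in
private theorem GoodSU_mapmap (x : Matrix ι ι ℂ) : (x.map star).map star = x := by
  ext i j
  exact star_star _

/-- The complex conjugation of the Lie algebra. -/
private noncomputable def GoodSU_bar (ι : Type) [Fintype ι] [DecidableEq ι] :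
    cl ℂ ι ≃ₗ⁅ℝ⁆ cl ℂ ι where
  toFun x := ⟨x.1.map star, by
    constructor
    · have h1 : (x.1.map star)ᴴ = (x.1ᴴ).map star := by
        ext i j
        rfl
      rw [h1, x.2.1]
      ext i j
      simp
    · have h1 : trace x.1 = 0 := x.2.2
      change trace (x.1.map star) = 0
      have h2 : trace (x.1.map star) = star (trace x.1) := by
        simp only [Matrix.trace, Matrix.diag_apply, Matrix.map_apply, star_sum]
      rw [h2, h1, star_zero]⟩
  map_add' x y := by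
    apply Subtype.ext
    ext i j
    change star (x.1 i j + y.1 i j) = star (x.1 i j) + star (y.1 i j)
    rw [star_add]
  map_smul' c x := by
    apply Subtype.ext
    ext i j
    change star (c • x.1 i j) = c • star (x.1 i j)
    rw [Cen.star_smul']
  map_lie' := by
    intro x y
    apply Subtype.ext
    change (x.1 * y.1 - y.1 * x.1).map star =
      x.1.map star * y.1.map star - y.1.map star * x.1.map star
    rw [GoodSU_mapm x.1 y.1, GoodSU_mapm y.1 x.1]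
    ext i j
    exact star_sub _ _
  invFun x := ⟨x.1.map star, by
    constructor
    · have h1 : (x.1.map star)ᴴ = (x.1ᴴ).map star := by
        ext i j
        rfl
      rw [h1, x.2.1]
      ext i j
      simp
    · have h1 : trace x.1 = 0 := x.2.2
      change trace (x.1.map star) = 0
      have h2 : trace (x.1.map star) = star (trace x.1) := by
        simp only [Matrix.trace, Matrix.diag_apply, Matrix.map_apply, star_sum]
      rw [h2, h1, star_zero]⟩
  left_inv x := by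
    apply Subtype.ext
    ext i j
    exact star_star _
  right_inv x := by
    apply Subtype.ext
    ext i j
    exact star_star _

/-- The involution `x ↦ s x̄ sᴴ`. -/
private noncomputable def GoodSU_sig {s : Matrix ι ι ℂ} (h1 : s * sᴴ = 1) (h2 : sᴴ * s = 1) :
    cl ℂ ι ≃ₗ⁅ℝ⁆ cl ℂ ι :=
  (GoodSU_bar ι).trans (clConj s h1 h2)

private theorem GoodSU_sig_val {s : Matrix ι ι ℂ} (h1 : s * sᴴ = 1) (h2 : sᴴ * s = 1)
    (x : cl ℂ ι) : (GoodSU_sig h1 h2 x).1 = s * x.1.map star * sᴴ := rfl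

private theorem GoodSU_sig_sig {s : Matrix ι ι ℂ} (h1 : s * sᴴ = 1) (h2 : sᴴ * s = 1)
    (h : s * s.map star = -1) (x : cl ℂ ι) : GoodSU_sig h1 h2 (GoodSU_sig h1 h2 x) = x := by
  apply Subtype.ext
  rw [GoodSU_sig_val, GoodSU_sig_val, ← GoodSU_mapm, ← GoodSU_mapm, GoodSU_mapmap, GoodSU_mapH]
  calc s * (s.map star * x.1 * (s.map star)ᴴ) * sᴴ
      = (s * s.map star) * x.1 * (s * s.map star)ᴴ := by
        rw [Matrix.conjTranspose_mul]
        simp only [Matrix.mul_assoc]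
    _ = x.1 := by
        rw [h, Matrix.conjTranspose_neg, Matrix.conjTranspose_one, Matrix.neg_mul,
          Matrix.one_mul, Matrix.mul_neg, Matrix.mul_one, neg_neg]

private theorem GoodSU_sig_S {s : Matrix ι ι ℂ} (h1 : s * sᴴ = 1) (h2 : sᴴ * s = 1)
    (x : cl ℂ ι) : GoodSU_S s * lmul x.1 = lmul (GoodSU_sig h1 h2 x).1 * GoodSU_S s := by
  apply GoodSU_Sl
  rw [GoodSU_sig_val, Matrix.mul_assoc, h2, Matrix.mul_one]

private theorem GoodSU_sig_fix {s : Matrix ι ι ℂ} (h1 : s * sᴴ = 1) (h2 : sᴴ * s = 1)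
    {x : cl ℂ ι} (h : s * x.1.map star = x.1 * s) : GoodSU_sig h1 h2 x = x := by
  apply Subtype.ext
  rw [GoodSU_sig_val, h, Matrix.mul_assoc, h1, Matrix.mul_one]

private theorem GoodSU_sig_g {s g : Matrix ι ι ℂ} (h1 : s * sᴴ = 1) (h2 : sᴴ * s = 1)
    (hg1 : g * gᴴ = 1) (hg2 : gᴴ * g = 1) (hg : g * s = s * g.map star) (x : cl ℂ ι) :
    GoodSU_sig h1 h2 (clConj g hg1 hg2 x) = clConj g hg1 hg2 (GoodSU_sig h1 h2 x) := by
  apply Subtype.ext
  rw [GoodSU_sig_val, clConj_apply, clConj_apply, GoodSU_sig_val, ← GoodSU_mapm, ← GoodSU_mapm,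
    GoodSU_mapH]
  calc s * (g.map star * x.1.map star * (g.map star)ᴴ) * sᴴ
      = (s * g.map star) * x.1.map star * (s * g.map star)ᴴ := by
        rw [Matrix.conjTranspose_mul]
        simp only [Matrix.mul_assoc]
    _ = g * (s * x.1.map star * sᴴ) * gᴴ := by
        rw [← hg, Matrix.conjTranspose_mul]
        simp only [Matrix.mul_assoc]

private theorem GoodSU_lg {g : Matrix ι ι ℂ} (hg1 : g * gᴴ = 1) : lmul g * (lmul g)ᵀ = 1 := by
  rw [← lmul_conjT, ← lmul_mul, hg1, lmul_one]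

/-- The case `s s̄ = 1`. -/
private theorem GoodSU_case1 {c τ eps K δ : ℝ} (hE : ∀ (L : Type) [LieRing L] [LieAlgebra ℝ L]
    [Module.Finite ℝ L] (I : Type) [Fintype I]
    [DecidableEq I] (R : Rp L I 1) (s : Matrix I I ℝ) (c' : L) (J0 : Matrix I I ℝ) (g1 g2 : ℝ),
    InvD R s c' J0 g1 g2 → 1 / δ ≤ Fintype.card I →
    |trace s| ≤ (1 - 2 * (1 / 2)) * Fintype.card I →
    (((∀ k, s * R.f k = R.f k * s) ∧ s * R.J = R.J * s) ∨ trace s = 0) →
    ∀ h : LieSubalgebra ℝ L, (∀ y ∈ h, s * R.ph y = R.ph y * s) → SmallR R h δ →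
    ∀ G : Set (L ≃ₗ⁅ℝ⁆ L), (∀ γ ∈ G, ByMat R s J0 γ) → GoodAt h G c τ eps K)
    (hN : 3 ≤ Fintype.card ι) (hδ : 1 / δ ≤ (Fintype.card ι : ℝ))
    (h : LieSubalgebra ℝ (cl ℂ ι)) (s : Matrix ι ι ℂ)
    (hs : s * sᴴ = 1) (hss : s * s.map star = 1)
    (hsh : ∀ x ∈ h, s * x.1.map star = x.1 * s)
    (hd : √((Module.finrank ℝ h : ℝ) / 2) ≤ δ * Fintype.card ι)
    (G : Set (cl ℂ ι ≃ₗ⁅ℝ⁆ cl ℂ ι)) (hG : ∀ γ ∈ G, ∃ g : Matrix ι ι ℂ, AdU g γ ∧
      g * s = s * g.map star) : GoodAt h G c τ eps K := by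
  obtain ⟨R, hph, hf, hJ, hn⟩ := exists_rp (A := ℂ) (ι := ι) hN
  have hf' : ∀ k, R.f k = rmul ι Complex.I := fun k => by rw [hf, GoodSU_bs]
  have hJ' : R.J = rmul ι Complex.I := hJ
  have hN0 : (0 : ℝ) < Fintype.card ι := by
    have : 0 < Fintype.card ι := by omega
    exact_mod_cast this
  have hn' : R.n = Fintype.card ι := by
    rw [hn]
    have h0 : Coef.sg ℂ = 0 := rfl
    rw [h0, mul_zero, zero_div, sub_zero]
  have hcard : (Fintype.card (ι × Fin (Coef.m ℂ)) : ℝ) = 2 * Fintype.card ι := by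
    rw [Fintype.card_prod, Fintype.card_fin]
    have h0 : Coef.m ℂ = 2 := rfl
    rw [h0]
    push_cast
    ring
  have hinv : InvD R (GoodSU_S s) 0 0 0 0 := by
    refine ⟨GoodSU_Sp hs hss, ?_, fun k => Or.inr ?_, Or.inr ?_, by simp, Or.inl rfl,
      fun x => by simp, by simp, Or.inr rfl, by simp, fun x _ => ?_, fun x _ k => ?_⟩
    · rw [GoodSU_SS, hss, lmul_one]
    · rw [hf']
      exact GoodSU_Sr s _ GoodSU_I
    · rw [hJ']
      exact GoodSU_Sr s _ GoodSU_I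
    · rw [hph, hJ']
      exact ⟨GoodSU_t1 x, GoodSU_t2 s x.1⟩
    · rw [hph, hf']
      exact ⟨GoodSU_t1 x, GoodSU_t2 s x.1⟩
  refine hE (cl ℂ ι) (ι × Fin (Coef.m ℂ)) R (GoodSU_S s) 0 0 0 0 hinv ?_ ?_
    (Or.inr (GoodSU_t3 s)) h ?_ ?_ G ?_
  · rw [hcard]
    linarith
  · rw [GoodSU_t3, abs_zero]
    norm_num
  · intro y hy
    rw [hph]
    exact GoodSU_Sl (hsh y hy)
  · refine (small_dimR R ?_ h).mono ?_
    · rw [Fintype.card_prod, Fintype.card_fin]
      have h0 : Coef.m ℂ = 2 := rfl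
      rw [h0]
      omega
    · rw [hn', div_le_iff₀ hN0]
      exact hd
  · intro γ hγG
    obtain ⟨g, ⟨hg1, hg2, hγ⟩, hg⟩ := hG γ hγG
    refine ⟨lmul g, GoodSU_lg hg1, ?_, by simp, fun x => ?_⟩
    · exact GoodSU_Sl hg.symm
    · rw [hph, hph, hγ, lmul_mul, lmul_mul, lmul_conjT]

end

section Bd

variable {I : Type} [Fintype I] [DecidableEq I]

/-- `G ⊗ 1`. -/
private def GoodSU_bd (G : Matrix I I ℝ) : Matrix (I × Fin 2) (I × Fin 2) ℝ :=
  Matrix.blockDiagonal fun _ => G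

private theorem GoodSU_dz : dz I = Matrix.blockDiagonal fun p : Fin 2 =>
    if p = 0 then (1 : Matrix I I ℝ) else -1 := by
  ext a b
  unfold dz
  rw [Matrix.blockDiagonal_apply, Matrix.diagonal_apply]
  by_cases h : a.2 = b.2
  · rw [if_pos h]
    by_cases h1 : a.1 = b.1
    · have h2 : a = b := Prod.ext h1 h
      rw [if_pos h2]
      by_cases h3 : a.2 = 0
      · rw [if_pos h3, if_pos h3, h1, Matrix.one_apply_eq]
      · rw [if_neg h3, if_neg h3, h1, Matrix.neg_apply, Matrix.one_apply_eq]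
    · have h2 : a ≠ b := fun e => h1 (by rw [e])
      rw [if_neg h2]
      by_cases h3 : a.2 = 0
      · rw [if_pos h3, Matrix.one_apply_ne h1]
      · rw [if_neg h3, Matrix.neg_apply, Matrix.one_apply_ne h1, neg_zero]
  · have h2 : a ≠ b := fun e => h (by rw [e])
    rw [if_neg h, if_neg h2]

omit [Fintype I] [DecidableEq I] in
private theorem GoodSU_dJ (S : Matrix I I ℝ) : dJ S = Matrix.blockDiagonal fun p : Fin 2 =>
    if p = 0 then S else -S := by
  ext a b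
  unfold dJ
  rw [Matrix.blockDiagonal_apply, Matrix.of_apply]
  by_cases h : a.2 = b.2
  · rw [if_pos h, if_pos h]
    by_cases h3 : a.2 = 0
    · rw [if_pos h3, if_pos h3]
    · rw [if_neg h3, if_neg h3, Matrix.neg_apply]
  · rw [if_neg h, if_neg h]

private theorem GoodSU_bdT {G : Matrix I I ℝ} (hG : G * Gᵀ = 1) :
    GoodSU_bd G * (GoodSU_bd G)ᵀ = 1 := by
  unfold GoodSU_bd
  rw [Matrix.blockDiagonal_transpose, ← Matrix.blockDiagonal_mul]
  simp only [hG]
  exact Matrix.blockDiagonal_one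

private theorem GoodSU_bdz (G : Matrix I I ℝ) : dz I * GoodSU_bd G = GoodSU_bd G * dz I := by
  rw [GoodSU_dz]
  unfold GoodSU_bd
  rw [← Matrix.blockDiagonal_mul, ← Matrix.blockDiagonal_mul]
  congr 1
  funext p
  by_cases h3 : p = 0
  · rw [if_pos h3, Matrix.one_mul, Matrix.mul_one]
  · rw [if_neg h3, Matrix.neg_mul, Matrix.mul_neg, Matrix.one_mul, Matrix.mul_one]

omit [DecidableEq I] in
private theorem GoodSU_bdJ {S G : Matrix I I ℝ} (h : S * G = G * S) :
    dJ S * GoodSU_bd G = GoodSU_bd G * dJ S := by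
  rw [GoodSU_dJ]
  unfold GoodSU_bd
  rw [← Matrix.blockDiagonal_mul, ← Matrix.blockDiagonal_mul]
  congr 1
  funext p
  by_cases h3 : p = 0
  · rw [if_pos h3, h]
  · rw [if_neg h3, Matrix.neg_mul, Matrix.mul_neg, h]

omit [DecidableEq I] in
private theorem GoodSU_bdM (G : Matrix I I ℝ) (M : Matrix (I × Fin 2) (I × Fin 2) ℝ)
    (a b : I × Fin 2) : (GoodSU_bd G * M * (GoodSU_bd G)ᵀ) a b =
      (G * (Matrix.of fun c d => M (c, a.2) (d, b.2)) * Gᵀ) a.1 b.1 := by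
  obtain ⟨a, p⟩ := a
  obtain ⟨b, q⟩ := b
  unfold GoodSU_bd
  rw [Matrix.blockDiagonal_transpose]
  simp only [Matrix.mul_apply, Fintype.sum_prod_type, Matrix.blockDiagonal_apply, Matrix.of_apply,
    Matrix.transpose_apply, ite_mul, mul_ite, zero_mul, mul_zero, Finset.sum_ite_eq,
    Finset.sum_ite_eq', Finset.mem_univ, if_true]

private theorem GoodSU_dz_tr : trace (dz I) = 0 := by
  unfold dz
  rw [Matrix.trace_diagonal, Fintype.sum_prod_type]
  simp

private theorem GoodSU_dz_comm {M : Matrix (I × Fin 2) (I × Fin 2) ℝ}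
    (h : ∀ a b, a.2 ≠ b.2 → M a b = 0) : dz I * M = M * dz I := by
  unfold dz
  ext a b
  rw [Matrix.diagonal_mul, Matrix.mul_diagonal]
  by_cases h1 : a.2 = b.2
  · rw [h1, mul_comm]
  · rw [h a b h1, mul_zero, zero_mul]

end Bd

section

variable {ι : Type} [Fintype ι] [DecidableEq ι]

/-- The case `s s̄ = -1`. -/
private theorem GoodSU_case2 {c τ eps K δ : ℝ} (hE : ∀ (L : Type) [LieRing L] [LieAlgebra ℝ L]
    [Module.Finite ℝ L] (I : Type) [Fintype I]
    [DecidableEq I] (R : Rp L I 7) (s : Matrix I I ℝ) (c' : L) (J0 : Matrix I I ℝ) (g1 g2 : ℝ),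
    InvD R s c' J0 g1 g2 → 1 / δ ≤ Fintype.card I →
    |trace s| ≤ (1 - 2 * (1 / 2)) * Fintype.card I →
    (((∀ k, s * R.f k = R.f k * s) ∧ s * R.J = R.J * s) ∨ trace s = 0) →
    ∀ h : LieSubalgebra ℝ L, (∀ y ∈ h, s * R.ph y = R.ph y * s) → SmallR R h δ →
    ∀ G : Set (L ≃ₗ⁅ℝ⁆ L), (∀ γ ∈ G, ByMat R s J0 γ) → GoodAt h G c τ eps K)
    (hN : 3 ≤ Fintype.card ι) (hδ : 1 / δ ≤ (Fintype.card ι : ℝ))
    (h : LieSubalgebra ℝ (cl ℂ ι)) (s : Matrix ι ι ℂ)
    (hs : s * sᴴ = 1) (hss : s * s.map star = -1)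
    (hsh : ∀ x ∈ h, s * x.1.map star = x.1 * s)
    (hd : √((Module.finrank ℝ h : ℝ) / 2) ≤ δ / 2 * Fintype.card ι)
    (G : Set (cl ℂ ι ≃ₗ⁅ℝ⁆ cl ℂ ι)) (hG : ∀ γ ∈ G, ∃ g : Matrix ι ι ℂ, AdU g γ ∧
      g * s = s * g.map star) : GoodAt h G c τ eps K := by
  obtain ⟨R, hph, hf, hJ, hn⟩ := exists_rp (A := ℂ) (ι := ι) hN
  have hs' : sᴴ * s = 1 := mul_eq_one_comm.1 hs
  have hf' : ∀ k, R.f k = rmul ι Complex.I := fun k => by rw [hf, GoodSU_bs]
  have hJ' : R.J = rmul ι Complex.I := hJ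
  have hN0 : (0 : ℝ) < Fintype.card ι := by
    have : 0 < Fintype.card ι := by omega
    exact_mod_cast this
  have hN3 : (3 : ℝ) ≤ Fintype.card ι := by exact_mod_cast hN
  have hn' : R.n = Fintype.card ι := by
    rw [hn]
    have h0 : Coef.sg ℂ = 0 := rfl
    rw [h0, mul_zero, zero_div, sub_zero]
  have hcard : Fintype.card ((ι × Fin (Coef.m ℂ)) × Fin 2) = 4 * Fintype.card ι := by
    rw [Fintype.card_prod, Fintype.card_prod, Fintype.card_fin, Fintype.card_fin]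
    have h0 : Coef.m ℂ = 2 := rfl
    rw [h0]
    ring
  obtain ⟨R', hn2, hph2, hinv⟩ := exists_dbl R (by rw [hn']; linarith)
    (σ := GoodSU_sig hs hs') (GoodSU_sig_sig hs hs' hss) (s := GoodSU_S s) (GoodSU_Sm hs hss)
    (GoodSU_Sm1 hss) (fun x => by rw [hph, hph]; exact GoodSU_sig_S hs hs' x)
    (fun k => by rw [hf']; exact GoodSU_Sr s _ GoodSU_I) (fun k => by rw [hf']; exact GoodSU_FT)
    (by rw [hJ']; exact GoodSU_Sr s _ GoodSU_I) (fun x => by rw [hph, hJ']; exact GoodSU_t1 x)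
    (fun x k => by rw [hph, hf']; exact GoodSU_t1 x) (c := 0) (κ := 0) (by simp) (Or.inr rfl)
    (fun x _ => by rw [hph]; exact GoodSU_t4 s x.1)
  refine hE (cl ℂ ι) ((ι × Fin (Coef.m ℂ)) × Fin 2) R' (dz _) 0
    (dJ (GoodSU_S s)) 0 (-0) hinv ?_ ?_ (Or.inr GoodSU_dz_tr) h ?_ ?_ G ?_
  · rw [hcard]
    push_cast
    linarith
  · rw [GoodSU_dz_tr, abs_zero]
    norm_num
  · intro y hy
    apply GoodSU_dz_comm
    intro a b hab
    rw [hph2, GoodSU_sig_fix hs hs' (hsh y hy), if_neg hab]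
    ring
  · refine (small_dimR R' (by rw [hcard]; omega) h).mono ?_
    rw [hn2, hn', div_le_iff₀ (by positivity)]
    linarith
  · intro γ hγG
    obtain ⟨g, ⟨hg1, hg2, hγ⟩, hg⟩ := hG γ hγG
    have hγ' : ∀ x, γ x = clConj g hg1 hg2 x := fun x => Subtype.ext (hγ x)
    have hR : ∀ x, R.ph (clConj g hg1 hg2 x) = lmul g * R.ph x * (lmul g)ᵀ := by
      intro x
      rw [hph, hph, clConj_apply, lmul_mul, lmul_mul, lmul_conjT]
    refine ⟨GoodSU_bd (lmul g), GoodSU_bdT (GoodSU_lg hg1), GoodSU_bdz _,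
      GoodSU_bdJ (GoodSU_Sl hg.symm), fun x => ?_⟩
    ext a b
    rw [GoodSU_bdM, hγ', hph2, GoodSU_sig_g hs hs' hg1 hg2 hg, hR, hR]
    have h1 : (Matrix.of fun c d => R'.ph x (c, a.2) (d, b.2)) =
        (1 / 2 : ℝ) • (R.ph x + (if a.2 = b.2 then (1 : ℝ) else -1) •
          R.ph (GoodSU_sig hs hs' x)) := by
      ext c d
      rw [Matrix.of_apply, hph2, Matrix.smul_apply, Matrix.add_apply, Matrix.smul_apply,
        smul_eq_mul, smul_eq_mul]
    rw [h1, Matrix.mul_smul, Matrix.smul_mul, Matrix.mul_add, Matrix.add_mul, Matrix.mul_smul,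
      Matrix.smul_mul, Matrix.smul_apply, Matrix.add_apply, Matrix.smul_apply, smul_eq_mul,
      smul_eq_mul]

end

theorem good_SU : ∃ c K : ℝ, 1 ≤ c ∧ 1 ≤ K ∧ ∀ τ eps : ℝ, 0 < τ → 0 < eps →
    ∃ δ : ℝ, 0 < δ ∧ ∀ (ι : Type) [Fintype ι] [DecidableEq ι], 3 ≤ Fintype.card ι →
    1 / δ ≤ Fintype.card ι → ∀ (h : LieSubalgebra ℝ (cl ℂ ι)) (s : Matrix ι ι ℂ),
      s * sᴴ = 1 → s * s.map star = 1 ∨ s * s.map star = -1 →
      (∀ x ∈ h, s * x.1.map star = x.1 * s) →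
      (Module.finrank ℝ h : ℝ) ≤ δ * (Fintype.card ι : ℝ) ^ 2 →
      ∀ G : Set (cl ℂ ι ≃ₗ⁅ℝ⁆ cl ℂ ι), (∀ γ ∈ G, ∃ g : Matrix ι ι ℂ, AdU g γ ∧
        g * s = s * g.map star) → GoodAt h G c τ eps K := by
  obtain ⟨c1, K1, hc1, hK1, hE1⟩ := good_inv 1 (θ := 1 / 2) (by norm_num)
  obtain ⟨c2, K2, hc2, hK2, hE2⟩ := good_inv 7 (θ := 1 / 2) (by norm_num)
  refine ⟨max c1 c2, max K1 K2, hc1.trans (le_max_left _ _), hK1.trans (le_max_left _ _), ?_⟩
  intro τ eps hτ heps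
  obtain ⟨δ1, hδ1, hE1⟩ := hE1 τ eps hτ heps
  obtain ⟨δ2, hδ2, hE2⟩ := hE2 τ eps hτ heps
  set δ := min δ1 δ2 with hδd
  have hδ : 0 < δ := lt_min hδ1 hδ2
  have hδl1 : δ ≤ δ1 := min_le_left _ _
  have hδl2 : δ ≤ δ2 := min_le_right _ _
  refine ⟨min δ (δ ^ 2 / 9), lt_min hδ (by positivity), ?_⟩
  intro ι _ _ hN hNδ h s hs hss hsh hdim G hG
  have hN0 : (0 : ℝ) < Fintype.card ι := by
    have : 0 < Fintype.card ι := by omega
    exact_mod_cast this
  have hNδ' : 1 / δ ≤ (Fintype.card ι : ℝ) :=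
    (one_div_le_one_div_of_le (lt_min hδ (by positivity)) (min_le_left _ _)).trans hNδ
  have hdim' : (Module.finrank ℝ h : ℝ) ≤ δ ^ 2 / 9 * (Fintype.card ι : ℝ) ^ 2 :=
    hdim.trans (mul_le_mul_of_nonneg_right (min_le_right _ _) (by positivity))
  have h1 : √((Module.finrank ℝ h : ℝ) / 2) ≤ √((δ * Fintype.card ι / 4) ^ 2) := by
    apply Real.sqrt_le_sqrt
    nlinarith [sq_nonneg (δ * (Fintype.card ι : ℝ))]
  rw [Real.sqrt_sq (by positivity)] at h1
  have hδN : 0 < δ * (Fintype.card ι : ℝ) := mul_pos hδ hN0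
  rcases hss with hss | hss
  · refine good_mono (GoodSU_case1 hE1 hN ?_ h s hs hss hsh ?_ G hG) (le_max_left _ _)
      (le_max_left _ _)
    · exact (one_div_le_one_div_of_le hδ hδl1).trans hNδ'
    · have h2 := mul_le_mul_of_nonneg_right hδl1 hN0.le
      linarith
  · refine good_mono (GoodSU_case2 hE2 hN ?_ h s hs hss hsh ?_ G hG) (le_max_right _ _)
      (le_max_right _ _)
    · exact (one_div_le_one_div_of_le hδ hδl2).trans hNδ'
    · have h2 := mul_le_mul_of_nonneg_right hδl2 hN0.le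
      linarith

end Pool.Agent.EinV
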