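import Pool.Agent.EinV.GoodI
import Pool.Agent.EinV.Dbl

/-!
# Good base metrics: subalgebras which preserve a structure

Copy of the proof of `sp_u` (`FinSp.lean`), with `good_inv` instead of `einstein_inv` and `small_cl` (for the doubled
representation: `small_dimR`).
-/

set_option linter.all false

namespace Pool.Agent.EinV

open Matrix Pool.Agent.EStab Pool.Agent.EinS Pool.Agent.SmIso Pool.Agent.EinU Pool.Agent.EinG
  Quaternion

attribute [local instance 100] LieRing.ofAssociativeRing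

section

variable {ι : Type} [Fintype ι] [DecidableEq ι]

private def GoodSp_i : ℍ[ℝ] := ⟨0, 1, 0, 0⟩

private def GoodSp_j : ℍ[ℝ] := ⟨0, 0, 1, 0⟩

private def GoodSp_k : ℍ[ℝ] := ⟨0, 0, 0, 1⟩

private theorem GoodSp_bs (k : Fin (CoefU.mu ℍ[ℝ])) : (CoefU.bs k : ℍ[ℝ]) = GoodSp_i ∨
    (CoefU.bs k : ℍ[ℝ]) = GoodSp_j ∨ (CoefU.bs k : ℍ[ℝ]) = GoodSp_k := by
  have h : ∀ k : Fin 3, (![⟨0, 1, 0, 0⟩, ⟨0, 0, 1, 0⟩, ⟨0, 0, 0, 1⟩] : Fin 3 → ℍ[ℝ]) k =
      GoodSp_i ∨ (![⟨0, 1, 0, 0⟩, ⟨0, 0, 1, 0⟩, ⟨0, 0, 0, 1⟩] : Fin 3 → ℍ[ℝ]) k = GoodSp_j ∨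
      (![⟨0, 1, 0, 0⟩, ⟨0, 0, 1, 0⟩, ⟨0, 0, 0, 1⟩] : Fin 3 → ℍ[ℝ]) k = GoodSp_k := by
    intro k
    fin_cases k
    · exact Or.inl rfl
    · exact Or.inr (Or.inl rfl)
    · exact Or.inr (Or.inr rfl)
  exact h k

private theorem GoodSp_i0 : GoodSp_i.re = 0 := rfl

private theorem GoodSp_i1 : GoodSp_i.imI = 1 := rfl

private theorem GoodSp_i2 : GoodSp_i.imJ = 0 := rfl

private theorem GoodSp_i3 : GoodSp_i.imK = 0 := rfl

private theorem GoodSp_j0 : GoodSp_j.re = 0 := rfl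

private theorem GoodSp_j1 : GoodSp_j.imI = 0 := rfl

private theorem GoodSp_j2 : GoodSp_j.imJ = 1 := rfl

private theorem GoodSp_j3 : GoodSp_j.imK = 0 := rfl

private theorem GoodSp_k0 : GoodSp_k.re = 0 := rfl

private theorem GoodSp_k1 : GoodSp_k.imI = 0 := rfl

private theorem GoodSp_k2 : GoodSp_k.imJ = 0 := rfl

private theorem GoodSp_k3 : GoodSp_k.imK = 1 := rfl

private theorem GoodSp_ii : GoodSp_i * GoodSp_i = -1 := by
  apply Quaternion.ext <;> simp [GoodSp_i0, GoodSp_i1, GoodSp_i2, GoodSp_i3]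

private theorem GoodSp_si : star GoodSp_i = -GoodSp_i := by
  apply Quaternion.ext <;> simp [GoodSp_i0, GoodSp_i1, GoodSp_i2, GoodSp_i3]

private theorem GoodSp_ij : GoodSp_i * GoodSp_j = -(GoodSp_j * GoodSp_i) := by
  apply Quaternion.ext <;> simp [GoodSp_i0, GoodSp_i1, GoodSp_i2, GoodSp_i3, GoodSp_j0,
    GoodSp_j1, GoodSp_j2, GoodSp_j3]

private theorem GoodSp_ik : GoodSp_i * GoodSp_k = -(GoodSp_k * GoodSp_i) := by
  apply Quaternion.ext <;> simp [GoodSp_i0, GoodSp_i1, GoodSp_i2, GoodSp_i3, GoodSp_k0,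
    GoodSp_k1, GoodSp_k2, GoodSp_k3]

private theorem GoodSp_jj : GoodSp_j * star GoodSp_j = 1 := by
  apply Quaternion.ext <;> simp [GoodSp_j0, GoodSp_j1, GoodSp_j2, GoodSp_j3]

private theorem GoodSp_kk : GoodSp_k * star GoodSp_k = 1 := by
  apply Quaternion.ext <;> simp [GoodSp_k0, GoodSp_k1, GoodSp_k2, GoodSp_k3]

private theorem GoodSp_FF : rmul ι GoodSp_i * rmul ι GoodSp_i = -1 := by
  rw [rmul_mul, GoodSp_ii, rmul_neg, rmul_one]

private theorem GoodSp_FT : (rmul ι GoodSp_i)ᵀ = -rmul ι GoodSp_i := by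
  rw [rmul_T, GoodSp_si, rmul_neg]

private theorem GoodSp_Fo : (rmul ι GoodSp_i)ᵀ * rmul ι GoodSp_i = 1 := by
  rw [GoodSp_FT, Matrix.neg_mul, GoodSp_FF, neg_neg]

private theorem GoodSp_Go {u : ℍ[ℝ]} (hu : u * star u = 1) :
    (rmul ι u)ᵀ * rmul ι u = 1 := by
  rw [rmul_T, rmul_mul, hu, rmul_one]

private theorem GoodSp_FG {u : ℍ[ℝ]} (hu : GoodSp_i * u = -(u * GoodSp_i)) :
    rmul ι GoodSp_i * rmul ι u = -(rmul ι u * rmul ι GoodSp_i) := by
  rw [rmul_mul, rmul_mul, hu, rmul_neg, neg_neg]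

/-- The symmetric involution. -/
private noncomputable def GoodSp_S (s : Matrix ι ι ℍ[ℝ]) :
    Matrix (ι × Fin (Coef.m ℍ[ℝ])) (ι × Fin (Coef.m ℍ[ℝ])) ℝ :=
  -(lmul s * rmul ι GoodSp_i)

omit [DecidableEq ι] in
private theorem GoodSp_H [DecidableEq ι] {s : Matrix ι ι ℍ[ℝ]} (hs : s * sᴴ = 1)
    (hss : s * s = -1) : sᴴ = -s := by
  have h1 : -s * s = 1 := by rw [Matrix.neg_mul, hss, neg_neg]
  calc sᴴ = -s * s * sᴴ := by rw [h1, Matrix.one_mul]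
    _ = -s := by rw [Matrix.mul_assoc, hs, Matrix.mul_one]

private theorem GoodSp_ST {s : Matrix ι ι ℍ[ℝ]} (hs : s * sᴴ = 1) (hss : s * s = -1) :
    (GoodSp_S s)ᵀ = GoodSp_S s := by
  unfold GoodSp_S
  rw [Matrix.transpose_neg, Matrix.transpose_mul, ← lmul_conjT, GoodSp_H hs hss, GoodSp_FT,
    map_neg, Matrix.neg_mul, Matrix.mul_neg, neg_neg, lmul_rmul]

private theorem GoodSp_SS {s : Matrix ι ι ℍ[ℝ]} (hss : s * s = -1) :
    GoodSp_S s * GoodSp_S s = 1 := by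
  unfold GoodSp_S
  calc -(lmul s * rmul ι GoodSp_i) * -(lmul s * rmul ι GoodSp_i)
      = lmul s * (rmul ι GoodSp_i * lmul s) * rmul ι GoodSp_i := by
        rw [Matrix.neg_mul, Matrix.mul_neg, neg_neg]
        simp only [Matrix.mul_assoc]
    _ = (lmul s * lmul s) * (rmul ι GoodSp_i * rmul ι GoodSp_i) := by
        rw [← lmul_rmul]
        simp only [Matrix.mul_assoc]
    _ = 1 := by
        rw [← lmul_mul, hss, map_neg, lmul_one, GoodSp_FF, Matrix.neg_mul, Matrix.one_mul,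
          neg_neg]

private theorem GoodSp_SF (s : Matrix ι ι ℍ[ℝ]) :
    GoodSp_S s * rmul ι GoodSp_i = rmul ι GoodSp_i * GoodSp_S s := by
  unfold GoodSp_S
  rw [Matrix.neg_mul, Matrix.mul_neg, ← Matrix.mul_assoc, ← lmul_rmul, Matrix.mul_assoc]

private theorem GoodSp_SJ (s : Matrix ι ι ℍ[ℝ]) : GoodSp_S s * rmul ι GoodSp_i = lmul s := by
  unfold GoodSp_S
  rw [Matrix.neg_mul, Matrix.mul_assoc, GoodSp_FF, Matrix.mul_neg, neg_neg, Matrix.mul_one]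

private theorem GoodSp_SG (s : Matrix ι ι ℍ[ℝ]) {u : ℍ[ℝ]}
    (hu : GoodSp_i * u = -(u * GoodSp_i)) :
    GoodSp_S s * rmul ι u = -(rmul ι u * GoodSp_S s) := by
  unfold GoodSp_S
  rw [Matrix.neg_mul, Matrix.mul_neg, neg_neg, Matrix.mul_assoc, GoodSp_FG hu, Matrix.mul_neg,
    neg_neg, ← Matrix.mul_assoc, lmul_rmul, Matrix.mul_assoc]

private theorem GoodSp_Sl {s X : Matrix ι ι ℍ[ℝ]} (h : s * X = X * s) :
    GoodSp_S s * lmul X = lmul X * GoodSp_S s := by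
  unfold GoodSp_S
  rw [Matrix.neg_mul, Matrix.mul_neg, Matrix.mul_assoc, ← lmul_rmul, ← Matrix.mul_assoc,
    ← lmul_mul, h, lmul_mul, Matrix.mul_assoc]

private theorem GoodSp_tr0 {I : Type} [Fintype I] [DecidableEq I] {F M : Matrix I I ℝ}
    (hF : Fᵀ * F = 1) (h : M * F = -(F * M)) : trace M = 0 := by
  have hF' : F * Fᵀ = 1 := mul_eq_one_comm.1 hF
  have h1 : trace M = -trace M := by
    calc trace M = trace (M * F * Fᵀ) := by rw [Matrix.mul_assoc, hF', Matrix.mul_one]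
      _ = -trace (F * M * Fᵀ) := by rw [h, Matrix.neg_mul, Matrix.trace_neg]
      _ = -trace M := by
        rw [Matrix.trace_mul_comm, ← Matrix.mul_assoc, hF, Matrix.one_mul]
  linarith

private theorem GoodSp_trS (s : Matrix ι ι ℍ[ℝ]) : trace (GoodSp_S s) = 0 :=
  GoodSp_tr0 (GoodSp_Go GoodSp_jj) (GoodSp_SG s GoodSp_ij)

/-- Two anticommuting matrices. -/
private theorem GoodSp_tr1 {I : Type} [Fintype I] [DecidableEq I] {F Y : Matrix I I ℝ}
    (h : Y * F = -(F * Y)) : trace (Y * F) = 0 := by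
  have h1 : trace (Y * F) = -trace (Y * F) := by
    calc trace (Y * F) = -trace (F * Y) := by rw [h, Matrix.trace_neg]
      _ = -trace (Y * F) := by rw [Matrix.trace_mul_comm]
  linarith

/-- Conjugation with an anticommuting unit. -/
private theorem GoodSp_tr2 (X : Matrix ι ι ℍ[ℝ]) {u v : ℍ[ℝ]} (hu : u * star u = 1)
    (huv : v * u = -(u * v)) : trace (lmul X * rmul ι v) = 0 := by
  refine GoodSp_tr0 (GoodSp_Go hu) ?_
  rw [Matrix.mul_assoc, rmul_mul, ← neg_neg (u * v), ← huv, rmul_neg, ← rmul_mul,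
    Matrix.mul_neg, ← Matrix.mul_assoc, lmul_rmul, Matrix.mul_assoc, ← Matrix.mul_assoc]

private theorem GoodSp_ii' : GoodSp_i * star GoodSp_i = 1 := by
  rw [GoodSp_si, mul_neg, GoodSp_ii, neg_neg]

private theorem GoodSp_ip {I : Type} [Fintype I] (X Y : Matrix I I ℝ) (hY : Yᵀ = -Y) :
    trace (X * Y) = -∑ a, ∑ b, X a b * Y a b := by
  unfold trace
  simp only [Matrix.diag_apply, Matrix.mul_apply]
  rw [← Finset.sum_neg_distrib]
  refine Finset.sum_congr rfl fun a _ => ?_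
  rw [← Finset.sum_neg_distrib]
  refine Finset.sum_congr rfl fun b _ => ?_
  have h := congrFun (congrFun hY a) b
  rw [Matrix.transpose_apply, Matrix.neg_apply] at h
  rw [h, mul_neg]

/-- `s` is an element of the Lie algebra. -/
private theorem GoodSp_mem {s : Matrix ι ι ℍ[ℝ]} (hs : s * sᴴ = 1) (hss : s * s = -1) :
    s ∈ cl ℍ[ℝ] ι := by
  have hH := GoodSp_H hs hss
  refine ⟨hH, ?_⟩
  rw [cen_quat]
  have h1 : (trace s).re = 0 := by
    have h2 : (trace s).re = ∑ i, (s i i).re := by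
      unfold trace
      simp only [Matrix.diag_apply]
      have := map_sum quRe (fun i => s i i) Finset.univ
      exact this
    rw [h2]
    refine Finset.sum_eq_zero fun i _ => ?_
    have h3 := congrFun (congrFun hH i) i
    rw [Matrix.conjTranspose_apply, Matrix.neg_apply] at h3
    have h4 := congrArg (fun x : ℍ[ℝ] => x.re) h3
    simp at h4
    linarith
  rw [h1]
  rfl

private theorem GoodSp_inv [Nonempty ι]
    (R : Rp (cl ℍ[ℝ] ι) (ι × Fin (Coef.m ℍ[ℝ])) (CoefU.mu ℍ[ℝ]))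
    (hph : ∀ x, R.ph x = lmul x.1) (hf : ∀ k, R.f k = rmul ι (CoefU.bs k))
    (hJ : R.J = rmul ι (CoefU.iu : ℍ[ℝ])) {s : Matrix ι ι ℍ[ℝ]} (hs : s * sᴴ = 1)
    (hss : s * s = -1) :
    ∃ (c : cl ℍ[ℝ] ι) (κ : ℝ), InvD R (GoodSp_S s) c (rmul ι GoodSp_i) κ (-κ) := by
  have hJ0 : R.J = 0 := by
    rw [hJ]
    ext a b
    unfold rmul
    rw [Matrix.of_apply]
    have h0 : (CoefU.iu : ℍ[ℝ]) = 0 := rfl
    rw [h0, mul_zero, zero_mul]
    have h1 : rl (0 : ℍ[ℝ]) = 0 := map_zero _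
    rw [h1]
    change (if a.1 = b.1 then (0 : ℝ) else 0) = 0
    exact ite_self _
  obtain ⟨c0, hc0⟩ : ∃ c0 : cl ℍ[ℝ] ι, c0 = ⟨s, GoodSp_mem hs hss⟩ := ⟨_, rfl⟩
  have hp0 : R.ph c0 = lmul s := by rw [hph, hc0]
  have hsk := R.skew c0
  have hQ : 0 < Qf (cl ℍ[ℝ] ι) c0 c0 := by
    rw [R.qf]
    have h1 : ∑ a, ∑ b, R.ph c0 a b * R.ph c0 a b =
        Fintype.card (ι × Fin (Coef.m ℍ[ℝ])) := by
      have h2 := GoodSp_ip (R.ph c0) (R.ph c0) hsk
      rw [hp0, ← lmul_mul, hss, map_neg, lmul_one, Matrix.trace_neg, Matrix.trace_one] at h2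
      rw [hp0]
      linarith
    rw [h1]
    have h3 : (0 : ℝ) < Fintype.card (ι × Fin (Coef.m ℍ[ℝ])) := by
      have h4 : Coef.m ℍ[ℝ] = 4 := rfl
      rw [Fintype.card_prod, Fintype.card_fin, h4]
      have : 0 < Fintype.card ι := Fintype.card_pos
      exact_mod_cast (by omega : 0 < Fintype.card ι * 4)
    have h5 := R.n1
    have h6 : 0 < R.n := by linarith
    positivity
  obtain ⟨ν, hν⟩ : ∃ ν : ℝ, ν = Qf (cl ℍ[ℝ] ι) c0 c0 := ⟨_, rfl⟩
  rw [← hν] at hQ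
  obtain ⟨κ, hκ⟩ : ∃ κ : ℝ, κ = 1 / √ν := ⟨_, rfl⟩
  have hsq : 0 < √ν := Real.sqrt_pos.2 hQ
  have hκ0 : κ ≠ 0 := by
    rw [hκ]
    positivity
  have hκν : κ * (κ * ν) = 1 := by
    rw [hκ]
    have := Real.mul_self_sqrt hQ.le
    field_simp
    rw [sq, this]
  have hsT := GoodSp_ST hs hss
  have hS2 := GoodSp_SS (ι := ι) hss
  refine ⟨κ • c0, κ, hsT, hS2, ?_, ?_, GoodSp_FT, Or.inr GoodSp_Fo, ?_, GoodSp_SF s, Or.inl ?_,
    ?_, ?_, ?_⟩
  · intro k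
    rw [hf]
    rcases GoodSp_bs k with h | h | h
    · left
      rw [h]
      exact ⟨GoodSp_SF s, GoodSp_FT⟩
    · right
      rw [h]
      exact GoodSp_SG s GoodSp_ij
    · right
      rw [h]
      exact GoodSp_SG s GoodSp_ik
  · left
    rw [hJ0, Matrix.mul_zero, Matrix.zero_mul]
  · intro x
    rw [hph]
    exact (lmul_rmul _ _).symm
  · rw [map_smul, map_smul, LinearMap.smul_apply, ← hν, smul_eq_mul, smul_eq_mul]
    exact hκν
  · rw [map_smul, hp0, Matrix.add_mul, Matrix.sub_mul, GoodSp_SJ, Matrix.one_mul]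
    module
  · intro x _
    rw [hJ0, Matrix.mul_zero, Matrix.mul_zero, Matrix.trace_zero]
    exact ⟨rfl, rfl⟩
  · intro x hx k
    have hxc : trace (lmul s * R.ph x) = 0 := by
      rw [GoodSp_ip _ _ (R.skew x), ← hp0, neg_eq_zero]
      rw [map_smul, smul_eq_mul] at hx
      have h2 : Qf (cl ℍ[ℝ] ι) x c0 = 0 := by
        rcases mul_eq_zero.1 hx with h | h
        · exact absurd h hκ0
        · exact h
      rw [R.qf] at h2
      have h5 := R.n1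
      have h6 : R.n ≠ 0 := by linarith
      rcases mul_eq_zero.1 h2 with h | h
      · exact absurd h h6
      · rw [← h]
        refine Finset.sum_congr rfl fun a _ => Finset.sum_congr rfl fun b _ => mul_comm _ _
    have key : ∀ u : ℍ[ℝ], GoodSp_i * u = -(u * GoodSp_i) →
        trace (GoodSp_S s * R.ph x * rmul ι u) = 0 := by
      intro u hu
      refine GoodSp_tr1 ?_
      rw [Matrix.mul_assoc, hph, lmul_rmul, ← Matrix.mul_assoc, GoodSp_SG s hu,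
        Matrix.neg_mul, Matrix.mul_assoc]
    rw [hf]
    rcases GoodSp_bs k with h | h | h
    · rw [h]
      constructor
      · rw [hph]
        exact GoodSp_tr2 x.1 GoodSp_jj GoodSp_ij
      · have h7 : GoodSp_S s * R.ph x * rmul ι GoodSp_i = lmul s * R.ph x := by
          rw [Matrix.mul_assoc, hph, lmul_rmul, ← Matrix.mul_assoc, GoodSp_SJ]
        rw [h7]
        exact hxc
    · rw [h]
      constructor
      · rw [hph]
        refine GoodSp_tr2 x.1 GoodSp_ii' ?_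
        rw [GoodSp_ij, neg_neg]
      · exact key _ GoodSp_ij
    · rw [h]
      constructor
      · rw [hph]
        refine GoodSp_tr2 x.1 GoodSp_ii' ?_
        rw [GoodSp_ik, neg_neg]
      · exact key _ GoodSp_ik

end

theorem good_Sp : ∃ c K : ℝ, 1 ≤ c ∧ 1 ≤ K ∧ ∀ τ eps : ℝ, 0 < τ → 0 < eps →
    ∃ δ : ℝ, 0 < δ ∧ ∀ (ι : Type) [Fintype ι] [DecidableEq ι], 3 ≤ Fintype.card ι →
    1 / δ ≤ Fintype.card ι → ∀ (h : LieSubalgebra ℝ (cl ℍ[ℝ] ι)) (s : Matrix ι ι ℍ[ℝ]),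
      s * sᴴ = 1 → s * s = -1 → (∀ x ∈ h, s * x.1 = x.1 * s) →
      (Module.finrank ℝ h : ℝ) ≤ δ * (Fintype.card ι : ℝ) ^ 2 →
      ∀ G : Set (cl ℍ[ℝ] ι ≃ₗ⁅ℝ⁆ cl ℍ[ℝ] ι), (∀ γ ∈ G, ∃ g : Matrix ι ι ℍ[ℝ], AdU g γ ∧
        g * s = s * g) → GoodAt h G c τ eps K := by
  obtain ⟨c, K, hc, hK, hE⟩ := good_inv (CoefU.mu ℍ[ℝ]) (θ := 1 / 2) (by norm_num)
  refine ⟨c, K, hc, hK, ?_⟩
  intro τ eps hτ heps
  obtain ⟨δ, hδ, hE⟩ := hE τ eps hτ heps
  have hδ' : 0 < min δ (δ ^ 2 / 9) := lt_min hδ (by positivity)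
  refine ⟨min δ (δ ^ 2 / 9), hδ', ?_⟩
  intro ι _ _ hN hNδ' h s hs hss hsh hdim G hG
  obtain ⟨R, hph, hf, hJ, hn⟩ := exists_rp (A := ℍ[ℝ]) hN
  have : Nonempty ι := Fintype.card_pos_iff.1 (by omega)
  have hNδ : 1 / δ ≤ (Fintype.card ι : ℝ) :=
    (one_div_le_one_div_of_le hδ' (min_le_left _ _)).trans hNδ'
  have hsm : SmallR R h δ := by
    refine small_cl ℍ[ℝ] hδ hN R hn (hdim.trans ?_)
    exact mul_le_mul_of_nonneg_right (min_le_right _ _) (sq_nonneg _)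
  have hm : (1 : ℝ) ≤ Coef.m ℍ[ℝ] := by exact_mod_cast Coef.m_pos (A := ℍ[ℝ])
  have hcard : (Fintype.card (ι × Fin (Coef.m ℍ[ℝ])) : ℝ) = Fintype.card ι * Coef.m ℍ[ℝ] := by
    rw [Fintype.card_prod, Fintype.card_fin]
    push_cast
    rfl
  have hN3 : (3 : ℝ) ≤ Fintype.card ι := by exact_mod_cast hN
  have hle : (Fintype.card ι : ℝ) ≤ Fintype.card (ι × Fin (Coef.m ℍ[ℝ])) := by
    rw [hcard]
    nlinarith
  obtain ⟨c', κ, hinv⟩ := GoodSp_inv R hph hf hJ hs hss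
  refine hE (cl ℍ[ℝ] ι) (ι × Fin (Coef.m ℍ[ℝ])) R (GoodSp_S s) c' (rmul ι GoodSp_i) κ (-κ) hinv
    (hNδ.trans hle) ?_ (Or.inr (GoodSp_trS s)) h ?_ hsm G ?_
  · rw [GoodSp_trS, abs_zero]
    norm_num
  · intro y hy
    rw [hph]
    exact GoodSp_Sl (hsh y hy)
  · intro γ hγ
    obtain ⟨g, ⟨hg, hg', hgγ⟩, hgs⟩ := hG γ hγ
    refine ⟨lmul g, ?_, GoodSp_Sl hgs.symm, (lmul_rmul g _).symm, ?_⟩
    · rw [← lmul_conjT, ← lmul_mul, hg, lmul_one]
    · intro x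
      rw [hph, hph, hgγ, lmul_mul, lmul_mul, lmul_conjT]

end Pool.Agent.EinV
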