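import Pool.Agent.EinV.GoodI

/-!
# Good base metrics: trivial isotropy

`good_zero`: `h = ⊥`: every automorphism fixes `h` and commutes with `S = 4`, so `β` commutes with all `clConj g`, in particular with those of `exists_exp` (with `h = ⊤`), hence with `ad x`
(derivative at `t = 0`; `R.ph` is injective).  Then `TH2 1 β z z = - trace (ad z ad z β) = - trace (ad z ad (β z)) = Qf (β z) z`, and
`ellQG 1 1 0 (1/4) β z = (1/2) TH2 1 β z z - (1/4) Qf (β z) z = (1/4) Qf (β z) z` (`TH2_cyc`): gap with `K = 4`.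
-/

namespace Pool.Agent.EinV

open Matrix Pool.Agent.EStab Pool.Agent.EinS Pool.Agent.SmIso Pool.Agent.EinU Pool.Agent.EinG

attribute [local instance 100] LieRing.ofAssociativeRing

section

variable {E : Type} [NormedRing E] [NormedAlgebra ℝ E] [FiniteDimensional ℝ E]

/-- The derivative of a one parameter group of conjugations. -/
private theorem GoodZ_derE (X : E) (B : E →L[ℝ] E) (Y Z : E)
    (h : ∀ t : ℝ, B (NormedSpace.exp (t • X) * Y * NormedSpace.exp (t • (-X))) =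
      NormedSpace.exp (t • X) * Z * NormedSpace.exp (t • (-X))) :
    B (X * Y - Y * X) = X * Z - Z * X := by
  have : CompleteSpace E := FiniteDimensional.complete ℝ E
  have hd : ∀ W : E, HasDerivAt (fun t : ℝ =>
      NormedSpace.exp (t • X) * W * NormedSpace.exp (t • (-X))) (X * W - W * X) 0 := by
    intro W
    have h1 := hasDerivAt_exp_smul_const (𝕂 := ℝ) X (0 : ℝ)
    have h2 := hasDerivAt_exp_smul_const (𝕂 := ℝ) (-X) (0 : ℝ)
    have h3 := (h1.mul_const W).mul h2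
    refine h3.congr_deriv ?_
    rw [zero_smul, zero_smul, NormedSpace.exp_zero]
    noncomm_ring
  have h4 : HasDerivAt (fun t : ℝ =>
      B (NormedSpace.exp (t • X) * Y * NormedSpace.exp (t • (-X)))) (B (X * Y - Y * X)) 0 :=
    (B.hasFDerivAt (x := NormedSpace.exp ((0 : ℝ) • X) * Y *
      NormedSpace.exp ((0 : ℝ) • (-X)))).comp_hasDerivAt 0 (hd Y)
  have h5 : HasDerivAt (fun t : ℝ =>
      B (NormedSpace.exp (t • X) * Y * NormedSpace.exp (t • (-X)))) (X * Z - Z * X) 0 := by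
    have h6 : (fun t : ℝ => B (NormedSpace.exp (t • X) * Y * NormedSpace.exp (t • (-X)))) =
        fun t : ℝ => NormedSpace.exp (t • X) * Z * NormedSpace.exp (t • (-X)) := funext h
    rw [h6]
    exact hd Z
  exact h4.unique h5

end

section

variable {n : Type} [Fintype n] [DecidableEq n]

open scoped Matrix.Norms.Operator in
private theorem GoodZ_der (X : Matrix n n ℝ) (hX : Xᵀ = -X)
    (B : Matrix n n ℝ →ₗ[ℝ] Matrix n n ℝ) (Y Z : Matrix n n ℝ)
    (h : ∀ t : ℝ, B (NormedSpace.exp (t • X) * Y * (NormedSpace.exp (t • X))ᵀ) =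
      NormedSpace.exp (t • X) * Z * (NormedSpace.exp (t • X))ᵀ) :
    B (X * Y - Y * X) = X * Z - Z * X := by
  have hT : ∀ t : ℝ, (NormedSpace.exp (t • X))ᵀ = NormedSpace.exp (t • (-X)) := by
    intro t
    rw [← Matrix.exp_transpose, Matrix.transpose_smul, hX]
  have h' : ∀ t : ℝ, B (NormedSpace.exp (t • X) * Y * NormedSpace.exp (t • (-X))) =
      NormedSpace.exp (t • X) * Z * NormedSpace.exp (t • (-X)) := by
    intro t
    rw [← hT]
    exact h t
  exact GoodZ_derE X (LinearMap.toContinuousLinearMap B) Y Z h'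

end

section

variable {A : Type} [Ring A] [StarRing A] [Algebra ℝ A] [Cen A] [Coef A] [CoefU A]
  {ι : Type} [Fintype ι] [DecidableEq ι]

/-- An operator which commutes with the automorphisms commutes with the derivations. -/
private theorem GoodZ_ad (hN : 3 ≤ Fintype.card ι) (β : cl A ι →ₗ[ℝ] cl A ι)
    (hβ : ∀ γ : cl A ι ≃ₗ⁅ℝ⁆ cl A ι, ∀ x, β (γ x) = γ (β x)) (x y : cl A ι) :
    β ⁅x, y⁆ = ⁅x, β y⁆ := by
  obtain ⟨R, hph, -, -, -⟩ := exists_rp (A := A) (ι := ι) hN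
  have hinj : ∀ u v : cl A ι, R.ph u = R.ph v → u = v := by
    intro u v huv
    rw [hph, hph, ← sub_eq_zero, ← map_sub] at huv
    exact Subtype.ext (sub_eq_zero.1 (lmul_inj huv))
  let g : Matrix (ι × Fin (Coef.m A)) (ι × Fin (Coef.m A)) ℝ →ₗ[ℝ] cl A ι :=
    { toFun := fun z => ∑ a, ∑ b, z a b • R.e a b
      map_add' := fun z z' => by
        simp only [Matrix.add_apply, add_smul, Finset.sum_add_distrib]
      map_smul' := fun c z => by
        simp only [Matrix.smul_apply, smul_eq_mul, mul_smul, Finset.smul_sum, RingHom.id_apply] }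
  have hg : ∀ z : cl A ι, g (R.ph z) = z := fun z => (R.exp z).symm
  let B : Matrix (ι × Fin (Coef.m A)) (ι × Fin (Coef.m A)) ℝ →ₗ[ℝ]
      Matrix (ι × Fin (Coef.m A)) (ι × Fin (Coef.m A)) ℝ := R.ph ∘ₗ β ∘ₗ g
  have hB : ∀ z : cl A ι, B (R.ph z) = R.ph (β z) := by
    intro z
    change R.ph (β (g (R.ph z))) = _
    rw [hg]
  have hbr : ∀ z w : cl A ι, R.ph ⁅z, w⁆ = R.ph z * R.ph w - R.ph w * R.ph z := by
    intro z w
    rw [hph, hph, hph, ← lmul_mul, ← lmul_mul, ← map_sub]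
    rfl
  have hskew : (lmul x.1)ᵀ = -lmul x.1 := by
    rw [← hph]
    exact R.skew x
  have hmain := GoodZ_der (lmul x.1) hskew B (R.ph y) (R.ph (β y)) (by
    intro t
    obtain ⟨u, hu1, hu2, hu3, -⟩ := exists_exp (A := A) (h := (⊤ : LieSubalgebra ℝ (cl A ι)))
      (x := x) (LieSubalgebra.mem_top x) t
    have h1 : ∀ w : cl A ι, R.ph (clConj u hu1 hu2 w) =
        NormedSpace.exp (t • lmul x.1) * R.ph w * (NormedSpace.exp (t • lmul x.1))ᵀ := by
      intro w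
      rw [hph, hph, clConj_apply, lmul_mul, lmul_mul, lmul_conjT, hu3]
    rw [← h1, ← h1, hB, hβ])
  apply hinj
  rw [← hB, hbr, hbr, hph x]
  exact hmain

end

variable (A : Type) [Ring A] [StarRing A] [Algebra ℝ A] [Cen A] [Coef A] [CoefU A]

theorem good_zero : ∃ c K : ℝ, 1 ≤ c ∧ 1 ≤ K ∧ ∀ τ eps : ℝ, 0 < τ → 0 < eps →
    ∀ (ι : Type) [Fintype ι] [DecidableEq ι], 3 ≤ Fintype.card ι →
    ∀ G : Set (cl A ι ≃ₗ⁅ℝ⁆ cl A ι), (∀ γ ∈ G, ∃ g : Matrix ι ι A, AdU g γ) →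
      GoodAt (⊥ : LieSubalgebra ℝ (cl A ι)) G c τ eps K := by
  refine ⟨4, 1, by norm_num, le_refl _, ?_⟩
  intro τ eps hτ heps ι _ _ hN G hG
  have hcomp : CompactSemisimple (cl A ι) := cl_comp hN
  have hnn : ∀ x : cl A ι, 0 ≤ Qf (cl A ι) x x := Qf_nonneg hcomp
  have hS : ∀ x : cl A ι, ((4 : ℝ) • (LinearMap.id : cl A ι →ₗ[ℝ] cl A ι)) x = (4 : ℝ) • x :=
    fun x => rfl
  have hT : ∀ x : cl A ι, ((1 / 4 : ℝ) • (LinearMap.id : cl A ι →ₗ[ℝ] cl A ι)) x =
      (1 / 4 : ℝ) • x := fun x => rfl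
  have hfix : ∀ γ : cl A ι ≃ₗ⁅ℝ⁆ cl A ι, FixS (⊥ : LieSubalgebra ℝ (cl A ι))
      ((4 : ℝ) • (LinearMap.id : cl A ι →ₗ[ℝ] cl A ι)) γ := by
    intro γ
    refine ⟨fun y hy => ?_, fun x => ?_⟩
    · rw [LieSubalgebra.mem_bot] at hy
      rw [hy, map_zero]
    · rw [hS, hS, map_smul]
  -- an operator in the class commutes with the derivations
  have had : ∀ β : cl A ι →ₗ[ℝ] cl A ι, ClsG (⊥ : LieSubalgebra ℝ (cl A ι)) G
      ((4 : ℝ) • (LinearMap.id : cl A ι →ₗ[ℝ] cl A ι)) β → ∀ x y, β ⁅x, y⁆ = ⁅x, β y⁆ :=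
    fun β hβ => GoodZ_ad hN β fun γ x => hβ.2 γ (Or.inr (hfix γ)) x
  have hTHa : ∀ (a : ℝ) (U : cl A ι →ₗ[ℝ] cl A ι) (x : cl A ι),
      TH2 (a • (LinearMap.id : cl A ι →ₗ[ℝ] cl A ι)) U x x =
        a * TH2 (LinearMap.id : cl A ι →ₗ[ℝ] cl A ι) U x x := by
    intro a U x
    unfold TH2
    rw [LinearMap.smul_comp, LinearMap.comp_smul, map_smul, smul_eq_mul]
    ring
  have hTHb : ∀ (a : ℝ) (U V : cl A ι →ₗ[ℝ] cl A ι) (x : cl A ι),
      TH2 V (a • U) x x = a * TH2 V U x x := by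
    intro a U V x
    unfold TH2
    rw [LinearMap.comp_smul, LinearMap.comp_smul, LinearMap.comp_smul, map_smul, smul_eq_mul]
    ring
  have hkill : ∀ x : cl A ι, TH2 (LinearMap.id : cl A ι →ₗ[ℝ] cl A ι)
      (LinearMap.id : cl A ι →ₗ[ℝ] cl A ι) x x = Qf (cl A ι) x x := by
    intro x
    rw [Qf_apply]
    rfl
  have hTHβ : ∀ β : cl A ι →ₗ[ℝ] cl A ι, ClsG (⊥ : LieSubalgebra ℝ (cl A ι)) G
      ((4 : ℝ) • (LinearMap.id : cl A ι →ₗ[ℝ] cl A ι)) β → ∀ x,
      TH2 (LinearMap.id : cl A ι →ₗ[ℝ] cl A ι) β x x = Qf (cl A ι) (β x) x := by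
    intro β hβ x
    have h1 := had β hβ
    have h2 : (LieAlgebra.ad ℝ (cl A ι) x : cl A ι →ₗ[ℝ] cl A ι) ∘ₗ β =
        (LieAlgebra.ad ℝ (cl A ι) (β x) : cl A ι →ₗ[ℝ] cl A ι) := by
      ext y : 1
      change ⁅x, β y⁆ = ⁅β x, y⁆
      rw [← h1, ← lie_skew, map_neg, h1, lie_skew]
    rw [Qf_symm, Qf_apply]
    unfold TH2
    rw [LinearMap.id_comp, h2]
    rfl
  have hz : ∀ β : cl A ι →ₗ[ℝ] cl A ι, ∀ x,
      TH2 ((1 / 4 : ℝ) • (LinearMap.id : cl A ι →ₗ[ℝ] cl A ι)) β x x -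
        TH2 (((1 / 4 : ℝ) • (LinearMap.id : cl A ι →ₗ[ℝ] cl A ι)) ∘ₗ β ∘ₗ
          ((1 / 4 : ℝ) • (LinearMap.id : cl A ι →ₗ[ℝ] cl A ι)))
          ((4 : ℝ) • (LinearMap.id : cl A ι →ₗ[ℝ] cl A ι)) x x = 0 := by
    intro β x
    have h1 : ((1 / 4 : ℝ) • (LinearMap.id : cl A ι →ₗ[ℝ] cl A ι)) ∘ₗ β ∘ₗ
        ((1 / 4 : ℝ) • (LinearMap.id : cl A ι →ₗ[ℝ] cl A ι)) = (1 / 16 : ℝ) • β := by
      rw [LinearMap.smul_comp, LinearMap.comp_smul, LinearMap.comp_id, LinearMap.id_comp,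
        smul_smul]
      norm_num
    rw [h1, TH2_cyc ((1 / 16 : ℝ) • β), hTHa, hTHa, hTHb]
    ring
  refine ⟨(4 : ℝ) • LinearMap.id, (1 / 4 : ℝ) • LinearMap.id, 0, 0, ?_⟩
  constructor
  case comp => exact hcomp
  case symS =>
    intro x y
    rw [hS, hS, map_smul, map_smul, LinearMap.smul_apply]
  case symT =>
    intro x y
    rw [hT, hT, map_smul, map_smul, LinearMap.smul_apply]
  case symP =>
    intro x y
    rw [LinearMap.zero_apply, LinearMap.zero_apply, map_zero, map_zero, LinearMap.zero_apply]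
  case symD =>
    intro x y
    rw [LinearMap.zero_apply, LinearMap.zero_apply, map_zero, map_zero, LinearMap.zero_apply]
  case ST =>
    intro x
    rw [hT, hS, smul_smul]
    norm_num
  case TS =>
    intro x
    rw [hT, hS, smul_smul]
    norm_num
  case c1 => norm_num
  case t0 => exact hτ.le
  case e0 => exact heps.le
  case K1 => exact le_refl _
  case loS =>
    intro x
    rw [hS, map_smul, LinearMap.smul_apply, smul_eq_mul]
    nlinarith [hnn x]
  case hiS =>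
    intro x
    rw [hS, map_smul, LinearMap.smul_apply, smul_eq_mul]
  case loT =>
    intro x
    rw [hT, map_smul, LinearMap.smul_apply, smul_eq_mul]
    nlinarith [hnn x]
  case hiT =>
    intro x
    rw [hT, map_smul, LinearMap.smul_apply, smul_eq_mul]
    nlinarith [hnn x]
  case bdD =>
    intro x
    rw [LinearMap.zero_apply, map_zero, LinearMap.zero_apply, abs_zero]
    nlinarith [hnn x]
  case pp2 =>
    intro x
    rfl
  case Spp =>
    intro x
    rw [LinearMap.zero_apply, LinearMap.zero_apply, map_zero]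
  case Dpp =>
    intro x
    rw [LinearMap.zero_apply, LinearMap.zero_apply]
  case SD =>
    intro x
    rw [LinearMap.zero_apply, LinearMap.zero_apply, map_zero]
  case hpp =>
    intro y _
    rfl
  case et =>
    intro n b hb _ x
    have hb0 : ∀ i, b i = 0 := fun i => (LieSubalgebra.mem_bot _).1 (hb i)
    have h0 : ∀ F : cl A ι →ₗ[ℝ] cl A ι, ∑ i, Qf (cl A ι) ⁅F (b i), x⁆ ⁅F (b i), x⁆ = 0 := by
      intro F
      refine Finset.sum_eq_zero fun i _ => ?_
      rw [hb0 i, map_zero, zero_lie, map_zero]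
    have hq : 0 ≤ τ ^ 2 * Qf (cl A ι) x x := mul_nonneg (sq_nonneg _) (hnn x)
    refine ⟨?_, ?_, ?_⟩
    · exact (h0 LinearMap.id).le.trans hq
    · exact (h0 _).le.trans hq
    · exact (h0 _).le.trans hq
  case uts =>
    intro x
    rw [hTHa, hTHb, hkill, LinearMap.zero_apply, map_zero, LinearMap.zero_apply]
    ring
  case la => norm_num
  case lac => norm_num
  case la' => norm_num
  case base =>
    intro x
    have h1 : (1 / 2 * Qf (cl A ι) (((4 : ℝ) • (LinearMap.id : cl A ι →ₗ[ℝ] cl A ι))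
        ((0 : cl A ι →ₗ[ℝ] cl A ι) (((4 : ℝ) • (LinearMap.id : cl A ι →ₗ[ℝ] cl A ι)) x))) x +
        1 / 4 * TH2 ((4 : ℝ) • (LinearMap.id : cl A ι →ₗ[ℝ] cl A ι))
          ((4 : ℝ) • (LinearMap.id : cl A ι →ₗ[ℝ] cl A ι)) x x -
        1 * Qf (cl A ι) (((4 : ℝ) • (LinearMap.id : cl A ι →ₗ[ℝ] cl A ι)) x) x) = 0 := by
      rw [LinearMap.zero_apply, map_zero, map_zero, LinearMap.zero_apply, hTHa, hTHb, hkill, hS,
        map_smul, LinearMap.smul_apply, smul_eq_mul]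
      ring
    rw [h1, abs_zero]
    exact mul_nonneg heps.le (hnn x)
  case inv =>
    intro γ _ x
    rw [hS, hS, map_smul]
  case offP =>
    intro v _
    rfl
  case off =>
    intro v _ u
    rw [LinearMap.zero_apply, map_zero, map_zero]
  case cp =>
    intro β _ x
    rw [LinearMap.zero_apply, LinearMap.zero_apply, map_zero]
  case z =>
    intro β _ x
    rw [hz, hz]
  case gap =>
    intro β hβ s hs z
    have h1 : ellQG ((4 : ℝ) • (LinearMap.id : cl A ι →ₗ[ℝ] cl A ι))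
        ((1 / 4 : ℝ) • (LinearMap.id : cl A ι →ₗ[ℝ] cl A ι)) 0 1 β z = Qf (cl A ι) (β z) z := by
      unfold ellQG
      rw [hz, hTHa, hTHβ β hβ, LinearMap.zero_apply, map_zero, map_zero]
      ring
    have h2 := hs z
    rw [h1] at h2
    rw [one_mul]
    exact h2

end Pool.Agent.EinV
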