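import Pool.Agent.EinV.ExpT
import Pool.Agent.EinV.Asm
import Pool.Agent.EinV.GoodIrr
import Pool.Agent.EinV.GoodZ
import Pool.Agent.EinV.GoodSO
import Pool.Agent.EinV.GoodSp
import Pool.Agent.EinV.GoodSU

/-!
# Good base metrics for the classical groups

`good_any`: if `NoLarge`, proceed as in `noLarge_cl` (`Asm.lean`, copy the private lemmas): there is a preserved subspace `W` of medium dimension (`good_I`; `exp (t y)` preserves `W`), or `h`
and `Γ` are irreducible (`good_irr`; a subspace preserved by all `exp (t y)` is preserved by `y`: derivative at `t = 0`, see `inv_of_norm`).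
If `HasStructure`: `good_SO`, `good_Sp`, `good_SU` (cases on `F`); `exp (t y)` commutes with the structure (via `lmul`).
If `N < 1 / δ`, then `finrank h < 1` for `ε = δ ^ 2`, say, so `h = ⊥`, and `good_zero`.  All constants are maxima or minima (`good_mono`).
-/

namespace Pool.Agent.EinV

open Matrix Pool.Agent.EStab Pool.Agent.EinS Pool.Agent.SmIso Pool.Agent.EinU Pool.Agent.EinG
  Quaternion

attribute [local instance 100] LieRing.ofAssociativeRing

/-- The matrices which give the automorphisms of a factor. -/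
def IsGen {A : Type} [Ring A] [StarRing A] [Algebra ℝ A] [Cen A] [Coef A] {N : ℕ}
    (h : LieSubalgebra ℝ (cl A (Fin N))) (Γ : Set (Matrix (Fin N) (Fin N) A))
    (g : Matrix (Fin N) (Fin N) A) : Prop :=
  g ∈ Γ ∨ ∃ y ∈ h, ∃ t : ℝ, lmul g = NormedSpace.exp (t • lmul y.1)

section

variable {I : Type} [Fintype I] [DecidableEq I]

/-- The matrices which preserve a subspace. -/
private def GoodAny_st (W : Submodule ℝ (I → ℝ)) : Subalgebra ℝ (Matrix I I ℝ) where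
  carrier := {M | ∀ w ∈ W, M *ᵥ w ∈ W}
  mul_mem' := by
    intro a b ha hb w hw
    rw [← Matrix.mulVec_mulVec]
    exact ha _ (hb w hw)
  add_mem' := by
    intro a b ha hb w hw
    rw [Matrix.add_mulVec]
    exact W.add_mem (ha w hw) (hb w hw)
  algebraMap_mem' := by
    intro r w hw
    rw [Matrix.algebraMap_eq_diagonal]
    have : (Matrix.diagonal (algebraMap ℝ (I → ℝ) r)) *ᵥ w = r • w := by
      funext i
      rw [Matrix.mulVec_diagonal]
      rfl
    rw [this]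
    exact W.smul_mem r hw

private theorem GoodAny_exp {W : Submodule ℝ (I → ℝ)} {X : Matrix I I ℝ}
    (h : ∀ w ∈ W, X *ᵥ w ∈ W) (t : ℝ) : ∀ w ∈ W, NormedSpace.exp (t • X) *ᵥ w ∈ W := by
  have hcl : IsClosed ((GoodAny_st W : Subalgebra ℝ (Matrix I I ℝ)) : Set (Matrix I I ℝ)) :=
    Submodule.closed_of_finiteDimensional (Subalgebra.toSubmodule (GoodAny_st W))
  have hX : t • X ∈ GoodAny_st W := Subalgebra.smul_mem _ (show X ∈ GoodAny_st W from h) t
  exact NormedSpace.exp_mem (R := ℝ) hcl hX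

private theorem GoodAny_der {W : Submodule ℝ (I → ℝ)} {X : Matrix I I ℝ} {w : I → ℝ}
    (h : ∀ t : ℝ, NormedSpace.exp (t • X) *ᵥ w ∈ W) : X *ᵥ w ∈ W := by
  by_contra hX
  obtain ⟨φ, h1, h2⟩ := Submodule.exists_le_ker_of_notMem hX
  open scoped Matrix.Norms.Operator in
  have hd := hasDerivAt_exp_smul_const (𝕂 := ℝ) X (0 : ℝ)
  rw [zero_smul, NormedSpace.exp_zero, one_mul] at hd
  let ψ : Matrix I I ℝ →ₗ[ℝ] ℝ := φ ∘ₗ
    { toFun := fun M => M *ᵥ w
      map_add' := fun a b => Matrix.add_mulVec a b w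
      map_smul' := fun r a => Matrix.smul_mulVec r a w }
  have h3 := (LinearMap.toContinuousLinearMap ψ).hasFDerivAt.comp_hasDerivAt (0 : ℝ) hd
  have h4 : (fun t : ℝ => ψ (NormedSpace.exp (t • X))) = fun _ => 0 := by
    funext t
    exact h2 (h t)
  have h5 : HasDerivAt (fun t : ℝ => ψ (NormedSpace.exp (t • X))) (ψ X) 0 := h3
  rw [h4] at h5
  exact h1 (h5.unique (hasDerivAt_const (0 : ℝ) (0 : ℝ)))

end

section

variable {A : Type} [Ring A] [StarRing A] [Algebra ℝ A] [Cen A] [Coef A] [CoefU A]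
  {ι : Type} [Fintype ι] [DecidableEq ι]

private theorem GoodAny_expW {W : Submodule ℝ (ι → A)} {y g : Matrix ι ι A} {t : ℝ}
    (hy : ∀ v ∈ W, y *ᵥ v ∈ W) (hg : lmul g = NormedSpace.exp (t • lmul y)) :
    ∀ v ∈ W, g *ᵥ v ∈ W := by
  intro v hv
  have h1 : ∀ w ∈ W.map (co (ι := ι) (A := A)).toLinearMap,
      lmul y *ᵥ w ∈ W.map (co (ι := ι) (A := A)).toLinearMap := by
    rintro _ ⟨u, hu, rfl⟩
    refine ⟨y *ᵥ u, hy u hu, ?_⟩
    exact co_lmul y u
  have h2 := GoodAny_exp h1 t (co v) ⟨v, hv, rfl⟩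
  rw [← hg, ← co_lmul] at h2
  obtain ⟨u, hu, hu2⟩ := h2
  have h3 : u = g *ᵥ v := (co (ι := ι) (A := A)).injective hu2
  rw [← h3]
  exact hu

private theorem GoodAny_derW {W : Submodule ℝ (ι → A)} {y : Matrix ι ι A} {v : ι → A}
    (h : ∀ t : ℝ, ∃ g : Matrix ι ι A, lmul g = NormedSpace.exp (t • lmul y) ∧ g *ᵥ v ∈ W) :
    y *ᵥ v ∈ W := by
  have h1 : lmul y *ᵥ co v ∈ W.map (co (ι := ι) (A := A)).toLinearMap := by
    refine GoodAny_der fun t => ?_
    obtain ⟨g, hg, hgv⟩ := h t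
    rw [← hg, ← co_lmul]
    exact ⟨_, hgv, rfl⟩
  rw [← co_lmul] at h1
  obtain ⟨u, hu, hu2⟩ := h1
  have h3 : u = y *ᵥ v := (co (ι := ι) (A := A)).injective hu2
  rw [← h3]
  exact hu

end

section

variable {A : Type} [Ring A] [StarRing A] [Algebra ℝ A] [Cen A] [Coef A] {N : ℕ}

/-- The inner product of the coordinates. -/
private noncomputable def GoodAny_B (A : Type) [Ring A] [StarRing A] [Algebra ℝ A] [Cen A]
    [Coef A] (N : ℕ) : LinearMap.BilinForm ℝ (Fin N → A) :=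
  LinearMap.mk₂ ℝ (fun v w => co v ⬝ᵥ co w)
    (fun v v' w => by rw [map_add, add_dotProduct])
    (fun r v w => by rw [map_smul, smul_dotProduct])
    (fun v w w' => by rw [map_add, dotProduct_add])
    (fun r v w => by rw [map_smul, dotProduct_smul])

private theorem GoodAny_B_apply (v w : Fin N → A) : GoodAny_B A N v w = co v ⬝ᵥ co w := rfl

private theorem GoodAny_B_refl : (GoodAny_B A N).IsRefl := by
  intro v w h
  rw [GoodAny_B_apply, dotProduct_comm]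
  exact h

private theorem GoodAny_B_compl (W : Submodule ℝ (Fin N → A)) :
    IsCompl W ((GoodAny_B A N).orthogonal W) := by
  have : Module.Finite ℝ (Fin N → A) := Module.Finite.equiv (co (ι := Fin N) (A := A)).symm
  refine LinearMap.BilinForm.isCompl_orthogonal_of_restrict_nondegenerate GoodAny_B_refl ?_
  have h1 : ∀ v : W, (∀ w : W, (GoodAny_B A N) v.1 w.1 = 0) → v = 0 := by
    intro v hv
    have h1 := hv v
    rw [GoodAny_B_apply] at h1
    have h2 := dotProduct_self_eq_zero.1 h1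
    apply Subtype.ext
    exact (co (ι := Fin N) (A := A)).map_eq_zero_iff.1 h2
  refine ⟨fun v hv => h1 v hv, fun v hv => h1 v fun w => ?_⟩
  rw [GoodAny_B_apply, dotProduct_comm]
  exact hv w

private theorem GoodAny_finrank {W W' : Submodule ℝ (Fin N → A)} (hW : W' ≤ W) :
    Module.finrank ℝ W' + Module.finrank ℝ (W ⊓ (GoodAny_B A N).orthogonal W' :
      Submodule ℝ (Fin N → A)) = Module.finrank ℝ W := by
  have : Module.Finite ℝ (Fin N → A) := Module.Finite.equiv (co (ι := Fin N) (A := A)).symm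
  have h1 := Submodule.finrank_sup_add_finrank_inf_eq W' (W ⊓ (GoodAny_B A N).orthogonal W')
  have h2 : W' ⊓ (W ⊓ (GoodAny_B A N).orthogonal W') = ⊥ := by
    rw [← le_bot_iff]
    refine le_trans ?_ (GoodAny_B_compl W').disjoint.le_bot
    exact inf_le_inf_left _ inf_le_right
  have h3 : W' ⊔ (W ⊓ (GoodAny_B A N).orthogonal W') = W := by
    rw [inf_comm, ← sup_inf_assoc_of_le _ hW, (GoodAny_B_compl W').sup_eq_top, top_inf_eq]
  rw [h2, h3, finrank_bot, add_zero] at h1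
  exact h1.symm

end

section

variable {A : Type} [Ring A] [StarRing A] [Algebra ℝ A] [Cen A] [Coef A] [CoefU A] {N : ℕ}

private theorem GoodAny_perp {h : LieSubalgebra ℝ (Gr A (Fin N))}
    {Γ : Set (Matrix (Fin N) (Fin N) A)} (hΓ : ∀ g ∈ Γ, g * gᴴ = 1 ∧ gᴴ * g = 1)
    {W W' : Submodule ℝ (Fin N → A)} (hW : Preserved h Γ W) (hW' : Preserved h Γ W') :
    Preserved h Γ (W ⊓ (GoodAny_B A N).orthogonal W') := by
  have : Module.Finite ℝ (Fin N → A) := Module.Finite.equiv (co (ι := Fin N) (A := A)).symm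
  refine ⟨fun v hv u => ⟨hW.smul v hv.1 u, ?_⟩, fun x hx v hv => ⟨hW.lie x hx v hv.1, ?_⟩,
    fun g hg v hv => ⟨hW.grp g hg v hv.1, ?_⟩⟩
  · intro w hw
    have h1 := hv.2 (fun i => w i * star u) (hW'.smul w hw (star u))
    change co w ⬝ᵥ co (fun i => v i * u) = 0
    have h2 : co (fun i => w i * star u) ⬝ᵥ co v = 0 := h1
    rw [co_rmul, ← rmul_T, Matrix.mulVec_transpose, ← Matrix.dotProduct_mulVec] at h2
    rw [co_rmul]
    exact h2
  · intro w hw
    have h2 : co (x.mat *ᵥ w) ⬝ᵥ co v = 0 := hv.2 _ (hW'.lie x hx w hw)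
    change co w ⬝ᵥ co (x.mat *ᵥ v) = 0
    have h3 : (lmul x.mat)ᵀ = -lmul x.mat := by
      rw [← lmul_conjT]
      have h4 : (x.mat)ᴴ = -x.mat := x.2.1
      rw [h4, map_neg]
    rw [co_lmul, ← neg_eq_zero, ← neg_dotProduct, ← Matrix.neg_mulVec, ← h3,
      Matrix.mulVec_transpose, ← Matrix.dotProduct_mulVec] at h2
    rw [co_lmul]
    exact h2
  · intro w hw
    change co w ⬝ᵥ co (g *ᵥ v) = 0
    obtain ⟨w', hw', hww⟩ : ∃ w' ∈ W', g *ᵥ w' = w := by
      let gl : (Fin N → A) →ₗ[ℝ] (Fin N → A) :=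
        { toFun := fun v => g *ᵥ v
          map_add' := fun v w => Matrix.mulVec_add _ _ _
          map_smul' := fun r v => Matrix.mulVec_smul _ _ _ }
      have hinj : Function.Injective gl := by
        intro v v' hvv
        have h1 : g *ᵥ v = g *ᵥ v' := hvv
        have h2 := congrArg (fun z => gᴴ *ᵥ z) h1
        simpa only [Matrix.mulVec_mulVec, (hΓ g hg).2, Matrix.one_mulVec] using h2
      have hle : W'.map gl ≤ W' := by
        rintro _ ⟨v, hv, rfl⟩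
        exact hW'.grp g hg v hv
      have heq : W'.map gl = W' := by
        apply Submodule.eq_of_le_of_finrank_eq hle
        exact (Submodule.equivMapOfInjective _ hinj W').finrank_eq.symm
      have hw2 : w ∈ W'.map gl := by
        rw [heq]
        exact hw
      obtain ⟨w', hw', hww⟩ := hw2
      exact ⟨w', hw', hww⟩
    have h2 : co w' ⬝ᵥ co v = 0 := hv.2 w' hw'
    have h3 : w' = gᴴ *ᵥ w := by
      rw [← hww, Matrix.mulVec_mulVec, (hΓ g hg).2, Matrix.one_mulVec]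
    rw [h3, co_lmul, lmul_conjT, Matrix.mulVec_transpose, ← Matrix.dotProduct_mulVec] at h2
    rw [co_lmul]
    exact h2

/-- There is a preserved subspace of medium dimension. -/
private def GoodAny_P1 (θ : ℝ) (h : LieSubalgebra ℝ (Gr A (Fin N)))
    (Γ : Set (Matrix (Fin N) (Fin N) A)) : Prop :=
  ∃ W : Submodule ℝ (Fin N → A), Preserved h Γ W ∧
      θ * Module.finrank ℝ (Fin N → A) ≤ Module.finrank ℝ W ∧
      (Module.finrank ℝ W : ℝ) ≤ (1 - θ) * Module.finrank ℝ (Fin N → A)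

/-- There are no preserved subspaces. -/
private def GoodAny_P2 (h : LieSubalgebra ℝ (Gr A (Fin N)))
    (Γ : Set (Matrix (Fin N) (Fin N) A)) : Prop :=
  ∀ W0 : Submodule ℝ (Fin N → A), Preserved h Γ W0 → W0 = ⊥ ∨ W0 = ⊤

private theorem GoodAny_dich {θ : ℝ} (hθ : 0 < θ) (hN : 3 ≤ N)
    {h : LieSubalgebra ℝ (Gr A (Fin N))} {Γ : Set (Matrix (Fin N) (Fin N) A)}
    (hΓ : ∀ g ∈ Γ, g * gᴴ = 1 ∧ gᴴ * g = 1) (hL : NoLarge θ h Γ) :
    GoodAny_P1 (min θ (1 / 2) / 2) h Γ ∨ GoodAny_P2 h Γ := by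
  have : Module.Finite ℝ (Fin N → A) := Module.Finite.equiv (co (ι := Fin N) (A := A)).symm
  have hD : 0 < Module.finrank ℝ (Fin N → A) := by
    rw [(co (ι := Fin N) (A := A)).finrank_eq, Module.finrank_fintype_fun_eq_card,
      Fintype.card_prod, Fintype.card_fin, Fintype.card_fin]
    have := Coef.m_pos (A := A)
    positivity
  have hD' : (0 : ℝ) < Module.finrank ℝ (Fin N → A) := by exact_mod_cast hD
  have hθ1 : min θ (1 / 2) ≤ θ := min_le_left _ _
  have hθ2 : min θ (1 / 2) ≤ 1 / 2 := min_le_right _ _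
  have hθ3 : 0 < min θ (1 / 2) := by positivity
  set θ' := min θ (1 / 2) / 2 with hθ'
  by_cases hex : GoodAny_P1 θ' h Γ
  · exact Or.inl hex
  · right
    have hno : ∀ W : Submodule ℝ (Fin N → A), Preserved h Γ W →
        (Module.finrank ℝ W : ℝ) < θ' * Module.finrank ℝ (Fin N → A) ∨
        (1 - θ') * Module.finrank ℝ (Fin N → A) < Module.finrank ℝ W := by
      intro W hW
      by_contra hcon
      rw [not_or, not_lt, not_lt] at hcon
      exact hex ⟨W, hW, hcon.1, hcon.2⟩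
    have htop : Preserved h Γ (⊤ : Submodule ℝ (Fin N → A)) :=
      ⟨fun _ _ _ => trivial, fun _ _ _ _ => trivial, fun _ _ _ _ => trivial⟩
    have hS : ∃ n : ℕ, ∃ W : Submodule ℝ (Fin N → A), Preserved h Γ W ∧
        Module.finrank ℝ W = n ∧ (1 - θ') * Module.finrank ℝ (Fin N → A) < (n : ℝ) := by
      refine ⟨_, ⊤, htop, rfl, ?_⟩
      rw [finrank_top]
      nlinarith
    classical
    obtain ⟨W, hW, hWn, hWl⟩ := Nat.find_spec hS
    have hmin : ∀ W' : Submodule ℝ (Fin N → A), Preserved h Γ W' →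
        Module.finrank ℝ W' < Module.finrank ℝ W →
        (Module.finrank ℝ W' : ℝ) < θ' * Module.finrank ℝ (Fin N → A) := by
      intro W' hW' hlt
      rcases hno W' hW' with h3 | h3
      · exact h3
      · exfalso
        rw [hWn] at hlt
        exact Nat.find_min hS hlt ⟨W', hW', rfl, h3⟩
    rw [← hWn] at hWl
    have hirr : IrrSub h Γ W := by
      refine ⟨hW, ?_, ?_⟩
      · rintro rfl
        rw [finrank_bot] at hWl
        have : (0 : ℝ) < (1 - θ') * Module.finrank ℝ (Fin N → A) := by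
          apply mul_pos _ hD'
          linarith
        simp only [Nat.cast_zero] at hWl
        linarith
      · intro W' hle hW'
        by_contra hcon
        rw [not_or] at hcon
        have h3 := GoodAny_finrank hle
        have h4 : Module.finrank ℝ W' ≠ 0 := fun h0 => hcon.1 (Submodule.finrank_eq_zero.1 h0)
        have h5 : Module.finrank ℝ W' < Module.finrank ℝ W :=
          Submodule.finrank_lt_finrank_of_lt (lt_of_le_of_ne hle hcon.2)
        have h6 := hmin W' hW' h5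
        have h7 := hmin _ (GoodAny_perp hΓ hW hW') (by omega)
        have h8 : (Module.finrank ℝ W : ℝ) = Module.finrank ℝ W' + Module.finrank ℝ
            (W ⊓ (GoodAny_B A N).orthogonal W' : Submodule ℝ (Fin N → A)) := by
          exact_mod_cast h3.symm
        nlinarith
    have hWtop : W = ⊤ := by
      rcases hL W hirr with h3 | h3
      · exact h3
      · exfalso
        nlinarith
    intro W0 hW0
    have h3 := hirr.2.2 W0 (by rw [hWtop]; exact le_top) hW0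
    rwa [hWtop] at h3

end

/-- The statement for large `N`. -/
private def GoodAny_L (A : Type) [Ring A] [StarRing A] [Algebra ℝ A] [Cen A] [Coef A] [CoefU A]
    (P : ∀ N : ℕ, LieSubalgebra ℝ (cl A (Fin N)) → Set (Matrix (Fin N) (Fin N) A) → Prop) :
    Prop :=
  ∃ c K : ℝ, 1 ≤ c ∧ 1 ≤ K ∧ ∀ τ eps : ℝ,
    0 < τ → 0 < eps → ∃ δ : ℝ, 0 < δ ∧ ∀ N : ℕ, 3 ≤ N → 1 / δ ≤ N →
    ∀ (h : LieSubalgebra ℝ (cl A (Fin N))) (Γ : Set (Matrix (Fin N) (Fin N) A)),
      (∀ g ∈ Γ, g * gᴴ = 1 ∧ gᴴ * g = 1) → (Module.finrank ℝ h : ℝ) ≤ δ * N ^ 2 →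
      P N h Γ →
      ∀ G : Set (cl A (Fin N) ≃ₗ⁅ℝ⁆ cl A (Fin N)), (∀ γ ∈ G, ∃ g, IsGen h Γ g ∧ AdU g γ) →
      (∀ g, IsGen h Γ g → g * gᴴ = 1 → gᴴ * g = 1 → ∃ γ ∈ G, AdU g γ) →
        GoodAt h G c τ eps K

/-- The statement for all `N`. -/
private def GoodAny_A (A : Type) [Ring A] [StarRing A] [Algebra ℝ A] [Cen A] [Coef A] [CoefU A]
    (P : ∀ N : ℕ, LieSubalgebra ℝ (cl A (Fin N)) → Set (Matrix (Fin N) (Fin N) A) → Prop) :
    Prop :=
  ∃ c K : ℝ, 1 ≤ c ∧ 1 ≤ K ∧ ∀ τ eps : ℝ,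
    0 < τ → 0 < eps → ∃ δ : ℝ, 0 < δ ∧ ∀ N : ℕ, 3 ≤ N →
    ∀ (h : LieSubalgebra ℝ (cl A (Fin N))) (Γ : Set (Matrix (Fin N) (Fin N) A)),
      (∀ g ∈ Γ, g * gᴴ = 1 ∧ gᴴ * g = 1) → (Module.finrank ℝ h : ℝ) ≤ δ * N ^ 2 →
      P N h Γ →
      ∀ G : Set (cl A (Fin N) ≃ₗ⁅ℝ⁆ cl A (Fin N)), (∀ γ ∈ G, ∃ g, IsGen h Γ g ∧ AdU g γ) →
      (∀ g, IsGen h Γ g → g * gᴴ = 1 → gᴴ * g = 1 → ∃ γ ∈ G, AdU g γ) →
        GoodAt h G c τ eps K

section

variable {A : Type} [Ring A] [StarRing A] [Algebra ℝ A] [Cen A] [Coef A] [CoefU A]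
  {P Q : ∀ N : ℕ, LieSubalgebra ℝ (cl A (Fin N)) → Set (Matrix (Fin N) (Fin N) A) → Prop}

private theorem GoodAny_or (hP : GoodAny_L A P) (hQ : GoodAny_L A Q) :
    GoodAny_L A (fun N h Γ => P N h Γ ∨ Q N h Γ) := by
  obtain ⟨c1, K1, hc1, hK1, e1⟩ := hP
  obtain ⟨c2, K2, hc2, hK2, e2⟩ := hQ
  refine ⟨max c1 c2, max K1 K2, hc1.trans (le_max_left _ _), hK1.trans (le_max_left _ _),
    fun τ eps hτ he => ?_⟩
  obtain ⟨δ1, hδ1, f1⟩ := e1 τ eps hτ he
  obtain ⟨δ2, hδ2, f2⟩ := e2 τ eps hτ he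
  refine ⟨min δ1 δ2, lt_min hδ1 hδ2, fun N hN hNδ h Γ hΓ hd hPQ G hG1 hG2 => ?_⟩
  have hN2 : (0 : ℝ) ≤ (N : ℝ) ^ 2 := by positivity
  have hδ : 0 < min δ1 δ2 := lt_min hδ1 hδ2
  rcases hPQ with hp | hq
  · exact good_mono (f1 N hN ((one_div_le_one_div_of_le hδ (min_le_left _ _)).trans hNδ) h Γ hΓ
      (hd.trans (mul_le_mul_of_nonneg_right (min_le_left _ _) hN2)) hp G hG1 hG2)
      (le_max_left _ _) (le_max_left _ _)
  · exact good_mono (f2 N hN ((one_div_le_one_div_of_le hδ (min_le_right _ _)).trans hNδ) h Γ hΓ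
      (hd.trans (mul_le_mul_of_nonneg_right (min_le_right _ _) hN2)) hq G hG1 hG2)
      (le_max_right _ _) (le_max_right _ _)

private theorem GoodAny_mono (hP : GoodAny_L A P)
    (h : ∀ N : ℕ, 3 ≤ N → ∀ (h : LieSubalgebra ℝ (cl A (Fin N)))
      (Γ : Set (Matrix (Fin N) (Fin N) A)), (∀ g ∈ Γ, g * gᴴ = 1 ∧ gᴴ * g = 1) →
        Q N h Γ → P N h Γ) : GoodAny_L A Q := by
  obtain ⟨c, K, hc, hK, e⟩ := hP
  refine ⟨c, K, hc, hK, fun τ eps hτ he => ?_⟩
  obtain ⟨δ, hδ, f⟩ := e τ eps hτ he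
  exact ⟨δ, hδ, fun N hN hNδ h' Γ hΓ hd hQ G hG1 hG2 =>
    f N hN hNδ h' Γ hΓ hd (h N hN h' Γ hΓ hQ) G hG1 hG2⟩

private theorem GoodAny_all (hP : GoodAny_L A P) : GoodAny_A A P := by
  obtain ⟨c1, K1, hc1, hK1, e1⟩ := hP
  obtain ⟨c2, K2, hc2, hK2, e2⟩ := good_zero A
  refine ⟨max c1 c2, max K1 K2, hc1.trans (le_max_left _ _), hK1.trans (le_max_left _ _),
    fun τ eps hτ he => ?_⟩
  obtain ⟨δ, hδ, f⟩ := e1 τ eps hτ he
  refine ⟨min δ (δ ^ 2), lt_min hδ (by positivity), fun N hN h Γ hΓ hd hp G hG1 hG2 => ?_⟩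
  have hN2 : (0 : ℝ) ≤ (N : ℝ) ^ 2 := by positivity
  by_cases hNδ : 1 / δ ≤ N
  · exact good_mono (f N hN hNδ h Γ hΓ
      (hd.trans (mul_le_mul_of_nonneg_right (min_le_left _ _) hN2)) hp G hG1 hG2)
      (le_max_left _ _) (le_max_left _ _)
  · push Not at hNδ
    rw [lt_div_iff₀ hδ] at hNδ
    have hN3 : (3 : ℝ) ≤ N := by exact_mod_cast hN
    have hd2 := hd.trans (mul_le_mul_of_nonneg_right (min_le_right δ (δ ^ 2)) hN2)
    have h1 : (Module.finrank ℝ h : ℝ) < 1 := by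
      have h2 : 0 < δ * N := by positivity
      have h3 : (N : ℝ) * δ * (N * δ) < 1 := by nlinarith
      nlinarith
    have : Module.Finite ℝ (cl A (Fin N)) := cl_finite
    have h2 : Module.finrank ℝ h = 0 := by
      have : Module.finrank ℝ h < 1 := by exact_mod_cast h1
      omega
    have h3 : h.toSubmodule = ⊥ := Submodule.finrank_eq_zero.1 h2
    have h4 : h = ⊥ := by
      apply LieSubalgebra.toSubmodule_injective
      rw [h3]
      rfl
    subst h4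
    refine good_mono (e2 τ eps hτ he (Fin N) (by rw [Fintype.card_fin]; exact hN) G ?_)
      (le_max_right _ _) (le_max_right _ _)
    intro γ hγ
    obtain ⟨g, -, hg⟩ := hG1 γ hγ
    exact ⟨g, hg⟩

variable (A)

private theorem GoodAny_case1 {θ : ℝ} (hθ : 0 < θ) :
    GoodAny_L A (fun N h Γ => GoodAny_P1 (A := A) (N := N) θ h Γ) := by
  obtain ⟨c, K, hc, hK, e⟩ := good_I A hθ
  refine ⟨c, K, hc, hK, fun τ eps hτ he => ?_⟩
  obtain ⟨δ, hδ, f⟩ := e τ eps hτ he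
  refine ⟨δ, hδ, fun N hN hNδ h Γ hΓ hd hp G hG1 hG2 => ?_⟩
  obtain ⟨W, hW, hW1, hW2⟩ := hp
  refine f (Fin N) (by rw [Fintype.card_fin]; exact hN) (by rw [Fintype.card_fin]; exact hNδ)
    h W hW.smul hW.lie hW1 hW2 (by rw [Fintype.card_fin]; exact hd) G ?_
  intro γ hγ
  obtain ⟨g, hgen, hg⟩ := hG1 γ hγ
  refine ⟨g, hg, ?_⟩
  rcases hgen with hgen | ⟨y, hy, t, ht⟩
  · exact hW.grp g hgen
  · exact GoodAny_expW (hW.lie y hy) ht

private theorem GoodAny_case2 :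
    GoodAny_L A (fun N h Γ => GoodAny_P2 (A := A) (N := N) h Γ) := by
  obtain ⟨c, K, hc, hK, e⟩ := good_irr A
  refine ⟨c, K, hc, hK, fun τ eps hτ he => ?_⟩
  obtain ⟨δ, hδ, f⟩ := e τ eps hτ he
  refine ⟨δ, hδ, fun N hN hNδ h Γ hΓ hd hp G hG1 hG2 => ?_⟩
  refine f (Fin N) (by rw [Fintype.card_fin]; exact hN) (by rw [Fintype.card_fin]; exact hNδ)
    h (by rw [Fintype.card_fin]; exact hd) G ?_ ?_
  · intro γ hγ
    obtain ⟨g, -, hg⟩ := hG1 γ hγ
    exact ⟨g, hg⟩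
  · intro W hs hg
    refine hp W ⟨hs, ?_, ?_⟩
    · intro x hx v hv
      refine GoodAny_derW fun t => ?_
      obtain ⟨g, hg1, hg2, hg3, -⟩ := exists_exp (h := h) (x := x) hx t
      obtain ⟨γ, hγ, hgγ⟩ := hG2 g (Or.inr ⟨x, hx, t, hg3⟩) hg1 hg2
      exact ⟨g, hg3, hg γ g hγ hgγ v hv⟩
    · intro g hgΓ
      obtain ⟨γ, hγ, hgγ⟩ := hG2 g (Or.inl hgΓ) (hΓ g hgΓ).1 (hΓ g hgΓ).2
      exact hg γ g hγ hgγ

private theorem GoodAny_no {θ : ℝ} (hθ : 0 < θ) :
    GoodAny_L A (fun N h Γ => NoLarge (A := A) (N := N) θ h Γ) :=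
  GoodAny_mono (GoodAny_or (GoodAny_case1 A (θ := min θ (1 / 2) / 2) (by positivity))
    (GoodAny_case2 A)) fun _ hN _ _ hΓ hL => GoodAny_dich hθ hN hΓ hL

end

section

variable {A : Type} [Ring A] [StarRing A] [Algebra ℝ A] [Cen A] [Coef A] [CoefU A]
  {ι : Type} [Fintype ι] [DecidableEq ι]

private theorem GoodAny_comm {s y g : Matrix ι ι A} {t : ℝ} (h : s * y = y * s)
    (hg : lmul g = NormedSpace.exp (t • lmul y)) : g * s = s * g := by
  have h1 : Commute (lmul s) (t • lmul y) := by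
    change lmul s * (t • lmul y) = (t • lmul y) * lmul s
    rw [Matrix.mul_smul, Matrix.smul_mul, ← lmul_mul, ← lmul_mul, h]
  have h2 : lmul s * lmul g = lmul g * lmul s := by
    rw [hg]
    exact h1.exp_right
  rw [← sub_eq_zero]
  apply lmul_inj
  rw [map_sub, lmul_mul, lmul_mul, h2, sub_self]

end

section

variable {ι : Type} [Fintype ι] [DecidableEq ι]

/-- The complex conjugation of the coordinates. -/
private noncomputable def GoodAny_cj (ι : Type) [DecidableEq ι] :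
    Matrix (ι × Fin (Coef.m ℂ)) (ι × Fin (Coef.m ℂ)) ℝ :=
  Matrix.diagonal fun a => if a.2.val = 0 then 1 else -1

private theorem GoodAny_cc : GoodAny_cj ι * GoodAny_cj ι = 1 := by
  unfold GoodAny_cj
  rw [Matrix.diagonal_mul_diagonal, ← Matrix.diagonal_one]
  congr 1
  funext a
  split_ifs <;> norm_num

private theorem GoodAny_key (x : ℂ) (p q : Fin 2) :
    (if p.val = 0 then (1 : ℝ) else -1) * (x * ![1, Complex.I] q * star (![1, Complex.I] p)).re =
      (star x * ![1, Complex.I] q * star (![1, Complex.I] p)).re *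
        (if q.val = 0 then 1 else -1) := by
  fin_cases p <;> fin_cases q <;> simp

private theorem GoodAny_cl (X : Matrix ι ι ℂ) :
    GoodAny_cj ι * lmul X = lmul (X.map star) * GoodAny_cj ι := by
  unfold GoodAny_cj
  ext a b
  rw [Matrix.diagonal_mul, Matrix.mul_diagonal, lmul_apply, lmul_apply]
  exact GoodAny_key _ _ _

private theorem GoodAny_Sl (s X : Matrix ι ι ℂ) :
    lmul s * GoodAny_cj ι * lmul X = lmul (s * X.map star) * GoodAny_cj ι := by
  rw [Matrix.mul_assoc, GoodAny_cl, ← Matrix.mul_assoc, ← lmul_mul]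

private theorem GoodAny_commC {s y g : Matrix ι ι ℂ} {t : ℝ} (h : s * y.map star = y * s)
    (hg : lmul g = NormedSpace.exp (t • lmul y)) : g * s = s * g.map star := by
  have h1 : Commute (lmul s * GoodAny_cj ι) (t • lmul y) := by
    change lmul s * GoodAny_cj ι * (t • lmul y) = (t • lmul y) * (lmul s * GoodAny_cj ι)
    rw [Matrix.mul_smul, Matrix.smul_mul, GoodAny_Sl, h, lmul_mul, Matrix.mul_assoc]
  have h2 : lmul s * GoodAny_cj ι * lmul g = lmul g * (lmul s * GoodAny_cj ι) := by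
    rw [hg]
    exact h1.exp_right
  rw [GoodAny_Sl] at h2
  have h3 : lmul (s * g.map star) = lmul (g * s) := by
    calc lmul (s * g.map star) = lmul (s * g.map star) * GoodAny_cj ι * GoodAny_cj ι := by
          rw [Matrix.mul_assoc, GoodAny_cc, Matrix.mul_one]
      _ = lmul g * (lmul s * GoodAny_cj ι) * GoodAny_cj ι := by rw [h2]
      _ = lmul g * lmul s * (GoodAny_cj ι * GoodAny_cj ι) := by simp only [Matrix.mul_assoc]
      _ = lmul (g * s) := by rw [GoodAny_cc, Matrix.mul_one, lmul_mul]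
  rw [← sub_eq_zero]
  apply lmul_inj
  rw [map_sub, h3, sub_self]

end

private theorem GoodAny_sR :
    GoodAny_L ℝ (fun N h Γ => HasStructure (A := ℝ) (N := N) h Γ) := by
  obtain ⟨c, K, hc, hK, e⟩ := good_SO
  refine ⟨c, K, hc, hK, fun τ eps hτ he => ?_⟩
  obtain ⟨δ, hδ, f⟩ := e τ eps hτ he
  refine ⟨δ, hδ, fun N hN hNδ h Γ hΓ hd hp G hG1 hG2 => ?_⟩
  obtain ⟨s, hs1, hs2, hs3, hs4⟩ := hp
  have hs2' : s * s = -1 := by
    rcases hs2 with h2 | ⟨_, u, hu⟩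
    · exact h2
    · exact absurd rfl hu
  have hs3' : ∀ x ∈ h, s * x.1 = x.1 * s := hs3
  refine f (Fin N) (by rw [Fintype.card_fin]; exact hN) (by rw [Fintype.card_fin]; exact hNδ)
    h s hs1 hs2' hs3' (by rw [Fintype.card_fin]; exact hd) G ?_
  intro γ hγ
  obtain ⟨g, hgen, hg⟩ := hG1 γ hγ
  refine ⟨g, hg, ?_⟩
  rcases hgen with hgen | ⟨y, hy, t, ht⟩
  · exact (hs4 g hgen).symm
  · exact GoodAny_comm (hs3' y hy) ht

private theorem GoodAny_sC :
    GoodAny_L ℂ (fun N h Γ => HasStructure (A := ℂ) (N := N) h Γ) := by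
  obtain ⟨c, K, hc, hK, e⟩ := good_SU
  refine ⟨c, K, hc, hK, fun τ eps hτ he => ?_⟩
  obtain ⟨δ, hδ, f⟩ := e τ eps hτ he
  refine ⟨δ, hδ, fun N hN hNδ h Γ hΓ hd hp G hG1 hG2 => ?_⟩
  obtain ⟨s, hs1, hs2, hs3, hs4⟩ := hp
  have hs2' : s * s.map star = 1 ∨ s * s.map star = -1 := by
    rcases hs2 with h2 | ⟨h2, _⟩
    · exact Or.inr h2
    · exact Or.inl h2
  have hs3' : ∀ x ∈ h, s * x.1.map star = x.1 * s := hs3
  refine f (Fin N) (by rw [Fintype.card_fin]; exact hN) (by rw [Fintype.card_fin]; exact hNδ)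
    h s hs1 hs2' hs3' (by rw [Fintype.card_fin]; exact hd) G ?_
  intro γ hγ
  obtain ⟨g, hgen, hg⟩ := hG1 γ hγ
  refine ⟨g, hg, ?_⟩
  rcases hgen with hgen | ⟨y, hy, t, ht⟩
  · exact (hs4 g hgen).symm
  · exact GoodAny_commC (hs3' y hy) ht

private theorem GoodAny_sH :
    GoodAny_L ℍ[ℝ] (fun N h Γ => HasStructure (A := ℍ[ℝ]) (N := N) h Γ) := by
  obtain ⟨c, K, hc, hK, e⟩ := good_Sp
  refine ⟨c, K, hc, hK, fun τ eps hτ he => ?_⟩
  obtain ⟨δ, hδ, f⟩ := e τ eps hτ he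
  refine ⟨δ, hδ, fun N hN hNδ h Γ hΓ hd hp G hG1 hG2 => ?_⟩
  obtain ⟨s, hs1, hs2, hs3, hs4⟩ := hp
  have hs2' : s * s = -1 := by
    rcases hs2 with h2 | ⟨_, u, hu⟩
    · exact h2
    · exact absurd rfl hu
  have hs3' : ∀ x ∈ h, s * x.1 = x.1 * s := hs3
  refine f (Fin N) (by rw [Fintype.card_fin]; exact hN) (by rw [Fintype.card_fin]; exact hNδ)
    h s hs1 hs2' hs3' (by rw [Fintype.card_fin]; exact hd) G ?_
  intro γ hγ
  obtain ⟨g, hgen, hg⟩ := hG1 γ hγ
  refine ⟨g, hg, ?_⟩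
  rcases hgen with hgen | ⟨y, hy, t, ht⟩
  · exact (hs4 g hgen).symm
  · exact GoodAny_comm (hs3' y hy) ht

theorem good_any (F : Fld) {θ : ℝ} (hθ : 0 < θ) : ∃ c K : ℝ, 1 ≤ c ∧ 1 ≤ K ∧ ∀ τ eps : ℝ,
    0 < τ → 0 < eps → ∃ δ : ℝ, 0 < δ ∧ ∀ N : ℕ, 3 ≤ N →
    ∀ (h : LieSubalgebra ℝ (cl F.T (Fin N))) (Γ : Set (Matrix (Fin N) (Fin N) F.T)),
      (∀ g ∈ Γ, g * gᴴ = 1 ∧ gᴴ * g = 1) → (Module.finrank ℝ h : ℝ) ≤ δ * N ^ 2 →
      NoLarge (A := F.T) θ h Γ ∨ HasStructure (A := F.T) h Γ →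
      ∀ G : Set (cl F.T (Fin N) ≃ₗ⁅ℝ⁆ cl F.T (Fin N)), (∀ γ ∈ G, ∃ g, IsGen h Γ g ∧ AdU g γ) →
      (∀ g, IsGen h Γ g → g * gᴴ = 1 → gᴴ * g = 1 → ∃ γ ∈ G, AdU g γ) →
        GoodAt h G c τ eps K := by
  cases F with
  | R => exact GoodAny_all (GoodAny_or (GoodAny_no ℝ hθ) GoodAny_sR)
  | C => exact GoodAny_all (GoodAny_or (GoodAny_no ℂ hθ) GoodAny_sC)
  | H => exact GoodAny_all (GoodAny_or (GoodAny_no ℍ[ℝ] hθ) GoodAny_sH)

end Pool.Agent.EinV
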