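import Pool.Agent.EinV.Hat
import Pool.Agent.EinV.Ell
import Pool.Agent.EinV.FastC
import Pool.Agent.EinV.FastH
import Pool.Agent.EinV.EtaV

/-!
# Irreducible isotropy groups: the normal metric

Here `S = T = 1`, `D = 0`, `Pp = 0`, `lam = 1 / 4` (`TH2 1 1 x x = Qf x x`: `base` and `uts` are exact), and the class of operators is invariant under an
irreducible group of orthogonal matrices, so that the contraction `rh univ β` is a multiple `r` of the identity.

`gap_irr`: `ellQG 1 1 0 (1/4) β y = (1/2) TH2 1 β y y - (1/4) Qf (β y) y` (`TH2_cyc`), `TH2 1 β y y = SLb 1 (tn β) + FAb 1 (tn β)` (`TH2_exact` with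
`c = 0`, `G = 0`), and `SLb 1 (tn β) (ph y) (ph y) = 2 r Qf y y`.  So `ell β y = r Qf y y + (1/2) FAb - (1/4) Qf (β y) y`.
* Contract: for `|v| = 1`, `y_b = zz v (single b 1)`, sum over all `b` with the factor `1 / n²`: `Qf (β y_b) y_b` gives `r` (`rh_quad`), `Qf y_b y_b` gives
  `1/2 + O(1/M)` (`rh_quad` with `U = 1`, `ker`), `FAb` gives `O(b / M)` (`fast_contr`, `w = wt univ 1 1 1`), `ell` gives `O(s)` (`contr_le`).  Hence `|r| ≤ C (s + b / M)`.
* Let `W` be the operator of `FAb 1 (tn β)` (`exists_FAb`).  `NBL (β - 2 W) (4 (s + |r|))`, so `hs (tn β) ≤ 4 M (s + |r|) + (C / n) hs (tn β)`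
  (`hs_tn`, `hs_FAb`), and `|FAb 1 (tn β) y y| ≤ 2 hs (tn β) mn (ph y)² ≤ (C / n) hs (tn β) Qf y y`.  So `NBL β (C (s + b / M))`; iterate.

`einstein_irrR`: `Γ` = the automorphisms `δ'` with `h.map δ' = h` and `ph (δ' x) = g * ph x * gᵀ` for an orthogonal `g`; `δ' (e a b) = ∑ g a' a * g b' b • e a' b'`, so
`rh univ β` commutes with `g`, and with the `f k` (`e_f`, `com`); it is symmetric.
`et`: `Qf ⁅a, x⁆ ⁅a, x⁆ = n mn (ph a * ph x - ph x * ph a) ^ 2 ≤ 4 n mn (ph a * ph x) ^ 2`, so `τ² = 4 δ`.  `perturb_einsteinG` with `eps = 0`.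
-/

namespace Pool.Agent.EinV

open Matrix Pool.Agent.EStab Pool.Agent.EinS Pool.Agent.SmIso Pool.Agent.EinU Pool.Agent.EinG

section

variable {L : Type} [LieRing L] [LieAlgebra ℝ L] {I : Type} [Fintype I] [DecidableEq I] {m : ℕ}
  (R : Rp L I m)

private theorem Irr_cpt {I : Type} [Fintype I] [DecidableEq I] {m : ℕ} (R : Rp L I m) :
    CompactSemisimple L := by
  intro x hx
  have hn := R.n0
  have h1 := R.Qf_mn x
  have h2 : 0 < mn (R.ph x) ^ 2 := by
    rcases (sq_nonneg (mn (R.ph x))).lt_or_eq with h | h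
    · exact h
    · exfalso
      apply hx
      apply R.inj
      rw [mn_sq] at h
      have h3 := (Finset.sum_eq_zero_iff_of_nonneg (fun a _ =>
        Finset.sum_nonneg fun b _ => sq_nonneg (R.ph x a b))).1 h.symm
      ext a b
      have h4 := (Finset.sum_eq_zero_iff_of_nonneg (fun b _ => sq_nonneg (R.ph x a b))).1
        (h3 a (Finset.mem_univ a)) b (Finset.mem_univ b)
      exact pow_eq_zero_iff two_ne_zero |>.1 h4
  rw [Qf_apply] at h1
  have h3 : 0 < R.n * mn (R.ph x) ^ 2 := mul_pos hn h2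
  linarith

private theorem Irr_nn {I : Type} [Fintype I] [DecidableEq I] {m : ℕ} (R : Rp L I m) (x : L) :
    0 ≤ Qf L x x := Qf_nonneg (Irr_cpt R) x

private theorem Irr_wt : wt (Finset.univ : Finset I) 1 1 1 = fun _ _ => (1 : ℝ) := by
  funext a b
  simp [wt]

private theorem Irr_ell [Module.Finite ℝ L] {β : L →ₗ[ℝ] L} {r : ℝ} (hβ : QSym β)
    (hr : R.rh Finset.univ β = r • (1 : Matrix I I ℝ)) (y : L) :
    ellQG LinearMap.id LinearMap.id 0 (1 / 4) β y = r * Qf L y y +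
      1 / 2 * FAb (fun _ _ => 1) (R.tn β) (R.ph y) (R.ph y) - 1 / 4 * Qf L (β y) y := by
  have hn := R.n0
  have h1 : TH2 LinearMap.id β y y = SLb (fun _ _ => 1) (R.tn β) (R.ph y) (R.ph y) +
      FAb (fun _ _ => 1) (R.tn β) (R.ph y) (R.ph y) := by
    have h := TH2_exact R (w := fun _ _ => (1 : ℝ)) (fun _ _ => rfl) (T := LinearMap.id) (c := 0)
      (G := 0) (fun x a b => by simp) hβ y
    rw [h]
    simp
  have h2 : SLb (fun _ _ => 1) (R.tn β) (R.ph y) (R.ph y) = 2 * r * Qf L y y := by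
    have h3 : ∀ a d, ∑ b, R.tn β a b d b = R.n * (r * (1 : Matrix I I ℝ) a d) := by
      intro a d
      have h4 := congrFun (congrFun hr a) d
      rw [Matrix.smul_apply, smul_eq_mul] at h4
      rw [← h4]
      simp only [Rp.rh, of_apply]
      field_simp
    unfold SLb
    simp only [one_mul, h3]
    rw [R.Qf_mn, mn_sq]
    have h5 : ∀ c a, ∑ d, R.ph y c a * R.ph y c d * (R.n * (r * (1 : Matrix I I ℝ) a d)) =
        r * (R.n * R.ph y c a ^ 2) := by
      intro c a
      rw [Finset.sum_eq_single a]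
      · rw [Matrix.one_apply_eq]
        ring
      · intro d _ hd
        rw [Matrix.one_apply_ne (Ne.symm hd)]
        ring
      · intro h; exact absurd (Finset.mem_univ _) h
    simp only [h5, ← Finset.mul_sum]
    ring
  have h3 : TH2 (LinearMap.id ∘ₗ β ∘ₗ LinearMap.id) LinearMap.id y y =
      TH2 LinearMap.id β y y := by
    rw [LinearMap.id_comp, LinearMap.comp_id]
    exact TH2_cyc _ _ _
  unfold ellQG
  simp only [LinearMap.id_coe, id_eq, LinearMap.zero_apply, map_zero] at h3 ⊢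
  rw [h3, h1, h2]
  ring

private theorem Irr_sq {g : Matrix I I ℝ} (hg : gᵀ * g = 1) :
    ∑ a, ∑ b, g a b ^ 2 = Fintype.card I := by
  have h1 : ∀ b, ∑ a, g a b ^ 2 = 1 := by
    intro b
    have h2 := congrFun (congrFun hg b) b
    rw [Matrix.mul_apply, Matrix.one_apply_eq] at h2
    rw [← h2]
    refine Finset.sum_congr rfl fun a _ => ?_
    rw [Matrix.transpose_apply]
    ring
  rw [Finset.sum_comm]
  simp [h1]

private theorem Irr_fsf (g : Matrix I I ℝ) (p q a b : I) :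
    (g * Matrix.single p q 1 * gᵀ : Matrix I I ℝ) a b = g a p * g b q := by
  rw [Matrix.mul_apply, Finset.sum_eq_single q]
  · rw [Matrix.transpose_apply, Matrix.mul_apply, Finset.sum_eq_single p]
    · simp
    · intro j _ hj
      rw [Matrix.single_apply_of_ne _ _ _ _ _ (fun h => hj h.1.symm), mul_zero]
    · intro h; exact absurd (Finset.mem_univ _) h
  · intro j _ hj
    rw [Matrix.mul_apply, Finset.sum_eq_zero, zero_mul]
    intro i _
    rw [Matrix.single_apply_of_ne _ _ _ _ _ (fun h => hj h.2.symm), mul_zero]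
  · intro h; exact absurd (Finset.mem_univ _) h

private theorem Irr_dim (hM : 18 * ((m : ℝ) + 1) ≤ Fintype.card I) :
    3 / 8 * (R.n * Fintype.card I) ≤ ∑ a, ∑ b, R.ph (R.e a b) a b := by
  have hm : (0 : ℝ) ≤ m := Nat.cast_nonneg m
  obtain ⟨M, hMd⟩ : ∃ M : ℝ, M = (Fintype.card I : ℝ) := ⟨_, rfl⟩
  have hM0 : 0 < M := by rw [hMd]; linarith
  have hJ : ∑ a, ∑ b, R.J a b ^ 2 ≤ M := by
    rcases R.JJ with h | h
    · rw [h]
      simp [hM0.le]
    · rw [Irr_sq h, hMd]
  obtain ⟨F, hF⟩ : ∃ F : Fin m → I → I → ℝ, ∀ k a b,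
      F k a b = R.f k a a * R.f k b b - R.f k a b * R.f k b a := ⟨_, fun _ _ _ => rfl⟩
  have hf : ∀ k, -M ≤ ∑ a, ∑ b, F k a b := by
    intro k
    simp only [hF]
    have h1 : ∑ a, ∑ b, R.f k a a * R.f k b b = (∑ a, R.f k a a) ^ 2 := by
      rw [pow_two, Finset.sum_mul_sum]
    have h2 : ∑ a, ∑ b, R.f k a b * R.f k b a ≤ M := by
      have h3 := Irr_sq (R.fo k)
      have h4 : ∑ a, ∑ b, R.f k b a ^ 2 = (Fintype.card I : ℝ) := by
        rw [Finset.sum_comm]
        exact h3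
      calc ∑ a, ∑ b, R.f k a b * R.f k b a ≤
          ∑ a, ∑ b, (1 / 2 * R.f k a b ^ 2 + 1 / 2 * R.f k b a ^ 2) := by
            refine Finset.sum_le_sum fun a _ => Finset.sum_le_sum fun b _ => ?_
            nlinarith [sq_nonneg (R.f k a b - R.f k b a)]
        _ = M := by
            simp only [Finset.sum_add_distrib, ← Finset.mul_sum]
            rw [h3, h4, hMd]
            ring
    simp only [Finset.sum_sub_distrib]
    rw [h1]
    nlinarith [sq_nonneg (∑ a, R.f k a a)]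
  have hone : ∀ a b : I, (Matrix.single a b (1 : ℝ) : Matrix I I ℝ) a b = 1 := fun a b => by simp
  have htwo : ∀ a b : I, (Matrix.single b a (1 : ℝ) : Matrix I I ℝ) a b =
      (1 : Matrix I I ℝ) a b := by
    intro a b
    by_cases h : a = b
    · subst h
      simp
    · rw [Matrix.one_apply_ne h, Matrix.single_apply_of_ne _ _ _ _ _ (fun h' => h h'.2)]
  have hent : ∀ a b, R.ph (R.e a b) a b = 1 / (2 * ((m : ℝ) + 1)) *
      (1 - (1 : Matrix I I ℝ) a b + ∑ k, F k a b) - 1 / M * R.J a b ^ 2 := by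
    intro a b
    have h1 : ∀ k, (R.f k * (Matrix.single a b 1 - Matrix.single b a 1) * (R.f k)ᵀ :
        Matrix I I ℝ) a b = F k a b := by
      intro k
      rw [Matrix.mul_sub, Matrix.sub_mul, Matrix.sub_apply, Irr_fsf, Irr_fsf, hF]
    rw [R.ker, Matrix.sub_apply, Matrix.smul_apply, Matrix.smul_apply, smul_eq_mul, smul_eq_mul,
      Matrix.add_apply, Matrix.sub_apply, Matrix.sum_apply, hone, htwo, ← hMd,
      Finset.sum_congr rfl fun k _ => h1 k]
    ring
  have hsum : ∑ a, ∑ b, R.ph (R.e a b) a b = 1 / (2 * ((m : ℝ) + 1)) *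
      (M ^ 2 - M + ∑ k, ∑ a, ∑ b, F k a b) - 1 / M * ∑ a, ∑ b, R.J a b ^ 2 := by
    simp only [hent, Finset.sum_sub_distrib, ← Finset.mul_sum, Finset.sum_add_distrib]
    congr 2
    have h1 : ∑ a : I, ∑ b : I, (1 : ℝ) = M ^ 2 := by
      simp only [Finset.sum_const, Finset.card_univ, nsmul_eq_mul, mul_one]
      rw [← hMd]
      ring
    have h2 : ∑ a : I, ∑ b : I, (1 : Matrix I I ℝ) a b = M := by
      have : ∀ a : I, ∑ b : I, (1 : Matrix I I ℝ) a b = 1 := by
        intro a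
        rw [Finset.sum_eq_single a]
        · exact Matrix.one_apply_eq a
        · intro b _ hb
          exact Matrix.one_apply_ne (Ne.symm hb)
        · intro h; exact absurd (Finset.mem_univ _) h
      simp only [this, Finset.sum_const, Finset.card_univ, nsmul_eq_mul, mul_one]
      exact hMd.symm
    rw [h1, h2]
    congr 1
    calc ∑ a, ∑ b, ∑ k, F k a b = ∑ a, ∑ k, ∑ b, F k a b :=
          Finset.sum_congr rfl fun a _ => Finset.sum_comm
      _ = ∑ k, ∑ a, ∑ b, F k a b := Finset.sum_comm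
  have hfs : -(m * M) ≤
      ∑ k : Fin m, ∑ a, ∑ b, F k a b := by
    calc -(m * M) = ∑ _k : Fin m, -M := by
          rw [Finset.sum_const, Finset.card_univ, Fintype.card_fin, nsmul_eq_mul]
          ring
      _ ≤ _ := Finset.sum_le_sum fun k _ => hf k
  have hn : R.n ≤ M / ((m : ℝ) + 1) + 2 := by
    have := (abs_le.1 R.nM).2
    rw [← hMd] at this
    linarith
  rw [hsum, ← hMd]
  rw [← hMd] at hM
  have hp : (0 : ℝ) < (m : ℝ) + 1 := by positivity
  have hJ' : 1 / M * ∑ a, ∑ b, R.J a b ^ 2 ≤ 1 := by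
    calc 1 / M * ∑ a, ∑ b, R.J a b ^ 2 ≤ 1 / M * M :=
          mul_le_mul_of_nonneg_left hJ (by positivity)
      _ = 1 := by field_simp
  obtain ⟨X, hX⟩ : ∃ X, X = ∑ k : Fin m, ∑ a, ∑ b, F k a b := ⟨_, rfl⟩
  obtain ⟨Y, hY⟩ : ∃ Y, Y = 1 / M * ∑ a, ∑ b, R.J a b ^ 2 := ⟨_, rfl⟩
  rw [← hX] at hfs ⊢
  rw [← hY] at hJ' ⊢
  obtain ⟨t, ht⟩ : ∃ t : ℝ, t = M / ((m : ℝ) + 1) := ⟨_, rfl⟩
  have hMt : M = t * ((m : ℝ) + 1) := by rw [ht]; field_simp
  have ht18 : 18 ≤ t := by
    rw [ht, le_div_iff₀ hp]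
    exact hM
  rw [← ht] at hn
  have h1 : 1 / (2 * ((m : ℝ) + 1)) * (M ^ 2 - M + X) ≥ 1 / 2 * (t * M) - 1 / 2 * M := by
    have h2 : 1 / 2 * (t * M) - 1 / 2 * M = 1 / (2 * ((m : ℝ) + 1)) * (M ^ 2 - M + -(m * M)) := by
      rw [ht]
      field_simp
      ring
    rw [h2]
    exact mul_le_mul_of_nonneg_left (by linarith) (by positivity)
  have h2 : 3 / 8 * (R.n * M) ≤ 3 / 8 * ((t + 2) * M) :=
    mul_le_mul_of_nonneg_left (mul_le_mul_of_nonneg_right hn hM0.le) (by norm_num)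
  have hM18 : 18 ≤ M := by nlinarith
  nlinarith

private theorem Irr_r (hM : 18 * ((m : ℝ) + 1) ≤ Fintype.card I) {β : L →ₗ[ℝ] L} {s r C b : ℝ}
    (hs : 0 ≤ s)
    (hr : R.rh Finset.univ β = r • (1 : Matrix I I ℝ))
    (hE : ∀ y, |r * Qf L y y + 1 / 2 * FAb (fun _ _ => 1) (R.tn β) (R.ph y) (R.ph y) -
      1 / 4 * Qf L (β y) y| ≤ s * Qf L y y)
    (hF : ∀ v : I → ℝ, |1 / R.n ^ 2 * ∑ b' : I, FAb (fun _ _ => 1) (R.tn β)
      (R.ph (R.zz v (Pi.single b' 1))) (R.ph (R.zz v (Pi.single b' 1)))| ≤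
        C / Fintype.card I * b * (v ⬝ᵥ v)) :
    |r| ≤ 16 * ((m : ℝ) + 1) * s + 4 * (C / Fintype.card I * b) := by
  have hm : (0 : ℝ) ≤ m := Nat.cast_nonneg m
  have hn := R.n0
  have hM4 : 4 * ((m : ℝ) + 1) ≤ Fintype.card I := by linarith
  have hd := Irr_dim R hM
  obtain ⟨M, hMd⟩ : ∃ M : ℝ, M = (Fintype.card I : ℝ) := ⟨_, rfl⟩
  have hM0 : 0 < M := by rw [hMd]; linarith
  -- each vector
  have h1 : ∀ i : I, |r * (1 / R.n * ∑ b', R.ph (R.e i b') i b') - 1 / 4 * r| ≤
      2 * ((m : ℝ) + 1) * s + 1 / 2 * (C / M * b) := by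
    intro i
    obtain ⟨v, hv⟩ : ∃ v : I → ℝ, v = Pi.single i 1 := ⟨_, rfl⟩
    have hvv : v ⬝ᵥ v = 1 := by rw [hv, single_dotProduct, Pi.single_eq_same, mul_one]
    have k1 := R.contr_le hM4 (E := fun y => r * Qf L y y +
      1 / 2 * FAb (fun _ _ => 1) (R.tn β) (R.ph y) (R.ph y) - 1 / 4 * Qf L (β y) y) hs hE
      Finset.univ v
    have k2 := hF v
    have k3 := R.rh_quad β Finset.univ v
    have k4 := R.rh_quad LinearMap.id Finset.univ v
    have e3 : v ⬝ᵥ (R.rh Finset.univ β *ᵥ v) = r := by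
      rw [hr, Matrix.smul_mulVec, Matrix.one_mulVec, dotProduct_smul, hvv, smul_eq_mul, mul_one]
    have e4 : v ⬝ᵥ (R.rh Finset.univ (LinearMap.id : L →ₗ[ℝ] L) *ᵥ v) =
        1 / R.n * ∑ b', R.ph (R.e i b') i b' := by
      rw [hv, single_dotProduct, one_mul, Matrix.mulVec_single_one]
      rfl
    rw [e3] at k3
    rw [e4] at k4
    have e5 : 1 / R.n ^ 2 * ∑ b' : I, (r * Qf L (R.zz v (Pi.single b' 1)) (R.zz v (Pi.single b' 1)) +
        1 / 2 * FAb (fun _ _ => 1) (R.tn β) (R.ph (R.zz v (Pi.single b' 1)))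
          (R.ph (R.zz v (Pi.single b' 1))) -
        1 / 4 * Qf L (β (R.zz v (Pi.single b' 1))) (R.zz v (Pi.single b' 1))) =
        r * (1 / R.n ^ 2 * ∑ b' : I, Qf L ((LinearMap.id : L →ₗ[ℝ] L) (R.zz v (Pi.single b' 1)))
          (R.zz v (Pi.single b' 1))) +
        1 / 2 * (1 / R.n ^ 2 * ∑ b' : I, FAb (fun _ _ => 1) (R.tn β)
          (R.ph (R.zz v (Pi.single b' 1))) (R.ph (R.zz v (Pi.single b' 1)))) -
        1 / 4 * (1 / R.n ^ 2 * ∑ b' : I, Qf L (β (R.zz v (Pi.single b' 1)))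
          (R.zz v (Pi.single b' 1))) := by
      simp only [Finset.sum_sub_distrib, Finset.sum_add_distrib, ← Finset.mul_sum,
        LinearMap.id_coe, id_eq]
      ring
    rw [← k3, ← k4] at e5
    rw [hvv, mul_one] at k1 k2
    have k5 : |r * (1 / R.n * ∑ b', R.ph (R.e i b') i b') +
        1 / 2 * (1 / R.n ^ 2 * ∑ b' : I, FAb (fun _ _ => 1) (R.tn β)
          (R.ph (R.zz v (Pi.single b' 1))) (R.ph (R.zz v (Pi.single b' 1)))) - 1 / 4 * r| ≤
        2 * (m + 1) * s := by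
      rw [← e5]
      exact k1
    rw [← hMd] at k2
    rw [abs_le] at k2 k5 ⊢
    constructor <;> linarith [k2.1, k2.2, k5.1, k5.2]
  -- the sum
  have h2 : |∑ i : I, (r * (1 / R.n * ∑ b', R.ph (R.e i b') i b') - 1 / 4 * r)| ≤
      M * (2 * ((m : ℝ) + 1) * s + 1 / 2 * (C / M * b)) := by
    refine (Finset.abs_sum_le_sum_abs _ _).trans ?_
    refine (Finset.sum_le_sum fun i _ => h1 i).trans (le_of_eq ?_)
    rw [Finset.sum_const, Finset.card_univ, nsmul_eq_mul, ← hMd]
  have h3 : ∑ i : I, (r * (1 / R.n * ∑ b', R.ph (R.e i b') i b') - 1 / 4 * r) =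
      r * (1 / R.n * (∑ i, ∑ b', R.ph (R.e i b') i b') - 1 / 4 * M) := by
    rw [Finset.sum_sub_distrib, ← Finset.mul_sum, ← Finset.mul_sum, Finset.sum_const,
      Finset.card_univ, nsmul_eq_mul, ← hMd]
    ring
  rw [h3, abs_mul] at h2
  obtain ⟨D, hD⟩ : ∃ D, D = ∑ i, ∑ b', R.ph (R.e i b') i b' := ⟨_, rfl⟩
  rw [← hD] at h2 hd
  rw [← hMd] at hd ⊢
  have h4 : 1 / 8 * M ≤ |1 / R.n * D - 1 / 4 * M| := by
    refine le_trans ?_ (le_abs_self _)
    have : 3 / 8 * M ≤ 1 / R.n * D := by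
      calc 3 / 8 * M = 1 / R.n * (3 / 8 * (R.n * M)) := by field_simp
        _ ≤ 1 / R.n * D := mul_le_mul_of_nonneg_left hd (by positivity)
    linarith
  have h5 : |r| * (1 / 8 * M) ≤ M * (2 * ((m : ℝ) + 1) * s + 1 / 2 * (C / M * b)) :=
    (mul_le_mul_of_nonneg_left h4 (abs_nonneg _)).trans h2
  have h6 : M * (|r| * (1 / 8)) ≤ M * (2 * ((m : ℝ) + 1) * s + 1 / 2 * (C / M * b)) := by
    calc M * (|r| * (1 / 8)) = |r| * (1 / 8 * M) := by ring
      _ ≤ _ := h5
  have h7 := le_of_mul_le_mul_left h6 hM0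
  linarith

private theorem Irr_hs (hM : 16 * ((m : ℝ) + 1) ≤ Fintype.card I) {β : L →ₗ[ℝ] L} (hβ : QSym β)
    {s r : ℝ} (hs0 : 0 ≤ s)
    (hE : ∀ y, |r * Qf L y y + 1 / 2 * FAb (fun _ _ => 1) (R.tn β) (R.ph y) (R.ph y) -
      1 / 4 * Qf L (β y) y| ≤ s * Qf L y y) :
    NBL β ((4 + 64 * ((m : ℝ) + 1)) * (s + |r|)) := by
  have hm : (0 : ℝ) ≤ m := Nat.cast_nonneg m
  have hn := R.n0
  have hM4 : 4 * ((m : ℝ) + 1) ≤ Fintype.card I := by linarith
  obtain ⟨hn1, -, hM0, -⟩ := R.n_bd hM4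
  obtain ⟨M, hMd⟩ : ∃ M : ℝ, M = (Fintype.card I : ℝ) := ⟨_, rfl⟩
  rw [← hMd] at hM hn1 hM0
  have hn8 : 8 ≤ R.n := by
    refine le_trans ?_ hn1
    rw [le_div_iff₀ (by positivity)]
    linarith
  obtain ⟨W, hW, hWF⟩ := R.exists_FAb (w := fun _ _ => (1 : ℝ)) (fun _ _ => rfl) hβ
  have hsr : 0 ≤ s + |r| := add_nonneg hs0 (abs_nonneg r)
  have hV : QSym (β - (2 : ℝ) • W) := by
    intro x y
    simp only [LinearMap.sub_apply, LinearMap.smul_apply, map_sub, map_smul, LinearMap.sub_apply,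
      LinearMap.smul_apply]
    rw [hβ x y, hW x y]
  have hVN : NBL (β - (2 : ℝ) • W) (4 * (s + |r|)) := by
    intro z
    have h1 : Qf L ((β - (2 : ℝ) • W) z) z = 4 * (r * Qf L z z) -
        4 * (r * Qf L z z + 1 / 2 * FAb (fun _ _ => 1) (R.tn β) (R.ph z) (R.ph z) -
          1 / 4 * Qf L (β z) z) := by
      simp only [LinearMap.sub_apply, LinearMap.smul_apply, map_sub, map_smul, smul_eq_mul]
      rw [hWF]
      ring
    have h2 := hE z
    have h3 : |r * Qf L z z| ≤ |r| * Qf L z z := by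
      rw [abs_mul, abs_of_nonneg ((Irr_nn R) z)]
    rw [h1]
    rw [abs_le] at h2 h3 ⊢
    constructor <;> nlinarith [h2.1, h2.2, h3.1, h3.2]
  have h1 := R.hs_tn hV (by positivity) hVN
  rw [← hMd] at h1
  have h2 : hs (R.tn W) ≤ 2 * 1 / R.n * hs (R.tn β) :=
    R.hs_FAb (w := fun _ _ => (1 : ℝ)) (fun _ _ => by norm_num) (R.tn β) hWF
  have h3 : hs (R.tn β) ≤ hs (R.tn (β - (2 : ℝ) • W)) + 2 * hs (R.tn W) := by
    have e1 : R.tn β = fun a b c d => R.tn (β - (2 : ℝ) • W) a b c d + 2 * R.tn W a b c d := by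
      funext a b c d
      simp only [Rp.tn, LinearMap.sub_apply, LinearMap.smul_apply, map_sub, map_smul,
        Matrix.sub_apply, Matrix.smul_apply, smul_eq_mul]
      ring
    have e2 := hs_add (R.tn (β - (2 : ℝ) • W)) (fun a b c d => 2 * R.tn W a b c d)
    rw [← e1] at e2
    have e3 := hs_mul_le (h := fun _ _ _ _ => (2 : ℝ)) (t := R.tn W) (C := 2) (by norm_num)
      (fun _ _ _ _ => by norm_num)
    linarith
  have hH0 := hs_nonneg (R.tn β)
  obtain ⟨H, hH⟩ : ∃ H, H = hs (R.tn β) := ⟨_, rfl⟩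
  rw [← hH] at h2 h3 hH0
  have h4 : 2 * 1 / R.n * H ≤ 1 / 4 * H := by
    refine mul_le_mul_of_nonneg_right ?_ hH0
    rw [div_le_iff₀ hn]
    linarith
  have h5 : H ≤ 8 * (M * (s + |r|)) := by
    have : H ≤ M * (4 * (s + |r|)) + 2 * (1 / 4 * H) := by linarith
    linarith
  intro z
  have hq := (Irr_nn R) z
  have h6 : |FAb (fun _ _ => 1) (R.tn β) (R.ph z) (R.ph z)| ≤
      32 * ((m : ℝ) + 1) * (s + |r|) * Qf L z z := by
    refine (FAb_le (w := fun _ _ => (1 : ℝ)) (c := 1) (fun _ _ => by norm_num) (R.tn β) _ _).trans ?_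
    rw [← hH]
    have e1 : mn (R.ph z) * mn (R.ph z) = Qf L z z / R.n := by
      rw [R.Qf_mn]
      field_simp
    rw [e1]
    have e2 : M ≤ 2 * ((m : ℝ) + 1) * R.n := by
      rw [div_le_iff₀ (by positivity)] at hn1
      linarith
    calc 2 * 1 * H * (Qf L z z / R.n) ≤ 2 * 1 * (8 * (M * (s + |r|))) * (Qf L z z / R.n) := by
          refine mul_le_mul_of_nonneg_right ?_ (by positivity)
          linarith
      _ = M * (16 * (s + |r|) * (Qf L z z / R.n)) := by ring
      _ ≤ 2 * ((m : ℝ) + 1) * R.n * (16 * (s + |r|) * (Qf L z z / R.n)) :=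
          mul_le_mul_of_nonneg_right e2 (by positivity)
      _ = 32 * ((m : ℝ) + 1) * (s + |r|) * Qf L z z := by field_simp; ring
  have h7 := hE z
  have h8 : |r * Qf L z z| ≤ |r| * Qf L z z := by
    rw [abs_mul, abs_of_nonneg hq]
  rw [abs_le] at h6 h7 h8 ⊢
  constructor <;> nlinarith [h6.1, h6.2, h7.1, h7.2, h8.1, h8.2]

private theorem Irr_mono {β : L →ₗ[ℝ] L} {b b' : ℝ} (hnn : ∀ x : L, 0 ≤ Qf L x x) (h : NBL β b)
    (hbb : b ≤ b') : NBL β b' := fun z =>
  (h z).trans (mul_le_mul_of_nonneg_right hbb (hnn z))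

end

theorem gap_irr (m : ℕ) : ∃ K : ℝ, 1 ≤ K ∧ ∃ δ : ℝ, 0 < δ ∧
    ∀ (L : Type) [LieRing L] [LieAlgebra ℝ L] [Module.Finite ℝ L] (I : Type) [Fintype I]
    [DecidableEq I] (R : Rp L I m), 1 / δ ≤ Fintype.card I →
    ∀ (β : L →ₗ[ℝ] L) (s r : ℝ), QSym β → R.rh Finset.univ β = r • (1 : Matrix I I ℝ) →
      (∀ y, |ellQG LinearMap.id LinearMap.id 0 (1 / 4) β y| ≤ s * Qf L y y) →
      NBL β (K * s) := by
  obtain ⟨C, hC1, hC⟩ := fast_contr 1 m
  have hm : (0 : ℝ) ≤ m := Nat.cast_nonneg m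
  obtain ⟨P, hP⟩ : ∃ P : ℝ, P = 4 + 64 * ((m : ℝ) + 1) := ⟨_, rfl⟩
  have hP0 : 0 < P := by rw [hP]; positivity
  have hP1 : 1 ≤ P := by rw [hP]; nlinarith
  obtain ⟨K0, hK0⟩ : ∃ K0 : ℝ, K0 = P * (1 + 16 * ((m : ℝ) + 1)) := ⟨_, rfl⟩
  have hK1 : 1 ≤ K0 := by rw [hK0]; nlinarith
  have hB : 0 < 18 * ((m : ℝ) + 1) + 8 * P * C := by positivity
  refine ⟨2 * K0, by linarith, 1 / (18 * ((m : ℝ) + 1) + 8 * P * C), by positivity, ?_⟩
  intro L _ _ _ I _ _ R hM β s r hβ hr hell
  rw [one_div_one_div] at hM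
  have hPC : 0 ≤ 8 * P * C := by positivity
  have hM18 : 18 * ((m : ℝ) + 1) ≤ Fintype.card I := by linarith
  have hMPC : 8 * P * C ≤ Fintype.card I := by
    have : 0 ≤ 18 * ((m : ℝ) + 1) := by positivity
    linarith
  have hM0 : (0 : ℝ) < Fintype.card I := by linarith
  have hM4 : 4 * ((m : ℝ) + 1) ≤ Fintype.card I := by linarith
  rcases lt_or_ge s 0 with hs | hs
  · -- degenerate case
    intro z
    have h1 := hell z
    have h2 := (Irr_nn R) z
    have h3 : 0 ≤ s * Qf L z z := (abs_nonneg _).trans h1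
    have h4 : Qf L z z = 0 := by nlinarith
    have h5 : z = 0 := Qf_eq_zero (Irr_cpt R) h4
    rw [h5]
    simp
  have hE : ∀ y, |r * Qf L y y + 1 / 2 * FAb (fun _ _ => 1) (R.tn β) (R.ph y) (R.ph y) -
      1 / 4 * Qf L (β y) y| ≤ s * Qf L y y := by
    intro y
    rw [← Irr_ell R hβ hr y]
    exact hell y
  have step : ∀ b : ℝ, 0 ≤ b → NBL β b → NBL β (K0 * s + b / 2) := by
    intro b hb hbN
    have h1 : ∀ v : I → ℝ, |1 / R.n ^ 2 * ∑ b' : I, FAb (fun _ _ => 1) (R.tn β)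
      (R.ph (R.zz v (Pi.single b' 1))) (R.ph (R.zz v (Pi.single b' 1)))| ≤
        C / Fintype.card I * b * (v ⬝ᵥ v) := by
      intro v
      have h2 := hC L I R Finset.univ hM4 β b hβ hb hbN 1 1 1 (by norm_num) (by norm_num)
        (by norm_num) Finset.univ v
      rw [Irr_wt] at h2
      exact h2
    have h2 := Irr_r R hM18 hs hr hE h1
    have h3 := Irr_hs R (by linarith) hβ hs hE
    rw [← hP] at h3
    refine Irr_mono (Irr_nn R) h3 ?_
    have h4 : P * (4 * (C / Fintype.card I * b)) ≤ b / 2 := by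
      have : P * (4 * (C / Fintype.card I * b)) = 8 * P * C / Fintype.card I * (b / 2) := by
        field_simp
        ring
      rw [this]
      have h5 : 8 * P * C / Fintype.card I ≤ 1 := by
        rw [div_le_one hM0]
        exact hMPC
      calc 8 * P * C / Fintype.card I * (b / 2) ≤ 1 * (b / 2) :=
            mul_le_mul_of_nonneg_right h5 (by linarith)
        _ = b / 2 := one_mul _
    have h5 : P * (s + |r|) ≤ P * (s + (16 * ((m : ℝ) + 1) * s + 4 * (C / Fintype.card I * b))) :=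
      mul_le_mul_of_nonneg_left (by linarith) hP0.le
    calc P * (s + |r|) ≤ P * (s + (16 * ((m : ℝ) + 1) * s + 4 * (C / Fintype.card I * b))) := h5
      _ = P * (1 + 16 * ((m : ℝ) + 1)) * s + P * (4 * (C / Fintype.card I * b)) := by ring
      _ ≤ K0 * s + b / 2 := by rw [hK0]; linarith
  obtain ⟨b0, hb0, hb0N⟩ : ∃ b : ℝ, 0 ≤ b ∧ NBL β b := by
    first
      | exact R.bdd β
      | exact Rp.bdd β
  have hKs : 0 ≤ K0 * s := by positivity
  have it : ∀ k : ℕ, NBL β (2 * K0 * s + b0 / 2 ^ k) := by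
    intro k
    induction k with
    | zero =>
      refine Irr_mono (Irr_nn R) hb0N ?_
      rw [pow_zero, div_one]
      linarith
    | succ k ih =>
      have h1 := step _ (by positivity) ih
      have h2 : K0 * s + (2 * K0 * s + b0 / 2 ^ k) / 2 = 2 * K0 * s + b0 / 2 ^ (k + 1) := by
        rw [pow_succ]
        field_simp
        ring
      rwa [h2] at h1
  intro z
  have hlim : Filter.Tendsto (fun k : ℕ => (2 * K0 * s + b0 / 2 ^ k) * Qf L z z) Filter.atTop
      (nhds ((2 * K0 * s + b0 * 0) * Qf L z z)) := by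
    have h1 : Filter.Tendsto (fun k : ℕ => ((1 : ℝ) / 2) ^ k) Filter.atTop (nhds 0) :=
      tendsto_pow_atTop_nhds_zero_of_lt_one (by norm_num) (by norm_num)
    have h2 : (fun k : ℕ => (2 * K0 * s + b0 / 2 ^ k) * Qf L z z) =
        fun k : ℕ => (2 * K0 * s + b0 * (1 / 2) ^ k) * Qf L z z := by
      funext k
      rw [one_div, inv_pow, div_eq_mul_inv]
    rw [h2]
    exact ((h1.const_mul b0).const_add _).mul_const _
  rw [mul_zero, add_zero] at hlim
  exact ge_of_tendsto' hlim fun k => it k z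

section

variable {L : Type} [LieRing L] [LieAlgebra ℝ L] {I : Type} [Fintype I] [DecidableEq I] {m : ℕ}
  (R : Rp L I m)

/-- The contraction commutes with symmetries. -/
private theorem Irr_comm {β : L →ₗ[ℝ] L} (hβ : QSym β) {F : L → L} {g : Matrix I I ℝ}
    (hg : g * gᵀ = 1) (hph : ∀ x, R.ph (F x) = g * R.ph x * gᵀ)
    (he : ∀ a b, ∑ a', ∑ b', (g a' a * g b' b) • R.e a' b' = F (R.e a b))
    (hF : ∀ x, β (F x) = F (β x)) :
    g * R.rh Finset.univ β = R.rh Finset.univ β * g := by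
  have hg' : gᵀ * g = 1 := mul_eq_one_comm.1 hg
  have o1 : ∀ p q, ∑ b, g p b * g q b = (1 : Matrix I I ℝ) p q := by
    intro p q
    have := congrFun (congrFun hg p) q
    rw [Matrix.mul_apply] at this
    simpa [Matrix.transpose_apply] using this
  have o2 : ∀ p q, ∑ b, g b p * g b q = (1 : Matrix I I ℝ) p q := by
    intro p q
    have := congrFun (congrFun hg' p) q
    rw [Matrix.mul_apply] at this
    simpa [Matrix.transpose_apply] using this
  have key : ∀ a b c' d', ∑ a', ∑ b', (g a' a * g b' b) * R.tn β a' b' c' d' =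
      ∑ c, ∑ d, g c' c * g d' d * R.tn β a b c d := by
    intro a b c' d'
    have h1 : R.ph (β (F (R.e a b))) c' d' = ∑ a', ∑ b', (g a' a * g b' b) * R.tn β a' b' c' d' := by
      rw [← he]
      simp only [map_sum, map_smul, Matrix.sum_apply, Matrix.smul_apply, smul_eq_mul]
      rfl
    rw [← h1, hF, hph, Matrix.mul_apply]
    simp only [Matrix.mul_apply, Matrix.transpose_apply, Finset.sum_mul]
    rw [Finset.sum_comm]
    refine Finset.sum_congr rfl fun c _ => Finset.sum_congr rfl fun d _ => ?_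
    show g c' c * R.tn β a b c d * g d' d = _
    ring
  ext c' a
  rw [Matrix.mul_apply, Matrix.mul_apply]
  have s1 : ∀ c, R.rh Finset.univ β c a = 1 / R.n * ∑ b, R.tn β a b c b := by
    intro c
    have := R.rh_symm hβ Finset.univ
    rw [this.apply a c]
    rfl
  have s2 : ∀ a', R.rh Finset.univ β c' a' = 1 / R.n * ∑ b, R.tn β a' b c' b := by
    intro a'
    have := R.rh_symm hβ Finset.univ
    rw [this.apply a' c']
    rfl
  simp only [s1, s2]
  have t1 : ∑ b, ∑ d', g d' b * ∑ a', ∑ b', (g a' a * g b' b) * R.tn β a' b' c' d' =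
      ∑ a', g a' a * ∑ b', R.tn β a' b' c' b' := by
    calc ∑ b, ∑ d', g d' b * ∑ a', ∑ b', (g a' a * g b' b) * R.tn β a' b' c' d'
        = ∑ b, ∑ d', ∑ a', ∑ b', g a' a * (g d' b * g b' b) * R.tn β a' b' c' d' := by
          refine Finset.sum_congr rfl fun b _ => Finset.sum_congr rfl fun d' _ => ?_
          rw [Finset.mul_sum]
          refine Finset.sum_congr rfl fun a' _ => ?_
          rw [Finset.mul_sum]
          refine Finset.sum_congr rfl fun b' _ => ?_
          ring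
      _ = ∑ d', ∑ a', ∑ b', ∑ b, g a' a * (g d' b * g b' b) * R.tn β a' b' c' d' := by
          rw [Finset.sum_comm]
          refine Finset.sum_congr rfl fun d' _ => ?_
          rw [Finset.sum_comm]
          refine Finset.sum_congr rfl fun a' _ => ?_
          rw [Finset.sum_comm]
      _ = ∑ d', ∑ a', ∑ b', g a' a * (1 : Matrix I I ℝ) d' b' * R.tn β a' b' c' d' := by
          refine Finset.sum_congr rfl fun d' _ => Finset.sum_congr rfl fun a' _ =>
            Finset.sum_congr rfl fun b' _ => ?_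
          rw [← Finset.sum_mul, ← Finset.mul_sum, o1]
      _ = ∑ d', ∑ a', g a' a * R.tn β a' d' c' d' := by
          refine Finset.sum_congr rfl fun d' _ => Finset.sum_congr rfl fun a' _ => ?_
          rw [Finset.sum_eq_single d']
          · rw [Matrix.one_apply_eq, mul_one]
          · intro b' _ hb'
            rw [Matrix.one_apply_ne (Ne.symm hb')]
            ring
          · intro h; exact absurd (Finset.mem_univ _) h
      _ = ∑ a', g a' a * ∑ b', R.tn β a' b' c' b' := by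
          rw [Finset.sum_comm]
          refine Finset.sum_congr rfl fun a' _ => ?_
          rw [Finset.mul_sum]
  have t2 : ∑ b, ∑ d', g d' b * ∑ c, ∑ d, g c' c * g d' d * R.tn β a b c d =
      ∑ c, g c' c * ∑ b, R.tn β a b c b := by
    calc ∑ b, ∑ d', g d' b * ∑ c, ∑ d, g c' c * g d' d * R.tn β a b c d
        = ∑ b, ∑ d', ∑ c, ∑ d, g c' c * (g d' b * g d' d) * R.tn β a b c d := by
          refine Finset.sum_congr rfl fun b _ => Finset.sum_congr rfl fun d' _ => ?_
          rw [Finset.mul_sum]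
          refine Finset.sum_congr rfl fun c _ => ?_
          rw [Finset.mul_sum]
          refine Finset.sum_congr rfl fun d _ => ?_
          ring
      _ = ∑ b, ∑ c, ∑ d, ∑ d', g c' c * (g d' b * g d' d) * R.tn β a b c d := by
          refine Finset.sum_congr rfl fun b _ => ?_
          rw [Finset.sum_comm]
          refine Finset.sum_congr rfl fun c _ => ?_
          rw [Finset.sum_comm]
      _ = ∑ b, ∑ c, ∑ d, g c' c * (1 : Matrix I I ℝ) b d * R.tn β a b c d := by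
          refine Finset.sum_congr rfl fun b _ => Finset.sum_congr rfl fun c _ =>
            Finset.sum_congr rfl fun d _ => ?_
          rw [← Finset.sum_mul, ← Finset.mul_sum, o2]
      _ = ∑ b, ∑ c, g c' c * R.tn β a b c b := by
          refine Finset.sum_congr rfl fun b _ => Finset.sum_congr rfl fun c _ => ?_
          rw [Finset.sum_eq_single b]
          · rw [Matrix.one_apply_eq, mul_one]
          · intro d _ hd
            rw [Matrix.one_apply_ne (Ne.symm hd)]
            ring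
          · intro h; exact absurd (Finset.mem_univ _) h
      _ = ∑ c, g c' c * ∑ b, R.tn β a b c b := by
          rw [Finset.sum_comm]
          refine Finset.sum_congr rfl fun c _ => ?_
          rw [Finset.mul_sum]
  have t3 : ∑ a', g a' a * ∑ b', R.tn β a' b' c' b' = ∑ c, g c' c * ∑ b, R.tn β a b c b := by
    rw [← t1, ← t2]
    refine Finset.sum_congr rfl fun b _ => Finset.sum_congr rfl fun d' _ => ?_
    rw [key]
  calc ∑ c, g c' c * (1 / R.n * ∑ b, R.tn β a b c b)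
      = 1 / R.n * ∑ c, g c' c * ∑ b, R.tn β a b c b := by
        rw [Finset.mul_sum]
        refine Finset.sum_congr rfl fun c _ => ?_
        ring
    _ = 1 / R.n * ∑ a', g a' a * ∑ b', R.tn β a' b' c' b' := by rw [t3]
    _ = ∑ a', 1 / R.n * (∑ b, R.tn β a' b c' b) * g a' a := by
        rw [Finset.mul_sum]
        refine Finset.sum_congr rfl fun a' _ => ?_
        ring

private theorem Irr_e {δ' : L ≃ₗ⁅ℝ⁆ L} {g : Matrix I I ℝ} (hg : g * gᵀ = 1)
    (hph : ∀ x, R.ph (δ' x) = g * R.ph x * gᵀ) (a b : I) :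
    ∑ a', ∑ b', (g a' a * g b' b) • R.e a' b' = δ' (R.e a b) := by
  have hg' : gᵀ * g = 1 := mul_eq_one_comm.1 hg
  have ext : ∀ x y : L, (∀ z, Qf L x z = Qf L y z) → x = y := by
    intro x y h
    refine sub_eq_zero.1 (Qf_eq_zero (Irr_cpt R) ?_)
    have h1 : Qf L (x - y) (x - y) = Qf L x (x - y) - Qf L y (x - y) := by
      rw [map_sub (Qf L) x y, LinearMap.sub_apply]
    rw [h1, h, sub_self]
  refine ext _ _ fun z => ?_
  obtain ⟨y, rfl⟩ : ∃ y, δ' y = z := δ'.surjective z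
  have h0 : Qf L (δ' (R.e a b)) (δ' y) = R.n * R.ph y a b := by
    rw [Qf_equiv, R.he]
  rw [h0]
  have h1 : Qf L (∑ a', ∑ b', (g a' a * g b' b) • R.e a' b') (δ' y) =
      R.n * ∑ a', ∑ b', g a' a * (R.ph (δ' y) a' b' * g b' b) := by
    simp only [map_sum, map_smul, LinearMap.sum_apply, LinearMap.smul_apply, smul_eq_mul, R.he]
    rw [Finset.mul_sum]
    refine Finset.sum_congr rfl fun a' _ => ?_
    rw [Finset.mul_sum]
    refine Finset.sum_congr rfl fun b' _ => ?_
    ring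
  have h2 : ∑ a', ∑ b', g a' a * (R.ph (δ' y) a' b' * g b' b) =
      (gᵀ * (R.ph (δ' y) * g)) a b := by
    rw [Matrix.mul_apply]
    refine Finset.sum_congr rfl fun a' _ => ?_
    rw [Matrix.transpose_apply, Matrix.mul_apply, Finset.mul_sum]
  rw [h1, h2, hph]
  have h3 : gᵀ * (g * R.ph y * gᵀ * g) = R.ph y := by
    calc gᵀ * (g * R.ph y * gᵀ * g) = (gᵀ * g) * R.ph y * (gᵀ * g) := by
          simp only [Matrix.mul_assoc]
      _ = R.ph y := by rw [hg', Matrix.one_mul, Matrix.mul_one]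
  rw [h3]

private theorem Irr_et {h : LieSubalgebra ℝ L} {δ : ℝ} (hs : SmallR R h δ) {n : ℕ}
    (a : Fin n → L) (ha : ∀ i, a i ∈ h)
    (ho : ∀ i j, Qf L (a i) (a j) = if i = j then 1 else 0) (x : L) :
    ∑ i, Qf L ⁅a i, x⁆ ⁅a i, x⁆ ≤ 4 * δ * Qf L x x := by
  have hn := R.n0
  have h1 : ∀ i, Qf L ⁅a i, x⁆ ⁅a i, x⁆ ≤ 4 * R.n * mn (R.ph (a i) * R.ph x) ^ 2 := by
    intro i
    rw [R.Qf_mn, R.lie]
    have e1 : mn (R.ph x * R.ph (a i)) = mn (R.ph (a i) * R.ph x) := by
      have e2 : R.ph x * R.ph (a i) = (R.ph (a i) * R.ph x)ᵀ := by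
        rw [Matrix.transpose_mul, R.skew, R.skew, neg_mul_neg]
      rw [e2]
      unfold mn
      congr 1
      rw [Finset.sum_comm]
      rfl
    have e3 : mn (R.ph (a i) * R.ph x - R.ph x * R.ph (a i)) ≤ 2 * mn (R.ph (a i) * R.ph x) := by
      have e4 := mn_add (R.ph (a i) * R.ph x) ((-1 : ℝ) • (R.ph x * R.ph (a i)))
      rw [mn_smul, e1] at e4
      have e5 : R.ph (a i) * R.ph x + (-1 : ℝ) • (R.ph x * R.ph (a i)) =
          R.ph (a i) * R.ph x - R.ph x * R.ph (a i) := by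
        rw [neg_smul, one_smul, sub_eq_add_neg]
      rw [e5] at e4
      rw [abs_neg, abs_one] at e4
      linarith
    have e6 := mn_nonneg (R.ph (a i) * R.ph x - R.ph x * R.ph (a i))
    have e7 := pow_le_pow_left₀ e6 e3 2
    calc R.n * mn (R.ph (a i) * R.ph x - R.ph x * R.ph (a i)) ^ 2 ≤
        R.n * (2 * mn (R.ph (a i) * R.ph x)) ^ 2 := mul_le_mul_of_nonneg_left e7 hn.le
      _ = _ := by ring
  have h2 : ∀ i, mn (R.ph (a i) * R.ph x) ^ 2 =
      ∑ j, (R.ph (a i) *ᵥ (fun k => R.ph x k j)) ⬝ᵥ (R.ph (a i) *ᵥ (fun k => R.ph x k j)) := by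
    intro i
    rw [mn_sq, Finset.sum_comm]
    refine Finset.sum_congr rfl fun j _ => ?_
    unfold dotProduct
    refine Finset.sum_congr rfl fun p _ => ?_
    rw [pow_two]
    rfl
  calc ∑ i, Qf L ⁅a i, x⁆ ⁅a i, x⁆ ≤ ∑ i, 4 * R.n * mn (R.ph (a i) * R.ph x) ^ 2 :=
        Finset.sum_le_sum fun i _ => h1 i
    _ = 4 * R.n * ∑ j, ∑ i, (R.ph (a i) *ᵥ (fun k => R.ph x k j)) ⬝ᵥ
          (R.ph (a i) *ᵥ (fun k => R.ph x k j)) := by
        rw [← Finset.mul_sum, Finset.sum_comm]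
        congr 1
        exact Finset.sum_congr rfl fun i _ => h2 i
    _ ≤ 4 * R.n * ∑ j, δ * ((fun k => R.ph x k j) ⬝ᵥ (fun k => R.ph x k j)) := by
        refine mul_le_mul_of_nonneg_left ?_ (by positivity)
        exact Finset.sum_le_sum fun j _ => hs n a ha ho _
    _ = 4 * δ * Qf L x x := by
        rw [R.Qf_mn, mn_sq, ← Finset.mul_sum]
        have : ∑ j, ((fun k => R.ph x k j) ⬝ᵥ (fun k => R.ph x k j)) =
            ∑ a, ∑ b, R.ph x a b ^ 2 := by
          rw [Finset.sum_comm (f := fun a b => R.ph x a b ^ 2)]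
          refine Finset.sum_congr rfl fun j _ => ?_
          unfold dotProduct
          refine Finset.sum_congr rfl fun p _ => ?_
          ring
        rw [this]
        ring

end

theorem einstein_irrR (m : ℕ) : ∃ δ : ℝ, 0 < δ ∧
    ∀ (L : Type) [LieRing L] [LieAlgebra ℝ L] [Module.Finite ℝ L] (I : Type) [Fintype I]
    [DecidableEq I] (R : Rp L I m), 1 / δ ≤ Fintype.card I →
    ∀ h : LieSubalgebra ℝ L, SmallR R h δ →
      (∀ X : Matrix I I ℝ, Xᵀ = X → (∀ k, R.f k * X = X * R.f k) →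
        (∀ (δ' : L ≃ₗ⁅ℝ⁆ L) (g : Matrix I I ℝ), h.map (δ' : L →ₗ⁅ℝ⁆ L) = h → g * gᵀ = 1 →
          (∀ x, R.ph (δ' x) = g * R.ph x * gᵀ) → g * X = X * g) →
        ∃ r : ℝ, X = r • (1 : Matrix I I ℝ)) →
      HasEinsteinMetric L h.toSubmodule (autsG h LinearMap.id) := by
  obtain ⟨K, hK1, δ0, hδ0, hgap⟩ := gap_irr m
  have hK0 : 0 < K := by linarith
  obtain ⟨d, hd⟩ : ∃ d : ℝ, d = 1 / (1000 * K * 4 ^ 10) := ⟨_, rfl⟩
  have hd0 : 0 < d := by rw [hd]; positivity
  have hδ : 0 < min δ0 (d ^ 2) := lt_min hδ0 (by positivity)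
  refine ⟨min δ0 (d ^ 2), hδ, ?_⟩
  intro L _ _ _ I _ _ R hM h hsm hX
  have hnn := (Irr_nn R)
  have hM' : 1 / δ0 ≤ (Fintype.card I : ℝ) := by
    refine le_trans ?_ hM
    exact one_div_le_one_div_of_le hδ (min_le_left _ _)
  have h00 : Qf L (0 : L) (0 : L) = 0 := by simp
  have hlam : (1 : ℝ) / (1 / 4) ≤ 4 := by norm_num
  refine perturb_einsteinG (Γ := {δ' : L ≃ₗ⁅ℝ⁆ L | h.map (δ' : L →ₗ⁅ℝ⁆ L) = h ∧
      ∃ g : Matrix I I ℝ, g * gᵀ = 1 ∧ ∀ x, R.ph (δ' x) = g * R.ph x * gᵀ})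
    (S := LinearMap.id) (T := LinearMap.id) (Pp := 0) (D := 0) (c := 4) (τ := 2 * d)
    (lam := 1 / 4) (eps := 0) (K := K) (Irr_cpt R) ?_ hK1 ?_ ?_ ?_
  · -- the data
    have hTH0 : ∀ U V : L →ₗ[ℝ] L, TH2 U V (0 : L) (0 : L) = 0 := by
      intro U V
      unfold TH2
      simp
    have hTH1 : ∀ x : L, TH2 (LinearMap.id : L →ₗ[ℝ] L) LinearMap.id x x = Qf L x x := by
      intro x
      unfold TH2
      rw [Qf_apply, killingForm_apply_apply]
      congr 2
    have het : ∀ (n : ℕ) (a : Fin n → L), (∀ i, a i ∈ h) →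
        (∀ i j, Qf L (a i) (a j) = if i = j then 1 else 0) → ∀ x,
        ∑ i, Qf L ⁅a i, x⁆ ⁅a i, x⁆ ≤ (2 * d) ^ 2 * Qf L x x := by
      intro n a ha ho x
      refine (Irr_et R hsm a ha ho x).trans ?_
      refine mul_le_mul_of_nonneg_right ?_ (hnn x)
      have := min_le_right δ0 (d ^ 2)
      nlinarith
    exact {
      symS := fun x y => rfl
      symT := fun x y => rfl
      symP := fun x y => by simp
      symD := fun x y => by simp
      ST := fun x => rfl
      TS := fun x => rfl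
      c1 := by norm_num
      t0 := by positivity
      e0 := le_refl _
      loS := fun x => by
        have := hnn x
        simp only [LinearMap.id_coe, id_eq]
        linarith
      hiS := fun x => by
        have := hnn x
        simp only [LinearMap.id_coe, id_eq]
        linarith
      loT := fun x => hnn x
      hiT := fun x => by
        have := hnn x
        simp only [LinearMap.id_coe, id_eq]
        linarith
      bdD := fun x => by
        have := hnn x
        simp only [LinearMap.zero_apply, map_zero, abs_zero]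
        linarith
      pp2 := fun x => rfl
      Spp := fun x => by simp
      Dpp := fun x => by simp
      SD := fun x => by simp
      hpp := fun y _ => rfl
      et := fun n a ha ho x => ⟨het n a ha ho x, het n a ha ho x, het n a ha ho x⟩
      uts := fun x => by
        rw [hTH1]
        simp
      la := by norm_num
      la' := hlam
      base := fun x => by
        rw [hTH1]
        simp
      inv := fun γ hγ => ⟨hγ.1, fun x => rfl⟩
      cp := fun β _ x => by simp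
      z := fun β _ x => by
        simp only [LinearMap.zero_apply, hTH0, sub_zero]
        rw [LinearMap.id_comp, LinearMap.comp_id, TH2_cyc β LinearMap.id x, sub_self] }
  · -- the gap
    intro β hβ s hs
    obtain ⟨hβs, hβΓ⟩ := hβ
    obtain ⟨r, hr⟩ := hX (R.rh Finset.univ β) (R.rh_symm hβs Finset.univ)
      (fun k => by
        have hfo : R.f k * (R.f k)ᵀ = 1 := mul_eq_one_comm.1 (R.fo k)
        refine Irr_comm R hβs (F := fun x => x) hfo (fun x => ?_) (fun a b => R.e_f k a b)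
          (fun x => rfl)
        rw [R.com, Matrix.mul_assoc, hfo, Matrix.mul_one])
      (fun δ' g h1 h2 h3 => Irr_comm R hβs (F := fun x => δ' x) h2 h3
        (fun a b => Irr_e R h2 h3 a b) (hβΓ δ' ⟨h1, g, h2, h3⟩))
    exact hgap L I R hM' β s r hβs hr hs
  · rw [hd]
    have : 500 * K * 4 ^ 10 * (2 * (1 / (1000 * K * 4 ^ 10))) = 1 := by
      field_simp
      norm_num
    rw [this]
  · rw [mul_zero]
    exact zero_le_one

end Pool.Agent.EinV
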