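import Pool.Agent.EinS.ClSt

/-!
# Small subgroups of the classical groups: the statement
-/

namespace Pool.Agent.EinV

open Matrix Pool.Agent.EStab Pool.Agent.EinS Quaternion

/-- The involution of the coefficients which is used for semilinear maps: the complex conjugation for `ℂ`, the
identity for `ℝ` and `ℍ`. -/
class Cj (A : Type) where
  /-- the involution -/
  cj : A → A

instance cjReal : Cj ℝ where
  cj x := x

noncomputable instance cjComplex : Cj ℂ where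
  cj x := star x

instance cjQuat : Cj ℍ[ℝ] where
  cj x := x

section

variable {A : Type} [Ring A] [StarRing A] [Algebra ℝ A] [Cen A] {N : ℕ}

/-- `W` is an `A`-subspace of `A^N` which is preserved by `h` and by the matrices in `Γ`. -/
structure Preserved (h : LieSubalgebra ℝ (Gr A (Fin N))) (Γ : Set (Matrix (Fin N) (Fin N) A))
    (W : Submodule ℝ (Fin N → A)) : Prop where
  smul : ∀ v ∈ W, ∀ u : A, (fun i => v i * u) ∈ W
  lie : ∀ x ∈ h, ∀ v ∈ W, x.mat *ᵥ v ∈ W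
  grp : ∀ g ∈ Γ, ∀ v ∈ W, g *ᵥ v ∈ W

/-- `W` is an irreducible subspace of `A^N` for `h` and `Γ`. -/
def IrrSub (h : LieSubalgebra ℝ (Gr A (Fin N))) (Γ : Set (Matrix (Fin N) (Fin N) A))
    (W : Submodule ℝ (Fin N → A)) : Prop :=
  Preserved h Γ W ∧ W ≠ ⊥ ∧ ∀ W' ≤ W, Preserved h Γ W' → W' = ⊥ ∨ W' = W

/-- `A^N` has no irreducible subspace `W` with `(1 - θ) N < dim W < N`. -/
def NoLarge (θ : ℝ) (h : LieSubalgebra ℝ (Gr A (Fin N))) (Γ : Set (Matrix (Fin N) (Fin N) A)) :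
    Prop :=
  ∀ W : Submodule ℝ (Fin N → A), IrrSub h Γ W →
    W = ⊤ ∨ (Module.finrank ℝ W : ℝ) ≤ (1 - θ) * Module.finrank ℝ (Fin N → A)

variable [Cj A]

/-- There is a unitary map `σ`, `σ v = s * cj v`, of `A^N` which commutes with `h` and `Γ`, such that `σ² = -1`, or `σ² = 1` and
`σ` is antilinear. -/
def HasStructure (h : LieSubalgebra ℝ (Gr A (Fin N))) (Γ : Set (Matrix (Fin N) (Fin N) A)) :
    Prop :=
  ∃ s : Matrix (Fin N) (Fin N) A, s * sᴴ = 1 ∧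
    (s * s.map Cj.cj = -1 ∨ (s * s.map Cj.cj = 1 ∧ ∃ u : A, Cj.cj u ≠ u)) ∧
    (∀ x ∈ h, s * x.mat.map Cj.cj = x.mat * s) ∧ ∀ g ∈ Γ, s * g.map Cj.cj = g * s

end

variable (A : Type) [Ring A] [StarRing A] [Algebra ℝ A] [Cen A] [Cj A]

/-- For every `θ > 0` there is `ε > 0` such that all homogeneous spaces `G/H` with `G = SO(N)`, `SU(N)`, `Sp(N)`, `dim H ≤ ε N²` have
invariant Einstein metrics if `H` has no irreducible subspace `W` with `(1 - θ) N < dim W < N`, or preserves a structure on `A^N`. -/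
def SmallSubgroupsEinstein : Prop :=
  ∀ θ : ℝ, 0 < θ → ∃ ε : ℝ, 0 < ε ∧ ∀ N : ℕ, 3 ≤ N →
    ∀ (h : LieSubalgebra ℝ (Gr A (Fin N))) (Γ : Set (Matrix (Fin N) (Fin N) A)),
      (∀ g ∈ Γ, g * gᴴ = 1 ∧ gᴴ * g = 1 ∧ ∀ x ∈ h, ∃ y ∈ h, y.mat = g * x.mat * gᴴ) →
      (Module.finrank ℝ h : ℝ) ≤ ε * N ^ 2 → NoLarge θ h Γ ∨ HasStructure h Γ →
      HasEinsteinMetric (Gr A (Fin N)) h.toSubmodule
        {γ | ∃ g ∈ Γ, ∀ x, (γ x).mat = g * x.mat * gᴴ}

end Pool.Agent.EinV
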