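import Pool.Agent.EinV.GoodInv
import Pool.Agent.EinV.Irr
import Pool.Agent.EinV.ExpN
import Pool.Agent.EinV.FinI
import Pool.Agent.EinV.St

/-!
# Good base metrics for the classical Lie algebras: definitions

`AdU g γ`: `γ x = g x gᴴ`, `g` unitary.
-/

namespace Pool.Agent.EinV

open Matrix Pool.Agent.EStab Pool.Agent.EinS Pool.Agent.SmIso Pool.Agent.EinU Pool.Agent.EinG

attribute [local instance 100] LieRing.ofAssociativeRing

variable {A : Type} [Ring A] [StarRing A] [Algebra ℝ A] [Cen A] {ι : Type} [Fintype ι]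
  [DecidableEq ι]

/-- `γ = Ad(g)`, `g` unitary. -/
def AdU (g : Matrix ι ι A) (γ : cl A ι ≃ₗ⁅ℝ⁆ cl A ι) : Prop :=
  g * gᴴ = 1 ∧ gᴴ * g = 1 ∧ ∀ x, (γ x).1 = g * x.1 * gᴴ

end Pool.Agent.EinV
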