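import Pool.Agent.EinV.Good

/-!
# Scaling of a base metric

`fac_scale`: `TH2` is bilinear in the two operators, `ellQG (1/lam • S) (lam • T) D 1 β = (1/lam) * ellQG S T D lam β`, the form `base` is multiplied by `1 / lam ^ 2`;
`FixS h (r • S) γ ↔ FixS h S γ` for `r ≠ 0`.
-/

namespace Pool.Agent.EinV

open Pool.Agent.EStab Pool.Agent.EinS Pool.Agent.SmIso Pool.Agent.EinU Pool.Agent.EinG

variable {L : Type} [LieRing L] [LieAlgebra ℝ L]

theorem TH2_smul_op_left (r : ℝ) (T U : L →ₗ[ℝ] L) (x y : L) :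
    TH2 (r • T) U x y = r * TH2 T U x y := by
  unfold TH2
  rw [LinearMap.smul_comp, LinearMap.comp_smul, map_smul, smul_eq_mul]
  ring

theorem TH2_smul_op_right (r : ℝ) (T U : L →ₗ[ℝ] L) (x y : L) :
    TH2 T (r • U) x y = r * TH2 T U x y := by
  unfold TH2
  rw [LinearMap.comp_smul, LinearMap.comp_smul, LinearMap.comp_smul, map_smul, smul_eq_mul]
  ring

theorem TH2_smul_vec (r : ℝ) (T U : L →ₗ[ℝ] L) (x y : L) :
    TH2 T U (r • x) (r • y) = r ^ 2 * TH2 T U x y := by
  unfold TH2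
  rw [map_smul, map_smul]
  simp only [LinearMap.smul_comp, LinearMap.comp_smul, map_smul, smul_eq_mul]
  ring

theorem fixS_smul {h : LieSubalgebra ℝ L} {S : L →ₗ[ℝ] L} {r : ℝ} (hr : r ≠ 0)
    (γ : L ≃ₗ⁅ℝ⁆ L) : FixS h (r • S) γ ↔ FixS h S γ := by
  unfold FixS
  refine and_congr Iff.rfl (forall_congr' fun x => ?_)
  rw [LinearMap.smul_apply, LinearMap.smul_apply, map_smul]
  exact ⟨fun h => smul_right_injective L hr h, fun h => by rw [h]⟩

theorem clsG_smul {h : LieSubalgebra ℝ L} {G : Set (L ≃ₗ⁅ℝ⁆ L)} {S β : L →ₗ[ℝ] L} {r : ℝ}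
    (hr : r ≠ 0) : ClsG h G (r • S) β ↔ ClsG h G S β := by
  unfold ClsG
  refine and_congr Iff.rfl (forall_congr' fun γ => ?_)
  rw [fixS_smul hr]

theorem ellQG_scale {lam : ℝ} (hl : lam ≠ 0) (S T D β : L →ₗ[ℝ] L) (z : L) :
    ellQG ((1 / lam) • S) (lam • T) D 1 β z = 1 / lam * ellQG S T D lam β z := by
  unfold ellQG
  have e1 : (lam • T) ∘ₗ β ∘ₗ (lam • T) = (lam ^ 2) • (T ∘ₗ β ∘ₗ T) := by
    ext x
    simp only [LinearMap.comp_apply, LinearMap.smul_apply, map_smul, smul_smul]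
    congr 1
    ring
  rw [e1]
  simp only [LinearMap.smul_apply, TH2_smul_vec, TH2_smul_op_left, TH2_smul_op_right, map_smul,
    smul_eq_mul]
  field_simp

theorem fac_scale {h : LieSubalgebra ℝ L} {G : Set (L ≃ₗ⁅ℝ⁆ L)} {S T Pp D : L →ₗ[ℝ] L}
    {c τ lam eps K : ℝ} (hF : Fac h G S T Pp D c τ lam eps K) :
    Fac h G ((1 / lam) • S) (lam • T) Pp D (c ^ 2) (c * τ) 1 (c ^ 2 * eps) (c * K) := by
  have hc1 := hF.c1
  have ht0 := hF.t0
  have he0 := hF.e0
  have hK1 := hF.K1
  have hla := hF.la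
  have hlac := hF.lac
  have hla' := hF.la'
  have hla0 : lam ≠ 0 := hla.ne'
  have hr0 : 1 / lam ≠ 0 := by positivity
  have hrp : 0 < 1 / lam := by positivity
  have hQ : ∀ x, 0 ≤ Qf L x x := Qf_nonneg hF.comp
  have hcc : c ≤ c ^ 2 := by nlinarith
  have hc0 : 0 < c := by linarith
  have hlsq : lam ^ 2 ≤ c ^ 2 := pow_le_pow_left₀ hla.le hlac 2
  have hrsq : (1 / lam) ^ 2 ≤ c ^ 2 := pow_le_pow_left₀ hrp.le hla' 2
  have hsum : ∀ (n : ℕ) (b : Fin n → L) (r : ℝ) (U : L →ₗ[ℝ] L) (x : L),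
      ∑ i, Qf L ⁅(r • U) (b i), x⁆ ⁅(r • U) (b i), x⁆ = r ^ 2 * ∑ i, Qf L ⁅U (b i), x⁆ ⁅U (b i), x⁆ := by
    intro n b r U x
    rw [Finset.mul_sum]
    refine Finset.sum_congr rfl fun i _ => ?_
    rw [LinearMap.smul_apply, smul_lie]
    simp only [map_smul, LinearMap.smul_apply, smul_eq_mul]
    ring
  refine
    { comp := hF.comp
      symS := ?_
      symT := ?_
      symP := hF.symP
      symD := hF.symD
      ST := ?_
      TS := ?_
      c1 := by nlinarith
      t0 := by positivity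
      e0 := by positivity
      K1 := by nlinarith
      loS := ?_
      hiS := ?_
      loT := ?_
      hiT := ?_
      bdD := ?_
      pp2 := hF.pp2
      Spp := ?_
      Dpp := hF.Dpp
      SD := ?_
      hpp := hF.hpp
      et := ?_
      uts := ?_
      la := one_pos
      lac := by nlinarith
      la' := by rw [div_one]; nlinarith
      base := ?_
      inv := ?_
      offP := ?_
      off := ?_
      cp := ?_
      z := ?_
      gap := ?_ }
  · intro x y
    simp only [LinearMap.smul_apply, map_smul, smul_eq_mul]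
    rw [hF.symS]
  · intro x y
    simp only [LinearMap.smul_apply, map_smul, smul_eq_mul]
    rw [hF.symT]
  · intro x
    simp only [LinearMap.smul_apply, map_smul, smul_smul, hF.ST]
    rw [one_div, mul_inv_cancel₀ hla0, one_smul]
  · intro x
    simp only [LinearMap.smul_apply, map_smul, smul_smul, hF.TS]
    rw [one_div, inv_mul_cancel₀ hla0, one_smul]
  · intro x
    simp only [LinearMap.smul_apply, map_smul, smul_eq_mul]
    have h1 := hF.loS x
    have h2 : 1 / c ≤ 1 / lam := one_div_le_one_div_of_le hla hlac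
    calc 1 / c ^ 2 * Qf L x x = 1 / c * (1 / c * Qf L x x) := by
          field_simp
      _ ≤ 1 / lam * (1 / c * Qf L x x) := by
          apply mul_le_mul_of_nonneg_right h2
          exact mul_nonneg (by positivity) (hQ x)
      _ ≤ 1 / lam * Qf L (S x) x := mul_le_mul_of_nonneg_left h1 hrp.le
  · intro x
    simp only [LinearMap.smul_apply, map_smul, smul_eq_mul]
    have h1 := hF.hiS x
    calc 1 / lam * Qf L (S x) x ≤ 1 / lam * (c * Qf L x x) := mul_le_mul_of_nonneg_left h1 hrp.le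
      _ ≤ c * (c * Qf L x x) := mul_le_mul_of_nonneg_right hla' (mul_nonneg hc0.le (hQ x))
      _ = c ^ 2 * Qf L x x := by ring
  · intro x
    simp only [LinearMap.smul_apply, map_smul, smul_eq_mul]
    exact mul_nonneg hla.le (hF.loT x)
  · intro x
    simp only [LinearMap.smul_apply, map_smul, smul_eq_mul]
    have h1 := hF.hiT x
    calc lam * Qf L (T x) x ≤ lam * (c * Qf L x x) := mul_le_mul_of_nonneg_left h1 hla.le
      _ ≤ c * (c * Qf L x x) := mul_le_mul_of_nonneg_right hlac (mul_nonneg hc0.le (hQ x))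
      _ = c ^ 2 * Qf L x x := by ring
  · intro x
    exact (hF.bdD x).trans (mul_le_mul_of_nonneg_right hcc (hQ x))
  · intro x
    simp only [LinearMap.smul_apply, map_smul, hF.Spp]
  · intro x
    simp only [LinearMap.smul_apply, map_smul, hF.SD]
  · intro n b hb hb' x
    obtain ⟨h1, h2, h3⟩ := hF.et n b hb hb' x
    have hT0 : 0 ≤ τ ^ 2 * Qf L x x := mul_nonneg (sq_nonneg _) (hQ x)
    have e0 : (c * τ) ^ 2 * Qf L x x = c ^ 2 * (τ ^ 2 * Qf L x x) := by ring
    refine ⟨?_, ?_, ?_⟩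
    · rw [e0]
      refine h1.trans ?_
      have : 1 ≤ c ^ 2 := by nlinarith
      nlinarith
    · rw [hsum, e0]
      calc (1 / lam) ^ 2 * ∑ i, Qf L ⁅S (b i), x⁆ ⁅S (b i), x⁆
          ≤ (1 / lam) ^ 2 * (τ ^ 2 * Qf L x x) := mul_le_mul_of_nonneg_left h2 (sq_nonneg _)
        _ ≤ c ^ 2 * (τ ^ 2 * Qf L x x) := mul_le_mul_of_nonneg_right hrsq hT0
    · rw [hsum, e0]
      calc lam ^ 2 * ∑ i, Qf L ⁅T (b i), x⁆ ⁅T (b i), x⁆
          ≤ lam ^ 2 * (τ ^ 2 * Qf L x x) := mul_le_mul_of_nonneg_left h3 (sq_nonneg _)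
        _ ≤ c ^ 2 * (τ ^ 2 * Qf L x x) := mul_le_mul_of_nonneg_right hlsq hT0
  · intro x
    rw [TH2_smul_op_left, TH2_smul_op_right, ← hF.uts x, ← mul_assoc, one_div,
      mul_inv_cancel₀ hla0, one_mul]
  · intro x
    have h1 := hF.base x
    have e1 : 1 / 2 * Qf L (((1 / lam) • S) (D (((1 / lam) • S) x))) x +
        1 / 4 * TH2 ((1 / lam) • S) ((1 / lam) • S) x x - 1 * Qf L (((1 / lam) • S) x) x =
        (1 / lam) ^ 2 * (1 / 2 * Qf L (S (D (S x))) x + 1 / 4 * TH2 S S x x -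
          lam * Qf L (S x) x) := by
      simp only [TH2_smul_op_left, TH2_smul_op_right, LinearMap.smul_apply, map_smul, smul_eq_mul]
      field_simp
    rw [e1, abs_mul, abs_of_nonneg (sq_nonneg (1 / lam))]
    calc (1 / lam) ^ 2 * |1 / 2 * Qf L (S (D (S x))) x + 1 / 4 * TH2 S S x x - lam * Qf L (S x) x|
        ≤ (1 / lam) ^ 2 * (eps * Qf L x x) := mul_le_mul_of_nonneg_left h1 (sq_nonneg _)
      _ ≤ c ^ 2 * (eps * Qf L x x) :=
          mul_le_mul_of_nonneg_right hrsq (mul_nonneg he0 (hQ x))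
      _ = c ^ 2 * eps * Qf L x x := by ring
  · intro γ hγ x
    rw [LinearMap.smul_apply, LinearMap.smul_apply, map_smul, hF.inv γ hγ]
  · intro v hv
    exact hF.offP v fun γ hγ => hv γ ((fixS_smul hr0 γ).2 hγ)
  · intro v hv u
    rw [LinearMap.smul_apply, map_smul, hF.off v (fun γ hγ => hv γ ((fixS_smul hr0 γ).2 hγ)) u,
      smul_zero]
  · intro β hβ
    exact hF.cp β ((clsG_smul hr0).1 hβ)
  · intro β hβ x
    have h1 := hF.z β ((clsG_smul hr0).1 hβ) x
    have e1 : (lam • T) ∘ₗ β ∘ₗ (lam • T) = (lam ^ 2) • (T ∘ₗ β ∘ₗ T) := by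
      ext x
      simp only [LinearMap.comp_apply, LinearMap.smul_apply, map_smul, smul_smul]
      congr 1
      ring
    have e2 : ∀ y, TH2 (lam • T) β y y - TH2 ((lam • T) ∘ₗ β ∘ₗ (lam • T)) ((1 / lam) • S) y y =
        lam * (TH2 T β y y - TH2 (T ∘ₗ β ∘ₗ T) S y y) := by
      intro y
      rw [e1, TH2_smul_op_left, TH2_smul_op_left, TH2_smul_op_right]
      field_simp
    rw [e2, e2, h1]
  · intro β hβ s hs z
    have hβ' := (clsG_smul hr0).1 hβ
    have hs0 : 0 ≤ s * Qf L z z := (abs_nonneg _).trans (hs z)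
    have h1 : ∀ z, |ellQG S T D lam β z| ≤ lam * s * Qf L z z := by
      intro z
      have h2 := hs z
      rw [ellQG_scale hla0, abs_mul, abs_of_pos hrp, one_div, inv_mul_le_iff₀ hla] at h2
      rw [mul_assoc]
      exact h2
    refine (hF.gap β hβ' (lam * s) h1 z).trans ?_
    calc K * (lam * s) * Qf L z z = lam * (K * (s * Qf L z z)) := by ring
      _ ≤ c * (K * (s * Qf L z z)) :=
          mul_le_mul_of_nonneg_right hlac (mul_nonneg (by linarith) hs0)
      _ = c * K * s * Qf L z z := by ring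

theorem good_mono {h : LieSubalgebra ℝ L} {G : Set (L ≃ₗ⁅ℝ⁆ L)} {c τ eps K c' K' : ℝ}
    (hF : GoodAt h G c τ eps K) (hc : c ≤ c') (hK : K ≤ K') : GoodAt h G c' τ eps K' := by
  obtain ⟨S, T, Pp, D, hF⟩ := hF
  have hc1 := hF.c1
  have hK1 := hF.K1
  have hQ : ∀ x, 0 ≤ Qf L x x := Qf_nonneg hF.comp
  have hc0 : 0 < c := by linarith
  refine ⟨S, T, Pp, D, ?_⟩
  exact
    { comp := hF.comp
      symS := hF.symS
      symT := hF.symT
      symP := hF.symP
      symD := hF.symD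
      ST := hF.ST
      TS := hF.TS
      c1 := hc1.trans hc
      t0 := hF.t0
      e0 := hF.e0
      K1 := hK1.trans hK
      loS := fun x => (mul_le_mul_of_nonneg_right (one_div_le_one_div_of_le hc0 hc) (hQ x)).trans
        (hF.loS x)
      hiS := fun x => (hF.hiS x).trans (mul_le_mul_of_nonneg_right hc (hQ x))
      loT := hF.loT
      hiT := fun x => (hF.hiT x).trans (mul_le_mul_of_nonneg_right hc (hQ x))
      bdD := fun x => (hF.bdD x).trans (mul_le_mul_of_nonneg_right hc (hQ x))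
      pp2 := hF.pp2
      Spp := hF.Spp
      Dpp := hF.Dpp
      SD := hF.SD
      hpp := hF.hpp
      et := hF.et
      uts := hF.uts
      la := hF.la
      lac := hF.lac.trans hc
      la' := hF.la'.trans hc
      base := hF.base
      inv := hF.inv
      offP := hF.offP
      off := hF.off
      cp := hF.cp
      z := hF.z
      gap := by
        intro β hβ s hs z
        have hs0 : 0 ≤ s * Qf L z z := (abs_nonneg _).trans (hs z)
        refine (hF.gap β hβ s hs z).trans ?_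
        rw [mul_assoc, mul_assoc]
        exact mul_le_mul_of_nonneg_right hK hs0 }

end Pool.Agent.EinV
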