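import Pool.Agent.EinV.GoodVu
import Pool.Agent.EinV.GoodSc
import Pool.Agent.EinV.Inv

/-!
# Good base metrics from a symmetric involution

`fac_Vu`, `fac_scale`; the constants `c`, `K` come from `fac_Vu`, the cover of `[θ, 1 - θ]` is only used for `δ`.
-/

namespace Pool.Agent.EinV

open Matrix Pool.Agent.EStab Pool.Agent.EinS Pool.Agent.SmIso Pool.Agent.EinU Pool.Agent.EinG

section

variable {I : Type} [Fintype I] [DecidableEq I]

/-- The diagonal involution. -/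
private def GoodInv_d (A : Finset I) : Matrix I I ℝ :=
  Matrix.diagonal (fun a => if a ∈ A then (1 : ℝ) else -1)

/-- Conjugation of products. -/
private theorem GoodInv_mul {Q : Matrix I I ℝ} (hQ' : Qᵀ * Q = 1) (X Y : Matrix I I ℝ) :
    Q * (X * Y) * Qᵀ = (Q * X * Qᵀ) * (Q * Y * Qᵀ) := by
  calc Q * (X * Y) * Qᵀ = Q * X * (1 * Y) * Qᵀ := by
        rw [Matrix.one_mul]; simp only [Matrix.mul_assoc]
    _ = (Q * X * Qᵀ) * (Q * Y * Qᵀ) := by rw [← hQ']; simp only [Matrix.mul_assoc]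

private theorem GoodInv_tr {Q : Matrix I I ℝ} (hQ' : Qᵀ * Q = 1) (X : Matrix I I ℝ) :
    trace (Q * X * Qᵀ) = trace X := by
  rw [Matrix.trace_mul_comm, ← Matrix.mul_assoc, hQ', Matrix.one_mul]

/-- A matrix which commutes with the diagonal involution is block diagonal. -/
private theorem GoodInv_blk {A : Finset I} {X : Matrix I I ℝ} (h : GoodInv_d A * X = X * GoodInv_d A)
    (a b : I) (hab : ¬(a ∈ A ↔ b ∈ A)) : X a b = 0 := by
  have h1 := congrFun (congrFun h a) b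
  unfold GoodInv_d at h1
  rw [Matrix.diagonal_mul, Matrix.mul_diagonal] at h1
  by_cases ha : a ∈ A <;> by_cases hb : b ∈ A
  · exact absurd (iff_of_true ha hb) hab
  · rw [if_pos ha, if_neg hb] at h1; linarith
  · rw [if_neg ha, if_pos hb] at h1; linarith
  · exact absurd (iff_of_false ha hb) hab

/-- A matrix which anticommutes with the diagonal involution is block off-diagonal. -/
private theorem GoodInv_off {A : Finset I} {X : Matrix I I ℝ} (h : GoodInv_d A * X = -(X * GoodInv_d A))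
    (a b : I) (hab : a ∈ A ↔ b ∈ A) : X a b = 0 := by
  have h1 := congrFun (congrFun h a) b
  unfold GoodInv_d at h1
  rw [Matrix.neg_apply, Matrix.diagonal_mul, Matrix.mul_diagonal] at h1
  by_cases ha : a ∈ A
  · rw [if_pos ha, if_pos (hab.1 ha)] at h1; linarith
  · rw [if_neg ha, if_neg (fun hb => ha (hab.2 hb))] at h1; linarith

/-- Block traces. -/
private theorem GoodInv_btr {A : Finset I} {X : Matrix I I ℝ} (h1 : trace X = 0)
    (h2 : trace (GoodInv_d A * X) = 0) : ∑ a ∈ A, X a a = 0 ∧ ∑ a ∈ Aᶜ, X a a = 0 := by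
  have e1 : trace X = ∑ a ∈ A, X a a + ∑ a ∈ Aᶜ, X a a := by
    rw [Finset.sum_add_sum_compl]
    rfl
  have e2 : trace (GoodInv_d A * X) = ∑ a ∈ A, X a a - ∑ a ∈ Aᶜ, X a a := by
    unfold Matrix.trace
    rw [← Finset.sum_add_sum_compl A, sub_eq_add_neg, ← Finset.sum_neg_distrib]
    congr 1
    · refine Finset.sum_congr rfl fun a ha => ?_
      unfold GoodInv_d
      rw [Matrix.diag_apply, Matrix.diagonal_mul, if_pos ha, one_mul]
    · refine Finset.sum_congr rfl fun a ha => ?_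
      unfold GoodInv_d
      rw [Matrix.diag_apply, Matrix.diagonal_mul, if_neg (Finset.mem_compl.1 ha), neg_one_mul]
  rw [h1] at e1
  rw [h2] at e2
  constructor <;> linarith

/-- Block weights commute with the conjugation by block diagonal matrices. -/
private theorem GoodInv_had {A : Finset I} {g X Y : Matrix I I ℝ} {w : I → I → ℝ}
    (hg : ∀ a b, ¬(a ∈ A ↔ b ∈ A) → g a b = 0)
    (hw : ∀ a b c d, (a ∈ A ↔ c ∈ A) → (b ∈ A ↔ d ∈ A) → w a b = w c d)
    (hY : ∀ a b, Y a b = w a b * X a b) (a b : I) :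
    (g * Y * gᵀ) a b = w a b * (g * X * gᵀ) a b := by
  simp only [Matrix.mul_apply, Matrix.transpose_apply, Finset.sum_mul, Finset.mul_sum]
  refine Finset.sum_congr rfl fun d _ => Finset.sum_congr rfl fun c _ => ?_
  by_cases h1 : a ∈ A ↔ c ∈ A
  · by_cases h2 : b ∈ A ↔ d ∈ A
    · rw [hY, hw a b c d h1 h2]
      ring
    · rw [hg b d h2]
      ring
  · rw [hg a c h1]
    ring

omit [Fintype I] in
private theorem GoodInv_wt {A : Finset I} (u v t : ℝ) (a b c d : I) (h1 : a ∈ A ↔ c ∈ A)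
    (h2 : b ∈ A ↔ d ∈ A) : wt A u v t a b = wt A u v t c d := by
  unfold wt
  by_cases ha : a ∈ A <;> by_cases hb : b ∈ A
  · rw [if_pos ha, if_pos hb, if_pos (h1.1 ha), if_pos (h2.1 hb)]
  · rw [if_pos ha, if_neg hb, if_pos (h1.1 ha), if_neg (fun h => hb (h2.2 h))]
  · rw [if_neg ha, if_pos hb, if_neg (fun h => ha (h1.2 h)), if_pos (h2.1 hb)]
  · rw [if_neg ha, if_neg hb, if_neg (fun h => ha (h1.2 h)), if_neg (fun h => hb (h2.2 h))]

end

section

variable {L : Type} [LieRing L] [LieAlgebra ℝ L] {I : Type} [Fintype I] [DecidableEq I] {m : ℕ}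

private theorem GoodInv_core [Module.Finite ℝ L] {R : Rp L I m} {s : Matrix I I ℝ} {c : L} {J0 : Matrix I I ℝ} {g1 g2 : ℝ}
    (hI : InvD R s c J0 g1 g2) {x1 x2 z : ℝ} (h1 : 0 < x1) (h2 : 0 < x2) (hz : 0 < z)
    (hx : ((∀ k, s * R.f k = R.f k * s) ∧ s * R.J = R.J * s) ∨ x1 = x2) :
    ∃ (R' : Rp L I m) (A : Finset I) (S T Pp : L →ₗ[ℝ] L) (J0' : Matrix I I ℝ),
      Spl R' A x1 x2 z S T Pp c J0' g1 g2 ∧ TrZ R' A c ∧
      trace s = 2 * A.card - Fintype.card I ∧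
      (∀ y, s * R.ph y = R.ph y * s → Pp y = 0) ∧
      (∀ (h : LieSubalgebra ℝ L) (δ : ℝ), SmallR R h δ → SmallR R' h δ) ∧
      ∀ (γ : L ≃ₗ⁅ℝ⁆ L) (g : Matrix I I ℝ), g * gᵀ = 1 → s * g = g * s → J0 * g = g * J0 →
        (∀ x, R.ph (γ x) = g * R.ph x * gᵀ) → ∀ x, S (γ x) = γ (S x) := by
  obtain ⟨Q, A, hQ, hQs⟩ := exists_diag hI.ss hI.s2
  have hQ' : Qᵀ * Q = 1 := mul_eq_one_comm.1 hQ
  obtain ⟨R', hph, hf, hJ, hn⟩ := R.exists_conj hQ
  have hD : Q * s * Qᵀ = GoodInv_d A := hQs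
  obtain ⟨J0', hJ0'⟩ : ∃ J0', J0' = Q * J0 * Qᵀ := ⟨_, rfl⟩
  have hinj : ∀ {X Y : Matrix I I ℝ}, Q * X * Qᵀ = Q * Y * Qᵀ → X = Y := by
    intro X Y h
    have h3 := congrArg (fun Z => Qᵀ * Z * Q) h
    calc X = (Qᵀ * Q) * X * (Qᵀ * Q) := by rw [hQ', Matrix.one_mul, Matrix.mul_one]
      _ = Qᵀ * (Q * X * Qᵀ) * Q := by simp only [Matrix.mul_assoc]
      _ = Qᵀ * (Q * Y * Qᵀ) * Q := h3
      _ = (Qᵀ * Q) * Y * (Qᵀ * Q) := by simp only [Matrix.mul_assoc]
      _ = Y := by rw [hQ', Matrix.one_mul, Matrix.mul_one]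
  -- commuting matrices
  have hcomm : ∀ {X : Matrix I I ℝ}, s * X = X * s →
      GoodInv_d A * (Q * X * Qᵀ) = (Q * X * Qᵀ) * GoodInv_d A := by
    intro X h
    rw [← hD, ← GoodInv_mul hQ', ← GoodInv_mul hQ', h]
  have hanti : ∀ {X : Matrix I I ℝ}, s * X = -(X * s) →
      GoodInv_d A * (Q * X * Qᵀ) = -((Q * X * Qᵀ) * GoodInv_d A) := by
    intro X h
    rw [← hD, ← GoodInv_mul hQ', ← GoodInv_mul hQ', h, Matrix.mul_neg, Matrix.neg_mul]
  have hzero : ∀ {X : Matrix I I ℝ}, s * X = X * s → s * X = -(X * s) → X = 0 := by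
    intro X e1 e2
    have e3 : s * X = 0 := by
      have : (2 : ℝ) • (s * X) = 0 := by
        rw [two_smul]
        nth_rewrite 2 [e2]
        rw [← e1, add_neg_cancel]
      exact (smul_eq_zero.1 this).resolve_left two_ne_zero
    calc X = s * s * X := by rw [hI.s2, Matrix.one_mul]
      _ = s * (s * X) := by rw [Matrix.mul_assoc]
      _ = 0 := by rw [e3, Matrix.mul_zero]
  have hTT : ∀ X : Matrix I I ℝ, (Q * X * Qᵀ)ᵀ = Q * Xᵀ * Qᵀ := by
    intro X
    rw [Matrix.transpose_mul, Matrix.transpose_mul, Matrix.transpose_transpose, Matrix.mul_assoc]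
  have hsJ0 : GoodInv_d A * J0' = J0' * GoodInv_d A := by rw [hJ0']; exact hcomm hI.sJ0
  have hJ0c : ∀ x, J0' * R'.ph x = R'.ph x * J0' := by
    intro x
    rw [hJ0', hph, ← GoodInv_mul hQ', ← GoodInv_mul hQ', hI.J0c]
  have hJ0A : ∀ a b, ¬(a ∈ A ↔ b ∈ A) → J0' a b = 0 := fun a b hab => GoodInv_blk hsJ0 a b hab
  have hpc : ∀ a b, R'.ph c a b = (if a ∈ A then g1 else g2) * J0' a b := by
    intro a b
    have e : R'.ph c = (g1 / 2) • ((1 + GoodInv_d A) * J0') + (g2 / 2) • ((1 - GoodInv_d A) * J0') := by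
      have e1 : Q * ((1 + s) * J0) * Qᵀ = (1 + GoodInv_d A) * J0' := by
        rw [GoodInv_mul hQ', Matrix.mul_add, Matrix.add_mul, Matrix.mul_one, hQ, hD, hJ0']
      have e2 : Q * ((1 - s) * J0) * Qᵀ = (1 - GoodInv_d A) * J0' := by
        rw [GoodInv_mul hQ', Matrix.mul_sub, Matrix.sub_mul, Matrix.mul_one, hQ, hD, hJ0']
      rw [hph, hI.pc, Matrix.mul_add, Matrix.add_mul, Matrix.mul_smul, Matrix.smul_mul,
        Matrix.mul_smul, Matrix.smul_mul, e1, e2]
    rw [e, Matrix.add_apply, Matrix.smul_apply, Matrix.smul_apply, Matrix.add_mul, Matrix.sub_mul,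
      Matrix.one_mul, Matrix.add_apply, Matrix.sub_apply]
    unfold GoodInv_d
    rw [Matrix.diagonal_mul]
    split_ifs <;> simp only [smul_eq_mul] <;> ring
  have htr : ∀ (x : L) (X : Matrix I I ℝ), trace (R.ph x * X) = 0 →
      trace (s * R.ph x * X) = 0 →
      ∑ a ∈ A, (R'.ph x * (Q * X * Qᵀ)) a a = 0 ∧ ∑ a ∈ Aᶜ, (R'.ph x * (Q * X * Qᵀ)) a a = 0 := by
    intro x X e1 e2
    apply GoodInv_btr
    · rw [hph, ← GoodInv_mul hQ', GoodInv_tr hQ', e1]
    · rw [hph, ← GoodInv_mul hQ', ← hD, ← GoodInv_mul hQ', GoodInv_tr hQ', ← Matrix.mul_assoc, e2]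
  have hJT : ∀ a b, R'.J b a = -R'.J a b := by
    intro a b
    have := congrFun (congrFun R'.Js a) b
    rwa [Matrix.transpose_apply, Matrix.neg_apply] at this
  obtain ⟨S, T, Pp, hS⟩ := R'.exists_spl (A := A) (x1 := x1) (x2 := x2) (z := z) h1 h2 hz
    (c := c) (J0 := J0') (g1 := g1) (g2 := g2)
    (by
      intro k
      rcases hI.fs k with ⟨e1, e2⟩ | e1
      · refine Or.inl ⟨fun a b hab => ?_, ?_⟩
        · rw [hf]
          exact GoodInv_blk (hcomm e1) a b hab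
        · rw [hf, hTT, e2, Matrix.mul_neg, Matrix.neg_mul]
      · rcases hx with ⟨e3, -⟩ | e3
        · have e4 := hzero (e3 k) e1
          refine Or.inl ⟨fun a b _ => ?_, ?_⟩
          · rw [hf, e4, Matrix.mul_zero, Matrix.zero_mul]
            rfl
          · rw [hf, e4, Matrix.mul_zero, Matrix.zero_mul, Matrix.transpose_zero, neg_zero]
        · refine Or.inr ⟨fun a b hab => ?_, e3⟩
          rw [hf]
          exact GoodInv_off (hanti e1) a b hab)
    (by
      rcases hI.Js with e1 | e1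
      · refine Or.inl fun a b hab => ?_
        rw [hJ]
        exact GoodInv_blk (hcomm e1) a b hab
      · rcases hx with ⟨-, e3⟩ | e3
        · have e4 := hzero e3 e1
          refine Or.inl fun a b _ => ?_
          rw [hJ, e4, Matrix.mul_zero, Matrix.zero_mul]
          rfl
        · refine Or.inr ⟨fun a b hab => ?_, e3⟩
          rw [hJ]
          exact GoodInv_off (hanti e1) a b hab)
    (by rw [hJ0', hTT, hI.J0s, Matrix.mul_neg, Matrix.neg_mul])
    (by
      rcases hI.J0J with e1 | e1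
      · left
        rw [hJ0', e1, Matrix.mul_zero, Matrix.zero_mul]
      · right
        rw [hJ0', hTT, ← GoodInv_mul hQ', e1, Matrix.mul_one, hQ])
    hJ0A hJ0c hI.cc hpc
    (by
      intro x hxc
      obtain ⟨e1, e2⟩ := hI.tJ x hxc
      obtain ⟨e3, e4⟩ := htr x R.J e1 e2
      rw [← hJ] at e3 e4
      have e5 : ∀ a, ∑ b, R'.ph x a b * R'.J a b = -(R'.ph x * R'.J) a a := by
        intro a
        rw [Matrix.mul_apply, ← Finset.sum_neg_distrib]
        refine Finset.sum_congr rfl fun b _ => ?_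
        rw [hJT a b]
        ring
      simp only [e5, Finset.sum_neg_distrib, e3, e4, neg_zero, and_self])
  refine ⟨R', A, S, T, Pp, J0', hS, ?_, ?_, ?_, fun h δ hs => SmallR.conj hQ hph hs, ?_⟩
  · intro x hxc k
    obtain ⟨e1, e2⟩ := hI.tf x hxc k
    obtain ⟨e3, e4⟩ := htr x (R.f k) e1 e2
    rw [← hf] at e3 e4
    exact ⟨e3, e4⟩
  · have e1 := GoodInv_tr hQ' s
    rw [hD] at e1
    rw [← e1]
    unfold GoodInv_d
    rw [Matrix.trace_diagonal, ← Finset.sum_add_sum_compl A,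
      Finset.sum_congr rfl (fun a ha => if_pos ha),
      Finset.sum_congr rfl (fun a ha => if_neg (Finset.mem_compl.1 ha)), Finset.sum_const,
      Finset.sum_const, Finset.card_compl, nsmul_eq_mul, nsmul_eq_mul,
      Nat.cast_sub (Finset.card_le_univ A)]
    ring
  · intro y hy
    apply R'.inj
    ext a b
    rw [hS.pp]
    split_ifs with hab
    · rfl
    · have e1 := hcomm hy
      rw [← hph] at e1
      exact GoodInv_blk e1 a b hab
  · intro γ g hg hsg hJg hγ x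
    obtain ⟨g', hg'⟩ : ∃ g', g' = Q * g * Qᵀ := ⟨_, rfl⟩
    have hgg : g' * g'ᵀ = 1 := by
      rw [hg', hTT, ← GoodInv_mul hQ', hg, Matrix.mul_one, hQ]
    have hgb : ∀ a b, ¬(a ∈ A ↔ b ∈ A) → g' a b = 0 := by
      intro a b hab
      rw [hg']
      exact GoodInv_blk (hcomm hsg) a b hab
    have hJg' : J0' * g' = g' * J0' := by
      rw [hJ0', hg', ← GoodInv_mul hQ', ← GoodInv_mul hQ', hJg]
    have hph' : ∀ x, R'.ph (γ x) = g' * R'.ph x * g'ᵀ := by
      intro x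
      rw [hph, hph, hγ, hg', hTT, ← GoodInv_mul hQ', ← GoodInv_mul hQ']
    have hgc : g' * R'.ph c * g'ᵀ = R'.ph c := by
      have e1 : g' * R'.ph c = R'.ph c * g' := by
        ext a b
        have e2 : (g' * J0') a b = (J0' * g') a b := by rw [hJg']
        rw [Matrix.mul_apply, Matrix.mul_apply] at e2 ⊢
        have e3 : ∀ p, g' a p * R'.ph c p b = (if a ∈ A then g1 else g2) * (g' a p * J0' p b) := by
          intro p
          by_cases hp : a ∈ A ↔ p ∈ A
          · rw [hpc]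
            by_cases ha : a ∈ A
            · rw [if_pos ha, if_pos (hp.1 ha)]; ring
            · rw [if_neg ha, if_neg (fun h => ha (hp.2 h))]; ring
          · rw [hgb a p hp]; ring
        have e4 : ∀ p, R'.ph c a p * g' p b = (if a ∈ A then g1 else g2) * (J0' a p * g' p b) := by
          intro p
          rw [hpc]; ring
        simp only [e3, e4]
        rw [← Finset.mul_sum, ← Finset.mul_sum, e2]
      rw [e1, Matrix.mul_assoc, hgg, Matrix.mul_one]
    have hγc : γ c = c := by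
      have : R'.ph (γ c - c) = 0 := by rw [map_sub, hph', hgc, sub_self]
      exact sub_eq_zero.1 (R'.inj _ this)
    have hQc : Qf L (γ x) c = Qf L x c := by
      conv_lhs => rw [← hγc]
      rw [Qf_apply, Qf_apply, LieAlgebra.killingForm_of_equiv_apply]
    have e0 : R'.ph (S (γ x) - γ (S x)) = 0 := by
      ext a b
      have hw := GoodInv_wt (A := A) (1 / x1) (1 / x2) 1
      have hw' : ∀ a b c d, (a ∈ A ↔ c ∈ A) → (b ∈ A ↔ d ∈ A) →
          1 / z - wt A (1 / x1) (1 / x2) 1 a b = 1 / z - wt A (1 / x1) (1 / x2) 1 c d := by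
        intro a b c d h3 h4
        rw [hw a b c d h3 h4]
      have k1 : R'.ph (S (γ x)) a b = wt A (1 / x1) (1 / x2) 1 a b * (g' * R'.ph x * g'ᵀ) a b +
          Qf L x c * ((1 / z - wt A (1 / x1) (1 / x2) 1 a b) * R'.ph c a b) := by
        rw [hS.tS, hph', hQc]
      have k2 : R'.ph (S x) = (of fun a b => wt A (1 / x1) (1 / x2) 1 a b * R'.ph x a b) +
          Qf L x c • (of fun a b => (1 / z - wt A (1 / x1) (1 / x2) 1 a b) * R'.ph c a b) := by
        ext a b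
        rw [hS.tS]
        rfl
      have k3 := GoodInv_had (Y := of fun a b => wt A (1 / x1) (1 / x2) 1 a b * R'.ph x a b)
        (X := R'.ph x) hgb hw (fun a b => rfl) a b
      have k4 := GoodInv_had (Y := of fun a b => (1 / z - wt A (1 / x1) (1 / x2) 1 a b) *
        R'.ph c a b) (X := R'.ph c) hgb hw' (fun a b => rfl) a b
      rw [hgc] at k4
      rw [map_sub, Matrix.sub_apply, hph', k2, Matrix.mul_add, Matrix.add_mul, Matrix.mul_smul,
        Matrix.smul_mul, Matrix.add_apply, Matrix.smul_apply, k3, k4, k1, smul_eq_mul]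
      rw [sub_self]
      rfl
    exact sub_eq_zero.1 (R'.inj _ e0)

end

/-- The automorphism `γ` is given by an orthogonal matrix which commutes with `s` and `J0`. -/
def ByMat {L : Type} [LieRing L] [LieAlgebra ℝ L] {I : Type} [Fintype I] [DecidableEq I] {m : ℕ}
    (R : Rp L I m) (s J0 : Matrix I I ℝ) (γ : L ≃ₗ⁅ℝ⁆ L) : Prop :=
  ∃ g : Matrix I I ℝ, g * gᵀ = 1 ∧ s * g = g * s ∧ J0 * g = g * J0 ∧
    ∀ x, R.ph (γ x) = g * R.ph x * gᵀ

theorem good_inv (m : ℕ) {θ : ℝ} (hθ : 0 < θ) : ∃ c K : ℝ, 1 ≤ c ∧ 1 ≤ K ∧ ∀ τ eps : ℝ, 0 < τ →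
    0 < eps → ∃ δ : ℝ, 0 < δ ∧
    ∀ (L : Type) [LieRing L] [LieAlgebra ℝ L] [Module.Finite ℝ L] (I : Type) [Fintype I]
    [DecidableEq I] (R : Rp L I m) (s : Matrix I I ℝ) (c' : L) (J0 : Matrix I I ℝ) (g1 g2 : ℝ),
    InvD R s c' J0 g1 g2 → 1 / δ ≤ Fintype.card I →
    |trace s| ≤ (1 - 2 * θ) * Fintype.card I →
    (((∀ k, s * R.f k = R.f k * s) ∧ s * R.J = R.J * s) ∨ trace s = 0) →
    ∀ h : LieSubalgebra ℝ L, (∀ y ∈ h, s * R.ph y = R.ph y * s) → SmallR R h δ →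
    ∀ G : Set (L ≃ₗ⁅ℝ⁆ L), (∀ γ ∈ G, ByMat R s J0 γ) → GoodAt h G c τ eps K := by
  classical
  obtain ⟨c, K, hF⟩ := fac_Vu m (θ := min θ (1 / 2)) (lt_min hθ (by norm_num))
  obtain ⟨C, hC⟩ : ∃ C : ℝ, C = max c 1 := ⟨_, rfl⟩
  have hC1 : 1 ≤ C := by rw [hC]; exact le_max_right _ _
  have hCc : c ≤ C := by rw [hC]; exact le_max_left _ _
  refine ⟨C ^ 2, C * max K 1, one_le_pow₀ hC1, by nlinarith [le_max_right K 1], ?_⟩
  intro τ eps hτ heps
  have hC0 : 0 < C := by linarith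
  obtain ⟨θ', hθ'⟩ : ∃ θ' : ℝ, θ' = min θ (1 / 2) := ⟨_, rfl⟩
  rw [← hθ'] at hF
  have t1 : θ' ≤ θ := by rw [hθ']; exact min_le_left _ _
  have t2 : θ' ≤ 1 / 2 := by rw [hθ']; exact min_le_right _ _
  have t0 : 0 < θ' := by rw [hθ']; exact lt_min hθ (by norm_num)
  have hl : ∀ ν : ℝ, ∃ δ : ℝ, 0 < δ ∧ (θ' ≤ ν → ν ≤ 1 - θ' →
      ∀ (L : Type) [LieRing L] [LieAlgebra ℝ L] [Module.Finite ℝ L] (I : Type) [Fintype I]
      [DecidableEq I] (R : Rp L I m) (A : Finset I) (S T Pp : L →ₗ[ℝ] L) (c' : L)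
      (J0 : Matrix I I ℝ) (g1 g2 : ℝ),
      Spl R A (xN ν) (xN (1 - ν)) (4 * lamN ν) S T Pp c' J0 g1 g2 → TrZ R A c' →
      1 / δ ≤ Fintype.card I → |(A.card : ℝ) / Fintype.card I - ν| ≤ δ →
      ∀ h : LieSubalgebra ℝ L, (∀ y ∈ h, Pp y = 0) → SmallR R h δ →
      ∀ G : Set (L ≃ₗ⁅ℝ⁆ L), (∀ γ ∈ G, ∀ x, S (γ x) = γ (S x)) →
        ∃ D : L →ₗ[ℝ] L, Fac h G S T Pp D c (τ / C) (lamN ν) (eps / C ^ 2) K) := by
    intro ν
    by_cases h : θ' ≤ ν ∧ ν ≤ 1 - θ'
    · obtain ⟨δ, hδ, hd⟩ := hF ν h.1 h.2 (τ / C) (eps / C ^ 2) (by positivity) (by positivity)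
      exact ⟨δ, hδ, fun _ _ => hd⟩
    · exact ⟨1, one_pos, fun a b => absurd ⟨a, b⟩ h⟩
  choose d hd0 hd using hl
  obtain ⟨t, ht, hcov⟩ := (isCompact_Icc (a := θ') (b := 1 - θ')).elim_nhds_subcover
    (fun ν => Metric.ball ν (d ν)) fun ν _ => Metric.ball_mem_nhds ν (hd0 ν)
  obtain ⟨δ', hδ', hmin⟩ : ∃ δ : ℝ, 0 < δ ∧ ∀ ν ∈ t, δ ≤ d ν := by
    by_cases hne : t.Nonempty
    · refine ⟨t.inf' hne d, ?_, fun ν hν => Finset.inf'_le d hν⟩
      rw [Finset.lt_inf'_iff]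
      exact fun ν _ => hd0 ν
    · rw [Finset.not_nonempty_iff_eq_empty] at hne
      exact ⟨1, one_pos, fun ν hν => by rw [hne] at hν; exact absurd hν (Finset.notMem_empty _)⟩
  refine ⟨min δ' (d (1 / 2)), lt_min hδ' (hd0 _), ?_⟩
  intro L _ _ _ I _ _ R s c' J0 g1 g2 hI hM htr hcase h hh hs G hG
  have hδ0 : 0 < min δ' (d (1 / 2)) := lt_min hδ' (hd0 _)
  have hM0 : (0 : ℝ) < Fintype.card I := lt_of_lt_of_le (by positivity) hM
  -- the main step for a given `ν`
  have main : ∀ ν, θ' ≤ ν → ν ≤ 1 - θ' → min δ' (d (1 / 2)) ≤ d ν →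
      |(trace s + Fintype.card I) / 2 / Fintype.card I - ν| ≤ d ν →
      (((∀ k, s * R.f k = R.f k * s) ∧ s * R.J = R.J * s) ∨ xN ν = xN (1 - ν)) →
      GoodAt h G (C ^ 2) τ eps (C * max K 1) := by
    intro ν hν0 hν1 hδν hp hx
    have h0 : 0 < ν := by linarith
    have h1 : ν < 1 := by linarith
    obtain ⟨hlam, -⟩ := lamN_pos h0 h1
    obtain ⟨R', A, S, T, Pp, J0', hS, hTr, hA, hP, hsm, hau⟩ := GoodInv_core hI
      (xN_pos h0 h1) (xN_pos (ν := 1 - ν) (by linarith) (by linarith))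
      (mul_pos four_pos hlam) hx
    have hAp : (A.card : ℝ) / Fintype.card I = (trace s + Fintype.card I) / 2 / Fintype.card I := by
      rw [hA]
      ring
    obtain ⟨D, hD⟩ := hd ν hν0 hν1 L I R' A S T Pp c' J0' g1 g2 hS hTr
      ((one_div_le_one_div_of_le hδ0 hδν).trans hM) (by rw [hAp]; exact hp) h
      (fun y hy => hP y (hh y hy)) ((hsm h _ hs).mono hδν) G
      (fun γ hγ => by
        obtain ⟨g, k1, k2, k3, k4⟩ := hG γ hγ
        exact hau γ g k1 k2 k3 k4)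
    have hcC : c = C := by rw [hC]; exact (max_eq_left hD.c1).symm
    have hsc := fac_scale hD
    rw [hcC] at hsc
    have e1 : C * (τ / C) = τ := by field_simp
    have e2 : C ^ 2 * (eps / C ^ 2) = eps := by field_simp
    rw [e1, e2] at hsc
    exact good_mono ⟨_, _, _, _, hsc⟩ le_rfl (mul_le_mul_of_nonneg_left (le_max_left _ _) hC0.le)
  rcases hcase with hc | hc
  · have hmem : (trace s + Fintype.card I) / 2 / Fintype.card I ∈ Set.Icc θ' (1 - θ') := by
      have hx := abs_le.1 htr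
      constructor
      · rw [le_div_iff₀ hM0]
        nlinarith [hx.1]
      · rw [div_le_iff₀ hM0]
        nlinarith [hx.2]
    obtain ⟨ν, hνt, hν⟩ := Set.mem_iUnion₂.1 (hcov hmem)
    have hνI := ht ν hνt
    rw [Metric.mem_ball, Real.dist_eq] at hν
    exact main ν hνI.1 hνI.2 ((min_le_left _ _).trans (hmin ν hνt)) hν.le (Or.inl hc)
  · refine main (1 / 2) t2 (by linarith) (min_le_right _ _) ?_ (Or.inr ?_)
    · have e : (trace s + Fintype.card I) / 2 / Fintype.card I - 1 / 2 = 0 := by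
        rw [hc]
        field_simp
        ring
      rw [e, abs_zero]
      exact (hd0 _).le
    · norm_num

end Pool.Agent.EinV
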