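import Pool.Agent.EinV.Good
import Pool.Agent.EinV.EtF
import Pool.Agent.EinV.Main
import Pool.Agent.EinV.GapU

/-!
# The base metric of `Spl` is good

Copy of the proof of `einstein_V` (`Main.lean`): the fields of `Fac` are those of `LBaseG` there.  `c = c0`, `K` from `gapV`; `lac`: `lamN ν ≤ c0`.
`offP`, `off`: `σ` from `Spl.refl` fixes `h` and commutes with `S`, so `σ v = v`, `Pp v = 0`, and `S (D u) = D u = Pp (D u)`.
`cp`: `β` commutes with `σ`.  `et`: `fam_small`, `et_fam`.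
The constants `c`, `K` are uniform for `θ ≤ ν ≤ 1 - θ` (`gapV_u`, `EinV/GapU.lean` of helper20; `c` is a bound for `c0` on `[θ, 1 - θ]`); only `δ` may depend on `ν`.
`fac_core` has the gap and the bounds for the constants as hypotheses (`GapV`, `CBd`).
-/

namespace Pool.Agent.EinV

open Matrix Pool.Agent.EStab Pool.Agent.EinS Pool.Agent.SmIso Pool.Agent.EinU Pool.Agent.EinG

private theorem GoodV_nn {L : Type} [LieRing L] [LieAlgebra ℝ L] {I : Type} [Fintype I]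
    [DecidableEq I] {m : ℕ} (R : Rp L I m) (x : L) : 0 ≤ Qf L x x := by
  rw [R.qf]
  exact mul_nonneg (by linarith [R.n1]) (Finset.sum_nonneg fun _ _ =>
    Finset.sum_nonneg fun _ _ => mul_self_nonneg _)

private theorem GoodV_compact {L : Type} [LieRing L] [LieAlgebra ℝ L] {I : Type} [Fintype I]
    [DecidableEq I] {m : ℕ} (R : Rp L I m) : CompactSemisimple L := by
  intro x hx
  by_contra hk
  have h1 : Qf L x x ≤ 0 := by
    rw [Qf_apply]
    linarith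
  have h2 : Qf L x x = 0 := le_antisymm h1 (GoodV_nn R x)
  rw [R.qf] at h2
  have h3 : ∑ a, ∑ b, R.ph x a b * R.ph x a b = 0 := by
    rcases mul_eq_zero.1 h2 with h | h
    · linarith [R.n1]
    · exact h
  apply hx
  apply R.inj
  ext a b
  have h4 := (Finset.sum_eq_zero_iff_of_nonneg (fun a _ =>
    Finset.sum_nonneg fun b _ => mul_self_nonneg (R.ph x a b))).1 h3 a (Finset.mem_univ a)
  have h5 := (Finset.sum_eq_zero_iff_of_nonneg (fun b _ =>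
    mul_self_nonneg (R.ph x a b))).1 h4 b (Finset.mem_univ b)
  exact mul_self_eq_zero.1 h5

private theorem GoodV_qP {L : Type} [LieRing L] [LieAlgebra ℝ L] {I : Type} [Fintype I]
    [DecidableEq I] {m : ℕ} (R : Rp L I m) {Pp : L →ₗ[ℝ] L} (hs : QSym Pp)
    (h2 : ∀ x, Pp (Pp x) = Pp x) (x : L) :
    0 ≤ Qf L (Pp x) x ∧ Qf L (Pp x) x ≤ Qf L x x := by
  have e1 : Qf L (Pp x) x = Qf L (Pp x) (Pp x) := by
    have := hs (Pp x) x
    rw [h2] at this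
    exact this
  have e2 : Qf L (x - Pp x) (x - Pp x) = Qf L x x - Qf L (Pp x) x := by
    have e3 : Qf L (x - Pp x) (x - Pp x) =
        Qf L x x - Qf L x (Pp x) - (Qf L (Pp x) x - Qf L (Pp x) (Pp x)) := by
      simp only [map_sub, LinearMap.sub_apply]
      try ring
    rw [e3, Qf_symm x (Pp x), ← e1]
    ring
  have p1 := GoodV_nn R (Pp x)
  have p2 := GoodV_nn R (x - Pp x)
  rw [e2] at p2
  rw [← e1] at p1
  exact ⟨p1, by linarith⟩

/-- The statement of `gapV` with the constants `K`, `δ`. -/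
def GapV (m : ℕ) (ν K δ : ℝ) : Prop :=
  ∀ (L : Type) [LieRing L] [LieAlgebra ℝ L] [Module.Finite ℝ L] (I : Type) [Fintype I]
    [DecidableEq I] (R : Rp L I m) (A : Finset I) (S T Pp : L →ₗ[ℝ] L) (c : L)
    (J0 : Matrix I I ℝ) (g1 g2 : ℝ),
    Spl R A (xN ν) (xN (1 - ν)) (4 * lamN ν) S T Pp c J0 g1 g2 → 1 / δ ≤ Fintype.card I →
    |(A.card : ℝ) / Fintype.card I - ν| ≤ δ →
    ∀ (D : L →ₗ[ℝ] L) , DD S T Pp D (2 * lamN ν - 1 - sN ν) δ →
    ∀ (β : L →ₗ[ℝ] L) (s : ℝ), QSym β → (∀ x, β (Pp x) = Pp (β x)) →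
      (∀ y, |ellQG S T D (lamN ν) β y| ≤ s * Qf L y y) → NBL β (K * s)

/-- `c0` bounds all the constants. -/
structure CBd (ν c0 : ℝ) : Prop where
  c1 : 1 ≤ c0
  a1 : xN ν ≤ c0
  a2 : 1 / xN ν ≤ c0
  a3 : xN (1 - ν) ≤ c0
  a4 : 1 / xN (1 - ν) ≤ c0
  a5 : 1 / lamN ν ≤ c0
  a6 : 4 * lamN ν ≤ c0
  a7 : 1 / (4 * lamN ν) ≤ c0
  a8 : |2 * lamN ν - 1 - sN ν| + 1 ≤ c0
  a9 : 2 / ν ≤ c0
  a10 : 2 / (1 - ν) ≤ c0

theorem fac_core (m : ℕ) {ν : ℝ} (h0 : 0 < ν) (h1 : ν < 1) {K δ₁ c0 : ℝ} (hK : 1 ≤ K)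
    (hδ₁ : 0 < δ₁) (hgap : GapV m ν K δ₁) (hcb : CBd ν c0) (τ eps : ℝ) (hτ0 : 0 < τ)
    (heps0 : 0 < eps) : ∃ δ : ℝ, 0 < δ ∧
    ∀ (L : Type) [LieRing L] [LieAlgebra ℝ L] [Module.Finite ℝ L] (I : Type) [Fintype I]
    [DecidableEq I] (R : Rp L I m) (A : Finset I) (S T Pp : L →ₗ[ℝ] L) (c' : L)
    (J0 : Matrix I I ℝ) (g1 g2 : ℝ),
    Spl R A (xN ν) (xN (1 - ν)) (4 * lamN ν) S T Pp c' J0 g1 g2 → TrZ R A c' →
    1 / δ ≤ Fintype.card I → |(A.card : ℝ) / Fintype.card I - ν| ≤ δ →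
    ∀ h : LieSubalgebra ℝ L, (∀ y ∈ h, Pp y = 0) → SmallR R h δ →
    ∀ G : Set (L ≃ₗ⁅ℝ⁆ L), (∀ γ ∈ G, ∀ x, S (γ x) = γ (S x)) →
      ∃ D : L →ₗ[ℝ] L, Fac h G S T Pp D c0 τ (lamN ν) eps K := by
  have h0' : 0 < 1 - ν := by linarith
  have h1' : 1 - ν < 1 := by linarith
  have hx1 := xN_pos h0 h1
  have hx2 := xN_pos h0' h1'
  obtain ⟨hl, -⟩ := lamN_pos h0 h1
  have hc1 : 1 ≤ c0 := hcb.c1
  have hc0 : 0 < c0 := by linarith
  have hK0 : 0 < K := by linarith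
  set e : ℝ := min (min δ₁ eps) 1 with he
  have he0 : 0 < e := lt_min (lt_min hδ₁ heps0) one_pos
  obtain ⟨δ₂, hδ₂, hbase⟩ := base_V m h0 h1 e he0
  obtain ⟨C, hC, het⟩ := et_fam c0 m
  have hC0 : 0 < C := by linarith
  have hδ₃ : 0 < τ ^ 2 / (2 * C) := by positivity
  have hδ₄ : 0 < min (ν / 2) ((1 - ν) / 2) := lt_min (by linarith) (by linarith)
  have hδ₅ : (0 : ℝ) < 1 / (4 * ((m : ℝ) + 1)) := by positivity
  set δ : ℝ := min (min δ₁ δ₂) (min (τ ^ 2 / (2 * C))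
    (min (min (ν / 2) ((1 - ν) / 2)) (1 / (4 * ((m : ℝ) + 1))))) with hδ
  have hδ0 : 0 < δ := lt_min (lt_min hδ₁ hδ₂) (lt_min hδ₃ (lt_min hδ₄ hδ₅))
  have d1 : δ ≤ δ₁ := (min_le_left _ _).trans (min_le_left _ _)
  have d2 : δ ≤ δ₂ := (min_le_left _ _).trans (min_le_right _ _)
  have d3 : δ ≤ τ ^ 2 / (2 * C) := (min_le_right _ _).trans (min_le_left _ _)
  have d4 : δ ≤ min (ν / 2) ((1 - ν) / 2) :=
    ((min_le_right _ _).trans (min_le_right _ _)).trans (min_le_left _ _)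
  have d5 : δ ≤ 1 / (4 * ((m : ℝ) + 1)) :=
    ((min_le_right _ _).trans (min_le_right _ _)).trans (min_le_right _ _)
  refine ⟨δ, hδ0, ?_⟩
  intro L _ _ _ I _ _ R A S T Pp c J0 g1 g2 hS hTr hN hA h hh hs G hG
  have hNd : ∀ d, δ ≤ d → 1 / d ≤ (Fintype.card I : ℝ) := fun d hd =>
    (one_div_le_one_div_of_le hδ0 hd).trans hN
  have hM0 : (0 : ℝ) < Fintype.card I := lt_of_lt_of_le (by positivity) hN
  have hM1 : 1 / (Fintype.card I : ℝ) ≤ δ := by
    rw [div_le_iff₀ hM0]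
    rw [div_le_iff₀ hδ0] at hN
    linarith [mul_comm (Fintype.card I : ℝ) δ]
  -- the bounds
  have hinv : ∀ u : ℝ, 0 < u → 1 / u ≤ c0 → 1 / c0 ≤ u := by
    intro u hu huc
    rw [div_le_iff₀ hc0]
    rw [div_le_iff₀ hu] at huc
    linarith
  have hb : Bnd I m A (xN ν) (xN (1 - ν)) (4 * lamN ν) c0 := by
    have hA' := abs_le.1 hA
    refine ⟨hc1, hinv _ hx1 hcb.a2, hcb.a1, hinv _ hx2 hcb.a4, hcb.a3,
      hinv _ (by linarith) hcb.a7, hcb.a6, ?_, ?_, ?_⟩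
    · have d6 : δ ≤ ν / 2 := d4.trans (min_le_left _ _)
      have k1 : ν / 2 ≤ (A.card : ℝ) / Fintype.card I := by linarith [hA'.1]
      rw [le_div_iff₀ hM0] at k1
      have k2 : 2 / ν ≤ c0 := hcb.a9
      have k3 : (Fintype.card I : ℝ) = 2 / ν * (ν / 2 * Fintype.card I) := by field_simp
      calc (Fintype.card I : ℝ) = 2 / ν * (ν / 2 * Fintype.card I) := k3
        _ ≤ c0 * A.card := mul_le_mul k2 k1 (by positivity) hc0.le
    · have d6 : δ ≤ (1 - ν) / 2 := d4.trans (min_le_right _ _)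
      have k0 : ((Aᶜ).card : ℝ) = Fintype.card I - A.card := by
        rw [Finset.card_compl, Nat.cast_sub (Finset.card_le_univ A)]
      have k1 : (A.card : ℝ) / Fintype.card I ≤ ν + (1 - ν) / 2 := by linarith [hA'.2]
      rw [div_le_iff₀ hM0] at k1
      have k1' : (1 - ν) / 2 * Fintype.card I ≤ ((Aᶜ).card : ℝ) := by
        rw [k0]
        linarith
      have k2 : 2 / (1 - ν) ≤ c0 := hcb.a10
      have k3 : (Fintype.card I : ℝ) = 2 / (1 - ν) * ((1 - ν) / 2 * Fintype.card I) := by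
        field_simp
      calc (Fintype.card I : ℝ) = 2 / (1 - ν) * ((1 - ν) / 2 * Fintype.card I) := k3
        _ ≤ c0 * (Aᶜ).card := mul_le_mul k2 k1' (by positivity) hc0.le
    · have := hNd _ d5
      rwa [one_div_one_div] at this
  obtain ⟨D, hDs, hDP, hPD, hDt⟩ := hS.exists_D
  obtain ⟨hdom, hbs⟩ := hbase L I R A S T Pp c J0 g1 g2 hS hTr (hNd _ d2) (hA.trans d2) D hDs hDP
    hPD hDt
  have hDD : DD S T Pp D (2 * lamN ν - 1 - sN ν) δ₁ := by
    refine ⟨hδ₁.le, hDs, hDP, hPD, fun x => (hdom x).trans ?_, fun β hβ hc x =>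
      hS.zcond hβ hc x⟩
    exact mul_le_mul_of_nonneg_right ((min_le_left _ _).trans (min_le_left _ _)) (GoodV_nn R x)
  obtain ⟨σ, hσ⟩ := hS.refl
  have hσf : FixS h S σ := by
    refine ⟨fun y hy => ?_, fun x => ?_⟩
    · rw [hσ, hh y hy, smul_zero, sub_zero]
    · rw [hσ, hσ, map_sub, map_smul, hS.SP, hS.PS]
  have hcp : ∀ β : L →ₗ[ℝ] L, ClsG h G S β → ∀ x, β (Pp x) = Pp (β x) := by
    rintro β ⟨-, hβ⟩ x
    have k := hβ σ (Or.inr hσf) x
    rw [hσ, hσ, map_sub, map_smul, sub_right_inj] at k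
    exact smul_right_injective L (two_ne_zero' ℝ) k
  have hqP := GoodV_qP R hS.sP hS.P2
  have hSD : ∀ x, S (D x) = D x := fun x => by rw [← hPD x, hS.SP]
  have hDS : ∀ x, D (S x) = D x := fun x => by rw [← hDP (S x), hS.PS, hDP]
  have hoff : ∀ v, (∀ γ, FixS h S γ → γ v = v) → Pp v = 0 := by
    intro v hv
    have k := hv σ hσf
    rw [hσ, sub_eq_self] at k
    exact (smul_eq_zero.1 k).resolve_left two_ne_zero
  refine ⟨D,
    { comp := GoodV_compact R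
      symS := hS.sS
      symT := hS.sT
      symP := hS.sP
      symD := hDs
      ST := hS.ST
      TS := hS.TS
      c1 := hc1
      t0 := hτ0.le
      e0 := heps0.le
      K1 := hK
      loS := fun x => (hS.lo hb x).1
      hiS := fun x => (hS.hi hb x).1
      loT := fun x => ?_
      hiT := fun x => (hS.hi hb x).2
      bdD := fun x => ?_
      pp2 := hS.P2
      Spp := fun x => by rw [hS.SP, hS.PS]
      Dpp := hDP
      SD := fun x => by rw [hSD, hDS]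
      hpp := hh
      et := fun n b hb1 hb2 x => ?_
      uts := hDt
      la := hl
      lac := by linarith [hcb.a6]
      la' := hcb.a5
      base := fun x => (hbs x).trans ?_
      inv := hG
      offP := hoff
      off := fun v hv u => ?_
      cp := hcp
      z := fun β hβ x => hS.zcond hβ.1 (hcp β hβ) x
      gap := fun β hβ s hes => hgap L I R A S T Pp c J0 g1 g2 hS (hNd _ d1) (hA.trans d1) D hDD β s
        hβ.1 (hcp β hβ) hes }⟩
  · have k := (hS.lo hb x).2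
    have k2 := GoodV_nn R x
    have k3 : 0 ≤ 1 / c0 * Qf L x x := by positivity
    linarith
  · have k1 := hdom x
    obtain ⟨k2, k3⟩ := hqP x
    have k4 := GoodV_nn R x
    have k5 : e ≤ 1 := min_le_right _ _
    have k6 : |(2 * lamN ν - 1 - sN ν) * Qf L (Pp x) x| ≤
        |2 * lamN ν - 1 - sN ν| * Qf L x x := by
      rw [abs_mul, abs_of_nonneg k2]
      exact mul_le_mul_of_nonneg_left k3 (abs_nonneg _)
    have k7 : e * Qf L x x ≤ 1 * Qf L x x := mul_le_mul_of_nonneg_right k5 k4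
    have k8 : |Qf L (D x) x| ≤ |Qf L (D x) x - (2 * lamN ν - 1 - sN ν) * Qf L (Pp x) x| +
        |(2 * lamN ν - 1 - sN ν) * Qf L (Pp x) x| := by
      have := abs_add_le (Qf L (D x) x - (2 * lamN ν - 1 - sN ν) * Qf L (Pp x) x)
        ((2 * lamN ν - 1 - sN ν) * Qf L (Pp x) x)
      rwa [sub_add_cancel] at this
    have k9 : (|2 * lamN ν - 1 - sN ν| + 1) * Qf L x x ≤ c0 * Qf L x x :=
      mul_le_mul_of_nonneg_right hcb.a8 k4
    linarith
  · have k := het L I R A (xN ν) (xN (1 - ν)) (4 * lamN ν) S T Pp c J0 g1 g2 hS hb δ hδ0.le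
      n b (fun i => hh _ (hb1 i)) (fam_small R hs hb1 hb2) hb2 x
    have k1 : C * (δ + 1 / Fintype.card I) * Qf L x x ≤ τ ^ 2 * Qf L x x := by
      apply mul_le_mul_of_nonneg_right _ (GoodV_nn R x)
      rw [le_div_iff₀ (by positivity)] at d3
      nlinarith
    exact ⟨k.1.trans k1, k.2.1.trans k1, k.2.2.trans k1⟩
  · exact mul_le_mul_of_nonneg_right ((min_le_left _ _).trans (min_le_right _ _)) (GoodV_nn R x)
  · rw [hSD, ← hPD u]
    have k := hS.sP v (D u)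
    rw [hoff v hv, map_zero, LinearMap.zero_apply] at k
    exact k.symm

theorem fac_V (m : ℕ) {θ : ℝ} (hθ : 0 < θ) : ∃ c K : ℝ, 1 ≤ c ∧ 1 ≤ K ∧ ∀ ν : ℝ, θ ≤ ν →
    ν ≤ 1 - θ → ∀ τ eps : ℝ, 0 < τ → 0 < eps → ∃ δ : ℝ, 0 < δ ∧
    ∀ (L : Type) [LieRing L] [LieAlgebra ℝ L] [Module.Finite ℝ L] (I : Type) [Fintype I]
    [DecidableEq I] (R : Rp L I m) (A : Finset I) (S T Pp : L →ₗ[ℝ] L) (c' : L)
    (J0 : Matrix I I ℝ) (g1 g2 : ℝ),
    Spl R A (xN ν) (xN (1 - ν)) (4 * lamN ν) S T Pp c' J0 g1 g2 → TrZ R A c' →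
    1 / δ ≤ Fintype.card I → |(A.card : ℝ) / Fintype.card I - ν| ≤ δ →
    ∀ h : LieSubalgebra ℝ L, (∀ y ∈ h, Pp y = 0) → SmallR R h δ →
    ∀ G : Set (L ≃ₗ⁅ℝ⁆ L), (∀ γ ∈ G, ∀ x, S (γ x) = γ (S x)) →
      ∃ D : L →ₗ[ℝ] L, Fac h G S T Pp D c τ (lamN ν) eps K := by
  obtain ⟨K, hK, δ₁, hδ₁, hgap⟩ := gapV_u m hθ
  obtain ⟨c0, hc1, hc⟩ := cst_bd hθ
  refine ⟨c0, K, hc1, hK, fun ν hν hν' τ eps hτ heps => ?_⟩
  have h0 : 0 < ν := by linarith
  have h1 : ν < 1 := by linarith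
  have h0' : 0 < 1 - ν := by linarith
  have h1' : 1 - ν < 1 := by linarith
  have hx1 := xN_pos h0 h1
  have hx2 := xN_pos h0' h1'
  obtain ⟨hl, hl'⟩ := lamN_pos h0 h1
  have p1 : 0 < 1 / xN ν := by positivity
  have p2 : 0 < 1 / xN (1 - ν) := by positivity
  have p3 : 0 < 1 / lamN ν := by positivity
  have p4 : 0 < 1 / (4 * lamN ν) := by positivity
  have p5 : 0 ≤ |2 * lamN ν - 1 - sN ν| := abs_nonneg _
  have p6 : 0 < 2 / ν := by positivity
  have p7 : 0 < 2 / (1 - ν) := by positivity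
  have p8 : 0 < 1 / (1 + sN ν - lamN ν) := by positivity
  have hh := hc ν hν hν'
  have hcb : CBd ν c0 := by
    refine ⟨hc1, ?_, ?_, ?_, ?_, ?_, ?_, ?_, ?_, ?_, ?_⟩ <;> linarith
  exact fac_core m h0 h1 hK hδ₁ (hgap ν hν hν') hcb τ eps hτ heps

end Pool.Agent.EinV
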