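import Pool.Agent.EinV.GoodV

/-!
# The base metric of `Spl` is good, uniform constants

`fac_V` (`GoodV.lean`) in the form used by `GoodInv.lean`.
-/

namespace Pool.Agent.EinV

open Matrix Pool.Agent.EStab Pool.Agent.EinS Pool.Agent.SmIso Pool.Agent.EinU Pool.Agent.EinG

theorem fac_Vu (m : ℕ) {θ : ℝ} (hθ : 0 < θ) : ∃ c K : ℝ, ∀ ν, θ ≤ ν → ν ≤ 1 - θ →
    ∀ τ eps : ℝ, 0 < τ → 0 < eps → ∃ δ : ℝ, 0 < δ ∧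
    ∀ (L : Type) [LieRing L] [LieAlgebra ℝ L] [Module.Finite ℝ L] (I : Type) [Fintype I]
    [DecidableEq I] (R : Rp L I m) (A : Finset I) (S T Pp : L →ₗ[ℝ] L) (c' : L)
    (J0 : Matrix I I ℝ) (g1 g2 : ℝ),
    Spl R A (xN ν) (xN (1 - ν)) (4 * lamN ν) S T Pp c' J0 g1 g2 → TrZ R A c' →
    1 / δ ≤ Fintype.card I → |(A.card : ℝ) / Fintype.card I - ν| ≤ δ →
    ∀ h : LieSubalgebra ℝ L, (∀ y ∈ h, Pp y = 0) → SmallR R h δ →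
    ∀ G : Set (L ≃ₗ⁅ℝ⁆ L), (∀ γ ∈ G, ∀ x, S (γ x) = γ (S x)) →
      ∃ D : L →ₗ[ℝ] L, Fac h G S T Pp D c τ (lamN ν) eps K := by
  obtain ⟨c, K, -, -, h⟩ := fac_V m hθ
  exact ⟨c, K, h⟩

end Pool.Agent.EinV
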