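import Pool.Agent.EinV.RpB
import Pool.Agent.EinV.EtaV

/-!
# The inverse of the representation, existence of the splitting data, change of coordinates

`ph_hat`: by `ker`, `ph (hat X) = (1/(2(m+1))) (X - Xᵀ + ∑ k, f (X - Xᵀ) fᵀ) - (⟨X, J⟩ / M) J`; `f X = X f` and `fᵀ f = 1 = f fᵀ`.

`exists_spl`: `Pp x = hat (off-diagonal part of ph x)`, `T x = hat (w ∘ ph (x - q c)) + (q z) c`, `q = Qf x c`, `w = wt A x1 x2 1`,
and `S` with `1/x1`, `1/x2`, `1/z`.  These matrices are skew and commute with the `f k`: for block diagonal `f` blockwise, for block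
off-diagonal `f` and `x1 = x2` the weight only depends on whether the blocks of `a` and `b` are equal.  The products with `J` vanish: for block
diagonal `J` by `hJ`, applied to `x - q c`, for block off-diagonal `J` only the off-diagonal part matters, `⟨ph x, J⟩ = 0` (`hJ` for `x - q c`, and
`⟨ph c, J⟩ = 0` because `ph c` is block diagonal by `pc`, `J0A`).

`exists_conj`: `e' a b = ∑ a', ∑ b', (Q a a' * Q b b') • e a' b'`, `ph' x = Q * ph x * Qᵀ`.
-/

namespace Pool.Agent.EinV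

open Matrix Pool.Agent.EStab Pool.Agent.EinS Pool.Agent.SmIso Pool.Agent.EinU Pool.Agent.EinG

variable {L : Type} [LieRing L] [LieAlgebra ℝ L] {I : Type} [Fintype I] [DecidableEq I] {m : ℕ}
  (R : Rp L I m)

/-- The element of `L` which corresponds to a matrix. -/
noncomputable def Rp.hat : Matrix I I ℝ →ₗ[ℝ] L where
  toFun X := ∑ a, ∑ b, X a b • R.e a b
  map_add' X Y := by
    simp only [Matrix.add_apply, add_smul, Finset.sum_add_distrib]
  map_smul' r X := by
    simp only [Matrix.smul_apply, smul_eq_mul, mul_smul, Finset.smul_sum, RingHom.id_apply]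

private theorem Hat_apply (X : Matrix I I ℝ) : R.hat X = ∑ a, ∑ b, X a b • R.e a b := rfl

theorem Rp.Qf_hatl (X : Matrix I I ℝ) (x : L) :
    Qf L (R.hat X) x = R.n * ∑ a, ∑ b, X a b * R.ph x a b := by
  rw [Hat_apply, map_sum, LinearMap.sum_apply, Finset.mul_sum]
  refine Finset.sum_congr rfl fun a _ => ?_
  rw [map_sum, LinearMap.sum_apply, Finset.mul_sum]
  refine Finset.sum_congr rfl fun b _ => ?_
  rw [map_smul, LinearMap.smul_apply, R.he, smul_eq_mul]
  ring

theorem Rp.hat_ph (x : L) : R.hat (R.ph x) = x := (R.exp x).symm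

omit [DecidableEq I] in
private theorem Hat_sum_single [DecidableEq I] (X : Matrix I I ℝ) :
    ∑ a, ∑ b, X a b • Matrix.single a b (1 : ℝ) = X := by
  conv_rhs => rw [Matrix.matrix_eq_sum_single X]
  refine Finset.sum_congr rfl fun a _ => Finset.sum_congr rfl fun b _ => ?_
  rw [Matrix.smul_single, smul_eq_mul, mul_one]

private theorem Hat_sum_single' (X : Matrix I I ℝ) :
    ∑ a, ∑ b, X a b • (Matrix.single a b (1 : ℝ) - Matrix.single b a 1) = X - Xᵀ := by
  simp only [smul_sub, Finset.sum_sub_distrib]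
  rw [Hat_sum_single]
  congr 1
  rw [Finset.sum_comm]
  exact Hat_sum_single Xᵀ

private theorem Hat_ff (k : Fin m) : R.f k * (R.f k)ᵀ = 1 := mul_eq_one_comm.1 (R.fo k)

/-- The image of `hat`, without assumptions. -/
private theorem Hat_ker (X : Matrix I I ℝ) : R.ph (R.hat X) =
    (1 / (2 * ((m : ℝ) + 1))) • ((X - Xᵀ) + ∑ k, R.f k * (X - Xᵀ) * (R.f k)ᵀ) -
      ((∑ a, ∑ b, X a b * R.J a b) / Fintype.card I) • R.J := by
  have h1 : ∀ a b, R.ph (X a b • R.e a b) =
      (1 / (2 * ((m : ℝ) + 1))) • (X a b • (Matrix.single a b (1 : ℝ) - Matrix.single b a 1) +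
        ∑ k, R.f k * (X a b • (Matrix.single a b (1 : ℝ) - Matrix.single b a 1)) * (R.f k)ᵀ) -
          ((X a b * R.J a b) / Fintype.card I) • R.J := by
    intro a b
    rw [map_smul, R.ker, smul_sub, smul_smul, smul_smul, mul_comm (X a b) (1 / _), ← smul_smul,
      smul_add, Finset.smul_sum, mul_div_assoc]
    congr 3
    refine Finset.sum_congr rfl fun k _ => ?_
    rw [Matrix.mul_smul, Matrix.smul_mul]
  rw [Hat_apply, map_sum]
  simp only [map_sum, h1]
  simp only [Finset.sum_sub_distrib, Finset.sum_add_distrib, ← Finset.smul_sum, ← Finset.sum_smul,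
    ← Finset.sum_div]
  rw [Hat_sum_single']
  congr 3
  rw [← Finset.sum_congr rfl fun a _ => Finset.sum_comm, Finset.sum_comm]
  refine Finset.sum_congr rfl fun k _ => ?_
  rw [← Hat_sum_single' X, Finset.mul_sum, Finset.sum_mul]
  refine Finset.sum_congr rfl fun a _ => ?_
  rw [Finset.mul_sum, Finset.sum_mul]

theorem Rp.ph_hat {X : Matrix I I ℝ} (hX : Xᵀ = -X) (hf : ∀ k, R.f k * X = X * R.f k) :
    R.ph (R.hat X) = X - ((∑ a, ∑ b, X a b * R.J a b) / Fintype.card I) • R.J := by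
  rw [Hat_ker]
  congr 1
  have h1 : X - Xᵀ = (2 : ℝ) • X := by
    rw [hX, sub_neg_eq_add, two_smul]
  have h2 : ∀ k, R.f k * ((2 : ℝ) • X) * (R.f k)ᵀ = (2 : ℝ) • X := by
    intro k
    rw [Matrix.mul_smul, Matrix.smul_mul, hf k, Matrix.mul_assoc, Hat_ff, Matrix.mul_one]
  rw [h1, Finset.sum_congr rfl fun k _ => h2 k, Finset.sum_const, Finset.card_univ,
    Fintype.card_fin, ← Nat.cast_smul_eq_nsmul ℝ, smul_smul, ← add_smul, smul_smul]
  have h3 : 1 / (2 * ((m : ℝ) + 1)) * (2 + (m : ℝ) * 2) = 1 := by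
    field_simp
    ring
  rw [h3, one_smul]

section Wt

variable {A : Finset I} {u v t : ℝ}

/-- The Hadamard product with the weights, as a linear map. -/
private noncomputable def Hat_W (A : Finset I) (u v t : ℝ) : Matrix I I ℝ →ₗ[ℝ] Matrix I I ℝ where
  toFun X := of fun a b => wt A u v t a b * X a b
  map_add' X Y := by
    ext a b
    simp only [Matrix.of_apply, Matrix.add_apply]
    ring
  map_smul' r X := by
    ext a b
    simp only [Matrix.of_apply, Matrix.smul_apply, smul_eq_mul, RingHom.id_apply]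
    ring

omit [Fintype I] in
private theorem Hat_W_apply (X : Matrix I I ℝ) (a b : I) :
    Hat_W A u v t X a b = wt A u v t a b * X a b := rfl

omit [Fintype I] in
private theorem Hat_wt_symm (a b : I) : wt A u v t b a = wt A u v t a b := by
  unfold wt
  split_ifs <;> rfl

omit [Fintype I] in
private theorem Hat_W_skew {X : Matrix I I ℝ} (hX : Xᵀ = -X) :
    (Hat_W A u v t X)ᵀ = -Hat_W A u v t X := by
  ext a b
  have h := congrFun (congrFun hX a) b
  rw [Matrix.transpose_apply, Matrix.neg_apply] at h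
  rw [Matrix.transpose_apply, Matrix.neg_apply, Hat_W_apply, Hat_W_apply, h, Hat_wt_symm]
  ring

private theorem Hat_W_com {X f : Matrix I I ℝ} (hX : f * X = X * f)
    (hf : (∀ a b, ¬(a ∈ A ↔ b ∈ A) → f a b = 0) ∨
      ((∀ a b, (a ∈ A ↔ b ∈ A) → f a b = 0) ∧ u = v)) :
    f * Hat_W A u v t X = Hat_W A u v t X * f := by
  rcases hf with hf | ⟨hf, rfl⟩
  · ext a b
    have h := congrFun (congrFun hX a) b
    rw [Matrix.mul_apply, Matrix.mul_apply] at h
    rw [Matrix.mul_apply, Matrix.mul_apply]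
    have h1 : ∀ c, f a c * Hat_W A u v t X c b = wt A u v t a b * (f a c * X c b) := by
      intro c
      by_cases hc : (a ∈ A ↔ c ∈ A)
      · rw [Hat_W_apply]
        have : wt A u v t c b = wt A u v t a b := by
          unfold wt
          simp only [hc]
        rw [this]
        ring
      · rw [hf a c hc]
        ring
    have h2 : ∀ c, Hat_W A u v t X a c * f c b = wt A u v t a b * (X a c * f c b) := by
      intro c
      by_cases hc : (c ∈ A ↔ b ∈ A)
      · rw [Hat_W_apply]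
        have : wt A u v t a c = wt A u v t a b := by
          unfold wt
          simp only [hc]
        rw [this]
        ring
      · rw [hf c b hc]
        ring
    rw [Finset.sum_congr rfl fun c _ => h1 c, Finset.sum_congr rfl fun c _ => h2 c,
      ← Finset.mul_sum, ← Finset.mul_sum, h]
  · ext a b
    have h := congrFun (congrFun hX a) b
    rw [Matrix.mul_apply, Matrix.mul_apply] at h
    rw [Matrix.mul_apply, Matrix.mul_apply]
    have h1 : ∀ c, f a c * Hat_W A u u t X c b = wt A t t u a b * (f a c * X c b) := by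
      intro c
      by_cases hc : (a ∈ A ↔ c ∈ A)
      · rw [hf a c hc]
        ring
      · rw [Hat_W_apply]
        have : wt A u u t c b = wt A t t u a b := by
          unfold wt
          by_cases h1 : a ∈ A <;> by_cases h2 : c ∈ A <;> by_cases h3 : b ∈ A <;>
            simp_all
        rw [this]
        ring
    have h2 : ∀ c, Hat_W A u u t X a c * f c b = wt A t t u a b * (X a c * f c b) := by
      intro c
      by_cases hc : (c ∈ A ↔ b ∈ A)
      · rw [hf c b hc]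
        ring
      · rw [Hat_W_apply]
        have : wt A u u t a c = wt A t t u a b := by
          unfold wt
          by_cases h1 : a ∈ A <;> by_cases h2 : c ∈ A <;> by_cases h3 : b ∈ A <;>
            simp_all
        rw [this]
        ring
    rw [Finset.sum_congr rfl fun c _ => h1 c, Finset.sum_congr rfl fun c _ => h2 c,
      ← Finset.mul_sum, ← Finset.mul_sum, h]

private theorem Hat_W_J {X J : Matrix I I ℝ}
    (hJ : (∀ a b, ¬(a ∈ A ↔ b ∈ A) → J a b = 0) ∨
      ((∀ a b, (a ∈ A ↔ b ∈ A) → J a b = 0) ∧ u = v))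
    (h1 : ∑ a ∈ A, ∑ b, X a b * J a b = 0) (h2 : ∑ a ∈ Aᶜ, ∑ b, X a b * J a b = 0) :
    ∑ a, ∑ b, Hat_W A u v t X a b * J a b = 0 := by
  rw [← Finset.sum_add_sum_compl A]
  rcases hJ with hJ | ⟨hJ, rfl⟩
  · have e1 : ∑ a ∈ A, ∑ b, Hat_W A u v t X a b * J a b =
        u * ∑ a ∈ A, ∑ b, X a b * J a b := by
      rw [Finset.mul_sum]
      refine Finset.sum_congr rfl fun a ha => ?_
      rw [Finset.mul_sum]
      refine Finset.sum_congr rfl fun b _ => ?_
      by_cases hb : b ∈ A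
      · rw [Hat_W_apply]
        unfold wt
        rw [if_pos ha, if_pos hb]
        ring
      · rw [hJ a b (by simp [ha, hb])]
        ring
    have e2 : ∑ a ∈ Aᶜ, ∑ b, Hat_W A u v t X a b * J a b =
        v * ∑ a ∈ Aᶜ, ∑ b, X a b * J a b := by
      rw [Finset.mul_sum]
      refine Finset.sum_congr rfl fun a ha => ?_
      rw [Finset.mul_sum]
      refine Finset.sum_congr rfl fun b _ => ?_
      have ha' : a ∉ A := Finset.mem_compl.1 ha
      by_cases hb : b ∈ A
      · rw [hJ a b (by simp [ha', hb])]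
        ring
      · rw [Hat_W_apply]
        unfold wt
        rw [if_neg ha', if_neg hb]
        ring
    rw [e1, e2, h1, h2]
    ring
  · have e : ∀ s : Finset I, ∑ a ∈ s, ∑ b, Hat_W A u u t X a b * J a b =
        t * ∑ a ∈ s, ∑ b, X a b * J a b := by
      intro s
      rw [Finset.mul_sum]
      refine Finset.sum_congr rfl fun a _ => ?_
      rw [Finset.mul_sum]
      refine Finset.sum_congr rfl fun b _ => ?_
      by_cases hc : (a ∈ A ↔ b ∈ A)
      · rw [hJ a b hc]
        ring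
      · rw [Hat_W_apply]
        have : wt A u u t a b = t := by
          unfold wt
          by_cases h1 : a ∈ A <;> by_cases h3 : b ∈ A <;> simp_all
        rw [this]
        ring
    rw [e, e, h1, h2]
    ring

end Wt

private theorem Hat_ph_W {A : Finset I} {u v t : ℝ} (x : L)
    (fA : ∀ k, (∀ a b, ¬(a ∈ A ↔ b ∈ A) → R.f k a b = 0) ∨
      ((∀ a b, (a ∈ A ↔ b ∈ A) → R.f k a b = 0) ∧ u = v))
    (hs : ∑ a, ∑ b, Hat_W A u v t (R.ph x) a b * R.J a b = 0) :
    R.ph (R.hat (Hat_W A u v t (R.ph x))) = Hat_W A u v t (R.ph x) := by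
  rw [R.ph_hat (Hat_W_skew (R.skew x)) (fun k => Hat_W_com (R.com k x) (fA k)), hs, zero_div,
    zero_smul, sub_zero]

private theorem Hat_T {A : Finset I} {u v z : ℝ} {c : L}
    (fA : ∀ k, (∀ a b, ¬(a ∈ A ↔ b ∈ A) → R.f k a b = 0) ∨
      ((∀ a b, (a ∈ A ↔ b ∈ A) → R.f k a b = 0) ∧ u = v))
    (JA : (∀ a b, ¬(a ∈ A ↔ b ∈ A) → R.J a b = 0) ∨
      ((∀ a b, (a ∈ A ↔ b ∈ A) → R.J a b = 0) ∧ u = v))
    (cc : Qf L c c = 1 ∨ c = 0)
    (hJ : ∀ x, Qf L x c = 0 → ∑ a ∈ A, ∑ b, R.ph x a b * R.J a b = 0 ∧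
      ∑ a ∈ Aᶜ, ∑ b, R.ph x a b * R.J a b = 0) :
    ∃ T : L →ₗ[ℝ] L, ∀ x a b, R.ph (T x) a b =
      wt A u v 1 a b * R.ph x a b + Qf L x c * ((z - wt A u v 1 a b) * R.ph c a b) := by
  refine ⟨R.hat ∘ₗ Hat_W A u v 1 ∘ₗ R.ph ∘ₗ (LinearMap.id - (Qf L c).smulRight c) +
    z • (Qf L c).smulRight c, fun x a b => ?_⟩
  obtain ⟨y, hy⟩ : ∃ y, y = x - Qf L c x • c := ⟨_, rfl⟩
  have hyc : Qf L y c = 0 := by
    rw [hy, map_sub, LinearMap.sub_apply, map_smul, LinearMap.smul_apply, smul_eq_mul, Qf_symm x c]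
    rcases cc with h | h
    · rw [h, mul_one, sub_self]
    · rw [h, map_zero, LinearMap.zero_apply, zero_mul, sub_self]
  have h1 : (R.hat ∘ₗ Hat_W A u v 1 ∘ₗ R.ph ∘ₗ (LinearMap.id - (Qf L c).smulRight c) +
      z • (Qf L c).smulRight c : L →ₗ[ℝ] L) x =
      R.hat (Hat_W A u v 1 (R.ph y)) + z • (Qf L c x • c) := by
    rw [hy]
    rfl
  rw [h1, map_add, Hat_ph_W R y fA (Hat_W_J JA (hJ y hyc).1 (hJ y hyc).2), Matrix.add_apply,
    Hat_W_apply, hy, map_smul, map_smul, map_sub, map_smul, Matrix.smul_apply, Matrix.smul_apply,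
    Matrix.sub_apply, Matrix.smul_apply, Qf_symm c x]
  simp only [smul_eq_mul]
  ring

theorem Rp.exists_spl {A : Finset I} {x1 x2 z : ℝ} (h1 : 0 < x1) (h2 : 0 < x2) (hz : 0 < z)
    {c : L} {J0 : Matrix I I ℝ} {g1 g2 : ℝ}
    (fA : ∀ k, ((∀ a b, ¬(a ∈ A ↔ b ∈ A) → R.f k a b = 0) ∧ (R.f k)ᵀ = -R.f k) ∨
      ((∀ a b, (a ∈ A ↔ b ∈ A) → R.f k a b = 0) ∧ x1 = x2))
    (JA : (∀ a b, ¬(a ∈ A ↔ b ∈ A) → R.J a b = 0) ∨
      ((∀ a b, (a ∈ A ↔ b ∈ A) → R.J a b = 0) ∧ x1 = x2))
    (J0s : J0ᵀ = -J0) (J0J : J0 = 0 ∨ J0ᵀ * J0 = 1)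
    (J0A : ∀ a b, ¬(a ∈ A ↔ b ∈ A) → J0 a b = 0)
    (J0c : ∀ x, J0 * R.ph x = R.ph x * J0) (cc : Qf L c c = 1 ∨ c = 0)
    (pc : ∀ a b, R.ph c a b = (if a ∈ A then g1 else g2) * J0 a b)
    (hJ : ∀ x, Qf L x c = 0 → ∑ a ∈ A, ∑ b, R.ph x a b * R.J a b = 0 ∧
      ∑ a ∈ Aᶜ, ∑ b, R.ph x a b * R.J a b = 0) :
    ∃ S T Pp : L →ₗ[ℝ] L, Spl R A x1 x2 z S T Pp c J0 g1 g2 := by
  obtain ⟨T, hT⟩ := Hat_T R (u := x1) (v := x2) (z := z) (c := c)
    (fun k => (fA k).imp (fun h => h.1) id) JA cc hJ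
  obtain ⟨S, hS⟩ := Hat_T R (u := 1 / x1) (v := 1 / x2) (z := 1 / z) (c := c)
    (fun k => (fA k).imp (fun h => h.1) (fun h => ⟨h.1, by rw [h.2]⟩))
    (JA.imp id (fun h => ⟨h.1, by rw [h.2]⟩)) cc hJ
  have hP : ∀ x, ∑ a, ∑ b, Hat_W A 0 0 1 (R.ph x) a b * R.J a b = 0 := by
    intro x
    rcases JA with hJA | ⟨hJA, -⟩
    · refine Finset.sum_eq_zero fun a _ => Finset.sum_eq_zero fun b _ => ?_
      by_cases hc : (a ∈ A ↔ b ∈ A)
      · rw [Hat_W_apply]
        have : wt A 0 0 1 a b = 0 := by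
          unfold wt
          by_cases h1 : a ∈ A <;> by_cases h3 : b ∈ A <;> simp_all
        rw [this]
        ring
      · rw [hJA a b hc, mul_zero]
    · obtain ⟨y, hy⟩ : ∃ y, y = x - Qf L c x • c := ⟨_, rfl⟩
      have hyc : Qf L y c = 0 := by
        rw [hy, map_sub, LinearMap.sub_apply, map_smul, LinearMap.smul_apply, smul_eq_mul,
          Qf_symm x c]
        rcases cc with h | h
        · rw [h, mul_one, sub_self]
        · rw [h, map_zero, LinearMap.zero_apply, zero_mul, sub_self]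
      have h3 := Hat_W_J (A := A) (u := 0) (v := 0) (t := 1) (X := R.ph y) (J := R.J)
        (Or.inr ⟨hJA, rfl⟩) (hJ y hyc).1 (hJ y hyc).2
      refine Eq.trans (Finset.sum_congr rfl fun a _ => Finset.sum_congr rfl fun b _ => ?_) h3
      by_cases hc : (a ∈ A ↔ b ∈ A)
      · rw [hJA a b hc, mul_zero, mul_zero]
      · rw [Hat_W_apply, Hat_W_apply, hy, map_sub, map_smul, Matrix.sub_apply, Matrix.smul_apply,
          pc, J0A a b hc, mul_zero, smul_zero, sub_zero]
  refine ⟨S, T, R.hat ∘ₗ Hat_W A 0 0 1 ∘ₗ R.ph, h1, h2, hz, fA, JA, ?_, J0s, J0J, J0A, J0c, cc, pc,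
    hT, hS⟩
  intro x a b
  have h3 : R.ph (R.hat (Hat_W A 0 0 1 (R.ph x))) = Hat_W A 0 0 1 (R.ph x) :=
    Hat_ph_W R x (fun k => (fA k).imp (fun h => h.1) (fun h => ⟨h.1, rfl⟩)) (hP x)
  show R.ph (R.hat (Hat_W A 0 0 1 (R.ph x))) a b = _
  rw [h3, Hat_W_apply]
  by_cases hc : (a ∈ A ↔ b ∈ A)
  · rw [if_pos hc]
    have : wt A 0 0 1 a b = 0 := by
      unfold wt
      by_cases h1 : a ∈ A <;> by_cases h3 : b ∈ A <;> simp_all
    rw [this, zero_mul]
  · rw [if_neg hc]
    have : wt A 0 0 1 a b = 1 := by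
      unfold wt
      by_cases h1 : a ∈ A <;> by_cases h3 : b ∈ A <;> simp_all
    rw [this, one_mul]

theorem Rp.exists_conj {Q : Matrix I I ℝ} (hQ : Q * Qᵀ = 1) : ∃ R' : Rp L I m,
    (∀ x, R'.ph x = Q * R.ph x * Qᵀ) ∧ (∀ k, R'.f k = Q * R.f k * Qᵀ) ∧ R'.J = Q * R.J * Qᵀ ∧
      R'.n = R.n := by
  have hQ' : Qᵀ * Q = 1 := mul_eq_one_comm.1 hQ
  have key : ∀ X Y : Matrix I I ℝ, Q * X * Qᵀ * (Q * Y * Qᵀ) = Q * (X * Y) * Qᵀ := by
    intro X Y
    calc Q * X * Qᵀ * (Q * Y * Qᵀ) = Q * X * (Qᵀ * Q) * (Y * Qᵀ) := by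
          simp only [Matrix.mul_assoc]
      _ = Q * (X * Y) * Qᵀ := by rw [hQ', Matrix.mul_one]; simp only [Matrix.mul_assoc]
  have tr : ∀ X : Matrix I I ℝ, (Q * X * Qᵀ)ᵀ = Q * Xᵀ * Qᵀ := by
    intro X
    rw [Matrix.transpose_mul, Matrix.transpose_mul, Matrix.transpose_transpose, Matrix.mul_assoc]
  have ip : ∀ X Y : Matrix I I ℝ, ∑ a, ∑ b, (Q * X * Qᵀ) a b * (Q * Y * Qᵀ) a b =
      ∑ a, ∑ b, X a b * Y a b := by
    have h1 : ∀ X Y : Matrix I I ℝ, ∑ a, ∑ b, X a b * Y a b = Matrix.trace (X * Yᵀ) := by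
      intro X Y
      simp only [Matrix.trace, Matrix.diag_apply, Matrix.mul_apply, Matrix.transpose_apply]
    intro X Y
    rw [h1, h1, tr, key, Matrix.trace_mul_comm, ← Matrix.mul_assoc, hQ', Matrix.one_mul]
  have ent : ∀ (X : Matrix I I ℝ) (a b : I), (Q * X * Qᵀ) a b =
      ∑ a', ∑ b', Q a a' * Q b b' * X a' b' := by
    intro X a b
    rw [Matrix.mul_apply]
    simp only [Matrix.mul_apply, Matrix.transpose_apply, Finset.sum_mul]
    rw [Finset.sum_comm]
    refine Finset.sum_congr rfl fun a' _ => Finset.sum_congr rfl fun b' _ => ?_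
    ring
  refine ⟨{
    ph := {
      toFun := fun x => Q * R.ph x * Qᵀ
      map_add' := fun x y => by rw [map_add, Matrix.mul_add, Matrix.add_mul]
      map_smul' := fun r x => by
        rw [map_smul, Matrix.mul_smul, Matrix.smul_mul, RingHom.id_apply] }
    e := fun a b => ∑ a', ∑ b', (Q a a' * Q b b') • R.e a' b'
    f := fun k => Q * R.f k * Qᵀ
    J := Q * R.J * Qᵀ
    n := R.n
    skew := fun x => by
      show (Q * R.ph x * Qᵀ)ᵀ = -(Q * R.ph x * Qᵀ)
      rw [tr, R.skew, Matrix.mul_neg, Matrix.neg_mul]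
    lie := fun x y => by
      show Q * R.ph ⁅x, y⁆ * Qᵀ = Q * R.ph x * Qᵀ * (Q * R.ph y * Qᵀ) -
        Q * R.ph y * Qᵀ * (Q * R.ph x * Qᵀ)
      rw [R.lie, key, key, Matrix.mul_sub, Matrix.sub_mul]
    n1 := R.n1
    qf := fun x y => by
      show Qf L x y = R.n * ∑ a, ∑ b, (Q * R.ph x * Qᵀ) a b * (Q * R.ph y * Qᵀ) a b
      rw [ip, R.qf]
    he := fun a b x => by
      show Qf L (∑ a', ∑ b', (Q a a' * Q b b') • R.e a' b') x = R.n * (Q * R.ph x * Qᵀ) a b
      rw [ent, map_sum, LinearMap.sum_apply, Finset.mul_sum]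
      refine Finset.sum_congr rfl fun a' _ => ?_
      rw [map_sum, LinearMap.sum_apply, Finset.mul_sum]
      refine Finset.sum_congr rfl fun b' _ => ?_
      rw [map_smul, LinearMap.smul_apply, R.he, smul_eq_mul]
      ring
    inj := fun x hx => by
      refine R.inj x ?_
      have h1 : Q * R.ph x * Qᵀ = 0 := hx
      calc R.ph x = Qᵀ * Q * R.ph x * (Qᵀ * Q) := by rw [hQ', Matrix.one_mul, Matrix.mul_one]
        _ = Qᵀ * (Q * R.ph x * Qᵀ) * Q := by simp only [Matrix.mul_assoc]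
        _ = 0 := by rw [h1, Matrix.mul_zero, Matrix.zero_mul]
    fo := fun k => by
      show (Q * R.f k * Qᵀ)ᵀ * (Q * R.f k * Qᵀ) = 1
      rw [tr, key, R.fo, Matrix.mul_one, hQ]
    com := fun k x => by
      show Q * R.f k * Qᵀ * (Q * R.ph x * Qᵀ) = Q * R.ph x * Qᵀ * (Q * R.f k * Qᵀ)
      rw [key, key, R.com]
    Js := by
      show (Q * R.J * Qᵀ)ᵀ = -(Q * R.J * Qᵀ)
      rw [tr, R.Js, Matrix.mul_neg, Matrix.neg_mul]
    Jc := fun x => by
      show Q * R.J * Qᵀ * (Q * R.ph x * Qᵀ) = Q * R.ph x * Qᵀ * (Q * R.J * Qᵀ)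
      rw [key, key, R.Jc]
    JJ := by
      rcases R.JJ with h | h
      · left
        rw [h, Matrix.mul_zero, Matrix.zero_mul]
      · right
        rw [tr, key, h, Matrix.mul_one, hQ]
    ker := fun a b => by
      obtain ⟨Y, hY⟩ : ∃ Y : Matrix I I ℝ, Y = of fun a' b' => Q a a' * Q b b' := ⟨_, rfl⟩
      have hYe : ∀ a' b', Y a' b' = Q a a' * Q b b' := fun a' b' => by rw [hY]; rfl
      have e1 : ∑ a', ∑ b', (Q a a' * Q b b') • R.e a' b' = R.hat Y := by
        rw [Hat_apply]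
        simp only [hYe]
      have e2 : Q * Y * Qᵀ = Matrix.single a b 1 := by
        have h1 : Y = Qᵀ * Matrix.single a b 1 * Q := by
          ext a' b'
          rw [hYe, Matrix.mul_apply]
          simp [Matrix.mul_apply, Matrix.single_apply, Finset.sum_ite_eq, ite_and]
        rw [h1]
        calc Q * (Qᵀ * Matrix.single a b 1 * Q) * Qᵀ
            = Q * Qᵀ * Matrix.single a b 1 * (Q * Qᵀ) := by simp only [Matrix.mul_assoc]
          _ = Matrix.single a b 1 := by rw [hQ, Matrix.one_mul, Matrix.mul_one]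
      have e3 : Q * (Y - Yᵀ) * Qᵀ = Matrix.single a b 1 - Matrix.single b a 1 := by
        rw [Matrix.mul_sub, Matrix.sub_mul, e2, ← tr, e2, Matrix.transpose_single]
      have e4 : ∑ a', ∑ b', Y a' b' * R.J a' b' = (Q * R.J * Qᵀ) a b := by
        rw [ent]
        simp only [hYe]
      show Q * R.ph (∑ a', ∑ b', (Q a a' * Q b b') • R.e a' b') * Qᵀ = _
      rw [e1, Hat_ker, e4, Matrix.mul_sub, Matrix.sub_mul, Matrix.mul_smul, Matrix.smul_mul,
        Matrix.mul_smul, Matrix.smul_mul, Matrix.mul_add, Matrix.add_mul, e3, Finset.mul_sum,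
        Finset.sum_mul]
      congr 3
      refine Finset.sum_congr rfl fun k _ => ?_
      rw [tr, ← e3, key, key]
    nM := R.nM }, fun x => rfl, fun k => rfl, rfl, rfl⟩

variable {R}

theorem SmallR.conj {R' : Rp L I m} {Q : Matrix I I ℝ} (hQ : Q * Qᵀ = 1)
    (hR' : ∀ x, R'.ph x = Q * R.ph x * Qᵀ) {h : LieSubalgebra ℝ L} {δ : ℝ} (hs : SmallR R h δ) :
    SmallR R' h δ := by
  have hQ' : Qᵀ * Q = 1 := mul_eq_one_comm.1 hQ
  have hdot : ∀ w : I → ℝ, (Q *ᵥ w) ⬝ᵥ (Q *ᵥ w) = w ⬝ᵥ w := by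
    intro w
    rw [Matrix.dotProduct_mulVec, Matrix.vecMul_mulVec, hQ', Matrix.vecMul_one]
  have hdot' : ∀ w : I → ℝ, (Qᵀ *ᵥ w) ⬝ᵥ (Qᵀ *ᵥ w) = w ⬝ᵥ w := by
    intro w
    rw [Matrix.dotProduct_mulVec, Matrix.vecMul_mulVec, Matrix.transpose_transpose, hQ,
      Matrix.vecMul_one]
  intro n a ha ho v
  have h1 := hs n a ha ho (Qᵀ *ᵥ v)
  rw [hdot'] at h1
  refine le_trans (le_of_eq (Finset.sum_congr rfl fun i _ => ?_)) h1
  rw [hR', ← Matrix.mulVec_mulVec, ← Matrix.mulVec_mulVec, hdot]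

theorem SmallR.mono {h : LieSubalgebra ℝ L} {δ δ' : ℝ} (hs : SmallR R h δ) (hd : δ ≤ δ') :
    SmallR R h δ' := fun n a ha ho v =>
  (hs n a ha ho v).trans (mul_le_mul_of_nonneg_right hd
    (Finset.sum_nonneg fun i _ => mul_self_nonneg (v i)))

/-- Diagonalisation of a symmetric involution. -/
theorem exists_diag {s : Matrix I I ℝ} (hs : sᵀ = s) (h2 : s * s = 1) :
    ∃ (Q : Matrix I I ℝ) (A : Finset I), Q * Qᵀ = 1 ∧
      Q * s * Qᵀ = Matrix.diagonal (fun a => if a ∈ A then (1 : ℝ) else -1) := by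
  have hH : s.IsHermitian := by
    rw [Matrix.IsHermitian, Matrix.conjTranspose_eq_transpose_of_trivial, hs]
  obtain ⟨U, hU⟩ : ∃ U : Matrix I I ℝ, U = hH.eigenvectorUnitary := ⟨_, rfl⟩
  have hUU : U * Uᵀ = 1 := by
    rw [hU, ← Matrix.conjTranspose_eq_transpose_of_trivial, ← Matrix.star_eq_conjTranspose]
    exact Unitary.coe_mul_star_self _
  have hUU' : Uᵀ * U = 1 := mul_eq_one_comm.1 hUU
  have h3 : s = U * diagonal hH.eigenvalues * Uᵀ := by
    have h4 := hH.spectral_theorem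
    rw [Unitary.conjStarAlgAut_apply, ← hU, Matrix.star_eq_conjTranspose,
      Matrix.conjTranspose_eq_transpose_of_trivial] at h4
    exact h4
  have h4 : Uᵀ * s * U = diagonal hH.eigenvalues := by
    conv_lhs => rw [h3]
    calc Uᵀ * (U * diagonal hH.eigenvalues * Uᵀ) * U
        = Uᵀ * U * diagonal hH.eigenvalues * (Uᵀ * U) := by simp only [Matrix.mul_assoc]
      _ = diagonal hH.eigenvalues := by rw [hUU', Matrix.one_mul, Matrix.mul_one]
  have h5 : diagonal hH.eigenvalues * diagonal hH.eigenvalues = 1 := by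
    rw [← h4]
    calc Uᵀ * s * U * (Uᵀ * s * U) = Uᵀ * s * (U * Uᵀ) * (s * U) := by
          simp only [Matrix.mul_assoc]
      _ = Uᵀ * (s * s) * U := by rw [hUU, Matrix.mul_one]; simp only [Matrix.mul_assoc]
      _ = 1 := by rw [h2, Matrix.mul_one, hUU']
  have h6 : ∀ i, hH.eigenvalues i = 1 ∨ hH.eigenvalues i = -1 := by
    intro i
    rw [Matrix.diagonal_mul_diagonal] at h5
    have h7 := congrFun (congrFun h5 i) i
    rw [Matrix.diagonal_apply_eq, Matrix.one_apply_eq] at h7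
    exact mul_self_eq_one_iff.1 h7
  refine ⟨Uᵀ, Finset.univ.filter fun i => hH.eigenvalues i = 1, ?_, ?_⟩
  · rw [Matrix.transpose_transpose, hUU']
  · rw [Matrix.transpose_transpose, h4]
    congr 1
    funext i
    rcases h6 i with h | h
    · rw [if_pos (by simp [h]), h]
    · rw [if_neg (by simp [h]; norm_num), h]

/-- The reflection in a subspace. -/
theorem exists_refl (W : Submodule ℝ (I → ℝ)) : ∃ s : Matrix I I ℝ, sᵀ = s ∧ s * s = 1 ∧
    (∀ v, v ∈ W ↔ s *ᵥ v = v) ∧ trace s = 2 * (Module.finrank ℝ W : ℝ) - Fintype.card I := by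
  let E := WithLp.linearEquiv 2 ℝ (I → ℝ)
  let W' : Submodule ℝ (EuclideanSpace ℝ I) := W.comap E.toLinearMap
  let p : (I → ℝ) →ₗ[ℝ] (I → ℝ) := E.toLinearMap ∘ₗ W'.starProjection.toLinearMap ∘ₗ
    E.symm.toLinearMap
  have hp : ∀ v, p v = E (W'.starProjection (E.symm v)) := fun v => rfl
  have hmem : ∀ v, p v ∈ W := by
    intro v
    have h1 : W'.starProjection (E.symm v) ∈ W' := W'.starProjection_apply_mem _
    exact h1
  have hid : ∀ v, v ∈ W → p v = v := by
    intro v hv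
    have h1 : E.symm v ∈ W' := by
      show E (E.symm v) ∈ W
      rw [LinearEquiv.apply_symm_apply]
      exact hv
    rw [hp, Submodule.starProjection_eq_self_iff.2 h1, LinearEquiv.apply_symm_apply]
  have hsym : ∀ v w : I → ℝ, p v ⬝ᵥ w = v ⬝ᵥ p w := by
    intro v w
    have h1 := W'.inner_starProjection_left_eq_right (E.symm v) (E.symm w)
    rw [EuclideanSpace.inner_eq_star_dotProduct, EuclideanSpace.inner_eq_star_dotProduct] at h1
    have h2 : w ⬝ᵥ p v = p w ⬝ᵥ v := h1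
    rw [dotProduct_comm, h2, dotProduct_comm]
  obtain ⟨P, hP⟩ : ∃ P, P = LinearMap.toMatrix' p := ⟨_, rfl⟩
  have hPv : ∀ v, P *ᵥ v = p v := by
    intro v
    rw [hP, LinearMap.toMatrix'_mulVec]
  have hPP : P * P = P := by
    have hpp : p ∘ₗ p = p := LinearMap.ext fun v => hid _ (hmem v)
    rw [hP, ← LinearMap.toMatrix'_comp, hpp]
  have hPT : Pᵀ = P := by
    ext i j
    rw [Matrix.transpose_apply]
    have h1 := hsym (Pi.single i 1) (Pi.single j 1)
    rw [← hPv, ← hPv, Matrix.mulVec_single_one, Matrix.mulVec_single_one, dotProduct_single_one,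
      single_one_dotProduct] at h1
    exact h1
  have htr : trace P = (Module.finrank ℝ W : ℝ) := by
    have h1 : LinearMap.IsProj W p := ⟨hmem, fun v hv => hid v hv⟩
    rw [← h1.trace, LinearMap.trace_eq_matrix_trace ℝ (Pi.basisFun ℝ I),
      LinearMap.toMatrix_eq_toMatrix', hP]
  refine ⟨(2 : ℝ) • P - 1, ?_, ?_, ?_, ?_⟩
  · rw [Matrix.transpose_sub, Matrix.transpose_smul, hPT, Matrix.transpose_one]
  · rw [Matrix.sub_mul, Matrix.mul_sub, Matrix.mul_one, Matrix.one_mul, Matrix.smul_mul,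
      Matrix.mul_smul, hPP]
    module
  · intro v
    rw [Matrix.sub_mulVec, Matrix.one_mulVec, Matrix.smul_mulVec, hPv]
    constructor
    · intro hv
      rw [hid v hv]
      module
    · intro h
      have h1 : p v = v := by
        have h2 : (2 : ℝ) • p v = (2 : ℝ) • v := by
          rw [sub_eq_iff_eq_add.1 h]
          module
        exact smul_right_injective _ (two_ne_zero) h2
      rw [← h1]
      exact hmem v
  · rw [Matrix.trace_sub, Matrix.trace_smul, htr, Matrix.trace_one, smul_eq_mul]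

/-- Matrices which preserve `W` and its complement commute with the reflection. -/
theorem refl_comm {W : Submodule ℝ (I → ℝ)} {s X : Matrix I I ℝ} (hs : sᵀ = s) (h2 : s * s = 1)
    (hW : ∀ v, v ∈ W ↔ s *ᵥ v = v) (h : ∀ v ∈ W, X *ᵥ v ∈ W)
    (hX : Xᵀ = -X ∨ X * Xᵀ = 1) : s * X = X * s := by
  have key : ∀ Y : Matrix I I ℝ, (∀ v ∈ W, Y *ᵥ v ∈ W) → s * Y + s * Y * s = Y + Y * s := by
    intro Y hY
    have h1 : ∀ v, (s * Y * (1 + s)) *ᵥ v = (Y * (1 + s)) *ᵥ v := by
      intro v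
      have h3 : (1 + s) *ᵥ v ∈ W := by
        rw [hW, Matrix.mulVec_mulVec, Matrix.mul_add, h2, Matrix.mul_one, add_comm]
      have h4 := (hW _).1 (hY _ h3)
      rw [Matrix.mulVec_mulVec, Matrix.mulVec_mulVec] at h4
      rw [h4, Matrix.mulVec_mulVec]
    have h5 : s * Y * (1 + s) = Y * (1 + s) := by
      ext i j
      have h6 := congrFun (h1 (Pi.single j 1)) i
      rw [Matrix.mulVec_single_one, Matrix.mulVec_single_one] at h6
      exact h6
    rw [Matrix.mul_add, Matrix.mul_add, Matrix.mul_one, Matrix.mul_one] at h5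
    exact h5
  have e1 := key X h
  have e2 : X * s + s * X * s = X + s * X := by
    rcases hX with hX | hX
    · have h3 := congrArg Matrix.transpose e1
      simp only [Matrix.transpose_add, Matrix.transpose_mul, hs, hX] at h3
      have h4 : -(X * s + s * X * s) = -(X + s * X) := by
        rw [neg_add, neg_add]
        simpa [Matrix.mul_assoc] using h3
      exact neg_injective h4
    · have hX' : Xᵀ * X = 1 := mul_eq_one_comm.1 hX
      have h3 : ∀ v ∈ W, Xᵀ *ᵥ v ∈ W := by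
        let g : W →ₗ[ℝ] W := (Matrix.mulVecLin X).restrict h
        have hg : Function.Injective g := by
          intro a b hab
          have h4 : X *ᵥ (a : I → ℝ) = X *ᵥ (b : I → ℝ) := congrArg Subtype.val hab
          have h5 := congrArg (fun w => Xᵀ *ᵥ w) h4
          simp only [Matrix.mulVec_mulVec, hX', Matrix.one_mulVec] at h5
          exact Subtype.ext h5
        have hs' := LinearMap.injective_iff_surjective.1 hg
        intro v hv
        obtain ⟨w, hw⟩ := hs' ⟨v, hv⟩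
        have h4 : X *ᵥ (w : I → ℝ) = v := congrArg Subtype.val hw
        rw [← h4, Matrix.mulVec_mulVec, hX', Matrix.one_mulVec]
        exact w.2
      have h4 := congrArg Matrix.transpose (key Xᵀ h3)
      simp only [Matrix.transpose_add, Matrix.transpose_mul, hs, Matrix.transpose_transpose] at h4
      simpa [Matrix.mul_assoc] using h4
  have e3 : (2 : ℝ) • (s * X) = (2 : ℝ) • (X * s) := by
    have h3 : s * X + s * X * s - (X * s + s * X * s) = X + X * s - (X + s * X) := by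
      rw [e1, e2]
    have h4 : s * X - X * s = X * s - s * X := by
      calc s * X - X * s = s * X + s * X * s - (X * s + s * X * s) := by abel
        _ = X + X * s - (X + s * X) := h3
        _ = X * s - s * X := by abel
    rw [two_smul, two_smul]
    have h5 := sub_eq_sub_iff_add_eq_add.1 h4
    exact h5
  exact smul_right_injective _ two_ne_zero e3

end Pool.Agent.EinV
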