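import Pool.Agent.EinV.TrS

/-!
# The contractions

`v ⬝ᵥ (rh B U *ᵥ v) = (1/n²) ∑ b ∈ B, Qf (U z_b) z_b` with `z_b = zz v (single b 1)` (`rh_quad`), and `Qf z_b z_b ≤ n (v ⬝ᵥ v)`.
`rh_diag`: for `a`, `d` in different blocks one of `(a, b)`, `(d, b)` is a mixed pair and the other is not, so `tn U a b d b = 0`
since `U` commutes with `Pp` (`Spl.pe`, `pp`).
`rh_tr`: both sides are `(1/(n M)) ∑ a ∈ A, ∑ b ∉ A, tn U a b a b`, up to `tn U a b a b = tn U b a b a`.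
`rh_TUT`: `T z_b = w • z_b + r • c` with `r = (z - w) * Qf z_b c`, `w` the weight of the pair of blocks, by `Spl.te`; `∑ b, (Qf z_b c)² ≤ n² ∑ b, (v ⬝ᵥ (ph c) b)²
≤ C n² / M² (v ⬝ᵥ v)`, and Cauchy-Schwarz.
`SLb_le`: `SLb w t Z Z = 2 n ∑ c, (Z c) ⬝ᵥ (u_c *ᵥ Z c)` with `u_c = w c A • rh A + w c Aᶜ • rh Aᶜ`.
-/

namespace Pool.Agent.EinV

open Matrix Pool.Agent.EStab Pool.Agent.EinS Pool.Agent.SmIso Pool.Agent.EinU Pool.Agent.EinG

section

variable {L : Type} [LieRing L] [LieAlgebra ℝ L] {I : Type} [Fintype I] [DecidableEq I] {m : ℕ}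
  (R : Rp L I m)

theorem Rp.rh_symm {U : L →ₗ[ℝ] L} (hU : QSym U) (B : Finset I) : (R.rh B U).IsSymm := by
  ext a d
  simp only [transpose_apply, Rp.rh, of_apply]
  congr 1
  refine Finset.sum_congr rfl fun b _ => ?_
  exact R.tn_symm hU a b d b

theorem Rp.rh_quad (U : L →ₗ[ℝ] L) (B : Finset I) (v : I → ℝ) : v ⬝ᵥ (R.rh B U *ᵥ v) =
    1 / R.n ^ 2 * ∑ b ∈ B, Qf L (U (R.zz v (Pi.single b 1))) (R.zz v (Pi.single b 1)) := by
  have hn : R.n ≠ 0 := R.n0.ne'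
  have h1 : ∀ b : I, Qf L (U (R.zz v (Pi.single b 1))) (R.zz v (Pi.single b 1)) =
      R.n * ∑ a, ∑ d, R.tn U a b d b * (v a * v d) := by
    intro b
    rw [R.Qf_zz]
    congr 1
    refine Finset.sum_congr rfl fun a _ => ?_
    rw [Finset.sum_eq_single b]
    · refine Finset.sum_congr rfl fun d _ => ?_
      rw [Finset.sum_eq_single b]
      · simp
      · intro b' _ hb'
        simp [Pi.single_apply, hb']
      · simp
    · intro b' _ hb'
      simp [Pi.single_apply, hb']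
    · simp
  simp only [h1]
  simp only [dotProduct, mulVec, Rp.rh, of_apply]
  rw [Finset.mul_sum]
  simp only [Finset.mul_sum, Finset.sum_mul]
  rw [Finset.sum_comm' (s := B) (t := fun _ => Finset.univ) (t' := Finset.univ)
    (s' := fun _ => B) (by simp)]
  refine Finset.sum_congr rfl fun a _ => ?_
  rw [Finset.sum_comm' (s := B) (t := fun _ => Finset.univ) (t' := Finset.univ)
    (s' := fun _ => B) (by simp)]
  refine Finset.sum_congr rfl fun d _ => ?_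
  refine Finset.sum_congr rfl fun b _ => ?_
  field_simp

/-- The contraction of a bounded function. -/
theorem Rp.contr_le (hM : 4 * ((m : ℝ) + 1) ≤ Fintype.card I) {E : L → ℝ} {s : ℝ} (hs : 0 ≤ s)
    (h : ∀ y, |E y| ≤ s * Qf L y y) (B : Finset I) (v : I → ℝ) :
    |1 / R.n ^ 2 * ∑ b ∈ B, E (R.zz v (Pi.single b 1))| ≤ 2 * (m + 1) * s * (v ⬝ᵥ v) := by
  have hn := R.n0
  obtain ⟨hn1, -, hM0, -⟩ := R.n_bd hM
  have hv : 0 ≤ v ⬝ᵥ v := by
    simp only [dotProduct]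
    exact Finset.sum_nonneg fun i _ => mul_self_nonneg _
  have h1 : ∀ b : I, |E (R.zz v (Pi.single b 1))| ≤ s * (R.n * (v ⬝ᵥ v)) := by
    intro b
    refine (h _).trans (mul_le_mul_of_nonneg_left ?_ hs)
    have := R.Qf_zz_le v (Pi.single b 1)
    simpa using this
  have h2 : |∑ b ∈ B, E (R.zz v (Pi.single b 1))| ≤ Fintype.card I * (s * (R.n * (v ⬝ᵥ v))) := by
    refine (Finset.abs_sum_le_sum_abs _ _).trans ?_
    refine (Finset.sum_le_sum fun b _ => h1 b).trans ?_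
    rw [Finset.sum_const, nsmul_eq_mul]
    refine mul_le_mul_of_nonneg_right ?_ (by positivity)
    exact_mod_cast Finset.card_le_univ B
  rw [abs_mul, abs_of_nonneg (by positivity : (0 : ℝ) ≤ 1 / R.n ^ 2)]
  refine (mul_le_mul_of_nonneg_left h2 (by positivity)).trans ?_
  have h3 : (Fintype.card I : ℝ) ≤ 2 * (m + 1) * R.n := by
    have : (0 : ℝ) < 2 * (m + 1) := by positivity
    rw [div_le_iff₀ this] at hn1
    linarith
  have h4 : 1 / R.n ^ 2 * (Fintype.card I * (s * (R.n * (v ⬝ᵥ v)))) =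
      (Fintype.card I : ℝ) * (s * (v ⬝ᵥ v) / R.n) := by
    field_simp
  rw [h4]
  have h5 : (Fintype.card I : ℝ) * (s * (v ⬝ᵥ v) / R.n) ≤
      2 * (m + 1) * R.n * (s * (v ⬝ᵥ v) / R.n) :=
    mul_le_mul_of_nonneg_right h3 (by positivity)
  refine h5.trans (le_of_eq ?_)
  field_simp

theorem Rp.rh_le (hM : 4 * ((m : ℝ) + 1) ≤ Fintype.card I) {U : L →ₗ[ℝ] L} {b : ℝ} (hb : 0 ≤ b)
    (h : NBL U b) (B : Finset I) (v : I → ℝ) :
    |v ⬝ᵥ (R.rh B U *ᵥ v)| ≤ 2 * (m + 1) * b * (v ⬝ᵥ v) := by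
  rw [R.rh_quad]
  exact R.contr_le hM (E := fun y => Qf L (U y) y) hb h B v

theorem Rp.SLb_le {A : Finset I} {u1 u2 t c' : ℝ} (h1 : |u1| ≤ c') (h2 : |u2| ≤ c')
    (h3 : |t| ≤ c') {U : L →ₗ[ℝ] L} {r : ℝ}
    (hA : ∀ v : I → ℝ, |v ⬝ᵥ (R.rh A U *ᵥ v)| ≤ r * (v ⬝ᵥ v))
    (hB : ∀ v : I → ℝ, |v ⬝ᵥ (R.rh Aᶜ U *ᵥ v)| ≤ r * (v ⬝ᵥ v)) (y : L) :
    |SLb (wt A u1 u2 t) (R.tn U) (R.ph y) (R.ph y)| ≤ 4 * c' * r * Qf L y y := by
  have hn := R.n0
  have hc' : 0 ≤ c' := (abs_nonneg _).trans h1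
  set Z := R.ph y with hZ
  -- the weights
  set wA : I → ℝ := fun c => if c ∈ A then u1 else t with hwA
  set wB : I → ℝ := fun c => if c ∈ A then t else u2 with hwB
  have hwAle : ∀ c, |wA c| ≤ c' := by
    intro c
    simp only [hwA]
    split_ifs <;> assumption
  have hwBle : ∀ c, |wB c| ≤ c' := by
    intro c
    simp only [hwB]
    split_ifs <;> assumption
  have hin : ∀ c a d, ∑ b, wt A u1 u2 t c b * R.tn U a b d b =
      R.n * (wA c * R.rh A U a d + wB c * R.rh Aᶜ U a d) := by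
    intro c a d
    have e1 : R.rh A U a d = 1 / R.n * ∑ b ∈ A, R.tn U a b d b := rfl
    have e2 : R.rh Aᶜ U a d = 1 / R.n * ∑ b ∈ Aᶜ, R.tn U a b d b := rfl
    rw [← Finset.sum_add_sum_compl A]
    have e3 : ∑ b ∈ A, wt A u1 u2 t c b * R.tn U a b d b = wA c * ∑ b ∈ A, R.tn U a b d b := by
      rw [Finset.mul_sum]
      refine Finset.sum_congr rfl fun b hb => ?_
      simp only [wt, hwA, if_pos hb]
    have e4 : ∑ b ∈ Aᶜ, wt A u1 u2 t c b * R.tn U a b d b =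
        wB c * ∑ b ∈ Aᶜ, R.tn U a b d b := by
      rw [Finset.mul_sum]
      refine Finset.sum_congr rfl fun b hb => ?_
      simp only [wt, hwB, if_neg (Finset.mem_compl.mp hb)]
    rw [e3, e4, e1, e2]
    field_simp
  have hS : SLb (wt A u1 u2 t) (R.tn U) Z Z =
      2 * ∑ c, R.n * (wA c * ((fun a => Z c a) ⬝ᵥ (R.rh A U *ᵥ fun a => Z c a)) +
        wB c * ((fun a => Z c a) ⬝ᵥ (R.rh Aᶜ U *ᵥ fun a => Z c a))) := by
    unfold SLb
    congr 1
    refine Finset.sum_congr rfl fun c _ => ?_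
    simp only [hin, dotProduct, mulVec]
    simp only [Finset.mul_sum, mul_add, Finset.sum_add_distrib]
    congr 1
    · refine Finset.sum_congr rfl fun a _ => ?_
      refine Finset.sum_congr rfl fun d _ => ?_
      ring
    · refine Finset.sum_congr rfl fun a _ => ?_
      refine Finset.sum_congr rfl fun d _ => ?_
      ring
  rw [hS, abs_mul, abs_of_nonneg (by norm_num : (0 : ℝ) ≤ 2)]
  have hterm : ∀ c : I, |R.n * (wA c * ((fun a => Z c a) ⬝ᵥ (R.rh A U *ᵥ fun a => Z c a)) +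
        wB c * ((fun a => Z c a) ⬝ᵥ (R.rh Aᶜ U *ᵥ fun a => Z c a)))| ≤
      R.n * (2 * c' * r * ∑ a, Z c a ^ 2) := by
    intro c
    rw [abs_mul, abs_of_pos hn]
    refine mul_le_mul_of_nonneg_left ?_ hn.le
    have hv : ((fun a => Z c a) ⬝ᵥ fun a => Z c a) = ∑ a, Z c a ^ 2 := by
      simp only [dotProduct]
      exact Finset.sum_congr rfl fun a _ => by ring
    have ha := hA (fun a => Z c a)
    have hb := hB (fun a => Z c a)
    rw [hv] at ha hb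
    refine (abs_add_le _ _).trans ?_
    rw [abs_mul, abs_mul]
    have k1 := mul_le_mul (hwAle c) ha (abs_nonneg _) hc'
    have k2 := mul_le_mul (hwBle c) hb (abs_nonneg _) hc'
    linarith
  have hsum := (Finset.abs_sum_le_sum_abs (fun c : I => R.n * (wA c * ((fun a => Z c a) ⬝ᵥ
    (R.rh A U *ᵥ fun a => Z c a)) +
        wB c * ((fun a => Z c a) ⬝ᵥ (R.rh Aᶜ U *ᵥ fun a => Z c a)))) Finset.univ).trans
    (Finset.sum_le_sum fun c _ => hterm c)
  have e5 : ∑ c, R.n * (2 * c' * r * ∑ a, Z c a ^ 2) =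
      R.n * (2 * c' * r * ∑ c, ∑ a, Z c a ^ 2) := by
    simp only [← Finset.mul_sum]
  rw [e5] at hsum
  rw [R.Qf_mn, mn_sq, ← hZ]
  linarith

end

section

variable {L : Type} [LieRing L] [LieAlgebra ℝ L] {I : Type} [Fintype I] [DecidableEq I] {m : ℕ}
  {R : Rp L I m} {A : Finset I} {x1 x2 z : ℝ} {S T Pp : L →ₗ[ℝ] L} {c : L} {J0 : Matrix I I ℝ}
  {g1 g2 : ℝ}

theorem Spl.rh_diag (h : Spl R A x1 x2 z S T Pp c J0 g1 g2) {U : L →ₗ[ℝ] L}
    (hU : ∀ x, U (Pp x) = Pp (U x)) (B : Finset I) (hB : B = A ∨ B = Aᶜ) {a d : I}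
    (hab : ¬(a ∈ A ↔ d ∈ A)) : R.rh B U a d = 0 := by
  have key : ∀ b : I, R.tn U a b d b = 0 := by
    intro b
    by_cases hb : (a ∈ A ↔ b ∈ A)
    · -- (a, b) is not mixed
      have h1 : Pp (R.e a b) = 0 := by rw [h.pe, if_pos hb]
      have h2 : Pp (U (R.e a b)) = 0 := by rw [← hU, h1, map_zero]
      have h3 := h.pp (U (R.e a b)) d b
      have hd : ¬(d ∈ A ↔ b ∈ A) := by
        intro h4
        exact hab (hb.trans h4.symm)
      rw [if_neg hd, h2, map_zero] at h3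
      exact h3.symm
    · have h1 : Pp (R.e a b) = R.e a b := by rw [h.pe, if_neg hb]
      have h2 : U (R.e a b) = Pp (U (R.e a b)) := by rw [← hU, h1]
      have h3 := h.pp (U (R.e a b)) d b
      have hd : (d ∈ A ↔ b ∈ A) := by tauto
      rw [if_pos hd, ← h2] at h3
      exact h3
  simp [Rp.rh, key]

theorem Rp.rh_tr (R : Rp L I m) {U : L →ₗ[ℝ] L} (hU : QSym U) (A : Finset I) :
    ta Aᶜ (R.rh A U) = ta A (R.rh Aᶜ U) := by
  simp only [ta, Rp.rh, of_apply]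
  congr 1
  rw [← Finset.mul_sum, ← Finset.mul_sum, Finset.sum_comm]
  congr 1
  refine Finset.sum_congr rfl fun a _ => ?_
  refine Finset.sum_congr rfl fun b _ => ?_
  rw [R.tn_skew1, R.tn_skew2, neg_neg]

/-- `Qf` is positive. -/
theorem Rp.rh_Qf_nn (R : Rp L I m) (x : L) : 0 ≤ Qf L x x := by
  rw [R.Qf_mn]
  have := R.n0
  positivity

/-- `Qf` is symmetric. -/
theorem Rp.rh_Qf_symm (R : Rp L I m) (x y : L) : Qf L x y = Qf L y x := by
  rw [R.qf, R.qf]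
  congr 1
  exact Finset.sum_congr rfl fun a _ => Finset.sum_congr rfl fun b _ => mul_comm _ _

/-- Polarisation of the bound. -/
theorem Rp.rh_polar (R : Rp L I m) {U : L →ₗ[ℝ] L} (hU : QSym U) {b : ℝ} (hb : 0 ≤ b)
    (h : NBL U b) (x y : L) :
    |Qf L (U x) y| ≤ b * (√(Qf L x x) * √(Qf L y y)) := by
  have hz : ∀ z : L, Qf L z z = 0 → z = 0 := by
    intro z hz
    apply R.inj
    rw [R.Qf_mn, mn_sq] at hz
    have hn := R.n0.ne'
    have h1 : ∑ a, ∑ b, R.ph z a b ^ 2 = 0 := by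
      rcases mul_eq_zero.mp hz with h2 | h2
      · exact absurd h2 hn
      · exact h2
    ext a b
    have h2 := (Finset.sum_eq_zero_iff_of_nonneg (fun a _ => Finset.sum_nonneg
      fun b _ => sq_nonneg (R.ph z a b))).mp h1 a (Finset.mem_univ a)
    have h3 := (Finset.sum_eq_zero_iff_of_nonneg (fun b _ => sq_nonneg (R.ph z a b))).mp h2 b
      (Finset.mem_univ b)
    simpa using h3
  set s := √(Qf L x x) with hs
  set r := √(Qf L y y) with hr
  have hs2 : s ^ 2 = Qf L x x := Real.sq_sqrt (R.rh_Qf_nn x)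
  have hr2 : r ^ 2 = Qf L y y := Real.sq_sqrt (R.rh_Qf_nn y)
  have hs0 : 0 ≤ s := Real.sqrt_nonneg _
  have hr0 : 0 ≤ r := Real.sqrt_nonneg _
  have hxy : Qf L (U y) x = Qf L (U x) y := by rw [hU, R.rh_Qf_symm]
  have hq : Qf L y x = Qf L x y := R.rh_Qf_symm y x
  have h1 := h (r • x + s • y)
  have h2 := h (r • x - s • y)
  simp only [map_add, map_sub, map_smul, LinearMap.add_apply, LinearMap.sub_apply,
    LinearMap.smul_apply, smul_eq_mul, hxy, hq] at h1 h2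
  rw [← hs2, ← hr2] at h1 h2
  have h3 : r * s * |Qf L (U x) y| ≤ r * s * (b * (s * r)) := by
    rw [← abs_of_nonneg (mul_nonneg hr0 hs0), ← abs_mul, abs_of_nonneg (mul_nonneg hr0 hs0)]
    rw [abs_le] at h1 h2 ⊢
    constructor <;> nlinarith [h1.1, h1.2, h2.1, h2.2]
  rcases eq_or_lt_of_le hs0 with h0 | h0
  · have hx : x = 0 := hz x (by rw [← hs2, ← h0]; ring)
    rw [hx]
    simp only [map_zero, LinearMap.zero_apply, abs_zero]
    positivity
  rcases eq_or_lt_of_le hr0 with h0' | h0'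
  · have hy : y = 0 := hz y (by rw [← hr2, ← h0']; ring)
    rw [hy]
    simp only [map_zero, abs_zero]
    positivity
  exact le_of_mul_le_mul_left h3 (mul_pos h0' h0)

/-- The product of `zz v (single b 1)` with `y`. -/
theorem Rp.Qf_zs (R : Rp L I m) (v : I → ℝ) (b : I) (y : L) :
    Qf L (R.zz v (Pi.single b 1)) y = R.n * ∑ a, v a * R.ph y a b := by
  have h0 : R.zz v (Pi.single b 1) = ∑ a, v a • R.e a b := by
    unfold Rp.zz
    refine Finset.sum_congr rfl fun a _ => ?_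
    rw [Finset.sum_eq_single b]
    · simp
    · intro b' _ hb'
      simp [Pi.single_apply, hb']
    · simp
  rw [h0, map_sum, LinearMap.sum_apply, Finset.mul_sum]
  refine Finset.sum_congr rfl fun a _ => ?_
  rw [map_smul, LinearMap.smul_apply, R.he, smul_eq_mul]
  ring

/-- The products of the elements `zz v (single b 1)` with `c` are small. -/
theorem Spl.sum_zc (h : Spl R A x1 x2 z S T Pp c J0 g1 g2) {c0 : ℝ} (hb : Bnd I m A x1 x2 z c0)
    {K : Finset I} (hK : K = A ∨ K = Aᶜ) {v : I → ℝ} (hv : ∀ i, i ∉ K → v i = 0) :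
    Fintype.card I * ∑ b, Qf L (R.zz v (Pi.single b 1)) c ^ 2 ≤ c0 * (R.n * (v ⬝ᵥ v)) := by
  have hn := R.n0
  have hc0 : 0 ≤ c0 := by linarith [hb.c1]
  have hvv : 0 ≤ v ⬝ᵥ v := by
    simp only [dotProduct]
    exact Finset.sum_nonneg fun i _ => mul_self_nonneg _
  set g : ℝ := if K = A then g1 else g2 with hg
  have hga : ∀ a ∈ K, (if a ∈ A then g1 else g2) = g := by
    intro a ha
    by_cases hKA : K = A
    · rw [hKA] at ha
      simp [hg, hKA, ha]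
    · have hKB : K = Aᶜ := hK.resolve_left hKA
      rw [hKB] at ha
      have ha' : a ∉ A := Finset.mem_compl.mp ha
      simp [hg, hKA, ha']
  have hq : ∀ b, Qf L (R.zz v (Pi.single b 1)) c = R.n * (g * ∑ a, v a * J0 a b) := by
    intro b
    rw [R.Qf_zs]
    congr 1
    rw [Finset.mul_sum]
    refine Finset.sum_congr rfl fun a _ => ?_
    by_cases ha : a ∈ K
    · rw [h.pc, hga a ha]
      ring
    · rw [hv a ha]
      ring
  rcases h.J0J with hJ | hJ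
  · have : ∀ b, Qf L (R.zz v (Pi.single b 1)) c ^ 2 = 0 := by
      intro b
      rw [hq]
      simp [hJ]
    simp only [this]
    simp only [Finset.sum_const_zero, mul_zero]
    positivity
  · have hJ' : J0 * J0ᵀ = 1 := mul_eq_one_comm.mp hJ
    have hrow : ∀ a, ∑ b, J0 a b ^ 2 = 1 := by
      intro a
      have := congrFun (congrFun hJ' a) a
      rw [mul_apply, one_apply_eq] at this
      rw [← this]
      exact Finset.sum_congr rfl fun b _ => by rw [transpose_apply]; ring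
    have hsum : ∑ b, (∑ a, v a * J0 a b) ^ 2 = v ⬝ᵥ v := by
      have e1 : ∑ b, (∑ a, v a * J0 a b) ^ 2 = (v ᵥ* J0) ⬝ᵥ (v ᵥ* J0) := by
        simp only [dotProduct, vecMul]
        exact Finset.sum_congr rfl fun b _ => by ring
      rw [e1, ← dotProduct_mulVec, ← mulVec_transpose, mulVec_mulVec, hJ', one_mulVec]
    -- the bound of `g`
    have hcc : Qf L c c ≤ 1 := by
      rcases h.cc with h1 | h1
      · exact h1.le
      · rw [h1]
        simp
    have hccg : R.n * (g ^ 2 * K.card) ≤ Qf L c c := by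
      rw [R.qf]
      refine mul_le_mul_of_nonneg_left ?_ hn.le
      have e2 : g ^ 2 * (K.card : ℝ) = ∑ a ∈ K, ∑ b, R.ph c a b * R.ph c a b := by
        rw [mul_comm, ← nsmul_eq_mul, ← Finset.sum_const]
        refine Finset.sum_congr rfl fun a ha => ?_
        have : ∀ b, R.ph c a b * R.ph c a b = g ^ 2 * J0 a b ^ 2 := by
          intro b
          rw [h.pc, hga a ha]
          ring
        simp only [this]
        rw [← Finset.mul_sum, hrow, mul_one]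
      rw [e2]
      exact Finset.sum_le_sum_of_subset_of_nonneg (Finset.subset_univ _)
        fun a _ _ => Finset.sum_nonneg fun b _ => mul_self_nonneg _
    have hKM : (Fintype.card I : ℝ) ≤ c0 * (K.card : ℝ) := by
      rcases hK with hK | hK
      · rw [hK]; exact hb.Al
      · rw [hK]; exact hb.Bl
    have e3 : ∑ b, Qf L (R.zz v (Pi.single b 1)) c ^ 2 = R.n ^ 2 * g ^ 2 * (v ⬝ᵥ v) := by
      rw [← hsum, Finset.mul_sum]
      refine Finset.sum_congr rfl fun b _ => ?_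
      rw [hq]
      ring
    rw [e3]
    have h5 : (Fintype.card I : ℝ) * (R.n * g ^ 2) ≤ c0 := by
      calc (Fintype.card I : ℝ) * (R.n * g ^ 2) ≤ c0 * (K.card : ℝ) * (R.n * g ^ 2) :=
            mul_le_mul_of_nonneg_right hKM (by positivity)
        _ = c0 * (R.n * (g ^ 2 * K.card)) := by ring
        _ ≤ c0 * 1 := mul_le_mul_of_nonneg_left (hccg.trans hcc) hc0
        _ = c0 := mul_one _
    calc (Fintype.card I : ℝ) * (R.n ^ 2 * g ^ 2 * (v ⬝ᵥ v)) =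
          (Fintype.card I : ℝ) * (R.n * g ^ 2) * (R.n * (v ⬝ᵥ v)) := by ring
      _ ≤ c0 * (R.n * (v ⬝ᵥ v)) := mul_le_mul_of_nonneg_right h5 (by positivity)

/-- `T` on the elements `zz v (single b 1)`. -/
theorem Spl.T_zs (h : Spl R A x1 x2 z S T Pp c J0 g1 g2) {v : I → ℝ} {K B : Finset I} {w : ℝ}
    (hw : ∀ a ∈ K, ∀ b ∈ B, wt A x1 x2 1 a b = w) (hv : ∀ i, i ∉ K → v i = 0) {b : I}
    (hb : b ∈ B) : T (R.zz v (Pi.single b 1)) = w • R.zz v (Pi.single b 1) +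
      ((z - w) * Qf L (R.zz v (Pi.single b 1)) c) • c := by
  have h0 : R.zz v (Pi.single b 1) = ∑ a, v a • R.e a b := by
    unfold Rp.zz
    refine Finset.sum_congr rfl fun a _ => ?_
    rw [Finset.sum_eq_single b]
    · simp
    · intro b' _ hb'
      simp [Pi.single_apply, hb']
    · simp
  rw [R.Qf_zs, h0, map_sum]
  have h1 : ∀ a, T (v a • R.e a b) = w • (v a • R.e a b) +
      ((z - w) * (R.n * (v a * R.ph c a b))) • c := by
    intro a
    by_cases ha : a ∈ K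
    · rw [map_smul, h.te, hw a ha b hb, smul_add, smul_smul, smul_smul, smul_smul, mul_comm (v a) w]
      congr 2
      ring
    · rw [hv a ha]
      simp
  simp only [h1]
  rw [Finset.sum_add_distrib, ← Finset.smul_sum, ← Finset.sum_smul, ← Finset.mul_sum,
    ← Finset.mul_sum]

end

theorem rh_TUT (c0 : ℝ) (m : ℕ) : ∃ C : ℝ, 1 ≤ C ∧ ∀ (L : Type) [LieRing L] [LieAlgebra ℝ L]
    (I : Type) [Fintype I] [DecidableEq I] (R : Rp L I m) (A : Finset I) (x1 x2 z : ℝ)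
    (S T Pp : L →ₗ[ℝ] L) (c : L) (J0 : Matrix I I ℝ) (g1 g2 : ℝ),
    Spl R A x1 x2 z S T Pp c J0 g1 g2 → Bnd I m A x1 x2 z c0 →
    ∀ (U : L →ₗ[ℝ] L) (b : ℝ), QSym U → 0 ≤ b → NBL U b →
    ∀ (v : I → ℝ) (K B : Finset I) (w : ℝ),
      ((K = A ∧ B = A ∧ w = x1) ∨ (K = Aᶜ ∧ B = Aᶜ ∧ w = x2) ∨ (K = A ∧ B = Aᶜ ∧ w = 1) ∨
        (K = Aᶜ ∧ B = A ∧ w = 1)) → (∀ i, i ∉ K → v i = 0) →
      |v ⬝ᵥ (R.rh B (T ∘ₗ U ∘ₗ T) *ᵥ v) - w ^ 2 * (v ⬝ᵥ (R.rh B U *ᵥ v))| ≤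
        C / Fintype.card I * b * (v ⬝ᵥ v) := by
  refine ⟨6 * (m + 1) * |c0| ^ 3 + 1, by
    have : (0 : ℝ) ≤ 6 * (m + 1) * |c0| ^ 3 := by positivity
    linarith, ?_⟩
  intro L _ _ I _ _ R A x1 x2 z S T Pp c J0 g1 g2 h hb U β hU hβ hUb v K B w hKB hv
  have hn := R.n0
  obtain ⟨hn1, -, hM0, -⟩ := R.n_bd hb.M1
  have hc1 := hb.c1
  have hc0 : 0 < c0 := by linarith
  have hK : K = A ∨ K = Aᶜ := by tauto
  have hvv : 0 ≤ v ⬝ᵥ v := by
    simp only [dotProduct]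
    exact Finset.sum_nonneg fun i _ => mul_self_nonneg _
  set M : ℝ := (Fintype.card I : ℝ) with hMdef
  have hM1 : 1 ≤ M := by
    have := hb.M1
    have hm : (0 : ℝ) ≤ m := Nat.cast_nonneg m
    linarith
  -- the weight
  have hw : ∀ a ∈ K, ∀ b ∈ B, wt A x1 x2 1 a b = w := by
    intro a ha b hb'
    rcases hKB with ⟨hk, hB, hw⟩ | ⟨hk, hB, hw⟩ | ⟨hk, hB, hw⟩ | ⟨hk, hB, hw⟩ <;>
      rw [hk] at ha <;> rw [hB] at hb' <;> simp [wt, hw, Finset.mem_compl] at * <;> simp [ha, hb']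
  have hw0 : 0 < w ∧ w ≤ c0 := by
    rcases hKB with ⟨-, -, hw⟩ | ⟨-, -, hw⟩ | ⟨-, -, hw⟩ | ⟨-, -, hw⟩ <;> rw [hw]
    · exact ⟨h.x1p, hb.x1u⟩
    · exact ⟨h.x2p, hb.x2u⟩
    · exact ⟨one_pos, hc1⟩
    · exact ⟨one_pos, hc1⟩
  have hzw : |z - w| ≤ c0 := by
    rw [abs_le]
    constructor <;> linarith [h.zp, hb.zu, hw0.1, hw0.2]
  set Z : I → L := fun b => R.zz v (Pi.single b 1) with hZ
  set q : I → ℝ := fun b => Qf L (Z b) c with hq
  have hsymm : ∀ x y : L, Qf L x y = Qf L y x := R.rh_Qf_symm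
  have hT : ∀ b ∈ B, T (Z b) = w • Z b + ((z - w) * q b) • c := fun b hb' =>
    h.T_zs hw hv hb'
  have hexp : ∀ b ∈ B, Qf L ((T ∘ₗ U ∘ₗ T) (Z b)) (Z b) = w ^ 2 * Qf L (U (Z b)) (Z b) +
      (2 * w * ((z - w) * q b) * Qf L (U (Z b)) c + ((z - w) * q b) ^ 2 * Qf L (U c) c) := by
    intro b hb'
    have e1 : Qf L ((T ∘ₗ U ∘ₗ T) (Z b)) (Z b) = Qf L (U (T (Z b))) (T (Z b)) := by
      rw [← h.sT]
      rfl
    have e2 : Qf L (U c) (Z b) = Qf L (U (Z b)) c := by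
      rw [hU, hsymm]
    rw [e1, hT b hb']
    simp only [map_add, map_smul, LinearMap.add_apply, LinearMap.smul_apply, smul_eq_mul]
    rw [e2]
    ring
  have hcc : Qf L c c ≤ 1 := by
    rcases h.cc with h1 | h1
    · exact h1.le
    · rw [h1]
      simp
  have hcc0 := R.rh_Qf_nn c
  have hscc : √(Qf L c c) ≤ 1 := by
    have := Real.sqrt_le_sqrt hcc
    rwa [Real.sqrt_one] at this
  have hQZ : ∀ b, Qf L (Z b) (Z b) ≤ R.n * (v ⬝ᵥ v) := by
    intro b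
    have := R.Qf_zz_le v (Pi.single b 1)
    simpa using this
  have hUc : |Qf L (U c) c| ≤ β := by
    refine (hUb c).trans ?_
    calc β * Qf L c c ≤ β * 1 := mul_le_mul_of_nonneg_left hcc hβ
      _ = β := mul_one _
  have hterm : ∀ b, |2 * w * ((z - w) * q b) * Qf L (U (Z b)) c +
      ((z - w) * q b) ^ 2 * Qf L (U c) c| ≤
      c0 ^ 2 * β * (2 * (M * q b ^ 2) + R.n * (v ⬝ᵥ v) / M) := by
    intro b
    have h1 : |Qf L (U (Z b)) c| ≤ β * √(R.n * (v ⬝ᵥ v)) := by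
      refine (R.rh_polar hU hβ hUb _ _).trans ?_
      refine mul_le_mul_of_nonneg_left ?_ hβ
      calc √(Qf L (Z b) (Z b)) * √(Qf L c c) ≤ √(R.n * (v ⬝ᵥ v)) * 1 :=
            mul_le_mul (Real.sqrt_le_sqrt (hQZ b)) hscc (Real.sqrt_nonneg _) (Real.sqrt_nonneg _)
        _ = _ := mul_one _
    have h2 : |q b| * √(R.n * (v ⬝ᵥ v)) ≤ (M * q b ^ 2 + R.n * (v ⬝ᵥ v) / M) / 2 := by
      have hs := Real.sq_sqrt (by positivity : (0 : ℝ) ≤ R.n * (v ⬝ᵥ v))
      have hMp : 0 < M := by linarith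
      have h3 : 0 ≤ (M * |q b| - √(R.n * (v ⬝ᵥ v))) ^ 2 / M := by positivity
      have h4 : (M * |q b| - √(R.n * (v ⬝ᵥ v))) ^ 2 / M =
          M * q b ^ 2 + R.n * (v ⬝ᵥ v) / M - 2 * (|q b| * √(R.n * (v ⬝ᵥ v))) := by
        rw [sub_sq, hs, mul_pow, sq_abs]
        field_simp
        ring
      linarith
    have hq2 : q b ^ 2 ≤ M * q b ^ 2 := by
      have := sq_nonneg (q b)
      nlinarith
    have hzw2 : (z - w) ^ 2 ≤ c0 ^ 2 := by
      rw [← sq_abs (z - w)]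
      exact pow_le_pow_left₀ (abs_nonneg _) hzw 2
    refine (abs_add_le _ _).trans ?_
    have t1 : |2 * w * ((z - w) * q b) * Qf L (U (Z b)) c| ≤
        c0 ^ 2 * β * (M * q b ^ 2 + R.n * (v ⬝ᵥ v) / M) := by
      rw [abs_mul, abs_mul, abs_mul, abs_mul, abs_of_pos hw0.1, abs_of_pos (by norm_num : (0:ℝ) < 2)]
      calc 2 * w * (|z - w| * |q b|) * |Qf L (U (Z b)) c|
          ≤ 2 * c0 * (c0 * |q b|) * (β * √(R.n * (v ⬝ᵥ v))) := by
            gcongr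
            exact hw0.2
        _ = c0 ^ 2 * β * (2 * (|q b| * √(R.n * (v ⬝ᵥ v)))) := by ring
        _ ≤ c0 ^ 2 * β * (M * q b ^ 2 + R.n * (v ⬝ᵥ v) / M) := by
            refine mul_le_mul_of_nonneg_left ?_ (by positivity)
            linarith
    have t2 : |((z - w) * q b) ^ 2 * Qf L (U c) c| ≤ c0 ^ 2 * β * (M * q b ^ 2) := by
      rw [abs_mul, abs_of_nonneg (sq_nonneg _), mul_pow]
      calc (z - w) ^ 2 * q b ^ 2 * |Qf L (U c) c| ≤ c0 ^ 2 * (M * q b ^ 2) * β := by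
            gcongr
        _ = _ := by ring
    linarith
  -- assembly
  rw [R.rh_quad, R.rh_quad]
  have hdiff : 1 / R.n ^ 2 * ∑ b ∈ B, Qf L ((T ∘ₗ U ∘ₗ T) (R.zz v (Pi.single b 1)))
        (R.zz v (Pi.single b 1)) -
      w ^ 2 * (1 / R.n ^ 2 * ∑ b ∈ B, Qf L (U (R.zz v (Pi.single b 1)))
        (R.zz v (Pi.single b 1))) =
      1 / R.n ^ 2 * ∑ b ∈ B, (2 * w * ((z - w) * q b) * Qf L (U (Z b)) c +
        ((z - w) * q b) ^ 2 * Qf L (U c) c) := by
    have e : ∑ b ∈ B, Qf L ((T ∘ₗ U ∘ₗ T) (Z b)) (Z b) = w ^ 2 * ∑ b ∈ B, Qf L (U (Z b)) (Z b) +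
        ∑ b ∈ B, (2 * w * ((z - w) * q b) * Qf L (U (Z b)) c +
        ((z - w) * q b) ^ 2 * Qf L (U c) c) := by
      rw [Finset.mul_sum, ← Finset.sum_add_distrib]
      exact Finset.sum_congr rfl hexp
    change 1 / R.n ^ 2 * ∑ b ∈ B, Qf L ((T ∘ₗ U ∘ₗ T) (Z b)) (Z b) -
      w ^ 2 * (1 / R.n ^ 2 * ∑ b ∈ B, Qf L (U (Z b)) (Z b)) = _
    rw [e]
    ring
  rw [hdiff, abs_mul, abs_of_nonneg (by positivity : (0 : ℝ) ≤ 1 / R.n ^ 2)]
  have hMp : 0 < M := by linarith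
  have hsum : |∑ b ∈ B, (2 * w * ((z - w) * q b) * Qf L (U (Z b)) c +
        ((z - w) * q b) ^ 2 * Qf L (U c) c)| ≤ 3 * c0 ^ 3 * β * (R.n * (v ⬝ᵥ v)) := by
    refine (Finset.abs_sum_le_sum_abs _ _).trans ?_
    refine (Finset.sum_le_sum fun b _ => hterm b).trans ?_
    refine (Finset.sum_le_sum_of_subset_of_nonneg (Finset.subset_univ B)
      fun b _ _ => (abs_nonneg _).trans (hterm b)).trans ?_
    rw [← Finset.mul_sum, Finset.sum_add_distrib, ← Finset.mul_sum, ← Finset.mul_sum,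
      Finset.sum_const, nsmul_eq_mul, Finset.card_univ, ← hMdef]
    have h1 := h.sum_zc hb hK hv
    have h1' : M * ∑ b, q b ^ 2 ≤ c0 * (R.n * (v ⬝ᵥ v)) := h1
    have h2 : M * (R.n * (v ⬝ᵥ v) / M) = R.n * (v ⬝ᵥ v) := by field_simp
    rw [h2]
    have h3 : 0 ≤ R.n * (v ⬝ᵥ v) := by positivity
    have h4 : 2 * (M * ∑ b, q b ^ 2) + R.n * (v ⬝ᵥ v) ≤ 3 * c0 * (R.n * (v ⬝ᵥ v)) := by
      nlinarith
    calc c0 ^ 2 * β * (2 * (M * ∑ b, q b ^ 2) + R.n * (v ⬝ᵥ v)) ≤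
          c0 ^ 2 * β * (3 * c0 * (R.n * (v ⬝ᵥ v))) := mul_le_mul_of_nonneg_left h4 (by positivity)
      _ = _ := by ring
  refine (mul_le_mul_of_nonneg_left hsum (by positivity)).trans ?_
  have h3 : M ≤ 2 * (m + 1) * R.n := by
    have : (0 : ℝ) < 2 * (m + 1) := by positivity
    rw [div_le_iff₀ this] at hn1
    linarith
  have h4 : 1 / R.n ≤ 2 * (m + 1) / M := by
    rw [div_le_div_iff₀ hn hMp]
    linarith
  calc 1 / R.n ^ 2 * (3 * c0 ^ 3 * β * (R.n * (v ⬝ᵥ v))) =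
        1 / R.n * (3 * c0 ^ 3 * β * (v ⬝ᵥ v)) := by field_simp
    _ ≤ 2 * (m + 1) / M * (3 * c0 ^ 3 * β * (v ⬝ᵥ v)) :=
        mul_le_mul_of_nonneg_right h4 (by positivity)
    _ = (6 * (m + 1) * |c0| ^ 3) / M * β * (v ⬝ᵥ v) := by
        rw [abs_of_pos hc0]
        ring
    _ ≤ (6 * (m + 1) * |c0| ^ 3 + 1) / M * β * (v ⬝ᵥ v) := by
        gcongr
        linarith

end Pool.Agent.EinV
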