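import Pool.Agent.EinV.Ten

/-!
# The representation: basic facts

`rp_exp`: both sides have the same product with every `y` (`he`, `qf`), and `Qf x x = n |ph x|²`, `inj`.
`rp_trace`: `F = F ∘ (x ↦ ∑ x a b • e a b) ∘ ph`, `LinearMap.trace_comp_comm'` and the trace on matrices
(`trace_cl` in `EinS/ClKil.lean` is similar).
`N1_tn`: `∑ tn U a b c d * (x a b * y c d) = (1/n) Qf (U x') y'` with `x' = ∑ x a b • e a b`, and
`Qf x' x' = n ∑ x a b * ph x' a b ≤ √(n) * mn x * √(Qf x' x')`, so `Qf x' x' ≤ n * mn x ^ 2`; polarise `NBL`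
(for a symmetric form with `|Q z| ≤ b |z|²` one has `|Q(z, z')| ≤ b |z| |z'|`).
`exists_op`: `V x = ∑ a, ∑ b, (G x (e a b) / n) • e a b`.
-/

set_option linter.all false

namespace Pool.Agent.EinV

open Matrix Pool.Agent.EStab Pool.Agent.EinS Pool.Agent.SmIso Pool.Agent.EinU Pool.Agent.EinG

variable {L : Type} [LieRing L] [LieAlgebra ℝ L] {I : Type} [Fintype I] [DecidableEq I] {m : ℕ}
  (R : Rp L I m)

theorem Rp.n0 : 0 < R.n := lt_of_lt_of_le one_pos R.n1

theorem Rp.Qf_mn (x : L) : Qf L x x = R.n * mn (R.ph x) ^ 2 := by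
  rw [R.qf, mn_sq]
  congr 1
  exact Finset.sum_congr rfl fun a _ => Finset.sum_congr rfl fun b _ => (sq _).symm

include R in
theorem Rp.Qf_nn (x : L) : 0 ≤ Qf L x x := by
  rw [R.Qf_mn]
  exact mul_nonneg R.n0.le (sq_nonneg _)

private theorem RpB_mn_zero {x : Matrix I I ℝ} (h : mn x ^ 2 = 0) : x = 0 := by
  rw [mn_sq] at h
  have h1 := (Finset.sum_eq_zero_iff_of_nonneg
    (fun a _ => Finset.sum_nonneg fun b _ => sq_nonneg (x a b))).1 h
  ext a b
  have h2 := (Finset.sum_eq_zero_iff_of_nonneg (fun b _ => sq_nonneg (x a b))).1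
    (h1 a (Finset.mem_univ a)) b (Finset.mem_univ b)
  exact (pow_eq_zero_iff two_ne_zero).1 h2

include R in
private theorem RpB_zero {x : L} (h : Qf L x x = 0) : x = 0 := by
  rw [R.Qf_mn] at h
  exact R.inj x (RpB_mn_zero ((mul_eq_zero.1 h).resolve_left R.n0.ne'))

include R in
theorem Rp.ext_Qf {x y : L} (h : ∀ z, Qf L x z = Qf L y z) : x = y := by
  have h1 : Qf L (x - y) (x - y) = 0 := by
    rw [LinearMap.map_sub (Qf L), LinearMap.sub_apply, h, sub_self]
  exact sub_eq_zero.1 (RpB_zero R h1)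

include R in
theorem Rp.compact : CompactSemisimple L := by
  intro x hx
  have h1 := R.Qf_nn x
  have h2 : Qf L x x ≠ 0 := fun h => hx (RpB_zero R h)
  have h3 : 0 < Qf L x x := lt_of_le_of_ne h1 (Ne.symm h2)
  rw [Qf_apply] at h3
  linarith

private theorem RpB_lin (x : I → I → ℝ) (z : L) :
    Qf L (∑ a, ∑ b, x a b • R.e a b) z = R.n * ∑ a, ∑ b, x a b * R.ph z a b := by
  rw [map_sum, LinearMap.sum_apply, Finset.mul_sum]
  refine Finset.sum_congr rfl fun a _ => ?_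
  rw [map_sum, LinearMap.sum_apply, Finset.mul_sum]
  refine Finset.sum_congr rfl fun b _ => ?_
  rw [map_smul, LinearMap.smul_apply, R.he, smul_eq_mul]
  ring

theorem Rp.exp (x : L) : x = ∑ a, ∑ b, R.ph x a b • R.e a b := by
  refine R.ext_Qf fun z => ?_
  have h : Qf L (∑ a, ∑ b, R.ph x a b • R.e a b) z = R.n * ∑ a, ∑ b, R.ph x a b * R.ph z a b :=
    RpB_lin R (fun a b => R.ph x a b) z
  rw [h, R.qf]

private theorem RpB_trace_mat (f : Matrix I I ℝ →ₗ[ℝ] Matrix I I ℝ) :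
    LinearMap.trace ℝ _ f = ∑ a, ∑ b, f (Matrix.single a b 1) a b := by
  rw [LinearMap.trace_eq_matrix_trace ℝ (Matrix.stdBasis ℝ I I), Matrix.trace,
    Fintype.sum_prod_type]
  refine Finset.sum_congr rfl fun a _ => Finset.sum_congr rfl fun b _ => ?_
  rw [Matrix.diag_apply, LinearMap.toMatrix_apply, Matrix.stdBasis_eq_single]
  rfl

theorem Rp.trace [Module.Finite ℝ L] (F : L →ₗ[ℝ] L) :
    LinearMap.trace ℝ L F = ∑ a, ∑ b, R.ph (F (R.e a b)) a b := by
  let g : Matrix I I ℝ →ₗ[ℝ] L :=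
    { toFun := fun x => ∑ a, ∑ b, x a b • R.e a b
      map_add' := fun x y => by
        simp only [Matrix.add_apply, add_smul, Finset.sum_add_distrib]
      map_smul' := fun c x => by
        simp only [Matrix.smul_apply, smul_eq_mul, mul_smul, Finset.smul_sum, RingHom.id_apply] }
  have h1 : F = (F ∘ₗ g) ∘ₗ R.ph := by
    ext x : 1
    change F x = F (g (R.ph x))
    congr 1
    exact R.exp x
  have h2 : LinearMap.trace ℝ L F = LinearMap.trace ℝ _ (R.ph ∘ₗ (F ∘ₗ g)) := by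
    conv_lhs => rw [h1]
    exact LinearMap.trace_comp_comm' R.ph (F ∘ₗ g)
  have h3 : ∀ a b, g (Matrix.single a b 1) = R.e a b := by
    intro a b
    change ∑ a', ∑ b', Matrix.single a b (1 : ℝ) a' b' • R.e a' b' = R.e a b
    rw [Finset.sum_eq_single a, Finset.sum_eq_single b]
    · rw [Matrix.single_apply_same, one_smul]
    · intro b' _ hb'
      rw [Matrix.single_apply_of_ne _ _ _ _ _ (fun h => hb' h.2.symm), zero_smul]
    · intro h; exact absurd (Finset.mem_univ _) h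
    · intro a' _ ha'
      refine Finset.sum_eq_zero fun b' _ => ?_
      rw [Matrix.single_apply_of_ne _ _ _ _ _ (fun h => ha' h.1.symm), zero_smul]
    · intro h; exact absurd (Finset.mem_univ _) h
  rw [h2, RpB_trace_mat]
  refine Finset.sum_congr rfl fun a _ => Finset.sum_congr rfl fun b _ => ?_
  rw [LinearMap.comp_apply, LinearMap.comp_apply, h3]

theorem Rp.ph_skew (x : L) (a b : I) : R.ph x b a = -R.ph x a b := by
  have h := congrFun (congrFun (R.skew x) a) b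
  rw [Matrix.transpose_apply, Matrix.neg_apply] at h
  exact h

theorem Rp.e_skew (a b : I) : R.e b a = -R.e a b := by
  refine R.ext_Qf fun z => ?_
  rw [map_neg, LinearMap.neg_apply, R.he, R.he, R.ph_skew z a b]
  ring

theorem Rp.ph_e_symm (a b c d : I) : R.ph (R.e a b) c d = R.ph (R.e c d) a b := by
  have h1 := R.he c d (R.e a b)
  have h2 := R.he a b (R.e c d)
  rw [Qf_symm] at h1
  exact mul_left_cancel₀ R.n0.ne' (h1.symm.trans h2)

theorem Rp.tn_skew1 (U : L →ₗ[ℝ] L) (a b c d : I) : R.tn U b a c d = -R.tn U a b c d := by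
  unfold Rp.tn
  rw [R.e_skew a b, map_neg, map_neg, Matrix.neg_apply]

theorem Rp.tn_skew2 (U : L →ₗ[ℝ] L) (a b c d : I) : R.tn U a b d c = -R.tn U a b c d := by
  unfold Rp.tn
  exact R.ph_skew _ _ _

theorem Rp.Qf_e (U : L →ₗ[ℝ] L) (a b c d : I) :
    Qf L (U (R.e a b)) (R.e c d) = R.n * R.tn U a b c d := by
  rw [Qf_symm, R.he]
  rfl

theorem Rp.tn_symm {U : L →ₗ[ℝ] L} (hU : QSym U) (a b c d : I) :
    R.tn U c d a b = R.tn U a b c d := by
  refine mul_left_cancel₀ R.n0.ne' ?_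
  rw [← R.Qf_e, ← R.Qf_e, hU, Qf_symm]

private theorem RpB_bil (U : L →ₗ[ℝ] L) (x y : I → I → ℝ) :
    Qf L (U (∑ a, ∑ b, x a b • R.e a b)) (∑ c, ∑ d, y c d • R.e c d) =
      R.n * ∑ a, ∑ b, ∑ c, ∑ d, R.tn U a b c d * (x a b * y c d) := by
  rw [Qf_symm, RpB_lin]
  congr 1
  have h1 : ∀ c d, R.ph (U (∑ a, ∑ b, x a b • R.e a b)) c d = ∑ a, ∑ b, x a b * R.tn U a b c d := by
    intro c d
    simp only [map_sum, map_smul, Matrix.sum_apply, Matrix.smul_apply, smul_eq_mul]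
    rfl
  simp only [h1, Finset.mul_sum]
  have h2 : ∀ F : I → I → I → I → ℝ, ∑ c, ∑ d, ∑ a, ∑ b, F a b c d = ∑ a, ∑ b, ∑ c, ∑ d, F a b c d := by
    intro F
    have e1 : ∀ c, ∑ d, ∑ a, ∑ b, F a b c d = ∑ a, ∑ b, ∑ d, F a b c d := by
      intro c
      rw [Finset.sum_comm]
      exact Finset.sum_congr rfl fun a _ => Finset.sum_comm
    simp only [e1]
    rw [Finset.sum_comm]
    exact Finset.sum_congr rfl fun a _ => Finset.sum_comm
  rw [← h2]
  refine Finset.sum_congr rfl fun c _ => Finset.sum_congr rfl fun d _ =>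
    Finset.sum_congr rfl fun a _ => Finset.sum_congr rfl fun b _ => ?_
  ring

theorem Rp.Qf_tn (U : L →ₗ[ℝ] L) (x y : L) : Qf L (U x) y =
    R.n * ∑ a, ∑ b, ∑ c, ∑ d, R.tn U a b c d * (R.ph x a b * R.ph y c d) := by
  have h := RpB_bil R U (fun a b => R.ph x a b) (fun a b => R.ph y a b)
  have h1 : ∑ a, ∑ b, (fun a b => R.ph x a b) a b • R.e a b = x := (R.exp x).symm
  have h2 : ∑ a, ∑ b, (fun a b => R.ph y a b) a b • R.e a b = y := (R.exp y).symm
  rw [h1, h2] at h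
  exact h

include R in
/-- Polarisation of the bound. -/
theorem Rp.polar {U : L →ₗ[ℝ] L} (hU : QSym U) {b : ℝ} (hb : 0 ≤ b) (h : NBL U b) (x y : L) :
    |Qf L (U x) y| ≤ b * (√(Qf L x x) * √(Qf L y y)) := by
  have hbase : ∀ x y : L, |Qf L (U x) y| ≤ b / 2 * (Qf L x x + Qf L y y) := by
    intro x y
    have h1 := h (x + y)
    have h2 := h (x - y)
    have e0 : Qf L (U y) x = Qf L (U x) y := by rw [hU, Qf_symm]
    have e1 : Qf L (U (x + y)) (x + y) = Qf L (U x) x + 2 * Qf L (U x) y + Qf L (U y) y := by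
      simp only [map_add, LinearMap.add_apply]
      rw [e0]
      ring
    have e2 : Qf L (U (x - y)) (x - y) = Qf L (U x) x - 2 * Qf L (U x) y + Qf L (U y) y := by
      simp only [map_sub, LinearMap.sub_apply]
      rw [e0]
      ring
    have e3 : Qf L (x + y) (x + y) + Qf L (x - y) (x - y) = 2 * (Qf L x x + Qf L y y) := by
      simp only [map_add, map_sub, LinearMap.add_apply, LinearMap.sub_apply]
      rw [Qf_symm y x]
      ring
    rw [e1] at h1
    rw [e2] at h2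
    have h3 := abs_le.1 h1
    have h4 := abs_le.1 h2
    rw [abs_le]
    constructor <;> nlinarith [h3.1, h3.2, h4.1, h4.2, e3]
  rcases eq_or_ne (Qf L x x) 0 with hx | hx
  · have := RpB_zero R hx
    rw [this, map_zero, map_zero, LinearMap.zero_apply, abs_zero]
    positivity
  rcases eq_or_ne (Qf L y y) 0 with hy | hy
  · have := RpB_zero R hy
    rw [this, map_zero, abs_zero]
    positivity
  have hx' : 0 < Qf L x x := lt_of_le_of_ne (R.Qf_nn x) (Ne.symm hx)
  have hy' : 0 < Qf L y y := lt_of_le_of_ne (R.Qf_nn y) (Ne.symm hy)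
  obtain ⟨p, hp⟩ : ∃ p, p = √(Qf L x x) := ⟨_, rfl⟩
  obtain ⟨q, hq⟩ : ∃ q, q = √(Qf L y y) := ⟨_, rfl⟩
  have hp0 : 0 < p := by rw [hp]; exact Real.sqrt_pos.2 hx'
  have hq0 : 0 < q := by rw [hq]; exact Real.sqrt_pos.2 hy'
  have hp2 : p ^ 2 = Qf L x x := by rw [hp]; exact Real.sq_sqrt hx'.le
  have hq2 : q ^ 2 = Qf L y y := by rw [hq]; exact Real.sq_sqrt hy'.le
  have h5 := hbase (p⁻¹ • x) (q⁻¹ • y)
  simp only [map_smul, LinearMap.smul_apply, smul_eq_mul] at h5
  rw [← hp2, ← hq2, ← mul_assoc, ← mul_assoc, ← mul_assoc] at h5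
  have h6 : p⁻¹ * p⁻¹ * p ^ 2 + q⁻¹ * q⁻¹ * q ^ 2 = 2 := by
    field_simp
    norm_num
  rw [← hp, ← hq]
  have h7 : |q⁻¹ * p⁻¹ * Qf L (U x) y| ≤ b := by
    refine h5.trans (le_of_eq ?_)
    rw [h6]
    ring
  rw [abs_mul, abs_of_pos (by positivity : 0 < q⁻¹ * p⁻¹)] at h7
  have h8 : q⁻¹ * p⁻¹ * |Qf L (U x) y| * (p * q) ≤ b * (p * q) :=
    mul_le_mul_of_nonneg_right h7 (by positivity)
  have h9 : q⁻¹ * p⁻¹ * |Qf L (U x) y| * (p * q) = |Qf L (U x) y| := by
    field_simp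
  rw [h9] at h8
  exact h8

/-- Bound of the image of a matrix. -/
theorem Rp.Qf_hat (x : Matrix I I ℝ) :
    Qf L (∑ a, ∑ b, x a b • R.e a b) (∑ a, ∑ b, x a b • R.e a b) ≤ R.n * mn x ^ 2 := by
  obtain ⟨X, hX⟩ : ∃ X, X = ∑ a, ∑ b, x a b • R.e a b := ⟨_, rfl⟩
  have h1 : Qf L X X = R.n * ∑ a, ∑ b, x a b * R.ph X a b := by
    have h := RpB_lin R (fun a b => x a b) X
    have h' : ∑ a, ∑ b, (fun a b => x a b) a b • R.e a b = X := hX.symm
    rw [h'] at h
    exact h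
  have h2 := R.Qf_mn X
  rw [← hX, h2]
  have h3 : mn (R.ph X) ^ 2 ≤ mn x * mn (R.ph X) := by
    have h4 : mn (R.ph X) ^ 2 = ∑ a, ∑ b, x a b * R.ph X a b :=
      mul_left_cancel₀ R.n0.ne' (h2.symm.trans h1)
    rw [h4]
    exact (le_abs_self _).trans (cs_mat x (R.ph X))
  have h5 := mn_nonneg (R.ph X)
  have h6 := mn_nonneg x
  have h7 : mn (R.ph X) ≤ mn x := by
    by_contra hcon
    push Not at hcon
    have : 0 < mn (R.ph X) := h6.trans_lt hcon
    nlinarith
  exact mul_le_mul_of_nonneg_left (pow_le_pow_left₀ h5 h7 2) R.n0.le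

theorem Rp.N1_tn {U : L →ₗ[ℝ] L} (hU : QSym U) {b : ℝ} (hb : 0 ≤ b) (h : NBL U b) :
    N1 (R.tn U) b := by
  intro x y
  have h1 := R.polar hU hb h (∑ a, ∑ b, x a b • R.e a b) (∑ c, ∑ d, y c d • R.e c d)
  have h0 : Qf L (U (∑ a, ∑ b, x a b • R.e a b)) (∑ c, ∑ d, y c d • R.e c d) =
      R.n * ∑ a, ∑ b, ∑ c, ∑ d, R.tn U a b c d * (x a b * y c d) :=
    RpB_bil R U (fun a b => x a b) (fun a b => y a b)
  rw [h0, abs_mul, abs_of_pos R.n0] at h1
  have hs : ∀ x : Matrix I I ℝ, √(Qf L (∑ a, ∑ b, x a b • R.e a b) (∑ a, ∑ b, x a b • R.e a b)) ≤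
      √R.n * mn x := by
    intro x
    rw [Real.sqrt_le_left (mul_nonneg (Real.sqrt_nonneg _) (mn_nonneg _)), mul_pow,
      Real.sq_sqrt R.n0.le]
    exact R.Qf_hat x
  have h2 := mul_le_mul_of_nonneg_left (mul_le_mul (hs x) (hs y) (Real.sqrt_nonneg _)
    (mul_nonneg (Real.sqrt_nonneg _) (mn_nonneg _))) hb
  have h3 := h1.trans h2
  have h4 : b * (√R.n * mn x * (√R.n * mn y)) = R.n * (b * (mn x * mn y)) := by
    have := Real.mul_self_sqrt R.n0.le
    calc b * (√R.n * mn x * (√R.n * mn y)) = (√R.n * √R.n) * (b * (mn x * mn y)) := by ring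
      _ = _ := by rw [this]
  rw [h4] at h3
  exact le_of_mul_le_mul_left h3 R.n0

theorem Rp.hs_tn {U : L →ₗ[ℝ] L} (hU : QSym U) {b : ℝ} (hb : 0 ≤ b) (h : NBL U b) :
    hs (R.tn U) ≤ Fintype.card I * b :=
  hs_of_N1 hb (R.N1_tn hU hb h)

include R in
/-- The operator of a symmetric bilinear form. -/
theorem Rp.exists_op (G : L →ₗ[ℝ] L →ₗ[ℝ] ℝ) (hG : ∀ x y, G x y = G y x) :
    ∃ V : L →ₗ[ℝ] L, QSym V ∧ ∀ x y, Qf L (V x) y = G x y := by
  let V : L →ₗ[ℝ] L :=
    { toFun := fun x => ∑ a, ∑ b, (G x (R.e a b) / R.n) • R.e a b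
      map_add' := fun x y => by
        simp only [map_add, LinearMap.add_apply, add_div, add_smul, Finset.sum_add_distrib]
      map_smul' := fun c x => by
        simp only [map_smul, LinearMap.smul_apply, smul_eq_mul, mul_div_assoc, mul_smul,
          Finset.smul_sum, RingHom.id_apply] }
  have hV : ∀ x y, Qf L (V x) y = G x y := by
    intro x y
    change Qf L (∑ a, ∑ b, (G x (R.e a b) / R.n) • R.e a b) y = G x y
    rw [RpB_lin]
    conv_rhs => rw [R.exp y]
    simp only [map_sum, map_smul, smul_eq_mul, Finset.mul_sum]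
    refine Finset.sum_congr rfl fun a _ => Finset.sum_congr rfl fun b _ => ?_
    have := R.n0.ne'
    field_simp
  refine ⟨V, fun x y => ?_, hV⟩
  rw [hV, Qf_symm, hV, hG]

/-- Invariance of the `e a b` under `f k`. -/
theorem Rp.e_f (k : Fin m) (a b : I) :
    ∑ a', ∑ b', (R.f k a' a * R.f k b' b) • R.e a' b' = R.e a b := by
  refine R.ext_Qf fun z => ?_
  rw [RpB_lin R (fun a' b' => R.f k a' a * R.f k b' b), R.he]
  congr 1
  have h1 : (R.f k)ᵀ * R.ph z * R.f k = R.ph z := by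
    rw [Matrix.mul_assoc, ← R.com, ← Matrix.mul_assoc, R.fo, Matrix.one_mul]
  conv_rhs => rw [← h1]
  rw [Matrix.mul_apply]
  simp only [Matrix.mul_apply, Matrix.transpose_apply, Finset.sum_mul]
  rw [Finset.sum_comm]
  refine Finset.sum_congr rfl fun b' _ => Finset.sum_congr rfl fun a' _ => ?_
  ring

include R in
theorem Rp.bdd [Module.Finite ℝ L] (U : L →ₗ[ℝ] L) : ∃ b : ℝ, 0 ≤ b ∧ NBL U b := by
  refine ⟨hs (R.tn U), hs_nonneg _, fun z => ?_⟩
  rw [R.Qf_tn, R.Qf_mn, abs_mul, abs_of_pos R.n0]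
  have h1 := cs_hs (R.tn U) (fun a b c d => R.ph z a b * R.ph z c d)
  rw [hs_ten] at h1
  have h2 := mul_le_mul_of_nonneg_left h1 R.n0.le
  refine h2.trans (le_of_eq ?_)
  ring

/-! ### The elements `zz v w` -/

theorem Rp.Qf_zz (U : L →ₗ[ℝ] L) (v w v' w' : I → ℝ) : Qf L (U (R.zz v w)) (R.zz v' w') =
    R.n * ∑ a, ∑ b, ∑ c, ∑ d, R.tn U a b c d * ((v a * w b) * (v' c * w' d)) := by
  unfold Rp.zz
  exact RpB_bil R U (fun a b => v a * w b) (fun c d => v' c * w' d)

private theorem RpB_single (v w : I → ℝ) (c d : I) :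
    ∑ a, ∑ b, (v a * w b) * Matrix.single a b (1 : ℝ) c d = v c * w d := by
  rw [Finset.sum_eq_single c, Finset.sum_eq_single d]
  · rw [Matrix.single_apply_same, mul_one]
  · intro b _ hb
    rw [Matrix.single_apply_of_ne _ _ _ _ _ (fun h => hb h.2), mul_zero]
  · intro h; exact absurd (Finset.mem_univ _) h
  · intro a _ ha
    refine Finset.sum_eq_zero fun b _ => ?_
    rw [Matrix.single_apply_of_ne _ _ _ _ _ (fun h => ha h.1), mul_zero]
  · intro h; exact absurd (Finset.mem_univ _) h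

private theorem RpB_vv (v w : I → ℝ) :
    ∑ a, ∑ b, (v a * w b) • (Matrix.single a b (1 : ℝ) - Matrix.single b a 1) =
      vecMulVec v w - vecMulVec w v := by
  ext c d
  simp only [Matrix.sum_apply, Matrix.smul_apply, Matrix.sub_apply, smul_eq_mul, mul_sub,
    Finset.sum_sub_distrib, vecMulVec_apply]
  rw [RpB_single]
  congr 1
  rw [Finset.sum_comm]
  have := RpB_single w v c d
  rw [← this]
  refine Finset.sum_congr rfl fun b _ => Finset.sum_congr rfl fun a _ => ?_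
  ring

private theorem RpB_conj (f : Matrix I I ℝ) (v w : I → ℝ) :
    f * vecMulVec v w * fᵀ = vecMulVec (f *ᵥ v) (f *ᵥ w) := by
  rw [Matrix.mul_vecMulVec, Matrix.vecMulVec_mul, Matrix.vecMul_transpose]

theorem Rp.ph_zz (v w : I → ℝ) : R.ph (R.zz v w) = (1 / (2 * ((m : ℝ) + 1))) •
    (vecMulVec v w - vecMulVec w v + ∑ k, (vecMulVec (R.f k *ᵥ v) (R.f k *ᵥ w) -
      vecMulVec (R.f k *ᵥ w) (R.f k *ᵥ v))) -
      ((v ⬝ᵥ (R.J *ᵥ w)) / Fintype.card I) • R.J := by
  unfold Rp.zz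
  have h1 : ∀ k, ∑ a, ∑ b, (v a * w b) • (R.f k * (Matrix.single a b (1 : ℝ) -
      Matrix.single b a 1) * (R.f k)ᵀ) = vecMulVec (R.f k *ᵥ v) (R.f k *ᵥ w) -
      vecMulVec (R.f k *ᵥ w) (R.f k *ᵥ v) := by
    intro k
    rw [← RpB_conj, ← RpB_conj, ← Matrix.sub_mul, ← Matrix.mul_sub, ← RpB_vv, Finset.mul_sum,
      Finset.sum_mul]
    refine Finset.sum_congr rfl fun a _ => ?_
    rw [Finset.mul_sum, Finset.sum_mul]
    refine Finset.sum_congr rfl fun b _ => ?_
    rw [Matrix.mul_smul, Matrix.smul_mul]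
  have h2 : (v ⬝ᵥ (R.J *ᵥ w)) = ∑ a, ∑ b, (v a * w b) * R.J a b := by
    unfold dotProduct Matrix.mulVec dotProduct
    refine Finset.sum_congr rfl fun a _ => ?_
    rw [Finset.mul_sum]
    refine Finset.sum_congr rfl fun b _ => ?_
    ring
  calc R.ph (∑ a, ∑ b, (v a * w b) • R.e a b)
      = ∑ a, ∑ b, (v a * w b) • R.ph (R.e a b) := by
        simp only [map_sum, map_smul]
    _ = ∑ a, ∑ b, ((1 / (2 * ((m : ℝ) + 1))) • ((v a * w b) • (Matrix.single a b (1 : ℝ) -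
          Matrix.single b a 1) + ∑ k, (v a * w b) • (R.f k * (Matrix.single a b (1 : ℝ) -
          Matrix.single b a 1) * (R.f k)ᵀ)) - ((v a * w b) * R.J a b / Fintype.card I) • R.J) := by
        refine Finset.sum_congr rfl fun a _ => Finset.sum_congr rfl fun b _ => ?_
        rw [R.ker, smul_sub, smul_smul, ← Finset.smul_sum, ← smul_add, smul_smul, smul_smul,
          mul_comm (v a * w b) (1 / (2 * ((m : ℝ) + 1))), mul_div_assoc]
    _ = _ := by
        simp only [Finset.sum_sub_distrib, ← Finset.smul_sum, Finset.sum_add_distrib, ← Finset.sum_smul]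
        simp only [← Finset.sum_sub_distrib]
        rw [RpB_vv, h2, Finset.sum_div]
        congr 1
        · congr 1
          congr 1
          have h3 : ∀ F : I → I → Fin m → Matrix I I ℝ,
              ∑ a, ∑ b, ∑ k, F a b k = ∑ k, ∑ a, ∑ b, F a b k := by
            intro F
            have e1 : ∀ a, ∑ b, ∑ k, F a b k = ∑ k, ∑ b, F a b k := fun a => Finset.sum_comm
            simp only [e1]
            exact Finset.sum_comm
          have h4 : ∑ a, ∑ b, (v a * w b) • ∑ k, R.f k * (Matrix.single a b (1 : ℝ) -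
              Matrix.single b a 1) * (R.f k)ᵀ = ∑ a, ∑ b, ∑ k, (v a * w b) • (R.f k *
              (Matrix.single a b (1 : ℝ) - Matrix.single b a 1) * (R.f k)ᵀ) := by
            simp only [Finset.smul_sum]
          rw [h4, h3]
          exact Finset.sum_congr rfl fun k _ => h1 k
        · congr 1
          refine Finset.sum_congr rfl fun a _ => ?_
          rw [Finset.sum_div]

theorem Rp.Qf_zz_le (v w : I → ℝ) :
    Qf L (R.zz v w) (R.zz v w) ≤ R.n * ((v ⬝ᵥ v) * (w ⬝ᵥ w)) := by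
  rw [← mn_vec]
  exact R.Qf_hat (vecMulVec v w)

theorem Rp.mn_zz_le (v w : I → ℝ) : mn (R.ph (R.zz v w)) ≤ √(v ⬝ᵥ v) * √(w ⬝ᵥ w) := by
  have hd : ∀ p : I → ℝ, 0 ≤ p ⬝ᵥ p := fun p => Finset.sum_nonneg fun i _ => mul_self_nonneg (p i)
  have h1 := R.Qf_zz_le v w
  rw [R.Qf_mn] at h1
  have h2 := le_of_mul_le_mul_left h1 R.n0
  rw [← Real.sqrt_mul (hd v)]
  exact Real.le_sqrt_of_sq_le h2

end Pool.Agent.EinV
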