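import Pool.Agent.EinV.Rh

/-!
# The contraction of the slow part

Notation: `w = wt A u1 u2 t`, `K_b = ph (zz v e_b)`, `e_b = single b 1`, `v` supported in the block `K`, `b ∈ B`;
`u^{(c)} a d = ∑ b, w c b * tn U a b d b = n (w c A • rh A U + w c Aᶜ • rh Aᶜ U) a d`; it depends only on the block of `c`.

1. `SLb w t Z Z' = ∑ c d, X c d * Z' c d`, `X = X(Z)`, `X c d = 2 ∑ a, Z c a * u^{(c)} a d`.  If `Z f = f Z` for `f = R.f k`, then
`fᵀ X f = X`: for block diagonal `f` one has `fᵀ u^{(c)} f = u^{(c)}`, for block off-diagonal `f` (then `u1 = u2`) `fᵀ u^{(c)} f = u^{(c')}`,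
`c'` in the other block.  Both follow from `∑ b, w c b * tn U (f·) b (f·) b = ∑ b, w c b * tn U (f·) (f b) (f·) (f b)` (orthogonality of
`f` on the blocks) and the invariance of `tn U` under `f` (`R.e_f`, `R.com`).

2. With `Z' = K_b = (1/(2(m+1))) (D + ∑ k, f D fᵀ) - (v ⬝ᵥ J e_b / M) J`, `D = v ⊗ e_b - e_b ⊗ v` (`ph_zz`) this gives
`SLb w t K_b K_b = (1/2) (v ⬝ᵥ X e_b - e_b ⬝ᵥ X v) - (v ⬝ᵥ J e_b / M) ∑ X c d * J c d`, and the last term, summed over `b`, is at most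
`C b |v|²` times `n` ... (`|X| ≤ C n b |K_b|`, `|J| = √M`, `∑ b, |v ⬝ᵥ J e_b| ≤ √M |v|`).

3. `v ⬝ᵥ X e_b = 2 v ⬝ᵥ K_b u^{(K)} e_b`, `e_b ⬝ᵥ X v = 2 e_b ⬝ᵥ K_b u^{(B)} v`; insert `ph_zz` again:
`v ⬝ᵥ K_b u e_b = (1/(2(m+1))) (|v|² u b b - v b * (v ⬝ᵥ u e_b) + ∑ k, ((v ⬝ᵥ f v) (f e_b ⬝ᵥ u e_b) - (v ⬝ᵥ f e_b) (f v ⬝ᵥ u e_b))) - ...`,
where `v ⬝ᵥ f v = 0` (`f` is skew, or block off-diagonal and `v` is supported in a block), and similarly
`e_b ⬝ᵥ K_b u v = (1/(2(m+1))) (v b * ... - v ⬝ᵥ u v + ...)` with `e_b ⬝ᵥ f e_b = 0`.  All other terms, summed over `b`, are at most `C ‖u‖ |v|²`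
by Cauchy-Schwarz and Bessel, `‖u‖ ≤ C n b` (`rh_le`, symmetric block diagonal matrices).

Result: `∑ b ∈ B, SLb w t K_b K_b = (1/(2(m+1))) (|v|² ∑ b ∈ B, u^{(K)} b b + |B| * v ⬝ᵥ u^{(B)} v) + O(n b |v|²)`; multiply by `1 / n²`
and use `M / ((m+1) n) = 1 + O(1/M)` (`n_bd`).
-/

namespace Pool.Agent.EinV

open Matrix Pool.Agent.EStab Pool.Agent.EinS Pool.Agent.SmIso Pool.Agent.EinU Pool.Agent.EinG

/-! ### Quadratic forms -/

private theorem Slow_disc {X Y Z r : ℝ} (h : ∀ s : ℝ, 2 * s * Z ≤ r * (s ^ 2 * X + Y)) :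
    Z ^ 2 ≤ r ^ 2 * (X * Y) := by
  have h1 := discrim_le_zero (a := r * X) (b := -2 * Z) (c := r * Y) (fun s => by
    have := h s
    nlinarith)
  unfold discrim at h1
  nlinarith

section Mat

variable {I : Type} [Fintype I] [DecidableEq I]

private theorem Slow_nn (x : I → ℝ) : 0 ≤ x ⬝ᵥ x :=
  Finset.sum_nonneg fun i _ => mul_self_nonneg (x i)

private theorem Slow_symm {u : Matrix I I ℝ} (hu : u.IsSymm) (x y : I → ℝ) :
    y ⬝ᵥ (u *ᵥ x) = x ⬝ᵥ (u *ᵥ y) := by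
  rw [dotProduct_mulVec, ← mulVec_transpose, hu.eq, dotProduct_comm]

private theorem Slow_pol2 {u : Matrix I I ℝ} (hu : u.IsSymm) {r : ℝ}
    (h : ∀ x : I → ℝ, |x ⬝ᵥ (u *ᵥ x)| ≤ r * (x ⬝ᵥ x)) (x y : I → ℝ) :
    (x ⬝ᵥ (u *ᵥ y)) ^ 2 ≤ r ^ 2 * ((x ⬝ᵥ x) * (y ⬝ᵥ y)) := by
  refine Slow_disc fun s => ?_
  have h1 := (abs_le.1 (h (s • x + y))).2
  have h2 := (abs_le.1 (h (s • x - y))).1
  have h3 := Slow_symm hu x y
  simp only [mulVec_add, mulVec_sub, mulVec_smul, add_dotProduct, dotProduct_add, sub_dotProduct,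
    dotProduct_sub, smul_dotProduct, dotProduct_smul, smul_eq_mul] at h1 h2
  rw [h3] at h1 h2
  have h4 : y ⬝ᵥ x = x ⬝ᵥ y := dotProduct_comm _ _
  rw [h4] at h1 h2
  nlinarith

private theorem Slow_pol {u : Matrix I I ℝ} (hu : u.IsSymm) {r : ℝ} (hr : 0 ≤ r)
    (h : ∀ x : I → ℝ, |x ⬝ᵥ (u *ᵥ x)| ≤ r * (x ⬝ᵥ x)) {N : ℝ} {x y : I → ℝ}
    (hx : x ⬝ᵥ x ≤ N) (hy : y ⬝ᵥ y ≤ N) : |x ⬝ᵥ (u *ᵥ y)| ≤ r * N := by
  have h1 := Slow_pol2 hu h x y
  have hN : 0 ≤ N := le_trans (Slow_nn x) hx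
  refine abs_le_of_sq_le_sq ?_ (by positivity)
  refine le_trans h1 ?_
  have h2 : (x ⬝ᵥ x) * (y ⬝ᵥ y) ≤ N * N := mul_le_mul hx hy (Slow_nn y) hN
  nlinarith [sq_nonneg r]

/-- the restriction of a vector to a block -/
private def Slow_P (B : Finset I) (x : I → ℝ) : I → ℝ := fun i => if i ∈ B then x i else 0

private theorem Slow_P_le (B : Finset I) (x : I → ℝ) : Slow_P B x ⬝ᵥ Slow_P B x ≤ x ⬝ᵥ x := by
  refine Finset.sum_le_sum fun i _ => ?_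
  unfold Slow_P
  split_ifs
  · exact le_rfl
  · nlinarith [mul_self_nonneg (x i)]

private theorem Slow_P_dot (B : Finset I) (x y : I → ℝ) :
    Slow_P B x ⬝ᵥ y = ∑ b ∈ B, x b * (Pi.single b 1 ⬝ᵥ y) := by
  unfold Slow_P dotProduct
  rw [← Finset.sum_filter_add_sum_filter_not Finset.univ (fun i => i ∈ B)]
  have h1 : ∑ i ∈ Finset.univ.filter (fun i => ¬ i ∈ B), (if i ∈ B then x i else 0) * y i = 0 := by
    refine Finset.sum_eq_zero fun i hi => ?_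
    rw [if_neg (Finset.mem_filter.1 hi).2, zero_mul]
  rw [h1, add_zero, Finset.filter_univ_mem]
  refine Finset.sum_congr rfl fun b hb => ?_
  beta_reduce
  rw [if_pos hb]
  congr 1
  rw [Finset.sum_eq_single b]
  · rw [Pi.single_eq_same, one_mul]
  · intro i _ hi
    rw [Pi.single_eq_of_ne hi, zero_mul]
  · intro hb'
    exact absurd (Finset.mem_univ b) hb'

/-- sums over the basis vectors of a block -/
private theorem Slow_sumP (B : Finset I) (M : Matrix I I ℝ) (x y : I → ℝ) :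
    ∑ b ∈ B, x b * (y ⬝ᵥ (M *ᵥ Pi.single b 1)) = y ⬝ᵥ (M *ᵥ Slow_P B x) := by
  rw [dotProduct_mulVec, dotProduct_comm, Slow_P_dot]
  refine Finset.sum_congr rfl fun b _ => ?_
  rw [dotProduct_mulVec, dotProduct_comm (Pi.single b 1)]

private theorem Slow_vec (f : Matrix I I ℝ) (v w : I → ℝ) :
    vecMulVec (f *ᵥ v) (f *ᵥ w) = f * vecMulVec v w * fᵀ := by
  rw [mul_vecMulVec, vecMulVec_mul, vecMul_transpose]

/-- the sum over the rows -/
private noncomputable def Slow_S (u : I → Matrix I I ℝ) (Z Z' : Matrix I I ℝ) : ℝ :=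
  ∑ c, Z c ⬝ᵥ (u c *ᵥ Z' c)

private theorem Slow_S_add (u : I → Matrix I I ℝ) (Z X Y : Matrix I I ℝ) :
    Slow_S u Z (X + Y) = Slow_S u Z X + Slow_S u Z Y := by
  unfold Slow_S
  rw [← Finset.sum_add_distrib]
  refine Finset.sum_congr rfl fun c _ => ?_
  have : (X + Y) c = X c + Y c := rfl
  rw [this, mulVec_add, dotProduct_add]

private theorem Slow_S_smul (u : I → Matrix I I ℝ) (Z X : Matrix I I ℝ) (r : ℝ) :
    Slow_S u Z (r • X) = r * Slow_S u Z X := by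
  unfold Slow_S
  rw [Finset.mul_sum]
  refine Finset.sum_congr rfl fun c _ => ?_
  have : (r • X) c = r • X c := rfl
  rw [this, mulVec_smul, dotProduct_smul, smul_eq_mul]

private theorem Slow_S_sub (u : I → Matrix I I ℝ) (Z X Y : Matrix I I ℝ) :
    Slow_S u Z (X - Y) = Slow_S u Z X - Slow_S u Z Y := by
  unfold Slow_S
  rw [← Finset.sum_sub_distrib]
  refine Finset.sum_congr rfl fun c _ => ?_
  have : (X - Y) c = X c - Y c := rfl
  rw [this, mulVec_sub, dotProduct_sub]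

private theorem Slow_S_sum {κ : Type} [Fintype κ] (u : I → Matrix I I ℝ) (Z : Matrix I I ℝ)
    (X : κ → Matrix I I ℝ) : Slow_S u Z (∑ k, X k) = ∑ k, Slow_S u Z (X k) := by
  unfold Slow_S
  rw [Finset.sum_comm]
  refine Finset.sum_congr rfl fun c _ => ?_
  have : (∑ k, X k) c = ∑ k, X k c := by
    funext j
    rw [Finset.sum_apply]
    exact Matrix.sum_apply c j Finset.univ X
  rw [this, mulVec_sum, dotProduct_sum]

private theorem Slow_S_vec (u : I → Matrix I I ℝ) (Z u0 : Matrix I I ℝ) (x y : I → ℝ)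
    (h : ∀ c, x c ≠ 0 → u c = u0) :
    Slow_S u Z (vecMulVec x y) = x ⬝ᵥ (Z *ᵥ (u0 *ᵥ y)) := by
  unfold Slow_S
  refine Finset.sum_congr rfl fun c _ => ?_
  have h1 : vecMulVec x y c = x c • y := by
    funext j
    rfl
  rw [h1, mulVec_smul, dotProduct_smul, smul_eq_mul]
  by_cases hc : x c = 0
  · rw [hc, zero_mul, zero_mul]
  · rw [h c hc]
    rfl

/-- the invariance under an orthogonal matrix -/
private theorem Slow_S_f (u : I → Matrix I I ℝ) (f Z D : Matrix I I ℝ) (hf : fᵀ * f = 1)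
    (hZ : f * Z = Z * f) (hu : ∀ c c', f c c' ≠ 0 → u c * f = f * u c') :
    Slow_S u Z (f * D * fᵀ) = Slow_S u Z D := by
  have hf2 : f * fᵀ = 1 := mul_eq_one_comm.1 hf
  have hZ2 : fᵀ * Z = Z * fᵀ := by
    calc fᵀ * Z = fᵀ * Z * (f * fᵀ) := by rw [hf2, Matrix.mul_one]
      _ = fᵀ * (Z * f) * fᵀ := by simp only [Matrix.mul_assoc]
      _ = fᵀ * (f * Z) * fᵀ := by rw [hZ]
      _ = (fᵀ * f) * Z * fᵀ := by simp only [Matrix.mul_assoc]
      _ = Z * fᵀ := by rw [hf, Matrix.one_mul]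
  have h1 : ∀ c, (f * D * fᵀ) c = ∑ c', f c c' • (f *ᵥ D c') := by
    intro c
    funext j
    rw [Matrix.mul_apply, Finset.sum_apply]
    simp only [Pi.smul_apply, smul_eq_mul, mulVec, dotProduct, transpose_apply, Matrix.mul_apply,
      Finset.sum_mul, Finset.mul_sum]
    rw [Finset.sum_comm]
    refine Finset.sum_congr rfl fun c' _ => Finset.sum_congr rfl fun l _ => ?_
    ring
  have h2 : ∀ c', ∑ c, f c c' • Z c = f *ᵥ Z c' := by
    intro c'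
    have h3 := congrFun hZ2 c'
    have h4 : (fᵀ * Z) c' = ∑ c, f c c' • Z c := by
      funext j
      rw [Matrix.mul_apply, Finset.sum_apply]
      rfl
    have h5 : (Z * fᵀ) c' = f *ᵥ Z c' := by
      funext j
      rw [Matrix.mul_apply]
      simp only [mulVec, dotProduct, transpose_apply]
      exact Finset.sum_congr rfl fun l _ => mul_comm _ _
    rw [← h4, h3, h5]
  unfold Slow_S
  calc ∑ c, Z c ⬝ᵥ (u c *ᵥ (f * D * fᵀ) c)
      = ∑ c, ∑ c', f c c' * (Z c ⬝ᵥ (u c *ᵥ (f *ᵥ D c'))) := by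
        refine Finset.sum_congr rfl fun c _ => ?_
        rw [h1 c, mulVec_sum, dotProduct_sum]
        refine Finset.sum_congr rfl fun c' _ => ?_
        rw [mulVec_smul, dotProduct_smul, smul_eq_mul]
    _ = ∑ c, ∑ c', f c c' * (Z c ⬝ᵥ (f *ᵥ (u c' *ᵥ D c'))) := by
        refine Finset.sum_congr rfl fun c _ => Finset.sum_congr rfl fun c' _ => ?_
        by_cases hc : f c c' = 0
        · rw [hc, zero_mul, zero_mul]
        · rw [mulVec_mulVec, hu c c' hc, ← mulVec_mulVec]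
    _ = ∑ c', (∑ c, f c c' • Z c) ⬝ᵥ (f *ᵥ (u c' *ᵥ D c')) := by
        rw [Finset.sum_comm]
        refine Finset.sum_congr rfl fun c' _ => ?_
        rw [sum_dotProduct]
        refine Finset.sum_congr rfl fun c _ => ?_
        rw [smul_dotProduct, smul_eq_mul]
    _ = ∑ c', Z c' ⬝ᵥ (u c' *ᵥ D c') := by
        refine Finset.sum_congr rfl fun c' _ => ?_
        rw [h2 c', dotProduct_mulVec, ← mulVec_transpose, mulVec_mulVec, hf, one_mulVec]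

private theorem Slow_S_le (u : I → Matrix I I ℝ) (hu : ∀ c, (u c).IsSymm) {r : ℝ} (hr : 0 ≤ r)
    (h : ∀ c, ∀ x : I → ℝ, |x ⬝ᵥ (u c *ᵥ x)| ≤ r * (x ⬝ᵥ x)) (Z Z' : Matrix I I ℝ) :
    |Slow_S u Z Z'| ≤ r * (mn Z * mn Z') := by
  have h1 : ∀ c, |Z c ⬝ᵥ (u c *ᵥ Z' c)| ≤ r * (√(Z c ⬝ᵥ Z c) * √(Z' c ⬝ᵥ Z' c)) := by
    intro c
    have h2 := Slow_pol2 (hu c) (h c) (Z c) (Z' c)
    refine abs_le_of_sq_le_sq ?_ (by positivity)
    rw [mul_pow, mul_pow, Real.sq_sqrt (Slow_nn _), Real.sq_sqrt (Slow_nn _)]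
    exact h2
  have h3 : (∑ c, √(Z c ⬝ᵥ Z c) * √(Z' c ⬝ᵥ Z' c)) ^ 2 ≤ (mn Z * mn Z') ^ 2 := by
    refine le_trans (Finset.sum_mul_sq_le_sq_mul_sq _ _ _) (le_of_eq ?_)
    rw [mul_pow, mn_sq, mn_sq]
    congr 1
    · refine Finset.sum_congr rfl fun c _ => ?_
      rw [Real.sq_sqrt (Slow_nn _)]
      exact Finset.sum_congr rfl fun a _ => (sq _).symm
    · refine Finset.sum_congr rfl fun c _ => ?_
      rw [Real.sq_sqrt (Slow_nn _)]
      exact Finset.sum_congr rfl fun a _ => (sq _).symm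
  have h4 : ∑ c, √(Z c ⬝ᵥ Z c) * √(Z' c ⬝ᵥ Z' c) ≤ mn Z * mn Z' := by
    refine le_of_sq_le_sq h3 (mul_nonneg (mn_nonneg _) (mn_nonneg _))
  unfold Slow_S
  calc |∑ c, Z c ⬝ᵥ (u c *ᵥ Z' c)| ≤ ∑ c, |Z c ⬝ᵥ (u c *ᵥ Z' c)| := Finset.abs_sum_le_sum_abs _ _
    _ ≤ ∑ c, r * (√(Z c ⬝ᵥ Z c) * √(Z' c ⬝ᵥ Z' c)) := Finset.sum_le_sum fun c _ => h1 c
    _ = r * ∑ c, √(Z c ⬝ᵥ Z c) * √(Z' c ⬝ᵥ Z' c) := by rw [Finset.mul_sum]
    _ ≤ _ := mul_le_mul_of_nonneg_left h4 hr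

end Mat

section Lie

variable {L : Type} [LieRing L] [LieAlgebra ℝ L] {I : Type} [Fintype I] [DecidableEq I] {m : ℕ}
  (R : Rp L I m)

/-- the matrix of the row `c` -/
private noncomputable def Slow_u (A : Finset I) (u1 u2 t : ℝ) (U : L →ₗ[ℝ] L) (c : I) :
    Matrix I I ℝ := if c ∈ A then R.ub A u1 t U else R.ub A t u2 U

private theorem Slow_ub (A : Finset I) (p q : ℝ) (U : L →ₗ[ℝ] L) (a d : I) :
    ∑ b, (if b ∈ A then p else q) * R.tn U a b d b = R.n * R.ub A p q U a d := by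
  have h0 := R.n0.ne'
  have h1 : ∑ b ∈ A, (if b ∈ A then p else q) * R.tn U a b d b = p * ∑ b ∈ A, R.tn U a b d b := by
    rw [Finset.mul_sum]
    exact Finset.sum_congr rfl fun b hb => by rw [if_pos hb]
  have h2 : ∑ b ∈ Aᶜ, (if b ∈ A then p else q) * R.tn U a b d b =
      q * ∑ b ∈ Aᶜ, R.tn U a b d b := by
    rw [Finset.mul_sum]
    exact Finset.sum_congr rfl fun b hb => by rw [if_neg (Finset.mem_compl.1 hb)]
  rw [← Finset.sum_add_sum_compl A (fun b => (if b ∈ A then p else q) * R.tn U a b d b), h1, h2]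
  unfold Rp.ub Rp.rh
  simp only [Matrix.add_apply, Matrix.smul_apply, of_apply, smul_eq_mul]
  field_simp

private theorem Slow_SL (A : Finset I) (u1 u2 t : ℝ) (U : L →ₗ[ℝ] L) (Z Z' : Matrix I I ℝ) :
    SLb (wt A u1 u2 t) (R.tn U) Z Z' = 2 * R.n * Slow_S (Slow_u R A u1 u2 t U) Z Z' := by
  have h2 : ∑ c, ∑ a, ∑ d, Z c a * Z' c d * ∑ b, wt A u1 u2 t c b * R.tn U a b d b =
      R.n * ∑ c, Z c ⬝ᵥ (Slow_u R A u1 u2 t U c *ᵥ Z' c) := by
    rw [Finset.mul_sum]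
    refine Finset.sum_congr rfl fun c _ => ?_
    unfold dotProduct mulVec dotProduct
    rw [Finset.mul_sum]
    refine Finset.sum_congr rfl fun a _ => ?_
    rw [Finset.mul_sum, Finset.mul_sum]
    refine Finset.sum_congr rfl fun d _ => ?_
    have h1 : ∑ b, wt A u1 u2 t c b * R.tn U a b d b = R.n * Slow_u R A u1 u2 t U c a d := by
      unfold wt Slow_u
      by_cases hc : c ∈ A
      · simp only [if_pos hc]
        exact Slow_ub R A u1 t U a d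
      · simp only [if_neg hc]
        exact Slow_ub R A t u2 U a d
    rw [h1]
    ring
  unfold SLb Slow_S
  rw [h2]
  ring

private theorem Slow_ub_symm (A : Finset I) (p q : ℝ) {U : L →ₗ[ℝ] L} (hU : QSym U) :
    (R.ub A p q U).IsSymm := by
  unfold Rp.ub
  rw [Matrix.IsSymm, transpose_add, transpose_smul, transpose_smul, (R.rh_symm hU A).eq,
    (R.rh_symm hU Aᶜ).eq]

private theorem Slow_ub_le (hM : 4 * ((m : ℝ) + 1) ≤ Fintype.card I) (A : Finset I) {p q c' : ℝ}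
    (hp : |p| ≤ c') (hq : |q| ≤ c') {U : L →ₗ[ℝ] L} {b : ℝ} (hb : 0 ≤ b)
    (h : NBL U b) (x : I → ℝ) :
    |x ⬝ᵥ (R.ub A p q U *ᵥ x)| ≤ 4 * (m + 1) * c' * b * (x ⬝ᵥ x) := by
  have h1 := R.rh_le hM hb h A x
  have h2 := R.rh_le hM hb h Aᶜ x
  have hx := Slow_nn x
  have hc : 0 ≤ c' := le_trans (abs_nonneg p) hp
  have hK : 0 ≤ 2 * ((m : ℝ) + 1) * b * (x ⬝ᵥ x) := by positivity
  unfold Rp.ub
  rw [add_mulVec, smul_mulVec, smul_mulVec, dotProduct_add, dotProduct_smul,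
    dotProduct_smul, smul_eq_mul, smul_eq_mul]
  calc |p * (x ⬝ᵥ (R.rh A U *ᵥ x)) + q * (x ⬝ᵥ (R.rh Aᶜ U *ᵥ x))|
      ≤ |p| * |x ⬝ᵥ (R.rh A U *ᵥ x)| + |q| * |x ⬝ᵥ (R.rh Aᶜ U *ᵥ x)| := by
        rw [← abs_mul, ← abs_mul]
        exact abs_add_le _ _
    _ ≤ c' * (2 * ((m : ℝ) + 1) * b * (x ⬝ᵥ x)) + c' * (2 * ((m : ℝ) + 1) * b * (x ⬝ᵥ x)) := by
        refine add_le_add (mul_le_mul hp h1 (abs_nonneg _) hc) (mul_le_mul hq h2 (abs_nonneg _) hc)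
    _ = _ := by ring

private theorem Slow_tn_f (U : L →ₗ[ℝ] L) (k : Fin m) (a b d c : I) :
    R.tn U a b d c = ∑ a', ∑ b', R.f k a' a * R.f k b' b *
      ∑ d', ∑ c', R.f k d' d * R.f k c' c * R.tn U a' b' d' c' := by
  have h1 : R.tn U a b d c = ∑ a', ∑ b', R.f k a' a * R.f k b' b * R.tn U a' b' d c := by
    unfold Rp.tn
    conv_lhs => rw [← R.e_f k a b]
    rw [map_sum, map_sum, Matrix.sum_apply]
    refine Finset.sum_congr rfl fun a' _ => ?_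
    rw [map_sum, map_sum, Matrix.sum_apply]
    refine Finset.sum_congr rfl fun b' _ => ?_
    rw [map_smul, map_smul, Matrix.smul_apply, smul_eq_mul]
  have h2 : ∀ y : L, R.ph y d c = ∑ d', ∑ c', R.f k d' d * R.f k c' c * R.ph y d' c' := by
    intro y
    have h3 : R.ph y = (R.f k)ᵀ * R.ph y * R.f k := by
      rw [Matrix.mul_assoc, ← R.com k y, ← Matrix.mul_assoc, R.fo k, Matrix.one_mul]
    conv_lhs => rw [h3]
    rw [Matrix.mul_apply]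
    simp only [Matrix.mul_apply, transpose_apply, Finset.sum_mul]
    rw [Finset.sum_comm]
    refine Finset.sum_congr rfl fun d' _ => Finset.sum_congr rfl fun c' _ => ?_
    ring
  rw [h1]
  refine Finset.sum_congr rfl fun a' _ => Finset.sum_congr rfl fun b' _ => ?_
  congr 1
  exact h2 _

private theorem Slow_rh_f (U : L →ₗ[ℝ] L) (k : Fin m) (B B' : Finset I)
    (hB : ∀ i j, R.f k i j ≠ 0 → (i ∈ B ↔ j ∈ B')) :
    R.rh B U * R.f k = R.f k * R.rh B' U := by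
  have hf2 : R.f k * (R.f k)ᵀ = 1 := mul_eq_one_comm.1 (R.fo k)
  have h1 : ∀ b' b'', ∑ b ∈ B', R.f k b' b * R.f k b'' b =
      if b' ∈ B then (if b' = b'' then 1 else 0) else 0 := by
    intro b' b''
    by_cases hb : b' ∈ B
    · rw [if_pos hb]
      have h2 : ∑ b ∈ B', R.f k b' b * R.f k b'' b = ∑ b, R.f k b' b * R.f k b'' b := by
        refine Finset.sum_subset (Finset.subset_univ _) fun b _ hb2 => ?_
        have h3 : R.f k b' b = 0 := by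
          by_contra h4
          exact hb2 ((hB b' b h4).1 hb)
        rw [h3, zero_mul]
      rw [h2]
      have h3 := congrFun (congrFun hf2 b') b''
      rw [Matrix.mul_apply, Matrix.one_apply] at h3
      exact h3
    · rw [if_neg hb]
      refine Finset.sum_eq_zero fun b hb2 => ?_
      have h3 : R.f k b' b = 0 := by
        by_contra h4
        exact hb ((hB b' b h4).2 hb2)
      rw [h3, zero_mul]
  have h2 : (R.f k)ᵀ * R.rh B U * R.f k = R.rh B' U := by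
    funext a d
    have h3 : R.rh B' U a d = 1 / R.n * ∑ b ∈ B', R.tn U a b d b := rfl
    have h4 : ∀ a' d', R.rh B U a' d' = 1 / R.n * ∑ b ∈ B, R.tn U a' b d' b := fun _ _ => rfl
    rw [h3]
    calc ((R.f k)ᵀ * R.rh B U * R.f k) a d
        = ∑ a', ∑ d', R.f k a' a * R.f k d' d * R.rh B U a' d' := by
          rw [Matrix.mul_apply]
          simp only [Matrix.mul_apply, transpose_apply, Finset.sum_mul]
          rw [Finset.sum_comm]
          refine Finset.sum_congr rfl fun a' _ => Finset.sum_congr rfl fun d' _ => ?_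
          ring
      _ = ∑ a', ∑ d', R.f k a' a * R.f k d' d * (1 / R.n * ∑ b', ∑ b'',
            (∑ b ∈ B', R.f k b' b * R.f k b'' b) * R.tn U a' b' d' b'') := by
          refine Finset.sum_congr rfl fun a' _ => Finset.sum_congr rfl fun d' _ => ?_
          rw [h4]
          congr 2
          simp only [h1]
          have h5 : ∀ b', ∑ b'', (if b' ∈ B then (if b' = b'' then (1 : ℝ) else 0) else 0) *
              R.tn U a' b' d' b'' = if b' ∈ B then R.tn U a' b' d' b' else 0 := by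
            intro b'
            by_cases hb : b' ∈ B
            · simp only [if_pos hb, ite_mul, one_mul, zero_mul, Finset.sum_ite_eq,
                Finset.mem_univ, if_true]
            · simp only [if_neg hb, zero_mul, Finset.sum_const_zero]
          rw [Finset.sum_congr rfl fun b' _ => h5 b', ← Finset.sum_filter, Finset.filter_univ_mem]
      _ = 1 / R.n * ∑ b ∈ B', R.tn U a b d b := by
          have h7 : ∑ b ∈ B', R.tn U a b d b = ∑ b ∈ B', ∑ a', ∑ b', R.f k a' a * R.f k b' b *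
              ∑ d', ∑ c', R.f k d' d * R.f k c' b * R.tn U a' b' d' c' :=
            Finset.sum_congr rfl fun b _ => Slow_tn_f R U k a b d b
          rw [h7]
          simp only [Finset.mul_sum, Finset.sum_mul]
          -- left: a' d' b' b'' b; right: b a' b' d' b''
          have h6 : ∀ F : I → I → I → I → I → ℝ,
              ∑ b ∈ B', ∑ a', ∑ b', ∑ d', ∑ b'', F b a' b' d' b'' =
              ∑ a', ∑ d', ∑ b', ∑ b'', ∑ b ∈ B', F b a' b' d' b'' := by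
            intro F
            rw [Finset.sum_comm]
            refine Finset.sum_congr rfl fun a' _ => ?_
            calc ∑ b ∈ B', ∑ b', ∑ d', ∑ b'', F b a' b' d' b''
                = ∑ b ∈ B', ∑ d', ∑ b', ∑ b'', F b a' b' d' b'' :=
                  Finset.sum_congr rfl fun b _ => Finset.sum_comm
              _ = ∑ d', ∑ b ∈ B', ∑ b', ∑ b'', F b a' b' d' b'' := Finset.sum_comm
              _ = ∑ d', ∑ b', ∑ b ∈ B', ∑ b'', F b a' b' d' b'' :=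
                  Finset.sum_congr rfl fun d' _ => Finset.sum_comm
              _ = ∑ d', ∑ b', ∑ b'', ∑ b ∈ B', F b a' b' d' b'' :=
                  Finset.sum_congr rfl fun d' _ => Finset.sum_congr rfl fun b' _ =>
                    Finset.sum_comm
          rw [h6]
          refine Finset.sum_congr rfl fun a' _ => Finset.sum_congr rfl fun d' _ =>
            Finset.sum_congr rfl fun b' _ => Finset.sum_congr rfl fun b'' _ =>
            Finset.sum_congr rfl fun b _ => ?_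
          ring
  rw [← h2]
  calc R.rh B U * R.f k = (R.f k * (R.f k)ᵀ) * R.rh B U * R.f k := by
        rw [hf2, Matrix.one_mul]
    _ = _ := by simp only [Matrix.mul_assoc]

private theorem Slow_uf {A : Finset I} {x1 x2 z : ℝ} {S T Pp : L →ₗ[ℝ] L} {c : L}
    {J0 : Matrix I I ℝ} {g1 g2 : ℝ} (h : Spl R A x1 x2 z S T Pp c J0 g1 g2) (U : L →ₗ[ℝ] L)
    {u1 u2 t : ℝ} (h12 : x1 = x2 → u1 = u2) (k : Fin m) (i j : I) (hij : R.f k i j ≠ 0) :
    Slow_u R A u1 u2 t U i * R.f k = R.f k * Slow_u R A u1 u2 t U j := by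
  have key : ∀ (p q : ℝ) (B B' : Finset I) (_ : ∀ i j, R.f k i j ≠ 0 → (i ∈ B ↔ j ∈ B')),
      (p • R.rh B U + q • R.rh Bᶜ U) * R.f k = R.f k * (p • R.rh B' U + q • R.rh B'ᶜ U) := by
    intro p q B B' hB
    have h1 := Slow_rh_f R U k B B' hB
    have h2 := Slow_rh_f R U k Bᶜ B'ᶜ (fun i j hf => by
      rw [Finset.mem_compl, Finset.mem_compl, hB i j hf])
    rw [Matrix.add_mul, Matrix.mul_add, Matrix.smul_mul, Matrix.smul_mul, Matrix.mul_smul,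
      Matrix.mul_smul, h1, h2]
  unfold Slow_u Rp.ub
  rcases h.fA k with ⟨hf, _⟩ | ⟨hf, hx⟩
  · have hB : ∀ i j, R.f k i j ≠ 0 → (i ∈ A ↔ j ∈ A) := by
      intro i j hf2
      by_contra h3
      exact hf2 (hf i j h3)
    by_cases hi : i ∈ A
    · rw [if_pos hi, if_pos ((hB i j hij).1 hi)]
      exact key u1 t A A hB
    · rw [if_neg hi, if_neg (fun hj => hi ((hB i j hij).2 hj))]
      exact key t u2 A A hB
  · have hu := h12 hx
    subst hu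
    have hB : ∀ i j, R.f k i j ≠ 0 → (i ∈ A ↔ j ∈ Aᶜ) := by
      intro i j hf2
      rw [Finset.mem_compl]
      by_contra h3
      refine hf2 (hf i j ?_)
      by_cases h4 : i ∈ A <;> by_cases h5 : j ∈ A <;> simp_all
    have hc : ∀ (p q : ℝ), p • R.rh Aᶜ U + q • R.rh Aᶜᶜ U = q • R.rh A U + p • R.rh Aᶜ U := by
      intro p q
      rw [compl_compl, add_comm]
    by_cases hi : i ∈ A
    · have hj := (hB i j hij).1 hi
      rw [Finset.mem_compl] at hj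
      have h9 := key u1 t A Aᶜ hB
      rw [hc] at h9
      rw [if_pos hi, if_neg hj]
      exact h9
    · have hj : j ∈ A := by
        by_contra h3
        exact hi ((hB i j hij).2 (Finset.mem_compl.2 h3))
      have h9 := key t u1 A Aᶜ hB
      rw [hc] at h9
      rw [if_neg hi, if_pos hj]
      exact h9

/-- the products with the projection of `v ⊗ e` -/
private theorem Slow_K (v e x y : I → ℝ) : x ⬝ᵥ (R.ph (R.zz v e) *ᵥ y) =
    (1 / (2 * ((m : ℝ) + 1))) * ((x ⬝ᵥ v) * (e ⬝ᵥ y) - (x ⬝ᵥ e) * (v ⬝ᵥ y) +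
      ∑ k, ((x ⬝ᵥ (R.f k *ᵥ v)) * ((R.f k *ᵥ e) ⬝ᵥ y) -
        (x ⬝ᵥ (R.f k *ᵥ e)) * ((R.f k *ᵥ v) ⬝ᵥ y))) -
      ((v ⬝ᵥ (R.J *ᵥ e)) / Fintype.card I) * (x ⬝ᵥ (R.J *ᵥ y)) := by
  have h1 : ∀ p q : I → ℝ, x ⬝ᵥ (vecMulVec p q *ᵥ y) = (x ⬝ᵥ p) * (q ⬝ᵥ y) := by
    intro p q
    rw [vecMulVec_mulVec, dotProduct_smul]
    simp only [MulOpposite.smul_eq_mul_unop, MulOpposite.unop_op]
  rw [R.ph_zz, sub_mulVec, dotProduct_sub, smul_mulVec, dotProduct_smul, smul_eq_mul,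
    smul_mulVec, dotProduct_smul, smul_eq_mul, add_mulVec, sub_mulVec, sum_mulVec,
    dotProduct_add, dotProduct_sub, dotProduct_sum, h1, h1]
  congr 3
  refine Finset.sum_congr rfl fun k _ => ?_
  rw [sub_mulVec, dotProduct_sub, h1, h1]

/-- the decomposition of the form -/
private theorem Slow_half {A : Finset I} {x1 x2 z : ℝ} {S T Pp : L →ₗ[ℝ] L} {c : L}
    {J0 : Matrix I I ℝ} {g1 g2 : ℝ} (h : Spl R A x1 x2 z S T Pp c J0 g1 g2) (U : L →ₗ[ℝ] L)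
    {u1 u2 t : ℝ} (h12 : x1 = x2 → u1 = u2) (v e : I → ℝ) :
    Slow_S (Slow_u R A u1 u2 t U) (R.ph (R.zz v e)) (R.ph (R.zz v e)) =
      1 / 2 * Slow_S (Slow_u R A u1 u2 t U) (R.ph (R.zz v e)) (vecMulVec v e - vecMulVec e v) -
      ((v ⬝ᵥ (R.J *ᵥ e)) / Fintype.card I) *
        Slow_S (Slow_u R A u1 u2 t U) (R.ph (R.zz v e)) R.J := by
  set Z := R.ph (R.zz v e) with hZ
  set u := Slow_u R A u1 u2 t U with hu
  have h1 : ∀ k, Slow_S u Z (vecMulVec (R.f k *ᵥ v) (R.f k *ᵥ e) -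
      vecMulVec (R.f k *ᵥ e) (R.f k *ᵥ v)) = Slow_S u Z (vecMulVec v e - vecMulVec e v) := by
    intro k
    rw [← Slow_S_f u (R.f k) Z (vecMulVec v e - vecMulVec e v) (R.fo k) (R.com k _)
      (fun i j hij => Slow_uf R h U h12 k i j hij)]
    rw [Slow_vec, Slow_vec, Matrix.mul_sub, Matrix.sub_mul]
  have h2 : Slow_S u Z Z = Slow_S u Z ((1 / (2 * ((m : ℝ) + 1))) •
      (vecMulVec v e - vecMulVec e v + ∑ k, (vecMulVec (R.f k *ᵥ v) (R.f k *ᵥ e) -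
      vecMulVec (R.f k *ᵥ e) (R.f k *ᵥ v))) -
      ((v ⬝ᵥ (R.J *ᵥ e)) / Fintype.card I) • R.J) := by
    rw [← R.ph_zz]
  rw [h2, Slow_S_sub, Slow_S_smul, Slow_S_smul, Slow_S_add, Slow_S_sum,
    Finset.sum_congr rfl fun k _ => h1 k, Finset.sum_const, Finset.card_univ, Fintype.card_fin,
    nsmul_eq_mul]
  have h3 : (2 * ((m : ℝ) + 1)) ≠ 0 := by positivity
  field_simp
  ring

end Lie

/-- the final estimate -/
private theorem Slow_num {M n μ N X E F H : ℝ} (hμ : 0 ≤ μ) (hM0 : 0 < M) (hn : 0 < n)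
    (hM : 4 * (μ + 1) ≤ M) (h1 : M / (2 * (μ + 1)) ≤ n)
    (h2 : |M / ((μ + 1) * n) - 1| ≤ 4 * (μ + 1) / M) (hN : 0 ≤ N) (hX : |X| ≤ 2 * M * N)
    (hE : |E| ≤ (2 + 2 * μ) * N) (hF : |F| ≤ 2 / M * N) (hH : |H| ≤ N) :
    |1 / n * (1 / (2 * (μ + 1)) * (X + E) - F) - 2 / n * H - 1 / (2 * M) * X| ≤
      11 * (μ + 1) / M * N := by
  have hm : 0 < μ + 1 := by linarith
  have hq : 1 / n ≤ 2 * (μ + 1) / M := by
    rw [div_le_div_iff₀ hn hM0]
    rw [div_le_iff₀ (by positivity)] at h1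
    linarith
  have hq0 : 0 < 1 / n := by positivity
  have e : 1 / n * (1 / (2 * (μ + 1)) * (X + E) - F) - 2 / n * H - 1 / (2 * M) * X =
      1 / (2 * M) * (M / ((μ + 1) * n) - 1) * X + 1 / n * (1 / (2 * (μ + 1))) * E - 1 / n * F -
        2 * (1 / n) * H := by
    field_simp
    ring
  rw [e]
  have t1 : |1 / (2 * M) * (M / ((μ + 1) * n) - 1) * X| ≤ 4 * (μ + 1) / M * N := by
    rw [abs_mul, abs_mul, abs_of_pos (by positivity : (0 : ℝ) < 1 / (2 * M))]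
    calc 1 / (2 * M) * |M / ((μ + 1) * n) - 1| * |X|
        ≤ 1 / (2 * M) * (4 * (μ + 1) / M) * (2 * M * N) := by
          refine mul_le_mul (mul_le_mul_of_nonneg_left h2 (by positivity)) hX (abs_nonneg _)
            (by positivity)
      _ = _ := by
          field_simp
  have t2 : |1 / n * (1 / (2 * (μ + 1))) * E| ≤ (2 + 2 * μ) / M * N := by
    rw [abs_mul, abs_mul, abs_of_pos hq0, abs_of_pos (by positivity : (0 : ℝ) < 1 / (2 * (μ + 1)))]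
    calc 1 / n * (1 / (2 * (μ + 1))) * |E|
        ≤ 2 * (μ + 1) / M * (1 / (2 * (μ + 1))) * ((2 + 2 * μ) * N) := by
          refine mul_le_mul (mul_le_mul_of_nonneg_right hq (by positivity)) hE (abs_nonneg _)
            (by positivity)
      _ = _ := by
          field_simp
  have t3 : |1 / n * F| ≤ 1 / M * N := by
    rw [abs_mul, abs_of_pos hq0]
    calc 1 / n * |F| ≤ 2 * (μ + 1) / M * (2 / M * N) :=
          mul_le_mul hq hF (abs_nonneg _) (by positivity)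
      _ = (4 * (μ + 1)) / M * (1 / M * N) := by
          field_simp
          ring
      _ ≤ 1 * (1 / M * N) := by
          refine mul_le_mul_of_nonneg_right ?_ (by positivity)
          rw [div_le_one hM0]
          exact hM
      _ = _ := one_mul _
  have t4 : |2 * (1 / n) * H| ≤ 4 * (μ + 1) / M * N := by
    rw [abs_mul, abs_of_pos (by positivity : (0 : ℝ) < 2 * (1 / n))]
    calc 2 * (1 / n) * |H| ≤ 2 * (2 * (μ + 1) / M) * N :=
          mul_le_mul (mul_le_mul_of_nonneg_left hq (by norm_num)) hH (abs_nonneg _) (by positivity)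
      _ = _ := by ring
  have t5 : 4 * (μ + 1) / M * N + (2 + 2 * μ) / M * N + 1 / M * N + 4 * (μ + 1) / M * N ≤
      11 * (μ + 1) / M * N := by
    have : 11 * (μ + 1) / M * N - (4 * (μ + 1) / M * N + (2 + 2 * μ) / M * N + 1 / M * N +
        4 * (μ + 1) / M * N) = μ / M * N := by
      field_simp
      ring
    have h3 : 0 ≤ μ / M * N := by positivity
    linarith
  rw [abs_le] at t1 t2 t3 t4
  rw [abs_le]
  constructor <;> linarith [t1.1, t1.2, t2.1, t2.2, t3.1, t3.2, t4.1, t4.2]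

section Fin

variable {L : Type} [LieRing L] [LieAlgebra ℝ L] {I : Type} [Fintype I] [DecidableEq I] {m : ℕ}
  (R : Rp L I m)

private theorem Slow_col (f : Matrix I I ℝ) (x : I → ℝ) (b : I) :
    x ⬝ᵥ (f *ᵥ Pi.single b 1) = (fᵀ *ᵥ x) b := by
  rw [mulVec_single_one, mulVec, dotProduct_comm]
  rfl

private theorem Slow_one (x : I → ℝ) (b : I) : Pi.single b 1 ⬝ᵥ x = x b := by
  rw [single_dotProduct, one_mul]

private theorem Slow_fo {f : Matrix I I ℝ} (hf : fᵀ * f = 1) (x : I → ℝ) :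
    (f *ᵥ x) ⬝ᵥ (f *ᵥ x) = x ⬝ᵥ x := by
  rw [dotProduct_mulVec, ← mulVec_transpose, mulVec_mulVec, hf, one_mulVec]

private theorem Slow_Jo (x : I → ℝ) :
    ((R.J)ᵀ *ᵥ x) ⬝ᵥ ((R.J)ᵀ *ᵥ x) ≤ x ⬝ᵥ x := by
  rcases R.JJ with h | h
  · rw [h, transpose_zero, zero_mulVec, zero_dotProduct]
    exact Slow_nn x
  · refine le_of_eq (Slow_fo ?_ x)
    rw [transpose_transpose]
    exact mul_eq_one_comm.1 h

private theorem Slow_mnJ : mn R.J ^ 2 ≤ Fintype.card I := by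
  rw [mn_sq]
  rcases R.JJ with h | h
  · rw [h]
    simp
  · have h1 : ∀ b, ∑ a, R.J a b ^ 2 = 1 := by
      intro b
      have h2 := congrFun (congrFun h b) b
      rw [Matrix.mul_apply, Matrix.one_apply_eq] at h2
      rw [← h2]
      exact Finset.sum_congr rfl fun a _ => by rw [transpose_apply, sq]
    rw [Finset.sum_comm, Finset.sum_congr rfl fun b _ => h1 b, Finset.sum_const,
      Finset.card_univ, nsmul_eq_mul, mul_one]

/-- the form for one basis vector -/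
private theorem Slow_term {A : Finset I} {x1 x2 z : ℝ} {S T Pp : L →ₗ[ℝ] L} {c : L}
    {J0 : Matrix I I ℝ} {g1 g2 : ℝ} (h : Spl R A x1 x2 z S T Pp c J0 g1 g2) (U : L →ₗ[ℝ] L)
    {u1 u2 t : ℝ} (h12 : x1 = x2 → u1 = u2) {K B : Finset I} (hKA : K = A ∨ K = Aᶜ)
    {uK uB : Matrix I I ℝ}
    (hK : ∀ c ∈ K, Slow_u R A u1 u2 t U c = uK) (hB : ∀ c ∈ B, Slow_u R A u1 u2 t U c = uB)
    {v : I → ℝ} (hv : ∀ i, i ∉ K → v i = 0) {b : I} (hb : b ∈ B) :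
    1 / R.n ^ 2 * SLb (wt A u1 u2 t) (R.tn U) (R.ph (R.zz v (Pi.single b 1)))
        (R.ph (R.zz v (Pi.single b 1))) =
      1 / R.n * (1 / (2 * ((m : ℝ) + 1)) * (((v ⬝ᵥ v) * uK b b + v ⬝ᵥ (uB *ᵥ v)) +
        (-(v b * (v ⬝ᵥ (uK *ᵥ Pi.single b 1))) -
          (∑ k, ((R.f k)ᵀ *ᵥ v) b * ((R.f k *ᵥ v) ⬝ᵥ (uK *ᵥ Pi.single b 1))) -
          v b * (Pi.single b 1 ⬝ᵥ (uB *ᵥ v)) -
          ∑ k, (R.f k *ᵥ v) b * (Pi.single b 1 ⬝ᵥ ((R.f k)ᵀ *ᵥ (uB *ᵥ v))))) -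
        1 / Fintype.card I * (((R.J)ᵀ *ᵥ v) b * (((R.J)ᵀ *ᵥ v) ⬝ᵥ (uK *ᵥ Pi.single b 1)) -
          ((R.J)ᵀ *ᵥ v) b * (Pi.single b 1 ⬝ᵥ (R.J *ᵥ (uB *ᵥ v))))) -
      2 / R.n * (1 / Fintype.card I * (((R.J)ᵀ *ᵥ v) b *
        Slow_S (Slow_u R A u1 u2 t U) (R.ph (R.zz v (Pi.single b 1))) R.J)) := by
  have hn := R.n0.ne'
  have hfv : ∀ k, v ⬝ᵥ (R.f k *ᵥ v) = 0 := by
    intro k
    rcases h.fA k with ⟨_, hf⟩ | ⟨hf, _⟩
    · have h1 : v ⬝ᵥ (R.f k *ᵥ v) = -(v ⬝ᵥ (R.f k *ᵥ v)) := by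
        calc v ⬝ᵥ (R.f k *ᵥ v) = ((R.f k)ᵀ *ᵥ v) ⬝ᵥ v := by
              rw [dotProduct_mulVec, mulVec_transpose]
          _ = -(v ⬝ᵥ (R.f k *ᵥ v)) := by
              rw [hf, neg_mulVec, neg_dotProduct, dotProduct_comm]
      linarith
    · refine Finset.sum_eq_zero fun i _ => ?_
      by_cases hi : i ∈ K
      · have h2 : (R.f k *ᵥ v) i = 0 := by
          refine Finset.sum_eq_zero fun j _ => ?_
          beta_reduce
          by_cases hj : j ∈ K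
          · have h3 : R.f k i j = 0 := by
              refine hf i j ?_
              rcases hKA with h4 | h4
              · rw [h4] at hi hj
                exact iff_of_true hi hj
              · rw [h4, Finset.mem_compl] at hi hj
                exact iff_of_false hi hj
            rw [h3, zero_mul]
          · rw [hv j hj, mul_zero]
        rw [h2, mul_zero]
      · rw [hv i hi, zero_mul]
  have hfe : ∀ k, (Pi.single b 1 : I → ℝ) ⬝ᵥ (R.f k *ᵥ Pi.single b 1) = 0 := by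
    intro k
    rw [Slow_one, mulVec_single_one]
    show R.f k b b = 0
    rcases h.fA k with ⟨_, hf⟩ | ⟨hf, _⟩
    · have h1 := congrFun (congrFun hf b) b
      rw [transpose_apply, Matrix.neg_apply] at h1
      linarith
    · exact hf b b Iff.rfl
  have hD : Slow_S (Slow_u R A u1 u2 t U) (R.ph (R.zz v (Pi.single b 1)))
      (vecMulVec v (Pi.single b 1) - vecMulVec (Pi.single b 1) v) =
      v ⬝ᵥ (R.ph (R.zz v (Pi.single b 1)) *ᵥ (uK *ᵥ Pi.single b 1)) -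
      Pi.single b 1 ⬝ᵥ (R.ph (R.zz v (Pi.single b 1)) *ᵥ (uB *ᵥ v)) := by
    rw [Slow_S_sub, Slow_S_vec _ _ uK, Slow_S_vec _ _ uB]
    · intro c hc
      have h1 : c = b := by
        by_contra h2
        exact hc (Pi.single_eq_of_ne h2 _)
      rw [h1]
      exact hB b hb
    · intro c hc
      refine hK c ?_
      by_contra h2
      exact hc (hv c h2)
  have hee : (Pi.single b 1 : I → ℝ) ⬝ᵥ Pi.single b 1 = 1 := by
    rw [Slow_one, Pi.single_eq_same]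
  have hve : v ⬝ᵥ Pi.single b 1 = v b := by
    rw [dotProduct_comm, Slow_one]
  have hev : Pi.single b 1 ⬝ᵥ v = v b := Slow_one v b
  have huKe : Pi.single b 1 ⬝ᵥ (uK *ᵥ Pi.single b 1) = uK b b := by
    rw [Slow_one, mulVec_single_one]
    rfl
  have hfk : ∀ k, v ⬝ᵥ (R.f k *ᵥ Pi.single b 1) = ((R.f k)ᵀ *ᵥ v) b := fun k => Slow_col _ _ _
  have hfk2 : ∀ k, Pi.single b 1 ⬝ᵥ (R.f k *ᵥ v) = (R.f k *ᵥ v) b := fun k => Slow_one _ _
  have hfk3 : ∀ k, (R.f k *ᵥ Pi.single b 1) ⬝ᵥ (uB *ᵥ v) =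
      Pi.single b 1 ⬝ᵥ ((R.f k)ᵀ *ᵥ (uB *ᵥ v)) := by
    intro k
    rw [dotProduct_comm, dotProduct_mulVec, ← mulVec_transpose, dotProduct_comm]
  have hJ : v ⬝ᵥ (R.J *ᵥ Pi.single b 1) = ((R.J)ᵀ *ᵥ v) b := Slow_col _ _ _
  have hJ2 : v ⬝ᵥ (R.J *ᵥ (uK *ᵥ Pi.single b 1)) = ((R.J)ᵀ *ᵥ v) ⬝ᵥ (uK *ᵥ Pi.single b 1) := by
    rw [dotProduct_mulVec v, ← mulVec_transpose]
  rw [Slow_SL, Slow_half R h U h12, hD, Slow_K, Slow_K]
  simp only [hfv, hfe, hee, hve, hev, huKe, hfk, hfk2, hfk3, hJ, hJ2, zero_mul, mul_zero, zero_sub,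
    sub_zero, one_mul, Finset.sum_neg_distrib]
  field_simp
  ring

end Fin

theorem slow_contr (c0 : ℝ) (m : ℕ) : ∃ C : ℝ, 1 ≤ C ∧ ∀ (L : Type) [LieRing L] [LieAlgebra ℝ L]
    (I : Type) [Fintype I] [DecidableEq I] (R : Rp L I m) (A : Finset I) (x1 x2 z : ℝ)
    (S T Pp : L →ₗ[ℝ] L) (c : L) (J0 : Matrix I I ℝ) (g1 g2 : ℝ),
    Spl R A x1 x2 z S T Pp c J0 g1 g2 → Bnd I m A x1 x2 z c0 →
    ∀ (U : L →ₗ[ℝ] L) (b : ℝ), QSym U → (∀ x, U (Pp x) = Pp (U x)) → 0 ≤ b → NBL U b →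
    ∀ (u1 u2 t : ℝ), |u1| ≤ c0 → |u2| ≤ c0 → |t| ≤ c0 → (x1 = x2 → u1 = u2) →
    ∀ (K B : Finset I) (pK qK pB qB : ℝ),
      ((K = A ∧ pK = u1 ∧ qK = t) ∨ (K = Aᶜ ∧ pK = t ∧ qK = u2)) →
      ((B = A ∧ pB = u1 ∧ qB = t) ∨ (B = Aᶜ ∧ pB = t ∧ qB = u2)) →
    ∀ v : I → ℝ, (∀ i, i ∉ K → v i = 0) →
      |1 / R.n ^ 2 * ∑ b' ∈ B, SLb (wt A u1 u2 t) (R.tn U) (R.ph (R.zz v (Pi.single b' 1)))
          (R.ph (R.zz v (Pi.single b' 1))) -
        1 / 2 * (ta B (R.ub A pK qK U) * (v ⬝ᵥ v) +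
          (B.card : ℝ) / Fintype.card I * (v ⬝ᵥ (R.ub A pB qB U *ᵥ v)))| ≤
        C / Fintype.card I * b * (v ⬝ᵥ v) := by
  refine ⟨44 * ((m : ℝ) + 1) ^ 2 * (|c0| + 1), ?_, ?_⟩
  · have h1 : (0 : ℝ) ≤ m := Nat.cast_nonneg m
    have h2 : 0 ≤ |c0| := abs_nonneg c0
    nlinarith [mul_nonneg h1 h2, mul_nonneg h1 h1, mul_nonneg (mul_nonneg h1 h1) h2]
  intro L _ _ I _ _ R A x1 x2 z S T Pp c J0 g1 g2 hS hBd U b hU _ hb hN u1 u2 t hu1 hu2 ht h12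
    K B pK qK pB qB hK hB v hv
  obtain ⟨hn1, hn2, hM0, hn3⟩ := R.n_bd hBd.M1
  have hm : (0 : ℝ) ≤ m := Nat.cast_nonneg m
  have hc0 : 0 ≤ c0 := le_trans (abs_nonneg _) ht
  set M : ℝ := (Fintype.card I : ℝ) with hMdef
  set r : ℝ := 4 * ((m : ℝ) + 1) * c0 * b with hr
  have hr0 : 0 ≤ r := by positivity
  have hvv := Slow_nn v
  set uK := R.ub A pK qK U with huK
  set uB := R.ub A pB qB U with huB
  have hKA : K = A ∨ K = Aᶜ := by
    rcases hK with h | h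
    · exact Or.inl h.1
    · exact Or.inr h.1
  have hK1 : ∀ c ∈ K, Slow_u R A u1 u2 t U c = uK := by
    intro c hc
    unfold Slow_u
    rcases hK with ⟨h1, h2, h3⟩ | ⟨h1, h2, h3⟩
    · rw [h1] at hc
      rw [if_pos hc, huK, h2, h3]
    · rw [h1, Finset.mem_compl] at hc
      rw [if_neg hc, huK, h2, h3]
  have hB1 : ∀ c ∈ B, Slow_u R A u1 u2 t U c = uB := by
    intro c hc
    unfold Slow_u
    rcases hB with ⟨h1, h2, h3⟩ | ⟨h1, h2, h3⟩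
    · rw [h1] at hc
      rw [if_pos hc, huB, h2, h3]
    · rw [h1, Finset.mem_compl] at hc
      rw [if_neg hc, huB, h2, h3]
  have hsK : uK.IsSymm := Slow_ub_symm R A pK qK hU
  have hsB : uB.IsSymm := Slow_ub_symm R A pB qB hU
  have hlK : ∀ x : I → ℝ, |x ⬝ᵥ (uK *ᵥ x)| ≤ r * (x ⬝ᵥ x) := by
    intro x
    rcases hK with ⟨_, h2, h3⟩ | ⟨_, h2, h3⟩
    · exact Slow_ub_le R hBd.M1 A (by rw [h2]; exact hu1) (by rw [h3]; exact ht) hb hN x
    · exact Slow_ub_le R hBd.M1 A (by rw [h2]; exact ht) (by rw [h3]; exact hu2) hb hN x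
  have hlB : ∀ x : I → ℝ, |x ⬝ᵥ (uB *ᵥ x)| ≤ r * (x ⬝ᵥ x) := by
    intro x
    rcases hB with ⟨_, h2, h3⟩ | ⟨_, h2, h3⟩
    · exact Slow_ub_le R hBd.M1 A (by rw [h2]; exact hu1) (by rw [h3]; exact ht) hb hN x
    · exact Slow_ub_le R hBd.M1 A (by rw [h2]; exact ht) (by rw [h3]; exact hu2) hb hN x
  have hsu : ∀ c, (Slow_u R A u1 u2 t U c).IsSymm := by
    intro c
    unfold Slow_u
    split_ifs
    · exact Slow_ub_symm R A u1 t hU
    · exact Slow_ub_symm R A t u2 hU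
  have hlu : ∀ c, ∀ x : I → ℝ, |x ⬝ᵥ (Slow_u R A u1 u2 t U c *ᵥ x)| ≤ r * (x ⬝ᵥ x) := by
    intro c x
    unfold Slow_u
    split_ifs
    · exact Slow_ub_le R hBd.M1 A hu1 ht hb hN x
    · exact Slow_ub_le R hBd.M1 A ht hu2 hb hN x
  have hBM : (B.card : ℝ) ≤ M := by
    rw [hMdef]
    exact_mod_cast Finset.card_le_univ B
  -- the parts
  set X : ℝ := (v ⬝ᵥ v) * ∑ b' ∈ B, uK b' b' + B.card * (v ⬝ᵥ (uB *ᵥ v)) with hX
  set E : ℝ := -(v ⬝ᵥ (uK *ᵥ Slow_P B v)) -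
    (∑ k, (R.f k *ᵥ v) ⬝ᵥ (uK *ᵥ Slow_P B ((R.f k)ᵀ *ᵥ v))) - Slow_P B v ⬝ᵥ (uB *ᵥ v) -
    ∑ k, Slow_P B (R.f k *ᵥ v) ⬝ᵥ ((R.f k)ᵀ *ᵥ (uB *ᵥ v)) with hE
  set F : ℝ := 1 / M * (((R.J)ᵀ *ᵥ v) ⬝ᵥ (uK *ᵥ Slow_P B ((R.J)ᵀ *ᵥ v)) -
    Slow_P B ((R.J)ᵀ *ᵥ v) ⬝ᵥ (R.J *ᵥ (uB *ᵥ v))) with hF
  set H : ℝ := ∑ b' ∈ B, 1 / M * (((R.J)ᵀ *ᵥ v) b' *
    Slow_S (Slow_u R A u1 u2 t U) (R.ph (R.zz v (Pi.single b' 1))) R.J) with hH
  have hid : 1 / R.n ^ 2 * ∑ b' ∈ B, SLb (wt A u1 u2 t) (R.tn U)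
      (R.ph (R.zz v (Pi.single b' 1))) (R.ph (R.zz v (Pi.single b' 1))) =
      1 / R.n * (1 / (2 * ((m : ℝ) + 1)) * (X + E) - F) - 2 / R.n * H := by
    rw [Finset.mul_sum, Finset.sum_congr rfl fun b' hb' =>
      Slow_term R hS U h12 hKA hK1 hB1 hv hb']
    rw [Finset.sum_sub_distrib, ← Finset.mul_sum, ← Finset.mul_sum, Finset.sum_sub_distrib,
      ← Finset.mul_sum, ← Finset.mul_sum, Finset.sum_add_distrib, Finset.sum_add_distrib,
      Finset.sum_sub_distrib, Finset.sum_sub_distrib, Finset.sum_sub_distrib,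
      Finset.sum_sub_distrib, Finset.sum_neg_distrib, ← Finset.mul_sum, Finset.sum_const,
      nsmul_eq_mul, Finset.sum_comm (s := B), Finset.sum_comm (s := B)]
    rw [Slow_sumP, Slow_sumP]
    simp only [Slow_sumP, ← Slow_P_dot]
    rfl
  have hPv : Slow_P B v ⬝ᵥ Slow_P B v ≤ v ⬝ᵥ v := Slow_P_le B v
  have hJv := Slow_Jo R v
  have hPJ : Slow_P B ((R.J)ᵀ *ᵥ v) ⬝ᵥ Slow_P B ((R.J)ᵀ *ᵥ v) ≤ v ⬝ᵥ v :=
    le_trans (Slow_P_le B _) hJv
  have hft : ∀ k, R.f k * (R.f k)ᵀ = 1 := fun k => mul_eq_one_comm.1 (R.fo k)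
  have hfv : ∀ k, (R.f k *ᵥ v) ⬝ᵥ (R.f k *ᵥ v) ≤ v ⬝ᵥ v := fun k => le_of_eq (Slow_fo (R.fo k) v)
  have hfv2 : ∀ k, Slow_P B ((R.f k)ᵀ *ᵥ v) ⬝ᵥ Slow_P B ((R.f k)ᵀ *ᵥ v) ≤ v ⬝ᵥ v := fun k =>
    le_trans (Slow_P_le B _) (le_of_eq (Slow_fo (by rw [transpose_transpose]; exact hft k) v))
  -- bound of X
  have hXb : |X| ≤ 2 * M * (r * (v ⬝ᵥ v)) := by
    have h1 : |∑ b' ∈ B, uK b' b'| ≤ M * r := by
      calc |∑ b' ∈ B, uK b' b'| ≤ ∑ b' ∈ B, |uK b' b'| := Finset.abs_sum_le_sum_abs _ _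
        _ ≤ ∑ b' ∈ B, r := by
            refine Finset.sum_le_sum fun b' _ => ?_
            have h2 := hlK (Pi.single b' 1)
            rw [Slow_one, Slow_one, mulVec_single_one, Pi.single_eq_same, mul_one] at h2
            exact h2
        _ = B.card * r := by rw [Finset.sum_const, nsmul_eq_mul]
        _ ≤ M * r := mul_le_mul_of_nonneg_right hBM hr0
    have h2 := hlB v
    calc |X| ≤ |(v ⬝ᵥ v) * ∑ b' ∈ B, uK b' b'| + |(B.card : ℝ) * (v ⬝ᵥ (uB *ᵥ v))| := abs_add_le _ _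
      _ ≤ (v ⬝ᵥ v) * (M * r) + M * (r * (v ⬝ᵥ v)) := by
          rw [abs_mul, abs_mul, abs_of_nonneg hvv,
            abs_of_nonneg (Nat.cast_nonneg (α := ℝ) B.card)]
          refine add_le_add (mul_le_mul_of_nonneg_left h1 hvv)
            (mul_le_mul hBM h2 (abs_nonneg _) hM0.le)
      _ = _ := by ring
  -- bound of E
  have hEb : |E| ≤ (2 + 2 * (m : ℝ)) * (r * (v ⬝ᵥ v)) := by
    have e1 : |v ⬝ᵥ (uK *ᵥ Slow_P B v)| ≤ r * (v ⬝ᵥ v) := Slow_pol hsK hr0 hlK le_rfl hPv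
    have e2 : |∑ k, (R.f k *ᵥ v) ⬝ᵥ (uK *ᵥ Slow_P B ((R.f k)ᵀ *ᵥ v))| ≤ m * (r * (v ⬝ᵥ v)) := by
      calc _ ≤ ∑ k, |(R.f k *ᵥ v) ⬝ᵥ (uK *ᵥ Slow_P B ((R.f k)ᵀ *ᵥ v))| :=
            Finset.abs_sum_le_sum_abs _ _
        _ ≤ ∑ _k : Fin m, r * (v ⬝ᵥ v) :=
            Finset.sum_le_sum fun k _ => Slow_pol hsK hr0 hlK (hfv k) (hfv2 k)
        _ = _ := by rw [Finset.sum_const, Finset.card_univ, Fintype.card_fin, nsmul_eq_mul]
    have e3 : |Slow_P B v ⬝ᵥ (uB *ᵥ v)| ≤ r * (v ⬝ᵥ v) := Slow_pol hsB hr0 hlB hPv le_rfl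
    have e4 : |∑ k, Slow_P B (R.f k *ᵥ v) ⬝ᵥ ((R.f k)ᵀ *ᵥ (uB *ᵥ v))| ≤ m * (r * (v ⬝ᵥ v)) := by
      calc _ ≤ ∑ k, |Slow_P B (R.f k *ᵥ v) ⬝ᵥ ((R.f k)ᵀ *ᵥ (uB *ᵥ v))| :=
            Finset.abs_sum_le_sum_abs _ _
        _ ≤ ∑ _k : Fin m, r * (v ⬝ᵥ v) := by
            refine Finset.sum_le_sum fun k _ => ?_
            have h1 : Slow_P B (R.f k *ᵥ v) ⬝ᵥ ((R.f k)ᵀ *ᵥ (uB *ᵥ v)) =
                (R.f k *ᵥ Slow_P B (R.f k *ᵥ v)) ⬝ᵥ (uB *ᵥ v) := by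
              rw [dotProduct_mulVec, vecMul_transpose]
            rw [h1]
            refine Slow_pol hsB hr0 hlB ?_ le_rfl
            rw [Slow_fo (R.fo k)]
            exact le_trans (Slow_P_le B _) (hfv k)
        _ = _ := by rw [Finset.sum_const, Finset.card_univ, Fintype.card_fin, nsmul_eq_mul]
    rw [hE]
    rw [abs_le] at e1 e2 e3 e4 ⊢
    constructor <;> linarith [e1.1, e1.2, e2.1, e2.2, e3.1, e3.2, e4.1, e4.2]
  -- bound of F
  have hFb : |F| ≤ 2 / M * (r * (v ⬝ᵥ v)) := by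
    have e1 : |((R.J)ᵀ *ᵥ v) ⬝ᵥ (uK *ᵥ Slow_P B ((R.J)ᵀ *ᵥ v))| ≤ r * (v ⬝ᵥ v) :=
      Slow_pol hsK hr0 hlK hJv hPJ
    have e2 : |Slow_P B ((R.J)ᵀ *ᵥ v) ⬝ᵥ (R.J *ᵥ (uB *ᵥ v))| ≤ r * (v ⬝ᵥ v) := by
      have h1 : Slow_P B ((R.J)ᵀ *ᵥ v) ⬝ᵥ (R.J *ᵥ (uB *ᵥ v)) =
          ((R.J)ᵀ *ᵥ Slow_P B ((R.J)ᵀ *ᵥ v)) ⬝ᵥ (uB *ᵥ v) := by
        rw [dotProduct_mulVec, ← mulVec_transpose]
      rw [h1]
      exact Slow_pol hsB hr0 hlB (le_trans (Slow_Jo R _) hPJ) le_rfl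
    rw [hF, abs_mul, abs_of_pos (by positivity : (0 : ℝ) < 1 / M)]
    have e3 : |((R.J)ᵀ *ᵥ v) ⬝ᵥ (uK *ᵥ Slow_P B ((R.J)ᵀ *ᵥ v)) -
        Slow_P B ((R.J)ᵀ *ᵥ v) ⬝ᵥ (R.J *ᵥ (uB *ᵥ v))| ≤ 2 * (r * (v ⬝ᵥ v)) := by
      rw [abs_le] at e1 e2 ⊢
      constructor <;> linarith [e1.1, e1.2, e2.1, e2.2]
    calc _ ≤ 1 / M * (2 * (r * (v ⬝ᵥ v))) := mul_le_mul_of_nonneg_left e3 (by positivity)
      _ = _ := by ring
  -- bound of H
  have hHb : |H| ≤ r * (v ⬝ᵥ v) := by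
    have hJm : mn R.J ≤ √M := Real.le_sqrt_of_sq_le (Slow_mnJ R)
    have e1 : ∀ b', |Slow_S (Slow_u R A u1 u2 t U) (R.ph (R.zz v (Pi.single b' 1))) R.J| ≤
        r * (√(v ⬝ᵥ v) * √M) := by
      intro b'
      refine le_trans (Slow_S_le _ hsu hr0 hlu _ _) (mul_le_mul_of_nonneg_left ?_ hr0)
      have h1 := R.mn_zz_le v (Pi.single b' 1)
      rw [Slow_one, Pi.single_eq_same, Real.sqrt_one, mul_one] at h1
      exact mul_le_mul h1 hJm (mn_nonneg _) (Real.sqrt_nonneg _)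
    have e2 : ∑ b' ∈ B, |((R.J)ᵀ *ᵥ v) b'| ≤ √M * √(v ⬝ᵥ v) := by
      have h1 : (∑ b' ∈ B, |((R.J)ᵀ *ᵥ v) b'|) ^ 2 ≤ M * (v ⬝ᵥ v) := by
        have h2 := Finset.sum_mul_sq_le_sq_mul_sq B (fun _ => (1 : ℝ))
          (fun b' => |((R.J)ᵀ *ᵥ v) b'|)
        simp only [one_mul, one_pow, Finset.sum_const, nsmul_eq_mul, mul_one, sq_abs] at h2
        refine le_trans h2 (mul_le_mul hBM ?_ (Finset.sum_nonneg fun _ _ => sq_nonneg _) hM0.le)
        refine le_trans ?_ hJv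
        refine le_trans (Finset.sum_le_sum_of_subset_of_nonneg (Finset.subset_univ B)
          fun _ _ _ => sq_nonneg _) (le_of_eq ?_)
        exact Finset.sum_congr rfl fun i _ => sq _
      rw [← Real.sqrt_mul hM0.le]
      exact Real.le_sqrt_of_sq_le h1
    calc |H| ≤ ∑ b' ∈ B, |1 / M * (((R.J)ᵀ *ᵥ v) b' *
          Slow_S (Slow_u R A u1 u2 t U) (R.ph (R.zz v (Pi.single b' 1))) R.J)| :=
          Finset.abs_sum_le_sum_abs _ _
      _ ≤ ∑ b' ∈ B, 1 / M * (|((R.J)ᵀ *ᵥ v) b'| * (r * (√(v ⬝ᵥ v) * √M))) := by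
          refine Finset.sum_le_sum fun b' _ => ?_
          rw [abs_mul, abs_mul, abs_of_pos (by positivity : (0 : ℝ) < 1 / M)]
          exact mul_le_mul_of_nonneg_left (mul_le_mul_of_nonneg_left (e1 b') (abs_nonneg _))
            (by positivity)
      _ = 1 / M * ((∑ b' ∈ B, |((R.J)ᵀ *ᵥ v) b'|) * (r * (√(v ⬝ᵥ v) * √M))) := by
          rw [← Finset.mul_sum, ← Finset.sum_mul]
      _ ≤ 1 / M * ((√M * √(v ⬝ᵥ v)) * (r * (√(v ⬝ᵥ v) * √M))) := by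
          refine mul_le_mul_of_nonneg_left (mul_le_mul_of_nonneg_right e2 (by positivity))
            (by positivity)
      _ = 1 / M * ((√M * √M) * (r * (√(v ⬝ᵥ v) * √(v ⬝ᵥ v)))) := by ring
      _ = _ := by
          rw [Real.mul_self_sqrt hM0.le, Real.mul_self_sqrt hvv]
          field_simp
  have hta : 1 / 2 * (ta B uK * (v ⬝ᵥ v) + (B.card : ℝ) / M * (v ⬝ᵥ (uB *ᵥ v))) =
      1 / (2 * M) * X := by
    rw [hX]
    unfold ta
    rw [← hMdef]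
    field_simp
  rw [hid, hta]
  refine le_trans (Slow_num hm hM0 R.n0 hBd.M1 hn1 hn3 (by positivity) hXb hEb hFb hHb) ?_
  rw [hr]
  have h5 : c0 ≤ |c0| + 1 := by linarith [le_abs_self c0]
  calc 11 * ((m : ℝ) + 1) / M * (4 * ((m : ℝ) + 1) * c0 * b * (v ⬝ᵥ v))
      = (44 * ((m : ℝ) + 1) ^ 2 / M * b * (v ⬝ᵥ v)) * c0 := by ring
    _ ≤ (44 * ((m : ℝ) + 1) ^ 2 / M * b * (v ⬝ᵥ v)) * (|c0| + 1) :=
        mul_le_mul_of_nonneg_left h5 (by positivity)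
    _ = _ := by ring

end Pool.Agent.EinV
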