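import Pool.Agent.EinV.RpB

/-!
# The operators `S`, `T`, `Pp`: structure

All identities are checked on `ph` (`R.inj`) or against all `z` (`R.ext_Qf`).  `Qf (Pp x) c = 0` and `Qf x' c`, `ph c`: `ph c` is block
diagonal (`pc`, `J0A`), `Pp x` block off-diagonal.  `S c = (1/z) c`, `T c = z c` (if `c ≠ 0`, then `Qf c c = 1`).
`Spl.lo`, `Spl.hi`: for `x = x' + r c`, `r = Qf x c`: `Qf (S x) x = Qf (S x') x' + r² / z` and `S x' = w ∘ x'`.
`Spl.equi`: `ph y` is block diagonal and commutes with `ph c`; hence `⁅y, c⁆ = 0`, `Qf ⁅y, x⁆ c = - Qf x ⁅y, c⁆ = 0`, and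
`w ∘ (Y X - X Y) = Y (w ∘ X) - (w ∘ X) Y` for block diagonal `Y`.
`Spl.te`: compare the products with all `x`, using `sT`.
-/

namespace Pool.Agent.EinV

open Matrix Pool.Agent.EStab Pool.Agent.EinS Pool.Agent.SmIso Pool.Agent.EinU Pool.Agent.EinG

section wt

variable {I : Type} [DecidableEq I]

private theorem SplB_wt_ne (A : Finset I) (u v t : ℝ) {a b : I} (hab : ¬(a ∈ A ↔ b ∈ A)) :
    wt A u v t a b = t := by
  unfold wt
  by_cases ha : a ∈ A <;> by_cases hb : b ∈ A <;> simp_all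

private theorem SplB_wt_eq (A : Finset I) (u v t : ℝ) {a b : I} (hab : a ∈ A ↔ b ∈ A) :
    wt A u v t a b = if a ∈ A then u else v := by
  unfold wt
  by_cases ha : a ∈ A <;> by_cases hb : b ∈ A <;> simp_all

private theorem SplB_wt_congr (A : Finset I) (u v t : ℝ) {a b c : I} (hab : a ∈ A ↔ b ∈ A) :
    wt A u v t a c = wt A u v t b c ∧ wt A u v t c a = wt A u v t c b := by
  unfold wt
  by_cases ha : a ∈ A <;> by_cases hb : b ∈ A <;> by_cases hc : c ∈ A <;> simp_all

private theorem SplB_wt_inv (A : Finset I) (u v : ℝ) (a b : I) :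
    wt A (1 / u) (1 / v) 1 a b = 1 / wt A u v 1 a b := by
  unfold wt
  by_cases ha : a ∈ A <;> by_cases hb : b ∈ A <;> simp_all

private theorem SplB_wt_pos (A : Finset I) {u v : ℝ} (hu : 0 < u) (hv : 0 < v) (a b : I) :
    0 < wt A u v 1 a b := by
  unfold wt
  by_cases ha : a ∈ A <;> by_cases hb : b ∈ A <;> simp_all

private theorem SplB_wt_bd (A : Finset I) {u v p q : ℝ} (hu : p ≤ u) (hv : p ≤ v) (h1 : p ≤ 1)
    (hu' : u ≤ q) (hv' : v ≤ q) (h1' : 1 ≤ q) (a b : I) :
    p ≤ wt A u v 1 a b ∧ wt A u v 1 a b ≤ q := by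
  unfold wt
  by_cases ha : a ∈ A <;> by_cases hb : b ∈ A <;> simp_all

end wt

variable {L : Type} [LieRing L] [LieAlgebra ℝ L] {I : Type} [Fintype I] [DecidableEq I] {m : ℕ}
  {R : Rp L I m} {A : Finset I} {x1 x2 z : ℝ} {S T Pp : L →ₗ[ℝ] L} {c : L} {J0 : Matrix I I ℝ}
  {g1 g2 : ℝ} (h : Spl R A x1 x2 z S T Pp c J0 g1 g2)

private theorem SplB_ext (R : Rp L I m) {x y : L} (hxy : ∀ a b, R.ph x a b = R.ph y a b) :
    x = y := by
  have h1 : R.ph (x - y) = 0 := by
    rw [map_sub]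
    ext a b
    rw [Matrix.sub_apply, hxy, sub_self]
    rfl
  exact sub_eq_zero.1 (R.inj _ h1)

/-- The form of the operators `S` and `T`. -/
private def SplB_op (R : Rp L I m) (A : Finset I) (u v w : ℝ) (c : L) (U : L →ₗ[ℝ] L) : Prop :=
  ∀ x a b, R.ph (U x) a b = wt A u v 1 a b * R.ph x a b +
    Qf L x c * ((w - wt A u v 1 a b) * R.ph c a b)

include h

private theorem SplB_opT : SplB_op R A x1 x2 z c T := h.tT

private theorem SplB_opS : SplB_op R A (1 / x1) (1 / x2) (1 / z) c S := h.tS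

theorem Spl.pc_zero {a b : I} (hab : ¬(a ∈ A ↔ b ∈ A)) : R.ph c a b = 0 := by
  rw [h.pc, h.J0A a b hab, mul_zero]

private theorem SplB_P2 (x : L) : Pp (Pp x) = Pp x := by
  refine SplB_ext R fun a b => ?_
  rw [h.pp, h.pp]
  by_cases hab : (a ∈ A ↔ b ∈ A)
  · simp only [if_pos hab]
  · simp only [if_neg hab]

private theorem SplB_sP : QSym Pp := by
  intro x y
  rw [R.qf, R.qf]
  congr 1
  refine Finset.sum_congr rfl fun a _ => Finset.sum_congr rfl fun b _ => ?_
  rw [h.pp, h.pp]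
  by_cases hab : (a ∈ A ↔ b ∈ A)
  · simp only [if_pos hab, zero_mul, mul_zero]
  · simp only [if_neg hab]

private theorem SplB_Pc : Pp c = 0 := by
  refine R.inj _ ?_
  ext a b
  rw [h.pp]
  by_cases hab : (a ∈ A ↔ b ∈ A)
  · simp only [if_pos hab, Matrix.zero_apply]
  · simp only [if_neg hab, h.pc_zero hab, Matrix.zero_apply]

private theorem SplB_Pxc (x : L) : Qf L (Pp x) c = 0 := by
  rw [SplB_sP h, SplB_Pc h, map_zero]

/-- An element of `L` whose matrix commutes with all others vanishes. -/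
private theorem SplB_cen {j : L} (hj : ∀ x, R.ph j * R.ph x = R.ph x * R.ph j) : j = 0 := by
  have h1 : ∀ x : L, ⁅j, x⁆ = 0 := by
    intro x
    refine R.inj _ ?_
    rw [R.lie, hj, sub_self]
  have h2 : ∀ y : L, Qf L j y = Qf L 0 y := by
    intro y
    rw [Qf_apply, Qf_apply, killingForm_apply_apply, killingForm_apply_apply]
    have h3 : LieAlgebra.ad ℝ L j = 0 := by
      ext x
      rw [LieAlgebra.ad_apply, h1]
      rfl
    rw [h3, map_zero]
  exact R.ext_Qf h2

private theorem SplB_c {u v w : ℝ} {U : L →ₗ[ℝ] L} (hU : SplB_op R A u v w c U) :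
    U c = w • c := by
  rcases h.cc with hc | hc
  · refine SplB_ext R fun a b => ?_
    rw [hU, hc, map_smul, Matrix.smul_apply, smul_eq_mul]
    ring
  · rw [hc, map_zero, smul_zero]

private theorem SplB_P {u v w : ℝ} {U : L →ₗ[ℝ] L} (hU : SplB_op R A u v w c U) (x : L) :
    U (Pp x) = Pp x ∧ Pp (U x) = Pp x := by
  constructor
  · refine SplB_ext R fun a b => ?_
    rw [hU, SplB_Pxc h, zero_mul, add_zero, h.pp]
    by_cases hab : (a ∈ A ↔ b ∈ A)
    · simp only [if_pos hab, mul_zero]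
    · rw [if_neg hab, SplB_wt_ne A _ _ _ hab, one_mul]
  · refine SplB_ext R fun a b => ?_
    rw [h.pp, h.pp, hU]
    by_cases hab : (a ∈ A ↔ b ∈ A)
    · simp only [if_pos hab]
    · rw [if_neg hab, if_neg hab, h.pc_zero hab, SplB_wt_ne A _ _ _ hab]
      ring

/-- The part of the product with `c` in one block. -/
private noncomputable def SplB_q (R : Rp L I m) (c x : L) (p : I → Prop) [DecidablePred p] : ℝ :=
  R.n * ∑ a, ∑ b, if p a then R.ph x a b * R.ph c a b else 0

private theorem SplB_q_sum (x : L) :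
    Qf L x c = SplB_q R c x (· ∈ A) + SplB_q R c x (· ∉ A) := by
  unfold SplB_q
  rw [R.qf, ← mul_add, ← Finset.sum_add_distrib]
  congr 1
  refine Finset.sum_congr rfl fun a _ => ?_
  rw [← Finset.sum_add_distrib]
  refine Finset.sum_congr rfl fun b _ => ?_
  by_cases ha : a ∈ A
  · simp [ha]
  · simp [ha]

private theorem SplB_q_w (u v : ℝ) (x : L) :
    R.n * ∑ a, ∑ b, (wt A u v 1 a b * R.ph x a b) * R.ph c a b =
      u * SplB_q R c x (· ∈ A) + v * SplB_q R c x (· ∉ A) := by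
  unfold SplB_q
  rw [mul_left_comm u, mul_left_comm v, ← mul_add]
  congr 1
  rw [Finset.mul_sum Finset.univ _ u, Finset.mul_sum Finset.univ _ v, ← Finset.sum_add_distrib]
  refine Finset.sum_congr rfl fun a _ => ?_
  rw [Finset.mul_sum Finset.univ _ u, Finset.mul_sum Finset.univ _ v, ← Finset.sum_add_distrib]
  refine Finset.sum_congr rfl fun b _ => ?_
  by_cases hab : (a ∈ A ↔ b ∈ A)
  · rw [SplB_wt_eq A u v 1 hab]
    by_cases ha : a ∈ A
    · simp [ha]; ring
    · simp [ha]; ring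
  · rw [h.pc_zero hab]
    simp

/-- The main fact: the operators preserve the direction `c`. -/
private theorem SplB_key {u v w : ℝ} {U : L →ₗ[ℝ] L} (hU : SplB_op R A u v w c U) (x : L) :
    Qf L (U x) c = w * Qf L x c := by
  rcases h.cc with hc | hc
  swap
  · rw [hc, map_zero, map_zero, mul_zero]
  have hUc := SplB_c h hU
  -- the case of the block diagonal elements which are orthogonal to `c`
  have hmain : ∀ y : L, Pp y = 0 → Qf L y c = 0 → Qf L (U y) c = 0 := by
    intro y hy hyc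
    by_contra hr
    obtain ⟨r, hrdef⟩ : ∃ r, r = Qf L (U y) c := ⟨_, rfl⟩
    rw [← hrdef] at hr
    have hUy : ∀ a b, R.ph (U y) a b = wt A u v 1 a b * R.ph y a b := by
      intro a b
      rw [hU, hyc, zero_mul, add_zero]
    have e1 : r = u * SplB_q R c y (· ∈ A) + v * SplB_q R c y (· ∉ A) := by
      rw [hrdef, R.qf, ← SplB_q_w h u v y]
      congr 1
      refine Finset.sum_congr rfl fun a _ => Finset.sum_congr rfl fun b _ => ?_
      rw [hUy]
    have e2 := SplB_q_sum h y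
    rw [hyc] at e2
    have e3 : r = (u - v) * SplB_q R c y (· ∈ A) := by
      rw [e1]
      linear_combination -v * e2
    have e4 : r = (v - u) * SplB_q R c y (· ∉ A) := by
      rw [e1]
      linear_combination -u * e2
    have huv : u - v ≠ 0 := by
      intro h0
      rw [h0, zero_mul] at e3
      exact hr e3
    have hg1 : g1 ≠ 0 := by
      intro h0
      apply hr
      rw [e3]
      have : SplB_q R c y (· ∈ A) = 0 := by
        unfold SplB_q
        rw [Finset.sum_eq_zero, mul_zero]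
        intro a _
        refine Finset.sum_eq_zero fun b _ => ?_
        by_cases ha : a ∈ A
        · rw [if_pos ha, h.pc, if_pos ha, h0]
          ring
        · rw [if_neg ha]
      rw [this, mul_zero]
    have hg2 : g2 ≠ 0 := by
      intro h0
      apply hr
      rw [e4]
      have : SplB_q R c y (· ∉ A) = 0 := by
        unfold SplB_q
        rw [Finset.sum_eq_zero, mul_zero]
        intro a _
        refine Finset.sum_eq_zero fun b _ => ?_
        by_cases ha : a ∈ A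
        · rw [if_neg (not_not.2 ha)]
        · rw [if_pos ha, h.pc, if_neg ha, h0]
          ring
      rw [this, mul_zero]
    -- the element with matrix `w ∘ C`
    obtain ⟨d, hd⟩ : ∃ d : L, d = r⁻¹ • ((u + v) • U y - (u * v) • y + (r * w) • c - U (U y)) :=
      ⟨_, rfl⟩
    have hdm : ∀ a b, R.ph d a b = wt A u v 1 a b * R.ph c a b := by
      intro a b
      rw [hd, map_smul, Matrix.smul_apply, map_sub, map_add, map_sub, map_smul, map_smul, map_smul,
        Matrix.sub_apply, Matrix.add_apply, Matrix.sub_apply, Matrix.smul_apply,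
        Matrix.smul_apply, Matrix.smul_apply, hU (U y), ← hrdef, hUy]
      simp only [smul_eq_mul]
      by_cases hab : (a ∈ A ↔ b ∈ A)
      · have hw2 : wt A u v 1 a b * wt A u v 1 a b = (u + v) * wt A u v 1 a b - u * v := by
          rw [SplB_wt_eq A u v 1 hab]
          by_cases ha : a ∈ A
          · simp only [if_pos ha]; ring
          · simp only [if_neg ha]; ring
        field_simp
        linear_combination -(R.ph y a b) * hw2
      · have hy0 : R.ph y a b = 0 := by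
          have h1 := h.pp y a b
          rw [hy, map_zero, Matrix.zero_apply, if_neg hab] at h1
          exact h1.symm
        rw [hy0, h.pc_zero hab]
        ring
    obtain ⟨j, hj⟩ : ∃ j : L, j = (g1⁻¹ * (u - v)⁻¹) • (d - v • c) +
        (g2⁻¹ * (v - u)⁻¹) • (d - u • c) := ⟨_, rfl⟩
    have hjm : R.ph j = J0 := by
      ext a b
      rw [hj, map_add, map_smul, map_smul, map_sub, map_sub, map_smul, map_smul,
        Matrix.add_apply, Matrix.smul_apply, Matrix.smul_apply, Matrix.sub_apply,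
        Matrix.sub_apply, Matrix.smul_apply, Matrix.smul_apply, hdm]
      simp only [smul_eq_mul]
      have hvu : v - u ≠ 0 := by
        intro h0
        apply huv
        linarith
      by_cases hab : (a ∈ A ↔ b ∈ A)
      · rw [SplB_wt_eq A u v 1 hab, h.pc]
        by_cases ha : a ∈ A
        · simp only [if_pos ha]
          field_simp
          ring
        · simp only [if_neg ha]
          field_simp
          ring
      · rw [h.pc_zero hab, h.J0A a b hab]
        ring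
    have hj0 : j = 0 := by
      refine SplB_cen h fun x => ?_
      rw [hjm]
      exact h.J0c x
    have hJ : J0 = 0 := by
      rw [← hjm, hj0, map_zero]
    have hc0 : c = 0 := by
      refine R.inj _ ?_
      ext a b
      rw [h.pc, hJ]
      simp
    rw [hc0, map_zero] at hc
    exact one_ne_zero hc.symm
  -- the general case
  obtain ⟨y, hy⟩ : ∃ y : L, y = x - Pp x - Qf L x c • c := ⟨_, rfl⟩
  have hPy : Pp y = 0 := by
    rw [hy, map_sub, map_sub, SplB_P2 h, map_smul, SplB_Pc h, smul_zero, sub_self, sub_zero]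
  have hyc : Qf L y c = 0 := by
    rw [hy, map_sub, map_sub, LinearMap.sub_apply, LinearMap.sub_apply, SplB_Pxc h, map_smul,
      LinearMap.smul_apply, hc, smul_eq_mul]
    ring
  have h1 := hmain y hPy hyc
  have h2 : U y = U x - Pp x - (Qf L x c * w) • c := by
    rw [hy, map_sub, map_sub, map_smul, hUc, (SplB_P h hU x).1, smul_smul]
  rw [h2, map_sub, map_sub, LinearMap.sub_apply, LinearMap.sub_apply, SplB_Pxc h, map_smul,
    LinearMap.smul_apply, hc, smul_eq_mul] at h1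
  linarith

/-- The weighted product. -/
private noncomputable def SplB_B (R : Rp L I m) (A : Finset I) (u v : ℝ) (x y : L) : ℝ :=
  R.n * ∑ a, ∑ b, wt A u v 1 a b * R.ph x a b * R.ph y a b

omit h in
private theorem SplB_B_symm (u v : ℝ) (x y : L) : SplB_B R A u v x y = SplB_B R A u v y x := by
  unfold SplB_B
  congr 1
  exact Finset.sum_congr rfl fun a _ => Finset.sum_congr rfl fun b _ => by ring

omit h in
private theorem SplB_UB {u v w : ℝ} {U : L →ₗ[ℝ] L} (hU : SplB_op R A u v w c U) (x y : L) :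
    Qf L (U x) y = SplB_B R A u v x y + Qf L x c * (w * Qf L c y - SplB_B R A u v c y) := by
  rw [R.qf, R.qf c y]
  unfold SplB_B
  have h1 : ∑ a, ∑ b, R.ph (U x) a b * R.ph y a b =
      ∑ a, ∑ b, wt A u v 1 a b * R.ph x a b * R.ph y a b +
      Qf L x c * (w * ∑ a, ∑ b, R.ph c a b * R.ph y a b -
        ∑ a, ∑ b, wt A u v 1 a b * R.ph c a b * R.ph y a b) := by
    rw [Finset.mul_sum, ← Finset.sum_sub_distrib, Finset.mul_sum, ← Finset.sum_add_distrib]
    refine Finset.sum_congr rfl fun a _ => ?_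
    rw [Finset.mul_sum, ← Finset.sum_sub_distrib, Finset.mul_sum, ← Finset.sum_add_distrib]
    refine Finset.sum_congr rfl fun b _ => ?_
    rw [hU]
    ring
  rw [h1]
  ring

private theorem SplB_Bc {u v w : ℝ} {U : L →ₗ[ℝ] L} (hU : SplB_op R A u v w c U) (y : L) :
    SplB_B R A u v c y = Qf L y c * SplB_B R A u v c c := by
  rcases h.cc with hc | hc
  swap
  · rw [hc, map_zero, zero_mul]
    unfold SplB_B
    simp
  have h1 := SplB_key h hU y
  rw [SplB_UB hU, hc, SplB_B_symm u v y c] at h1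
  linarith

private theorem SplB_sym {u v w : ℝ} {U : L →ₗ[ℝ] L} (hU : SplB_op R A u v w c U) : QSym U := by
  intro x y
  rw [Qf_symm x (U y), SplB_UB hU, SplB_UB hU, SplB_Bc h hU y, SplB_Bc h hU x,
    SplB_B_symm u v x y, Qf_symm c y, Qf_symm c x]
  ring

private theorem SplB_inv {u v w u' v' w' : ℝ} {U V : L →ₗ[ℝ] L} (hU : SplB_op R A u v w c U)
    (hV : SplB_op R A u' v' w' c V) (hw : w' * w = 1)
    (huv : ∀ a b, wt A u' v' 1 a b * wt A u v 1 a b = 1) (x : L) : V (U x) = x := by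
  refine SplB_ext R fun a b => ?_
  rw [hV, SplB_key h hU, hU]
  linear_combination (R.ph x a b - Qf L x c * R.ph c a b) * huv a b +
    Qf L x c * R.ph c a b * hw

private theorem SplB_dec (x : L) : ∃ y r, x = y + r • c ∧ r = Qf L x c ∧ Qf L y c = 0 ∧
    Qf L x x = Qf L y y + r ^ 2 := by
  rcases h.cc with hc | hc
  · refine ⟨x - Qf L x c • c, Qf L x c, by rw [sub_add_cancel], rfl, ?_, ?_⟩
    · rw [map_sub, LinearMap.sub_apply, map_smul, LinearMap.smul_apply, hc, smul_eq_mul]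
      ring
    · simp only [map_sub, LinearMap.sub_apply, map_smul, LinearMap.smul_apply, hc, smul_eq_mul,
        Qf_symm c x]
      ring
  · refine ⟨x, 0, by rw [zero_smul, add_zero], by rw [hc, map_zero], by rw [hc, map_zero], ?_⟩
    ring

private theorem SplB_quad {u v w p q : ℝ} {U : L →ₗ[ℝ] L} (hU : SplB_op R A u v w c U)
    (hpq : ∀ a b, p ≤ wt A u v 1 a b ∧ wt A u v 1 a b ≤ q) (hp : p ≤ w) (hq : w ≤ q) (x : L) :
    p * Qf L x x ≤ Qf L (U x) x ∧ Qf L (U x) x ≤ q * Qf L x x := by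
  obtain ⟨y, r, hx, hr, hy, hxx⟩ := SplB_dec h x
  have h1 : Qf L (U x) x = Qf L (U y) y + w * r ^ 2 := by
    have h2 : Qf L (U y) c = 0 := by rw [SplB_key h hU, hy, mul_zero]
    have h3 : Qf L c y = 0 := by rw [Qf_symm, hy]
    have h4 : r ^ 2 * Qf L c c = r ^ 2 := by
      rcases h.cc with hc | hc
      · rw [hc, mul_one]
      · rw [hr, hc, map_zero]
        simp
    rw [hx]
    simp only [map_add, LinearMap.add_apply, map_smul, LinearMap.smul_apply, SplB_c h hU, h2, h3,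
      smul_eq_mul]
    linear_combination w * h4
  have h5 : Qf L (U y) y = SplB_B R A u v y y := by
    rw [SplB_UB hU, hy, zero_mul, add_zero]
  have h6 : ∀ s : ℝ, s * Qf L y y = R.n * ∑ a, ∑ b, s * (R.ph y a b * R.ph y a b) := by
    intro s
    rw [R.qf, mul_left_comm, Finset.mul_sum]
    congr 1
    refine Finset.sum_congr rfl fun a _ => ?_
    rw [Finset.mul_sum]
  have h7 : p * Qf L y y ≤ SplB_B R A u v y y := by
    rw [h6]
    unfold SplB_B
    refine mul_le_mul_of_nonneg_left ?_ R.n0.le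
    refine Finset.sum_le_sum fun a _ => Finset.sum_le_sum fun b _ => ?_
    rw [mul_assoc]
    exact mul_le_mul_of_nonneg_right (hpq a b).1 (mul_self_nonneg _)
  have h8 : SplB_B R A u v y y ≤ q * Qf L y y := by
    rw [h6]
    unfold SplB_B
    refine mul_le_mul_of_nonneg_left ?_ R.n0.le
    refine Finset.sum_le_sum fun a _ => Finset.sum_le_sum fun b _ => ?_
    rw [mul_assoc]
    exact mul_le_mul_of_nonneg_right (hpq a b).2 (mul_self_nonneg _)
  rw [h1, hxx, h5]
  have h9 := mul_le_mul_of_nonneg_right hp (sq_nonneg r)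
  have h10 := mul_le_mul_of_nonneg_right hq (sq_nonneg r)
  constructor <;> linarith

private theorem SplB_te {u v w : ℝ} {U : L →ₗ[ℝ] L} (hU : SplB_op R A u v w c U) (a b : I) :
    U (R.e a b) = wt A u v 1 a b • R.e a b +
      ((w - wt A u v 1 a b) * (R.n * R.ph c a b)) • c := by
  refine R.ext_Qf fun x => ?_
  rw [SplB_sym h hU, R.he, hU, map_add, LinearMap.add_apply, map_smul, map_smul,
    LinearMap.smul_apply, LinearMap.smul_apply, R.he, smul_eq_mul, smul_eq_mul, Qf_symm c x]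
  ring

theorem Spl.sS : QSym S := SplB_sym h (SplB_opS h)

theorem Spl.sT : QSym T := SplB_sym h (SplB_opT h)

theorem Spl.sP : QSym Pp := SplB_sP h

theorem Spl.ST (x : L) : S (T x) = x := by
  refine SplB_inv h (SplB_opT h) (SplB_opS h) ?_ (fun a b => ?_) x
  · have := h.zp
    field_simp
  · rw [SplB_wt_inv]
    have := SplB_wt_pos A h.x1p h.x2p a b
    field_simp

theorem Spl.TS (x : L) : T (S x) = x := by
  refine SplB_inv h (SplB_opS h) (SplB_opT h) ?_ (fun a b => ?_) x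
  · have := h.zp
    field_simp
  · rw [SplB_wt_inv]
    have := SplB_wt_pos A h.x1p h.x2p a b
    field_simp

theorem Spl.P2 (x : L) : Pp (Pp x) = Pp x := SplB_P2 h x

theorem Spl.SP (x : L) : S (Pp x) = Pp x := (SplB_P h (SplB_opS h) x).1

theorem Spl.PS (x : L) : Pp (S x) = Pp x := (SplB_P h (SplB_opS h) x).2

theorem Spl.TP (x : L) : T (Pp x) = Pp x := (SplB_P h (SplB_opT h) x).1

theorem Spl.PT (x : L) : Pp (T x) = Pp x := (SplB_P h (SplB_opT h) x).2

theorem Spl.Pc : Pp c = 0 := SplB_Pc h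

theorem Spl.Sc : S c = (1 / z) • c := SplB_c h (SplB_opS h)

theorem Spl.Tc : T c = z • c := SplB_c h (SplB_opT h)

private theorem SplB_bds {c0 : ℝ} (hb : Bnd I m A x1 x2 z c0) :
    (1 / c0 ≤ 1 / x1 ∧ 1 / x1 ≤ c0) ∧ (1 / c0 ≤ 1 / x2 ∧ 1 / x2 ≤ c0) ∧
      (1 / c0 ≤ 1 / z ∧ 1 / z ≤ c0) ∧ 1 / c0 ≤ 1 := by
  have hc0 : 0 < c0 := lt_of_lt_of_le one_pos hb.c1
  have hinv : ∀ y : ℝ, 0 < y → 1 / c0 ≤ y → y ≤ c0 → 1 / c0 ≤ 1 / y ∧ 1 / y ≤ c0 := by
    intro y hy h1 h2
    refine ⟨one_div_le_one_div_of_le hy h2, ?_⟩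
    rw [div_le_iff₀ hy]
    rw [div_le_iff₀ hc0] at h1
    linarith
  refine ⟨hinv _ h.x1p hb.x1l hb.x1u, hinv _ h.x2p hb.x2l hb.x2u, hinv _ h.zp hb.zl hb.zu, ?_⟩
  rw [div_le_one hc0]
  exact hb.c1

theorem Spl.lo {c0 : ℝ} (hb : Bnd I m A x1 x2 z c0) (x : L) :
    1 / c0 * Qf L x x ≤ Qf L (S x) x ∧ 1 / c0 * Qf L x x ≤ Qf L (T x) x := by
  obtain ⟨h1, h2, h3, h4⟩ := SplB_bds h hb
  exact ⟨(SplB_quad h (SplB_opS h) (SplB_wt_bd A h1.1 h2.1 h4 h1.2 h2.2 hb.c1) h3.1 h3.2 x).1,
    (SplB_quad h (SplB_opT h) (SplB_wt_bd A hb.x1l hb.x2l h4 hb.x1u hb.x2u hb.c1) hb.zl hb.zu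
      x).1⟩

theorem Spl.hi {c0 : ℝ} (hb : Bnd I m A x1 x2 z c0) (x : L) :
    Qf L (S x) x ≤ c0 * Qf L x x ∧ Qf L (T x) x ≤ c0 * Qf L x x := by
  obtain ⟨h1, h2, h3, h4⟩ := SplB_bds h hb
  exact ⟨(SplB_quad h (SplB_opS h) (SplB_wt_bd A h1.1 h2.1 h4 h1.2 h2.2 hb.c1) h3.1 h3.2 x).2,
    (SplB_quad h (SplB_opT h) (SplB_wt_bd A hb.x1l hb.x2l h4 hb.x1u hb.x2u hb.c1) hb.zl hb.zu
      x).2⟩

theorem Spl.te (a b : I) : T (R.e a b) =
    wt A x1 x2 1 a b • R.e a b + ((z - wt A x1 x2 1 a b) * (R.n * R.ph c a b)) • c :=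
  SplB_te h (SplB_opT h) a b

theorem Spl.se (a b : I) : S (R.e a b) = wt A (1 / x1) (1 / x2) 1 a b • R.e a b +
    ((1 / z - wt A (1 / x1) (1 / x2) 1 a b) * (R.n * R.ph c a b)) • c :=
  SplB_te h (SplB_opS h) a b

theorem Spl.pe (a b : I) : Pp (R.e a b) = if (a ∈ A ↔ b ∈ A) then 0 else R.e a b := by
  refine R.ext_Qf fun x => ?_
  rw [SplB_sP h, R.he, h.pp]
  by_cases hab : (a ∈ A ↔ b ∈ A)
  · rw [if_pos hab, if_pos hab, map_zero, LinearMap.zero_apply, mul_zero]
  · rw [if_neg hab, if_neg hab, R.he]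

private theorem SplB_refl_ph (x : L) (a b : I) : R.ph (x - (2 : ℝ) • Pp x) a b =
    (if a ∈ A then (1 : ℝ) else -1) * R.ph x a b * (if b ∈ A then (1 : ℝ) else -1) := by
  rw [map_sub, map_smul, Matrix.sub_apply, Matrix.smul_apply, smul_eq_mul, h.pp]
  by_cases ha : a ∈ A <;> by_cases hb : b ∈ A <;> simp [ha, hb] <;> ring

theorem Spl.refl : ∃ σ : L ≃ₗ⁅ℝ⁆ L, ∀ x, σ x = x - (2 : ℝ) • Pp x := by
  have hinv : ∀ x : L, (x - (2 : ℝ) • Pp x) - (2 : ℝ) • Pp (x - (2 : ℝ) • Pp x) = x := by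
    intro x
    rw [map_sub, map_smul, SplB_P2 h]
    module
  have hlie : ∀ x y : L, ⁅x, y⁆ - (2 : ℝ) • Pp ⁅x, y⁆ =
      ⁅x - (2 : ℝ) • Pp x, y - (2 : ℝ) • Pp y⁆ := by
    intro x y
    refine SplB_ext R fun a b => ?_
    rw [SplB_refl_ph h, R.lie, R.lie, Matrix.sub_apply, Matrix.sub_apply, Matrix.mul_apply,
      Matrix.mul_apply, Matrix.mul_apply, Matrix.mul_apply, ← Finset.sum_sub_distrib,
      ← Finset.sum_sub_distrib, Finset.mul_sum, Finset.sum_mul]
    refine Finset.sum_congr rfl fun d _ => ?_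
    rw [SplB_refl_ph h, SplB_refl_ph h, SplB_refl_ph h, SplB_refl_ph h]
    have hd : (if d ∈ A then (1 : ℝ) else -1) * (if d ∈ A then (1 : ℝ) else -1) = 1 := by
      by_cases hd : d ∈ A <;> simp [hd]
    linear_combination -((if a ∈ A then (1 : ℝ) else -1) * (if b ∈ A then (1 : ℝ) else -1) *
      (R.ph x a d * R.ph y d b - R.ph y a d * R.ph x d b)) * hd
  refine ⟨{ toFun := fun x => x - (2 : ℝ) • Pp x
            map_add' := fun x y => by rw [map_add]; module
            map_smul' := fun r x => by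
              rw [map_smul, RingHom.id_apply]; module
            map_lie' := fun {x y} => hlie x y
            invFun := fun x => x - (2 : ℝ) • Pp x
            left_inv := hinv
            right_inv := hinv }, fun x => rfl⟩

private theorem SplB_off {y : L} (hy : Pp y = 0) {a b : I} (hab : ¬(a ∈ A ↔ b ∈ A)) :
    R.ph y a b = 0 := by
  have h1 := h.pp y a b
  rw [hy, map_zero, Matrix.zero_apply, if_neg hab] at h1
  exact h1.symm

theorem Spl.yc {y : L} (hy : Pp y = 0) : ⁅y, c⁆ = 0 := by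
  refine R.inj _ ?_
  rw [R.lie]
  ext a b
  rw [Matrix.sub_apply, Matrix.mul_apply, Matrix.mul_apply, Matrix.zero_apply]
  have h1 : ∑ d, R.ph y a d * R.ph c d b = (if a ∈ A then g1 else g2) *
      ∑ d, R.ph y a d * J0 d b := by
    rw [Finset.mul_sum]
    refine Finset.sum_congr rfl fun d _ => ?_
    rw [h.pc]
    by_cases had : (a ∈ A ↔ d ∈ A)
    · by_cases ha : a ∈ A
      · rw [if_pos ha, if_pos (had.1 ha)]; ring
      · rw [if_neg ha, if_neg (fun hd => ha (had.2 hd))]; ring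
    · rw [SplB_off h hy had]; ring
  have h2 : ∑ d, R.ph c a d * R.ph y d b = (if a ∈ A then g1 else g2) *
      ∑ d, J0 a d * R.ph y d b := by
    rw [Finset.mul_sum]
    refine Finset.sum_congr rfl fun d _ => ?_
    rw [h.pc]
    ring
  have h3 := congrFun (congrFun (h.J0c y) a) b
  rw [Matrix.mul_apply, Matrix.mul_apply] at h3
  rw [h1, h2, h3, sub_self]

private theorem SplB_w_lie {y : L} (hy : Pp y = 0) (u v : ℝ) (x : L) (a b : I) :
    ∑ d, (R.ph y a d * (wt A u v 1 d b * R.ph x d b) - wt A u v 1 a d * R.ph x a d * R.ph y d b) =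
      wt A u v 1 a b * R.ph ⁅y, x⁆ a b := by
  rw [R.lie, Matrix.sub_apply, Matrix.mul_apply, Matrix.mul_apply, ← Finset.sum_sub_distrib,
    Finset.mul_sum]
  refine Finset.sum_congr rfl fun d _ => ?_
  have h1 : R.ph y a d * wt A u v 1 d b = R.ph y a d * wt A u v 1 a b := by
    by_cases had : (a ∈ A ↔ d ∈ A)
    · rw [(SplB_wt_congr A u v 1 (c := b) had).1]
    · rw [SplB_off h hy had]; ring
  have h2 : wt A u v 1 a d * R.ph y d b = wt A u v 1 a b * R.ph y d b := by
    by_cases hdb : (d ∈ A ↔ b ∈ A)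
    · rw [(SplB_wt_congr A u v 1 (c := a) hdb).2]
    · rw [SplB_off h hy hdb]; ring
  linear_combination R.ph x d b * h1 - R.ph x a d * h2

private theorem SplB_equi {u v w : ℝ} {U : L →ₗ[ℝ] L} (hU : SplB_op R A u v w c U) {y : L}
    (hy : Pp y = 0) (x : L) : U ⁅y, x⁆ = ⁅y, U x⁆ := by
  refine SplB_ext R fun a b => ?_
  have h0 : Qf L ⁅y, x⁆ c = 0 := by
    rw [Qf_lie', h.yc hy, map_zero, neg_zero]
  have h1 := SplB_w_lie h hy u v x a b
  have h2 := SplB_w_lie h hy u v c a b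
  rw [h.yc hy, map_zero, Matrix.zero_apply, mul_zero] at h2
  have h3 : ∑ d, (R.ph y a d * R.ph c d b - R.ph c a d * R.ph y d b) = 0 := by
    have h4 : R.ph ⁅y, c⁆ a b = 0 := by rw [h.yc hy, map_zero, Matrix.zero_apply]
    rw [R.lie, Matrix.sub_apply, Matrix.mul_apply, Matrix.mul_apply,
      ← Finset.sum_sub_distrib] at h4
    exact h4
  rw [hU, h0, zero_mul, add_zero, ← h1, R.lie, Matrix.sub_apply, Matrix.mul_apply,
    Matrix.mul_apply, ← Finset.sum_sub_distrib]
  have h5 : ∑ d, (R.ph y a d * R.ph (U x) d b - R.ph (U x) a d * R.ph y d b) =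
      ∑ d, (R.ph y a d * (wt A u v 1 d b * R.ph x d b) -
        wt A u v 1 a d * R.ph x a d * R.ph y d b) +
      Qf L x c * (w * ∑ d, (R.ph y a d * R.ph c d b - R.ph c a d * R.ph y d b) -
        ∑ d, (R.ph y a d * (wt A u v 1 d b * R.ph c d b) -
        wt A u v 1 a d * R.ph c a d * R.ph y d b)) := by
    rw [Finset.mul_sum, ← Finset.sum_sub_distrib, Finset.mul_sum, ← Finset.sum_add_distrib]
    refine Finset.sum_congr rfl fun d _ => ?_
    rw [hU, hU]
    ring
  rw [h5, h2, h3]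
  ring

theorem Spl.equi {y : L} (hy : Pp y = 0) (x : L) : T ⁅y, x⁆ = ⁅y, T x⁆ ∧ S ⁅y, x⁆ = ⁅y, S x⁆ :=
  ⟨SplB_equi h (SplB_opT h) hy x, SplB_equi h (SplB_opS h) hy x⟩

/-- Brackets with `c`: an element of `k` is killed, `Pp` is preserved. -/
theorem Spl.pc_lie (x : L) : ⁅c, x⁆ = ⁅c, Pp x⁆ ∧ Pp ⁅c, x⁆ = ⁅c, x⁆ := by
  have h1 : ⁅c, x⁆ = ⁅c, Pp x⁆ := by
    have h2 : Pp (x - Pp x) = 0 := by rw [map_sub, SplB_P2 h, sub_self]
    have h3 := h.yc h2
    rw [← lie_skew, neg_eq_zero, lie_sub] at h3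
    exact sub_eq_zero.1 h3
  refine ⟨h1, ?_⟩
  refine SplB_ext R fun a b => ?_
  rw [h.pp]
  by_cases hab : (a ∈ A ↔ b ∈ A)
  · rw [if_pos hab, h1, R.lie, Matrix.sub_apply, Matrix.mul_apply, Matrix.mul_apply]
    symm
    rw [Finset.sum_eq_zero, Finset.sum_eq_zero, sub_self]
    · intro d _
      rw [h.pp]
      by_cases had : (a ∈ A ↔ d ∈ A)
      · rw [if_pos had, zero_mul]
      · have hdb : ¬(d ∈ A ↔ b ∈ A) := fun h' => had (hab.trans h'.symm)
        rw [h.pc_zero hdb, mul_zero]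
    · intro d _
      rw [h.pp]
      by_cases hdb : (d ∈ A ↔ b ∈ A)
      · rw [if_pos hdb, mul_zero]
      · have had : ¬(a ∈ A ↔ d ∈ A) := fun h' => hdb (h'.symm.trans hab)
        rw [h.pc_zero had, zero_mul]
  · rw [if_neg hab]

end Pool.Agent.EinV
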