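import Pool.Agent.EinV.Dbl
import Pool.Agent.EinV.ClInv
import Pool.Agent.EinU.AdB
import Pool.Agent.EinU.Core

/-!
# Subalgebras which preserve a real, complex or quaternionic structure: definitions

* `su ⊃ so`, `x g = g x̄`, `g` unitary, `g ḡ = 1`: `s = lmul g * cj`, `cj` the complex conjugation, is symmetric, `s² = 1`; `f = J = rmul I` anticommutes with
  `s`, `c = 0`, `J0 = 0`, `trace s = 0`; `einstein_inv` with `θ = 1/2`.
* `su ⊃ sp`, `g ḡ = -1`: `s = lmul g * cj` is skew, `σ x = g x̄ gᴴ`; `exists_dbl` with `c = 0`, `κ = 0`.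
* `so ⊃ u`, `s s = -1`: `exists_dbl` with `m = 0`, `c = κ s`.
* `sp ⊃ u`, `s s = -1`: `s' = lmul s * (rmul i)ᵀ` is symmetric, `s'² = 1`; `J0 = rmul i`, `c = κ s`, `f 0 = rmul i` commutes with `s'`, `f 1`, `f 2` anticommute.
In all cases `|A| = M / 2`, the condition on the dimension is `small_dimR`; if `N` is small, then `h = 0` and `einstein_bot`.
-/

namespace Pool.Agent.EinV

open Matrix Pool.Agent.EStab Pool.Agent.EinS Pool.Agent.SmIso Pool.Agent.EinU Pool.Agent.EinG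
  Quaternion

attribute [local instance 100] LieRing.ofAssociativeRing

section

variable {A : Type} [Ring A] [StarRing A] [Algebra ℝ A] [Cen A] {ι : Type} [Fintype ι]
  [DecidableEq ι]

/-- `Ad(g)`, `g` a unitary matrix which preserves `h` and commutes with `s`. -/
def csAuts (h : LieSubalgebra ℝ (cl A ι)) (s : Matrix ι ι A) : Set (cl A ι →ₗ[ℝ] cl A ι) :=
  {γ | ∃ g : Matrix ι ι A, g * gᴴ = 1 ∧ gᴴ * g = 1 ∧ (∀ x, (γ x).1 = g * x.1 * gᴴ) ∧
    h.toSubmodule.map γ = h.toSubmodule ∧ g * s = s * g}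

/-- `Ad(g)`, `g` a unitary matrix which preserves `h` and commutes with `v ↦ s v̄`. -/
def ccAuts (h : LieSubalgebra ℝ (cl ℂ ι)) (s : Matrix ι ι ℂ) : Set (cl ℂ ι →ₗ[ℝ] cl ℂ ι) :=
  {γ | ∃ g : Matrix ι ι ℂ, g * gᴴ = 1 ∧ gᴴ * g = 1 ∧ (∀ x, (γ x).1 = g * x.1 * gᴴ) ∧
    h.toSubmodule.map γ = h.toSubmodule ∧ g * s = s * g.map star}

end

end Pool.Agent.EinV
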