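import Pool.Agent.EinV.St

/-!
# Products of classical groups: the statement
-/

namespace Pool.Agent.EinV

open Matrix Pool.Agent.EStab Pool.Agent.EinS

noncomputable instance Fld.cj : (F : Fld) → Cj F.T
  | .R => cjReal
  | .C => cjComplex
  | .H => cjQuat

/-- The product of the Lie algebras `so(N i)`, `su(N i)` or `sp(N i)`. -/
abbrev ProdG {r : ℕ} (F : Fin r → Fld) (N : Fin r → ℕ) : Type := ∀ i, Gr (F i).T (Fin (N i))

/-- The projection to a factor. -/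
def projG {r : ℕ} (F : Fin r → Fld) (N : Fin r → ℕ) (i : Fin r) :
    ProdG F N →ₗ⁅ℝ⁆ Gr (F i).T (Fin (N i)) where
  toFun x := x i
  map_add' _ _ := rfl
  map_smul' _ _ := rfl
  map_lie' := rfl

/-- For every `θ > 0` there is `ε > 0` such that all homogeneous spaces `G/H`, `G = ∏ G_i` with `G_i = SO(N_i)`, `SU(N_i)` or `Sp(N_i)`, have invariant Einstein metrics if for every `i` the
projection `H_i` of `H` to `G_i` has dimension at most `ε N_i²` and has no irreducible subspace `W` with `(1 - θ) N_i < dim W < N_i`, or preserves a structure. -/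
def SmallSubgroupsEinstein' : Prop :=
  ∀ θ : ℝ, 0 < θ → ∃ ε : ℝ, 0 < ε ∧ ∀ (r : ℕ) (F : Fin r → Fld) (N : Fin r → ℕ),
    (∀ i, 3 ≤ N i) → ∀ (h : LieSubalgebra ℝ (ProdG F N))
    (Γ : Set (∀ i, Matrix (Fin (N i)) (Fin (N i)) (F i).T)),
      (∀ g ∈ Γ, (∀ i, g i * (g i)ᴴ = 1 ∧ (g i)ᴴ * g i = 1) ∧
        ∀ x ∈ h, ∃ y ∈ h, ∀ i, (y i).mat = g i * (x i).mat * (g i)ᴴ) →
      (∀ i, (Module.finrank ℝ (h.map (projG F N i)) : ℝ) ≤ ε * N i ^ 2) →
      (∀ i, NoLarge θ (h.map (projG F N i)) {a | ∃ g ∈ Γ, g i = a} ∨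
        HasStructure (h.map (projG F N i)) {a | ∃ g ∈ Γ, g i = a}) →
      HasEinsteinMetric (ProdG F N) h.toSubmodule
        {γ | ∃ g ∈ Γ, ∀ x i, (γ x i).mat = g i * (x i).mat * (g i)ᴴ}

end Pool.Agent.EinV
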