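import Pool.Agent.EinV.AsmP

/-!
# Small subgroups of products of classical groups: the final statement
-/

namespace Pool.Agent.EinV

open Matrix Pool.Agent.EStab Pool.Agent.EinS Pool.Agent.SmIso Pool.Agent.EinU Pool.Agent.EinG

section

variable {A : Type} [Ring A] [StarRing A] [Algebra ℝ A] {N : ℕ}

/-- `W` is an `A`-subspace of `A^N` which is preserved by the matrices in `S`. -/
def Pres (S : Set (Matrix (Fin N) (Fin N) A)) (W : Submodule ℝ (Fin N → A)) : Prop :=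
  ∀ v ∈ W, (∀ u : A, (fun i => v i * u) ∈ W) ∧ ∀ g ∈ S, g *ᵥ v ∈ W

/-- No irreducible `S`-invariant `A`-subspace `W` of `A^N` has `(1 - θ) N < dim W < N`. -/
def NoLargeM (θ : ℝ) (S : Set (Matrix (Fin N) (Fin N) A)) : Prop :=
  ∀ W : Submodule ℝ (Fin N → A), Pres S W → (∀ W' ≤ W, Pres S W' → W' = ⊥ ∨ W' = W) →
    W = ⊤ ∨ (Module.finrank ℝ W : ℝ) ≤ (1 - θ) * Module.finrank ℝ (Fin N → A)

/-- There is a unitary map `σ`, `σ v = s * cj v`, of `A^N` which commutes with the matrices in `S`, such that `σ² = -1`, or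
`σ² = 1` and `σ` is antilinear. -/
def StructM [Cj A] (S : Set (Matrix (Fin N) (Fin N) A)) : Prop :=
  ∃ s : Matrix (Fin N) (Fin N) A, s * sᴴ = 1 ∧
    (s * s.map Cj.cj = -1 ∨ (s * s.map Cj.cj = 1 ∧ ∃ u : A, Cj.cj u ≠ u)) ∧
    ∀ g ∈ S, s * g.map Cj.cj = g * s

end

section

variable {r : ℕ} (F : Fin r → Fld) (N : Fin r → ℕ)

/-- The product of the Lie algebras `so(N i)`, `su(N i)` or `sp(N i)`. -/
def PG : Type := ∀ i, Gr (F i).T (Fin (N i))

noncomputable instance pgLieRing : LieRing (PG F N) :=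
  piLieRing fun i => Gr (F i).T (Fin (N i))

noncomputable instance pgLieAlgebra : LieAlgebra ℝ (PG F N) :=
  piLieAlgebra fun i => Gr (F i).T (Fin (N i))

/-- The tuples of matrices. -/
def TM : Type := ∀ i, Matrix (Fin (N i)) (Fin (N i)) (F i).T

variable {F N}

/-- The matrices of an element of the Lie algebra. -/
noncomputable def PG.mat (x : PG F N) : TM F N := fun i => (x i).mat

/-- The matrices of the elements of `h` in the factor `i`. -/
def hMat (h : LieSubalgebra ℝ (PG F N)) (i : Fin r) :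
    Set (Matrix (Fin (N i)) (Fin (N i)) (F i).T) := {m | ∃ x ∈ h, x.mat i = m}

/-- The components of the elements of `Γ` in the factor `i`. -/
def gMat (Γ : Set (TM F N)) (i : Fin r) : Set (Matrix (Fin (N i)) (Fin (N i)) (F i).T) :=
  {m | ∃ g ∈ Γ, g i = m}

/-- The matrices of `y` are the conjugates of those of `x` by the matrices of `g`. -/
def ConjBy (g : TM F N) (x y : PG F N) : Prop := ∀ i, y.mat i = g i * x.mat i * (g i)ᴴ

/-- `Γ` consists of tuples of unitary matrices which normalise `h`. -/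
def Normalises (h : LieSubalgebra ℝ (PG F N)) (Γ : Set (TM F N)) : Prop :=
  ∀ g ∈ Γ, (∀ i, g i * (g i)ᴴ = 1 ∧ (g i)ᴴ * g i = 1) ∧ ∀ x ∈ h, ∃ y ∈ h, ConjBy g x y

/-- The projection `h_i` of `h` has dimension at most `ε N²`, and either no irreducible invariant subspace `W` with
`(1 - θ) N < dim W < N`, or an invariant structure. -/
def SmallAt (θ ε : ℝ) (h : LieSubalgebra ℝ (PG F N)) (Γ : Set (TM F N)) (i : Fin r) : Prop :=
  (Set.finrank ℝ (hMat h i) : ℝ) ≤ ε * N i ^ 2 ∧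
    (NoLargeM θ (hMat h i ∪ gMat Γ i) ∨ StructM (hMat h i ∪ gMat Γ i))

/-- The conjugations by the elements of `Γ`. -/
def conjs (Γ : Set (TM F N)) : Set (PG F N →ₗ[ℝ] PG F N) := {γ | ∃ g ∈ Γ, ∀ x, ConjBy g x (γ x)}

end

/-- For every `θ > 0` there is `ε > 0` such that all homogeneous spaces `G/H`, `G = ∏ G_i` with `G_i = SO(N_i)`, `SU(N_i)` or `Sp(N_i)`,
`N_i ≥ 3`, have invariant Einstein metrics if `SmallAt θ ε` holds for all factors. -/
def SmallSubgroupsProducts : Prop :=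
  ∀ θ : ℝ, 0 < θ → ∃ ε : ℝ, 0 < ε ∧ ∀ (r : ℕ) (F : Fin r → Fld) (N : Fin r → ℕ),
    (∀ i, 3 ≤ N i) → ∀ (h : LieSubalgebra ℝ (PG F N)) (Γ : Set (TM F N)), Normalises h Γ →
      (∀ i, SmallAt θ ε h Γ i) → HasEinsteinMetric (PG F N) h.toSubmodule (conjs Γ)

/-! ### The proof -/

private theorem StQ_pres {A : Type} [Ring A] [StarRing A] [Algebra ℝ A] [Cen A] {N : ℕ}
    {h : LieSubalgebra ℝ (Gr A (Fin N))} {Γ : Set (Matrix (Fin N) (Fin N) A)}
    {S : Set (Matrix (Fin N) (Fin N) A)} (hS : ∀ m, m ∈ S ↔ (∃ x ∈ h, x.mat = m) ∨ m ∈ Γ)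
    (W : Submodule ℝ (Fin N → A)) : Preserved h Γ W ↔ Pres S W := by
  constructor
  · rintro ⟨h1, h2, h3⟩ v hv
    refine ⟨h1 v hv, fun g hg => ?_⟩
    rcases (hS g).1 hg with ⟨x, hx, rfl⟩ | hg
    · exact h2 x hx v hv
    · exact h3 g hg v hv
  · intro h1
    exact ⟨fun v hv => (h1 v hv).1, fun x hx v hv => (h1 v hv).2 _ ((hS _).2 (Or.inl ⟨x, hx, rfl⟩)),
      fun g hg v hv => (h1 v hv).2 g ((hS g).2 (Or.inr hg))⟩

theorem small_products : SmallSubgroupsProducts := by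
  intro θ hθ
  obtain ⟨ε, hε, H⟩ := small_prod θ hθ
  refine ⟨ε, hε, fun r F N hN h Γ hΓ hs => ?_⟩
  have hS : ∀ i, ∀ m, m ∈ hMat h i ∪ gMat Γ i ↔
      (∃ x ∈ LieSubalgebra.map (projG F N i) h, x.mat = m) ∨ m ∈ {a | ∃ g ∈ Γ, g i = a} := by
    intro i m
    refine or_congr ⟨?_, ?_⟩ Iff.rfl
    · rintro ⟨x, hx, rfl⟩
      exact ⟨x i, ⟨x, hx, rfl⟩, rfl⟩
    · rintro ⟨_, ⟨x, hx, rfl⟩, rfl⟩
      exact ⟨x, hx, rfl⟩
  have key := H r F N hN h Γ (fun g hg => ⟨(hΓ g hg).1, fun x hx => ?_⟩) (fun i => ?_)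
    (fun i => ?_)
  · refine einstein_mono key ?_
    rintro γ ⟨g, hg, hγ⟩
    exact ⟨g, hg, fun x i => hγ x i⟩
  · obtain ⟨y, hy, hyx⟩ := (hΓ g hg).2 x hx
    exact ⟨y, hy, fun i => hyx i⟩
  · have h1 := (hs i).1
    have h2 : Set.finrank ℝ (hMat h i) =
        Module.finrank ℝ (LieSubalgebra.map (projG F N i) h) := by
      unfold Set.finrank
      -- the linear map which sends an element to its matrix
      let φ : Gr (F i).T (Fin (N i)) →ₗ[ℝ] Matrix (Fin (N i)) (Fin (N i)) (F i).T :=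
        { toFun := fun x => x.mat
          map_add' := fun _ _ => rfl
          map_smul' := fun _ _ => rfl }
      have hφ : Function.Injective φ := Subtype.val_injective
      have h3 : Submodule.span ℝ (hMat h i) =
          ((LieSubalgebra.map (projG F N i) h).toSubmodule).map φ := by
        apply le_antisymm
        · rw [Submodule.span_le]
          rintro _ ⟨x, hx, rfl⟩
          exact ⟨x i, ⟨x, hx, rfl⟩, rfl⟩
        · rintro _ ⟨_, ⟨x, hx, rfl⟩, rfl⟩
          exact Submodule.subset_span ⟨x, hx, rfl⟩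
      rw [h3]
      exact (Submodule.equivMapOfInjective φ hφ _).finrank_eq.symm
    rwa [h2] at h1
  · rcases (hs i).2 with h1 | h1
    · left
      rintro W ⟨hW, h0, hW'⟩
      exact h1 W ((StQ_pres (hS i) W).1 hW) fun W' h2 h3 => hW' W' h2 ((StQ_pres (hS i) W').2 h3)
    · right
      obtain ⟨s, h2, h3, h4⟩ := h1
      exact ⟨s, h2, h3, fun x hx => h4 _ ((hS i _).2 (Or.inl ⟨x, hx, rfl⟩)),
        fun g hg => h4 g ((hS i g).2 (Or.inr hg))⟩

end Pool.Agent.EinV
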