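import Pool.Agent.EinV.Ell
import Pool.Agent.EinV.Slow
import Pool.Agent.EinV.FastC
import Pool.Agent.EinV.GapRI

/-!
# The slow system for a solution of the linearised Einstein equation

For `v` supported in the block `K` and the block `B` put `y_b = zz v (single b 1)`, `E(y)` := the expression in `ell_form`, and sum over
`b ∈ B` with the factor `1 / n²`: `|(1/n²) ∑ E(y_b)| ≤ C (s + (1/M + δ) b) |v|²` (`contr_le`).
`K = B`: `y_b` is in `k` (`Pp y_b = 0`, `ph_zz`, `pe`), so `E(y_b) = - lam Qf (β y_b) y_b + (1/2) FO (1/x1) (1/x2) β y_b`; by `rh_quad`, `slow_contr`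
(`u1 = 1/x1`, `u2 = 1/x2`, `t = 1`, `c0` large) and `fast_contr` this is `e1` (`K = A`) or `e2` (`K = Aᶜ`):
`(1/2) * (1/2) * (ta A (ub A (1/x1) 1 β) |v|² + (|A|/M) v ⬝ᵥ (ub A (1/x1) 1 β) v) = (1/4) (1/x1 * bf A ρA v + bf A ρB v)`.
`K ≠ B`: `y_b` is in `p` (`Pp y_b = y_b`), and all three `FO` terms contribute: for `K = A`, `B = Aᶜ`
`FO x1 x2 β` gives `(1/2) (ta Aᶜ (x1 ρA + ρB) |v|² + (|Aᶜ|/M) (ρA + x2 ρB)(v))`, `FO (1/x1) (1/x2) β` the same with `1/x1`, `1/x2`, and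
`FO (1/x1) (1/x2) (TβT)` the same for the contractions of `T β T`, which are `x1² ρA(v)` on `A`, `ρB(v)` on `A` (block pair mixed),
`ρA` on `Aᶜ` and `x2² ρB` on `Aᶜ` (`rh_TUT`), up to `C b / M` (for the traces `ta` use the basis vectors `v = single i 1`).  The sum is `e3`.
The matrices are symmetric and block diagonal (`rh_symm`, `rh_diag`), `tr` is `rh_tr`.
-/

namespace Pool.Agent.EinV

open Matrix Pool.Agent.EStab Pool.Agent.EinS Pool.Agent.SmIso Pool.Agent.EinU Pool.Agent.EinG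

section

variable {I : Type} [Fintype I] [DecidableEq I]

private theorem Sys_ta (B : Finset I) (p q : ℝ) (X Y : Matrix I I ℝ) :
    ta B (p • X + q • Y) = p * ta B X + q * ta B Y := by
  unfold ta
  simp only [Matrix.add_apply, Matrix.smul_apply, smul_eq_mul]
  rw [Finset.sum_add_distrib, ← Finset.mul_sum, ← Finset.mul_sum]
  ring

private theorem Sys_dot (v : I → ℝ) (p q : ℝ) (X Y : Matrix I I ℝ) :
    v ⬝ᵥ ((p • X + q • Y) *ᵥ v) = p * (v ⬝ᵥ (X *ᵥ v)) + q * (v ⬝ᵥ (Y *ᵥ v)) := by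
  rw [Matrix.add_mulVec, dotProduct_add, Matrix.smul_mulVec, Matrix.smul_mulVec,
    dotProduct_smul, dotProduct_smul]
  simp only [smul_eq_mul]

private theorem Sys_single (X : Matrix I I ℝ) (i : I) :
    (Pi.single i 1 : I → ℝ) ⬝ᵥ (X *ᵥ Pi.single i 1) = X i i := by
  rw [Matrix.mulVec_single_one, single_dotProduct, one_mul]
  rfl

private theorem Sys_single1 (i : I) :
    (Pi.single i 1 : I → ℝ) ⬝ᵥ Pi.single i 1 = 1 := by
  rw [single_dotProduct, one_mul, Pi.single_eq_same]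

/-- traces -/
private theorem Sys_ta_le {B : Finset I} {X Y : Matrix I I ℝ} {w ε : ℝ} (hM : 0 < (Fintype.card I : ℝ))
    (hε : 0 ≤ ε) (h : ∀ i ∈ B, |X i i - w * Y i i| ≤ ε) : |ta B X - w * ta B Y| ≤ ε := by
  have h1 : ta B X - w * ta B Y = (∑ i ∈ B, (X i i - w * Y i i)) / Fintype.card I := by
    unfold ta
    rw [Finset.sum_sub_distrib, ← Finset.mul_sum]
    ring
  rw [h1, abs_div, abs_of_pos hM, div_le_iff₀ hM]
  calc |∑ i ∈ B, (X i i - w * Y i i)| ≤ ∑ i ∈ B, |X i i - w * Y i i| :=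
        Finset.abs_sum_le_sum_abs _ _
    _ ≤ ∑ _i ∈ B, ε := Finset.sum_le_sum h
    _ = B.card * ε := by rw [Finset.sum_const, nsmul_eq_mul]
    _ ≤ ε * Fintype.card I := by
        rw [mul_comm]
        refine mul_le_mul_of_nonneg_left ?_ hε
        exact_mod_cast Finset.card_le_univ B

end

private theorem Sys_FO (c0 : ℝ) (m : ℕ) : ∃ C : ℝ, 1 ≤ C ∧ ∀ (L : Type) [LieRing L] [LieAlgebra ℝ L]
    (I : Type) [Fintype I] [DecidableEq I] (R : Rp L I m) (A : Finset I) (x1 x2 z : ℝ)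
    (S T Pp : L →ₗ[ℝ] L) (c : L) (J0 : Matrix I I ℝ) (g1 g2 : ℝ),
    Spl R A x1 x2 z S T Pp c J0 g1 g2 → Bnd I m A x1 x2 z c0 →
    ∀ (U : L →ₗ[ℝ] L) (b : ℝ), QSym U → (∀ x, U (Pp x) = Pp (U x)) → 0 ≤ b → NBL U b →
    ∀ (u1 u2 : ℝ), |u1| ≤ c0 → |u2| ≤ c0 → (x1 = x2 → u1 = u2) →
    ∀ (K B : Finset I) (pK qK pB qB : ℝ),
      ((K = A ∧ pK = u1 ∧ qK = 1) ∨ (K = Aᶜ ∧ pK = 1 ∧ qK = u2)) →
      ((B = A ∧ pB = u1 ∧ qB = 1) ∨ (B = Aᶜ ∧ pB = 1 ∧ qB = u2)) →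
    ∀ v : I → ℝ, (∀ i, i ∉ K → v i = 0) →
      |1 / R.n ^ 2 * ∑ b' ∈ B, R.FO A u1 u2 U (R.zz v (Pi.single b' 1)) -
        1 / 2 * ((pK * ta B (R.rh A U) + qK * ta B (R.rh Aᶜ U)) * (v ⬝ᵥ v) +
          (B.card : ℝ) / Fintype.card I * (pB * (v ⬝ᵥ (R.rh A U *ᵥ v)) +
            qB * (v ⬝ᵥ (R.rh Aᶜ U *ᵥ v))))| ≤
        C / Fintype.card I * b * (v ⬝ᵥ v) := by
  obtain ⟨C1, hC1, h1⟩ := slow_contr c0 m
  obtain ⟨C2, hC2, h2⟩ := fast_contr c0 m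
  refine ⟨C1 + C2, by linarith, ?_⟩
  intro L _ _ I _ _ R A x1 x2 z S T Pp c J0 g1 g2 hS hB U b hU hc hb hUb u1 u2 hu1 hu2 hx K B
    pK qK pB qB hK hBB v hv
  have h1' : |(1 : ℝ)| ≤ c0 := by rw [abs_one]; exact hB.c1
  have e1 := h1 L I R A x1 x2 z S T Pp c J0 g1 g2 hS hB U b hU hc hb hUb u1 u2 1 hu1 hu2 h1' hx
    K B pK qK pB qB hK hBB v hv
  have e2 := h2 L I R A hB.M1 U b hU hb hUb u1 u2 1 hu1 hu2 h1' B v
  unfold Rp.ub at e1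
  rw [Sys_ta, Sys_dot] at e1
  have e3 : 1 / R.n ^ 2 * ∑ b' ∈ B, R.FO A u1 u2 U (R.zz v (Pi.single b' 1)) =
      1 / R.n ^ 2 * ∑ b' ∈ B, SLb (wt A u1 u2 1) (R.tn U) (R.ph (R.zz v (Pi.single b' 1)))
          (R.ph (R.zz v (Pi.single b' 1))) +
      1 / R.n ^ 2 * ∑ b' ∈ B, FAb (wt A u1 u2 1) (R.tn U) (R.ph (R.zz v (Pi.single b' 1)))
          (R.ph (R.zz v (Pi.single b' 1))) := by
    rw [← mul_add, ← Finset.sum_add_distrib]
    rfl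
  rw [e3]
  have e4 : (C1 + C2) / (Fintype.card I : ℝ) * b * (v ⬝ᵥ v) =
      C1 / (Fintype.card I : ℝ) * b * (v ⬝ᵥ v) + C2 / (Fintype.card I : ℝ) * b * (v ⬝ᵥ v) := by
    ring
  rw [e4]
  rw [abs_le] at e1 e2 ⊢
  constructor
  · linarith [e1.1, e2.1]
  · linarith [e1.2, e2.2]

section

variable {L : Type} [LieRing L] [LieAlgebra ℝ L] {I : Type} [Fintype I] [DecidableEq I] {m : ℕ}
  {R : Rp L I m} {A : Finset I} {x1 x2 z : ℝ} {S T Pp : L →ₗ[ℝ] L} {c : L} {J0 : Matrix I I ℝ}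
  {g1 g2 : ℝ}

private theorem Sys_P0 (h : Spl R A x1 x2 z S T Pp c J0 g1 g2) {v w : I → ℝ}
    (hv : ∀ a b, v a ≠ 0 → w b ≠ 0 → (a ∈ A ↔ b ∈ A)) : Pp (R.zz v w) = 0 := by
  unfold Rp.zz
  rw [map_sum]
  refine Finset.sum_eq_zero fun a _ => ?_
  rw [map_sum]
  refine Finset.sum_eq_zero fun b _ => ?_
  rw [map_smul, h.pe]
  by_cases h1 : v a = 0
  · rw [h1, zero_mul, zero_smul]
  by_cases h2 : w b = 0
  · rw [h2, mul_zero, zero_smul]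
  rw [if_pos (hv a b h1 h2), smul_zero]

private theorem Sys_P1 (h : Spl R A x1 x2 z S T Pp c J0 g1 g2) {v w : I → ℝ}
    (hv : ∀ a b, v a ≠ 0 → w b ≠ 0 → ¬(a ∈ A ↔ b ∈ A)) : Pp (R.zz v w) = R.zz v w := by
  unfold Rp.zz
  rw [map_sum]
  refine Finset.sum_congr rfl fun a _ => ?_
  rw [map_sum]
  refine Finset.sum_congr rfl fun b _ => ?_
  rw [map_smul, h.pe]
  by_cases h1 : v a = 0
  · rw [h1, zero_mul, zero_smul, zero_smul]
  by_cases h2 : w b = 0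
  · rw [h2, mul_zero, zero_smul, zero_smul]
  rw [if_neg (hv a b h1 h2)]

private theorem Sys_FO0 (u1 u2 : ℝ) (U : L →ₗ[ℝ] L) : R.FO A u1 u2 U 0 = 0 := by
  unfold Rp.FO SLb FAb
  rw [map_zero]
  simp

end

private theorem Sys_arith {c0 y1 y2 a V ε t1 t1' t2 t2' q1 q1' q2 q2' : ℝ} (hy1 : 0 ≤ y1)
    (hy1' : y1 ≤ c0) (hy2 : 0 ≤ y2) (hy2' : y2 ≤ c0) (ha : 0 ≤ a) (ha1 : a ≤ 1) (hV : 0 ≤ V)
    (hε : 0 ≤ ε) (h1 : |t1' - t1| ≤ ε) (h2 : |t2' - t2| ≤ ε) (h3 : |q1' - q1| ≤ ε * V)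
    (h4 : |q2' - q2| ≤ ε * V) :
    |((y1 * t1' + t2') * V + a * (q1' + y2 * q2')) - ((y1 * t1 + t2) * V + a * (q1 + y2 * q2))| ≤
      2 * (c0 + 1) * ε * V := by
  have e : ((y1 * t1' + t2') * V + a * (q1' + y2 * q2')) -
      ((y1 * t1 + t2) * V + a * (q1 + y2 * q2)) =
      y1 * (t1' - t1) * V + (t2' - t2) * V + (a * (q1' - q1) + a * y2 * (q2' - q2)) := by ring
  rw [e]
  have hεV : 0 ≤ ε * V := mul_nonneg hε hV
  have hc : 0 ≤ c0 := hy1.trans hy1'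
  have g1 : |y1 * (t1' - t1) * V| ≤ c0 * (ε * V) := by
    rw [abs_mul, abs_mul, abs_of_nonneg hy1, abs_of_nonneg hV]
    calc y1 * |t1' - t1| * V ≤ c0 * ε * V := by gcongr
      _ = c0 * (ε * V) := by ring
  have g2 : |(t2' - t2) * V| ≤ ε * V := by
    rw [abs_mul, abs_of_nonneg hV]
    gcongr
  have g3 : |a * (q1' - q1)| ≤ ε * V := by
    rw [abs_mul, abs_of_nonneg ha]
    calc a * |q1' - q1| ≤ 1 * (ε * V) := by gcongr
      _ = ε * V := one_mul _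
  have g4 : |a * y2 * (q2' - q2)| ≤ c0 * (ε * V) := by
    rw [abs_mul, abs_mul, abs_of_nonneg ha, abs_of_nonneg hy2]
    calc a * y2 * |q2' - q2| ≤ 1 * c0 * (ε * V) := by gcongr
      _ = c0 * (ε * V) := by ring
  have g5 := abs_add_le (y1 * (t1' - t1) * V + (t2' - t2) * V)
    (a * (q1' - q1) + a * y2 * (q2' - q2))
  have g6 := abs_add_le (y1 * (t1' - t1) * V) ((t2' - t2) * V)
  have g7 := abs_add_le (a * (q1' - q1)) (a * y2 * (q2' - q2))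
  linarith

theorem esys_of_ell (c0 : ℝ) (m : ℕ) : ∃ C : ℝ, 1 ≤ C ∧ ∀ (L : Type) [LieRing L] [LieAlgebra ℝ L]
    [Module.Finite ℝ L] (I : Type) [Fintype I] [DecidableEq I] (R : Rp L I m) (A : Finset I)
    (x1 x2 z : ℝ) (S T Pp : L →ₗ[ℝ] L) (c : L) (J0 : Matrix I I ℝ) (g1 g2 : ℝ),
    Spl R A x1 x2 z S T Pp c J0 g1 g2 → Bnd I m A x1 x2 z c0 →
    ∀ (D : L →ₗ[ℝ] L) (lam mu δ : ℝ), |lam| ≤ c0 → |mu| ≤ c0 → DD S T Pp D (lam - mu) δ →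
    ∀ (β : L →ₗ[ℝ] L) (s b : ℝ), QSym β → (∀ x, β (Pp x) = Pp (β x)) → 0 ≤ s → 0 ≤ b →
      NBL β b → (∀ y, |ellQG S T D lam β y| ≤ s * Qf L y y) →
      ESys I A x1 x2 lam mu (C * (s + (1 / Fintype.card I + δ) * b)) (R.rh A β)
        (R.rh Aᶜ β) := by
  obtain ⟨C1, hC1, hell⟩ := ell_form c0 m
  obtain ⟨C2, hC2, hFO⟩ := Sys_FO c0 m
  obtain ⟨C3, hC3, hTUT⟩ := rh_TUT c0 m
  refine ⟨2 * (m + 1) * (1 + C1) + 2 * (C2 + C2 * c0 ^ 2 + (|c0| + 1) * C3), ?_, ?_⟩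
  · have hm : (0 : ℝ) ≤ m := Nat.cast_nonneg m
    have h2 : (0 : ℝ) ≤ C2 * c0 ^ 2 := by positivity
    have h3 : 0 ≤ (|c0| + 1) * C3 := by positivity
    nlinarith
  intro L _ _ _ I _ _ R A x1 x2 z S T Pp c J0 g1 g2 hS hB D lam mu δ hlam hmu hD β s b hβ hβP hs hb
    hβb hE
  have hc0 : 1 ≤ c0 := hB.c1
  have hc00 : 0 < c0 := by linarith
  rw [abs_of_pos hc00]
  have hM := hB.M1
  have hM0 : 0 < (Fintype.card I : ℝ) := (R.n_bd hM).2.2.1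
  have hm : (0 : ℝ) ≤ m := Nat.cast_nonneg m
  have hδ := hD.δ0
  obtain ⟨κ, hκ⟩ : ∃ κ : ℝ, κ = C1 * (1 / Fintype.card I + δ) * b := ⟨_, rfl⟩
  have hκ0 : 0 ≤ κ := by rw [hκ]; positivity
  obtain ⟨hU's, hU'b⟩ := NBL_TUT hS hB hβ hb hβb
  have hU'P : ∀ x, (T ∘ₗ β ∘ₗ T) (Pp x) = Pp ((T ∘ₗ β ∘ₗ T) x) := by
    intro x
    simp only [LinearMap.comp_apply]
    rw [hS.TP, hβP, hS.TP, hS.PT, ← hβP, ← hβP, hS.PT]
  have hb' : 0 ≤ c0 ^ 2 * b := by positivity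
  -- sizes of the scales
  have hx1 : |x1| ≤ c0 := by rw [abs_of_pos hS.x1p]; exact hB.x1u
  have hx2 : |x2| ≤ c0 := by rw [abs_of_pos hS.x2p]; exact hB.x2u
  have hy1p : 0 < 1 / x1 := one_div_pos.2 hS.x1p
  have hy2p : 0 < 1 / x2 := one_div_pos.2 hS.x2p
  have hy1c : 1 / x1 ≤ c0 := by
    have h1 := one_div_le_one_div_of_le (one_div_pos.2 hc00) hB.x1l
    rwa [one_div_one_div] at h1
  have hy2c : 1 / x2 ≤ c0 := by
    have h1 := one_div_le_one_div_of_le (one_div_pos.2 hc00) hB.x2l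
    rwa [one_div_one_div] at h1
  have hy1 : |1 / x1| ≤ c0 := by rw [abs_of_pos hy1p]; exact hy1c
  have hy2 : |1 / x2| ≤ c0 := by rw [abs_of_pos hy2p]; exact hy2c
  have hxy : x1 = x2 → 1 / x1 = 1 / x2 := fun h => by rw [h]
  -- the expression of `ell_form`
  have hE0 : ∀ y, |-lam * Qf L (β y) y + (lam - mu) * Qf L (β (Pp y)) (Pp y) -
          1 / 2 * (R.FO A x1 x2 β (Pp y) - R.FO A (1 / x1) (1 / x2) (T ∘ₗ β ∘ₗ T) (Pp y)) +
          1 / 2 * R.FO A (1 / x1) (1 / x2) β y| ≤ (s + κ) * Qf L y y := by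
    intro y
    have h1 := hell L I R A x1 x2 z S T Pp c J0 g1 g2 hS hB D lam mu δ hD β b hβ hβP hb hβb y
    have h2 := hE y
    rw [← hκ] at h1
    rw [abs_le] at h1 h2 ⊢
    constructor
    · linarith [h1.1, h1.2, h2.1, h2.2]
    · linarith [h1.1, h1.2, h2.1, h2.2]
  have hcontr := fun (B : Finset I) (v : I → ℝ) => R.contr_le hM (add_nonneg hs hκ0) hE0 B v
  have hvv : ∀ v : I → ℝ, 0 ≤ v ⬝ᵥ v := fun v =>
    Finset.sum_nonneg fun i _ => mul_self_nonneg (v i)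
  -- equal blocks
  have same : ∀ (B : Finset I) (pB qB : ℝ),
      ((B = A ∧ pB = 1 / x1 ∧ qB = 1) ∨ (B = Aᶜ ∧ pB = 1 ∧ qB = 1 / x2)) →
      ∀ v : I → ℝ, (∀ i, i ∉ B → v i = 0) →
      |-lam * (v ⬝ᵥ (R.rh B β *ᵥ v)) + 1 / 2 * (1 / 2 * ((pB * ta B (R.rh A β) +
        qB * ta B (R.rh Aᶜ β)) * (v ⬝ᵥ v) + (B.card : ℝ) / Fintype.card I *
          (pB * (v ⬝ᵥ (R.rh A β *ᵥ v)) + qB * (v ⬝ᵥ (R.rh Aᶜ β *ᵥ v)))))| ≤
        2 * (m + 1) * (s + κ) * (v ⬝ᵥ v) + C2 / Fintype.card I * b * (v ⬝ᵥ v) := by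
    intro B pB qB hBB v hv
    have h1 := hcontr B v
    have h2 := hFO L I R A x1 x2 z S T Pp c J0 g1 g2 hS hB β b hβ hβP hb hβb (1 / x1) (1 / x2)
      hy1 hy2 hxy B B pB qB pB qB hBB hBB v hv
    have h3 : 1 / R.n ^ 2 * ∑ b' ∈ B, (-lam * Qf L (β (R.zz v (Pi.single b' 1)))
          (R.zz v (Pi.single b' 1)) + (lam - mu) * Qf L (β (Pp (R.zz v (Pi.single b' 1))))
            (Pp (R.zz v (Pi.single b' 1))) -
          1 / 2 * (R.FO A x1 x2 β (Pp (R.zz v (Pi.single b' 1))) -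
            R.FO A (1 / x1) (1 / x2) (T ∘ₗ β ∘ₗ T) (Pp (R.zz v (Pi.single b' 1)))) +
          1 / 2 * R.FO A (1 / x1) (1 / x2) β (R.zz v (Pi.single b' 1))) =
        -lam * (v ⬝ᵥ (R.rh B β *ᵥ v)) + 1 / 2 * (1 / R.n ^ 2 * ∑ b' ∈ B,
          R.FO A (1 / x1) (1 / x2) β (R.zz v (Pi.single b' 1))) := by
      rw [R.rh_quad]
      have h4 : ∀ b' ∈ B, (-lam * Qf L (β (R.zz v (Pi.single b' 1)))
          (R.zz v (Pi.single b' 1)) + (lam - mu) * Qf L (β (Pp (R.zz v (Pi.single b' 1))))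
            (Pp (R.zz v (Pi.single b' 1))) -
          1 / 2 * (R.FO A x1 x2 β (Pp (R.zz v (Pi.single b' 1))) -
            R.FO A (1 / x1) (1 / x2) (T ∘ₗ β ∘ₗ T) (Pp (R.zz v (Pi.single b' 1)))) +
          1 / 2 * R.FO A (1 / x1) (1 / x2) β (R.zz v (Pi.single b' 1))) =
          -lam * Qf L (β (R.zz v (Pi.single b' 1))) (R.zz v (Pi.single b' 1)) +
          1 / 2 * R.FO A (1 / x1) (1 / x2) β (R.zz v (Pi.single b' 1)) := by
        intro b' hb'B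
        have h5 : Pp (R.zz v (Pi.single b' 1)) = 0 := by
          refine Sys_P0 hS fun a d ha hd => ?_
          have ha' : a ∈ B := by
            by_contra h
            exact ha (hv a h)
          have hd' : d = b' := by
            by_contra h
            exact hd (Pi.single_eq_of_ne h _)
          rw [hd']
          rcases hBB with h6 | h6
          · rw [h6.1] at ha' hb'B
            exact ⟨fun _ => hb'B, fun _ => ha'⟩
          · rw [h6.1, Finset.mem_compl] at ha' hb'B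
            exact ⟨fun h => absurd h ha', fun h => absurd h hb'B⟩
        rw [h5, Sys_FO0, Sys_FO0]
        simp
      rw [Finset.sum_congr rfl h4, Finset.sum_add_distrib, ← Finset.mul_sum, ← Finset.mul_sum]
      ring
    rw [h3] at h1
    have hpos : 0 ≤ C2 / Fintype.card I * b * (v ⬝ᵥ v) := by
      have := hvv v
      positivity
    rw [abs_le] at h1 h2 ⊢
    constructor
    · linarith [h1.1, h1.2, h2.1, h2.2]
    · linarith [h1.1, h1.2, h2.1, h2.2]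
  -- different blocks
  have mixed : ∀ (K B : Finset I) (pK qK pB qB pK' qK' pB' qB' : ℝ),
      ((K = A ∧ B = Aᶜ ∧ pK = x1 ∧ qK = 1 ∧ pB = 1 ∧ qB = x2 ∧ pK' = 1 / x1 ∧ qK' = 1 ∧ pB' = 1 ∧
        qB' = 1 / x2) ∨ (K = Aᶜ ∧ B = A ∧ pK = 1 ∧ qK = x2 ∧ pB = x1 ∧ qB = 1 ∧ pK' = 1 ∧
        qK' = 1 / x2 ∧ pB' = 1 / x1 ∧ qB' = 1)) →
      ∀ v : I → ℝ, (∀ i, i ∉ K → v i = 0) →
      |-mu * (v ⬝ᵥ (R.rh B β *ᵥ v)) - 1 / 2 * (1 / 2 * ((pK * ta B (R.rh A β) +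
        qK * ta B (R.rh Aᶜ β)) * (v ⬝ᵥ v) + (B.card : ℝ) / Fintype.card I *
          (pB * (v ⬝ᵥ (R.rh A β *ᵥ v)) + qB * (v ⬝ᵥ (R.rh Aᶜ β *ᵥ v))))) +
        1 / 2 * (1 / 2 * ((pK' * ta B (R.rh A (T ∘ₗ β ∘ₗ T)) +
        qK' * ta B (R.rh Aᶜ (T ∘ₗ β ∘ₗ T))) * (v ⬝ᵥ v) + (B.card : ℝ) / Fintype.card I *
          (pB' * (v ⬝ᵥ (R.rh A (T ∘ₗ β ∘ₗ T) *ᵥ v)) +
            qB' * (v ⬝ᵥ (R.rh Aᶜ (T ∘ₗ β ∘ₗ T) *ᵥ v))))) +
        1 / 2 * (1 / 2 * ((pK' * ta B (R.rh A β) +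
        qK' * ta B (R.rh Aᶜ β)) * (v ⬝ᵥ v) + (B.card : ℝ) / Fintype.card I *
          (pB' * (v ⬝ᵥ (R.rh A β *ᵥ v)) + qB' * (v ⬝ᵥ (R.rh Aᶜ β *ᵥ v)))))| ≤
        2 * (m + 1) * (s + κ) * (v ⬝ᵥ v) + (C2 / Fintype.card I * b * (v ⬝ᵥ v) +
          1 / 2 * (C2 / Fintype.card I * (c0 ^ 2 * b) * (v ⬝ᵥ v))) := by
    intro K B pK qK pB qB pK' qK' pB' qB' hKB v hv
    have k1 : (K = A ∧ pK = x1 ∧ qK = 1) ∨ (K = Aᶜ ∧ pK = 1 ∧ qK = x2) := by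
      rcases hKB with h | h
      · exact Or.inl ⟨h.1, h.2.2.1, h.2.2.2.1⟩
      · exact Or.inr ⟨h.1, h.2.2.1, h.2.2.2.1⟩
    have k2 : (B = A ∧ pB = x1 ∧ qB = 1) ∨ (B = Aᶜ ∧ pB = 1 ∧ qB = x2) := by
      rcases hKB with h | h
      · exact Or.inr ⟨h.2.1, h.2.2.2.2.1, h.2.2.2.2.2.1⟩
      · exact Or.inl ⟨h.2.1, h.2.2.2.2.1, h.2.2.2.2.2.1⟩
    have k3 : (K = A ∧ pK' = 1 / x1 ∧ qK' = 1) ∨ (K = Aᶜ ∧ pK' = 1 ∧ qK' = 1 / x2) := by
      rcases hKB with h | h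
      · exact Or.inl ⟨h.1, h.2.2.2.2.2.2.1, h.2.2.2.2.2.2.2.1⟩
      · exact Or.inr ⟨h.1, h.2.2.2.2.2.2.1, h.2.2.2.2.2.2.2.1⟩
    have k4 : (B = A ∧ pB' = 1 / x1 ∧ qB' = 1) ∨ (B = Aᶜ ∧ pB' = 1 ∧ qB' = 1 / x2) := by
      rcases hKB with h | h
      · exact Or.inr ⟨h.2.1, h.2.2.2.2.2.2.2.2.1, h.2.2.2.2.2.2.2.2.2⟩
      · exact Or.inl ⟨h.2.1, h.2.2.2.2.2.2.2.2.1, h.2.2.2.2.2.2.2.2.2⟩
    have h1 := hcontr B v
    have h2 := hFO L I R A x1 x2 z S T Pp c J0 g1 g2 hS hB β b hβ hβP hb hβb x1 x2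
      hx1 hx2 id K B pK qK pB qB k1 k2 v hv
    have h3 := hFO L I R A x1 x2 z S T Pp c J0 g1 g2 hS hB β b hβ hβP hb hβb (1 / x1) (1 / x2)
      hy1 hy2 hxy K B pK' qK' pB' qB' k3 k4 v hv
    have h4 := hFO L I R A x1 x2 z S T Pp c J0 g1 g2 hS hB (T ∘ₗ β ∘ₗ T) (c0 ^ 2 * b) hU's hU'P
      hb' hU'b (1 / x1) (1 / x2) hy1 hy2 hxy K B pK' qK' pB' qB' k3 k4 v hv
    have h5 : 1 / R.n ^ 2 * ∑ b' ∈ B, (-lam * Qf L (β (R.zz v (Pi.single b' 1)))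
          (R.zz v (Pi.single b' 1)) + (lam - mu) * Qf L (β (Pp (R.zz v (Pi.single b' 1))))
            (Pp (R.zz v (Pi.single b' 1))) -
          1 / 2 * (R.FO A x1 x2 β (Pp (R.zz v (Pi.single b' 1))) -
            R.FO A (1 / x1) (1 / x2) (T ∘ₗ β ∘ₗ T) (Pp (R.zz v (Pi.single b' 1)))) +
          1 / 2 * R.FO A (1 / x1) (1 / x2) β (R.zz v (Pi.single b' 1))) =
        -mu * (v ⬝ᵥ (R.rh B β *ᵥ v)) -
          1 / 2 * (1 / R.n ^ 2 * ∑ b' ∈ B, R.FO A x1 x2 β (R.zz v (Pi.single b' 1))) +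
          1 / 2 * (1 / R.n ^ 2 * ∑ b' ∈ B,
            R.FO A (1 / x1) (1 / x2) (T ∘ₗ β ∘ₗ T) (R.zz v (Pi.single b' 1))) +
          1 / 2 * (1 / R.n ^ 2 * ∑ b' ∈ B,
            R.FO A (1 / x1) (1 / x2) β (R.zz v (Pi.single b' 1))) := by
      rw [R.rh_quad]
      have h6 : ∀ b' ∈ B, (-lam * Qf L (β (R.zz v (Pi.single b' 1)))
          (R.zz v (Pi.single b' 1)) + (lam - mu) * Qf L (β (Pp (R.zz v (Pi.single b' 1))))
            (Pp (R.zz v (Pi.single b' 1))) -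
          1 / 2 * (R.FO A x1 x2 β (Pp (R.zz v (Pi.single b' 1))) -
            R.FO A (1 / x1) (1 / x2) (T ∘ₗ β ∘ₗ T) (Pp (R.zz v (Pi.single b' 1)))) +
          1 / 2 * R.FO A (1 / x1) (1 / x2) β (R.zz v (Pi.single b' 1))) =
          -mu * Qf L (β (R.zz v (Pi.single b' 1))) (R.zz v (Pi.single b' 1)) +
          (-(1 / 2)) * R.FO A x1 x2 β (R.zz v (Pi.single b' 1)) +
          1 / 2 * R.FO A (1 / x1) (1 / x2) (T ∘ₗ β ∘ₗ T) (R.zz v (Pi.single b' 1)) +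
          1 / 2 * R.FO A (1 / x1) (1 / x2) β (R.zz v (Pi.single b' 1)) := by
        intro b' hb'B
        have h7 : Pp (R.zz v (Pi.single b' 1)) = R.zz v (Pi.single b' 1) := by
          refine Sys_P1 hS fun a d ha hd => ?_
          have ha' : a ∈ K := by
            by_contra h
            exact ha (hv a h)
          have hd' : d = b' := by
            by_contra h
            exact hd (Pi.single_eq_of_ne h _)
          rw [hd']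
          rcases hKB with h8 | h8
          · rw [h8.1] at ha'
            rw [h8.2.1, Finset.mem_compl] at hb'B
            exact fun h => hb'B (h.1 ha')
          · rw [h8.1, Finset.mem_compl] at ha'
            rw [h8.2.1] at hb'B
            exact fun h => ha' (h.2 hb'B)
        rw [h7]
        ring
      rw [Finset.sum_congr rfl h6, Finset.sum_add_distrib, Finset.sum_add_distrib,
        Finset.sum_add_distrib, ← Finset.mul_sum, ← Finset.mul_sum, ← Finset.mul_sum,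
        ← Finset.mul_sum]
      ring
    rw [h5] at h1
    rw [abs_le] at h1 h2 h3 h4 ⊢
    constructor
    · linarith [h1.1, h1.2, h2.1, h2.2, h3.1, h3.2, h4.1, h4.2]
    · linarith [h1.1, h1.2, h2.1, h2.2, h3.1, h3.2, h4.1, h4.2]
  -- the contractions of `T β T`
  obtain ⟨ε, hε⟩ : ∃ ε : ℝ, ε = C3 / Fintype.card I * b := ⟨_, rfl⟩
  have hε0 : 0 ≤ ε := by rw [hε]; positivity
  have hq : ∀ (v : I → ℝ) (K B : Finset I) (w : ℝ),
      ((K = A ∧ B = A ∧ w = x1) ∨ (K = Aᶜ ∧ B = Aᶜ ∧ w = x2) ∨ (K = A ∧ B = Aᶜ ∧ w = 1) ∨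
        (K = Aᶜ ∧ B = A ∧ w = 1)) → (∀ i, i ∉ K → v i = 0) →
      |v ⬝ᵥ (R.rh B (T ∘ₗ β ∘ₗ T) *ᵥ v) - w ^ 2 * (v ⬝ᵥ (R.rh B β *ᵥ v))| ≤ ε * (v ⬝ᵥ v) := by
    intro v K B w h1 h2
    rw [hε]
    exact hTUT L I R A x1 x2 z S T Pp c J0 g1 g2 hS hB β b hβ hb hβb v K B w h1 h2
  have ht : ∀ (K B : Finset I) (w : ℝ),
      ((K = A ∧ B = A ∧ w = x1) ∨ (K = Aᶜ ∧ B = Aᶜ ∧ w = x2) ∨ (K = A ∧ B = Aᶜ ∧ w = 1) ∨
        (K = Aᶜ ∧ B = A ∧ w = 1)) →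
      |ta K (R.rh B (T ∘ₗ β ∘ₗ T)) - w ^ 2 * ta K (R.rh B β)| ≤ ε := by
    intro K B w h1
    refine Sys_ta_le hM0 hε0 fun i hi => ?_
    have h2 := hq (Pi.single i 1) K B w h1 (fun j hj => Pi.single_eq_of_ne (fun h => hj (by
      rw [h]; exact hi)) _)
    rw [Sys_single, Sys_single, Sys_single1, mul_one] at h2
    exact h2
  have hcard : ∀ B : Finset I, 0 ≤ (B.card : ℝ) / Fintype.card I ∧
      (B.card : ℝ) / Fintype.card I ≤ 1 := by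
    intro B
    refine ⟨by positivity, ?_⟩
    rw [div_le_one hM0]
    exact_mod_cast Finset.card_le_univ B
  -- the constants
  have hfin : ∀ V : ℝ, 0 ≤ V → 2 * (m + 1) * (s + κ) * V + (C2 / Fintype.card I * b * V +
          1 / 2 * (C2 / Fintype.card I * (c0 ^ 2 * b) * V)) + 1 / 4 * (2 * (c0 + 1) * ε * V) ≤
      (2 * (m + 1) * (1 + C1) + 2 * (C2 + C2 * c0 ^ 2 + (c0 + 1) * C3)) *
        (s + (1 / Fintype.card I + δ) * b) * V := by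
    intro V hV
    refine (le_of_eq ?_).trans (mul_le_mul_of_nonneg_right (?_ : 2 * (m + 1) * (s + κ) +
      (C2 / Fintype.card I * b + 1 / 2 * (C2 / Fintype.card I * (c0 ^ 2 * b))) +
      1 / 4 * (2 * (c0 + 1) * ε) ≤ _) hV)
    · ring
    · have g1 : 0 ≤ 1 / (Fintype.card I : ℝ) * b := by positivity
      have g2 : 0 ≤ δ * b := by positivity
      have g3 : κ = C1 * (1 / (Fintype.card I : ℝ) * b) + C1 * (δ * b) := by rw [hκ]; ring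
      have g4 : ε = C3 * (1 / (Fintype.card I : ℝ) * b) := by rw [hε]; ring
      have g5 : C2 / (Fintype.card I : ℝ) * b = C2 * (1 / (Fintype.card I : ℝ) * b) := by ring
      have g6 : C2 / (Fintype.card I : ℝ) * (c0 ^ 2 * b) =
          C2 * c0 ^ 2 * (1 / (Fintype.card I : ℝ) * b) := by ring
      have g7 : s + (1 / (Fintype.card I : ℝ) + δ) * b =
          s + 1 / (Fintype.card I : ℝ) * b + δ * b := by ring
      rw [g3, g4, g5, g6, g7]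
      obtain ⟨u, hu⟩ : ∃ u : ℝ, u = 1 / (Fintype.card I : ℝ) * b := ⟨_, rfl⟩
      obtain ⟨d, hd⟩ : ∃ d : ℝ, d = δ * b := ⟨_, rfl⟩
      rw [← hu] at g1 ⊢
      rw [← hd] at g2 ⊢
      have e1 : 0 ≤ (2 * (m + 1) * C1) * s := by positivity
      have e2 : 0 ≤ (2 * ((m : ℝ) + 1)) * u := by positivity
      have e3 : 0 ≤ (2 * ((m : ℝ) + 1)) * d := by positivity
      have e4 : 0 ≤ 2 * (C2 + C2 * c0 ^ 2 + (c0 + 1) * C3) * s := by positivity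
      have e5 : 0 ≤ 2 * (C2 + C2 * c0 ^ 2 + (c0 + 1) * C3) * d := by positivity
      have e6 : 0 ≤ C2 * u := by positivity
      have e7 : 0 ≤ C2 * c0 ^ 2 * u := by positivity
      have e8 : 0 ≤ (c0 + 1) * C3 * u := by positivity
      have e9 : (2 * (m + 1) * (1 + C1) + 2 * (C2 + C2 * c0 ^ 2 + (c0 + 1) * C3)) *
          (s + u + d) - (2 * (m + 1) * (s + (C1 * u + C1 * d)) +
          (C2 * u + 1 / 2 * (C2 * c0 ^ 2 * u)) + 1 / 4 * (2 * (c0 + 1) * (C3 * u))) =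
          (2 * (m + 1) * C1) * s + (2 * ((m : ℝ) + 1)) * u + (2 * ((m : ℝ) + 1)) * d +
          2 * (C2 + C2 * c0 ^ 2 + (c0 + 1) * C3) * s +
          2 * (C2 + C2 * c0 ^ 2 + (c0 + 1) * C3) * d + C2 * u + 3 / 2 * (C2 * c0 ^ 2 * u) +
          3 / 2 * ((c0 + 1) * C3 * u) := by ring
      linarith
  have hpos : ∀ V : ℝ, 0 ≤ V → 0 ≤ 1 / 2 * (C2 / Fintype.card I * (c0 ^ 2 * b) * V) ∧
      0 ≤ 1 / 4 * (2 * (c0 + 1) * ε * V) := by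
    intro V hV
    constructor <;> positivity
  refine ⟨R.rh_symm hβ A, R.rh_symm hβ Aᶜ, fun i j hij => hS.rh_diag hβP A (Or.inl rfl) hij,
    fun i j hij => hS.rh_diag hβP Aᶜ (Or.inr rfl) hij, R.rh_tr hβ A, ?_, ?_, ?_, ?_⟩
  · intro v hv
    have h1 := same A (1 / x1) 1 (Or.inl ⟨rfl, rfl, rfl⟩) v hv
    have h2 := hfin _ (hvv v)
    have h3 := hpos _ (hvv v)
    refine le_trans (le_of_eq ?_) (h1.trans (by linarith [h3.1, h3.2]))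
    congr 1
    unfold bf
    ring
  · intro v hv
    have h1 := same Aᶜ 1 (1 / x2) (Or.inr ⟨rfl, rfl, rfl⟩) v hv
    have h2 := hfin _ (hvv v)
    have h3 := hpos _ (hvv v)
    refine le_trans (le_of_eq ?_) (h1.trans (by linarith [h3.1, h3.2]))
    congr 1
    unfold bf
    ring
  · intro v hv
    have h1 := mixed A Aᶜ x1 1 1 x2 (1 / x1) 1 1 (1 / x2)
      (Or.inl ⟨rfl, rfl, rfl, rfl, rfl, rfl, rfl, rfl, rfl, rfl⟩) v hv
    have h2 := hfin _ (hvv v)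
    have r1 := hq v A A x1 (Or.inl ⟨rfl, rfl, rfl⟩) hv
    have r2 := hq v A Aᶜ 1 (Or.inr (Or.inr (Or.inl ⟨rfl, rfl, rfl⟩))) hv
    have r3 := ht Aᶜ A 1 (Or.inr (Or.inr (Or.inr ⟨rfl, rfl, rfl⟩)))
    have r4 := ht Aᶜ Aᶜ x2 (Or.inr (Or.inl ⟨rfl, rfl, rfl⟩))
    have r5 := Sys_arith hy1p.le hy1c hy2p.le hy2c (hcard Aᶜ).1 (hcard Aᶜ).2 (hvv v) hε0
      r3 r4 r1 r2
    rw [abs_le] at h1 r5 ⊢
    constructor
    · linarith [h1.1, h1.2, r5.1, r5.2]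
    · linarith [h1.1, h1.2, r5.1, r5.2]
  · intro v hv
    have h1 := mixed Aᶜ A 1 x2 x1 1 1 (1 / x2) (1 / x1) 1
      (Or.inr ⟨rfl, rfl, rfl, rfl, rfl, rfl, rfl, rfl, rfl, rfl⟩) v hv
    have h2 := hfin _ (hvv v)
    have r1 := hq v Aᶜ Aᶜ x2 (Or.inr (Or.inl ⟨rfl, rfl, rfl⟩)) hv
    have r2 := hq v Aᶜ A 1 (Or.inr (Or.inr (Or.inr ⟨rfl, rfl, rfl⟩))) hv
    have r3 := ht A Aᶜ 1 (Or.inr (Or.inr (Or.inl ⟨rfl, rfl, rfl⟩)))
    have r4 := ht A A x1 (Or.inl ⟨rfl, rfl, rfl⟩)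
    have r5 := Sys_arith hy2p.le hy2c hy1p.le hy1c (hcard A).1 (hcard A).2 (hvv v) hε0
      r3 r4 r1 r2
    rw [abs_le] at h1 r5 ⊢
    constructor
    · linarith [h1.1, h1.2, r5.1, r5.2]
    · linarith [h1.1, h1.2, r5.1, r5.2]

end Pool.Agent.EinV
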