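import Pool.Agent.EinV.Defs

/-!
# Norms of matrices and tensors

All statements are versions of the Cauchy-Schwarz inequality for sums over two or four indices (reduce to
`Finset.sum_mul_sq_le_sq_mul_sq` on `Finset.univ : Finset (I × I)` or `I × I × I × I`, or apply
`Real.inner` ... ; `mn`, `hs` are the Euclidean norms).

`FAb_le`: after renaming, `FAb w t Z Z'` is the pairing of `t` with `X a d b c = (w b d + w a c) * Z a b * Z' c d`,
whose norm is at most `2 c * mn Z * mn Z'`.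

`FAb_rank`: split `w = wt A u v s` into its four blocks; for each block the sum over `w b d` is
`t (p, q' restricted to the block of d | q restricted to the block of b, p')`, to which `N1` applies with the
rank one matrices `vecMulVec p q'`, `vecMulVec q p'` (`mn (vecMulVec p q) ^ 2 = (p ⬝ᵥ p) * (q ⬝ᵥ q)`).

`hs_of_N1`: for fixed `a b` the matrix `t a b` has norm at most `s` (`N1` with a matrix unit and `t a b` itself).
-/

namespace Pool.Agent.EinV

open Matrix Pool.Agent.EStab Pool.Agent.EinS Pool.Agent.SmIso Pool.Agent.EinU Pool.Agent.EinG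

section gen

variable {κ : Type} [Fintype κ]

private theorem Ten_cs (f g : κ → ℝ) :
    |∑ i, f i * g i| ≤ √(∑ i, f i ^ 2) * √(∑ i, g i ^ 2) := by
  rw [← Real.sqrt_mul (Finset.sum_nonneg fun i _ => sq_nonneg (f i))]
  exact Real.abs_le_sqrt (Finset.sum_mul_sq_le_sq_mul_sq Finset.univ f g)

private theorem Ten_tri (f g : κ → ℝ) :
    √(∑ i, (f i + g i) ^ 2) ≤ √(∑ i, f i ^ 2) + √(∑ i, g i ^ 2) := by
  have hf : 0 ≤ ∑ i, f i ^ 2 := Finset.sum_nonneg fun i _ => sq_nonneg (f i)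
  have hg : 0 ≤ ∑ i, g i ^ 2 := Finset.sum_nonneg fun i _ => sq_nonneg (g i)
  rw [Real.sqrt_le_left (by positivity)]
  have h1 : ∑ i, (f i + g i) ^ 2 = ∑ i, f i ^ 2 + 2 * ∑ i, f i * g i + ∑ i, g i ^ 2 := by
    rw [Finset.mul_sum, ← Finset.sum_add_distrib, ← Finset.sum_add_distrib]
    exact Finset.sum_congr rfl fun i _ => by ring
  have h2 := (abs_le.1 (Ten_cs f g)).2
  have h3 := Real.sq_sqrt hf
  have h4 := Real.sq_sqrt hg
  rw [h1]
  nlinarith

private theorem Ten_smul {C : ℝ} (hC : 0 ≤ C) (f g : κ → ℝ) (h : ∀ i, |g i| ≤ C) :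
    √(∑ i, (g i * f i) ^ 2) ≤ C * √(∑ i, f i ^ 2) := by
  rw [Real.sqrt_le_left (mul_nonneg hC (Real.sqrt_nonneg _)), mul_pow,
    Real.sq_sqrt (Finset.sum_nonneg fun i _ => sq_nonneg (f i)), Finset.mul_sum]
  refine Finset.sum_le_sum fun i _ => ?_
  rw [mul_pow]
  refine mul_le_mul_of_nonneg_right ?_ (sq_nonneg _)
  rw [← sq_abs (g i)]
  exact pow_le_pow_left₀ (abs_nonneg _) (h i) 2

end gen

variable {I : Type} [Fintype I] [DecidableEq I]

private theorem Ten_s2 (F : I → I → ℝ) : ∑ a, ∑ b, F a b = ∑ p : I × I, F p.1 p.2 :=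
  (Fintype.sum_prod_type' F).symm

private theorem Ten_s4 (F : I → I → I → I → ℝ) : ∑ a, ∑ b, ∑ c, ∑ d, F a b c d =
    ∑ p : I × I × I × I, F p.1 p.2.1 p.2.2.1 p.2.2.2 := by
  rw [Fintype.sum_prod_type]
  refine Finset.sum_congr rfl fun a _ => ?_
  rw [Fintype.sum_prod_type]
  refine Finset.sum_congr rfl fun b _ => ?_
  rw [Fintype.sum_prod_type]

theorem mn_nonneg (x : Matrix I I ℝ) : 0 ≤ mn x := Real.sqrt_nonneg _

theorem mn_sq (x : Matrix I I ℝ) : mn x ^ 2 = ∑ a, ∑ b, x a b ^ 2 :=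
  Real.sq_sqrt (Finset.sum_nonneg fun _ _ => Finset.sum_nonneg fun _ _ => sq_nonneg _)

theorem hs_nonneg (t : I → I → I → I → ℝ) : 0 ≤ hs t := Real.sqrt_nonneg _

theorem hs_sq (t : I → I → I → I → ℝ) : hs t ^ 2 = ∑ a, ∑ b, ∑ c, ∑ d, t a b c d ^ 2 :=
  Real.sq_sqrt (Finset.sum_nonneg fun _ _ => Finset.sum_nonneg fun _ _ =>
    Finset.sum_nonneg fun _ _ => Finset.sum_nonneg fun _ _ => sq_nonneg _)

theorem cs_mat (x y : Matrix I I ℝ) : |∑ a, ∑ b, x a b * y a b| ≤ mn x * mn y := by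
  unfold mn
  rw [Ten_s2, Ten_s2, Ten_s2]
  exact Ten_cs (fun p : I × I => x p.1 p.2) (fun p : I × I => y p.1 p.2)

theorem mn_add (x y : Matrix I I ℝ) : mn (x + y) ≤ mn x + mn y := by
  unfold mn
  rw [Ten_s2, Ten_s2, Ten_s2]
  exact Ten_tri (fun p : I × I => x p.1 p.2) (fun p : I × I => y p.1 p.2)

theorem mn_smul (r : ℝ) (x : Matrix I I ℝ) : mn (r • x) = |r| * mn x := by
  unfold mn
  rw [← Real.sqrt_sq_eq_abs, ← Real.sqrt_mul (sq_nonneg r)]
  congr 1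
  rw [Finset.mul_sum]
  refine Finset.sum_congr rfl fun a _ => ?_
  rw [Finset.mul_sum]
  refine Finset.sum_congr rfl fun b _ => ?_
  rw [Matrix.smul_apply, smul_eq_mul, mul_pow]

theorem mn_vec (p q : I → ℝ) : mn (vecMulVec p q) ^ 2 = (p ⬝ᵥ p) * (q ⬝ᵥ q) := by
  rw [mn_sq]
  unfold dotProduct
  rw [Finset.sum_mul_sum]
  refine Finset.sum_congr rfl fun a _ => Finset.sum_congr rfl fun b _ => ?_
  rw [vecMulVec_apply]
  ring

private theorem Ten_dot_nonneg (p : I → ℝ) : 0 ≤ p ⬝ᵥ p :=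
  Finset.sum_nonneg fun i _ => mul_self_nonneg (p i)

private theorem Ten_mn_vec (p q : I → ℝ) : mn (vecMulVec p q) = √(p ⬝ᵥ p) * √(q ⬝ᵥ q) := by
  rw [← Real.sqrt_mul (Ten_dot_nonneg p), ← mn_vec, Real.sqrt_sq (mn_nonneg _)]

theorem cs_hs (t X : I → I → I → I → ℝ) :
    |∑ a, ∑ b, ∑ c, ∑ d, t a b c d * X a b c d| ≤ hs t * hs X := by
  unfold hs
  rw [Ten_s4, Ten_s4, Ten_s4]
  exact Ten_cs (fun p : I × I × I × I => t p.1 p.2.1 p.2.2.1 p.2.2.2)
    (fun p : I × I × I × I => X p.1 p.2.1 p.2.2.1 p.2.2.2)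

theorem hs_add (t t' : I → I → I → I → ℝ) :
    hs (fun a b c d => t a b c d + t' a b c d) ≤ hs t + hs t' := by
  unfold hs
  rw [Ten_s4, Ten_s4, Ten_s4]
  exact Ten_tri (fun p : I × I × I × I => t p.1 p.2.1 p.2.2.1 p.2.2.2)
    (fun p : I × I × I × I => t' p.1 p.2.1 p.2.2.1 p.2.2.2)

theorem hs_mul_le {h t : I → I → I → I → ℝ} {C : ℝ} (hC : 0 ≤ C)
    (hh : ∀ a b c d, |h a b c d| ≤ C) : hs (fun a b c d => h a b c d * t a b c d) ≤ C * hs t := by
  unfold hs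
  rw [Ten_s4, Ten_s4]
  exact Ten_smul hC (fun p : I × I × I × I => t p.1 p.2.1 p.2.2.1 p.2.2.2)
    (fun p : I × I × I × I => h p.1 p.2.1 p.2.2.1 p.2.2.2) fun p => hh _ _ _ _

theorem hs_ten (x y : Matrix I I ℝ) : hs (fun a b c d => x a b * y c d) = mn x * mn y := by
  unfold hs mn
  rw [← Real.sqrt_mul (Finset.sum_nonneg fun _ _ => Finset.sum_nonneg fun _ _ => sq_nonneg _)]
  congr 1
  rw [Finset.sum_mul]
  refine Finset.sum_congr rfl fun a _ => ?_
  rw [Finset.sum_mul]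
  refine Finset.sum_congr rfl fun b _ => ?_
  rw [Finset.mul_sum]
  refine Finset.sum_congr rfl fun c _ => ?_
  rw [Finset.mul_sum]
  refine Finset.sum_congr rfl fun d _ => ?_
  rw [mul_pow]

theorem hs_of_N1 {t : I → I → I → I → ℝ} {s : ℝ} (hs0 : 0 ≤ s) (h : N1 t s) :
    hs t ≤ Fintype.card I * s := by
  have h1 : ∀ a b, ∑ c, ∑ d, t a b c d ^ 2 ≤ s ^ 2 := by
    intro a b
    obtain ⟨y, hy⟩ : ∃ y : Matrix I I ℝ, y = Matrix.of (t a b) := ⟨_, rfl⟩
    have h2 := h (Matrix.single a b 1) y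
    have h3 : ∑ a', ∑ b', ∑ c, ∑ d, t a' b' c d * (Matrix.single a b (1 : ℝ) a' b' * y c d) =
        ∑ c, ∑ d, t a b c d ^ 2 := by
      rw [Finset.sum_eq_single a, Finset.sum_eq_single b]
      · refine Finset.sum_congr rfl fun c _ => Finset.sum_congr rfl fun d _ => ?_
        rw [Matrix.single_apply_same, hy, Matrix.of_apply]
        ring
      · intro b' _ hb'
        refine Finset.sum_eq_zero fun c _ => Finset.sum_eq_zero fun d _ => ?_
        rw [Matrix.single_apply_of_ne _ _ _ _ _ (fun h => hb' h.2.symm)]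
        ring
      · intro h; exact absurd (Finset.mem_univ _) h
      · intro a' _ ha'
        refine Finset.sum_eq_zero fun b' _ => Finset.sum_eq_zero fun c _ =>
          Finset.sum_eq_zero fun d _ => ?_
        rw [Matrix.single_apply_of_ne _ _ _ _ _ (fun h => ha' h.1.symm)]
        ring
      · intro h; exact absurd (Finset.mem_univ _) h
    have h4 : mn (Matrix.single a b (1 : ℝ)) = 1 := by
      unfold mn
      have : ∑ a', ∑ b', Matrix.single a b (1 : ℝ) a' b' ^ 2 = 1 := by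
        rw [Finset.sum_eq_single a, Finset.sum_eq_single b]
        · rw [Matrix.single_apply_same]; norm_num
        · intro b' _ hb'
          rw [Matrix.single_apply_of_ne _ _ _ _ _ (fun h => hb' h.2.symm)]
          norm_num
        · intro h; exact absurd (Finset.mem_univ _) h
        · intro a' _ ha'
          refine Finset.sum_eq_zero fun b' _ => ?_
          rw [Matrix.single_apply_of_ne _ _ _ _ _ (fun h => ha' h.1.symm)]
          norm_num
        · intro h; exact absurd (Finset.mem_univ _) h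
      rw [this, Real.sqrt_one]
    have h5 : ∑ c, ∑ d, t a b c d ^ 2 = mn y ^ 2 := by
      rw [mn_sq, hy]
      rfl
    rw [h3, h4, one_mul, h5, abs_of_nonneg (sq_nonneg _)] at h2
    rw [h5]
    have h6 := mn_nonneg y
    have h7 : mn y ≤ s := by
      by_contra hcon
      push Not at hcon
      have : 0 < mn y := hs0.trans_lt hcon
      nlinarith
    exact pow_le_pow_left₀ h6 h7 2
  unfold hs
  rw [Real.sqrt_le_left (by positivity)]
  calc ∑ a, ∑ b, ∑ c, ∑ d, t a b c d ^ 2 ≤ ∑ _a : I, ∑ _b : I, s ^ 2 :=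
        Finset.sum_le_sum fun a _ => Finset.sum_le_sum fun b _ => h1 a b
    _ = (Fintype.card I * s) ^ 2 := by
      rw [Finset.sum_const, Finset.sum_const, Finset.card_univ, nsmul_eq_mul, nsmul_eq_mul]
      ring

private theorem Ten_comm (F : I → I → I → I → ℝ) : ∑ a, ∑ b, ∑ c, ∑ d, F a b c d =
    ∑ a, ∑ d, ∑ b, ∑ c, F a b c d := by
  refine Finset.sum_congr rfl fun a _ => ?_
  have h1 : ∀ b, ∑ c, ∑ d, F a b c d = ∑ d, ∑ c, F a b c d := fun b => Finset.sum_comm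
  simp only [h1]
  exact Finset.sum_comm

theorem FAb_le {w : I → I → ℝ} {c : ℝ} (hw : ∀ a b, |w a b| ≤ c) (t : I → I → I → I → ℝ)
    (Z Z' : Matrix I I ℝ) : |FAb w t Z Z'| ≤ 2 * c * hs t * (mn Z * mn Z') := by
  rcases isEmpty_or_nonempty I with hI | ⟨⟨i0⟩⟩
  · have h1 : FAb w t Z Z' = 0 := by unfold FAb; simp
    have h2 : hs t = 0 := by unfold hs; simp
    rw [h1, h2]
    simp
  · have hc : 0 ≤ c := (abs_nonneg _).trans (hw i0 i0)
    obtain ⟨X, hX⟩ : ∃ X : I → I → I → I → ℝ, X = fun a d b c' =>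
      (w b d + w a c') * (Z a b * Z' c' d) := ⟨_, rfl⟩
    have h1 : FAb w t Z Z' = ∑ a, ∑ d, ∑ b, ∑ c', t a d b c' * X a d b c' := by
      unfold FAb
      rw [Ten_comm]
      refine Finset.sum_congr rfl fun a _ => Finset.sum_congr rfl fun d _ =>
        Finset.sum_congr rfl fun b _ => Finset.sum_congr rfl fun c' _ => ?_
      rw [hX]
      ring
    have h2 : hs X ≤ 2 * c * (mn Z * mn Z') := by
      rw [hX]
      have h3 := hs_mul_le (h := fun a d b c' => w b d + w a c')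
        (t := fun a d b c' => Z a b * Z' c' d) (C := 2 * c) (by linarith) (fun a d b c' => by
          refine (abs_add_le _ _).trans ?_
          linarith [hw b d, hw a c'])
      refine h3.trans (le_of_eq ?_)
      congr 1
      rw [← hs_ten]
      unfold hs
      congr 1
      exact (Ten_comm (fun a b c' d => (Z a b * Z' c' d) ^ 2)).symm
    rw [h1]
    refine (cs_hs t X).trans ?_
    calc hs t * hs X ≤ hs t * (2 * c * (mn Z * mn Z')) :=
        mul_le_mul_of_nonneg_left h2 (hs_nonneg t)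
      _ = 2 * c * hs t * (mn Z * mn Z') := by ring

theorem wt_le (A : Finset I) {u v s c : ℝ} (hu : |u| ≤ c) (hv : |v| ≤ c) (hs' : |s| ≤ c) (a b : I) :
    |wt A u v s a b| ≤ c := by
  unfold wt
  split_ifs <;> assumption

theorem wt_symm (A : Finset I) (u v s : ℝ) (a b : I) : wt A u v s a b = wt A u v s b a := by
  unfold wt
  split_ifs <;> rfl

/-- the pairing with rank one matrices -/
private def Ten_G (t : I → I → I → I → ℝ) (p q p' q' : I → ℝ) : ℝ :=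
  ∑ a, ∑ b, ∑ c, ∑ d, (p a * q b * (p' c * q' d)) * t a d b c

private theorem Ten_G_le {t : I → I → I → I → ℝ} {b0 : ℝ} (ht : N1 t b0) (p q p' q' : I → ℝ) :
    |Ten_G t p q p' q'| ≤ b0 * (√(p ⬝ᵥ p) * √(q ⬝ᵥ q) * (√(p' ⬝ᵥ p') * √(q' ⬝ᵥ q'))) := by
  have h1 := ht (vecMulVec p q') (vecMulVec q p')
  rw [Ten_mn_vec, Ten_mn_vec] at h1
  have h2 : Ten_G t p q p' q' =
      ∑ a, ∑ b, ∑ c, ∑ d, t a b c d * (vecMulVec p q' a b * vecMulVec q p' c d) := by
    unfold Ten_G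
    rw [Ten_comm]
    refine Finset.sum_congr rfl fun a _ => Finset.sum_congr rfl fun d _ =>
      Finset.sum_congr rfl fun b _ => Finset.sum_congr rfl fun c _ => ?_
    rw [vecMulVec_apply, vecMulVec_apply]
    ring
  rw [h2]
  refine h1.trans (le_of_eq ?_)
  ring

/-- restriction of a vector to a set -/
private def Ten_r (A : Finset I) (x y : ℝ) (p : I → ℝ) (a : I) : ℝ := (if a ∈ A then x else y) * p a

private theorem Ten_r_le (A : Finset I) {x y : ℝ} (hx : |x| ≤ 1) (hy : |y| ≤ 1) (p : I → ℝ) :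
    √(Ten_r A x y p ⬝ᵥ Ten_r A x y p) ≤ √(p ⬝ᵥ p) := by
  apply Real.sqrt_le_sqrt
  unfold dotProduct Ten_r
  refine Finset.sum_le_sum fun a _ => ?_
  have h1 : (if a ∈ A then x else y) ^ 2 ≤ 1 := by
    split_ifs
    · rw [← sq_abs]; nlinarith [abs_nonneg x]
    · rw [← sq_abs]; nlinarith [abs_nonneg y]
  have h2 : (if a ∈ A then x else y) * p a * ((if a ∈ A then x else y) * p a) =
      (if a ∈ A then x else y) ^ 2 * (p a * p a) := by ring
  rw [h2]
  nlinarith [mul_self_nonneg (p a)]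

theorem FAb_rank (A : Finset I) {u v s c b : ℝ} (hu : |u| ≤ c) (hv : |v| ≤ c) (hs' : |s| ≤ c)
    (hb : 0 ≤ b) {t : I → I → I → I → ℝ} (ht : N1 t b) (p q p' q' : I → ℝ) :
    |FAb (wt A u v s) t (vecMulVec p q) (vecMulVec p' q')| ≤
      8 * c * b * (√(p ⬝ᵥ p) * √(q ⬝ᵥ q) * (√(p' ⬝ᵥ p') * √(q' ⬝ᵥ q'))) := by
  have hc : 0 ≤ c := (abs_nonneg u).trans hu
  obtain ⟨K, hK⟩ : ∃ K, K = √(p ⬝ᵥ p) * √(q ⬝ᵥ q) * (√(p' ⬝ᵥ p') * √(q' ⬝ᵥ q')) := ⟨_, rfl⟩
  have hK0 : 0 ≤ K := by rw [hK]; positivity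
  have e1 : |(1 : ℝ)| ≤ 1 := by norm_num
  have e0 : |(0 : ℝ)| ≤ 1 := by norm_num
  have hkey : ∀ (r : ℝ) (p1 q1 p1' q1' : I → ℝ), |r| ≤ c → √(p1 ⬝ᵥ p1) ≤ √(p ⬝ᵥ p) →
      √(q1 ⬝ᵥ q1) ≤ √(q ⬝ᵥ q) → √(p1' ⬝ᵥ p1') ≤ √(p' ⬝ᵥ p') → √(q1' ⬝ᵥ q1') ≤ √(q' ⬝ᵥ q') →
      |r * Ten_G t p1 q1 p1' q1'| ≤ c * (b * K) := by
    intro r p1 q1 p1' q1' hr h1 h2 h3 h4
    rw [abs_mul]
    refine mul_le_mul hr ((Ten_G_le ht _ _ _ _).trans ?_) (abs_nonneg _) hc
    refine mul_le_mul_of_nonneg_left ?_ hb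
    rw [hK]
    gcongr
  have hid : FAb (wt A u v s) t (vecMulVec p q) (vecMulVec p' q') =
      (u * Ten_G t p (Ten_r A 1 0 q) p' (Ten_r A 1 0 q') +
        s * Ten_G t p (Ten_r A 1 0 q) p' (Ten_r A 0 1 q') +
        s * Ten_G t p (Ten_r A 0 1 q) p' (Ten_r A 1 0 q') +
        v * Ten_G t p (Ten_r A 0 1 q) p' (Ten_r A 0 1 q')) +
      (u * Ten_G t (Ten_r A 1 0 p) q (Ten_r A 1 0 p') q' +
        s * Ten_G t (Ten_r A 1 0 p) q (Ten_r A 0 1 p') q' +
        s * Ten_G t (Ten_r A 0 1 p) q (Ten_r A 1 0 p') q' +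
        v * Ten_G t (Ten_r A 0 1 p) q (Ten_r A 0 1 p') q') := by
    unfold FAb Ten_G
    simp only [Finset.mul_sum, ← Finset.sum_add_distrib]
    refine Finset.sum_congr rfl fun a _ => Finset.sum_congr rfl fun b' _ =>
      Finset.sum_congr rfl fun c' _ => Finset.sum_congr rfl fun d _ => ?_
    rw [vecMulVec_apply, vecMulVec_apply]
    unfold wt Ten_r
    by_cases ha : a ∈ A <;> by_cases hb' : b' ∈ A <;> by_cases hc' : c' ∈ A <;>
      by_cases hd : d ∈ A <;> simp only [ha, hb', hc', hd, if_true, if_false] <;> ring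
  rw [hid, ← hK]
  have k1 := hkey u p (Ten_r A 1 0 q) p' (Ten_r A 1 0 q') hu le_rfl (Ten_r_le A e1 e0 q) le_rfl
    (Ten_r_le A e1 e0 q')
  have k2 := hkey s p (Ten_r A 1 0 q) p' (Ten_r A 0 1 q') hs' le_rfl (Ten_r_le A e1 e0 q) le_rfl
    (Ten_r_le A e0 e1 q')
  have k3 := hkey s p (Ten_r A 0 1 q) p' (Ten_r A 1 0 q') hs' le_rfl (Ten_r_le A e0 e1 q) le_rfl
    (Ten_r_le A e1 e0 q')
  have k4 := hkey v p (Ten_r A 0 1 q) p' (Ten_r A 0 1 q') hv le_rfl (Ten_r_le A e0 e1 q) le_rfl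
    (Ten_r_le A e0 e1 q')
  have k5 := hkey u (Ten_r A 1 0 p) q (Ten_r A 1 0 p') q' hu (Ten_r_le A e1 e0 p) le_rfl
    (Ten_r_le A e1 e0 p') le_rfl
  have k6 := hkey s (Ten_r A 1 0 p) q (Ten_r A 0 1 p') q' hs' (Ten_r_le A e1 e0 p) le_rfl
    (Ten_r_le A e0 e1 p') le_rfl
  have k7 := hkey s (Ten_r A 0 1 p) q (Ten_r A 1 0 p') q' hs' (Ten_r_le A e0 e1 p) le_rfl
    (Ten_r_le A e1 e0 p') le_rfl
  have k8 := hkey v (Ten_r A 0 1 p) q (Ten_r A 0 1 p') q' hv (Ten_r_le A e0 e1 p) le_rfl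
    (Ten_r_le A e0 e1 p') le_rfl
  rw [abs_le] at k1 k2 k3 k4 k5 k6 k7 k8 ⊢
  constructor <;> linarith

end Pool.Agent.EinV
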