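import Pool.Agent.EinV.RpB

/-!
# The trace form

`TH2 T U z z = - trace (ad z ∘ T ∘ ad z ∘ U) = - ∑ a b, ph ⁅z, T ⁅z, U (e a b)⁆⁆ a b` (`Rp.trace`).  Write `Z = ph z`,
`B a b = ph (U (e a b)) = tn U a b`.  With `ph (T y) = w ∘ ph y + Qf y c • G` this is

  `- ∑ a b, [Z, w ∘ [Z, B a b]] a b - ∑ a b, Qf ⁅z, U (e a b)⁆ c * [Z, G] a b`.

The first sum has four terms,
  `- Z a c w c b Z c d t a b d b + Z a c w c b t a b c d Z d b + w a c Z a d t a b d c Z c b - w a c t a b a d Z d c Z c b`;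
by `Z a c = - Z c a`, `t b a d c = t a b c d`, `w a b = w b a` the first and the last are equal, each is half of
`SLb w t Z Z`; the other two, after renaming, give `FAb w t Z Z`.
The second sum is `Qf (U g) ⁅z, c⁆` with `g = ∑ a b, [Z, G] a b • e a b` (`Qf ⁅z, y⁆ c = - Qf y ⁅z, c⁆`), which is bounded by
`polar`, `Qf_hat` and `Qf ⁅z, c⁆ ⁅z, c⁆ = n * mn [Z, ph c] ^ 2`.
-/

namespace Pool.Agent.EinV

open Matrix Pool.Agent.EStab Pool.Agent.EinS Pool.Agent.SmIso Pool.Agent.EinU Pool.Agent.EinG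

variable {L : Type} [LieRing L] [LieAlgebra ℝ L] {I : Type} [Fintype I] [DecidableEq I] {m : ℕ}
  (R : Rp L I m)

omit [DecidableEq I] in
private theorem Tr_r3 (h : I → I → I → ℝ) :
    ∑ b, ∑ c, ∑ d, h c d b = ∑ c, ∑ d, ∑ b, h c d b := by
  rw [Finset.sum_comm]
  exact Finset.sum_congr rfl fun c _ => Finset.sum_comm

omit [DecidableEq I] in
private theorem Tr_r3' (h : I → I → I → ℝ) :
    ∑ b, ∑ c, ∑ d, h d c b = ∑ d, ∑ c, ∑ b, h d c b := by
  rw [Tr_r3 fun c d b => h d c b]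
  exact Finset.sum_comm

omit [DecidableEq I] in
private theorem Tr_p1 (h : I → I → I → I → ℝ) :
    ∑ a, ∑ b, ∑ c, ∑ d, h c a d b = ∑ c, ∑ a, ∑ d, ∑ b, h c a d b := by
  have h1 : ∀ a, ∑ b, ∑ c, ∑ d, h c a d b = ∑ c, ∑ d, ∑ b, h c a d b := fun a =>
    Tr_r3 fun c d b => h c a d b
  rw [Finset.sum_congr rfl fun a _ => h1 a]
  exact Finset.sum_comm

omit [DecidableEq I] in
private theorem Tr_p4 (h : I → I → I → I → ℝ) :
    ∑ a, ∑ b, ∑ c, ∑ d, h c b d a = ∑ c, ∑ b, ∑ d, ∑ a, h c b d a := by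
  rw [Finset.sum_comm]
  exact Tr_p1 fun c b d a => h c b d a

/-- The algebra of the four terms. -/
private theorem Tr_main {w : I → I → ℝ} (hw : ∀ a b, w a b = w b a) {t : I → I → I → I → ℝ}
    (h1 : ∀ a b c d, t b a c d = -t a b c d) (h2 : ∀ a b c d, t a b d c = -t a b c d)
    {Z : Matrix I I ℝ} (hZ : ∀ a b, Z b a = -Z a b) :
    -∑ a, ∑ b, ∑ c, ∑ d, (Z a c * (w c b * (Z c d * t a b d b - t a b c d * Z d b)) -
      w a c * (Z a d * t a b d c - t a b a d * Z d c) * Z c b) = SLb w t Z Z + FAb w t Z Z := by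
  have e1 : SLb w t Z Z = ∑ a, ∑ b, ∑ c, ∑ d, (Z c a * Z c d * (w c b * t a b d b)) +
      ∑ a, ∑ b, ∑ c, ∑ d, (Z c b * Z c d * (w c a * t b a d a)) := by
    unfold SLb
    rw [Tr_p1 fun c a d b => Z c a * Z c d * (w c b * t a b d b),
      Tr_p4 fun c b d a => Z c b * Z c d * (w c a * t b a d a), two_mul]
    simp only [Finset.mul_sum]
  have e2 : FAb w t Z Z = ∑ a, ∑ b, ∑ c, ∑ d, w c b * (Z a c * Z d b) * t a b c d +
      ∑ a, ∑ b, ∑ c, ∑ d, w a c * (Z a d * Z c b) * t a b d c := by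
    unfold FAb
    have h3 : ∀ a, ∑ b, ∑ c, ∑ d, w c b * (Z a c * Z d b) * t a b c d =
        ∑ c, ∑ d, ∑ b, w c b * (Z a c * Z d b) * t a b c d := fun a =>
      Tr_r3 fun c d b => w c b * (Z a c * Z d b) * t a b c d
    have h4 : ∀ a, ∑ b, ∑ c, ∑ d, w a c * (Z a d * Z c b) * t a b d c =
        ∑ d, ∑ c, ∑ b, w a c * (Z a d * Z c b) * t a b d c := fun a =>
      Tr_r3' fun d c b => w a c * (Z a d * Z c b) * t a b d c
    rw [Finset.sum_congr rfl fun a _ => h3 a, Finset.sum_congr rfl fun a _ => h4 a]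
    simp only [← Finset.sum_add_distrib]
    refine Finset.sum_congr rfl fun a _ => Finset.sum_congr rfl fun b _ =>
      Finset.sum_congr rfl fun c _ => Finset.sum_congr rfl fun d _ => ?_
    ring
  rw [e1, e2]
  simp only [← Finset.sum_add_distrib, ← Finset.sum_neg_distrib]
  refine Finset.sum_congr rfl fun a _ => Finset.sum_congr rfl fun b _ =>
      Finset.sum_congr rfl fun c _ => Finset.sum_congr rfl fun d _ => ?_
  rw [hZ c a, hZ c d, hw c a, h1 a b d a, h2 a b a d]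
  ring

theorem TH2_exact [Module.Finite ℝ L] {w : I → I → ℝ} (hw : ∀ a b, w a b = w b a)
    {T : L →ₗ[ℝ] L} {c : L} {G : Matrix I I ℝ}
    (hT : ∀ x a b, R.ph (T x) a b = w a b * R.ph x a b + Qf L x c * G a b)
    {U : L →ₗ[ℝ] L} (hU : QSym U) (z : L) :
    TH2 T U z z = SLb w (R.tn U) (R.ph z) (R.ph z) + FAb w (R.tn U) (R.ph z) (R.ph z) +
      Qf L (U (∑ a, ∑ b, (R.ph z * G - G * R.ph z) a b • R.e a b)) ⁅z, c⁆ := by
  have h0 : TH2 T U z z = -∑ a, ∑ b, R.ph ⁅z, T ⁅z, U (R.e a b)⁆⁆ a b := by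
    unfold TH2
    rw [R.trace]
    rfl
  have h1 : ∀ a b, R.ph ⁅z, T ⁅z, U (R.e a b)⁆⁆ a b =
      ∑ c', ∑ d, (R.ph z a c' * (w c' b * (R.ph z c' d * R.tn U a b d b -
        R.tn U a b c' d * R.ph z d b)) -
        w a c' * (R.ph z a d * R.tn U a b d c' - R.tn U a b a d * R.ph z d c') * R.ph z c' b) -
      (R.ph z * G - G * R.ph z) a b * Qf L (U (R.e a b)) ⁅z, c⁆ := by
    intro a b
    have hq : Qf L ⁅z, U (R.e a b)⁆ c = -Qf L (U (R.e a b)) ⁅z, c⁆ := Qf_lie' _ _ _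
    rw [R.lie, Matrix.sub_apply, Matrix.mul_apply, Matrix.mul_apply, Matrix.sub_apply,
      Matrix.mul_apply, Matrix.mul_apply]
    have hB : ∀ p q, R.ph ⁅z, U (R.e a b)⁆ p q =
        ∑ d, (R.ph z p d * R.tn U a b d q - R.tn U a b p d * R.ph z d q) := by
      intro p q
      rw [R.lie, Matrix.sub_apply, Matrix.mul_apply, Matrix.mul_apply, ← Finset.sum_sub_distrib]
      rfl
    rw [← Finset.sum_sub_distrib, ← Finset.sum_sub_distrib, Finset.sum_mul,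
      ← Finset.sum_sub_distrib]
    refine Finset.sum_congr rfl fun c' _ => ?_
    rw [hT, hT, hB, hB, hq]
    have e1 : ∑ d, (R.ph z a c' * (w c' b * (R.ph z c' d * R.tn U a b d b -
        R.tn U a b c' d * R.ph z d b)) -
        w a c' * (R.ph z a d * R.tn U a b d c' - R.tn U a b a d * R.ph z d c') * R.ph z c' b) =
        R.ph z a c' * (w c' b * ∑ d, (R.ph z c' d * R.tn U a b d b -
          R.tn U a b c' d * R.ph z d b)) - w a c' * (∑ d, (R.ph z a d * R.tn U a b d c' -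
          R.tn U a b a d * R.ph z d c')) * R.ph z c' b := by
      rw [Finset.sum_sub_distrib, Finset.mul_sum, Finset.mul_sum, Finset.mul_sum, Finset.sum_mul]
    rw [e1]
    ring
  rw [h0, Finset.sum_congr rfl fun a _ => Finset.sum_congr rfl fun b _ => h1 a b]
  have h2 : Qf L (U (∑ a, ∑ b, (R.ph z * G - G * R.ph z) a b • R.e a b)) ⁅z, c⁆ =
      ∑ a, ∑ b, (R.ph z * G - G * R.ph z) a b * Qf L (U (R.e a b)) ⁅z, c⁆ := by
    simp only [map_sum, map_smul, LinearMap.sum_apply, LinearMap.smul_apply, smul_eq_mul]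
  have h3 := Tr_main (w := w) hw (t := R.tn U) (fun a b c d => R.tn_skew1 U a b c d)
    (fun a b c d => R.tn_skew2 U a b c d) (Z := R.ph z) (fun a b => R.ph_skew z a b)
  rw [h2, ← h3]
  have h5 : ∑ a, ∑ b, (∑ c', ∑ d, (R.ph z a c' * (w c' b * (R.ph z c' d * R.tn U a b d b -
        R.tn U a b c' d * R.ph z d b)) -
        w a c' * (R.ph z a d * R.tn U a b d c' - R.tn U a b a d * R.ph z d c') * R.ph z c' b) -
      (R.ph z * G - G * R.ph z) a b * Qf L (U (R.e a b)) ⁅z, c⁆) =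
      ∑ a, ∑ b, ∑ c', ∑ d, (R.ph z a c' * (w c' b * (R.ph z c' d * R.tn U a b d b -
        R.tn U a b c' d * R.ph z d b)) -
        w a c' * (R.ph z a d * R.tn U a b d c' - R.tn U a b a d * R.ph z d c') * R.ph z c' b) -
      ∑ a, ∑ b, (R.ph z * G - G * R.ph z) a b * Qf L (U (R.e a b)) ⁅z, c⁆ := by
    rw [← Finset.sum_sub_distrib]
    exact Finset.sum_congr rfl fun a _ => Finset.sum_sub_distrib _ _
  rw [h5]
  ring

theorem TH2_approx [Module.Finite ℝ L] {w : I → I → ℝ} (hw : ∀ a b, w a b = w b a)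
    {T : L →ₗ[ℝ] L} {c : L} {G : Matrix I I ℝ}
    (hT : ∀ x a b, R.ph (T x) a b = w a b * R.ph x a b + Qf L x c * G a b) {κ : ℝ} (hκ : 0 ≤ κ)
    (hG : ∀ z, mn (R.ph z * G - G * R.ph z) ≤ κ * mn (R.ph z))
    (hc : ∀ z, mn (R.ph z * R.ph c - R.ph c * R.ph z) ≤ κ * mn (R.ph z))
    {U : L →ₗ[ℝ] L} (hU : QSym U) {b : ℝ} (hb : 0 ≤ b) (hUb : NBL U b) (z : L) :
    |TH2 T U z z - (SLb w (R.tn U) (R.ph z) (R.ph z) + FAb w (R.tn U) (R.ph z) (R.ph z))| ≤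
      κ ^ 2 * b * Qf L z z := by
  rw [TH2_exact R hw hT hU z, add_sub_cancel_left]
  have hp : ∀ x y : L, |Qf L (U x) y| ≤ b * (√(Qf L x x) * √(Qf L y y)) := by
    intro x y
    first
      | exact Rp.polar hU hb hUb x y
      | exact Rp.polar R hU hb hUb x y
  refine (hp _ _).trans ?_
  have hn : 0 ≤ R.n := R.n0.le
  have hk : 0 ≤ κ * mn (R.ph z) := mul_nonneg hκ (mn_nonneg _)
  have h1 : Qf L (∑ a, ∑ b, (R.ph z * G - G * R.ph z) a b • R.e a b)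
      (∑ a, ∑ b, (R.ph z * G - G * R.ph z) a b • R.e a b) ≤ R.n * (κ * mn (R.ph z)) ^ 2 :=
    (R.Qf_hat _).trans (mul_le_mul_of_nonneg_left (pow_le_pow_left₀ (mn_nonneg _) (hG z) 2) hn)
  have h2 : Qf L ⁅z, c⁆ ⁅z, c⁆ ≤ R.n * (κ * mn (R.ph z)) ^ 2 := by
    rw [R.Qf_mn, R.lie]
    exact mul_le_mul_of_nonneg_left (pow_le_pow_left₀ (mn_nonneg _) (hc z) 2) hn
  have h3 : √(Qf L (∑ a, ∑ b, (R.ph z * G - G * R.ph z) a b • R.e a b)
      (∑ a, ∑ b, (R.ph z * G - G * R.ph z) a b • R.e a b)) * √(Qf L ⁅z, c⁆ ⁅z, c⁆) ≤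
      √(R.n * (κ * mn (R.ph z)) ^ 2) * √(R.n * (κ * mn (R.ph z)) ^ 2) :=
    mul_le_mul (Real.sqrt_le_sqrt h1) (Real.sqrt_le_sqrt h2) (Real.sqrt_nonneg _)
      (Real.sqrt_nonneg _)
  rw [Real.mul_self_sqrt (by positivity)] at h3
  have h4 : R.n * (κ * mn (R.ph z)) ^ 2 = κ ^ 2 * Qf L z z := by
    rw [R.Qf_mn]
    ring
  rw [h4] at h3
  calc _ ≤ b * (κ ^ 2 * Qf L z z) := mul_le_mul_of_nonneg_left h3 hb
    _ = κ ^ 2 * b * Qf L z z := by ring

end Pool.Agent.EinV
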