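import Pool.Agent.EinV.Tr
import Pool.Agent.EinV.SplB

/-!
# The trace form for the operators `S`, `T`

`TH2_approx` with `G a b = (z - wt a b) * ph c a b = D a * J0 a b`, `D a = (z - x_i) g_i`; since `J0` is block diagonal and commutes with
`ph z`, `[Z, D J0] = (Z D - D Z) J0`, and `mn (X J0) ≤ mn X`.  If `J0 ≠ 0`, then `1 ≥ Qf c c = n (g1² |A| + g2² |Aᶜ|)`, so
`g_i² ≤ C / M²` by `Bnd` and `nM` (`n ≥ M / (2 (m+1))`).
-/

namespace Pool.Agent.EinV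

open Matrix Pool.Agent.EStab Pool.Agent.EinS Pool.Agent.SmIso Pool.Agent.EinU Pool.Agent.EinG

variable {L : Type} [LieRing L] [LieAlgebra ℝ L] {I : Type} [Fintype I] [DecidableEq I] {m : ℕ}

/-- The size of `n`. -/
theorem Rp.n_bd (R : Rp L I m) (hM : 4 * ((m : ℝ) + 1) ≤ Fintype.card I) :
    (Fintype.card I : ℝ) / (2 * (m + 1)) ≤ R.n ∧ R.n ≤ 2 * (Fintype.card I : ℝ) ∧
      0 < (Fintype.card I : ℝ) ∧ |(Fintype.card I : ℝ) / ((m + 1) * R.n) - 1| ≤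
        4 * (m + 1) / (Fintype.card I : ℝ) := by
  have hm : (0 : ℝ) ≤ m := Nat.cast_nonneg m
  have hn := R.n0
  have h := abs_le.1 R.nM
  obtain ⟨M, hMd⟩ : ∃ M : ℝ, M = (Fintype.card I : ℝ) := ⟨_, rfl⟩
  rw [← hMd] at hM h ⊢
  have hM0 : 0 < M := by linarith
  have h2 : 2 ≤ M / (2 * ((m : ℝ) + 1)) := by
    rw [le_div_iff₀ (by positivity)]
    linarith
  have h3 : M / ((m : ℝ) + 1) = M / (2 * ((m : ℝ) + 1)) + M / (2 * ((m : ℝ) + 1)) := by
    field_simp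
    ring
  have h4 : M / (2 * ((m : ℝ) + 1)) ≤ R.n := by linarith [h.1]
  have h5 : M / (2 * ((m : ℝ) + 1)) ≤ M / 2 := by
    apply div_le_div_of_nonneg_left hM0.le (by norm_num)
    linarith
  refine ⟨h4, by linarith [h.2], hM0, ?_⟩
  have h6 : M / (((m : ℝ) + 1) * R.n) - 1 = (M / ((m : ℝ) + 1) - R.n) / R.n := by
    field_simp
  rw [h6, abs_div, abs_of_pos hn, abs_sub_comm, div_le_iff₀ hn]
  refine R.nM.trans' ?_ |>.trans ?_
  · rw [← hMd]
  · calc (2 : ℝ) = 4 * (m + 1) / M * (M / (2 * (m + 1))) := by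
          field_simp
          norm_num
      _ ≤ 4 * (m + 1) / M * R.n := by gcongr

omit [DecidableEq I] in
private theorem TrS_sq (X : Matrix I I ℝ) : mn X ^ 2 = ∑ a, ∑ b, X a b ^ 2 :=
  Real.sq_sqrt (Finset.sum_nonneg fun _ _ => Finset.sum_nonneg fun _ _ => sq_nonneg _)

omit [DecidableEq I] in
private theorem TrS_nn (X : Matrix I I ℝ) : 0 ≤ mn X := Real.sqrt_nonneg _

omit [DecidableEq I] in
private theorem TrS_tr (X : Matrix I I ℝ) : mn X ^ 2 = Matrix.trace (X * Xᵀ) := by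
  rw [TrS_sq]
  unfold Matrix.trace
  refine Finset.sum_congr rfl fun a _ => ?_
  rw [Matrix.diag_apply, Matrix.mul_apply]
  refine Finset.sum_congr rfl fun b _ => ?_
  rw [Matrix.transpose_apply]
  ring

private theorem TrS_one {J0 : Matrix I I ℝ} (h : J0ᵀ * J0 = 1) : J0 * J0ᵀ = 1 :=
  mul_eq_one_comm.1 h

private theorem TrS_mul {J0 : Matrix I I ℝ} (h : J0ᵀ * J0 = 1) (X : Matrix I I ℝ) :
    mn (X * J0) = mn X := by
  have h1 : mn (X * J0) ^ 2 = mn X ^ 2 := by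
    rw [TrS_tr, TrS_tr, Matrix.transpose_mul]
    congr 1
    calc X * J0 * (J0ᵀ * Xᵀ) = X * (J0 * J0ᵀ) * Xᵀ := by noncomm_ring
      _ = X * Xᵀ := by rw [TrS_one h, Matrix.mul_one]
  exact (sq_eq_sq₀ (TrS_nn _) (TrS_nn _)).1 h1

private theorem TrS_comm {A : Finset I} {J0 Z K : Matrix I I ℝ} (h : J0ᵀ * J0 = 1)
    (hc : J0 * Z = Z * J0) {d1 d2 : ℝ} (hK : ∀ a b, K a b = (if a ∈ A then d1 else d2) * J0 a b) :
    mn (Z * K - K * Z) ≤ |d1 - d2| * mn Z := by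
  obtain ⟨D, hD⟩ : ∃ D : Matrix I I ℝ, D = Matrix.diagonal (fun a => if a ∈ A then d1 else d2) :=
    ⟨_, rfl⟩
  have hKD : K = D * J0 := by
    ext a b
    rw [hK, hD, Matrix.diagonal_mul]
  have h1 : Z * K - K * Z = (Z * D - D * Z) * J0 := by
    rw [hKD, Matrix.sub_mul, Matrix.mul_assoc D J0 Z, hc, Matrix.mul_assoc D Z J0, Matrix.mul_assoc Z D J0]
  rw [h1, TrS_mul h]
  have h2 : mn (Z * D - D * Z) ^ 2 ≤ (|d1 - d2| * mn Z) ^ 2 := by
    rw [mul_pow, TrS_sq, TrS_sq, Finset.mul_sum]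
    refine Finset.sum_le_sum fun a _ => ?_
    rw [Finset.mul_sum]
    refine Finset.sum_le_sum fun b _ => ?_
    rw [sq_abs, Matrix.sub_apply, hD, Matrix.diagonal_mul, Matrix.mul_diagonal]
    have h3 : Z a b * (if b ∈ A then d1 else d2) - (if a ∈ A then d1 else d2) * Z a b =
      ((if b ∈ A then d1 else d2) - (if a ∈ A then d1 else d2)) * Z a b := by ring
    rw [h3, mul_pow]
    apply mul_le_mul_of_nonneg_right _ (sq_nonneg _)
    split_ifs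
    · simp [sq_nonneg]
    · exact le_refl _
    · apply le_of_eq
      ring
    · simp [sq_nonneg]
  exact (pow_le_pow_iff_left₀ (TrS_nn _) (mul_nonneg (abs_nonneg _) (TrS_nn _)) two_ne_zero).1 h2

private theorem TrS_g {R : Rp L I m} {A : Finset I} {x1 x2 z c0 : ℝ} {S T Pp : L →ₗ[ℝ] L} {c : L}
    {J0 : Matrix I I ℝ} {g1 g2 : ℝ} (h : Spl R A x1 x2 z S T Pp c J0 g1 g2)
    (hb : Bnd I m A x1 x2 z c0) (hJ : J0ᵀ * J0 = 1) :
    |g1| ≤ 2 * ((m : ℝ) + 1) * c0 / Fintype.card I ∧ |g2| ≤ 2 * ((m : ℝ) + 1) * c0 / Fintype.card I := by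
  have hm : (0 : ℝ) ≤ m := Nat.cast_nonneg m
  obtain ⟨hn1, -, hM0, -⟩ := R.n_bd hb.M1
  have hc1 := hb.c1
  have hQ : Qf L c c ≤ 1 := by
    rcases h.cc with h1 | h1
    · exact h1.le
    · rw [h1]
      have : Qf L (0 : L) (0 : L) = 0 := by
        rw [R.qf]
        simp
      rw [this]
      exact zero_le_one
  have hrow : ∀ a, ∑ b, J0 a b ^ 2 = 1 := by
    intro a
    have h1 := congrFun (congrFun (TrS_one hJ) a) a
    rw [Matrix.mul_apply, Matrix.one_apply_eq] at h1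
    rw [← h1]
    refine Finset.sum_congr rfl fun b _ => ?_
    rw [Matrix.transpose_apply]
    ring
  have hmn : mn (R.ph c) ^ 2 = (A.card : ℝ) * g1 ^ 2 + (Aᶜ.card : ℝ) * g2 ^ 2 := by
    rw [TrS_sq, ← Finset.sum_add_sum_compl A]
    congr 1
    · rw [← nsmul_eq_mul, ← Finset.sum_const]
      refine Finset.sum_congr rfl fun a ha => ?_
      calc ∑ b, R.ph c a b ^ 2 = ∑ b, g1 ^ 2 * J0 a b ^ 2 :=
            Finset.sum_congr rfl fun b _ => by rw [h.pc, if_pos ha, mul_pow]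
        _ = g1 ^ 2 := by rw [← Finset.mul_sum, hrow, mul_one]
    · rw [← nsmul_eq_mul, ← Finset.sum_const]
      refine Finset.sum_congr rfl fun a ha => ?_
      calc ∑ b, R.ph c a b ^ 2 = ∑ b, g2 ^ 2 * J0 a b ^ 2 :=
            Finset.sum_congr rfl fun b _ => by rw [h.pc, if_neg (Finset.mem_compl.1 ha), mul_pow]
        _ = g2 ^ 2 := by rw [← Finset.mul_sum, hrow, mul_one]
  rw [R.Qf_mn, hmn] at hQ
  obtain ⟨M, hMd⟩ : ∃ M : ℝ, M = (Fintype.card I : ℝ) := ⟨_, rfl⟩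
  have hAl := hb.Al
  have hBl := hb.Bl
  rw [← hMd] at hn1 hM0 hAl hBl ⊢
  have hn := R.n0
  have key : ∀ k g : ℝ, M ≤ c0 * k → R.n * (k * g ^ 2) ≤ 1 → |g| ≤ 2 * ((m : ℝ) + 1) * c0 / M := by
    intro k g hk hg
    have hc00 : 0 < c0 := by linarith
    have hk0 : 0 < k := by
      by_contra hk0
      have : c0 * k ≤ 0 := mul_nonpos_of_nonneg_of_nonpos hc00.le (not_lt.1 hk0)
      linarith
    have e1 : M ^ 2 * g ^ 2 ≤ 2 * ((m : ℝ) + 1) * c0 := by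
      have e2 : M ≤ 2 * ((m : ℝ) + 1) * R.n := by
        rw [div_le_iff₀ (by positivity)] at hn1
        linarith
      calc M ^ 2 * g ^ 2 = M * M * g ^ 2 := by ring
        _ ≤ (2 * ((m : ℝ) + 1) * R.n) * (c0 * k) * g ^ 2 := by gcongr
        _ = 2 * ((m : ℝ) + 1) * c0 * (R.n * (k * g ^ 2)) := by ring
        _ ≤ 2 * ((m : ℝ) + 1) * c0 * 1 := by gcongr
        _ = _ := by ring
    have e3 : 1 ≤ 2 * ((m : ℝ) + 1) * c0 := by nlinarith
    rw [le_div_iff₀ hM0]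
    have e4 : (|g| * M) ^ 2 ≤ (2 * ((m : ℝ) + 1) * c0) ^ 2 := by
      rw [mul_pow, sq_abs]
      calc g ^ 2 * M ^ 2 = M ^ 2 * g ^ 2 := by ring
        _ ≤ 2 * ((m : ℝ) + 1) * c0 := e1
        _ ≤ (2 * ((m : ℝ) + 1) * c0) ^ 2 := by nlinarith
    exact (pow_le_pow_iff_left₀ (by positivity) (by positivity) two_ne_zero).1 e4
  refine ⟨key A.card g1 hAl ?_, key Aᶜ.card g2 hBl ?_⟩
  · refine le_trans ?_ hQ
    apply mul_le_mul_of_nonneg_left _ hn.le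
    have : 0 ≤ (Aᶜ.card : ℝ) * g2 ^ 2 := by positivity
    linarith
  · refine le_trans ?_ hQ
    apply mul_le_mul_of_nonneg_left _ hn.le
    have : 0 ≤ (A.card : ℝ) * g1 ^ 2 := by positivity
    linarith

private theorem TrS_all {R : Rp L I m} {A : Finset I} {x1 x2 z c0 : ℝ} {S T Pp : L →ₗ[ℝ] L} {c : L}
    {J0 : Matrix I I ℝ} {g1 g2 : ℝ} (h : Spl R A x1 x2 z S T Pp c J0 g1 g2)
    (hb : Bnd I m A x1 x2 z c0) {q r1 r2 : ℝ} (h1 : |r1| ≤ q) (h2 : |r2| ≤ q)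
    {K : Matrix I I ℝ} (hK : ∀ a b, K a b = (if a ∈ A then r1 * g1 else r2 * g2) * J0 a b) (y : L) :
    mn (R.ph y * K - K * R.ph y) ≤ q * (4 * ((m : ℝ) + 1) * c0) / Fintype.card I * mn (R.ph y) := by
  have hm : (0 : ℝ) ≤ m := Nat.cast_nonneg m
  have hc1 := hb.c1
  have hq : 0 ≤ q := (abs_nonneg _).trans h1
  obtain ⟨-, -, hM0, -⟩ := R.n_bd hb.M1
  rcases h.J0J with hJ | hJ
  · have hK0 : K = 0 := by
      ext a b
      rw [hK, hJ]
      simp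
    have h0 : mn (R.ph y * K - K * R.ph y) = 0 := by
      rw [hK0]
      simp [mn]
    rw [h0]
    have := TrS_nn (R.ph y)
    positivity
  · obtain ⟨e1, e2⟩ := TrS_g h hb hJ
    refine (TrS_comm hJ (h.J0c y) hK).trans ?_
    apply mul_le_mul_of_nonneg_right _ (TrS_nn _)
    calc |r1 * g1 - r2 * g2| ≤ |r1 * g1| + |r2 * g2| := abs_sub _ _
      _ = |r1| * |g1| + |r2| * |g2| := by rw [abs_mul, abs_mul]
      _ ≤ q * (2 * ((m : ℝ) + 1) * c0 / Fintype.card I) +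
          q * (2 * ((m : ℝ) + 1) * c0 / Fintype.card I) := by gcongr
      _ = q * (4 * ((m : ℝ) + 1) * c0) / Fintype.card I := by ring

/-- The commutator with `ph c` is small. -/
theorem Spl.comm_c (c0 : ℝ) (m : ℕ) : ∃ C : ℝ, 1 ≤ C ∧ ∀ (L : Type) [LieRing L] [LieAlgebra ℝ L]
    (I : Type) [Fintype I] [DecidableEq I] (R : Rp L I m) (A : Finset I) (x1 x2 z : ℝ)
    (S T Pp : L →ₗ[ℝ] L) (c : L) (J0 : Matrix I I ℝ) (g1 g2 : ℝ),
    Spl R A x1 x2 z S T Pp c J0 g1 g2 → Bnd I m A x1 x2 z c0 →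
    ∀ y : L, mn (R.ph y * R.ph c - R.ph c * R.ph y) ≤ C / Fintype.card I * mn (R.ph y) ∧
      Qf L ⁅y, c⁆ ⁅y, c⁆ ≤ (C / Fintype.card I) ^ 2 * Qf L y y := by
  refine ⟨4 * ((m : ℝ) + 1) * |c0| + 1, by
    have : (0 : ℝ) ≤ 4 * ((m : ℝ) + 1) * |c0| := by positivity
    linarith, ?_⟩
  intro L _ _ I _ _ R A x1 x2 z S T Pp c J0 g1 g2 h hb y
  obtain ⟨-, -, hM0, -⟩ := R.n_bd hb.M1
  have hc1 := hb.c1
  have hC : 1 * (4 * ((m : ℝ) + 1) * c0) / Fintype.card I ≤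
      (4 * ((m : ℝ) + 1) * |c0| + 1) / Fintype.card I := by
    apply div_le_div_of_nonneg_right _ hM0.le
    have := le_abs_self c0
    have hm : (0 : ℝ) ≤ m := Nat.cast_nonneg m
    nlinarith
  have h1 : mn (R.ph y * R.ph c - R.ph c * R.ph y) ≤
      (4 * ((m : ℝ) + 1) * |c0| + 1) / Fintype.card I * mn (R.ph y) := by
    have h2 := TrS_all h hb (q := 1) (r1 := 1) (r2 := 1) (K := R.ph c) (by simp) (by simp)
      (fun a b => by rw [h.pc, one_mul, one_mul]) y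
    exact h2.trans (mul_le_mul_of_nonneg_right hC (TrS_nn _))
  refine ⟨h1, ?_⟩
  rw [R.Qf_mn, R.Qf_mn, R.lie]
  have h3 := pow_le_pow_left₀ (TrS_nn _) h1 2
  rw [mul_pow] at h3
  calc R.n * mn (R.ph y * R.ph c - R.ph c * R.ph y) ^ 2
      ≤ R.n * (((4 * ((m : ℝ) + 1) * |c0| + 1) / Fintype.card I) ^ 2 * mn (R.ph y) ^ 2) :=
        mul_le_mul_of_nonneg_left h3 R.n0.le
    _ = _ := by ring

omit [Fintype I] in
private theorem TrS_wt_symm (A : Finset I) (u v t : ℝ) (a b : I) : wt A u v t a b = wt A u v t b a := by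
  unfold wt
  split_ifs <;> rfl

omit [Fintype I] in
private theorem TrS_G {A : Finset I} {J0 P : Matrix I I ℝ} {g1 g2 : ℝ}
    (hJ : ∀ a b, ¬(a ∈ A ↔ b ∈ A) → J0 a b = 0)
    (hP : ∀ a b, P a b = (if a ∈ A then g1 else g2) * J0 a b) (r u v : ℝ) (a b : I) :
    (r - wt A u v 1 a b) * P a b = (if a ∈ A then (r - u) * g1 else (r - v) * g2) * J0 a b := by
  rw [hP]
  unfold wt
  by_cases ha : a ∈ A
  · by_cases hb : b ∈ A
    · rw [if_pos ha, if_pos hb, if_pos ha, if_pos ha, mul_assoc]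
    · rw [hJ a b (by simp [ha, hb])]
      simp
  · by_cases hb : b ∈ A
    · rw [hJ a b (by simp [ha, hb])]
      simp
    · rw [if_neg ha, if_neg hb, if_neg ha, if_neg ha, mul_assoc]

private theorem TrS_diff {c0 p r : ℝ} (hp : 0 < p) (hr : 0 < r) (hp' : p ≤ c0) (hr' : r ≤ c0) :
    |p - r| ≤ c0 := by
  rw [abs_le]
  constructor <;> linarith

theorem TH2_spl (c0 : ℝ) (m : ℕ) : ∃ C : ℝ, 1 ≤ C ∧ ∀ (L : Type) [LieRing L] [LieAlgebra ℝ L]
    [Module.Finite ℝ L] (I : Type) [Fintype I] [DecidableEq I] (R : Rp L I m) (A : Finset I)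
    (x1 x2 z : ℝ) (S T Pp : L →ₗ[ℝ] L) (c : L) (J0 : Matrix I I ℝ) (g1 g2 : ℝ),
    Spl R A x1 x2 z S T Pp c J0 g1 g2 → Bnd I m A x1 x2 z c0 →
    ∀ (U : L →ₗ[ℝ] L) (b : ℝ), QSym U → 0 ≤ b → NBL U b → ∀ y : L,
      |TH2 T U y y - (SLb (wt A x1 x2 1) (R.tn U) (R.ph y) (R.ph y) +
        FAb (wt A x1 x2 1) (R.tn U) (R.ph y) (R.ph y))| ≤ C / Fintype.card I * b * Qf L y y ∧
      |TH2 S U y y - (SLb (wt A (1 / x1) (1 / x2) 1) (R.tn U) (R.ph y) (R.ph y) +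
        FAb (wt A (1 / x1) (1 / x2) 1) (R.tn U) (R.ph y) (R.ph y))| ≤
          C / Fintype.card I * b * Qf L y y := by
  obtain ⟨E, hE⟩ : ∃ E : ℝ, E = c0 * (4 * ((m : ℝ) + 1) * c0) := ⟨_, rfl⟩
  refine ⟨E ^ 2 + 1, by nlinarith [sq_nonneg E], ?_⟩
  intro L _ _ _ I _ _ R A x1 x2 z S T Pp c J0 g1 g2 h hb U b hU hb0 hUb y
  have hm : (0 : ℝ) ≤ m := Nat.cast_nonneg m
  obtain ⟨-, -, hM0, -⟩ := R.n_bd hb.M1
  have hc1 := hb.c1
  have hE0 : 0 ≤ E := by rw [hE]; positivity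
  have hM1 : (1 : ℝ) ≤ Fintype.card I := by
    have := hb.M1
    nlinarith
  have hκ : 0 ≤ E / (Fintype.card I : ℝ) := by positivity
  have hc : ∀ y, mn (R.ph y * R.ph c - R.ph c * R.ph y) ≤ E / Fintype.card I * mn (R.ph y) := by
    intro y
    rw [hE]
    exact TrS_all h hb (q := c0) (r1 := 1) (r2 := 1) (K := R.ph c) (by simpa using hc1)
      (by simpa using hc1) (fun a b => by rw [h.pc, one_mul, one_mul]) y
  have hfin : (E / (Fintype.card I : ℝ)) ^ 2 * b * Qf L y y ≤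
      (E ^ 2 + 1) / Fintype.card I * b * Qf L y y := by
    apply mul_le_mul_of_nonneg_right _ (by rw [R.Qf_mn]; exact mul_nonneg R.n0.le (sq_nonneg _))
    apply mul_le_mul_of_nonneg_right _ hb0
    rw [div_pow]
    calc E ^ 2 / (Fintype.card I : ℝ) ^ 2 ≤ E ^ 2 / Fintype.card I := by
          apply div_le_div_of_nonneg_left (sq_nonneg E) hM0
          nlinarith
      _ ≤ (E ^ 2 + 1) / Fintype.card I := by
          apply div_le_div_of_nonneg_right _ hM0.le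
          linarith
  have hx1 := h.x1p
  have hx2 := h.x2p
  have hz := h.zp
  have hinv : ∀ p : ℝ, 0 < p → 1 / c0 ≤ p → 1 / p ≤ c0 := by
    intro p hp hp'
    rw [div_le_iff₀ (by linarith)] at hp'
    rw [div_le_iff₀ hp]
    linarith
  constructor
  · refine (TH2_approx R (w := wt A x1 x2 1) (G := Matrix.of fun a b => (z - wt A x1 x2 1 a b) * R.ph c a b)
      (TrS_wt_symm A x1 x2 1) (T := T) (c := c) (fun x a b => ?_) hκ (fun y' => ?_) hc hU hb0 hUb y).trans hfin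
    · exact h.tT x a b
    · rw [hE]
      exact TrS_all h hb (TrS_diff hz hx1 hb.zu hb.x1u) (TrS_diff hz hx2 hb.zu hb.x2u)
        (fun a b => TrS_G h.J0A h.pc z x1 x2 a b) y'
  · refine (TH2_approx R (w := wt A (1 / x1) (1 / x2) 1)
      (G := Matrix.of fun a b => (1 / z - wt A (1 / x1) (1 / x2) 1 a b) * R.ph c a b)
      (TrS_wt_symm A (1 / x1) (1 / x2) 1) (T := S) (c := c) (fun x a b => ?_) hκ (fun y' => ?_) hc hU hb0
      hUb y).trans hfin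
    · exact h.tS x a b
    · rw [hE]
      exact TrS_all h hb
        (TrS_diff (one_div_pos.2 hz) (one_div_pos.2 hx1) (hinv z hz hb.zl) (hinv x1 hx1 hb.x1l))
        (TrS_diff (one_div_pos.2 hz) (one_div_pos.2 hx2) (hinv z hz hb.zl) (hinv x2 hx2 hb.x2l))
        (fun a b => TrS_G h.J0A h.pc (1 / z) (1 / x1) (1 / x2) a b) y'

end Pool.Agent.EinV
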